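import Pool.Agent.LibTy70.Defs
import Pool.Agent.LibQGr.R_HRT

/-! Row T02: algebra. All elementary. `diag_ex`: HRT_diag. `cx_perm`: the permutation matrix of `σ`
(`Equiv.Perm.permMatrix` or its inverse) is orthogonal. `sym_*`: `(V W V^T)^T`. `eig_spec`:
`Classical.epsilon_spec`. `dg_conj_perm`: two diagonal matrices conjugate by a unitary matrix have the same
characteristic polynomial (`Matrix.charpoly`, `∏ (X - λ_i)`, roots multisets equal), so the entries agree up to a
permutation (`AddCircle.injective_toCircle`). -/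

open MeasureTheory Set Filter Topology

namespace Ty

open QGr

variable {N : ℕ}

theorem cx_cont : Continuous (cx : Orth N → Uni N) := by
  refine Continuous.subtype_mk ?_ _
  exact continuous_subtype_val.matrix_map Complex.continuous_ofReal

theorem cx_mul (O R : Orth N) : cx (O * R) = cx O * cx R := by
  apply Subtype.ext
  change (O.1 * R.1).map Complex.ofRealHom = O.1.map Complex.ofRealHom * R.1.map Complex.ofRealHom
  exact Matrix.map_mul

theorem T02_cx_one : cx (1 : Orth N) = 1 := by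
  apply Subtype.ext
  change (1 : Matrix (Fin N) (Fin N) ℝ).map Complex.ofRealHom = 1
  exact Matrix.map_one _ (map_zero _) (map_one _)

theorem cx_inv (O : Orth N) : (cx O)⁻¹ = cx O⁻¹ := by
  refine inv_eq_of_mul_eq_one_right ?_
  rw [← cx_mul, mul_inv_cancel, T02_cx_one]

theorem cx_tr (O : Orth N) : (cx O).1.transpose = ((cx O)⁻¹ : Uni N).1 := by
  change (cx O).1.transpose = (cx O).1.conjTranspose
  ext i j
  rw [Matrix.transpose_apply, Matrix.conjTranspose_apply, cx_apply]
  exact (Complex.conj_ofReal _).symm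

theorem cx_tr' (O : Orth N) : ((cx O)⁻¹ : Uni N).1.transpose = (cx O).1 := by
  rw [cx_inv, cx_tr, cx_inv, inv_inv]

theorem cx_perm (σ : Equiv.Perm (Fin N)) : ∃ R : Orth N, ∀ φ : Tor N,
    cx R * dg φ * (cx R)⁻¹ = dg fun a => φ (σ a) := by
  have hP : (1 : Matrix (Fin N) (Fin N) ℝ).submatrix σ id ∈ Matrix.orthogonalGroup (Fin N) ℝ := by
    rw [Matrix.mem_orthogonalGroup_iff]
    ext a b
    rw [Matrix.mul_apply, Matrix.one_apply]
    have h1 : ∀ c : Fin N, (1 : Matrix (Fin N) (Fin N) ℝ).submatrix σ id a c *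
        ((1 : Matrix (Fin N) (Fin N) ℝ).submatrix σ id).transpose c b =
        if σ a = c then (if σ b = c then 1 else 0) else 0 := by
      intro c
      rw [Matrix.transpose_apply, Matrix.submatrix_apply, Matrix.submatrix_apply, id_eq,
        Matrix.one_apply, Matrix.one_apply]
      split_ifs <;> norm_num
    refine (Finset.sum_congr rfl fun c _ => h1 c).trans ?_
    rw [Finset.sum_ite_eq]
    simp [eq_comm]
  set R : Orth N := ⟨_, hP⟩ with hR
  refine ⟨R, fun φ => ?_⟩
  rw [mul_inv_eq_iff_eq_mul]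
  apply Subtype.ext
  ext a b
  change ((cx R).1 * Matrix.diagonal fun i => ((AddCircle.toCircle (φ i) : Circle) : ℂ)) a b =
    ((Matrix.diagonal fun i => ((AddCircle.toCircle (φ (σ i)) : Circle) : ℂ)) * (cx R).1) a b
  rw [Matrix.mul_diagonal, Matrix.diagonal_mul, cx_apply]
  change (((1 : Matrix (Fin N) (Fin N) ℝ) (σ a) b : ℝ) : ℂ) * _ =
    _ * (((1 : Matrix (Fin N) (Fin N) ℝ) (σ a) b : ℝ) : ℂ)
  by_cases h : σ a = b
  · rw [h, mul_comm]
  · rw [Matrix.one_apply_ne h]
    simp

theorem dg_inv (t : Tor N) : (dg t)⁻¹ = dg (-t) := by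
  refine inv_eq_of_mul_eq_one_right ?_
  rw [← dg_add, add_neg_cancel, dg_zero]

theorem dg_comm (s t : Tor N) : dg s * dg t = dg t * dg s := by
  rw [← dg_add, ← dg_add, add_comm]

theorem ee_norm (x : UnitAddCircle) : ‖ee x‖ = 1 := Circle.norm_coe _

theorem dg_val (t : Tor N) : (dg t).1 = Matrix.diagonal fun a => ee (t a) := rfl

theorem dg_pow (t : Tor N) (k : ℕ) : dg t ^ k = dg (k • t) := HRT_dg_pow t k

/-- Scalar matrices are central. -/
theorem dg_const (x : UnitAddCircle) (W : Uni N) :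
    dg (fun _ : Fin N => x) * W = W * dg fun _ => x := by
  apply Subtype.ext
  ext a b
  change ((Matrix.diagonal fun _ : Fin N => ((AddCircle.toCircle x : Circle) : ℂ)) * W.1) a b =
    (W.1 * Matrix.diagonal fun _ : Fin N => ((AddCircle.toCircle x : Circle) : ℂ)) a b
  rw [Matrix.mul_diagonal, Matrix.diagonal_mul, mul_comm]

theorem sy_cx (A : Uni N) (O : Orth N) : sy (A * cx O) = (cx O)⁻¹ * sy A * cx O := by
  apply Subtype.ext
  change (A.1 * (cx O).1).transpose * (A.1 * (cx O).1) =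
    ((cx O)⁻¹ : Uni N).1 * (A.1.transpose * A.1) * (cx O).1
  rw [Matrix.transpose_mul, cx_tr]
  simp only [mul_assoc]

theorem T02_dg_tr (t : Tor N) : (dg t).1.transpose = (dg t).1 := by
  rw [dg_val, Matrix.diagonal_transpose]

theorem sy_dg (A : Uni N) (t : Tor N) : sy (A * dg t) = dg t * sy A * dg t := by
  apply Subtype.ext
  change (A.1 * (dg t).1).transpose * (A.1 * (dg t).1) =
    (dg t).1 * (A.1.transpose * A.1) * (dg t).1
  rw [Matrix.transpose_mul, T02_dg_tr]
  simp only [mul_assoc]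

theorem sy_sym (A : Uni N) : Sym (sy A) := by
  change (A.1.transpose * A.1).transpose = A.1.transpose * A.1
  rw [Matrix.transpose_mul, Matrix.transpose_transpose]

theorem sym_dg (t : Tor N) : Sym (dg t) := T02_dg_tr t

theorem sym_mul (V X : Uni N) (hV : Sym V) (hX : Sym X) : Sym (V * X * V) := by
  have h1 : V.1.transpose = V.1 := hV
  have h2 : X.1.transpose = X.1 := hX
  change (V.1 * X.1 * V.1).transpose = V.1 * X.1 * V.1
  rw [Matrix.transpose_mul, Matrix.transpose_mul, h1, h2, mul_assoc]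

theorem sym_cx (O : Orth N) (X : Uni N) (hX : Sym X) : Sym ((cx O)⁻¹ * X * cx O) := by
  have h2 : X.1.transpose = X.1 := hX
  change (((cx O)⁻¹ : Uni N).1 * X.1 * (cx O).1).transpose =
    ((cx O)⁻¹ : Uni N).1 * X.1 * (cx O).1
  rw [Matrix.transpose_mul, Matrix.transpose_mul, h2, cx_tr, cx_tr', mul_assoc]

theorem sym_cx' (O : Orth N) (X : Uni N) (hX : Sym X) : Sym (cx O * X * (cx O)⁻¹) := by
  have h2 : X.1.transpose = X.1 := hX
  change ((cx O).1 * X.1 * ((cx O)⁻¹ : Uni N).1).transpose =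
    (cx O).1 * X.1 * ((cx O)⁻¹ : Uni N).1
  rw [Matrix.transpose_mul, Matrix.transpose_mul, h2, cx_tr, cx_tr', mul_assoc]

theorem sy_mul_sym (A Z : Uni N) (hZ : Sym Z) : sy (A * Z) = Z * sy A * Z := by
  have h1 : Z.1.transpose = Z.1 := hZ
  apply Subtype.ext
  change (A.1 * Z.1).transpose * (A.1 * Z.1) = Z.1 * (A.1.transpose * A.1) * Z.1
  rw [Matrix.transpose_mul, h1]
  simp only [mul_assoc]

theorem diag_ex (W : Uni N) : ∃ (V : Uni N) (φ : Tor N), W = V * dg φ * V⁻¹ := by
  obtain ⟨V, φ, _, h⟩ := HRT_diag W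
  exact ⟨V, _, h⟩

theorem eig_spec (W : Uni N) : ∃ V : Uni N, W = V * dg (eig W) * V⁻¹ := by
  obtain ⟨V, φ, h⟩ := diag_ex W
  exact Classical.epsilon_spec (p := fun φ : Tor N => ∃ V : Uni N, W = V * dg φ * V⁻¹) ⟨φ, V, h⟩

theorem T02_perm {β : Type*} {f g : Fin N → β}
    (h : Finset.univ.val.map f = Finset.univ.val.map g) :
    ∃ σ : Equiv.Perm (Fin N), ∀ a, f a = g (σ a) := by
  classical
  have h1 : ∀ x : β, Nonempty ({a // f a = x} ≃ {a // g a = x}) := by
    intro x
    rw [← Fintype.card_eq, Fintype.card_subtype, Fintype.card_subtype]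
    have h2 := congrArg (Multiset.count x) h
    rw [Multiset.count_map, Multiset.count_map] at h2
    have h3 : ∀ u : Fin N → β, (Finset.univ.filter fun a => u a = x).card =
        Multiset.card (Finset.univ.val.filter fun a => x = u a) := by
      intro u
      rw [Finset.card_def, Finset.filter_val]
      congr 1
      exact Multiset.filter_congr fun a _ => eq_comm
    rw [h3, h3, h2]
  have e' : ∀ x : β, {a // f a = x} ≃ {a // g a = x} := fun x => (h1 x).some
  refine ⟨(Equiv.sigmaFiberEquiv f).symm.trans ((Equiv.sigmaCongrRight e').trans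
    (Equiv.sigmaFiberEquiv g)), fun a => ?_⟩
  have h4 := (e' (f a) ⟨a, rfl⟩).2
  exact h4.symm

theorem T02_roots (d : Fin N → ℂ) :
    (Matrix.diagonal d).charpoly.roots = Finset.univ.val.map d := by
  rw [Matrix.charpoly_diagonal]
  have h1 : ∏ i, (Polynomial.X - Polynomial.C (d i)) =
      ((Finset.univ.val.map d).map fun a => Polynomial.X - Polynomial.C a).prod := by
    rw [Multiset.map_map]
    rfl
  rw [h1]
  exact Polynomial.roots_multiset_prod_X_sub_C _

theorem dg_conj_perm (φ ψ : Tor N) (V : Uni N) (h : dg φ = V * dg ψ * V⁻¹) :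
    ∃ σ : Equiv.Perm (Fin N), ∀ a, φ a = ψ (σ a) := by
  have h1 : (dg φ).1 = V.1 * (dg ψ).1 * (V⁻¹ : Uni N).1 := congrArg Subtype.val h
  have h3 : (V⁻¹ : Uni N).1 * V.1 = 1 := congrArg Subtype.val (inv_mul_cancel V)
  have h2 : (dg φ).1.charpoly = (dg ψ).1.charpoly := by
    rw [h1, Matrix.charpoly_mul_comm, ← mul_assoc, h3, one_mul]
  rw [dg_val, dg_val] at h2
  have h5 := congrArg Polynomial.roots h2
  rw [T02_roots, T02_roots] at h5
  obtain ⟨σ, hσ⟩ := T02_perm h5
  refine ⟨σ, fun a => ?_⟩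
  exact AddCircle.injective_toCircle one_ne_zero (Circle.ext (hσ a))

end Ty
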