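import Pool.Agent.LibTy70.T01
import Pool.Agent.LibTy70.T02
import Pool.Agent.LibQGr.R_AVG

/-! Row T18: peeling the first layer. Plan: `tr_peel` by induction on `m` (LibQGr `tr`), `sy_peel`: sy_cx, sy_dg.
`tr_trj`, `pr_add`, `pr_congr`: inductions. `int_peel`: the measure on
`Fin (m+2) → Tor N` is the product of the first coordinate and the rest
(`volume_preserving_piFinSuccAbove _ 0`, as in snoc_int of LibQGr R_AVG), similarly for `haarM`. -/

open MeasureTheory Set Filter Topology

namespace Ty

open QGr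

variable {N : ℕ}

theorem tr_peel (O : ℕ → Orth N) (m : ℕ) (θ : Fin (m + 2) → Tor N) :
    tr O (m + 1) θ = tr (fun j => O (j + 1)) m (fun j => θ j.succ) * cx (O 0) * dg (θ 0) := by
  induction m with
  | zero => rfl
  | succ m ih =>
    have h := ih (fun j => θ j.castSucc)
    show dg (θ (Fin.last (m + 2))) * cx (O (m + 1)) * tr O (m + 1) (fun j => θ j.castSucc) = _
    rw [h]
    show _ = dg (θ (Fin.last (m + 1)).succ) * cx (O (m + 1)) *
      tr (fun j => O (j + 1)) m (fun j => θ j.castSucc.succ) * cx (O 0) * dg (θ 0)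
    simp only [Fin.succ_last, Fin.succ_castSucc, Fin.castSucc_zero, mul_assoc]

theorem sy_peel (O : ℕ → Orth N) (m : ℕ) (θ : Fin (m + 2) → Tor N) :
    sy (tr O (m + 1) θ) =
      dg (θ 0) * (cx (O 0))⁻¹ * sy (tr (fun j => O (j + 1)) m (fun j => θ j.succ)) * cx (O 0) * dg (θ 0) := by
  rw [tr_peel, sy_dg, sy_cx]
  simp only [mul_assoc]

theorem T18_pr_congr (O O' : ℕ → Orth N) (θ θ' : ℕ → Tor N) (i k : ℕ)
    (h : ∀ r < k, O (i + r) = O' (i + r) ∧ θ (i + r + 1) = θ' (i + r + 1)) :
    pr O θ i k = pr O' θ' i k := by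
  induction k with
  | zero => rfl
  | succ k ih =>
    simp only [pr]
    rw [ih fun r hr => h r (by omega), (h k (by omega)).1, (h k (by omega)).2]

theorem tr_trj {m : ℕ} (O : ℕ → Orth N) (θ : Fin (m + 1) → Tor N) : tr O m θ = trj O θ m := by
  induction m with
  | zero => simp [tr, trj, pr]
  | succ m ih =>
    have h1 : tr O (m + 1) θ = dg (θ (Fin.last (m + 1))) * cx (O m) * tr O m fun j => θ j.castSucc :=
      rfl
    rw [h1, ih]
    unfold trj
    have h2 : pr O (ext fun j : Fin (m + 1) => θ j.castSucc) 0 m = pr O (ext θ) 0 m := by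
      refine T18_pr_congr _ _ _ _ _ _ fun r hr => ⟨rfl, ?_⟩
      unfold ext
      rw [dif_pos (by omega), dif_pos (by omega)]
      rfl
    have h3 : pr O (ext θ) 0 (m + 1) = dg (ext θ (0 + m + 1)) * cx (O (0 + m)) * pr O (ext θ) 0 m := rfl
    have h4 : ext θ (0 + m + 1) = θ (Fin.last (m + 1)) := by
      unfold ext
      rw [dif_pos (by omega)]
      congr 1
      ext
      simp
    rw [h2, h3, h4, zero_add]
    simp only [mul_assoc]
    rfl

theorem pr_add (O : ℕ → Orth N) (θ : ℕ → Tor N) (i k k' : ℕ) :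
    pr O θ i (k + k') = pr O θ (i + k) k' * pr O θ i k := by
  induction k' with
  | zero => simp [pr]
  | succ k' ih =>
    have h1 : pr O θ i (k + (k' + 1)) =
        dg (θ (i + (k + k') + 1)) * cx (O (i + (k + k'))) * pr O θ i (k + k') := rfl
    have h2 : pr O θ (i + k) (k' + 1) =
        dg (θ (i + k + k' + 1)) * cx (O (i + k + k')) * pr O θ (i + k) k' := rfl
    rw [h1, h2, ih, ← add_assoc i k k']
    simp only [mul_assoc]

theorem pr_congr (O O' : ℕ → Orth N) (θ θ' : ℕ → Tor N) (i k : ℕ)
    (h : ∀ r < k, O (i + r) = O' (i + r) ∧ θ (i + r + 1) = θ' (i + r + 1)) :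
    pr O θ i k = pr O' θ' i k := T18_pr_congr O O' θ θ' i k h

theorem T18_ext_cont {m : ℕ} (j : ℕ) : Continuous fun θ : Fin (m + 1) → Tor N => ext θ j := by
  by_cases h : j < m + 1
  · simp only [ext, dif_pos h]
    exact continuous_apply _
  · simp only [ext, dif_neg h]
    exact continuous_const

theorem T18_pr_cont {m : ℕ} (i k : ℕ) : Continuous fun q : (ℕ → Orth N) × (Fin (m + 1) → Tor N) =>
    pr q.1 (ext q.2) i k := by
  induction k with
  | zero => exact continuous_const
  | succ k ih =>
    have h : (fun q : (ℕ → Orth N) × (Fin (m + 1) → Tor N) => pr q.1 (ext q.2) i (k + 1)) =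
        fun q => dg (ext q.2 (i + k + 1)) * cx (q.1 (i + k)) * pr q.1 (ext q.2) i k := rfl
    rw [h]
    have h1 : Continuous fun q : (ℕ → Orth N) × (Fin (m + 1) → Tor N) => dg (ext q.2 (i + k + 1)) :=
      dg_cont.comp ((T18_ext_cont _).comp continuous_snd)
    have h2 : Continuous fun q : (ℕ → Orth N) × (Fin (m + 1) → Tor N) => cx (q.1 (i + k)) :=
      cx_cont.comp ((continuous_apply (i + k)).comp continuous_fst)
    exact (h1.mul h2).mul ih

theorem trj_cont {m : ℕ} (j : ℕ) : Continuous fun q : (ℕ → Orth N) × (Fin (m + 1) → Tor N) => trj q.1 q.2 j := by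
  unfold trj
  exact (T18_pr_cont 0 j).mul (dg_cont.comp ((continuous_apply 0).comp continuous_snd))

/-- Fubini for one coordinate. -/
theorem T18_ins {X : Type} [TopologicalSpace X] [CompactSpace X] [SecondCountableTopology X]
    [MeasurableSpace X] [BorelSpace X] (μ : Measure X) [IsProbabilityMeasure μ] (M : ℕ)
    (j : Fin (M + 1)) (f : (Fin (M + 1) → X) → ℝ) (hf : Continuous f) :
    ∫ θ, f θ ∂(Measure.pi fun _ => μ) =
      ∫ θ : Fin M → X, ∫ t : X, f (j.insertNth t θ) ∂μ ∂(Measure.pi fun _ => μ) := by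
  have hmp := (measurePreserving_piFinSuccAbove (fun _ : Fin (M + 1) => μ) j).symm
  have h1 := hmp.integral_comp (MeasurableEquiv.measurableEmbedding _) f
  rw [← h1]
  have h4 : ∀ (t : X) (θ : Fin M → X),
      (MeasurableEquiv.piFinSuccAbove (fun _ : Fin (M + 1) => X) j).symm (t, θ) =
      j.insertNth t θ := fun t θ => rfl
  have hc : Continuous fun q : X × (Fin M → X) =>
      f ((MeasurableEquiv.piFinSuccAbove (fun _ : Fin (M + 1) => X) j).symm q) := by
    refine hf.comp ?_
    show Continuous fun q : X × (Fin M → X) => (j.insertNth q.1 q.2 : Fin (M + 1) → X)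
    have h5 : Continuous fun q : X × (Fin M → X) => q.1 := continuous_fst
    have h6 : Continuous fun q : X × (Fin M → X) => q.2 := continuous_snd
    exact Continuous.finInsertNth j h5 h6
  have h2 := integral_prod_symm (μ := μ) (ν := Measure.pi fun _ : Fin M => μ) _
    (AVG_int (μ.prod (Measure.pi fun _ : Fin M => μ)) _ hc)
  exact h2

theorem T18_upd {X : Type} [TopologicalSpace X] [CompactSpace X] [T2Space X] [SecondCountableTopology X]
    [MeasurableSpace X] [BorelSpace X] (μ : Measure X) [IsProbabilityMeasure μ] (M : ℕ)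
    (j : Fin (M + 1)) (f : (Fin (M + 1) → X) → ℝ) (hf : Continuous f) :
    ∫ θ, f θ ∂(Measure.pi fun _ => μ) =
      ∫ θ : Fin (M + 1) → X, ∫ t : X, f (Function.update θ j t) ∂μ ∂(Measure.pi fun _ => μ) := by
  have hc : Continuous fun θ : Fin (M + 1) → X => ∫ t : X, f (Function.update θ j t) ∂μ := by
    have h : Continuous (Function.uncurry fun (θ : Fin (M + 1) → X) (t : X) =>
        f (Function.update θ j t)) :=
      hf.comp (continuous_fst.update j continuous_snd)
    have h2 := continuous_parametric_integral_of_continuous (μ := μ) h (isCompact_univ (X := X))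
    simp only [Measure.restrict_univ] at h2
    exact h2
  rw [T18_ins μ M j f hf, T18_ins μ M j _ hc]
  refine integral_congr_ae (Filter.Eventually.of_forall fun θ => ?_)
  simp

theorem int_cons (m : ℕ) (f : (Fin (m + 1) → Tor N) → ℝ) (hf : Continuous f) :
    ∫ θ, f θ = ∫ θ : Fin m → Tor N, ∫ t : Tor N, f (Fin.cons t θ) := by
  have h := T18_ins (volume : Measure (Tor N)) m 0 f hf
  simp only [Fin.insertNth_zero'] at h
  exact h

theorem intM_cons (M : ℕ) (f : (Fin (M + 1) → Orth N) → ℝ) (hf : Continuous f) :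
    ∫ P, f P ∂(haarM N (M + 1)) = ∫ P, ∫ O, f (Fin.cons O P) ∂(haarO N) ∂(haarM N M) := by
  have := sc_orth N
  have := prob_haarO N
  have h := T18_ins (haarO N) M 0 f hf
  simp only [Fin.insertNth_zero'] at h
  exact h

theorem cat_cons {M : ℕ} (O : Orth N) (P : Fin M → Orth N) (O' : ℕ → Orth N) :
    (cat (Fin.cons O P : Fin (M + 1) → Orth N) O' 0 = O) ∧
    ∀ j, cat (Fin.cons O P : Fin (M + 1) → Orth N) O' (j + 1) = cat P (fun j => O' (j + 1)) j := by
  constructor
  · unfold cat
    rw [dif_pos (by omega)]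
    rfl
  · intro j
    unfold cat
    by_cases h : j < M
    · rw [dif_pos (by omega), dif_pos h]
      rfl
    · rw [dif_neg (by omega), dif_neg h]

theorem cat_cont {M : ℕ} (O' : ℕ → Orth N) : Continuous fun P : Fin M → Orth N => cat P O' := by
  refine continuous_pi fun j => ?_
  by_cases h : j < M
  · simp only [cat, dif_pos h]
    exact continuous_apply _
  · simp only [cat, dif_neg h]
    exact continuous_const

/-- Integrating one coordinate first. -/
theorem int_coord (m : ℕ) (j : Fin (m + 1)) (f : (Fin (m + 1) → Tor N) → ℝ) (hf : Continuous f) :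
    ∫ θ, f θ = ∫ θ : Fin (m + 1) → Tor N, ∫ t : Tor N, f (Function.update θ j t) :=
  T18_upd (volume : Measure (Tor N)) m j f hf

theorem intM_coord (M : ℕ) (j : Fin M) (f : (Fin M → Orth N) → ℝ) (hf : Continuous f) :
    ∫ P, f P ∂(haarM N M) =
      ∫ P, (∫ O, f (Function.update P j O) ∂(haarO N)) ∂(haarM N M) := by
  have := sc_orth N
  have := prob_haarO N
  cases M with
  | zero => exact j.elim0
  | succ M => exact T18_upd (haarO N) M j f hf

/-- Joint continuity of the transfer matrix. -/
theorem trc (m : ℕ) : Continuous fun q : (ℕ → Orth N) × (Fin (m + 1) → Tor N) => tr q.1 m q.2 := by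
  simp only [tr_trj]
  exact trj_cont m

end Ty
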