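import Pool.Agent.LibTy70.T03
import Pool.Agent.LibTy70.T18

/-! Row K01: the delay matrix as a sum over the layers. Plan: `Bm O m l θ = ∑_j (trj O θ j)^* diag(l j) (trj O θ j)` by induction on `m`
(LibQGr `Bm`; `tr_trj`, for the restricted sequence `trj` is unchanged: pr_congr). `N/len l * (1/N) ∑_j ∑_i l j i = 1`, so
`B0 = (N/len l) ∑_j A_j^* dm (Lp l j) A_j`. `An n (A⁻¹ D A) W = A⁻¹ (An n D (A W A⁻¹)) A`: fro_An_conj. Triangle inequality and
Cauchy-Schwarz for the sum of `m + 1` terms. -/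

open MeasureTheory Set Filter Topology

namespace Ty

open QGr

variable {N : ℕ}

theorem k01_inv (A : Uni N) : (A⁻¹ : Uni N).1 = A.1.conjTranspose := rfl

theorem k01_trj (O : ℕ → Orth N) (m : ℕ) (θ : Fin (m + 2) → Tor N) (j : Fin (m + 1)) :
    trj O θ (j.castSucc : Fin (m + 2)) = trj O (fun i : Fin (m + 1) => θ i.castSucc) j := by
  unfold trj
  congr 1
  refine pr_congr O O _ _ 0 _ fun r hr => ⟨rfl, ?_⟩
  have hj := j.2
  have hr2 : r < (j : ℕ) := by simpa using hr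
  have h1 : 0 + r + 1 < m + 1 := by omega
  have h2 : 0 + r + 1 < m + 1 + 1 := by omega
  unfold ext
  rw [dif_pos h1, dif_pos h2]
  rfl

theorem Bm_sum (O : ℕ → Orth N) (m : ℕ) (l : Fin (m + 1) → Fin N → ℝ) (θ : Fin (m + 1) → Tor N) :
    Bm O m l θ = ∑ j : Fin (m + 1), ((trj O θ j)⁻¹ : Uni N).1 * dm (l j) * (trj O θ j).1 := by
  induction m with
  | zero =>
    rw [Fin.sum_univ_one]
    have h0 : trj O θ ((0 : Fin 1) : ℕ) = dg (θ 0) := by
      show pr O (ext θ) 0 0 * dg (θ 0) = _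
      rw [pr, one_mul]
    rw [h0, dg_inv, dg_val, dg_val, dm, Matrix.diagonal_mul_diagonal, Matrix.diagonal_mul_diagonal, Bm]
    congr 1
    funext a
    have h1 : ee ((-θ 0) a) * ee (θ 0 a) = 1 := by
      have h2 := congrArg Subtype.val (inv_mul_cancel (dg (θ 0)))
      have h3 : ((dg (θ 0))⁻¹ : Uni N).1 * (dg (θ 0)).1 = 1 := h2
      rw [dg_inv, dg_val, dg_val, Matrix.diagonal_mul_diagonal] at h3
      have h4 := congrFun (congrFun h3 a) a
      rw [Matrix.diagonal_apply_eq, Matrix.one_apply_eq] at h4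
      exact h4
    calc (l 0 a : ℂ) = (l 0 a : ℂ) * (ee ((-θ 0) a) * ee (θ 0 a)) := by rw [h1, mul_one]
      _ = ee ((-θ 0) a) * (l 0 a : ℂ) * ee (θ 0 a) := by ring
  | succ m ih =>
    have hB : Bm O (m + 1) l θ = (tr O (m + 1) θ).1.conjTranspose
      * (Matrix.diagonal fun i => (l (Fin.last (m + 1)) i : ℂ)) * (tr O (m + 1) θ).1
      + Bm O m (fun j => l j.castSucc) fun j => θ j.castSucc := by rw [Bm]
    rw [hB, Fin.sum_univ_castSucc, ih, add_comm]
    have h1 : ∀ j : Fin (m + 1),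
        ((trj O (fun i : Fin (m + 1) => θ i.castSucc) j)⁻¹ : Uni N).1 * dm (l j.castSucc) *
          (trj O (fun i : Fin (m + 1) => θ i.castSucc) j).1 =
        ((trj O θ (j.castSucc : Fin (m + 2)))⁻¹ : Uni N).1 * dm (l j.castSucc) *
          (trj O θ (j.castSucc : Fin (m + 2))).1 := by
      intro j
      rw [k01_trj]
    rw [Finset.sum_congr rfl fun j _ => h1 j, k01_inv (trj O θ (Fin.last (m + 1) : Fin (m + 2))), tr_trj]
    rfl

theorem k01_An_sum {ι : Type} (s : Finset ι) (n : ℕ) (K : ι → Mat N) (U : Uni N) :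
    An n (∑ j ∈ s, K j) U = ∑ j ∈ s, An n (K j) U := by
  classical
  induction s using Finset.induction_on with
  | empty =>
    rw [Finset.sum_empty, Finset.sum_empty]
    have := An_smul n 0 (0 : Mat N) U
    rwa [zero_smul, zero_smul] at this
  | insert a s ha ih => rw [Finset.sum_insert ha, Finset.sum_insert ha, An_add, ih]

theorem k01_dm {m : ℕ} (l : Fin (m + 1) → Fin N → ℝ) (j : Fin (m + 1)) :
    dm (l j) = dm (Lp l j) + ((1 / N * ∑ i', l j i' : ℝ) : ℂ) • (1 : Mat N) := by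
  rw [dm, dm, Matrix.smul_one_eq_diagonal, Matrix.diagonal_add]
  congr 1
  funext a
  rw [Lp]
  push_cast
  ring

theorem k01_B0 (hN : 0 < N) (O : ℕ → Orth N) (m : ℕ) (l : Fin (m + 1) → Fin N → ℝ)
    (hl : 0 < len l) (θ : Fin (m + 1) → Tor N) :
    B0 O m l θ = ((N / len l : ℝ) : ℂ) •
      ∑ j : Fin (m + 1), ((trj O θ j)⁻¹ : Uni N).1 * dm (Lp l j) * (trj O θ j).1 := by
  have h1 : ∀ j : Fin (m + 1), ((trj O θ j)⁻¹ : Uni N).1 * dm (l j) * (trj O θ j).1 =
      ((trj O θ j)⁻¹ : Uni N).1 * dm (Lp l j) * (trj O θ j).1 +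
        ((1 / N * ∑ i', l j i' : ℝ) : ℂ) • (1 : Mat N) := by
    intro j
    have h3 : ((trj O θ j)⁻¹ : Uni N).1 * (trj O θ j).1 = 1 :=
      congrArg Subtype.val (inv_mul_cancel (trj O θ j))
    rw [k01_dm, mul_add, add_mul, Matrix.mul_smul, Matrix.smul_mul, mul_one, h3]
  rw [B0, Bm_sum, Finset.sum_congr rfl fun j _ => h1 j, Finset.sum_add_distrib, smul_add, ← Finset.sum_smul,
    smul_smul]
  have h2 : ((N / len l : ℝ) : ℂ) * ∑ j : Fin (m + 1), ((1 / N * ∑ i', l j i' : ℝ) : ℂ) = 1 := by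
    rw [← Complex.ofReal_sum, ← Complex.ofReal_mul, ← Finset.mul_sum]
    have hN' : (N : ℝ) ≠ 0 := by positivity
    have h4 : (∑ j : Fin (m + 1), ∑ i', l j i') = len l := rfl
    rw [h4]
    have : (N : ℝ) / len l * (1 / N * len l) = 1 := by field_simp
    rw [this, Complex.ofReal_one]
  rw [h2, one_smul, add_sub_cancel_right]

theorem B0_le (hN : 0 < N) (n : ℕ) (O : ℕ → Orth N) (m : ℕ) (l : Fin (m + 1) → Fin N → ℝ)
    (hl : 0 < len l) (θ : Fin (m + 1) → Tor N) :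
    fro (An n (B0 O m l θ) (sy (tr O m θ))) ^ 2 ≤
      (N / len l) ^ 2 * (m + 1) * ∑ j : Fin (m + 1), fro (An n (dm (Lp l j)) (Uj O θ j)) ^ 2 := by
  have h1 : ∀ j : Fin (m + 1),
      fro (An n (((trj O θ j)⁻¹ : Uni N).1 * dm (Lp l j) * (trj O θ j).1) (sy (tr O m θ))) =
        fro (An n (dm (Lp l j)) (Uj O θ j)) := by
    intro j
    have h2 := fro_An_conj n (dm (Lp l j)) (Uj O θ j) (trj O θ j)⁻¹
    have h3 : (trj O θ j)⁻¹ * Uj O θ j * ((trj O θ j)⁻¹)⁻¹ = sy (tr O m θ) := by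
      rw [Uj]; group
    rw [h3, inv_inv] at h2
    exact h2
  have h4 : fro (An n (B0 O m l θ) (sy (tr O m θ))) ≤
      N / len l * ∑ j : Fin (m + 1), fro (An n (dm (Lp l j)) (Uj O θ j)) := by
    rw [k01_B0 hN O m l hl θ, An_smul, fro_smul, k01_An_sum, Complex.norm_real, Real.norm_eq_abs,
      abs_of_nonneg (by positivity)]
    refine mul_le_mul_of_nonneg_left ?_ (by positivity)
    refine le_trans (fro_sum _ _) (le_of_eq ?_)
    exact Finset.sum_congr rfl fun j _ => h1 j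
  have h5 : (∑ j : Fin (m + 1), fro (An n (dm (Lp l j)) (Uj O θ j))) ^ 2 ≤
      (m + 1) * ∑ j : Fin (m + 1), fro (An n (dm (Lp l j)) (Uj O θ j)) ^ 2 := by
    have := sq_sum_le_card_mul_sum_sq (s := Finset.univ)
      (f := fun j : Fin (m + 1) => fro (An n (dm (Lp l j)) (Uj O θ j)))
    rw [Finset.card_univ, Fintype.card_fin] at this
    push_cast at this
    exact this
  calc fro (An n (B0 O m l θ) (sy (tr O m θ))) ^ 2
      ≤ (N / len l * ∑ j : Fin (m + 1), fro (An n (dm (Lp l j)) (Uj O θ j))) ^ 2 :=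
        pow_le_pow_left₀ (fro_nonneg _) h4 2
    _ = (N / len l) ^ 2 * (∑ j : Fin (m + 1), fro (An n (dm (Lp l j)) (Uj O θ j))) ^ 2 := by ring
    _ ≤ (N / len l) ^ 2 * ((m + 1) * ∑ j : Fin (m + 1), fro (An n (dm (Lp l j)) (Uj O θ j)) ^ 2) :=
        mul_le_mul_of_nonneg_left h5 (sq_nonneg _)
    _ = (N / len l) ^ 2 * (m + 1) * ∑ j : Fin (m + 1), fro (An n (dm (Lp l j)) (Uj O θ j)) ^ 2 := by ring

theorem Lp_sum (hN : 0 < N) {m : ℕ} (l : Fin (m + 1) → Fin N → ℝ) (j : Fin (m + 1)) :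
    ∑ i, Lp l j i = 0 := by
  have hN' : (N : ℝ) ≠ 0 := by positivity
  simp only [Lp]
  rw [Finset.sum_sub_distrib, Finset.sum_const, Finset.card_univ, Fintype.card_fin, nsmul_eq_mul]
  field_simp
  ring

theorem Lp_sq (hN : 0 < N) {m : ℕ} (l : Fin (m + 1) → Fin N → ℝ) (a b : ℝ)
    (hl : ∀ j i, l j i ∈ Icc a b) (j : Fin (m + 1)) : ∑ i, Lp l j i ^ 2 ≤ N * (b - a) ^ 2 := by
  have hN' : (0 : ℝ) < N := by positivity
  have h1 : a ≤ 1 / N * ∑ i', l j i' := by
    have : ∑ _i' : Fin N, a ≤ ∑ i', l j i' := Finset.sum_le_sum fun i _ => (hl j i).1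
    rw [Finset.sum_const, Finset.card_univ, Fintype.card_fin, nsmul_eq_mul] at this
    calc a = 1 / N * (N * a) := by field_simp
      _ ≤ _ := mul_le_mul_of_nonneg_left this (by positivity)
  have h2 : 1 / N * ∑ i', l j i' ≤ b := by
    have : ∑ i', l j i' ≤ ∑ _i' : Fin N, b := Finset.sum_le_sum fun i _ => (hl j i).2
    rw [Finset.sum_const, Finset.card_univ, Fintype.card_fin, nsmul_eq_mul] at this
    calc 1 / N * ∑ i', l j i' ≤ 1 / N * (N * b) := mul_le_mul_of_nonneg_left this (by positivity)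
      _ = b := by field_simp
  have h3 : ∀ i, Lp l j i ^ 2 ≤ (b - a) ^ 2 := by
    intro i
    rw [Lp]
    refine sq_le_sq' ?_ ?_
    · linarith [(hl j i).1]
    · linarith [(hl j i).2]
  calc ∑ i, Lp l j i ^ 2 ≤ ∑ _i : Fin N, (b - a) ^ 2 := Finset.sum_le_sum fun i _ => h3 i
    _ = N * (b - a) ^ 2 := by rw [Finset.sum_const, Finset.card_univ, Fintype.card_fin, nsmul_eq_mul]

end Ty
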