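import Pool.Agent.LibTy70.Defs
import Pool.Agent.LibQGr.R_HRT

/-! Row T01: Haar measures. Plan: compact groups are unimodular. `haarO`, `haarU` are Haar measures
(`Measure.haarMeasure`), so left invariant; the image of the Haar measure under a right translation (or under
inversion) is again a left invariant (resp. for inversion: use right invariance) probability measure, and
left invariant probability (regular: compact metrisable group) measures are unique
(`Measure.isHaarMeasure_eq_smul`, `Measure.haarMeasure_unique`, `isMulLeftInvariant_eq_smul`; LibQGr R_HRT /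
LibCOE CO_B1 have a version for `haarU`); direct alternative for right invariance and inversion: for continuous f,
∫∫ f(xy) dμ(x) dμ(y) in both orders (Fubini). Second countability: subtype of the matrices (see AVG_fc in LibQGr R_AVG). -/

open MeasureTheory Set Filter Topology

namespace Ty

open QGr

section general

variable {G : Type*} [Group G] [TopologicalSpace G] [IsTopologicalGroup G] [CompactSpace G]
  [MeasurableSpace G] [BorelSpace G] (μ : Measure G) [μ.IsHaarMeasure] [IsProbabilityMeasure μ]

theorem T01_right [SecondCountableTopology G] (R : G) :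
    Measure.map (fun A : G => A * R) μ = μ := by
  let e : G ≃ₜ G := Homeomorph.mulRight R
  have hmeas : Measurable (fun A : G => A * R) := e.continuous.measurable
  have hP : IsProbabilityMeasure (Measure.map (fun A : G => A * R) μ) :=
    Measure.isProbabilityMeasure_map hmeas.aemeasurable
  have hL : Measure.IsMulLeftInvariant (Measure.map (fun A : G => A * R) μ) :=
    isMulLeftInvariant_map_mul_right R
  have hO : Measure.IsOpenPosMeasure (Measure.map (fun A : G => A * R) μ) :=
    e.continuous.isOpenPosMeasure_map e.surjective
  have hH : Measure.IsHaarMeasure (Measure.map (fun A : G => A * R) μ) := { }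
  exact Measure.isHaarMeasure_eq_of_isProbabilityMeasure _ _

theorem T01_inv [SecondCountableTopology G] : Measure.map (fun A : G => A⁻¹) μ = μ := by
  let e : G ≃ₜ G := Homeomorph.inv G
  have hmeas : Measurable (fun A : G => A⁻¹) := e.continuous.measurable
  have hR : μ.IsMulRightInvariant := ⟨fun g => T01_right μ g⟩
  have hP : IsProbabilityMeasure (Measure.map (fun A : G => A⁻¹) μ) :=
    Measure.isProbabilityMeasure_map hmeas.aemeasurable
  have hL : Measure.IsMulLeftInvariant (Measure.map (fun A : G => A⁻¹) μ) := by
    change Measure.IsMulLeftInvariant μ.inv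
    infer_instance
  have hO : Measure.IsOpenPosMeasure (Measure.map (fun A : G => A⁻¹) μ) :=
    e.continuous.isOpenPosMeasure_map e.surjective
  have hH : Measure.IsHaarMeasure (Measure.map (fun A : G => A⁻¹) μ) := { }
  exact Measure.isHaarMeasure_eq_of_isProbabilityMeasure _ _

end general

theorem sc_orth (N : ℕ) : SecondCountableTopology (Orth N) := by
  have : SecondCountableTopology (Matrix (Fin N) (Fin N) ℝ) :=
    inferInstanceAs (SecondCountableTopology (Fin N → Fin N → ℝ))
  exact TopologicalSpace.Subtype.secondCountableTopology
      (Matrix.orthogonalGroup (Fin N) ℝ : Set (Matrix (Fin N) (Fin N) ℝ))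

theorem sc_uni (N : ℕ) : SecondCountableTopology (Uni N) := by
  have : SecondCountableTopology (Matrix (Fin N) (Fin N) ℂ) :=
    inferInstanceAs (SecondCountableTopology (Fin N → Fin N → ℂ))
  exact TopologicalSpace.Subtype.secondCountableTopology
      (Matrix.unitaryGroup (Fin N) ℂ : Set (Matrix (Fin N) (Fin N) ℂ))

theorem prob_haarO (N : ℕ) : IsProbabilityMeasure (haarO N) := by
  refine ⟨?_⟩
  unfold haarO
  exact Measure.haarMeasure_self

theorem T01_isHaarO (N : ℕ) : (haarO N).IsHaarMeasure := by
  unfold haarO
  infer_instance

theorem T01_isHaarU (N : ℕ) : (haarU N).IsHaarMeasure := by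
  unfold haarU
  infer_instance

theorem prob_haarM (N M : ℕ) : IsProbabilityMeasure (haarM N M) := by
  have := prob_haarO N
  unfold haarM
  infer_instance

theorem haarO_left {N : ℕ} (R : Orth N) : MeasurePreserving (fun O => R * O) (haarO N) (haarO N) := by
  have := T01_isHaarO N
  have := sc_orth N
  exact measurePreserving_mul_left (haarO N) R

theorem haarO_right {N : ℕ} (R : Orth N) : MeasurePreserving (fun O => O * R) (haarO N) (haarO N) := by
  have := T01_isHaarO N
  have := prob_haarO N
  have := sc_orth N
  exact ⟨(Homeomorph.mulRight R).continuous.measurable, T01_right (haarO N) R⟩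

theorem haarO_inv {N : ℕ} : MeasurePreserving (fun O : Orth N => O⁻¹) (haarO N) (haarO N) := by
  have := T01_isHaarO N
  have := prob_haarO N
  have := sc_orth N
  exact ⟨(Homeomorph.inv (Orth N)).continuous.measurable, T01_inv (haarO N)⟩

theorem intO_left {N : ℕ} (R : Orth N) (f : Orth N → ℝ) :
    ∫ O, f (R * O) ∂(haarO N) = ∫ O, f O ∂(haarO N) :=
  (haarO_left R).integral_comp (Homeomorph.mulLeft R).measurableEmbedding f

theorem intO_right {N : ℕ} (R : Orth N) (f : Orth N → ℝ) :
    ∫ O, f (O * R) ∂(haarO N) = ∫ O, f O ∂(haarO N) :=
  (haarO_right R).integral_comp (Homeomorph.mulRight R).measurableEmbedding f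

theorem intO_inv {N : ℕ} (f : Orth N → ℝ) :
    ∫ O, f O⁻¹ ∂(haarO N) = ∫ O, f O ∂(haarO N) :=
  haarO_inv.integral_comp (Homeomorph.inv (Orth N)).measurableEmbedding f

theorem haarU_right {N : ℕ} (R : Uni N) : MeasurePreserving (fun O => O * R) (haarU N) (haarU N) := by
  have := T01_isHaarU N
  have := haar_prob N
  have := sc_uni N
  exact ⟨(Homeomorph.mulRight R).continuous.measurable, T01_right (haarU N) R⟩

theorem intU_right {N : ℕ} (R : Uni N) (f : Uni N → ℝ) :
    ∫ O, f (O * R) ∂(haarU N) = ∫ O, f O ∂(haarU N) :=
  (haarU_right R).integral_comp (Homeomorph.mulRight R).measurableEmbedding f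

/-- Translations of the torus. -/
theorem intT_add {N : ℕ} (s : Tor N) (f : Tor N → ℝ) : ∫ t, f (t + s) = ∫ t, f t :=
  integral_add_right_eq_self f s

end Ty
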