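import Pool.Agent.LibTy70.T17
import Pool.Agent.LibTy70.T18

/-! Row T19: the chain. Plan: `ann_step` by induction on `M`: with `r = C N^(-1/12)` (T17), for every class function `c`
(Cls ℓ): `∫_P ∫_θ c (sy (tr (cat P O') m θ)) = ∫_θ' c_M (sy (tr O'' (m-M) θ'))` where `c_M = Lay^M c`, `Cls (r^M ℓ) c_M`,
`O'' j = O' (j + M)`: peel the first layer (sy_peel, int_cons, intM_cons, cat_cons), Fubini, Lay_sym for `W = sy (..)`.
Then `|c_M W - ∫ c_M (sy A)| ≤ r^M ℓ 2 √N` since `√(ds W W') ≤ 2 √N`, and `∫ c_M (sy A) = ∫ c (sy A)` (Lay_haar).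
Constant: `2 √N (C N^(-1/12))^M ℓ = ℓ 2 C^M N^(1/2 - M/12)`. -/

open MeasureTheory Set Filter Topology

namespace Ty

open QGr

theorem t19_fcO (N : ℕ) : FirstCountableTopology (Orth N) := by
  have := sc_orth N
  infer_instance

theorem t19_swap {X Y : Type} [TopologicalSpace X] [CompactSpace X] [MeasurableSpace X]
    [OpensMeasurableSpace X] [TopologicalSpace Y] [CompactSpace Y] [MeasurableSpace Y]
    [OpensMeasurableSpace Y] (μ : Measure X) (ν : Measure Y) [IsFiniteMeasure μ] [IsFiniteMeasure ν]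
    (F : X → Y → ℝ) (hF : Continuous (Function.uncurry F)) :
    ∫ x, (∫ y, F x y ∂ν) ∂μ = ∫ y, (∫ x, F x y ∂μ) ∂ν :=
  integral_integral_swap_of_hasCompactSupport hF (HasCompactSupport.of_compactSpace _)

theorem t19_parcont {X Y : Type} [TopologicalSpace X] [CompactSpace X] [T2Space X] [FirstCountableTopology X]
    [TopologicalSpace Y] [CompactSpace Y] [MeasurableSpace Y]
    [OpensMeasurableSpace Y] (ν : Measure Y) [IsFiniteMeasure ν]
    (F : X → Y → ℝ) (hF : Continuous (Function.uncurry F)) :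
    Continuous fun x => ∫ y, F x y ∂ν := by
  have h2 := continuous_parametric_integral_of_continuous (μ := ν) hF
    (isCompact_univ (X := Y))
  simp only [Measure.restrict_univ] at h2
  exact h2

theorem t19_fro_uni {N : ℕ} (A : Uni N) : fro A.1 = √N := by
  have h1 : fro A.1 = fro (1 : Mat N) := by
    have h := fro_uni A (1 : Uni N) (1 : Mat N)
    simpa using h
  have h2 : (1 : Mat N) = dm fun _ => 1 := by
    unfold dm
    simp
  rw [h1, h2, fro_dm]
  simp

theorem ds_le {N : ℕ} (A B : Uni N) : √(ds A B) ≤ 2 * √N := by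
  rw [ds_fro, sub_eq_add_neg]
  refine (fro_add _ _).trans ?_
  rw [fro_neg, t19_fro_uni, t19_fro_uni]
  linarith

theorem t19_cont {N : ℕ} (m M : ℕ) (O' : ℕ → Orth N) (c : Uni N → ℝ) (hc : Continuous c) :
    Continuous fun q : (Fin M → Orth N) × (Fin (m + 1) → Tor N) => c (sy (tr (cat q.1 O') m q.2)) := by
  refine hc.comp (sy_cont.comp ?_)
  have h := trc (N := N) m
  exact h.comp (((cat_cont O').comp continuous_fst).prodMk continuous_snd)

theorem t19_zero {N : ℕ} (ℓ : ℝ) (c : Uni N → ℝ) (hℓ : 0 ≤ ℓ) (hc : Cls ℓ c) (W : Uni N) :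
    |c W - ∫ A : Uni N, c (sy A) ∂(haarU N)| ≤ ℓ * (2 * √N) := by
  have := haar_prob N
  have hcc := cls_cont hc
  have hi : Integrable (fun A : Uni N => c (sy A)) (haarU N) :=
    AVG_int _ _ (hcc.comp sy_cont)
  have h1 : c W - ∫ A : Uni N, c (sy A) ∂(haarU N) = ∫ A : Uni N, (c W - c (sy A)) ∂(haarU N) := by
    rw [integral_sub (integrable_const _) hi]
    simp
  rw [h1]
  have h2 : ∀ A : Uni N, ‖c W - c (sy A)‖ ≤ ℓ * (2 * √N) := fun A => by
    rw [Real.norm_eq_abs]
    exact (hc.lip _ _).trans (mul_le_mul_of_nonneg_left (ds_le _ _) hℓ)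
  have h3 := norm_integral_le_of_norm_le_const (μ := haarU N) (Eventually.of_forall h2)
  simpa using h3

theorem t19_main {N : ℕ} (hN : 2 ≤ N) {r : ℝ} (hr : 0 ≤ r)
    (hL : ∀ (ℓ : ℝ) (c : Uni N → ℝ), 0 ≤ ℓ → Cls ℓ c → Cls (r * ℓ) (Lay c)) :
    ∀ (M : ℕ) (ℓ : ℝ) (c : Uni N → ℝ), 0 ≤ ℓ → Cls ℓ c → ∀ (m : ℕ), M ≤ m → ∀ O' : ℕ → Orth N,
      |(∫ P : Fin M → Orth N, (∫ θ, c (sy (tr (cat P O') m θ))) ∂(haarM N M))
        - ∫ A : Uni N, c (sy A) ∂(haarU N)| ≤ r ^ M * (ℓ * (2 * √N)) := by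
  have := haar_prob N
  have := prob_haarO N
  intro M
  induction M with
  | zero =>
    intro ℓ c hℓ hc m _ O'
    have := prob_haarM N 0
    have h0 : ∀ P : Fin 0 → Orth N, cat P O' = O' := fun P => by
      funext j
      unfold cat
      simp
    simp only [h0]
    rw [integral_const, probReal_univ, one_smul, pow_zero, one_mul]
    set I := ∫ A : Uni N, c (sy A) ∂(haarU N) with hI
    have hcc : Continuous fun θ : Fin (m + 1) → Tor N => c (sy (tr O' m θ)) :=
      (cls_cont hc).comp (sy_cont.comp (tr_cont O' m))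
    have h1 : (∫ θ, c (sy (tr O' m θ))) - I = ∫ θ, (c (sy (tr O' m θ)) - I) := by
      rw [integral_sub (AVG_int _ _ hcc) (integrable_const _)]
      simp
    rw [h1]
    have h3 := norm_integral_le_of_norm_le_const (μ := (volume : Measure (Fin (m + 1) → Tor N)))
      (f := fun θ => c (sy (tr O' m θ)) - I) (C := ℓ * (2 * √N))
      (Eventually.of_forall fun θ => by
        rw [Real.norm_eq_abs]
        exact t19_zero ℓ c hℓ hc _)
    simpa using h3
  | succ M ih =>
    intro ℓ c hℓ hc m hm O'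
    obtain ⟨m, rfl⟩ : ∃ m', m = m' + 1 := ⟨m - 1, by omega⟩
    have hm' : M ≤ m := by omega
    have := prob_haarM N M
    have := prob_haarM N (M + 1)
    have := t19_fcO N
    have := AVG_fc N
    have hcc := cls_cont hc
    have hcont := t19_cont (N := N) (m + 1) (M + 1) O' c hcc
    have h1 : ∫ P : Fin (M + 1) → Orth N, (∫ θ, c (sy (tr (cat P O') (m + 1) θ))) ∂(haarM N (M + 1)) =
        ∫ P : Fin M → Orth N, (∫ θ, Lay c (sy (tr (cat P (fun j => O' (j + 1))) m θ))) ∂(haarM N M) := by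
      rw [intM_cons M (fun P => ∫ θ, c (sy (tr (cat P O') (m + 1) θ)))
        (t19_parcont (X := Fin (M + 1) → Orth N) (volume : Measure (Fin (m + 1 + 1) → Tor N))
          (fun P θ => c (sy (tr (cat P O') (m + 1) θ))) hcont)]
      refine integral_congr_ae (Eventually.of_forall fun P => ?_)
      simp only
      have h2 : ∀ O : Orth N, ∫ θ, c (sy (tr (cat (Fin.cons O P : Fin (M + 1) → Orth N) O') (m + 1) θ)) =
          ∫ θ : Fin (m + 1) → Tor N, ∫ t : Tor N, c (dg t * (cx O)⁻¹ *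
            sy (tr (cat P (fun j => O' (j + 1))) m θ) * cx O * dg t) := by
        intro O
        have hf : Continuous fun θ : Fin (m + 1 + 1) → Tor N =>
            c (sy (tr (cat (Fin.cons O P : Fin (M + 1) → Orth N) O') (m + 1) θ)) :=
          hcc.comp (sy_cont.comp (tr_cont _ (m + 1)))
        refine (int_cons (m + 1) _ hf).trans ?_
        refine integral_congr_ae (Eventually.of_forall fun θ => ?_)
        simp only
        refine integral_congr_ae (Eventually.of_forall fun t => ?_)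
        simp only
        rw [sy_peel]
        obtain ⟨e1, e2⟩ := cat_cons O P O'
        have e3 : (fun j => cat (Fin.cons O P : Fin (M + 1) → Orth N) O' (j + 1)) =
            cat P (fun j => O' (j + 1)) := funext e2
        rw [e1, e3]
        simp only [Fin.cons_zero, Fin.cons_succ]
      simp only [h2]
      have hF : Continuous (Function.uncurry fun (O : Orth N) (θ : Fin (m + 1) → Tor N) =>
          ∫ t : Tor N, c (dg t * (cx O)⁻¹ * sy (tr (cat P (fun j => O' (j + 1))) m θ) * cx O * dg t)) := by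
        refine t19_parcont (X := Orth N × (Fin (m + 1) → Tor N)) (volume : Measure (Tor N))
          (fun q t => c (dg t * (cx q.1)⁻¹ * sy (tr (cat P (fun j => O' (j + 1))) m q.2) * cx q.1 * dg t)) ?_
        refine hcc.comp ?_
        have c1 : Continuous fun q : (Orth N × (Fin (m + 1) → Tor N)) × Tor N => cx q.1.1 :=
          cx_cont.comp (continuous_fst.comp continuous_fst)
        have c2 : Continuous fun q : (Orth N × (Fin (m + 1) → Tor N)) × Tor N => dg q.2 :=
          dg_cont.comp continuous_snd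
        have c3 : Continuous fun q : (Orth N × (Fin (m + 1) → Tor N)) × Tor N =>
            sy (tr (cat P (fun j => O' (j + 1))) m q.1.2) :=
          sy_cont.comp ((tr_cont _ m).comp (continuous_snd.comp continuous_fst))
        exact (((c2.mul c1.inv).mul c3).mul c1).mul c2
      rw [t19_swap (haarO N) (volume : Measure (Fin (m + 1) → Tor N)) _ hF]
      refine integral_congr_ae (Eventually.of_forall fun θ => ?_)
      simp only
      rw [Lay_sym c _ (sy_sym _)]
      rfl
    rw [h1, ← Lay_haar c hcc]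
    have h3 := ih (r * ℓ) (Lay c) (by positivity) (hL ℓ c hℓ hc) m hm' fun j => O' (j + 1)
    refine h3.trans (le_of_eq ?_)
    ring

theorem annealed : ∃ C : ℝ, 0 < C ∧ ∀ N : ℕ, 2 ≤ N → ∀ (ℓ : ℝ) (c : Uni N → ℝ), 0 ≤ ℓ → Cls ℓ c →
    ∀ (M m : ℕ), M ≤ m → ∀ O' : ℕ → Orth N,
      |(∫ P : Fin M → Orth N, (∫ θ, c (sy (tr (cat P O') m θ))) ∂(haarM N M))
        - ∫ A : Uni N, c (sy A) ∂(haarU N)| ≤ ℓ * (2 * C ^ M * (N : ℝ) ^ (1 / 2 - M / 12 : ℝ)) := by
  obtain ⟨C, hC, h⟩ := Lay_cls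
  refine ⟨C, hC, fun N hN ℓ c hℓ hc M m hm O' => ?_⟩
  have hN0 : (0 : ℝ) < N := by
    have : 0 < N := by omega
    exact_mod_cast this
  have h1 := t19_main hN (r := C * (N : ℝ) ^ (-(1 / 12) : ℝ)) (by positivity) (h N hN) M ℓ c hℓ hc m hm O'
  refine h1.trans (le_of_eq ?_)
  have h2 : ((N : ℝ) ^ (-(1 / 12) : ℝ)) ^ M * √N = (N : ℝ) ^ (1 / 2 - M / 12 : ℝ) := by
    rw [← Real.rpow_natCast, ← Real.rpow_mul hN0.le, Real.sqrt_eq_rpow, ← Real.rpow_add hN0]
    congr 1
    ring
  rw [mul_pow, ← h2]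
  ring

end Ty
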