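import Pool.Agent.LibTy70.T01
import Pool.Agent.LibTy70.T18
import Pool.Agent.LibTy70.T19

/-! Helper lemmas for the assembly. -/

open MeasureTheory Set Filter Topology

namespace Ty

open QGr

theorem markov {X : Type} [MeasurableSpace X] (μ : Measure X) [IsProbabilityMeasure μ] (g : X → ℝ)
    (hg : Integrable g μ) (h0 : ∀ x, 0 ≤ g x) (δ η : ℝ) (hδ : 0 < δ) (h : ∫ x, g x ∂μ ≤ δ * η) :
    μ {x | δ < g x} ≤ ENNReal.ofReal η := by
  have h1 := mul_meas_ge_le_integral_of_nonneg (μ := μ) (f := g) (ae_of_all _ h0) hg δ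
  have h2 : μ.real {x | δ ≤ g x} ≤ η := by
    have := h1.trans h
    exact le_of_mul_le_mul_left this hδ
  calc μ {x | δ < g x} ≤ μ {x | δ ≤ g x} := measure_mono fun x (hx : δ < g x) =>
        show δ ≤ g x from hx.le
    _ = ENNReal.ofReal (μ.real {x | δ ≤ g x}) := by
        rw [Measure.real, ENNReal.ofReal_toReal (measure_ne_top _ _)]
    _ ≤ _ := ENNReal.ofReal_le_ofReal h2

theorem pint_cont {N M m : ℕ} (F : (Fin M → Orth N) → (Fin (m + 1) → Tor N) → ℝ)
    (hF : Continuous fun q : (Fin M → Orth N) × (Fin (m + 1) → Tor N) => F q.1 q.2) :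
    Continuous fun P => ∫ θ, F P θ := by
  have := sc_orth N
  have h2 := continuous_parametric_integral_of_continuous
    (μ := (volume : Measure (Fin (m + 1) → Tor N))) (f := F) hF
    (isCompact_univ (X := Fin (m + 1) → Tor N))
  simpa only [Measure.restrict_univ] using h2

theorem pint_int {N M m : ℕ} (F : (Fin M → Orth N) → (Fin (m + 1) → Tor N) → ℝ)
    (hF : Continuous fun q : (Fin M → Orth N) × (Fin (m + 1) → Tor N) => F q.1 q.2) :
    Integrable (fun P => ∫ θ, F P θ) (haarM N M) := by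
  have := prob_haarM N M
  have := sc_orth N
  exact (pint_cont F hF).integrable_of_hasCompactSupport (HasCompactSupport.of_compactSpace _)

/-- The absolute value inside. -/
theorem abs_le_ann {N M m : ℕ} (O' : ℕ → Orth N) (c : Uni N → ℝ) (hc : Continuous c) (v : ℝ) :
    ∫ P : Fin M → Orth N, |(∫ θ, c (sy (tr (cat P O') m θ))) - v| ∂(haarM N M) ≤
      ∫ P : Fin M → Orth N, (∫ θ, |c (sy (tr (cat P O') m θ)) - v|) ∂(haarM N M) := by
  have := prob_haarM N M
  have := sc_orth N
  have hcc : Continuous fun q : (Fin M → Orth N) × (Fin (m + 1) → Tor N) =>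
      c (sy (tr (cat q.1 O') m q.2)) :=
    hc.comp (sy_cont.comp ((trc m).comp (((cat_cont O').comp continuous_fst).prodMk continuous_snd)))
  have h1 : Continuous fun q : (Fin M → Orth N) × (Fin (m + 1) → Tor N) =>
      |c (sy (tr (cat q.1 O') m q.2)) - v| := (hcc.sub continuous_const).abs
  refine integral_mono ?_ (pint_int _ h1) fun P => ?_
  · exact (((pint_cont _ hcc).sub continuous_const).abs).integrable_of_hasCompactSupport
      (HasCompactSupport.of_compactSpace _)
  · have h2 : Integrable (fun θ => c (sy (tr (cat P O') m θ))) := by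
      refine Continuous.integrable_of_hasCompactSupport ?_ (HasCompactSupport.of_compactSpace _)
      exact hcc.comp (continuous_const.prodMk continuous_id)
    have h3 : (∫ θ, c (sy (tr (cat P O') m θ))) - v = ∫ θ, (c (sy (tr (cat P O') m θ)) - v) := by
      rw [integral_sub h2 (integrable_const _)]
      simp
    change |(∫ θ, c (sy (tr (cat P O') m θ))) - v| ≤ _
    rw [h3]
    exact abs_integral_le_integral_abs

/-- The rate of the chain for long chains. -/
theorem rate_le {N : ℕ} (hN : 0 < N) (C : ℝ) (hC : 0 < C) (hCN : C * (N : ℝ) ^ (-(1 / 12) : ℝ) ≤ 1)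
    (M M₀ : ℕ) (hM : M₀ ≤ M) :
    C ^ M * (N : ℝ) ^ (1 / 2 - M / 12 : ℝ) ≤ C ^ M₀ * (N : ℝ) ^ (1 / 2 - M₀ / 12 : ℝ) := by
  have hNR : (0 : ℝ) < N := by exact_mod_cast hN
  have e : ∀ k : ℕ, C ^ k * (N : ℝ) ^ (1 / 2 - k / 12 : ℝ)
      = (N : ℝ) ^ (1 / 2 : ℝ) * (C * (N : ℝ) ^ (-(1 / 12) : ℝ)) ^ k := by
    intro k
    rw [mul_pow, ← Real.rpow_natCast ((N : ℝ) ^ (-(1 / 12) : ℝ)) k, ← Real.rpow_mul hNR.le,
      show (1 / 2 - k / 12 : ℝ) = 1 / 2 + -(1 / 12) * k by ring, Real.rpow_add hNR]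
    ring
  rw [e, e]
  have h0 : 0 ≤ C * (N : ℝ) ^ (-(1 / 12) : ℝ) := by positivity
  exact mul_le_mul_of_nonneg_left (pow_le_pow_of_le_one h0 hCN hM) (by positivity)

theorem tend_neg (A e : ℝ) (he : 0 < e) :
    Tendsto (fun N : ℕ => A * (N : ℝ) ^ (-e)) atTop (𝓝 0) := by
  have h := (tendsto_rpow_neg_atTop he).comp tendsto_natCast_atTop_atTop
  simpa using h.const_mul A

end Ty
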