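import Pool.Agent.LibTy70.V01
import Pool.Agent.LibTy70.T18

/-! Row V02: rotation average. Plan: `θ ↦ θ + (const (β/2) in layer 0)` preserves the measure of the torus and multiplies
`sy (tr O m θ)` by `e(β)` (`dg_const`: scalar on both sides), so the listing `y` becomes `y - N β` (IsPhases: `e^{2πi y/N} λ = 1`).
Hence `∫_θ Lw(y) = ∫_θ ∫_0^1 Lw(y - N β) dβ` (Lw_phases), and for a fixed listing with `y (q+N) = y q + N`:
`∫_0^1 ∑_q η(y_q - N β) h_q dβ = (1/N) ∑_{a<N} h_a ∑_k ∫_0^N η(y_a + k N - u) du = (1/N) ∑_a h_a ∫ η = (∫ η) loc` (the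
functional `h_q` of differences is `N`-periodic in `q`). -/

open MeasureTheory Set Filter Topology

namespace Ty

open QGr

private theorem v02_tr {N : ℕ} (O : ℕ → Orth N) (c : Tor N) : ∀ (m : ℕ) (θ : Fin (m + 1) → Tor N),
    tr O m (θ + fun j => if j = 0 then c else 0) = tr O m θ * dg c
  | 0, θ => by
    simp only [tr, Pi.add_apply, if_true]
    rw [dg_add]
  | m + 1, θ => by
    have ih := v02_tr O c m (fun j => θ j.castSucc)
    have e1 : (fun j : Fin (m + 1) => (θ + fun j : Fin (m + 2) => if j = 0 then c else 0) j.castSucc) =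
        (fun j : Fin (m + 1) => θ j.castSucc) + fun j => if j = 0 then c else 0 := by
      funext j
      simp only [Pi.add_apply]
      congr 1
      by_cases hj : j = 0
      · rw [if_pos hj, if_pos (by rw [hj]; rfl)]
      · rw [if_neg hj, if_neg (fun hc => hj (Fin.castSucc_eq_zero_iff.1 hc))]
    have e2 : (θ + fun j : Fin (m + 2) => if j = 0 then c else 0) (Fin.last (m + 1)) = θ (Fin.last (m + 1)) := by
      rw [Pi.add_apply, if_neg (Fin.last_pos.ne'), add_zero]
    rw [tr, tr, e1, e2, ih, mul_assoc, mul_assoc, mul_assoc]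

private theorem v02_ee (β : ℝ) : ee ((β : ℝ) : UnitAddCircle) = Complex.exp (2 * Real.pi * β * Complex.I) := by
  unfold ee
  rw [AddCircle.toCircle_apply_mk, Circle.coe_exp]
  congr 1
  push_cast
  ring

private theorem v02_phases {N : ℕ} (hN : 0 < N) (W : Matrix (Fin N) (Fin N) ℂ) (y : ℤ → ℝ) (hy : IsPhases W y) (β : ℝ) :
    IsPhases (Complex.exp (2 * Real.pi * β * Complex.I) • W) (fun q => y q - N * β) := by
  refine ⟨fun a b hab => sub_le_sub_right (hy.mono hab) _, fun p => ?_, fun t => ?_⟩
  · rw [hy.per]; ring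
  · have h1 := hy.mult (t + N * β)
    have e1 : {p | y p - N * β = t} = {p | y p = t + N * β} := by
      ext p
      simp only [Set.mem_ofPred_eq]
      constructor <;> intro h <;> linarith
    have hN' : (N : ℂ) ≠ 0 := by exact_mod_cast hN.ne'
    have e2 : Complex.exp (2 * Real.pi * ((t + N * β : ℝ) : ℂ) / N * Complex.I) =
        Complex.exp (2 * Real.pi * t / N * Complex.I) * Complex.exp (2 * Real.pi * β * Complex.I) := by
      rw [← Complex.exp_add]
      congr 1
      push_cast
      field_simp
    rw [e1, h1, e2, mul_smul]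

private theorem v02_block {N : ℕ} (f : ℕ → ℝ) (R : ℕ) :
    ∑ n ∈ Finset.range (R * N), f n = ∑ k ∈ Finset.range R, ∑ a ∈ Finset.range N, f (k * N + a) := by
  induction R with
  | zero => simp
  | succ R ih => rw [Nat.succ_mul, Finset.sum_range_add, ih, Finset.sum_range_succ]

private theorem v02_per {N : ℕ} {y : ℤ → ℝ} (hy : ∀ p, y (p + N) = y p + N) (p : ℤ) (k : ℤ) :
    y (p + k * N) = y p + k * N := by
  induction k using Int.induction_on with
  | zero => simp
  | succ k ih =>
    have e : p + ((k : ℤ) + 1) * N = p + k * N + N := by ring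
    rw [e, hy, ih]
    push_cast
    ring
  | pred k ih =>
    have e : p + (-(k : ℤ)) * N = p + (-(k : ℤ) - 1) * N + N := by ring
    rw [e, hy] at ih
    push_cast at ih ⊢
    linarith

private theorem v02_int {N : ℕ} (hN : 0 < N) (M : ℕ) (η : ℝ → ℝ) (hη : Continuous η) (b : ℝ)
    (hb : ∀ x, b < |x| → η x = 0) (h : (Fin (2 * M + 1) → ℝ) → ℝ) (y : ℤ → ℝ) (hm : Monotone y)
    (hy : ∀ p, y (p + N) = y p + N) :
    ∫ β in (0 : ℝ)..1, Lw M η h (fun q => y q - N * β) = (∫ x, η x) * loc N M h y := by
  have hN1 : (1 : ℝ) ≤ N := by exact_mod_cast hN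
  have hN0 : (0 : ℝ) < N := by linarith
  set g : ℤ → ℝ := fun q => h fun s => y (q + (s : ℕ) - M) - y q with hg
  have hgper : ∀ q k : ℤ, g (q + k * N) = g q := by
    intro q k
    simp only [hg]
    congr 1
    funext s
    have e : q + k * N + ((s : ℕ) : ℤ) - M = (q + ((s : ℕ) : ℤ) - M) + k * N := by ring
    rw [e, v02_per hy, v02_per hy]
    ring
  obtain ⟨K, hK⟩ := exists_nat_gt (|y 0| + |b| + N + 1)
  have hK1 : (1 : ℝ) ≤ K := by
    have := abs_nonneg (y 0)
    have := abs_nonneg b
    linarith
  have hKN : (K : ℝ) ≤ K * N := by nlinarith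
  have hlow := v02_per hy 0 (-(K : ℤ))
  have hupp := v02_per hy 0 (K : ℤ)
  rw [zero_add] at hlow hupp
  push_cast at hlow hupp
  have hy0 := abs_le.1 (le_refl |y 0|)
  have hb0 := abs_le.1 (le_refl |b|)
  -- the finite sum
  have hLw : ∀ β ∈ Set.uIcc (0 : ℝ) 1, Lw M η h (fun q => y q - N * β) =
      ∑ n ∈ Finset.range ((2 * K) * N), η (y ((n : ℤ) - K * N) - N * β) * g ((n : ℤ) - K * N) := by
    intro β hβ
    rw [Set.uIcc_of_le zero_le_one] at hβ
    have hβ1 : (N : ℝ) * β ≤ N := by nlinarith [hβ.2]
    have hβ0 : 0 ≤ (N : ℝ) * β := mul_nonneg hN0.le hβ.1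
    have e2 : Lw M η h (fun q => y q - N * β) = ∑ᶠ q : ℤ, η (y q - N * β) * g q := by
      unfold Lw
      apply finsum_congr
      intro q
      simp only [hg]
      congr 2
      funext j
      ring
    have e3 : (∑ᶠ q : ℤ, η (y q - N * β) * g q) =
        ∑ q ∈ Finset.Ico (-(K : ℤ) * N) (K * N), η (y q - N * β) * g q := by
      apply finsum_eq_sum_of_support_subset
      intro q hq
      rw [Function.mem_support] at hq
      have h2 : η (y q - N * β) ≠ 0 := left_ne_zero_of_mul hq
      have h3 : |y q - N * β| ≤ b := by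
        by_contra hcon
        exact h2 (hb _ (not_le.1 hcon))
      rw [abs_le] at h3
      rw [Finset.coe_Ico, Set.mem_Ico]
      constructor
      · by_contra hcon
        rw [not_le] at hcon
        have h4 := hm hcon.le
        rw [hlow] at h4
        linarith [h3.1]
      · by_contra hcon
        rw [not_lt] at hcon
        have h4 := hm hcon
        rw [hupp] at h4
        linarith [h3.2]
    rw [e2, e3]
    refine Finset.sum_nbij' (fun q : ℤ => (q + K * N).toNat) (fun n : ℕ => (n : ℤ) - K * N) ?_ ?_ ?_ ?_ ?_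
    · intro q hq
      rw [Finset.mem_Ico] at hq
      rw [Finset.mem_range]
      have h5 : 0 ≤ q + K * N := by linarith [hq.1]
      zify
      rw [Int.toNat_of_nonneg h5]
      linarith [hq.2]
    · intro n hn
      rw [Finset.mem_range] at hn
      rw [Finset.mem_Ico]
      zify at hn
      constructor
      · have : (0 : ℤ) ≤ n := Int.natCast_nonneg n
        linarith
      · linarith
    · intro q hq
      rw [Finset.mem_Ico] at hq
      rw [Int.toNat_of_nonneg (by linarith [hq.1])]
      ring
    · intro n _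
      have e : (n : ℤ) - K * N + K * N = n := by ring
      rw [e, Int.toNat_natCast]
    · intro q hq
      rw [Finset.mem_Ico] at hq
      rw [Int.toNat_of_nonneg (by linarith [hq.1])]
      have e : q + (K : ℤ) * N - K * N = q := by ring
      rw [e]
  have hic : ∀ (q : ℤ) (u v : ℝ), IntervalIntegrable (fun β => η (y q - N * β)) volume u v := by
    intro q u v
    apply Continuous.intervalIntegrable
    fun_prop
  rw [intervalIntegral.integral_congr hLw, intervalIntegral.integral_finsetSum]
  swap
  · intro n _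
    exact (hic _ _ _).mul_const _
  simp only [intervalIntegral.integral_mul_const]
  rw [v02_block (fun n => (∫ β in (0 : ℝ)..1, η (y ((n : ℤ) - K * N) - N * β)) * g ((n : ℤ) - K * N)) (2 * K),
    Finset.sum_comm]
  -- each class contributes the full integral
  have hcs : HasCompactSupport η := by
    refine HasCompactSupport.intro (isCompact_Icc (a := -b) (b := b)) fun y hy => hb y ?_
    by_contra hcon
    rw [not_lt, abs_le] at hcon
    exact hy ⟨hcon.1, hcon.2⟩
  have hcls : ∀ a ∈ Finset.range N, (∑ k ∈ Finset.range (2 * K),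
      (∫ β in (0 : ℝ)..1, η (y (((k * N + a : ℕ) : ℤ) - K * N) - N * β)) * g (((k * N + a : ℕ) : ℤ) - K * N)) =
      (1 / N * ∫ x, η x) * g a := by
    intro a ha
    rw [Finset.mem_range] at ha
    have hya : y 0 ≤ y a ∧ y a ≤ y 0 + N := by
      constructor
      · exact hm (Int.natCast_nonneg a)
      · have := hm (show (a : ℤ) ≤ 0 + N by rw [zero_add]; exact_mod_cast ha.le)
        rw [hy] at this
        exact this
    have e1 : ∀ k ∈ Finset.range (2 * K), (∫ β in (0 : ℝ)..1, η (y (((k * N + a : ℕ) : ℤ) - K * N) - N * β)) *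
        g (((k * N + a : ℕ) : ℤ) - K * N) =
        -(∫ x in ((K : ℝ) - k + 1)..((K : ℝ) - (k + 1 : ℕ) + 1), η (y a - N * x)) * g a := by
      intro k _
      have e2 : ((k * N + a : ℕ) : ℤ) - K * N = a + ((k : ℤ) - K) * N := by push_cast; ring
      rw [e2, hgper, v02_per hy]
      congr 1
      rw [← intervalIntegral.integral_symm]
      have e3 : ∀ β : ℝ, η (y a + (((k : ℤ) - K : ℤ) : ℝ) * N - N * β) =
          (fun x => η (y a - N * x)) (β - ((k : ℝ) - K)) := by
        intro β
        simp only
        congr 1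
        push_cast
        ring
      simp only [e3]
      rw [intervalIntegral.integral_comp_sub_right (fun x => η (y a - N * x))]
      congr 1
      · push_cast; ring
      · ring
    rw [Finset.sum_congr rfl e1, ← Finset.sum_mul, Finset.sum_neg_distrib]
    congr 1
    have e4 := intervalIntegral.sum_integral_adjacent_intervals (f := fun x => η (y a - N * x)) (μ := volume)
      (a := fun k : ℕ => (K : ℝ) - k + 1) (n := 2 * K) (fun k _ => hic a _ _)
    rw [e4, ← intervalIntegral.integral_symm]
    have e5 : ((K : ℝ) - (2 * K : ℕ) + 1) ≤ (K : ℝ) - (0 : ℕ) + 1 := by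
      push_cast
      linarith
    rw [intervalIntegral.integral_of_le e5, setIntegral_eq_integral_of_forall_compl_eq_zero]
    · have e6 := Measure.integral_comp_mul_left (fun v => η (y a - v)) (N : ℝ)
      rw [e6, integral_sub_left_eq_self η volume (y a), abs_of_nonneg (inv_nonneg.2 hN0.le), smul_eq_mul, one_div]
    · intro x hx
      apply hb
      rw [Set.mem_Ioc, not_and_or, not_lt, not_le] at hx
      push_cast at hx
      rw [lt_abs]
      rcases hx with hx | hx
      · left
        have h6 : (N : ℝ) * x ≤ N * (K - 2 * K + 1) := mul_le_mul_of_nonneg_left hx hN0.le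
        nlinarith
      · right
        have h6 : (N : ℝ) * (K - 0 + 1) ≤ N * x := mul_le_mul_of_nonneg_left hx.le hN0.le
        nlinarith
  rw [Finset.sum_congr rfl hcls, ← Finset.mul_sum]
  unfold loc
  simp only [hg]
  ring

theorem Lw_rot {N : ℕ} (hN : 0 < N) (M : ℕ) (η : ℝ → ℝ) (hη : Continuous η) (b : ℝ)
    (hb : ∀ x, b < |x| → η x = 0) (h : (Fin (2 * M + 1) → ℝ) → ℝ) (hh : Continuous h)
    (O : ℕ → Orth N) (m : ℕ) :
    ∫ θ, Lw M η h (phases (sy (tr O m θ)).1) =
      (∫ x, η x) * ∫ θ, loc N M h (phases (sy (tr O m θ)).1) := by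
  set F : (Fin (m + 1) → Tor N) → ℝ := fun θ => Lw M η h (phases (sy (tr O m θ)).1) with hF
  have hFc : Continuous F := (Lw_cont hN M η hη b hb h hh).comp (sy_cont.comp (tr_cont O m))
  set s : ℝ → (Fin (m + 1) → Tor N) := fun β j => if j = 0 then (fun _ => ((β / 2 : ℝ) : UnitAddCircle)) else 0 with hs
  have hsc : Continuous s := by
    refine continuous_pi fun j => ?_
    simp only [hs]
    by_cases hj : j = 0
    · simp only [hj, if_true]
      refine continuous_pi fun _ => ?_
      exact (AddCircle.continuous_mk' 1).comp (by fun_prop)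
    · simp only [hj, if_false]
      exact continuous_const
  have key : ∀ (β : ℝ) (θ : Fin (m + 1) → Tor N), F (θ + s β) =
      Lw M η h (fun q => phases (sy (tr O m θ)).1 q - N * β) := by
    intro β θ
    have e1 : sy (tr O m (θ + s β)) = dg (fun _ => ((β : ℝ) : UnitAddCircle)) * sy (tr O m θ) := by
      rw [hs, v02_tr, sy_dg, mul_assoc, ← dg_const, ← mul_assoc, ← dg_add]
      congr 2
      funext i
      rw [Pi.add_apply, ← AddCircle.coe_add]
      congr 1
      ring
    have e2 : (sy (tr O m (θ + s β))).1 = Complex.exp (2 * Real.pi * β * Complex.I) • (sy (tr O m θ)).1 := by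
      rw [e1]
      show (dg (fun _ => ((β : ℝ) : UnitAddCircle))).1 * (sy (tr O m θ)).1 = _
      rw [dg_val, v02_ee, ← Matrix.smul_eq_diagonal_mul]
    rw [hF]
    simp only
    rw [e2]
    exact (Lw_phases hN M η h _ _ (v02_phases hN _ _ (phases_spec hN (sy (tr O m θ))) β)).symm
  have i1 : (volume : Measure (Fin N → UnitAddCircle)).IsAddLeftInvariant := inferInstance
  have i2 : SigmaFinite (volume : Measure (Fin N → UnitAddCircle)) := inferInstance
  have i3 : MeasurableAdd (Fin N → UnitAddCircle) := inferInstance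
  have i4 : (volume : Measure (Fin (m + 1) → Fin N → UnitAddCircle)).IsAddLeftInvariant :=
    Measure.pi.isAddLeftInvariant (fun _ => volume)
  have h1 : ∀ β : ℝ, ∫ θ, F (θ + s β) = ∫ θ, F θ := fun β => by
    have h0 := integral_add_left_eq_self (μ := (volume : Measure (Fin (m + 1) → Fin N → UnitAddCircle))) F (s β)
    rw [← h0]
    refine integral_congr_ae (Filter.Eventually.of_forall fun θ => ?_)
    simp only [add_comm]
  have h2 : ∫ θ, F θ = ∫ β in (0 : ℝ)..1, ∫ θ, F (θ + s β) := by
    simp only [h1]
    rw [intervalIntegral.integral_const]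
    simp
  obtain ⟨C, hC⟩ := (isCompact_univ (X := Fin (m + 1) → Tor N)).exists_bound_of_continuousOn hFc.continuousOn
  have h3 : ∫ β in (0 : ℝ)..1, ∫ θ, F (θ + s β) = ∫ θ, ∫ β in (0 : ℝ)..1, F (θ + s β) := by
    simp only [intervalIntegral.integral_of_le zero_le_one]
    refine integral_integral_swap (f := fun β θ => F (θ + s β)) ?_
    refine Integrable.of_bound (C := C) ?_ (Filter.Eventually.of_forall fun p => hC _ (Set.mem_univ _))
    apply Continuous.aestronglyMeasurable
    exact hFc.comp (continuous_snd.add (hsc.comp continuous_fst))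
  rw [h2, h3, ← integral_const_mul]
  apply integral_congr_ae
  refine Filter.Eventually.of_forall fun θ => ?_
  simp only [key]
  have hph := phases_spec hN (sy (tr O m θ))
  exact v02_int hN M η hη b hb h _ hph.mono hph.per

end Ty
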