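import Pool.Agent.LibTy70.Defs
import Pool.Agent.LibQGr.R_SPA
import Pool.Agent.LibQGr.R_ZER

/-! Row V03: level sums as time averages. Plan: `cnt_iff`: the levels `x k`, `k < cnt x T`, are the `X q` with `q ≥ s`, `X q ≤ T`, i.e.
all `X q ∈ (0, T]`. For such `q` with `1 ≤ X q ≤ T - 1`: `∫_0^T η(X q - t) dt = ∫ η = 1`. The others with `η(X q - t) ≠ 0` for some
`t ∈ [0,T]` satisfy `X q ∈ [-1, 1] ∪ [T-1, T+1]`; there are at most `C₀` of them (each interval of length `2` contains at
most `N (2/(cN) + 2)` points by `hX`), and each changes the difference by at most `K (1 + sup|η| · 2)`. -/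

open MeasureTheory Set Filter Topology

namespace Ty

open QGr

private theorem v03_up {N : ℕ} {c : ℝ} {X : ℤ → ℝ} (hX : ∀ p, c * N ≤ X (p + N) - X p) (p : ℤ) (j : ℕ) :
    X p + c * N * j ≤ X (p + N * j) := by
  induction j with
  | zero => simp
  | succ j ih =>
    have h1 := hX (p + N * j)
    have e : p + (N : ℤ) * ((j + 1 : ℕ) : ℤ) = p + N * j + N := by push_cast; ring
    rw [e]
    push_cast
    linarith

private theorem v03_card {N : ℕ} (hN : 0 < N) {c : ℝ} (hc : 0 < c) {X : ℤ → ℝ} (hm : Monotone X)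
    (hX : ∀ p, c * N ≤ X (p + N) - X p) (a : ℝ) (F : Finset ℤ) (hF : ∀ q ∈ F, a ≤ X q ∧ X q ≤ a + 2) :
    F.card ≤ N * (⌊2 / (c * N)⌋₊ + 1) := by
  rcases F.eq_empty_or_nonempty with h | h
  · rw [h]; simp
  set q0 := F.min' h with hq0
  have hcN : 0 < c * N := mul_pos hc (by exact_mod_cast hN)
  have hsub : F ⊆ Finset.Ico q0 (q0 + N * ((⌊2 / (c * N)⌋₊ + 1 : ℕ) : ℤ)) := by
    intro q hq
    rw [Finset.mem_Ico]
    refine ⟨Finset.min'_le F q hq, ?_⟩
    by_contra hcon
    rw [not_lt] at hcon
    have h1 := hm hcon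
    have h2 := v03_up hX q0 (⌊2 / (c * N)⌋₊ + 1)
    have h3 : 2 < c * N * ((⌊2 / (c * N)⌋₊ + 1 : ℕ) : ℝ) := by
      have := Nat.lt_floor_add_one (2 / (c * N))
      rw [div_lt_iff₀ hcN] at this
      push_cast
      linarith
    have h4 := (hF q hq).2
    have h5 := (hF q0 (F.min'_mem h)).1
    linarith
  refine (Finset.card_le_card hsub).trans ?_
  rw [Int.card_Ico]
  apply le_of_eq
  have : q0 + (N : ℤ) * ((⌊2 / (c * N)⌋₊ + 1 : ℕ) : ℤ) - q0 = ((N * (⌊2 / (c * N)⌋₊ + 1) : ℕ) : ℤ) := by
    push_cast; ring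
  rw [this, Int.toNat_natCast]

theorem time_id {N : ℕ} (hN : 0 < N) {c : ℝ} (hc : 0 < c) (M : ℕ) (η : ℝ → ℝ) (hη : Continuous η)
    (h0 : ∀ x, 0 ≤ η x) (h1 : ∀ x, 1 < |x| → η x = 0) (hi : ∫ x, η x = 1)
    (h : (Fin (2 * M + 1) → ℝ) → ℝ) (hh : Continuous h) (K : ℝ) (hK : ∀ v, |h v| ≤ K)
    (X : ℤ → ℝ) (hm : Monotone X) (hX : ∀ p, c * N ≤ X (p + N) - X p ∧ c * (X (p + N) - X p) ≤ N)
    (x : ℕ → ℝ) (s : ℤ) (hx : ∀ n : ℕ, x n = X (n + s)) (hp : ∀ n, 0 < x n) (hs : X (s - 1) ≤ 0) :
    ∃ C, ∀ T : ℝ, 0 < T → |(1 / T) * ∑ k ∈ Finset.range (cnt x T),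
        h (fun j => X (s + k + (j : ℕ) - M) - X (s + k)) -
      (1 / T) * ∫ t in (0 : ℝ)..T, Lw M η h (fun q => X q - t)| ≤ C / T := by
  have hX1 : ∀ p, c * N ≤ X (p + N) - X p := fun p => (hX p).1
  have hcN : 0 < c * N := mul_pos hc (by exact_mod_cast hN)
  have hK0 : 0 ≤ K := (abs_nonneg _).trans (hK 0)
  set D : ℕ := N * (⌊2 / (c * N)⌋₊ + 1) with hD
  set g : ℤ → ℝ := fun q => h (fun j => X (q + (j : ℕ) - M) - X q) with hg
  have hgK : ∀ q, |g q| ≤ K := fun q => hK _
  have hx' : ∀ n : ℕ, x n = X (s + n) := fun n => by rw [hx n, add_comm]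
  have hxm : Monotone x := by
    intro a b hab
    rw [hx', hx']
    apply hm
    have : (a : ℤ) ≤ b := by exact_mod_cast hab
    linarith
  have hxt : Tendsto x atTop atTop := by
    refine tendsto_atTop_atTop.2 fun b => ?_
    obtain ⟨j, hj⟩ := exists_nat_gt (b / (c * N))
    rw [div_lt_iff₀ hcN] at hj
    refine ⟨N * j, fun a ha => ?_⟩
    refine le_trans ?_ (hxm ha)
    rw [hx']
    have h2 := v03_up hX1 s j
    have h3 := hp 0
    rw [hx'] at h3
    simp only [Nat.cast_zero, add_zero] at h3
    push_cast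
    nlinarith
  -- integrability
  have hcs : HasCompactSupport η := by
    refine HasCompactSupport.intro (isCompact_Icc (a := (-1 : ℝ)) (b := 1)) fun y hy => h1 y ?_
    by_contra hcon
    rw [not_lt, abs_le] at hcon
    exact hy ⟨hcon.1, hcon.2⟩
  have hint : Integrable η := hη.integrable_of_hasCompactSupport hcs
  have hint' : ∀ a : ℝ, Integrable fun t => η (a - t) := fun a => hint.comp_sub_left a
  have hone : ∀ a : ℝ, ∫ t, η (a - t) = 1 := fun a => by rw [integral_sub_left_eq_self η volume a, hi]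
  refine ⟨2 * D * K, fun T hT => ?_⟩
  have hcnt : ∀ k : ℕ, k < cnt x T ↔ x k ≤ T := fun k => cnt_iff x hxm hxt T k
  -- the finite set of indices
  obtain ⟨j1, hj1⟩ := exists_nat_gt (1 / (c * N))
  rw [div_lt_iff₀ hcN] at hj1
  obtain ⟨j2, hj2⟩ := exists_nat_gt ((T + 1) / (c * N))
  rw [div_lt_iff₀ hcN] at hj2
  set A : Finset ℤ := Finset.Icc (s - 1 - N * j1) (s + N * j2) with hA
  have hAmem : ∀ q, -1 ≤ X q → X q ≤ T + 1 → q ∈ A := by
    intro q h2 h3
    rw [hA, Finset.mem_Icc]
    constructor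
    · by_contra hcon
      rw [not_le] at hcon
      have h4 := hm hcon.le
      have h5 := v03_up hX1 (s - 1 - N * j1) j1
      have e : s - 1 - (N : ℤ) * j1 + N * j1 = s - 1 := by ring
      rw [e] at h5
      nlinarith
    · by_contra hcon
      rw [not_le] at hcon
      have h4 := hm hcon.le
      have h5 := v03_up hX1 s j2
      have h6 := hp 0
      rw [hx'] at h6
      simp only [Nat.cast_zero, add_zero] at h6
      nlinarith
  set w : ℤ → ℝ := fun q => ∫ t in (0 : ℝ)..T, η (X q - t) with hw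
  have hsum2 : (∫ t in (0 : ℝ)..T, Lw M η h (fun q => X q - t)) = ∑ q ∈ A, w q * g q := by
    have e1 : ∀ t ∈ Set.uIcc (0 : ℝ) T, Lw M η h (fun q => X q - t) = ∑ q ∈ A, η (X q - t) * g q := by
      intro t ht
      rw [Set.uIcc_of_le hT.le] at ht
      have e2 : Lw M η h (fun q => X q - t) = ∑ᶠ q : ℤ, η (X q - t) * g q := by
        unfold Lw
        apply finsum_congr
        intro q
        rw [hg]
        congr 2
        funext j
        ring
      rw [e2]
      apply finsum_eq_sum_of_support_subset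
      intro q hq
      rw [Function.mem_support] at hq
      have h2 : η (X q - t) ≠ 0 := left_ne_zero_of_mul hq
      have h3 : |X q - t| ≤ 1 := by
        by_contra hcon
        exact h2 (h1 _ (not_le.1 hcon))
      rw [abs_le] at h3
      rw [Finset.mem_coe]
      exact hAmem q (by linarith [ht.1, h3.1]) (by linarith [ht.2, h3.2])
    rw [intervalIntegral.integral_congr e1, intervalIntegral.integral_finsetSum]
    · apply Finset.sum_congr rfl
      intro q _
      rw [intervalIntegral.integral_mul_const]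
    · intro q _
      apply Continuous.intervalIntegrable
      fun_prop
  have hsum1 : (∑ k ∈ Finset.range (cnt x T), h (fun j => X (s + k + (j : ℕ) - M) - X (s + k))) =
      ∑ q ∈ A, (if 0 < X q ∧ X q ≤ T then (1 : ℝ) else 0) * g q := by
    have e1 : ∀ q, (if 0 < X q ∧ X q ≤ T then (1 : ℝ) else 0) * g q =
        if 0 < X q ∧ X q ≤ T then g q else 0 := by
      intro q
      split_ifs <;> simp
    simp only [e1]
    rw [← Finset.sum_filter]
    refine Finset.sum_nbij' (fun k : ℕ => s + (k : ℤ)) (fun q : ℤ => (q - s).toNat) ?_ ?_ ?_ ?_ ?_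
    · intro k hk
      rw [Finset.mem_range, hcnt] at hk
      have h2 := hp k
      rw [hx'] at hk h2
      rw [Finset.mem_filter]
      exact ⟨hAmem _ (by linarith) (by linarith), h2, hk⟩
    · intro q hq
      rw [Finset.mem_filter] at hq
      have hsq : s ≤ q := by
        by_contra hcon
        rw [not_le] at hcon
        have := hm (show q ≤ s - 1 by omega)
        linarith [hq.2.1]
      rw [Finset.mem_range, hcnt, hx', Int.toNat_of_nonneg (by omega)]
      have e : s + (q - s) = q := by ring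
      rw [e]
      exact hq.2.2
    · intro k _
      simp
    · intro q hq
      rw [Finset.mem_filter] at hq
      have hsq : s ≤ q := by
        by_contra hcon
        rw [not_le] at hcon
        have := hm (show q ≤ s - 1 by omega)
        linarith [hq.2.1]
      rw [Int.toNat_of_nonneg (by omega)]
      ring
    · intro k _
      rfl
  -- bounds for w
  have hw0 : ∀ q, 0 ≤ w q := fun q => intervalIntegral.integral_nonneg hT.le fun t _ => h0 _
  have hw1 : ∀ q, w q ≤ 1 := by
    intro q
    rw [hw]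
    simp only
    rw [intervalIntegral.integral_of_le hT.le, ← hone (X q)]
    exact setIntegral_le_integral (hint' _) (Filter.Eventually.of_forall fun t => h0 _)
  have hdiff : ∀ q, |(if 0 < X q ∧ X q ≤ T then (1 : ℝ) else 0) - w q| ≤
      (if -1 ≤ X q ∧ X q ≤ -1 + 2 then (1 : ℝ) else 0) + (if T - 1 ≤ X q ∧ X q ≤ T - 1 + 2 then (1 : ℝ) else 0) := by
    intro q
    have hb : |(if 0 < X q ∧ X q ≤ T then (1 : ℝ) else 0) - w q| ≤ 1 := by
      have a1 := hw0 q
      have a2 := hw1 q
      split_ifs <;> rw [abs_le] <;> constructor <;> linarith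
    by_cases c1 : -1 ≤ X q ∧ X q ≤ -1 + 2
    · rw [if_pos c1]
      refine hb.trans ?_
      split_ifs <;> norm_num
    by_cases c2 : T - 1 ≤ X q ∧ X q ≤ T - 1 + 2
    · rw [if_pos c2]
      refine hb.trans ?_
      split_ifs <;> norm_num
    rw [if_neg c1, if_neg c2, add_zero]
    rw [not_and_or, not_le, not_le] at c1 c2
    rcases lt_or_ge (X q) (-1) with h3 | h3
    · -- everything vanishes
      rw [if_neg (by rintro ⟨h4, -⟩; linarith)]
      have : w q = 0 := by
        rw [hw]
        simp only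
        rw [intervalIntegral.integral_of_le hT.le]
        refine setIntegral_eq_zero_of_forall_eq_zero fun t ht => h1 _ ?_
        rw [lt_abs]
        right
        linarith [ht.1]
      rw [this]; simp
    · have h4 : 1 < X q := by
        rcases c1 with c1 | c1
        · linarith
        · linarith
      rcases lt_or_ge (X q) (T - 1) with h5 | h5
      · rw [if_pos ⟨by linarith, by linarith⟩]
        have : w q = 1 := by
          rw [hw]
          simp only
          rw [intervalIntegral.integral_of_le hT.le, ← hone (X q)]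
          refine setIntegral_eq_integral_of_forall_compl_eq_zero fun t ht => h1 _ ?_
          rw [Set.mem_Ioc, not_and_or, not_lt, not_le] at ht
          rw [lt_abs]
          rcases ht with ht | ht
          · left; linarith
          · right; linarith
        rw [this]; simp
      · have h6 : T + 1 < X q := by
          rcases c2 with c2 | c2
          · linarith
          · linarith
        rw [if_neg (by rintro ⟨-, h7⟩; linarith)]
        have : w q = 0 := by
          rw [hw]
          simp only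
          rw [intervalIntegral.integral_of_le hT.le]
          refine setIntegral_eq_zero_of_forall_eq_zero fun t ht => h1 _ ?_
          rw [lt_abs]
          left
          linarith [ht.2]
        rw [this]; simp
  have hcard : ∀ a : ℝ, (∑ q ∈ A, (if a ≤ X q ∧ X q ≤ a + 2 then (1 : ℝ) else 0)) ≤ D := by
    intro a
    rw [← Finset.sum_filter, Finset.sum_const, nsmul_eq_mul, mul_one]
    exact_mod_cast v03_card hN hc hm hX1 a _ fun q hq => (Finset.mem_filter.1 hq).2
  rw [← mul_sub, abs_mul, abs_of_pos (by positivity : 0 < 1 / T), hsum1, hsum2, ← Finset.sum_sub_distrib]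
  have hfin : |∑ q ∈ A, ((if 0 < X q ∧ X q ≤ T then (1 : ℝ) else 0) * g q - w q * g q)| ≤ 2 * D * K := by
    refine (Finset.abs_sum_le_sum_abs _ _).trans ?_
    calc ∑ q ∈ A, |(if 0 < X q ∧ X q ≤ T then (1 : ℝ) else 0) * g q - w q * g q|
        ≤ ∑ q ∈ A, ((if -1 ≤ X q ∧ X q ≤ -1 + 2 then (1 : ℝ) else 0) +
          (if T - 1 ≤ X q ∧ X q ≤ T - 1 + 2 then (1 : ℝ) else 0)) * K := by
          apply Finset.sum_le_sum
          intro q _
          rw [← sub_mul, abs_mul]
          refine mul_le_mul (hdiff q) (hgK q) (abs_nonneg _) ?_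
          split_ifs <;> norm_num
      _ = ((∑ q ∈ A, (if -1 ≤ X q ∧ X q ≤ -1 + 2 then (1 : ℝ) else 0)) +
          ∑ q ∈ A, (if T - 1 ≤ X q ∧ X q ≤ T - 1 + 2 then (1 : ℝ) else 0)) * K := by
          rw [← Finset.sum_mul, Finset.sum_add_distrib]
      _ ≤ (D + D) * K := by
          refine mul_le_mul_of_nonneg_right ?_ hK0
          exact add_le_add (hcard _) (hcard _)
      _ = 2 * D * K := by ring
  rw [div_mul_eq_mul_div, one_mul]
  exact div_le_div_of_nonneg_right hfin hT.le

end Ty
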