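import Pool.Agent.LibTy70.Defs
import Pool.Agent.LibQGr.R_SPA
import Pool.Agent.LibQGr.R_ZER

/-! Row V05: levels and phases near a fixed time, spacings. Plan: as V04 with `F(z_0, z_1) = η(z_0) f(z_1 - z_0)`, `z_0 ≤ z_1`
(SPA_hsp: the functional `hsp N f` is `f (z (q+1) - z q)`). Let `R₀ = B + 1`. For `|z_0| ≤ 1` one has
`F(z_0, z_1) = F(z_0, min z_1 R₀)`, so `|F(z) - F(z')| ≤ L' (|z_0 - z_0'| + |min z_1 R₀ - min z_1' R₀|)`; a term is nonzero only if
`|X q - t| ≤ 1/c`; if `X (q+1) - t ≥ R₀/c` then also `y (q+1) t ≥ R₀` and the second difference is zero, otherwise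
`q + 1` is near. So the difference is `≤ 2 L' ∑_{q ∈ A} |X q - t - y q t|`, `A = {q : |X q - t| ≤ S}`, `S = R₀/c`, and the rest
is as in V04 with `p + 1` replaced by `0`. -/

open MeasureTheory Set Filter Topology

namespace Ty

open QGr

private theorem v05_fin {N : ℕ} {d : ℝ} (hd : 0 < d) (z : ℤ → ℝ) (hm : Monotone z)
    (hz : ∀ p, d ≤ z (p + N) - z p) (S : ℝ) : {q : ℤ | |z q| ≤ S}.Finite := by
  have h1 : ∀ (k : ℕ) (p : ℤ), z p + k * d ≤ z (p + k * N) := by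
    intro k
    induction k with
    | zero => intro p; simp
    | succ k ih =>
      intro p
      have h2 := ih p
      have h3 := hz (p + k * N)
      have h4 : p + ((k + 1 : ℕ) : ℤ) * N = p + k * N + N := by push_cast; ring
      rw [h4]
      push_cast
      linarith
  obtain ⟨k, hk⟩ := exists_nat_gt ((S + |z 0|) / d)
  rw [div_lt_iff₀ hd] at hk
  refine (Set.finite_Icc (-((k : ℤ) * N)) ((k : ℤ) * N)).subset ?_
  intro q hq
  have hq' : |z q| ≤ S := hq
  have h5 := abs_le.1 hq'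
  have h6 := abs_le.1 (le_refl |z 0|)
  constructor
  · by_contra hcon
    push Not at hcon
    have h7 := hm hcon.le
    have h8 := h1 k (-((k : ℤ) * N))
    rw [neg_add_cancel] at h8
    linarith [h5.1, h6.2]
  · by_contra hcon
    push Not at hcon
    have h7 := hm hcon.le
    have h8 := h1 k 0
    rw [zero_add] at h8
    linarith [h5.2, h6.1]

private theorem v05_ac {N : ℕ} {c : ℝ} (hc : 0 < c) {Φ : ℤ → ℝ → ℝ} {w : ℝ → ℝ} (hS : Sys N c Φ w)
    (p : ℤ) (a b : ℝ) : AbsolutelyContinuousOnInterval (Φ p) a b := by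
  have key : ∀ x y : ℝ, x ≤ y → |Φ p x - Φ p y| ≤ 1 / c * |x - y| := by
    intro x y hxy
    have h2 := hS.low p x y hxy
    have h3 := hS.up p x y hxy
    have h4 : 0 ≤ c * (y - x) := mul_nonneg hc.le (by linarith)
    rw [abs_sub_comm, abs_of_nonneg (by linarith), abs_sub_comm, abs_of_nonneg (by linarith), one_div,
      ← div_eq_inv_mul, le_div_iff₀ hc, mul_comm]
    exact h3
  have h1 : LipschitzWith (Real.toNNReal (1 / c)) (Φ p) := by
    refine LipschitzWith.of_dist_le_mul fun x y => ?_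
    rw [Real.coe_toNNReal _ (by positivity), Real.dist_eq, Real.dist_eq]
    rcases le_total x y with h | h
    · exact key x y h
    · rw [abs_sub_comm, abs_sub_comm x y]
      exact key y x h
  exact (h1.lipschitzOnWith).absolutelyContinuousOnInterval

private theorem v05_delta {N : ℕ} {c : ℝ} (hc : 0 < c) {Φ : ℤ → ℝ → ℝ} {w : ℝ → ℝ} (hS : Sys N c Φ w)
    (X : ℤ → ℝ) (hX : ∀ p, Φ (-p) (X p) = 0) (t S : ℝ) (q : ℤ) (hq : |X q - t| ≤ S) :
    |(X q - t) - (-Φ (-q) t)| ≤ ∫ s in (t - S)..(t + S), |deriv (Φ (-q)) s - 1| := by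
  have hac := v05_ac hc hS (-q)
  have h1 : ∫ s in t..(X q), (1 - deriv (Φ (-q)) s) = (X q - t) - (-Φ (-q) t) := by
    rw [intervalIntegral.integral_sub intervalIntegrable_const (hac t (X q)).intervalIntegrable_deriv,
      (hac t (X q)).integral_deriv_eq_sub, hX, intervalIntegral.integral_const]
    simp
  rw [← h1]
  have hS0 : 0 ≤ S := (abs_nonneg _).trans hq
  have hint : IntervalIntegrable (fun s => |deriv (Φ (-q)) s - 1|) volume (t - S) (t + S) :=
    (((hac (t - S) (t + S)).intervalIntegrable_deriv).sub intervalIntegrable_const).abs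
  have h2 := intervalIntegral.norm_integral_le_abs_integral_norm (μ := volume) (a := t) (b := X q)
    (f := fun s => 1 - deriv (Φ (-q)) s)
  have h3 : (fun s => ‖1 - deriv (Φ (-q)) s‖) = fun s => |deriv (Φ (-q)) s - 1| := by
    funext s
    rw [Real.norm_eq_abs, abs_sub_comm]
  rw [h3, Real.norm_eq_abs] at h2
  refine h2.trans ?_
  have hsub : uIoc t (X q) ⊆ uIoc (t - S) (t + S) := by
    have h5 := abs_le.1 hq
    rw [uIoc_of_le (by linarith : t - S ≤ t + S)]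
    intro s hs
    rw [uIoc, mem_Ioc] at hs
    have h6 : t - S ≤ min t (X q) := le_min (by linarith) (by linarith [h5.1])
    have h7 : max t (X q) ≤ t + S := max_le (by linarith) (by linarith [h5.2])
    exact ⟨lt_of_le_of_lt h6 hs.1, hs.2.trans h7⟩
  have h4 := intervalIntegral.abs_integral_mono_interval (μ := volume) hsub
    (f := fun s => |deriv (Φ (-q)) s - 1|) (Eventually.of_forall fun s => abs_nonneg _) hint
  refine h4.trans (le_of_eq (abs_of_nonneg ?_))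
  exact intervalIntegral.integral_nonneg (by linarith) fun s _ => abs_nonneg _

private theorem v05_near {N : ℕ} {c : ℝ} (hc : 0 < c) {Φ : ℤ → ℝ → ℝ} {w : ℝ → ℝ} (hS : Sys N c Φ w)
    (X : ℤ → ℝ) (hX : ∀ p, Φ (-p) (X p) = 0) (t : ℝ) (q : ℤ) :
    |Φ (-q) t| ≤ |X q - t| / c ∧ c * |X q - t| ≤ |Φ (-q) t| ∧ (0 ≤ X q - t → c * (X q - t) ≤ -Φ (-q) t) := by
  rw [le_div_iff₀ hc]
  rcases le_total t (X q) with h | h
  · have h1 := hS.low (-q) t (X q) h
    have h2 := hS.up (-q) t (X q) h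
    rw [hX] at h1 h2
    have h3 : 0 ≤ c * (X q - t) := mul_nonneg hc.le (by linarith)
    have h4 : Φ (-q) t ≤ 0 := by linarith
    rw [abs_of_nonpos h4, abs_of_nonneg (by linarith : 0 ≤ X q - t)]
    refine ⟨by linarith, by linarith, fun _ => by linarith⟩
  · have h1 := hS.low (-q) (X q) t h
    have h2 := hS.up (-q) (X q) t h
    rw [hX] at h1 h2
    have h3 : 0 ≤ c * (t - X q) := mul_nonneg hc.le (by linarith)
    have h4 : 0 ≤ Φ (-q) t := by linarith
    rw [abs_of_nonneg h4, abs_of_nonpos (by linarith : X q - t ≤ 0)]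
    refine ⟨by linarith, by linarith, fun h5 => ?_⟩
    have h6 : X q = t := by linarith
    rw [← h6, hX, sub_self, mul_zero, neg_zero]

private theorem v05_sum {N : ℕ} (hN : 0 < N) {c : ℝ} (hc : 0 < c) {Φ : ℤ → ℝ → ℝ} {w : ℝ → ℝ}
    (hS : Sys N c Φ w) (X : ℤ → ℝ) (hX : ∀ p, Φ (-p) (X p) = 0) (t S R : ℝ) (hR : R = 2 * S / c)
    (A : Finset ℤ) (hA : ∀ q ∈ A, |X q - t| ≤ S) (s : ℝ) (hs : s ∈ Icc (t - S) (t + S)) :
    ∑ q ∈ A, |deriv (Φ (-q)) s - 1| ≤ sD 1 R Φ s := by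
  have hfin : {q : ℤ | |Φ q s| ≤ R}.Finite := by
    refine v05_fin (N := N) (d := (N : ℝ)) (by exact_mod_cast hN) (fun q => Φ q s) (hS.mono s) ?_ R
    intro p
    rw [hS.per]
    linarith
  obtain ⟨g, hg⟩ : ∃ g : ℤ → ℝ, g = fun q : ℤ => if |Φ q s| ≤ R then |deriv (Φ q) s - 1| ^ 1 else 0 := ⟨_, rfl⟩
  have hg0 : ∀ q, 0 ≤ g q := by
    intro q
    rw [hg]
    change 0 ≤ if |Φ q s| ≤ R then |deriv (Φ q) s - 1| ^ 1 else 0
    split_ifs
    · positivity
    · exact le_rfl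
  have h1 : sD 1 R Φ s = ∑ q ∈ hfin.toFinset, g q := by
    unfold sD
    rw [← hg]
    refine finsum_eq_sum_of_support_subset g ?_
    intro q hq
    rw [Finite.coe_toFinset]
    by_contra hcon
    have h2 : ¬ |Φ q s| ≤ R := hcon
    apply hq
    rw [hg]
    exact if_neg h2
  have hnear : ∀ q ∈ A, |Φ (-q) s| ≤ R := by
    intro q hq
    refine (v05_near hc hS X hX s q).1.trans ?_
    rw [hR]
    refine div_le_div_of_nonneg_right ?_ hc.le
    have h3 := abs_le.1 (hA q hq)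
    rw [abs_le]
    constructor <;> linarith [h3.1, h3.2, hs.1, hs.2]
  have h2 : ∑ q ∈ A, |deriv (Φ (-q)) s - 1| = ∑ q ∈ A.image (fun q => -q), g q := by
    rw [Finset.sum_image (neg_injective.injOn)]
    refine Finset.sum_congr rfl fun q hq => ?_
    rw [hg]
    change _ = if |Φ (-q) s| ≤ R then |deriv (Φ (-q)) s - 1| ^ 1 else 0
    rw [if_pos (hnear q hq), pow_one]
  rw [h1, h2]
  refine Finset.sum_le_sum_of_subset_of_nonneg ?_ fun q _ _ => hg0 q
  intro r hr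
  obtain ⟨q, hq, rfl⟩ := Finset.mem_image.1 hr
  rw [Finite.mem_toFinset]
  exact hnear q hq

private theorem v05_int {N : ℕ} (hN : 0 < N) {c : ℝ} (hc : 0 < c) {Φ : ℤ → ℝ → ℝ} {w : ℝ → ℝ}
    (hS : Sys N c Φ w) (X : ℤ → ℝ) (hX : ∀ p, Φ (-p) (X p) = 0) (t S R : ℝ) (hS0 : 0 ≤ S)
    (hR : R = 2 * S / c) (A : Finset ℤ) (hA : ∀ q ∈ A, |X q - t| ≤ S) (G : ℝ → ℝ) (hGc : Continuous G)
    (hG : ∀ᵐ s, sD 1 R Φ s ≤ G s) :
    ∑ q ∈ A, |(X q - t) - (-Φ (-q) t)| ≤ ∫ s in (t - S)..(t + S), G s := by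
  have hac := fun q : ℤ => v05_ac hc hS (-q) (t - S) (t + S)
  have hint : ∀ q : ℤ, IntervalIntegrable (fun s => |deriv (Φ (-q)) s - 1|) volume (t - S) (t + S) :=
    fun q => (((hac q).intervalIntegrable_deriv).sub intervalIntegrable_const).abs
  have h1 : ∑ q ∈ A, |(X q - t) - (-Φ (-q) t)| ≤
      ∑ q ∈ A, ∫ s in (t - S)..(t + S), |deriv (Φ (-q)) s - 1| :=
    Finset.sum_le_sum fun q hq => v05_delta hc hS X hX t S q (hA q hq)
  refine h1.trans ?_
  rw [← intervalIntegral.integral_finsetSum fun q _ => hint q]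
  refine intervalIntegral.integral_mono_ae_restrict (by linarith) ?_ (hGc.intervalIntegrable _ _) ?_
  · have h2 := IntervalIntegrable.sum A (f := fun q s => |deriv (Φ (-q)) s - 1|) (fun q _ => hint q)
    have h3 : (∑ q ∈ A, fun s => |deriv (Φ (-q)) s - 1|) = fun s => ∑ q ∈ A, |deriv (Φ (-q)) s - 1| := by
      funext s
      simp
    rw [← h3]
    exact h2
  · rw [EventuallyLE, ae_restrict_iff' measurableSet_Icc]
    filter_upwards [hG] with s hs hs2
    exact (v05_sum hN hc hS X hX t S R hR A hA s hs2).trans hs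

private theorem v05_trunc (f : ℝ → ℝ) (B : ℝ) (hB : ∀ s, B ≤ s → f s = f B) (η : ℝ → ℝ)
    (h1 : ∀ x, 1 < |x| → η x = 0) (x y : ℝ) : η x * f (y - x) = η x * f (min y (B + 1) - x) := by
  rcases lt_or_ge 1 |x| with h | h
  · rw [h1 x h, zero_mul, zero_mul]
  · rcases le_total y (B + 1) with h2 | h2
    · rw [min_eq_left h2]
    · have h3 := abs_le.1 h
      rw [min_eq_right h2, hB (y - x) (by linarith [h3.2]), hB (B + 1 - x) (by linarith [h3.2])]

private theorem v05_eta (η : ℝ → ℝ) (Lη : ℝ) (hη : ∀ x y, |η x - η y| ≤ Lη * |x - y|)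
    (h1 : ∀ x, 1 < |x| → η x = 0) : 0 ≤ Lη ∧ ∀ x, |η x| ≤ 3 * Lη := by
  have hL : 0 ≤ Lη := by
    have h2 := (abs_nonneg _).trans (hη 1 0)
    simpa using h2
  refine ⟨hL, fun x => ?_⟩
  rcases lt_or_ge 1 |x| with h | h
  · rw [h1 x h, abs_zero]
    positivity
  · have h2 := hη x 2
    rw [h1 2 (by norm_num), sub_zero] at h2
    refine h2.trans ?_
    rw [mul_comm]
    refine mul_le_mul_of_nonneg_right ?_ hL
    have h3 := abs_le.1 h
    rw [abs_le]
    constructor <;> linarith [h3.1, h3.2]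

private theorem v05_prod (f : ℝ → ℝ) (L K : ℝ) (hL0 : 0 ≤ L) (hL : ∀ u v, |f u - f v| ≤ L * dist u v)
    (hK : ∀ v, |f v| ≤ K) (η : ℝ → ℝ) (Lη : ℝ) (hη : ∀ x y, |η x - η y| ≤ Lη * |x - y|)
    (h1 : ∀ x, 1 < |x| → η x = 0) (x x' m m' : ℝ) :
    |η x * f (m - x) - η x' * f (m' - x')| ≤ (Lη * K + 3 * Lη * L) * (|x - x'| + |m - m'|) := by
  obtain ⟨hLη, hb⟩ := v05_eta η Lη hη h1
  have hK0 : 0 ≤ K := (abs_nonneg _).trans (hK 0)
  have e : η x * f (m - x) - η x' * f (m' - x') =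
      (η x - η x') * f (m - x) + η x' * (f (m - x) - f (m' - x')) := by ring
  rw [e]
  refine (abs_add_le _ _).trans ?_
  rw [abs_mul, abs_mul]
  have h2 : |η x - η x'| * |f (m - x)| ≤ Lη * |x - x'| * K :=
    mul_le_mul (hη x x') (hK _) (abs_nonneg _) (by positivity)
  have h3 : |f (m - x) - f (m' - x')| ≤ L * (|m - m'| + |x - x'|) := by
    refine (hL _ _).trans (mul_le_mul_of_nonneg_left ?_ hL0)
    rw [Real.dist_eq]
    have e2 : m - x - (m' - x') = (m - m') - (x - x') := by ring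
    rw [e2]
    exact abs_sub _ _
  have h4 : |η x'| * |f (m - x) - f (m' - x')| ≤ 3 * Lη * (L * (|m - m'| + |x - x'|)) :=
    mul_le_mul (hb x') h3 (abs_nonneg _) (by positivity)
  have h5 : 0 ≤ Lη * K * |m - m'| := by positivity
  nlinarith

private theorem v05_min (y y' R : ℝ) : |min y R - min y' R| ≤ |y - y'| := by
  refine (abs_min_sub_min_le_max y R y' R).trans ?_
  rw [sub_self, abs_zero]
  exact max_le le_rfl (abs_nonneg _)

private theorem v05_shift (A : Finset ℤ) (δ : ℤ → ℝ) (hδ : ∀ q, 0 ≤ δ q) :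
    ∑ q ∈ A, (if q + 1 ∈ A then δ (q + 1) else 0) ≤ ∑ q ∈ A, δ q := by
  rw [← Finset.sum_filter, ← Finset.sum_image (f := δ) (g := fun q : ℤ => q + 1) (add_left_injective 1).injOn]
  refine Finset.sum_le_sum_of_subset_of_nonneg ?_ fun q _ _ => hδ q
  intro r hr
  obtain ⟨q, hq, rfl⟩ := Finset.mem_image.1 hr
  exact (Finset.mem_filter.1 hq).2

private theorem v05_Lw {N : ℕ} (hN : 0 < N) (f : ℝ → ℝ) (η : ℝ → ℝ) (z : ℤ → ℝ) (A : Finset ℤ)
    (h1 : ∀ x, 1 < |x| → η x = 0) (hA : ∀ q, |z q| ≤ 1 → q ∈ A) :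
    Lw (N * 1) η (hsp N f) z = ∑ q ∈ A, η (z q) * f (z (q + 1) - z q) := by
  have h2 : Lw (N * 1) η (hsp N f) z = ∑ᶠ q : ℤ, η (z q) * f (z (q + 1) - z q) := by
    unfold Lw
    refine finsum_congr fun q => ?_
    rw [← SPA_hsp hN f z q]
  rw [h2]
  refine finsum_eq_sum_of_support_subset _ ?_
  intro q hq
  refine hA q ?_
  by_contra hcon
  push Not at hcon
  apply hq
  change η (z q) * f (z (q + 1) - z q) = 0
  rw [h1 _ hcon, zero_mul]

theorem pt_spac {c : ℝ} (hc : 0 < c) (hc1 : c ≤ 1) (f : ℝ → ℝ) (L K B : ℝ) (hB0 : 0 < B)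
    (hL0 : 0 ≤ L) (hL : ∀ u v, |f u - f v| ≤ L * dist u v) (hK : ∀ v, |f v| ≤ K)
    (hB : ∀ s, B ≤ s → f s = f B) (η : ℝ → ℝ) (Lη : ℝ)
    (hη : ∀ x y, |η x - η y| ≤ Lη * |x - y|) (h1 : ∀ x, 1 < |x| → η x = 0) :
    ∃ C R S : ℝ, 0 ≤ C ∧ 0 < R ∧ 0 < S ∧ ∀ N : ℕ, 0 < N → ∀ (Φ : ℤ → ℝ → ℝ) (w : ℝ → ℝ), Sys N c Φ w →
      ∀ X : ℤ → ℝ, (∀ p, Φ (-p) (X p) = 0) → Monotone X → ∀ (G : ℝ → ℝ), Continuous G →
      (∀ᵐ s, sD 1 R Φ s ≤ G s) → ∀ t : ℝ,
      |Lw (N * 1) η (hsp N f) (fun q => X q - t) - Lw (N * 1) η (hsp N f) (fun q => -Φ (-q) t)| ≤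
        C * ∫ s in (t - S)..(t + S), G s := by
  have hK0 : 0 ≤ K := (abs_nonneg _).trans (hK 0)
  obtain ⟨hLη, _⟩ := v05_eta η Lη hη h1
  obtain ⟨L', hL'⟩ : ∃ L' : ℝ, L' = Lη * K + 3 * Lη * L := ⟨_, rfl⟩
  have hL'0 : 0 ≤ L' := by rw [hL']; positivity
  obtain ⟨S, hSd⟩ : ∃ S : ℝ, S = (B + 1) / c := ⟨_, rfl⟩
  have hS0 : 0 < S := by rw [hSd]; positivity
  have hcS : c * S = B + 1 := by rw [hSd]; field_simp
  have h1S : 1 / c ≤ S := by
    rw [hSd]
    exact div_le_div_of_nonneg_right (by linarith) hc.le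
  have h1c : 1 ≤ 1 / c := by
    rw [le_div_iff₀ hc]
    linarith
  refine ⟨2 * L', 2 * S / c, S, by positivity, by positivity, hS0, ?_⟩
  intro N hN Φ w hSys X hX hm G hGc hG t
  have hAfin : {q : ℤ | |X q - t| ≤ S}.Finite := by
    refine v05_fin (N := N) (d := c * N) (mul_pos hc (by exact_mod_cast hN)) (fun q => X q - t) ?_ ?_ S
    · intro a b hab
      change X a - t ≤ X b - t
      linarith [hm hab]
    · intro p
      linarith [(ZER_step hSys X hX hm p).1]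
  obtain ⟨A, hAd⟩ : ∃ A : Finset ℤ, A = hAfin.toFinset := ⟨_, rfl⟩
  have hA : ∀ q, q ∈ A ↔ |X q - t| ≤ S := by
    intro q
    rw [hAd, Finite.mem_toFinset]
    exact Iff.rfl
  have hnear := v05_near hc hSys X hX t
  have hcl : ∀ q : ℤ, |(-Φ (-q) t)| ≤ 1 → |X q - t| ≤ 1 / c := by
    intro q hq
    rw [abs_neg] at hq
    rw [le_div_iff₀ hc, mul_comm]
    exact (hnear q).2.1.trans hq
  rw [v05_Lw hN f η (fun q => X q - t) A h1 (fun q hq => (hA q).2 (le_trans hq (h1c.trans h1S))),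
    v05_Lw hN f η (fun q => -Φ (-q) t) A h1 (fun q hq => (hA q).2 ((hcl q hq).trans h1S)),
    ← Finset.sum_sub_distrib]
  refine (Finset.abs_sum_le_sum_abs _ _).trans ?_
  obtain ⟨δ, hδd⟩ : ∃ δ : ℤ → ℝ, δ = fun q => |(X q - t) - (-Φ (-q) t)| := ⟨_, rfl⟩
  have hδ0 : ∀ q, 0 ≤ δ q := by
    intro q
    rw [hδd]
    exact abs_nonneg _
  have hterm : ∀ q ∈ A, |η (X q - t) * f ((X (q + 1) - t) - (X q - t)) -
      η (-Φ (-q) t) * f (-Φ (-(q + 1)) t - -Φ (-q) t)| ≤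
      L' * (δ q + if q + 1 ∈ A then δ (q + 1) else 0) := by
    intro q _
    have hif : 0 ≤ if q + 1 ∈ A then δ (q + 1) else 0 := by
      split_ifs
      · exact hδ0 _
      · exact le_rfl
    by_cases hz : |X q - t| ≤ 1 / c
    · rw [v05_trunc f B hB η h1 (X q - t) (X (q + 1) - t),
        v05_trunc f B hB η h1 (-Φ (-q) t) (-Φ (-(q + 1)) t)]
      refine (v05_prod f L K hL0 hL hK η Lη hη h1 _ _ _ _).trans ?_
      rw [← hL']
      refine mul_le_mul_of_nonneg_left (add_le_add ?_ ?_) hL'0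
      · rw [hδd]
      · by_cases hq1 : q + 1 ∈ A
        · rw [if_pos hq1, hδd]
          exact v05_min _ _ _
        · rw [if_neg hq1]
          have h3 : ¬ |X (q + 1) - t| ≤ S := fun h => hq1 ((hA _).2 h)
          have h4 : X q ≤ X (q + 1) := hm (by omega)
          have h5 := abs_le.1 hz
          have h6 : S < X (q + 1) - t := by
            by_contra hcon
            push Not at hcon
            exact h3 (abs_le.2 ⟨by linarith [h5.1], hcon⟩)
          have h7 : B + 1 ≤ X (q + 1) - t := by nlinarith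
          have h8 : B + 1 ≤ -Φ (-(q + 1)) t := by
            have h9 := (hnear (q + 1)).2.2 (by linarith)
            nlinarith
          rw [min_eq_right h7, min_eq_right h8, sub_self, abs_zero]
    · have h3 : 1 < |X q - t| := lt_of_le_of_lt h1c (not_le.1 hz)
      have h4 : 1 < |(-Φ (-q) t)| := by
        by_contra hcon
        push Not at hcon
        exact hz (hcl q hcon)
      rw [h1 _ h3, h1 _ h4, zero_mul, zero_mul, sub_zero, abs_zero]
      have := hδ0 q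
      positivity
  refine (Finset.sum_le_sum hterm).trans ?_
  rw [← Finset.mul_sum, Finset.sum_add_distrib]
  have h2 := v05_shift A δ hδ0
  have h3 : ∑ q ∈ A, δ q ≤ ∫ s in (t - S)..(t + S), G s := by
    rw [hδd]
    exact v05_int hN hc hSys X hX t S (2 * S / c) hS0.le rfl A (fun q hq => (hA q).1 hq) G hGc hG
  have h4 : 2 * L' * ∫ s in (t - S)..(t + S), G s = L' * ((∫ s in (t - S)..(t + S), G s) +
      ∫ s in (t - S)..(t + S), G s) := by ring
  rw [h4]
  exact mul_le_mul_of_nonneg_left (add_le_add h3 (h2.trans h3)) hL'0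

end Ty
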