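import Pool.Agent.LibTy70.V06
import Pool.Agent.LibQGr.R_SYS

/-! Row V07: the system of phase functions of the graph with its slopes. Plan: copy the proof of `sys` (R_SYS): `F` from `sel`,
`Φ p t = N/(2π) F p (π t/L)`, `L = len l`; it gives `Sys` and `IsPhases`. For the last part: all `Φ q` are Lipschitz, so for a.e. `s` all
are differentiable at `s` (countably many). At such an `s`, V06 at `k₀ = π s / L` with `W' = i (B^T W + W B)`
(SLG_deriv), any ultrafilter `≤ 𝓝[≠] k₀`: for `a < N` the derivative of `F a` is `s_a = <v_a, (B + B^T) v_a>`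
(`v^* W = λ v^*` for a unitary matrix), so `Φ_a' - 1 = <v_a, B1 v_a>` with `B1 = N/(2L) (B + B^T) - 1`, `v_a` the columns of `V`,
an orthonormal basis; the same for `a + N k`. The indices `q` with `|Φ q s| ≤ R` are distinct mod `N` (`2R < N`), and
for them `|1 - λ^..|`: `|∑_{k<M'} λ_a^k| ≥ (2/π) M'` since the angle of `λ_a` is at most `2πR/N ≤ π/M'`
(`|sin(M' x/2)| ≥ (2/π) M'|x|/2`, `|sin(x/2)| ≤ |x|/2`). `<v_a, B1 v_a> = <v_a, An n B1 W v_a>` (W unitary, `W v_a = λ_a v_a`), so
`|Φ_a' - 1|² ≤ |An v_a|² ≤ (π²/(4M'²)) |An Z v_a|²`, `Z v_a = (∑ λ_a^k) v_a`; sum over `a`: `∑_a |An Z v_a|² = fro (An Z)²`. -/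

open MeasureTheory Set Filter Topology

namespace Ty

open QGr

/-- The construction of the phase functions, with `F`. -/
theorem v07_sys {N : ℕ} (hN : 0 < N) (O : ℕ → Orth N) (m : ℕ) (l : Fin (m + 1) → Fin N → ℝ)
    (a b : ℝ) (ha : 0 < a) (hab : a ≤ b) (hl : ∀ j i, l j i ∈ Icc a b) :
    ∃ F : ℤ → ℝ → ℝ, (∀ p, Continuous (F p)) ∧ (∀ k, Dia (sy (tr O m (fl l k))) fun p => F p k) ∧
      Sys N (a / b) (fun p t => (N : ℝ) / (2 * Real.pi) * F p (Real.pi * t / len l))
        (fun t => dev O m l (fl l (Real.pi * t / len l))) ∧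
      ∀ t, IsPhases (sy (tr O m (fl l (Real.pi * t / len l)))).1 fun p =>
        -((N : ℝ) / (2 * Real.pi) * F (-p) (Real.pi * t / len l)) := by
  have hb : 0 < b := lt_of_lt_of_le ha hab
  have hL := SYS_len_pos hN l a b ha hl
  have hL1 := SYS_len_le hN l a b hl
  have hL2 := SYS_le_len hN l a b hl
  have hpi := Real.pi_pos
  have hNR : (0 : ℝ) < N := by exact_mod_cast hN
  obtain ⟨F, hF, hD⟩ := sel hN (fun k => sy (tr O m (fl l k)))
    (sy_cont.comp ((tr_cont O m).comp (fl_cont l))) (fun k => 2 * k * len l) (by fun_prop)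
    (fun k => det_sy O m l k)
  set L := len l with hLdef
  set fr : ℝ → ℝ := fun k => fro (Bm O m l (fl l k) - ((L / N : ℝ) : ℂ) • 1) with hfr
  have hfrc : Continuous fr := by
    refine SYS_fro_cont.comp ?_
    exact ((Bm_cont O m l).comp (fl_cont l)).sub continuous_const
  -- slopes
  have s1 : ∀ p x y, x ≤ y → F p y - F p x ≤ 2 * (m + 1) * b * (y - x) := by
    intro p x y hxy
    have := slope_int (F p) (hF p) (fun _ => 2 * (m + 1) * b) continuous_const
      (fun k₀ 𝒰 h => by
        obtain ⟨s, h1, -, h3, -⟩ := slope hN O m l a b ha hl F hF hD p k₀ 𝒰 h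
        exact ⟨s, h1, h3⟩) x y hxy
    rw [intervalIntegral.integral_const, smul_eq_mul] at this
    linarith
  have hneg : ∀ p (g : ℝ → ℝ), Continuous g → (∀ (k₀ : ℝ) (s : ℝ), 2 * (m + 1) * a ≤ s →
      |s - 2 * (L / N)| ≤ 2 * fr k₀ → -s ≤ g k₀) → ∀ x y, x ≤ y →
      -(F p y - F p x) ≤ ∫ t in x..y, g t := by
    intro p g hg hh x y hxy
    have := slope_int (fun k => -F p k) (hF p).neg g hg
      (fun k₀ 𝒰 h => by
        obtain ⟨s, h1, h2, -, h4⟩ := slope hN O m l a b ha hl F hF hD p k₀ 𝒰 h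
        refine ⟨-s, ?_, hh k₀ s h2 h4⟩
        refine (h1.neg).congr fun k => ?_
        rw [← neg_div]; ring_nf) x y hxy
    linarith
  have s2 : ∀ p x y, x ≤ y → 2 * (m + 1) * a * (y - x) ≤ F p y - F p x := by
    intro p x y hxy
    have := hneg p (fun _ => -(2 * (m + 1) * a)) continuous_const
      (fun k₀ s h1 _ => by linarith) x y hxy
    rw [intervalIntegral.integral_const, smul_eq_mul] at this
    nlinarith
  have hic : ∀ x y, IntervalIntegrable (fun k => 2 * fr k) volume x y := fun x y =>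
    (hfrc.const_mul 2).intervalIntegrable x y
  have s3 : ∀ p x y, x ≤ y →
      F p y - F p x ≤ 2 * (L / N) * (y - x) + ∫ k in x..y, 2 * fr k := by
    intro p x y hxy
    have := slope_int (F p) (hF p) (fun k => 2 * (L / N) + 2 * fr k)
      (continuous_const.add (hfrc.const_mul 2))
      (fun k₀ 𝒰 h => by
        obtain ⟨s, h1, -, -, h4⟩ := slope hN O m l a b ha hl F hF hD p k₀ 𝒰 h
        refine ⟨s, h1, ?_⟩
        have := (abs_le.1 h4).2
        simp only [hfr]; linarith) x y hxy
    rw [intervalIntegral.integral_add (by simp) (hic x y), intervalIntegral.integral_const,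
      smul_eq_mul] at this
    linarith
  have s4 : ∀ p x y, x ≤ y →
      2 * (L / N) * (y - x) - ∫ k in x..y, 2 * fr k ≤ F p y - F p x := by
    intro p x y hxy
    have := hneg p (fun k => -(2 * (L / N)) + 2 * fr k)
      (continuous_const.add (hfrc.const_mul 2))
      (fun k₀ s _ h4 => by
        have := (abs_le.1 h4).1
        linarith) x y hxy
    rw [intervalIntegral.integral_add (by simp) (hic x y), intervalIntegral.integral_const,
      smul_eq_mul] at this
    linarith
  -- change of variables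
  have hcv : ∀ x y : ℝ, ((N : ℝ) / (2 * Real.pi)) *
      ∫ k in (Real.pi * x / L)..(Real.pi * y / L), 2 * fr k
        = ∫ t in x..y, dev O m l (fl l (Real.pi * t / L)) := by
    intro x y
    have h1 := intervalIntegral.integral_comp_mul_left (a := x) (b := y) (fun k => 2 * fr k)
      (c := Real.pi / L) (by positivity)
    have e1 : Real.pi / L * x = Real.pi * x / L := by ring
    have e2 : Real.pi / L * y = Real.pi * y / L := by ring
    rw [e1, e2, smul_eq_mul] at h1
    have h2 : ∫ k in (Real.pi * x / L)..(Real.pi * y / L), 2 * fr k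
        = (Real.pi / L) * ∫ t in x..y, 2 * fr (Real.pi / L * t) := by
      rw [h1]; field_simp
    rw [h2, ← mul_assoc, ← intervalIntegral.integral_const_mul]
    refine intervalIntegral.integral_congr fun t _ => ?_
    change _ = dev O m l (fl l (Real.pi * t / L))
    unfold dev
    have e3 : Real.pi / L * t = Real.pi * t / L := by ring
    simp only [e3, hfr, ← hLdef]
    field_simp
  have hdiv : ∀ x y : ℝ, x ≤ y → Real.pi * x / L ≤ Real.pi * y / L := by
    intro x y hxy
    gcongr
  refine ⟨F, hF, hD, ?_, ?_⟩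
  · refine ⟨?_, ?_, ?_, ?_, ?_, ?_, ?_, ?_⟩
    · intro p
      refine continuous_const.mul ((hF p).comp ?_)
      fun_prop
    · intro t p q hpq
      exact mul_le_mul_of_nonneg_left ((hD _).mono hpq) (by positivity)
    · intro p t
      have := (hD (Real.pi * t / L)).per p
      rw [this]
      field_simp
    · intro p s t hst
      have h1 := s2 p _ _ (hdiv s t hst)
      have h2 : (N : ℝ) / (2 * Real.pi) * (2 * (m + 1) * a *
          (Real.pi * t / L - Real.pi * s / L)) ≤
          (N : ℝ) / (2 * Real.pi) * (F p (Real.pi * t / L) - F p (Real.pi * s / L)) :=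
        mul_le_mul_of_nonneg_left h1 (by positivity)
      have h3 : (N : ℝ) / (2 * Real.pi) * (2 * (m + 1) * a *
          (Real.pi * t / L - Real.pi * s / L)) = ((m + 1) * (N * a)) / L * (t - s) := by
        field_simp
      have h4 : a / b ≤ ((m + 1) * (N * a)) / L := by
        rw [div_le_div_iff₀ hb hL]
        calc a * L ≤ a * ((m + 1) * (N * b)) := mul_le_mul_of_nonneg_left hL1 ha.le
          _ = _ := by ring
      have h5 : a / b * (t - s) ≤ ((m + 1) * (N * a)) / L * (t - s) :=
        mul_le_mul_of_nonneg_right h4 (by linarith)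
      rw [← mul_sub]
      linarith
    · intro p s t hst
      have h1 := s1 p _ _ (hdiv s t hst)
      have h2 : (N : ℝ) / (2 * Real.pi) * (F p (Real.pi * t / L) - F p (Real.pi * s / L)) ≤
          (N : ℝ) / (2 * Real.pi) * (2 * (m + 1) * b *
          (Real.pi * t / L - Real.pi * s / L)) :=
        mul_le_mul_of_nonneg_left h1 (by positivity)
      have h3 : (N : ℝ) / (2 * Real.pi) * (2 * (m + 1) * b *
          (Real.pi * t / L - Real.pi * s / L)) = ((m + 1) * (N * b)) / L * (t - s) := by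
        field_simp
      have h4 : a / b * (((m + 1) * (N * b)) / L) ≤ 1 := by
        rw [div_mul_div_comm, div_le_one (by positivity)]
        calc a * ((m + 1) * (N * b)) = b * ((m + 1) * (N * a)) := by ring
          _ ≤ b * L := mul_le_mul_of_nonneg_left hL2 hb.le
      rw [← mul_sub]
      calc a / b * ((N : ℝ) / (2 * Real.pi) *
            (F p (Real.pi * t / L) - F p (Real.pi * s / L)))
          ≤ a / b * (((m + 1) * (N * b)) / L * (t - s)) := by
            refine mul_le_mul_of_nonneg_left ?_ (by positivity)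
            linarith
        _ = a / b * (((m + 1) * (N * b)) / L) * (t - s) := by ring
        _ ≤ 1 * (t - s) := mul_le_mul_of_nonneg_right h4 (by linarith)
        _ = t - s := one_mul _
    · refine (dev_cont O m l).comp ((fl_cont l).comp ?_)
      fun_prop
    · intro t
      unfold dev
      exact mul_nonneg (by positivity) (SYS_fro_nonneg _)
    · intro p s t hst
      have h1 := s3 p _ _ (hdiv s t hst)
      have h2 := s4 p _ _ (hdiv s t hst)
      have h3 : (N : ℝ) / (2 * Real.pi) * (2 * (L / N) *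
          (Real.pi * t / L - Real.pi * s / L)) = t - s := by
        field_simp
      have hc : (0 : ℝ) ≤ (N : ℝ) / (2 * Real.pi) := by positivity
      have h1' := mul_le_mul_of_nonneg_left h1 hc
      have h2' := mul_le_mul_of_nonneg_left h2 hc
      rw [mul_add, h3, hcv s t] at h1'
      rw [mul_sub, h3, hcv s t] at h2'
      rw [← mul_sub, abs_le]
      constructor <;> linarith
  · intro t
    have := dia_phases hN _ _ (hD (Real.pi * t / L))
    refine ⟨?_, ?_, ?_⟩
    · have h := this.mono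
      intro p q hpq
      have := h hpq
      beta_reduce at this ⊢
      linarith
    · intro p
      have h := this.per p
      beta_reduce at h ⊢
      linarith
    · intro x
      have h := this.mult x
      rw [← h]
      congr 1
      ext p
      simp only [mem_ofPred_eq, neg_mul]




theorem v07_geo (M : ℕ) (x : ℝ) (h : M * |x| ≤ Real.pi) :
    2 / Real.pi * M ≤ ‖∑ k ∈ Finset.range M, Complex.exp (x * Complex.I) ^ k‖ := by
  have hpi := Real.pi_pos
  have h2 := Real.two_le_pi
  rcases eq_or_ne x 0 with hx | hx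
  · subst hx
    have : ‖∑ k ∈ Finset.range M, Complex.exp (((0 : ℝ) : ℂ) * Complex.I) ^ k‖ = M := by simp
    rw [this]
    have h3 : 2 / Real.pi ≤ 1 := by rw [div_le_one hpi]; exact h2
    have h4 : (0 : ℝ) ≤ M := Nat.cast_nonneg _
    nlinarith
  · have hg := geom_sum_mul (Complex.exp (x * Complex.I)) M
    have hn := congrArg norm hg
    rw [norm_mul, ← Complex.exp_nat_mul] at hn
    have e1 : ‖Complex.exp (x * Complex.I) - 1‖ = |2 * Real.sin (x / 2)| := by
      have := Complex.norm_exp_I_mul_ofReal_sub_one (x := x)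
      rw [mul_comm Complex.I] at this
      rw [this, Real.norm_eq_abs]
    have e2 : ‖Complex.exp (M * (x * Complex.I)) - 1‖ = |2 * Real.sin (M * x / 2)| := by
      have := Complex.norm_exp_I_mul_ofReal_sub_one (x := M * x)
      rw [mul_comm Complex.I] at this
      rw [Real.norm_eq_abs] at this
      rw [← this]
      congr 3
      push_cast
      ring
    rw [e1, e2] at hn
    have h5 : |2 * Real.sin (x / 2)| ≤ |x| := by
      rw [abs_mul, abs_two]
      have := Real.abs_sin_le_abs (x := x / 2)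
      rw [abs_div, abs_two] at this
      linarith
    have h6 : 2 / Real.pi * (M * |x|) ≤ |2 * Real.sin (M * x / 2)| := by
      have h7 : |(M : ℝ) * x / 2| = M * |x| / 2 := by
        rw [abs_div, abs_mul, abs_two, Nat.abs_cast]
      have := Real.mul_abs_le_abs_sin (x := M * x / 2) (by rw [h7]; linarith)
      rw [h7] at this
      rw [abs_mul, abs_two]
      linarith
    have h8 : 0 < |x| := abs_pos.2 hx
    have h9 : 2 / Real.pi * M * |x| ≤ ‖∑ k ∈ Finset.range M, Complex.exp (x * Complex.I) ^ k‖ * |x| := by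
      calc 2 / Real.pi * M * |x| = 2 / Real.pi * (M * |x|) := by ring
        _ ≤ _ := h6
        _ = _ := hn.symm
        _ ≤ _ := mul_le_mul_of_nonneg_left h5 (norm_nonneg _)
    exact le_of_mul_le_mul_right h9 h8

theorem v07_form {N : ℕ} (V K : Mat N) (a : Fin N) :
    star (fun i => V i a) ⬝ᵥ K.mulVec (fun i => V i a) = (V.conjTranspose * K * V) a a := by
  rw [Matrix.mul_assoc]
  simp only [Matrix.mul_apply, dotProduct, Matrix.mulVec, Matrix.conjTranspose_apply, Pi.star_apply]

theorem v07_inv {N : ℕ} (V : Uni N) : (V⁻¹ : Uni N).1 = V.1.conjTranspose := rfl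

theorem v07_conj_mul {N : ℕ} (V : Uni N) : V.1.conjTranspose * V.1 = 1 := by
  have := V.2
  rwa [Matrix.mem_unitaryGroup_iff'] at this

theorem v07_mat {N : ℕ} (n M : ℕ) (hn : 1 ≤ n) (K : Mat N) (W V : Uni N) (c : Fin N → ℂ)
    (hc : ∀ a, ‖c a‖ = 1) (hW : W.1 = V.1 * Matrix.diagonal c * V.1.conjTranspose) :
    ∑ a, ‖∑ k ∈ Finset.range M, c a ^ k‖ ^ 2 * ‖(V.1.conjTranspose * K * V.1) a a‖ ^ 2 ≤
      fro (An n K W * ∑ k ∈ Finset.range M, (W ^ k : Uni N).1) ^ 2 := by
  set D : Uni N := V⁻¹ * W * V with hD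
  have hVV := v07_conj_mul V
  have hD1 : D.1 = Matrix.diagonal c := by
    change V.1.conjTranspose * W.1 * V.1 = _
    rw [hW, ← Matrix.mul_assoc, ← Matrix.mul_assoc, hVV, Matrix.one_mul, Matrix.mul_assoc, hVV, Matrix.mul_one]
  have hWD : W = V * D * V⁻¹ := by rw [hD]; group
  set K' : Mat N := V.1.conjTranspose * K * V.1 with hK'
  have hVV' : V.1 * V.1.conjTranspose = 1 := by
    have := V.2
    rwa [Matrix.mem_unitaryGroup_iff] at this
  have hKK : V.1 * K' * (V⁻¹ : Uni N).1 = K := by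
    rw [hK', v07_inv]
    calc V.1 * (V.1.conjTranspose * K * V.1) * V.1.conjTranspose
        = (V.1 * V.1.conjTranspose) * K * (V.1 * V.1.conjTranspose) := by
          simp only [Matrix.mul_assoc]
      _ = K := by rw [hVV', Matrix.one_mul, Matrix.mul_one]
  have hAn : An n K W = V.1 * An n K' D * (V⁻¹ : Uni N).1 := by
    rw [← An_conj, hKK, ← hWD]
  have hpow : ∀ k : ℕ, (W ^ k : Uni N).1 = V.1 * (D ^ k : Uni N).1 * (V⁻¹ : Uni N).1 := by
    intro k
    have : W ^ k = V * D ^ k * V⁻¹ := by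
      rw [hWD, conj_pow]
    rw [this]
    rfl
  have hZ : ∑ k ∈ Finset.range M, (W ^ k : Uni N).1 =
      V.1 * (∑ k ∈ Finset.range M, (D ^ k : Uni N).1) * (V⁻¹ : Uni N).1 := by
    rw [Finset.mul_sum, Finset.sum_mul]
    exact Finset.sum_congr rfl fun k _ => hpow k
  have hfro : fro (An n K W * ∑ k ∈ Finset.range M, (W ^ k : Uni N).1) =
      fro (An n K' D * ∑ k ∈ Finset.range M, (D ^ k : Uni N).1) := by
    rw [hAn, hZ, ← fro_uni V V⁻¹ (An n K' D * _)]
    congr 1
    rw [v07_inv]
    calc V.1 * An n K' D * V.1.conjTranspose * (V.1 * (∑ k ∈ Finset.range M, (D ^ k : Uni N).1) * V.1.conjTranspose)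
        = V.1 * An n K' D * (V.1.conjTranspose * V.1) * (∑ k ∈ Finset.range M, (D ^ k : Uni N).1) * V.1.conjTranspose := by
          simp only [Matrix.mul_assoc]
      _ = _ := by rw [hVV, Matrix.mul_one]; simp only [Matrix.mul_assoc]
  have hDk : ∀ k : ℕ, (D ^ k : Uni N).1 = Matrix.diagonal fun a => c a ^ k := by
    intro k
    have : (D ^ k : Uni N).1 = D.1 ^ k := rfl
    rw [this, hD1, Matrix.diagonal_pow]
    rfl
  have hDs : ∑ k ∈ Finset.range M, (D ^ k : Uni N).1 =
      Matrix.diagonal fun a => ∑ k ∈ Finset.range M, c a ^ k := by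
    simp only [hDk]
    ext i j
    rw [Matrix.sum_apply]
    by_cases hij : i = j
    · subst hij; simp
    · simp [hij]
  have hAd : ∀ a, An n K' D a a = K' a a := by
    intro a
    have h1 : ∀ k : ℕ, ((D ^ k : Uni N).1 * K' * ((D ^ k)⁻¹ : Uni N).1) a a = K' a a := by
      intro k
      rw [v07_inv, hDk, Matrix.diagonal_conjTranspose, Matrix.mul_diagonal, Matrix.diagonal_mul]
      have : c a ^ k * star (c a ^ k) = 1 := by
        change c a ^ k * (starRingEnd ℂ) (c a ^ k) = 1
        rw [Complex.mul_conj', norm_pow, hc a]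
        simp
      simp only [Pi.star_apply]
      calc c a ^ k * K' a a * star (c a ^ k) = c a ^ k * star (c a ^ k) * K' a a := by ring
        _ = K' a a := by rw [this, one_mul]
    unfold An
    rw [Matrix.smul_apply, Matrix.sum_apply, Finset.sum_congr rfl fun k _ => h1 k, Finset.sum_const,
      Finset.card_range, nsmul_eq_mul, smul_eq_mul, ← mul_assoc]
    have hn0 : (n : ℂ) ≠ 0 := by
      have : n ≠ 0 := by omega
      exact_mod_cast this
    push_cast
    rw [one_div_mul_cancel hn0, one_mul]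
  rw [hfro, fro_sq, hDs]
  refine Finset.sum_le_sum fun a _ => ?_
  have h2 : ‖∑ k ∈ Finset.range M, c a ^ k‖ ^ 2 * ‖K' a a‖ ^ 2 =
      ‖(An n K' D * Matrix.diagonal fun a => ∑ k ∈ Finset.range M, c a ^ k) a a‖ ^ 2 := by
    rw [Matrix.mul_diagonal, hAd, norm_mul, mul_pow, mul_comm]
  rw [h2]
  exact Finset.single_le_sum (f := fun b => ‖(An n K' D * Matrix.diagonal fun a => ∑ k ∈ Finset.range M, c a ^ k) a b‖ ^ 2)
    (fun _ _ => by positivity) (Finset.mem_univ a)


theorem v07_per {N : ℕ} (y : ℤ → ℝ) (h : ∀ p, y (p + N) = y p + N) (p q : ℤ) :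
    y (p + N * q) = y p + N * q := by
  induction q using Int.induction_on with
  | zero => simp
  | succ i ih =>
    rw [show p + N * ((i : ℤ) + 1) = p + N * (i : ℤ) + N by ring, h, ih]
    push_cast
    ring
  | pred i ih =>
    have := h (p + N * (-(i : ℤ) - 1))
    rw [show p + N * (-(i : ℤ) - 1) + N = p + N * (-(i : ℤ)) by ring, ih] at this
    push_cast at this ⊢
    linarith

theorem v07_fin {N : ℕ} (hN : 0 < N) (y : ℤ → ℝ) (hm : Monotone y)
    (h : ∀ p, y (p + N) = y p + N) (B : ℝ) : {q : ℤ | |y q| ≤ B}.Finite := by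
  have hNR : (1 : ℝ) ≤ N := by exact_mod_cast hN
  obtain ⟨K, hK⟩ := exists_nat_gt (|y 0| + B)
  have hK0 : (0 : ℝ) ≤ K := Nat.cast_nonneg K
  have h1 := v07_per y h 0 K
  have h2 := v07_per y h 0 (-(K : ℤ))
  push_cast at h1 h2
  have h3 : (K : ℝ) ≤ N * K := by nlinarith
  refine (Set.finite_Icc (-(N * K : ℤ)) (N * K)).subset fun q hq => ?_
  rw [mem_ofPred_eq, abs_le] at hq
  rw [mem_Icc]
  have h4 := neg_abs_le (y 0)
  have h5 := le_abs_self (y 0)
  constructor
  · by_contra hcon
    push Not at hcon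
    have h6 : y q ≤ y (0 + N * -(K : ℤ)) := hm (by push_cast; linarith)
    linarith [hq.1]
  · by_contra hcon
    push Not at hcon
    have h6 : y (0 + N * (K : ℤ)) ≤ y q := hm (by push_cast; linarith)
    linarith [hq.2]


/-- The estimate at a point where all branches are differentiable. -/
theorem v07_point {N : ℕ} (hN : 0 < N) (O : ℕ → Orth N) (m : ℕ) (l : Fin (m + 1) → Fin N → ℝ)
    (hL : 0 < len l) (F : ℤ → ℝ → ℝ) (hF : ∀ p, Continuous (F p))
    (hD : ∀ k, Dia (sy (tr O m (fl l k))) fun p => F p k)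
    (Φ : ℤ → ℝ → ℝ) (hΦ : ∀ p t, Φ p t = (N : ℝ) / (2 * Real.pi) * F p (Real.pi * t / len l))
    (hmono : ∀ t, Monotone fun p => Φ p t) (hper : ∀ p t, Φ (p + N) t = Φ p t + N)
    (n M' : ℕ) (R : ℝ) (hn : 1 ≤ n) (hM' : 1 ≤ M') (hR : 0 < R) (hRM : 2 * R * M' < N) (s : ℝ)
    (hs : ∀ q, DifferentiableAt ℝ (Φ q) s) :
    sD 2 R Φ s ≤ Qf n M' O m l (fl l (Real.pi * s / len l)) := by
  classical
  have hpi := Real.pi_pos
  have hNR : (0 : ℝ) < N := by exact_mod_cast hN
  set L := len l with hLdef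
  set k₀ : ℝ := Real.pi * s / L with hk₀
  set W : ℝ → Uni N := fun k => sy (tr O m (fl l k)) with hWdef
  set B := Bm O m l (fl l k₀) with hB
  set d : ℤ → ℝ := fun q => deriv (Φ q) s with hd
  -- derivatives of F
  have hFd : ∀ q, HasDerivAt (F q) (2 * L / N * d q) k₀ := by
    intro q
    have h1 : HasDerivAt (Φ q) (d q) (L / Real.pi * k₀) := by
      have : L / Real.pi * k₀ = s := by rw [hk₀]; field_simp
      rw [this]
      exact (hs q).hasDerivAt
    have h2 := (h1.comp k₀ ((hasDerivAt_id k₀).const_mul (L / Real.pi))).const_mul (2 * Real.pi / N)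
    have h3 : (fun k => 2 * Real.pi / N * ((Φ q) ∘ HMul.hMul (L / Real.pi)) k) = F q := by
      ext k
      simp only [Function.comp]
      rw [hΦ]
      have : Real.pi * (L / Real.pi * k) / L = k := by field_simp
      rw [this]
      field_simp
    rw [h3] at h2
    refine h2.congr_deriv ?_
    field_simp
  have hWc : Continuous W := by
    apply Continuous.subtype_mk
    refine continuous_matrix fun i j => ?_
    rw [continuous_iff_continuousAt]
    exact fun k => (SLG_deriv O m l k i j).continuousAt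
  obtain ⟨V, σ, hV, hσ⟩ := slope_joint hN W _ k₀ hWc (fun i j => SLG_deriv O m l k₀ i j) F hF hD
    (Ultrafilter.of (𝓝[≠] k₀)) (Ultrafilter.of_le _)
  set c : Fin N → ℂ := fun a => Complex.exp (F (a : ℕ) k₀ * Complex.I) with hc
  have hc0 : ∀ a, c a ≠ 0 := fun a => Complex.exp_ne_zero _
  have hcn : ∀ a, ‖c a‖ = 1 := fun a => Complex.norm_exp_ofReal_mul_I _
  have hVV := v07_conj_mul V
  have hWV : (W k₀).1 * V.1 = V.1 * Matrix.diagonal c := by
    rw [hV, Matrix.mul_assoc, hVV, Matrix.mul_one]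
  have hVW : V.1.conjTranspose * (W k₀).1 = Matrix.diagonal c * V.1.conjTranspose := by
    rw [hV, ← Matrix.mul_assoc, ← Matrix.mul_assoc, hVV, Matrix.one_mul]
  have hσd : ∀ a : Fin N, σ a = 2 * L / N * d (a : ℕ) := by
    intro a
    have h1 := (hasDerivAt_iff_tendsto_slope.1 (hFd (a : ℕ)))
    have h2 := h1.mono_left (Ultrafilter.of_le (𝓝[≠] k₀))
    have h3 := (hσ a).1
    have h4 : (fun k => (F (a : ℕ) k - F (a : ℕ) k₀) / (k - k₀)) = slope (F (a : ℕ)) k₀ := by
      ext k
      rw [slope_def_field]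
    rw [h4] at h3
    exact tendsto_nhds_unique h3 h2
  have hσB : ∀ a : Fin N, (σ a : ℂ) = (V.1.conjTranspose * (B + B.transpose) * V.1) a a := by
    intro a
    have h1 := (hσ a).2
    rw [v07_form] at h1
    have h2 : V.1.conjTranspose * (Complex.I • (B.transpose * (W k₀).1 + (W k₀).1 * B)) * V.1 =
        Complex.I • (V.1.conjTranspose * B.transpose * V.1 * Matrix.diagonal c +
          Matrix.diagonal c * (V.1.conjTranspose * B * V.1)) := by
      rw [Matrix.mul_smul, Matrix.smul_mul, Matrix.mul_add, Matrix.add_mul]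
      congr 2
      · rw [Matrix.mul_assoc, Matrix.mul_assoc, hWV]
        simp only [Matrix.mul_assoc]
      · rw [← Matrix.mul_assoc, hVW]
        simp only [Matrix.mul_assoc]
    have h3 : (V.1.conjTranspose * (Complex.I • (B.transpose * (W k₀).1 + (W k₀).1 * B)) * V.1) a a =
        Complex.I * c a * (V.1.conjTranspose * (B + B.transpose) * V.1) a a := by
      rw [h2, Matrix.smul_apply, Matrix.add_apply, Matrix.mul_diagonal, Matrix.diagonal_mul,
        Matrix.mul_add, Matrix.add_mul, Matrix.add_apply, smul_eq_mul]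
      ring
    have h4 : (σ a : ℂ) * Complex.I * c a = Complex.I * c a * (V.1.conjTranspose * (B + B.transpose) * V.1) a a := by
      rw [← h3]
      exact h1
    have h5 : Complex.I * c a ≠ 0 := mul_ne_zero Complex.I_ne_zero (hc0 a)
    apply mul_left_cancel₀ h5
    rw [← h4]
    ring
  have hK : ∀ a : Fin N, ((d (a : ℕ) - 1 : ℝ) : ℂ) = (V.1.conjTranspose * B1 O m l (fl l k₀) * V.1) a a := by
    intro a
    unfold B1
    rw [Matrix.mul_sub, Matrix.sub_mul, Matrix.mul_one, hVV, Matrix.mul_smul, Matrix.smul_mul,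
      Matrix.sub_apply, Matrix.smul_apply, Matrix.one_apply_eq, ← hB, ← hσB a, hσd a, smul_eq_mul]
    have hN0 : (N : ℂ) ≠ 0 := by exact_mod_cast hNR.ne'
    have hL0 : (L : ℂ) ≠ 0 := by exact_mod_cast hL.ne'
    push_cast
    rw [← hLdef]
    field_simp
  have hmat := v07_mat n M' hn (B1 O m l (fl l k₀)) (W k₀) V c hcn hV
  -- indices
  have hfin : {q : ℤ | |Φ q s| ≤ R}.Finite := v07_fin hN (fun q => Φ q s) (hmono s)
    (fun p => hper p s) R
  set A : Finset ℤ := hfin.toFinset with hA
  have hmemA : ∀ q, q ∈ A ↔ |Φ q s| ≤ R := by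
    intro q
    rw [hA, Finite.mem_toFinset, mem_ofPred_eq]
  have hsum : sD 2 R Φ s = ∑ q ∈ A, |deriv (Φ q) s - 1| ^ 2 := by
    unfold sD
    rw [finsum_eq_sum_of_support_subset (s := A)]
    · refine Finset.sum_congr rfl fun q hq => ?_
      rw [hmemA] at hq
      rw [if_pos hq]
    · intro q hq
      rw [Function.mem_support] at hq
      rw [Finset.mem_coe, hmemA]
      by_contra hcon
      exact hq (if_neg hcon)
  have hposN : (0 : ℤ) < (N : ℤ) := by exact_mod_cast hN
  have hrep : ∀ q : ℤ, ∃ a : Fin N, ∃ j : ℤ, q = (a : ℕ) + (N : ℤ) * j := by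
    intro q
    have h0 := Int.emod_nonneg q hposN.ne'
    have h1 := Int.emod_lt_of_pos q hposN
    refine ⟨⟨(q % (N : ℤ)).toNat, by omega⟩, q / (N : ℤ), ?_⟩
    have h2 : ((q % (N : ℤ)).toNat : ℤ) = q % (N : ℤ) := Int.toNat_of_nonneg h0
    simp only
    rw [h2]
    exact (Int.emod_add_mul_ediv q _).symm
  choose r j hrj using hrep
  have hdr : ∀ q, d q = d ((r q : ℕ) : ℤ) := by
    intro q
    have h1 : Φ q = fun t => Φ ((r q : ℕ) : ℤ) t + N * j q := by
      ext t
      have := v07_per (fun p => Φ p t) (fun p => hper p t) ((r q : ℕ) : ℤ) (j q)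
      rw [← hrj] at this
      exact this
    change deriv (Φ q) s = deriv (Φ ((r q : ℕ) : ℤ)) s
    rw [h1, deriv_add_const]
  have hcr : ∀ q, c (r q) = Complex.exp (F q k₀ * Complex.I) := by
    intro q
    have := SLG_per (N := N) (fun p => F p k₀) (hD k₀).per ((r q : ℕ) : ℤ) (j q)
    rw [← hrj] at this
    change Complex.exp (F ((r q : ℕ) : ℤ) k₀ * Complex.I) = _
    rw [this, Complex.exp_eq_exp_iff_exists_int]
    refine ⟨-(j q), ?_⟩
    push_cast
    ring
  have hRN : 2 * R < N := by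
    have : (1 : ℝ) ≤ M' := by exact_mod_cast hM'
    nlinarith
  have hinj : Set.InjOn r A := by
    intro q hq q' hq' hqq
    rw [Finset.mem_coe, hmemA, abs_le] at hq hq'
    have h1 := v07_per (fun p => Φ p s) (fun p => hper p s) ((r q : ℕ) : ℤ) (j q)
    have h2 := v07_per (fun p => Φ p s) (fun p => hper p s) ((r q' : ℕ) : ℤ) (j q')
    rw [← hrj] at h1 h2
    beta_reduce at h1 h2
    rw [← hqq] at h2
    have h3 : Φ q s - Φ q' s = N * ((j q - j q' : ℤ) : ℝ) := by
      push_cast; linarith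
    have h4 : j q = j q' := by
      by_contra hne
      have h5 : (1 : ℝ) ≤ |((j q - j q' : ℤ) : ℝ)| := by
        rw [← Int.cast_abs]
        have : (1 : ℤ) ≤ |j q - j q'| := Int.one_le_abs (sub_ne_zero.2 hne)
        exact_mod_cast this
      have h6 : |Φ q s - Φ q' s| ≤ 2 * R := by
        rw [abs_le]; constructor <;> linarith [hq.1, hq.2, hq'.1, hq'.2]
      rw [h3, abs_mul, Nat.abs_cast] at h6
      nlinarith
    rw [hrj q, hrj q', hqq, h4]
  have hM0 : (0 : ℝ) < M' := by exact_mod_cast hM'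
  have hterm : ∀ q ∈ A, (2 / Real.pi * M') ^ 2 * |deriv (Φ q) s - 1| ^ 2 ≤
      ‖∑ k ∈ Finset.range M', c (r q) ^ k‖ ^ 2 *
        ‖(V.1.conjTranspose * B1 O m l (fl l k₀) * V.1) (r q) (r q)‖ ^ 2 := by
    intro q hq
    rw [hmemA] at hq
    have h1 : M' * |F q k₀| ≤ Real.pi := by
      have h2 : F q k₀ = 2 * Real.pi / N * Φ q s := by
        rw [hΦ, ← hk₀]; field_simp
      rw [h2, abs_mul, abs_of_pos (by positivity : 0 < 2 * Real.pi / N)]
      have h3 : 2 * Real.pi / N * |Φ q s| ≤ 2 * Real.pi / N * R :=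
        mul_le_mul_of_nonneg_left hq (by positivity)
      calc (M' : ℝ) * (2 * Real.pi / N * |Φ q s|) ≤ M' * (2 * Real.pi / N * R) :=
            mul_le_mul_of_nonneg_left h3 hM0.le
        _ = Real.pi * (2 * R * M' / N) := by ring
        _ ≤ Real.pi * 1 := by
            refine mul_le_mul_of_nonneg_left ?_ hpi.le
            rw [div_le_one hNR]
            exact hRM.le
        _ = Real.pi := mul_one _
    have h2 := v07_geo M' (F q k₀) h1
    rw [← hcr] at h2
    have h3 : ‖(V.1.conjTranspose * B1 O m l (fl l k₀) * V.1) (r q) (r q)‖ = |deriv (Φ q) s - 1| := by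
      rw [← hK, Complex.norm_real, Real.norm_eq_abs, ← hdr]
    rw [h3]
    refine mul_le_mul_of_nonneg_right ?_ (by positivity)
    exact pow_le_pow_left₀ (by positivity) h2 2
  have hfinal : (2 / Real.pi * M') ^ 2 * sD 2 R Φ s ≤
      fro (An n (B1 O m l (fl l k₀)) (W k₀) * ∑ k ∈ Finset.range M', ((W k₀) ^ k : Uni N).1) ^ 2 := by
    refine le_trans ?_ hmat
    rw [hsum, Finset.mul_sum]
    refine le_trans (Finset.sum_le_sum hterm) ?_
    rw [← Finset.sum_image (f := fun a => ‖∑ k ∈ Finset.range M', c a ^ k‖ ^ 2 *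
        ‖(V.1.conjTranspose * B1 O m l (fl l k₀) * V.1) a a‖ ^ 2) (g := r) (s := A)
        (fun x hx y hy h => hinj hx hy h)]
    exact Finset.sum_le_sum_of_subset_of_nonneg (Finset.subset_univ _) fun _ _ _ => by positivity
  unfold Qf
  have h7 : (0 : ℝ) < (2 / Real.pi * M') ^ 2 := by positivity
  have h8 : Real.pi ^ 2 / (4 * M' ^ 2) * (2 / Real.pi * M') ^ 2 = 1 := by
    field_simp
    norm_num
  calc sD 2 R Φ s = Real.pi ^ 2 / (4 * M' ^ 2) * ((2 / Real.pi * M') ^ 2 * sD 2 R Φ s) := by
        rw [← mul_assoc, h8, one_mul]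
    _ ≤ _ := mul_le_mul_of_nonneg_left hfinal (by positivity)

theorem sys2 {N : ℕ} (hN : 0 < N) (O : ℕ → Orth N) (m : ℕ) (l : Fin (m + 1) → Fin N → ℝ)
    (a b : ℝ) (ha : 0 < a) (hab : a ≤ b) (hl : ∀ j i, l j i ∈ Icc a b) :
    ∃ Φ : ℤ → ℝ → ℝ, Sys N (a / b) Φ (fun t => dev O m l (fl l (Real.pi * t / len l))) ∧
      (∀ t, IsPhases (sy (tr O m (fl l (Real.pi * t / len l)))).1 fun p => -Φ (-p) t) ∧
      ∀ (n M' : ℕ) (R : ℝ), 1 ≤ n → 1 ≤ M' → 0 < R → 2 * R * M' < N →
        ∀ᵐ s, sD 2 R Φ s ≤ Qf n M' O m l (fl l (Real.pi * s / len l)) := by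
  obtain ⟨F, hF, hD, hS, hP⟩ := v07_sys hN O m l a b ha hab hl
  refine ⟨_, hS, hP, ?_⟩
  intro n M' R hn hM' hR hRM
  set Φ : ℤ → ℝ → ℝ := fun p t => (N : ℝ) / (2 * Real.pi) * F p (Real.pi * t / len l) with hΦ
  have hc : 0 < a / b := div_pos ha (lt_of_lt_of_le ha hab)
  have hmon : ∀ q, Monotone (Φ q) := by
    intro q x y hxy
    have := hS.low q x y hxy
    have h2 : 0 ≤ a / b * (y - x) := mul_nonneg hc.le (by linarith)
    simp only [hΦ]
    linarith
  have hae : ∀ᵐ s, ∀ q : ℤ, DifferentiableAt ℝ (Φ q) s :=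
    ae_all_iff.2 fun q => (hmon q).ae_differentiableAt
  filter_upwards [hae] with s hs
  exact v07_point hN O m l (SYS_len_pos hN l a b ha hl) F hF hD Φ (fun _ _ => rfl) hS.mono hS.per
    n M' R hn hM' hR hRM s hs

end Ty
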