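import Pool.Agent.LibTy70.T03
import Pool.Agent.LibTy70.T18

/-! Row V08: the integral of `Qf`. -/

open MeasureTheory Set Filter Topology

namespace Ty

open QGr

variable {N : ℕ}

theorem v08_Bm_cont : ∀ (m : ℕ) (l : Fin (m + 1) → Fin N → ℝ),
    Continuous fun q : (ℕ → Orth N) × (Fin (m + 1) → Tor N) => Bm q.1 m l q.2
  | 0, l => by
    simp only [Bm]
    exact continuous_const
  | m + 1, l => by
    have h1 : Continuous fun q : (ℕ → Orth N) × (Fin (m + 2) → Tor N) => (tr q.1 (m + 1) q.2).1 :=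
      continuous_subtype_val.comp (trc (m + 1))
    have h2 : Continuous fun q : (ℕ → Orth N) × (Fin (m + 2) → Tor N) =>
        Bm q.1 m (fun j => l j.castSucc) (fun j => q.2 j.castSucc) := by
      have h3 := v08_Bm_cont m (fun j => l j.castSucc)
      refine h3.comp (continuous_fst.prodMk ?_)
      exact continuous_pi fun j => (continuous_apply j.castSucc).comp continuous_snd
    simp only [Bm]
    exact ((h1.matrix_conjTranspose.matrix_mul continuous_const).matrix_mul h1).add h2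

theorem B0_cont (m : ℕ) (l : Fin (m + 1) → Fin N → ℝ) :
    Continuous fun q : (ℕ → Orth N) × (Fin (m + 1) → Tor N) => B0 q.1 m l q.2 := by
  unfold B0
  exact ((v08_Bm_cont m l).const_smul ((N / len l : ℝ) : ℂ)).sub continuous_const

theorem v08_B1 (O : ℕ → Orth N) (m : ℕ) (l : Fin (m + 1) → Fin N → ℝ) (θ : Fin (m + 1) → Tor N) :
    B1 O m l θ = (1 / 2 : ℂ) • (B0 O m l θ + (B0 O m l θ).transpose) := by
  have e : ((N / (2 * len l) : ℝ) : ℂ) = (1 / 2) * ((N / len l : ℝ) : ℂ) := by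
    have : (N / (2 * len l) : ℝ) = (1 / 2) * (N / len l : ℝ) := by
      rw [mul_comm 2, ← div_div]; ring
    rw [this, Complex.ofReal_mul]
    norm_num
  unfold B1 B0
  rw [e, Matrix.transpose_sub, Matrix.transpose_smul, Matrix.transpose_one]
  generalize ((N / len l : ℝ) : ℂ) = c
  generalize Bm O m l θ = B
  ext i j
  simp only [Matrix.sub_apply, Matrix.smul_apply, Matrix.add_apply, smul_eq_mul]
  ring

theorem v08_sy_cont : Continuous (sy : Uni N → Uni N) := by
  unfold sy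
  refine Continuous.subtype_mk ?_ _
  exact (continuous_subtype_val.matrix_transpose).matrix_mul continuous_subtype_val

theorem v08_W_cont (O : ℕ → Orth N) (m : ℕ) :
    Continuous fun θ : Fin (m + 1) → Tor N => sy (tr O m θ) :=
  v08_sy_cont.comp ((trc m).comp (continuous_const.prodMk continuous_id))

theorem v08_B0_cont (O : ℕ → Orth N) (m : ℕ) (l : Fin (m + 1) → Fin N → ℝ) :
    Continuous fun θ : Fin (m + 1) → Tor N => B0 O m l θ :=
  (B0_cont m l).comp (continuous_const.prodMk continuous_id)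

theorem v08_B1_cont (O : ℕ → Orth N) (m : ℕ) (l : Fin (m + 1) → Fin N → ℝ) :
    Continuous fun θ : Fin (m + 1) → Tor N => B1 O m l θ := by
  have h := v08_B0_cont O m l
  simp only [v08_B1]
  exact (h.add h.matrix_transpose).const_smul (1 / 2 : ℂ)

theorem v08_pow_cont (O : ℕ → Orth N) (m k : ℕ) :
    Continuous fun θ : Fin (m + 1) → Tor N => ((sy (tr O m θ)) ^ k : Uni N).1 := by
  induction k with
  | zero =>
    simp only [pow_zero]
    exact continuous_const
  | succ k ih =>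
    have h : (fun θ : Fin (m + 1) → Tor N => ((sy (tr O m θ)) ^ (k + 1) : Uni N).1) =
        fun θ => ((sy (tr O m θ)) ^ k : Uni N).1 * (sy (tr O m θ)).1 := by
      funext θ
      rw [pow_succ]
      rfl
    rw [h]
    exact ih.matrix_mul (continuous_subtype_val.comp (v08_W_cont O m))

theorem v08_An_cont (n : ℕ) (O : ℕ → Orth N) (m : ℕ) (K : (Fin (m + 1) → Tor N) → Mat N)
    (hK : Continuous K) : Continuous fun θ : Fin (m + 1) → Tor N => An n (K θ) (sy (tr O m θ)) := by
  have h := hK.prodMk (v08_W_cont O m)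
  have h2 := (An_cont (N := N) n).comp h
  exact h2

theorem Qf_cont (n M : ℕ) (O : ℕ → Orth N) (m : ℕ) (l : Fin (m + 1) → Fin N → ℝ) :
    Continuous (Qf n M O m l) := by
  have h1 : Continuous fun θ : Fin (m + 1) → Tor N => An n (B1 O m l θ) (sy (tr O m θ)) :=
    v08_An_cont n O m _ (v08_B1_cont O m l)
  have h2 : Continuous fun θ : Fin (m + 1) → Tor N =>
      ∑ k ∈ Finset.range M, ((sy (tr O m θ)) ^ k : Uni N).1 :=
    continuous_finsetSum _ fun k _ => v08_pow_cont O m k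
  have h3 : Continuous fun θ : Fin (m + 1) → Tor N => An n (B1 O m l θ) (sy (tr O m θ)) *
      ∑ k ∈ Finset.range M, ((sy (tr O m θ)) ^ k : Uni N).1 := h1.matrix_mul h2
  have h4 := froc.comp h3
  exact continuous_const.mul (h4.pow 2)

/-- the rotation of the first layer -/
noncomputable def v08_s (m : ℕ) (x : UnitAddCircle) : Fin (m + 1) → Tor N :=
  fun j => if j = 0 then fun _ => x else 0

theorem v08_dg_add (s t : Tor N) : dg (s + t) = dg s * dg t := by
  apply Subtype.ext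
  show (dg (s + t)).1 = (dg s).1 * (dg t).1
  rw [dg_val, dg_val, dg_val, Matrix.diagonal_mul_diagonal]
  congr 1
  funext a
  show ee ((s + t) a) = ee (s a) * ee (t a)
  unfold ee
  rw [Pi.add_apply, AddCircle.toCircle_add, Circle.coe_mul]

theorem v08_cast (m : ℕ) (x : UnitAddCircle) (θ : Fin (m + 2) → Tor N) :
    (fun j : Fin (m + 1) => (θ + v08_s (m + 1) x : Fin (m + 2) → Tor N) j.castSucc) =
      (fun j : Fin (m + 1) => θ j.castSucc) + v08_s m x := by
  funext j
  show θ j.castSucc + v08_s (m + 1) x j.castSucc = θ j.castSucc + v08_s m x j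
  congr 1
  by_cases h : j = 0
  · subst h
    rfl
  · have h' : ¬ (j.castSucc = 0) := by
      rw [Fin.castSucc_eq_zero_iff]; exact h
    unfold v08_s
    rw [if_neg h, if_neg h']

theorem v08_last (m : ℕ) (x : UnitAddCircle) (θ : Fin (m + 2) → Tor N) :
    (θ + v08_s (m + 1) x : Fin (m + 2) → Tor N) (Fin.last (m + 1)) = θ (Fin.last (m + 1)) := by
  have h : ¬ (Fin.last (m + 1) = 0) := by
    rw [Fin.ext_iff]; simp
  show θ (Fin.last (m + 1)) + v08_s (m + 1) x (Fin.last (m + 1)) = _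
  unfold v08_s
  rw [if_neg h, add_zero]

theorem v08_tr_rot (O : ℕ → Orth N) (x : UnitAddCircle) : ∀ (m : ℕ) (θ : Fin (m + 1) → Tor N),
    tr O m (θ + v08_s m x) = tr O m θ * dg fun _ => x
  | 0, θ => by
    simp only [tr]
    rw [← v08_dg_add]
    congr 1
  | m + 1, θ => by
    simp only [tr]
    rw [v08_last, v08_cast, v08_tr_rot O x m, mul_assoc, mul_assoc, mul_assoc]

theorem v08_dgc (x : UnitAddCircle) : (dg fun _ : Fin N => x).1 = ee x • (1 : Mat N) := by
  rw [dg_val]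
  exact (Matrix.smul_one_eq_diagonal (ee x)).symm

theorem v08_ee_conj (x : UnitAddCircle) : star (ee x) * ee x = 1 := by
  have h := ee_norm x
  have h2 : (starRingEnd ℂ) (ee x) * ee x = 1 := by
    rw [mul_comm, Complex.mul_conj, Complex.normSq_eq_norm_sq, h]; simp
  exact h2

theorem v08_mul_dgc (W : Uni N) (x : UnitAddCircle) : (W * dg fun _ => x).1 = ee x • W.1 := by
  have h : (W * dg fun _ => x).1 = W.1 * (dg fun _ : Fin N => x).1 := rfl
  rw [h, v08_dgc, Matrix.mul_smul, Matrix.mul_one]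

theorem v08_sand (W : Uni N) (x : UnitAddCircle) (D : Mat N) :
    (W * dg fun _ => x).1.conjTranspose * D * (W * dg fun _ => x).1 = W.1.conjTranspose * D * W.1 := by
  rw [v08_mul_dgc, Matrix.conjTranspose_smul, Matrix.smul_mul, Matrix.smul_mul, Matrix.mul_smul,
    smul_smul, v08_ee_conj, one_smul]

theorem v08_Bm_rot (O : ℕ → Orth N) (x : UnitAddCircle) : ∀ (m : ℕ) (l : Fin (m + 1) → Fin N → ℝ)
    (θ : Fin (m + 1) → Tor N), Bm O m l (θ + v08_s m x) = Bm O m l θ
  | 0, l, θ => by simp only [Bm]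
  | m + 1, l, θ => by
    have h1 := v08_Bm_rot O x m (fun j => l j.castSucc) (fun j => θ j.castSucc)
    have h2 : Bm O (m + 1) l (θ + v08_s (m + 1) x) =
        (tr O (m + 1) (θ + v08_s (m + 1) x)).1.conjTranspose
        * (Matrix.diagonal fun i => (l (Fin.last (m + 1)) i : ℂ)) * (tr O (m + 1) (θ + v08_s (m + 1) x)).1
        + Bm O m (fun j => l j.castSucc)
          (fun j : Fin (m + 1) => (θ + v08_s (m + 1) x : Fin (m + 2) → Tor N) j.castSucc) := by
      rw [Bm]
    rw [h2, v08_cast, h1, v08_tr_rot, v08_sand]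
    rw [Bm]

theorem v08_W_rot (O : ℕ → Orth N) (x : UnitAddCircle) (m : ℕ) (θ : Fin (m + 1) → Tor N) :
    sy (tr O m (θ + v08_s m x)) = sy (tr O m θ) * dg fun _ => x + x := by
  rw [v08_tr_rot, sy_dg, dg_const, mul_assoc, ← v08_dg_add]
  rfl

theorem v08_pow (W : Uni N) (x : UnitAddCircle) (k : ℕ) :
    (W * dg fun _ => x) ^ k = W ^ k * dg fun _ => k • x := by
  have h1 : Commute W (dg fun _ => x) := (dg_const x W).symm
  rw [h1.mul_pow, dg_pow]
  rfl

theorem v08_An_rot (n : ℕ) (K : Mat N) (W : Uni N) (x : UnitAddCircle) :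
    An n K (W * dg fun _ => x) = An n K W := by
  unfold An
  congr 1
  refine Finset.sum_congr rfl fun i _ => ?_
  rw [v08_pow]
  have h1 : (W ^ i * dg fun _ => i • x).1 = ee (i • x) • (W ^ i : Uni N).1 := v08_mul_dgc _ _
  have h2 : ((W ^ i * dg fun _ => i • x)⁻¹ : Uni N).1 = star (ee (i • x)) • ((W ^ i)⁻¹ : Uni N).1 := by
    show star (W ^ i * dg fun _ => i • x).1 = star (ee (i • x)) • star (W ^ i : Uni N).1
    rw [h1, star_smul]
  rw [h1, h2, Matrix.smul_mul, Matrix.smul_mul, Matrix.mul_smul, smul_smul, mul_comm, v08_ee_conj,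
    one_smul]

theorem v08_parseval (M : ℕ) (hM : 1 ≤ M) (ω : ℂ) (hω : IsPrimitiveRoot ω M) (a : ℕ → ℂ) :
    ∑ r ∈ Finset.range M, ‖∑ k ∈ Finset.range M, (ω ^ k) ^ r * a k‖ ^ 2 =
      M * ∑ k ∈ Finset.range M, ‖a k‖ ^ 2 := by
  have hn : ‖ω‖ = 1 := hω.norm'_eq_one (by omega)
  have hcc : (starRingEnd ℂ) ω * ω = 1 := by
    rw [mul_comm, Complex.mul_conj, Complex.normSq_eq_norm_sq, hn]; simp
  have key : (∑ r ∈ Finset.range M, (‖∑ k ∈ Finset.range M, (ω ^ k) ^ r * a k‖ ^ 2 : ℂ)) =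
      M * ∑ k ∈ Finset.range M, (‖a k‖ ^ 2 : ℂ) := by
    have h1 : ∀ r ∈ Finset.range M, (‖∑ k ∈ Finset.range M, (ω ^ k) ^ r * a k‖ ^ 2 : ℂ) =
        ∑ k ∈ Finset.range M, ∑ k' ∈ Finset.range M,
          (a k * (starRingEnd ℂ) (a k')) * (ω ^ k * (starRingEnd ℂ) ω ^ k') ^ r := by
      intro r _
      rw [← Complex.mul_conj', map_sum, Finset.sum_mul_sum]
      refine Finset.sum_congr rfl fun k _ => Finset.sum_congr rfl fun k' _ => ?_
      rw [map_mul, map_pow, map_pow, mul_pow]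
      ring
    rw [Finset.sum_congr rfl h1, Finset.sum_comm, Finset.mul_sum]
    refine Finset.sum_congr rfl fun k hk => ?_
    rw [Finset.sum_comm, Finset.sum_eq_single_of_mem k hk]
    · rw [← Finset.mul_sum]
      have e : ω ^ k * (starRingEnd ℂ) ω ^ k = 1 := by
        rw [← mul_pow, mul_comm ω, hcc, one_pow]
      rw [e]
      simp only [one_pow, Finset.sum_const, Finset.card_range, nsmul_eq_mul, mul_one]
      rw [Complex.mul_conj']
      ring
    · intro k' hk' hne
      rw [← Finset.mul_sum]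
      have hz : ω ^ k * (starRingEnd ℂ) ω ^ k' ≠ 1 := by
        intro h
        have h2 : ω ^ k = ω ^ k' := by
          calc ω ^ k = ω ^ k * ((starRingEnd ℂ) ω * ω) ^ k' := by rw [hcc, one_pow, mul_one]
            _ = (ω ^ k * (starRingEnd ℂ) ω ^ k') * ω ^ k' := by rw [mul_pow]; ring
            _ = ω ^ k' := by rw [h, one_mul]
        exact hne (hω.pow_inj (Finset.mem_range.1 hk) (Finset.mem_range.1 hk') h2).symm
      have hp : (ω ^ k * (starRingEnd ℂ) ω ^ k') ^ M = 1 := by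
        rw [mul_pow, ← pow_mul, ← pow_mul, mul_comm k, mul_comm k', pow_mul, pow_mul, hω.pow_eq_one,
          ← map_pow, hω.pow_eq_one]
        simp
      have hg := mul_neg_geom_sum (ω ^ k * (starRingEnd ℂ) ω ^ k') M
      rw [hp, sub_self] at hg
      rcases mul_eq_zero.1 hg with h | h
      · exact absurd (sub_eq_zero.1 h).symm hz
      · rw [h, mul_zero]
  have : ((∑ r ∈ Finset.range M, ‖∑ k ∈ Finset.range M, (ω ^ k) ^ r * a k‖ ^ 2 : ℝ) : ℂ) =
      ((M * ∑ k ∈ Finset.range M, ‖a k‖ ^ 2 : ℝ) : ℂ) := by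
    push_cast
    exact key
  exact_mod_cast this

theorem v08_ee (y : ℝ) : ee (y : UnitAddCircle) = Complex.exp (2 * Real.pi * y * Complex.I) := by
  unfold ee
  rw [AddCircle.toCircle_apply_mk, Circle.coe_exp]
  congr 1
  push_cast
  ring

theorem v08_ee_nsmul (k : ℕ) (x : UnitAddCircle) : ee (k • x) = ee x ^ k := by
  unfold ee
  rw [AddCircle.toCircle_nsmul, Circle.coe_pow]

theorem v08_sum (n M : ℕ) (hM : 1 ≤ M) (O : ℕ → Orth N) (m : ℕ) (l : Fin (m + 1) → Fin N → ℝ)
    (θ : Fin (m + 1) → Tor N) :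
    ∑ r ∈ Finset.range M, Qf n M O m l (θ + v08_s m (((r : ℝ) / (2 * M) : ℝ) : UnitAddCircle)) =
      Real.pi ^ 2 / 4 * fro (An n (B1 O m l θ) (sy (tr O m θ))) ^ 2 := by
  have hM0 : (M : ℝ) ≠ 0 := by positivity
  have hMC : (M : ℂ) ≠ 0 := by exact_mod_cast (by omega : M ≠ 0)
  set ω : ℂ := Complex.exp (2 * Real.pi * Complex.I / M) with hω
  have hprim : IsPrimitiveRoot ω M := Complex.isPrimitiveRoot_exp M (by omega)
  set W := sy (tr O m θ) with hW
  set A := An n (B1 O m l θ) W with hA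
  have hB1 : ∀ x : UnitAddCircle, B1 O m l (θ + v08_s m x) = B1 O m l θ := by
    intro x
    unfold B1
    rw [v08_Bm_rot]
  have hterm : ∀ r ∈ Finset.range M,
      Qf n M O m l (θ + v08_s m (((r : ℝ) / (2 * M) : ℝ) : UnitAddCircle)) =
      Real.pi ^ 2 / (4 * M ^ 2) * ∑ i, ∑ j,
        ‖∑ k ∈ Finset.range M, (ω ^ k) ^ r * (A * (W ^ k : Uni N).1) i j‖ ^ 2 := by
    intro r _
    unfold Qf
    rw [hB1, v08_W_rot, v08_An_rot, ← hW, ← hA, fro_sq]
    congr 1
    refine Finset.sum_congr rfl fun i _ => Finset.sum_congr rfl fun j _ => ?_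
    congr 2
    rw [Matrix.mul_sum, Matrix.sum_apply]
    refine Finset.sum_congr rfl fun k _ => ?_
    rw [v08_pow]
    have h1 : (W ^ k * dg fun _ => k • ((((r : ℝ) / (2 * M) : ℝ) : UnitAddCircle) +
        (((r : ℝ) / (2 * M) : ℝ) : UnitAddCircle))).1 = (ω ^ k) ^ r • (W ^ k : Uni N).1 := by
      rw [v08_mul_dgc, v08_ee_nsmul, ← AddCircle.coe_add, v08_ee]
      congr 1
      rw [← pow_mul, mul_comm k r, pow_mul]
      congr 1
      rw [hω, ← Complex.exp_nat_mul]
      congr 1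
      push_cast
      field_simp
      ring
    rw [h1, Matrix.mul_smul, Matrix.smul_apply, smul_eq_mul]
  rw [Finset.sum_congr rfl hterm, ← Finset.mul_sum]
  have h2 : ∑ r ∈ Finset.range M, ∑ i, ∑ j,
      ‖∑ k ∈ Finset.range M, (ω ^ k) ^ r * (A * (W ^ k : Uni N).1) i j‖ ^ 2 =
      M * (M * fro A ^ 2) := by
    calc ∑ r ∈ Finset.range M, ∑ i, ∑ j,
      ‖∑ k ∈ Finset.range M, (ω ^ k) ^ r * (A * (W ^ k : Uni N).1) i j‖ ^ 2
        = ∑ i, ∑ j, ∑ r ∈ Finset.range M,
      ‖∑ k ∈ Finset.range M, (ω ^ k) ^ r * (A * (W ^ k : Uni N).1) i j‖ ^ 2 := by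
          rw [Finset.sum_comm]
          refine Finset.sum_congr rfl fun i _ => ?_
          rw [Finset.sum_comm]
      _ = ∑ i, ∑ j, M * ∑ k ∈ Finset.range M, ‖(A * (W ^ k : Uni N).1) i j‖ ^ 2 := by
          refine Finset.sum_congr rfl fun i _ => Finset.sum_congr rfl fun j _ => ?_
          exact v08_parseval M hM ω hprim fun k => (A * (W ^ k : Uni N).1) i j
      _ = M * ∑ k ∈ Finset.range M, ∑ i, ∑ j, ‖(A * (W ^ k : Uni N).1) i j‖ ^ 2 := by
          simp only [← Finset.mul_sum]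
          congr 1
          rw [Finset.sum_congr rfl fun i _ => Finset.sum_comm, Finset.sum_comm]
      _ = M * ∑ k ∈ Finset.range M, fro A ^ 2 := by
          congr 1
          refine Finset.sum_congr rfl fun k _ => ?_
          rw [← fro_sq]
          have := fro_uni 1 (W ^ k) A
          rw [← this]
          congr 2
          show _ = (1 : Mat N) * A * _
          rw [Matrix.one_mul]
      _ = M * (M * fro A ^ 2) := by
          rw [Finset.sum_const, Finset.card_range, nsmul_eq_mul]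
  rw [h2]
  field_simp

theorem v08_inv (m : ℕ) (s : Fin (m + 1) → Tor N) (f : (Fin (m + 1) → Tor N) → ℝ) :
    ∫ θ, f (θ + s) = ∫ θ, f θ := by
  have : (volume : Measure (Fin (m + 1) → Tor N)).IsAddLeftInvariant :=
    Measure.pi.isAddLeftInvariant (fun _ : Fin (m + 1) => (volume : Measure (Tor N)))
  exact integral_add_right_eq_self f s

theorem v08_integrable {m : ℕ} (f : (Fin (m + 1) → Tor N) → ℝ) (hf : Continuous f) : Integrable f :=
  hf.integrable_of_hasCompactSupport (HasCompactSupport.of_compactSpace f)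

theorem Qf_int (n M : ℕ) (hM : 1 ≤ M) (O : ℕ → Orth N) (m : ℕ) (l : Fin (m + 1) → Fin N → ℝ) :
    ∫ θ, Qf n M O m l θ ≤ Real.pi ^ 2 / (4 * M) *
      ∫ θ, fro (An n (B0 O m l θ) (sy (tr O m θ))) ^ 2 := by
  have hM0 : (0 : ℝ) < M := by positivity
  have hrot : ∀ s : Fin (m + 1) → Tor N, ∫ θ, Qf n M O m l (θ + s) = ∫ θ, Qf n M O m l θ := fun s =>
    v08_inv m s (fun θ => Qf n M O m l θ)
  have h1 : (M : ℝ) * ∫ θ, Qf n M O m l θ = ∫ θ, ∑ r ∈ Finset.range M,
      Qf n M O m l (θ + v08_s m (((r : ℝ) / (2 * M) : ℝ) : UnitAddCircle)) := by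
    rw [integral_finsetSum]
    · rw [Finset.sum_congr rfl fun r _ => hrot _, Finset.sum_const, Finset.card_range, nsmul_eq_mul]
    · intro r _
      exact v08_integrable _ ((Qf_cont n M O m l).comp (continuous_id.add continuous_const))
  have hc1 : Continuous fun θ : Fin (m + 1) → Tor N => fro (An n (B1 O m l θ) (sy (tr O m θ))) ^ 2 :=
    (froc.comp (v08_An_cont n O m _ (v08_B1_cont O m l))).pow 2
  have hc0 : Continuous fun θ : Fin (m + 1) → Tor N => fro (An n (B0 O m l θ) (sy (tr O m θ))) ^ 2 :=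
    (froc.comp (v08_An_cont n O m _ (v08_B0_cont O m l))).pow 2
  have h2 : ∫ θ, fro (An n (B1 O m l θ) (sy (tr O m θ))) ^ 2 ≤
      ∫ θ, fro (An n (B0 O m l θ) (sy (tr O m θ))) ^ 2 := by
    refine integral_mono (v08_integrable _ hc1) (v08_integrable _ hc0) fun θ => ?_
    show fro (An n (B1 O m l θ) (sy (tr O m θ))) ^ 2 ≤ fro (An n (B0 O m l θ) (sy (tr O m θ))) ^ 2
    refine pow_le_pow_left₀ (fro_nonneg _) ?_ 2
    rw [v08_B1, An_smul, An_add, fro_smul]
    have h3 := fro_add (An n (B0 O m l θ) (sy (tr O m θ))) (An n (B0 O m l θ).transpose (sy (tr O m θ)))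
    rw [An_transpose n _ _ (sy_sym _)] at h3
    have h4 : ‖(1 / 2 : ℂ)‖ = 1 / 2 := by norm_num
    rw [h4]
    linarith
  have h3 : (M : ℝ) * ∫ θ, Qf n M O m l θ =
      Real.pi ^ 2 / 4 * ∫ θ, fro (An n (B1 O m l θ) (sy (tr O m θ))) ^ 2 := by
    rw [h1, ← integral_const_mul]
    exact integral_congr_ae (Eventually.of_forall fun θ => v08_sum n M hM O m l θ)
  have h4 : ∫ θ, Qf n M O m l θ = Real.pi ^ 2 / (4 * M) *
      ∫ θ, fro (An n (B1 O m l θ) (sy (tr O m θ))) ^ 2 := by
    have : ∫ θ, Qf n M O m l θ = ((M : ℝ) * ∫ θ, Qf n M O m l θ) / M := by field_simp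
    rw [this, h3]
    field_simp
  rw [h4]
  exact mul_le_mul_of_nonneg_left h2 (by positivity)

end Ty
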