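import Pool.Agent.LibTy70.Defs
import Pool.Agent.LibQGr.R_COR
import Pool.Agent.LibQGr.R_ZER

/-! Row V09: powers of the number of near branches. Plan: `A = {q : |y q| ≤ R}`, `y q = -Φ (-q) s`, finite with `n = n2 R Φ s` elements.
`n^k ≤ (2k)^k + 2^k n.descFactorial k` (`k = p+2`; if `n ≥ 2k` every factor is at least `n/2`), and `n.descFactorial k` is the
number of injective `k`-tuples in `A`; each of them is `(q, q + r_i - M)` with `M = N*Q`, `r` injective, `r_i ≠ M`
(since `|y q - y q'| ≤ 2R < Q ≤ N Q` and `y (q + N) = y q + N` imply `|q - q'| ≤ N Q`), where `tent R (y q) = 1` and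
`tprod R (differences) = 1`; all terms of `Lw` are nonnegative (finite support). `near_one`: the same with `k = 1`.
`sD_le`: Cauchy-Schwarz and AM-GM: `n^j ∑ D ≤ n^j √n √(∑ D²) ≤ (τ n^(2j+1) + ∑ D²/τ)/2`. -/

open MeasureTheory Set Filter Topology

namespace Ty

open QGr

theorem tent_lip (R : ℝ) (hR : 0 < R) (x y : ℝ) : |tent R x - tent R y| ≤ 1 / R * |x - y| := by
  unfold tent
  refine (abs_max_sub_max_le_max _ _ _ _).trans ?_
  rw [sub_self, abs_zero]
  refine max_le (by positivity) ?_
  refine (abs_min_sub_min_le_max _ _ _ _).trans ?_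
  rw [sub_self, abs_zero]
  refine max_le (by positivity) ?_
  have h1 : 2 - |x| / R - (2 - |y| / R) = -(1 / R * (|x| - |y|)) := by ring
  rw [h1, abs_neg, abs_mul, abs_of_pos (by positivity : (0 : ℝ) < 1 / R)]
  exact mul_le_mul_of_nonneg_left (abs_abs_sub_abs_le_abs_sub x y) (by positivity)

theorem tent_bd (R : ℝ) (hR : 0 < R) (x : ℝ) : 0 ≤ tent R x ∧ tent R x ≤ 1 ∧
    (|x| ≤ R → tent R x = 1) ∧ (2 * R < |x| → tent R x = 0) := by
  unfold tent
  refine ⟨le_max_left _ _, max_le zero_le_one (min_le_left _ _), fun h => ?_, fun h => ?_⟩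
  · have h1 : |x| / R ≤ 1 := by rwa [div_le_one hR]
    rw [min_eq_left (by linarith), max_eq_right zero_le_one]
  · have h1 : 2 < |x| / R := by rwa [lt_div_iff₀ hR]
    rw [min_eq_right (by linarith), max_eq_left (by linarith)]

theorem v09_cont (R : ℝ) : Continuous (tent R) := by
  unfold tent
  fun_prop

theorem tent_int (R : ℝ) (hR : 0 < R) : ∫ x, tent R x = 3 * R := by
  have h0 : ∫ x, tent R x = ∫ x in (-(2 * R))..(2 * R), tent R x := by
    rw [intervalIntegral.integral_of_le (by linarith), ← integral_Icc_eq_integral_Ioc,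
      setIntegral_eq_integral_of_forall_compl_eq_zero]
    intro x hx
    apply (tent_bd R hR x).2.2.2
    rw [mem_Icc, not_and_or, not_le, not_le] at hx
    rcases hx with hx | hx
    · exact lt_of_lt_of_le (by linarith) (neg_le_abs x)
    · exact lt_of_lt_of_le hx (le_abs_self x)
  have hi : ∀ a b : ℝ, IntervalIntegrable (tent R) volume a b := fun a b =>
    (v09_cont R).intervalIntegrable a b
  rw [h0, ← intervalIntegral.integral_add_adjacent_intervals (hi _ (-R)) (hi (-R) _),
    ← intervalIntegral.integral_add_adjacent_intervals (hi (-R) R) (hi R (2 * R))]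
  have e1 : ∫ x in (-(2 * R))..(-R), tent R x = ∫ x in (-(2 * R))..(-R), (2 + x / R) := by
    refine intervalIntegral.integral_congr fun x hx => ?_
    rw [uIcc_of_le (by linarith), mem_Icc] at hx
    unfold tent
    rw [abs_of_nonpos (by linarith)]
    have h1 : x / R ≤ -1 := by rw [div_le_iff₀ hR]; linarith
    have h2 : -2 ≤ x / R := by rw [le_div_iff₀ hR]; linarith
    simp only [neg_div, sub_neg_eq_add]
    rw [min_eq_right (by linarith), max_eq_right (by linarith)]
  have e2 : ∫ x in (-R)..R, tent R x = ∫ x in (-R)..R, (1 : ℝ) := by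
    refine intervalIntegral.integral_congr fun x hx => ?_
    rw [uIcc_of_le (by linarith), mem_Icc] at hx
    exact (tent_bd R hR x).2.2.1 (abs_le.2 hx)
  have e3 : ∫ x in R..(2 * R), tent R x = ∫ x in R..(2 * R), (2 - x / R) := by
    refine intervalIntegral.integral_congr fun x hx => ?_
    rw [uIcc_of_le (by linarith), mem_Icc] at hx
    unfold tent
    rw [abs_of_nonneg (by linarith)]
    have h1 : 1 ≤ x / R := by rw [le_div_iff₀ hR]; linarith
    have h2 : x / R ≤ 2 := by rw [div_le_iff₀ hR]; linarith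
    rw [min_eq_right (by linarith), max_eq_right (by linarith)]
  rw [e1, e2, e3, intervalIntegral.integral_add (by simp) (by
      apply Continuous.intervalIntegrable; fun_prop),
    intervalIntegral.integral_sub (by simp) (by
      apply Continuous.intervalIntegrable; fun_prop)]
  simp only [intervalIntegral.integral_const, smul_eq_mul, intervalIntegral.integral_div,
    integral_id]
  field_simp
  ring

theorem v09_prod {ι : Type} (s : Finset ι) (a b : ι → ℝ) (ha : ∀ i, 0 ≤ a i ∧ a i ≤ 1)
    (hb : ∀ i, 0 ≤ b i ∧ b i ≤ 1) : |∏ i ∈ s, a i - ∏ i ∈ s, b i| ≤ ∑ i ∈ s, |a i - b i| := by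
  classical
  induction s using Finset.induction_on with
  | empty => simp
  | insert i s hi ih =>
    rw [Finset.prod_insert hi, Finset.prod_insert hi, Finset.sum_insert hi]
    have h1 : a i * ∏ j ∈ s, a j - b i * ∏ j ∈ s, b j =
        (a i - b i) * ∏ j ∈ s, a j + b i * (∏ j ∈ s, a j - ∏ j ∈ s, b j) := by ring
    rw [h1]
    refine (abs_add_le _ _).trans ?_
    rw [abs_mul, abs_mul]
    have h2 : |∏ j ∈ s, a j| ≤ 1 := by
      rw [abs_of_nonneg (Finset.prod_nonneg fun j _ => (ha j).1)]
      exact Finset.prod_le_one (fun j _ => (ha j).1) fun j _ => (ha j).2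
    have h3 : |b i| ≤ 1 := by rw [abs_of_nonneg (hb i).1]; exact (hb i).2
    have h4 : |a i - b i| * |∏ j ∈ s, a j| ≤ |a i - b i| * 1 :=
      mul_le_mul_of_nonneg_left h2 (abs_nonneg _)
    have h5 : |b i| * |∏ j ∈ s, a j - ∏ j ∈ s, b j| ≤ 1 * |∏ j ∈ s, a j - ∏ j ∈ s, b j| :=
      mul_le_mul_of_nonneg_right h3 (abs_nonneg _)
    linarith

theorem tprod_bd (R : ℝ) (hR : 0 < R) (k : ℕ) :
    (∀ v : Fin k → ℝ, 0 ≤ tprod R v ∧ tprod R v ≤ 1) ∧
    (∀ v : Fin k → ℝ, (∃ i, 4 * R < |v i|) → tprod R v = 0) ∧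
    (∀ u v : Fin k → ℝ, |tprod R u - tprod R v| ≤ k / (2 * R) * dist u v) := by
  have hR2 : 0 < 2 * R := by linarith
  refine ⟨fun v => ⟨?_, ?_⟩, ?_, ?_⟩
  · exact Finset.prod_nonneg fun i _ => (tent_bd _ hR2 _).1
  · exact Finset.prod_le_one (fun i _ => (tent_bd _ hR2 _).1) fun i _ => (tent_bd _ hR2 _).2.1
  · rintro v ⟨i, hi⟩
    refine Finset.prod_eq_zero (Finset.mem_univ i) ((tent_bd _ hR2 _).2.2.2 ?_)
    linarith
  · intro u v
    unfold tprod
    refine (v09_prod _ _ _ (fun i => ⟨(tent_bd _ hR2 _).1, (tent_bd _ hR2 _).2.1⟩)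
      fun i => ⟨(tent_bd _ hR2 _).1, (tent_bd _ hR2 _).2.1⟩).trans ?_
    calc ∑ i, |tent (2 * R) (u i) - tent (2 * R) (v i)|
        ≤ ∑ _i : Fin k, 1 / (2 * R) * dist u v := by
          refine Finset.sum_le_sum fun i _ => (tent_lip _ hR2 _ _).trans ?_
          refine mul_le_mul_of_nonneg_left ?_ (by positivity)
          rw [← Real.dist_eq]
          exact dist_le_pi_dist u v i
      _ = k / (2 * R) * dist u v := by
          rw [Finset.sum_const, Finset.card_univ, Fintype.card_fin, nsmul_eq_mul]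
          ring

theorem v09_per {N : ℕ} (y : ℤ → ℝ) (h : ∀ p, y (p + N) = y p + N) (p q : ℤ) :
    y (p + N * q) = y p + N * q := by
  induction q using Int.induction_on with
  | zero => simp
  | succ i ih =>
    rw [show p + N * ((i : ℤ) + 1) = p + N * (i : ℤ) + N by ring, h, ih]
    push_cast
    ring
  | pred i ih =>
    have := h (p + N * (-(i : ℤ) - 1))
    rw [show p + N * (-(i : ℤ) - 1) + N = p + N * (-(i : ℤ)) by ring, ih] at this
    push_cast at this ⊢
    linarith

theorem v09_fin {N : ℕ} (hN : 0 < N) (y : ℤ → ℝ) (hm : Monotone y)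
    (h : ∀ p, y (p + N) = y p + N) (B : ℝ) : {q : ℤ | |y q| ≤ B}.Finite := by
  have hNR : (1 : ℝ) ≤ N := by exact_mod_cast hN
  obtain ⟨K, hK⟩ := exists_nat_gt (|y 0| + B)
  have hK0 : (0 : ℝ) ≤ K := Nat.cast_nonneg K
  have h1 := v09_per y h 0 K
  have h2 := v09_per y h 0 (-(K : ℤ))
  push_cast at h1 h2
  have h3 : (K : ℝ) ≤ N * K := by nlinarith
  refine (Set.finite_Icc (-(N * K : ℤ)) (N * K)).subset fun q hq => ?_
  rw [mem_ofPred_eq, abs_le] at hq
  rw [mem_Icc]
  have h4 := neg_abs_le (y 0)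
  have h5 := le_abs_self (y 0)
  constructor
  · by_contra hcon
    push Not at hcon
    have h6 : y q ≤ y (0 + N * -(K : ℤ)) := hm (by push_cast; linarith)
    linarith [hq.1]
  · by_contra hcon
    push Not at hcon
    have h6 : y (0 + N * (K : ℤ)) ≤ y q := hm (by push_cast; linarith)
    linarith [hq.2]

/-- Facts on the sequence `y q = -Φ (-q) s`. -/
theorem v09_y {N : ℕ} {c : ℝ} (Φ : ℤ → ℝ → ℝ) (w : ℝ → ℝ) (hS : Sys N c Φ w) (s : ℝ) :
    Monotone (fun q : ℤ => -Φ (-q) s) ∧ ∀ p : ℤ, -Φ (-(p + N)) s = -Φ (-p) s + N := by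
  constructor
  · intro p q hpq
    have := hS.mono s (neg_le_neg hpq)
    simp only at this ⊢
    linarith
  · intro p
    have h := hS.per (-(p + N)) s
    rw [show -(p + (N : ℤ)) + N = -p by ring] at h
    linarith

theorem v09_card (R : ℝ) (Φ : ℤ → ℝ → ℝ) (s : ℝ) :
    n2 R Φ s = {q : ℤ | |-Φ (-q) s| ≤ R}.ncard := by
  unfold n2
  have h : {q : ℤ | |-Φ (-q) s| ≤ R} = (fun q : ℤ => -q) '' {q : ℤ | |Φ q s| ≤ R} := by
    ext q
    rw [mem_image]
    constructor
    · intro hq
      refine ⟨-q, ?_, by ring⟩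
      rw [mem_ofPred_eq, abs_neg] at hq
      exact hq
    · rintro ⟨r, hr, rfl⟩
      rw [mem_ofPred_eq, abs_neg, neg_neg]
      exact hr
  rw [h, Set.ncard_image_of_injective _ neg_injective]

/-- Lower bound for `Lw` by a finite sum. -/
theorem v09_Lw (M : ℕ) (R : ℝ) (hR : 0 < R) (h : (Fin (2 * M + 1) → ℝ) → ℝ) (hh : ∀ v, 0 ≤ h v)
    (z : ℤ → ℝ) (hf : {q : ℤ | |z q| ≤ 2 * R}.Finite) (A : Finset ℤ) (hA : ∀ q ∈ A, |z q| ≤ R) :
    ∑ q ∈ A, h (fun s => z (q + (s : ℕ) - M) - z q) ≤ Lw M (tent R) h z := by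
  unfold Lw
  have hsup : (Function.support fun q : ℤ =>
      tent R (z q) * h fun s => z (q + (s : ℕ) - M) - z q) ⊆ (hf.toFinset : Set ℤ) := by
    intro q hq
    rw [Finite.coe_toFinset]
    by_contra hcon
    rw [mem_ofPred_eq, not_le] at hcon
    rw [Function.mem_support] at hq
    apply hq
    rw [(tent_bd R hR _).2.2.2 hcon, zero_mul]
  rw [finsum_eq_sum_of_support_subset _ hsup]
  calc ∑ q ∈ A, h (fun s => z (q + (s : ℕ) - M) - z q)
      = ∑ q ∈ A, tent R (z q) * h (fun s => z (q + (s : ℕ) - M) - z q) := by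
        refine Finset.sum_congr rfl fun q hq => ?_
        rw [(tent_bd R hR _).2.2.1 (hA q hq), one_mul]
    _ ≤ _ := by
        refine Finset.sum_le_sum_of_subset_of_nonneg ?_ fun q _ _ =>
          mul_nonneg (tent_bd R hR _).1 (hh _)
        intro q hq
        rw [Finite.mem_toFinset, mem_ofPred_eq]
        have := hA q hq
        linarith

theorem v09_desc (n k : ℕ) (hk : 1 ≤ k) (h : 2 * k ≤ n) :
    (n : ℝ) ^ k ≤ 2 ^ k * (n.descFactorial k : ℝ) := by
  have h1 := Nat.pow_sub_le_descFactorial n k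
  have h2 : n ≤ 2 * (n + 1 - k) := by omega
  have h3 : n ^ k ≤ 2 ^ k * n.descFactorial k := by
    calc n ^ k ≤ (2 * (n + 1 - k)) ^ k := Nat.pow_le_pow_left h2 k
      _ = 2 ^ k * (n + 1 - k) ^ k := mul_pow _ _ _
      _ ≤ 2 ^ k * n.descFactorial k := Nat.mul_le_mul_left _ h1
  exact_mod_cast h3

theorem near_pow {N Q : ℕ} (hN : 0 < N) {c : ℝ} (hc : 0 < c) (R : ℝ) (hR : 0 < R) (hQ : 2 * R < Q)
    (Φ : ℤ → ℝ → ℝ) (w : ℝ → ℝ) (hS : Sys N c Φ w) (p : ℕ) (s : ℝ) :
    (n2 R Φ s : ℝ) ^ (p + 2) ≤ (2 * (p + 2)) ^ (p + 2) +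
      2 ^ (p + 2) * Lw (N * Q) (tent R) (hco p (N * Q) (tprod R)) fun q => -Φ (-q) s := by
  classical
  obtain ⟨hm, hp⟩ := v09_y Φ w hS s
  set y : ℤ → ℝ := fun q => -Φ (-q) s with hy
  have hfin := v09_fin hN y hm hp
  set M := N * Q with hM
  set A : Finset ℤ := (hfin R).toFinset with hAdef
  have hA : ∀ q, q ∈ A ↔ |y q| ≤ R := by
    intro q
    rw [hAdef, Finite.mem_toFinset, mem_ofPred_eq]
  have hcard : n2 R Φ s = A.card := by
    rw [v09_card, hAdef, ← Set.ncard_eq_toFinset_card _ (hfin R)]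
  have hh : ∀ v, 0 ≤ hco p M (tprod R) v := by
    intro v
    unfold hco
    exact Finset.sum_nonneg fun r _ => ((tprod_bd R hR (p + 1)).1 _).1
  have hLw := v09_Lw M R hR (hco p M (tprod R)) hh y (hfin (2 * R)) A fun q hq => (hA q).1 hq
  have hL0 : 0 ≤ Lw M (tent R) (hco p M (tprod R)) y :=
    le_trans (Finset.sum_nonneg fun q _ => hh _) hLw
  rcases lt_or_ge (n2 R Φ s) (2 * (p + 2)) with hn | hn
  · have h1 : (n2 R Φ s : ℝ) ^ (p + 2) ≤ (2 * (p + 2)) ^ (p + 2) := by
      have : (n2 R Φ s : ℝ) ≤ 2 * (p + 2) := by exact_mod_cast hn.le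
      exact pow_le_pow_left₀ (Nat.cast_nonneg _) this _
    have h2 : 0 ≤ 2 ^ (p + 2) * Lw M (tent R) (hco p M (tprod R)) y := by positivity
    linarith
  · have h1 := v09_desc (n2 R Φ s) (p + 2) (by omega) hn
    have h2 : ((n2 R Φ s).descFactorial (p + 2) : ℝ) ≤ Lw M (tent R) (hco p M (tprod R)) y := by
      refine le_trans ?_ hLw
      -- every q in A contributes at least (n-1).descFactorial (p+1)
      have hq : ∀ q ∈ A, ((A.card - 1).descFactorial (p + 1) : ℝ) ≤
          hco p M (tprod R) (fun s => y (q + (s : ℕ) - M) - y q) := by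
        intro q hqA
        have hcl : ∀ x ∈ A, |x - q| ≤ (M : ℤ) := by
          intro x hx
          have hx1 := (hA x).1 hx
          have hq1 := (hA q).1 hqA
          rw [abs_le] at hx1 hq1
          have hNR : (1 : ℝ) ≤ N := by exact_mod_cast hN
          have hQN : (Q : ℝ) ≤ N * Q := by
            have : (0 : ℝ) ≤ Q := Nat.cast_nonneg Q
            nlinarith
          rw [abs_le]
          constructor
          · by_contra hcon
            push Not at hcon
            have h3 : y (x + N * (Q : ℤ)) ≤ y q := hm (by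
              have : (M : ℤ) = N * Q := by rw [hM]; push_cast; ring
              linarith)
            rw [v09_per y hp] at h3
            push_cast at h3
            linarith [hx1.1, hq1.2]
          · by_contra hcon
            push Not at hcon
            have h3 : y (q + N * (Q : ℤ)) ≤ y x := hm (by
              have : (M : ℤ) = N * Q := by rw [hM]; push_cast; ring
              linarith)
            rw [v09_per y hp] at h3
            push_cast at h3
            linarith [hx1.2, hq1.1]
        -- the tuples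
        let g : (Fin (p + 1) ↪ {x // x ∈ A.erase q}) →
            {r : Fin (p + 1) → Fin (2 * M + 1) // Function.Injective r ∧ ∀ i, (r i).val ≠ M} :=
          fun e => ⟨fun i => ⟨((e i).1 - q + M).toNat, by
              have h3 := hcl _ (Finset.mem_of_mem_erase (e i).2)
              rw [abs_le] at h3
              omega⟩, by
              intro i j hij
              simp only [Fin.mk.injEq] at hij
              have h3 := hcl _ (Finset.mem_of_mem_erase (e i).2)
              have h4 := hcl _ (Finset.mem_of_mem_erase (e j).2)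
              rw [abs_le] at h3 h4
              apply e.injective
              apply Subtype.ext
              omega, by
              intro i
              simp only
              have h3 := hcl _ (Finset.mem_of_mem_erase (e i).2)
              rw [abs_le] at h3
              have h4 := Finset.ne_of_mem_erase (e i).2
              omega⟩
        have hg : Function.Injective g := by
          intro e f hef
          ext i
          have h3 := congrArg (fun r => (r.1 i).val) hef
          simp only [g] at h3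
          have h4 := hcl _ (Finset.mem_of_mem_erase (e i).2)
          have h5 := hcl _ (Finset.mem_of_mem_erase (f i).2)
          rw [abs_le] at h4 h5
          omega
        have hval : ∀ e, tprod R (fun i => y (q + (((g e).1 i : Fin (2 * M + 1)) : ℕ) - M) - y q)
            = 1 := by
          intro e
          unfold tprod
          refine Finset.prod_eq_one fun i _ => ?_
          apply (tent_bd (2 * R) (by linarith) _).2.2.1
          have h3 := hcl _ (Finset.mem_of_mem_erase (e i).2)
          rw [abs_le] at h3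
          have h4 : q + ((((g e).1 i : Fin (2 * M + 1)) : ℕ) : ℤ) - M = (e i).1 := by
            simp only [g]
            rw [Int.toNat_of_nonneg (by omega)]
            ring
          beta_reduce
          rw [h4]
          have h5 := (hA _).1 (Finset.mem_of_mem_erase (e i).2)
          have h6 := (hA _).1 hqA
          rw [abs_le] at h5 h6 ⊢
          constructor <;> linarith [h5.1, h5.2, h6.1, h6.2]
        have hcd : Fintype.card (Fin (p + 1) ↪ {x // x ∈ A.erase q}) =
            (A.card - 1).descFactorial (p + 1) := by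
          rw [Fintype.card_embedding_eq, Fintype.card_coe, Finset.card_erase_of_mem hqA,
            Fintype.card_fin]
        rw [← hcd]
        unfold hco
        calc (Fintype.card (Fin (p + 1) ↪ {x // x ∈ A.erase q}) : ℝ)
            = ∑ e : Fin (p + 1) ↪ {x // x ∈ A.erase q},
              tprod R (fun i => y (q + (((g e).1 i : Fin (2 * M + 1)) : ℕ) - M) - y q) := by
              simp only [hval, Finset.sum_const, Finset.card_univ, nsmul_eq_mul, mul_one]
          _ = ∑ r ∈ Finset.univ.map ⟨g, hg⟩,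
              tprod R (fun i => y (q + ((r.1 i : Fin (2 * M + 1)) : ℕ) - M) - y q) := by
              rw [Finset.sum_map]
              rfl
          _ ≤ _ := by
              refine Finset.sum_le_sum_of_subset_of_nonneg (Finset.subset_univ _) fun r _ _ =>
                ((tprod_bd R hR (p + 1)).1 _).1
      rw [hcard]
      have hA1 : 1 ≤ A.card := by rw [← hcard]; omega
      have h3 : A.card.descFactorial (p + 2) = A.card * (A.card - 1).descFactorial (p + 1) := by
        obtain ⟨t, ht⟩ : ∃ t, A.card = t + 1 := ⟨A.card - 1, by omega⟩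
        rw [ht, Nat.add_sub_cancel, Nat.succ_descFactorial_succ]
      rw [h3]
      push_cast
      calc (A.card : ℝ) * ((A.card - 1).descFactorial (p + 1) : ℝ)
          = ∑ _q ∈ A, ((A.card - 1).descFactorial (p + 1) : ℝ) := by
            rw [Finset.sum_const, nsmul_eq_mul]
        _ ≤ _ := Finset.sum_le_sum hq
    have h3 : (2 : ℝ) ^ (p + 2) * ((n2 R Φ s).descFactorial (p + 2) : ℝ) ≤
        2 ^ (p + 2) * Lw M (tent R) (hco p M (tprod R)) y :=
      mul_le_mul_of_nonneg_left h2 (by positivity)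
    have h4 : (0 : ℝ) ≤ (2 * (p + 2)) ^ (p + 2) := by positivity
    linarith

theorem near_one {N : ℕ} (hN : 0 < N) {c : ℝ} (hc : 0 < c) (R : ℝ) (hR : 0 < R)
    (Φ : ℤ → ℝ → ℝ) (w : ℝ → ℝ) (hS : Sys N c Φ w) (M : ℕ) (s : ℝ) :
    (n2 R Φ s : ℝ) ≤ Lw M (tent R) (fun _ => 1) fun q => -Φ (-q) s := by
  obtain ⟨hm, hp⟩ := v09_y Φ w hS s
  have hfin := v09_fin hN _ hm hp
  have h := v09_Lw M R hR (fun _ => 1) (fun _ => zero_le_one) (fun q => -Φ (-q) s)
    (hfin (2 * R)) (hfin R).toFinset (fun q hq => by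
      rw [Finite.mem_toFinset] at hq
      exact hq)
  rw [Finset.sum_const, nsmul_eq_mul, mul_one, ← Set.ncard_eq_toFinset_card _ (hfin R),
    ← v09_card] at h
  exact h

theorem sD_le {N : ℕ} (hN : 0 < N) {c : ℝ} (hc : 0 < c) (R : ℝ) (Φ : ℤ → ℝ → ℝ) (w : ℝ → ℝ)
    (hS : Sys N c Φ w) (j : ℕ) (τ : ℝ) (hτ : 0 < τ) (s : ℝ) :
    (n2 R Φ s : ℝ) ^ j * sD 1 R Φ s ≤ τ * (n2 R Φ s : ℝ) ^ (2 * j + 1) + 1 / τ * sD 2 R Φ s := by
  classical
  have hfin : {q : ℤ | |Φ q s| ≤ R}.Finite := v09_fin hN (fun q => Φ q s) (hS.mono s)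
    (fun p => hS.per p s) R
  set A : Finset ℤ := hfin.toFinset with hA
  have hn : n2 R Φ s = A.card := by
    unfold n2
    rw [hA, ← Set.ncard_eq_toFinset_card _ hfin]
  have hsum : ∀ i : ℕ, sD i R Φ s = ∑ q ∈ A, |deriv (Φ q) s - 1| ^ i := by
    intro i
    unfold sD
    rw [finsum_eq_sum_of_support_subset (s := A)]
    · refine Finset.sum_congr rfl fun q hq => ?_
      rw [hA, Finite.mem_toFinset, mem_ofPred_eq] at hq
      rw [if_pos hq]
    · intro q hq
      rw [hA, Finite.coe_toFinset, mem_ofPred_eq]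
      by_contra hcon
      rw [Function.mem_support, if_neg hcon] at hq
      exact hq rfl
  rw [hsum, hsum, hn, Finset.mul_sum]
  have h1 : ∀ q ∈ A, (A.card : ℝ) ^ j * |deriv (Φ q) s - 1| ^ 1 ≤
      τ * (A.card : ℝ) ^ (2 * j) + 1 / τ * |deriv (Φ q) s - 1| ^ 2 := by
    intro q _
    rw [pow_one]
    set a : ℝ := (A.card : ℝ) ^ j with ha
    set d : ℝ := |deriv (Φ q) s - 1| with hd
    have h2 : (A.card : ℝ) ^ (2 * j) = a ^ 2 := by rw [ha, ← pow_mul, mul_comm]
    rw [h2]
    have h3 : 0 ≤ 1 / τ * (τ * a - d) ^ 2 := by positivity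
    have h4 : 1 / τ * (τ * a - d) ^ 2 = τ * a ^ 2 - 2 * (a * d) + 1 / τ * d ^ 2 := by
      field_simp
      ring
    have h5 : 0 ≤ a * d := by positivity
    linarith
  refine (Finset.sum_le_sum h1).trans ?_
  rw [Finset.sum_add_distrib, Finset.sum_const, nsmul_eq_mul, ← Finset.mul_sum]
  apply le_of_eq
  ring

end Ty
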