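import Pool.Agent.LibTy70.T20
import Pool.Agent.LibTy70.V02
import Pool.Agent.LibTy70.V03
import Pool.Agent.LibTy70.V05
import Pool.Agent.LibTy70.V07
import Pool.Agent.LibTy70.V08
import Pool.Agent.LibTy70.V09
import Pool.Agent.LibQGr.R_FIN

/-! Row V11: spacings of a fixed graph. Plan: first `f` constant beyond `B`: as V10 with V05 and
`G s = τ Lw M (tent R) 1 (y s) + (1/τ) Qf` (sD_le with `j = 0`, near_one), `∫_θ Lw (tent R) 1 = 3R` (V02, tent_int, `loc` of the
constant `1` is `1`), `hsp_lip`, `spac_loc`, `pspac_loc`. General `f`: `f_B s = f (min s B)` for `s ≥ 0`; the number of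
spacings `≥ B` of the levels up to `T` is at most `T/B`, of the phases in a period at most `N/B`, so
`|spac f - spac f_B| ≤ 2K/B` and `|pspac f - pspac f_B| ≤ 2K/B`; choose `B` with `4K/B ≤ ε₀/2`. -/

open MeasureTheory Set Filter Topology

namespace Ty

open QGr

theorem v11_fin {N : ℕ} (hN : 0 < N) {c : ℝ} (hc : 0 < c) (X : ℤ → ℝ) (hm : Monotone X)
    (hX : ∀ p, c * N ≤ X (p + N) - X p) (A : ℝ) : {q : ℤ | |X q| ≤ A}.Finite := by
  have hcN : 0 < c * N := mul_pos hc (by exact_mod_cast hN)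
  obtain ⟨k, hk⟩ := exists_nat_gt ((A + |X 0|) / (c * N))
  rw [div_lt_iff₀ hcN] at hk
  refine (Set.finite_Icc (-((k : ℤ) * N)) ((k : ℤ) * N)).subset ?_
  intro q hq
  have hq' : |X q| ≤ A := hq
  have h0 := abs_le.1 (le_refl |X 0|)
  have hq1 := abs_le.1 hq'
  constructor
  · by_contra hcon
    push Not at hcon
    have h1 := COR_iter X hX (-((k : ℤ) * N)) k
    rw [show -((k : ℤ) * N) + k * N = 0 by ring] at h1
    have h2 := hm hcon.le
    linarith
  · by_contra hcon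
    push Not at hcon
    have h1 := COR_iter X hX 0 k
    rw [zero_add] at h1
    have h2 := hm hcon.le
    linarith

theorem v11_cont {N : ℕ} (hN : 0 < N) {c : ℝ} (hc : 0 < c) (X : ℤ → ℝ) (hm : Monotone X)
    (hX : ∀ p, c * N ≤ X (p + N) - X p) (M : ℕ) (η : ℝ → ℝ) (hη : Continuous η)
    (h1 : ∀ x, 1 < |x| → η x = 0) (h : (Fin (2 * M + 1) → ℝ) → ℝ) :
    Continuous fun t => Lw M η h (fun q => X q - t) := by
  have e : (fun t => Lw M η h (fun q => X q - t)) = fun t => ∑ᶠ q : ℤ,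
      (fun q t => η (X q - t) * h fun s => X (q + (s : ℕ) - M) - X q) q t := by
    funext t
    unfold Lw
    refine finsum_congr fun q => ?_
    simp only [sub_sub_sub_cancel_right]
  rw [e]
  refine continuous_finsum (fun q => ?_) ?_
  · exact (hη.comp (continuous_const.sub continuous_id)).mul continuous_const
  · intro t₀
    refine ⟨Metric.ball t₀ 1, Metric.ball_mem_nhds t₀ one_pos, ?_⟩
    refine (v11_fin hN hc X hm hX (|t₀| + 2)).subset ?_
    rintro q ⟨t, ht1, ht2⟩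
    have h2 : |X q - t| ≤ 1 := by
      by_contra hcon
      push Not at hcon
      refine ht1 ?_
      change η (X q - t) * _ = 0
      rw [h1 _ hcon, zero_mul]
    rw [Metric.mem_ball, Real.dist_eq] at ht2
    change |X q| ≤ |t₀| + 2
    have h3 : |X q| ≤ |X q - t| + |t - t₀| + |t₀| := by
      calc |X q| = |(X q - t) + (t - t₀) + t₀| := by ring_nf
        _ ≤ _ := abs_add_three _ _ _
    linarith

theorem v11_avg (G : ℝ → ℝ) (hG : Continuous G) (h0 : ∀ t, 0 ≤ G t) (g : ℝ)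
    (hg : Tendsto (fun T : ℝ => (1 / T) * ∫ t in (0 : ℝ)..T, G t) atTop (𝓝 g)) (S : ℝ) (hS : 0 < S)
    (ε : ℝ) (hε : 0 < ε) :
    ∀ᶠ T : ℝ in atTop, (1 / T) * ∫ t in (0 : ℝ)..T, (∫ s in (t - S)..(t + S), G s) ≤
      2 * S * g + ε := by
  set P : ℝ → ℝ := fun t => ∫ s in (0 : ℝ)..t, G s with hP
  have hi : ∀ x y, IntervalIntegrable G volume x y := fun x y => hG.intervalIntegrable x y
  have hPc : Continuous P := intervalIntegral.continuous_primitive hi 0
  have hPi : ∀ x y, IntervalIntegrable P volume x y := fun x y => hPc.intervalIntegrable x y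
  have hPm : Monotone P := by
    intro x y hxy
    have h1 : P x + ∫ s in x..y, G s = P y :=
      intervalIntegral.integral_add_adjacent_intervals (hi 0 x) (hi x y)
    have h2 : 0 ≤ ∫ s in x..y, G s := intervalIntegral.integral_nonneg hxy fun u _ => h0 u
    linarith
  have e1 : ∀ t, (∫ s in (t - S)..(t + S), G s) = P (t + S) - P (t - S) := by
    intro t
    have h1 : P (t - S) + ∫ s in (t - S)..(t + S), G s = P (t + S) :=
      intervalIntegral.integral_add_adjacent_intervals (hi 0 _) (hi _ _)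
    linarith
  set D : ℝ := ∫ t in (-S)..S, P t with hD
  have e2 : ∀ T, (∫ t in (0 : ℝ)..T, (∫ s in (t - S)..(t + S), G s)) =
      (∫ t in (T - S)..(T + S), P t) - D := by
    intro T
    simp only [e1]
    have i1 : IntervalIntegrable (fun t => P (t + S)) volume 0 T :=
      (hPc.comp (continuous_id.add continuous_const)).intervalIntegrable _ _
    have i2 : IntervalIntegrable (fun t => P (t - S)) volume 0 T :=
      (hPc.comp (continuous_id.sub continuous_const)).intervalIntegrable _ _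
    rw [intervalIntegral.integral_sub i1 i2]
    have h1 : (∫ t in (0 : ℝ)..T, P (t + S)) = ∫ t in (0 + S)..(T + S), P t :=
      intervalIntegral.integral_comp_add_right P S
    have h2 : (∫ t in (0 : ℝ)..T, P (t - S)) = ∫ t in (0 - S)..(T - S), P t :=
      intervalIntegral.integral_comp_sub_right P S
    rw [h1, h2, zero_add, zero_sub]
    have h3 : (∫ t in (-S)..S, P t) + ∫ t in S..(T + S), P t = ∫ t in (-S)..(T + S), P t :=
      intervalIntegral.integral_add_adjacent_intervals (hPi _ _) (hPi _ _)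
    have h4 : (∫ t in (-S)..(T - S), P t) + ∫ t in (T - S)..(T + S), P t = ∫ t in (-S)..(T + S), P t :=
      intervalIntegral.integral_add_adjacent_intervals (hPi _ _) (hPi _ _)
    linarith
  have e3 : ∀ T, (∫ t in (T - S)..(T + S), P t) ≤ 2 * S * P (T + S) := by
    intro T
    have h1 : (∫ t in (T - S)..(T + S), P t) ≤ ∫ _t in (T - S)..(T + S), P (T + S) := by
      refine intervalIntegral.integral_mono_on (by linarith) (hPi _ _) (by simp) fun x hx => ?_
      exact hPm hx.2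
    rw [intervalIntegral.integral_const, smul_eq_mul] at h1
    linarith
  have e4 : Tendsto (fun T : ℝ => (1 / T) * (2 * S * P (T + S) - D)) atTop (𝓝 (2 * S * g)) := by
    have h1 : Tendsto (fun T : ℝ => (1 / (T + S)) * P (T + S)) atTop (𝓝 g) :=
      hg.comp (tendsto_atTop_add_const_right _ S tendsto_id)
    have h2 : Tendsto (fun T : ℝ => D / T) atTop (𝓝 0) := tendsto_const_nhds.div_atTop tendsto_id
    have h3 : Tendsto (fun T : ℝ => S / T) atTop (𝓝 0) := tendsto_const_nhds.div_atTop tendsto_id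
    have h4 : Tendsto (fun T : ℝ => 2 * S * ((1 + S / T) * ((1 / (T + S)) * P (T + S))) - D / T) atTop
        (𝓝 (2 * S * ((1 + 0) * g) - 0)) :=
      (tendsto_const_nhds.mul ((tendsto_const_nhds.add h3).mul h1)).sub h2
    rw [add_zero, one_mul, sub_zero] at h4
    refine h4.congr' ?_
    filter_upwards [eventually_gt_atTop (0 : ℝ)] with T hT
    have hTS : T + S ≠ 0 := by positivity
    field_simp
  filter_upwards [e4.eventually_le_const (show 2 * S * g < 2 * S * g + ε by linarith),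
    eventually_gt_atTop (0 : ℝ)] with T h1 h2
  refine le_trans ?_ h1
  rw [e2]
  refine mul_le_mul_of_nonneg_left ?_ (one_div_pos.2 h2).le
  linarith [e3 T]

theorem v11_M (R : ℝ) (hR : 0 < R) (N : ℕ) (hN : 8 * R < N) :
    ∃ M' : ℕ, 1 ≤ M' ∧ 2 * R * M' < N ∧ 1 / (M' : ℝ) ≤ 8 * R / N := by
  have hNp : (0 : ℝ) < N := by linarith
  have h1 : 2 < (N : ℝ) / (4 * R) := by rw [lt_div_iff₀ (by positivity)]; linarith
  refine ⟨⌊(N : ℝ) / (4 * R)⌋₊, ?_, ?_, ?_⟩
  · exact Nat.le_floor (by push_cast; linarith)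
  · have h2 : (⌊(N : ℝ) / (4 * R)⌋₊ : ℝ) ≤ (N : ℝ) / (4 * R) := Nat.floor_le (by positivity)
    rw [le_div_iff₀ (by positivity)] at h2
    linarith
  · have h2 : (N : ℝ) / (4 * R) < ⌊(N : ℝ) / (4 * R)⌋₊ + 1 := Nat.lt_floor_add_one _
    have h3 : (N : ℝ) / (8 * R) ≤ ⌊(N : ℝ) / (4 * R)⌋₊ := by
      have h4 : (N : ℝ) / (4 * R) = N / (8 * R) + N / (8 * R) := by field_simp; ring
      have h5 : 1 < (N : ℝ) / (8 * R) := by rw [lt_div_iff₀ (by positivity)]; linarith
      linarith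
    calc 1 / ((⌊(N : ℝ) / (4 * R)⌋₊ : ℕ) : ℝ) ≤ 1 / ((N : ℝ) / (8 * R)) :=
          one_div_le_one_div_of_le (by positivity) h3
      _ = 8 * R / N := by field_simp

theorem v11_const (a b : ℝ) (ha : 0 < a) (hab : a ≤ b) (f : ℝ → ℝ)
    (L K B : ℝ) (hB0 : 0 < B) (hL0 : 0 ≤ L) (hL : ∀ u v, |f u - f v| ≤ L * dist u v)
    (hK : ∀ v, |f v| ≤ K) (hB : ∀ s, B ≤ s → f s = f B) :
    ∃ (C : ℝ) (N₀ : ℕ), 0 ≤ C ∧ ∀ N : ℕ, N₀ ≤ N → ∀ (O : ℕ → Orth N) (m : ℕ)
      (l : Fin (m + 1) → Fin N → ℝ), (∀ j i, l j i ∈ Icc a b) →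
      LinearIndependent ℚ (fun q : Fin (m + 1) × Fin N => l q.1 q.2) →
      ∀ κ, IsLevels N m O l κ → ∀ (n : ℕ) (τ ε : ℝ), 1 ≤ n → 0 < τ → 0 < ε → ∀ᶠ T : ℝ in atTop,
        |spac f (unf l κ) T - ∫ θ, pspac N f (phases (sy (tr O m θ)).1)| ≤
          C * (τ + 1 / τ * (1 / N * ∫ θ, fro (An n (B0 O m l θ) (sy (tr O m θ))) ^ 2)) + ε := by
  have hb : 0 < b := lt_of_lt_of_le ha hab
  have hK0 : 0 ≤ K := le_trans (abs_nonneg _) (hK 0)
  have hc : 0 < a / b := by positivity
  have hc1 : a / b ≤ 1 := (div_le_one hb).2 hab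
  obtain ⟨η, hηd⟩ : ∃ η : ℝ → ℝ, η = fun x => 2 / 3 * tent (1 / 2) x := ⟨_, rfl⟩
  have hη1 : ∀ x y, |η x - η y| ≤ 4 / 3 * |x - y| := by
    intro x y
    have h1 := tent_lip (1 / 2) (by norm_num) x y
    rw [hηd]
    simp only
    rw [← mul_sub, abs_mul, abs_of_pos (by norm_num : (0 : ℝ) < 2 / 3)]
    norm_num at h1
    linarith
  have hη2 : ∀ x, 1 < |x| → η x = 0 := by
    intro x hx
    have h1 := (tent_bd (1 / 2) (by norm_num) x).2.2.2 (by linarith)
    rw [hηd]
    simp only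
    rw [h1, mul_zero]
  have hη0 : ∀ x, 0 ≤ η x := by
    intro x
    rw [hηd]
    exact mul_nonneg (by norm_num) (tent_bd (1 / 2) (by norm_num) x).1
  have hηc : Continuous η := by
    have h1 : LipschitzWith ⟨4 / 3, by norm_num⟩ η := LipschitzWith.of_dist_le_mul fun u v => by
      rw [Real.dist_eq, Real.dist_eq]
      exact hη1 u v
    exact h1.continuous
  have hηi : ∫ x, η x = 1 := by
    rw [hηd, integral_const_mul, tent_int _ (by norm_num)]
    norm_num
  obtain ⟨C, R, S, hC0, hR, hS0, hpt⟩ :=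
    pt_spac hc hc1 f L K B hB0 hL0 hL hK hB η (4 / 3) hη1 hη2
  have htc : Continuous (tent R) := by
    have h1 : LipschitzWith ⟨1 / R, by positivity⟩ (tent R) := LipschitzWith.of_dist_le_mul fun u v => by
      rw [Real.dist_eq, Real.dist_eq]
      exact tent_lip R hR u v
    exact h1.continuous
  obtain ⟨N₀, hN₀⟩ := exists_nat_gt (8 * R)
  refine ⟨C * (2 * S) * (2 * Real.pi ^ 2 * R), N₀, by positivity, ?_⟩
  intro N hN O m l hl hi κ hκ n τ ε hn hτ hε
  have hNR : 8 * R < N := hN₀.trans_le (by exact_mod_cast hN)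
  have hN0 : 0 < N := by
    have : (0 : ℝ) < N := by linarith
    exact_mod_cast this
  have hNp : (0 : ℝ) < N := by exact_mod_cast hN0
  obtain ⟨M', hM1, hM2, hM3⟩ := v11_M R hR N hNR
  obtain ⟨Φ, hS, hΦ, hsl⟩ := sys2 hN0 O m l a b ha hab hl
  have hsl' := hsl n M' R hn hM1 hR hM2
  have hlen := LVL_len_pos hN0 l a b ha hl
  have hLs := (levels_lists hN0 O m l a b ha hab hl Φ hΦ κ).1 hκ
  obtain ⟨X, hX0, hXm, hX1⟩ := zeros hN0 hc hS
  obtain ⟨s, hs1, hs2⟩ := lists_eq hN0 hc hS X hX0 hXm _ hLs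
  have ht := SPA_tend hN0 hc X hXm (fun q => (hX1 q).1) _ s hs1
  obtain ⟨h1L, h1K⟩ := hsp_lip N f L K hL0 hK0 hL hK
  have hhc : Continuous (hsp N f) := SPA_cont _ L hL0 h1L
  have hfw : Continuous fun t : ℝ => fl l (Real.pi * t / len l) :=
    (fl_cont l).comp (by fun_prop)
  have hst : Continuous fun θ : Fin (m + 1) → Fin N → UnitAddCircle => sy (tr O m θ) :=
    sy_cont.comp (tr_cont O m)
  obtain ⟨F1, hF1d⟩ : ∃ F1 : (Fin (m + 1) → Fin N → UnitAddCircle) → ℝ,
      F1 = fun θ => Lw (N * 1) η (hsp N f) (phases (sy (tr O m θ)).1) := ⟨_, rfl⟩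
  have hF1 : Continuous F1 := by
    rw [hF1d]
    exact (Lw_cont hN0 (N * 1) η hηc 1 hη2 (hsp N f) hhc).comp hst
  obtain ⟨G2, hG2d⟩ : ∃ G2 : (Fin (m + 1) → Fin N → UnitAddCircle) → ℝ,
      G2 = fun θ => Lw (N * 1) (tent R) (fun _ => 1) (phases (sy (tr O m θ)).1) := ⟨_, rfl⟩
  have hG2 : Continuous G2 := by
    rw [hG2d]
    exact (Lw_cont hN0 (N * 1) (tent R) htc (2 * R) (fun x hx => (tent_bd R hR x).2.2.2 hx)
      (fun _ => 1) continuous_const).comp hst
  obtain ⟨G1, hG1d⟩ : ∃ G1 : (Fin (m + 1) → Fin N → UnitAddCircle) → ℝ,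
      G1 = fun θ => τ * G2 θ + 1 / τ * Qf n M' O m l θ := ⟨_, rfl⟩
  have hQc := Qf_cont n M' O m l
  have hG1 : Continuous G1 := by
    rw [hG1d]
    exact (continuous_const.mul hG2).add (continuous_const.mul hQc)
  have hQ0 : ∀ θ, 0 ≤ Qf n M' O m l θ := by
    intro θ
    unfold Qf
    positivity
  have hG20 : ∀ θ, 0 ≤ G2 θ := by
    intro θ
    rw [hG2d]
    refine finsum_nonneg fun q => ?_
    exact mul_nonneg (tent_bd R hR _).1 zero_le_one
  have hG10 : ∀ θ, 0 ≤ G1 θ := by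
    intro θ
    rw [hG1d]
    exact add_nonneg (mul_nonneg hτ.le (hG20 θ)) (mul_nonneg (by positivity) (hQ0 θ))
  have hae : ∀ᵐ t, sD 1 R Φ t ≤ G1 (fl l (Real.pi * t / len l)) := by
    filter_upwards [hsl'] with t ht
    have h1 := sD_le hN0 hc R Φ _ hS 0 τ hτ t
    have h2 := near_one hN0 hc R hR Φ _ hS (N * 1) t
    rw [Lw_phases hN0 (N * 1) (tent R) (fun _ => 1) _ _ (hΦ t)] at h2
    simp only [pow_zero, one_mul, mul_zero, zero_add, pow_one] at h1
    rw [hG1d, hG2d]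
    simp only
    have h3 : τ * (n2 R Φ t : ℝ) ≤ τ * Lw (N * 1) (tent R) (fun _ => 1)
        (phases (sy (tr O m (fl l (Real.pi * t / len l)))).1) := mul_le_mul_of_nonneg_left h2 hτ.le
    have h4 : 1 / τ * sD 2 R Φ t ≤ 1 / τ * Qf n M' O m l (fl l (Real.pi * t / len l)) :=
      mul_le_mul_of_nonneg_left ht (by positivity)
    linarith
  have hGc : Continuous fun t => G1 (fl l (Real.pi * t / len l)) := hG1.comp hfw
  have hp := hpt N hN0 Φ _ hS X hX0 hXm _ hGc hae
  -- averages over the torus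
  have hint : ∀ F : (Fin (m + 1) → Fin N → UnitAddCircle) → ℝ, Continuous F → Integrable F :=
    fun F hF => hF.integrable_of_hasCompactSupport (HasCompactSupport.of_compactSpace F)
  have hi1 : ∫ θ, F1 θ = ∫ θ, pspac N f (phases (sy (tr O m θ)).1) := by
    rw [hF1d]
    simp only
    rw [Lw_rot hN0 (N * 1) η hηc 1 hη2 (hsp N f) hhc O m, hηi, one_mul]
    refine integral_congr_ae (ae_of_all _ fun θ => ?_)
    exact (pspac_loc hN0 f _).symm
  have hi2 : ∫ θ, G2 θ = 3 * R := by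
    rw [hG2d]
    simp only
    rw [Lw_rot hN0 (N * 1) (tent R) htc (2 * R) (fun x hx => (tent_bd R hR x).2.2.2 hx)
      (fun _ => 1) continuous_const O m, tent_int R hR]
    have h1 : ∀ y : ℤ → ℝ, loc N (N * 1) (fun _ => 1) y = 1 := by
      intro y
      unfold loc
      rw [Finset.sum_const, Finset.card_range, nsmul_eq_mul, mul_one, one_div,
        inv_mul_cancel₀ hNp.ne']
    simp only [h1]
    simp
  set I : ℝ := ∫ θ, fro (An n (B0 O m l θ) (sy (tr O m θ))) ^ 2 with hI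
  have hI0 : 0 ≤ I := integral_nonneg fun θ => sq_nonneg _
  have hi3 : ∫ θ, G1 θ ≤ 2 * Real.pi ^ 2 * R * (τ + 1 / τ * (1 / N * I)) := by
    rw [hG1d]
    simp only
    rw [integral_add ((hint _ hG2).const_mul _) ((hint _ hQc).const_mul _), integral_const_mul,
      integral_const_mul, hi2]
    have h1 := Qf_int n M' hM1 O m l
    rw [← hI] at h1
    have hpi : 3 < Real.pi := Real.pi_gt_three
    have hMp : (0 : ℝ) < M' := by exact_mod_cast hM1
    have h2 : Real.pi ^ 2 / (4 * M') * I ≤ 2 * Real.pi ^ 2 * R * (1 / N * I) := by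
      have h3 : Real.pi ^ 2 / (4 * M') = Real.pi ^ 2 / 4 * (1 / M') := by field_simp
      have h4 : Real.pi ^ 2 / 4 * (1 / M') ≤ Real.pi ^ 2 / 4 * (8 * R / N) :=
        mul_le_mul_of_nonneg_left hM3 (by positivity)
      calc Real.pi ^ 2 / (4 * M') * I ≤ Real.pi ^ 2 / 4 * (8 * R / N) * I := by
            rw [h3]
            exact mul_le_mul_of_nonneg_right h4 hI0
        _ = _ := by ring
    have h5 : 1 / τ * ∫ θ, Qf n M' O m l θ ≤ 1 / τ * (2 * Real.pi ^ 2 * R * (1 / N * I)) :=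
      mul_le_mul_of_nonneg_left (h1.trans h2) (by positivity)
    have h6 : τ * (3 * R) ≤ 2 * Real.pi ^ 2 * R * τ := by
      have : 3 ≤ 2 * Real.pi ^ 2 := by nlinarith
      nlinarith [mul_pos hτ hR]
    calc τ * (3 * R) + 1 / τ * ∫ θ, Qf n M' O m l θ
        ≤ 2 * Real.pi ^ 2 * R * τ + 1 / τ * (2 * Real.pi ^ 2 * R * (1 / N * I)) := add_le_add h6 h5
      _ = _ := by ring
  -- time averages
  have hg1 := FIN_equi l hlen hi F1 hF1
  have hg2 := FIN_equi l hlen hi G1 hG1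
  rw [hi1] at hg1
  have hε1 : 0 < ε / 5 := by linarith
  have hε2 : 0 < ε / (5 * (C + 1)) := by positivity
  obtain ⟨C1, hC1⟩ := spac_loc hN0 f K hK X hXm _ s hs1 ht
  obtain ⟨C2, hC2⟩ := time_id hN0 hc (N * 1) η hηc hη0 hη2 hηi (hsp N f) hhc K h1K X hXm hX1
    _ s hs1 hLs.pos hs2
  have hav := v11_avg _ hGc (fun t => hG10 _) _ hg2 S hS0 _ hε2
  have hd : ∀ C : ℝ, ∀ᶠ T : ℝ in atTop, C / T ≤ ε / 5 := by
    intro C
    have h3 : Tendsto (fun T : ℝ => C / T) atTop (𝓝 0) := tendsto_const_nhds.div_atTop tendsto_id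
    exact h3.eventually_le_const hε1
  have hg1' := (hg1.sub_const (∫ θ, pspac N f (phases (sy (tr O m θ)).1))).abs
  rw [sub_self, abs_zero] at hg1'
  filter_upwards [hav, hd C1, hd C2, hg1'.eventually_le_const hε1, eventually_gt_atTop (0 : ℝ)]
    with T t1 t2 t3 t4 hT
  have a1 := hC1 T hT
  have a2 := hC2 T hT
  set g₀ := ∫ θ, pspac N f (phases (sy (tr O m θ)).1) with hg₀
  set A1 := (1 / T) * ∑ k ∈ Finset.range (cnt (unf l κ) T),
      hsp N f (fun j => X (s + k + j - (N * 1 : ℕ)) - X (s + k)) with hA1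
  set A2 := (1 / T) * ∫ t in (0 : ℝ)..T, Lw (N * 1) η (hsp N f) (fun q => X q - t) with hA2
  set A3 := (1 / T) * ∫ t in (0 : ℝ)..T, F1 (fl l (Real.pi * t / len l)) with hA3
  have hT1 : 0 < 1 / T := by positivity
  have a3 : |A2 - A3| ≤ C * (2 * S * (∫ θ, G1 θ) + ε / (5 * (C + 1))) := by
    have hc1 : Continuous fun t => Lw (N * 1) η (hsp N f) (fun q => X q - t) :=
      v11_cont hN0 hc X hXm (fun q => (hX1 q).1) (N * 1) η hηc hη2 _
    have hc2 : Continuous fun t => F1 (fl l (Real.pi * t / len l)) := hF1.comp hfw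
    have hP : Continuous fun t => ∫ s in (t - S)..(t + S), G1 (fl l (Real.pi * s / len l)) := by
      have h1 : Continuous fun t => ∫ s in (0 : ℝ)..t, G1 (fl l (Real.pi * s / len l)) :=
        intervalIntegral.continuous_primitive (fun x y => hGc.intervalIntegrable x y) 0
      have h2 : (fun t => ∫ s in (t - S)..(t + S), G1 (fl l (Real.pi * s / len l))) = fun t =>
          (∫ s in (0 : ℝ)..(t + S), G1 (fl l (Real.pi * s / len l))) -
            ∫ s in (0 : ℝ)..(t - S), G1 (fl l (Real.pi * s / len l)) := by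
        funext t
        exact (intervalIntegral.integral_interval_sub_left (hGc.intervalIntegrable _ _)
          (hGc.intervalIntegrable _ _)).symm
      rw [h2]
      exact (h1.comp (continuous_id.add continuous_const)).sub
        (h1.comp (continuous_id.sub continuous_const))
    rw [hA2, hA3, ← mul_sub, abs_mul, abs_of_pos hT1, ← intervalIntegral.integral_sub
      (hc1.intervalIntegrable _ _) (hc2.intervalIntegrable _ _)]
    have h3 : |∫ t in (0 : ℝ)..T, (Lw (N * 1) η (hsp N f) (fun q => X q - t) -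
        F1 (fl l (Real.pi * t / len l)))| ≤
        C * ∫ t in (0 : ℝ)..T, (∫ s in (t - S)..(t + S), G1 (fl l (Real.pi * s / len l))) := by
      refine (intervalIntegral.abs_integral_le_integral_abs hT.le).trans ?_
      rw [← intervalIntegral.integral_const_mul]
      refine intervalIntegral.integral_mono_on hT.le ((hc1.sub hc2).abs.intervalIntegrable _ _)
        ((continuous_const.mul hP).intervalIntegrable _ _) fun t _ => ?_
      have h4 := hp t
      rw [Lw_phases hN0 (N * 1) η (hsp N f) _ _ (hΦ t)] at h4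
      rw [hF1d]
      exact h4
    calc 1 / T * |∫ t in (0 : ℝ)..T, (Lw (N * 1) η (hsp N f) (fun q => X q - t) -
        F1 (fl l (Real.pi * t / len l)))|
        ≤ 1 / T * (C * ∫ t in (0 : ℝ)..T,
            (∫ s in (t - S)..(t + S), G1 (fl l (Real.pi * s / len l)))) :=
          mul_le_mul_of_nonneg_left h3 hT1.le
      _ = C * (1 / T * ∫ t in (0 : ℝ)..T,
            (∫ s in (t - S)..(t + S), G1 (fl l (Real.pi * s / len l)))) := by ring
      _ ≤ _ := mul_le_mul_of_nonneg_left t1 hC0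
  have a4 : C * (2 * S * (∫ θ, G1 θ) + ε / (5 * (C + 1))) ≤
      C * (2 * S) * (2 * Real.pi ^ 2 * R) * (τ + 1 / τ * (1 / N * I)) + ε / 5 := by
    have h1 : C * (ε / (5 * (C + 1))) ≤ ε / 5 := by
      have h2 : C * (ε / (5 * (C + 1))) = C / (C + 1) * (ε / 5) := by field_simp
      rw [h2]
      have h3 : C / (C + 1) ≤ 1 := by rw [div_le_one (by positivity)]; linarith
      calc C / (C + 1) * (ε / 5) ≤ 1 * (ε / 5) := mul_le_mul_of_nonneg_right h3 hε1.le
        _ = _ := one_mul _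
    have h4 : C * (2 * S) * (∫ θ, G1 θ) ≤
        C * (2 * S) * (2 * Real.pi ^ 2 * R * (τ + 1 / τ * (1 / N * I))) :=
      mul_le_mul_of_nonneg_left hi3 (by positivity)
    calc C * (2 * S * (∫ θ, G1 θ) + ε / (5 * (C + 1)))
        = C * (2 * S) * (∫ θ, G1 θ) + C * (ε / (5 * (C + 1))) := by ring
      _ ≤ _ := by linarith
  have a5 : |spac f (unf l κ) T - g₀| ≤ |spac f (unf l κ) T - A1| + |A1 - A2| + |A2 - A3| + |A3 - g₀| := by
    calc |spac f (unf l κ) T - g₀|
        = |(spac f (unf l κ) T - A1) + (A1 - A2) + (A2 - A3) + (A3 - g₀)| := by ring_nf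
      _ ≤ |(spac f (unf l κ) T - A1) + (A1 - A2) + (A2 - A3)| + |A3 - g₀| := abs_add_le _ _
      _ ≤ _ := by
        have := abs_add_three (spac f (unf l κ) T - A1) (A1 - A2) (A2 - A3)
        linarith
  linarith

theorem v11_cut (f : ℝ → ℝ) (K B : ℝ) (hB0 : 0 < B) (hK : ∀ v, |f v| ≤ K) (v : ℝ) (hv : 0 ≤ v) :
    |f v - f (min v B)| ≤ 2 * K / B * v := by
  have hK0 : 0 ≤ K := le_trans (abs_nonneg _) (hK 0)
  rcases le_total v B with h | h
  · rw [min_eq_left h, sub_self, abs_zero]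
    positivity
  · rw [min_eq_right h]
    have h2 := hK v
    have h3 := hK B
    have h4 : 2 * K ≤ 2 * K / B * v := by
      rw [div_mul_eq_mul_div, le_div_iff₀ hB0]
      nlinarith
    rw [abs_le] at h2 h3 ⊢
    constructor <;> linarith [h2.1, h2.2, h3.1, h3.2]

theorem v11_spac (f : ℝ → ℝ) (K B : ℝ) (hB0 : 0 < B) (hK : ∀ v, |f v| ≤ K)
    (x : ℕ → ℝ) (hxm : Monotone x) (hx0 : ∀ n, 0 < x n) (ht : Tendsto x atTop atTop)
    (T : ℝ) (hT : 0 < T) :
    |spac f x T - spac (fun v => f (min v B)) x T| ≤ 2 * K / B := by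
  have hK0 : 0 ≤ K := le_trans (abs_nonneg _) (hK 0)
  have hset : {k : ℕ | x (k + 1) ≤ T} = ↑(Finset.range (cnt x T - 1)) := by
    ext k
    rw [Set.mem_ofPred_eq, Finset.coe_range, Set.mem_Iio, ← cnt_iff x hxm ht T (k + 1)]
    omega
  have hsp : ∀ g : ℝ → ℝ, spac g x T = (1 / T) * ∑ k ∈ Finset.range (cnt x T - 1), g (x (k + 1) - x k) := by
    intro g
    unfold spac
    congr 1
    have h1 := finsum_set_coe_eq_finsum_mem (M := ℝ) {k : ℕ | x (k + 1) ≤ T}
      (f := fun k => g (x (k + 1) - x k))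
    rw [hset, finsum_mem_coe_finset] at h1
    rw [← h1, ← hset]
    rfl
  rw [hsp, hsp, ← mul_sub, ← Finset.sum_sub_distrib, abs_mul, abs_of_pos (one_div_pos.mpr hT)]
  have h1 : |∑ k ∈ Finset.range (cnt x T - 1), (f (x (k + 1) - x k) - f (min (x (k + 1) - x k) B))| ≤
      2 * K / B * T := by
    refine (Finset.abs_sum_le_sum_abs _ _).trans ?_
    refine (Finset.sum_le_sum (g := fun k => 2 * K / B * (x (k + 1) - x k)) fun k _ => ?_).trans ?_
    · exact v11_cut f K B hB0 hK _ (sub_nonneg.2 (hxm (Nat.le_succ k)))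
    · rw [← Finset.mul_sum, Finset.sum_range_sub]
      refine mul_le_mul_of_nonneg_left ?_ (by positivity)
      rcases Nat.eq_zero_or_pos (cnt x T) with h0 | h0
      · rw [h0]
        simpa using hT.le
      · have h2 := (cnt_iff x hxm ht T (cnt x T - 1)).1 (by omega)
        linarith [hx0 0]
  calc 1 / T * |∑ k ∈ Finset.range (cnt x T - 1), (f (x (k + 1) - x k) - f (min (x (k + 1) - x k) B))|
      ≤ 1 / T * (2 * K / B * T) := mul_le_mul_of_nonneg_left h1 (one_div_pos.mpr hT).le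
    _ = 2 * K / B := by field_simp

theorem v11_pspac {N : ℕ} (hN : 0 < N) (f : ℝ → ℝ) (K B : ℝ) (hB0 : 0 < B) (hK : ∀ v, |f v| ≤ K)
    (y : ℤ → ℝ) (hm : Monotone y) (hp : ∀ p, y (p + N) = y p + N) :
    |pspac N f y - pspac N (fun v => f (min v B)) y| ≤ 2 * K / B := by
  have hK0 : 0 ≤ K := le_trans (abs_nonneg _) (hK 0)
  have hNp : (0 : ℝ) < N := by exact_mod_cast hN
  unfold pspac
  rw [← mul_sub, ← Finset.sum_sub_distrib, abs_mul, abs_of_pos (one_div_pos.mpr hNp)]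
  have h1 : |∑ k ∈ Finset.range N, (f (y (k + 1) - y k) - f (min (y (k + 1) - y k) B))| ≤
      2 * K / B * N := by
    refine (Finset.abs_sum_le_sum_abs _ _).trans ?_
    refine (Finset.sum_le_sum (g := fun k : ℕ => 2 * K / B * (y (k + 1) - y k)) fun k _ => ?_).trans ?_
    · exact v11_cut f K B hB0 hK _ (sub_nonneg.2 (hm (by omega)))
    · rw [← Finset.mul_sum]
      have h2 := Finset.sum_range_sub (fun k : ℕ => y (k : ℤ)) N
      have h3 : ∑ k ∈ Finset.range N, (y ((k : ℤ) + 1) - y k) = N := by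
        rw [show ∑ k ∈ Finset.range N, (y ((k : ℤ) + 1) - y k) =
          ∑ k ∈ Finset.range N, (y ((k + 1 : ℕ) : ℤ) - y (k : ℤ)) from
            Finset.sum_congr rfl fun k _ => by push_cast; rfl, h2]
        have h4 := hp 0
        rw [zero_add] at h4
        rw [h4]
        simp
      rw [h3]
  calc 1 / (N : ℝ) * |∑ k ∈ Finset.range N, (f (y (k + 1) - y k) - f (min (y (k + 1) - y k) B))|
      ≤ 1 / N * (2 * K / B * N) := mul_le_mul_of_nonneg_left h1 (one_div_pos.mpr hNp).le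
    _ = 2 * K / B := by field_simp

theorem fixed_spac (a b : ℝ) (ha : 0 < a) (hab : a ≤ b) (f : ℝ → ℝ)
    (L K : ℝ) (hL0 : 0 ≤ L) (hL : ∀ u v, |f u - f v| ≤ L * dist u v) (hK : ∀ v, |f v| ≤ K)
    (ε₀ : ℝ) (hε₀ : 0 < ε₀) :
    ∃ (C : ℝ) (N₀ : ℕ), 0 ≤ C ∧ ∀ N : ℕ, N₀ ≤ N → ∀ (O : ℕ → Orth N) (m : ℕ)
      (l : Fin (m + 1) → Fin N → ℝ), (∀ j i, l j i ∈ Icc a b) →
      LinearIndependent ℚ (fun q : Fin (m + 1) × Fin N => l q.1 q.2) →
      ∀ κ, IsLevels N m O l κ → ∀ (n : ℕ) (τ : ℝ), 1 ≤ n → 0 < τ → ∀ᶠ T : ℝ in atTop,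
        |spac f (unf l κ) T - ∫ θ, pspac N f (phases (sy (tr O m θ)).1)| ≤
          C * (τ + 1 / τ * (1 / N * ∫ θ, fro (An n (B0 O m l θ) (sy (tr O m θ))) ^ 2)) + ε₀ := by
  have hb : 0 < b := lt_of_lt_of_le ha hab
  have hK0 : 0 ≤ K := le_trans (abs_nonneg _) (hK 0)
  have hc : 0 < a / b := by positivity
  obtain ⟨B, hB0, hB1⟩ : ∃ B : ℝ, 0 < B ∧ 2 * K / B ≤ ε₀ / 4 := by
    refine ⟨8 * K / ε₀ + 1, by positivity, ?_⟩
    rw [div_le_iff₀ (by positivity)]
    have : ε₀ / 4 * (8 * K / ε₀ + 1) = 2 * K + ε₀ / 4 := by field_simp; ring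
    rw [this]
    linarith
  obtain ⟨fB, hfB⟩ : ∃ fB : ℝ → ℝ, fB = fun v => f (min v B) := ⟨_, rfl⟩
  have hLB : ∀ u v, |fB u - fB v| ≤ L * dist u v := by
    intro u v
    rw [hfB]
    refine (hL _ _).trans (mul_le_mul_of_nonneg_left ?_ hL0)
    rw [Real.dist_eq, Real.dist_eq]
    exact (abs_min_sub_min_le_max u B v B).trans (by simp)
  have hKB : ∀ v, |fB v| ≤ K := fun v => by rw [hfB]; exact hK _
  have hcB : ∀ s, B ≤ s → fB s = fB B := by
    intro s hs
    rw [hfB]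
    simp only
    rw [min_eq_right hs, min_self]
  obtain ⟨C, N₀, hC0, hmain⟩ := v11_const a b ha hab fB L K B hB0 hL0 hLB hKB hcB
  refine ⟨C, max N₀ 1, hC0, ?_⟩
  intro N hN O m l hl hi κ hκ n τ hn hτ
  have hN0 : 0 < N := lt_of_lt_of_le one_pos (le_trans (le_max_right _ _) hN)
  obtain ⟨Φ, hS, hΦ, hsl⟩ := sys2 hN0 O m l a b ha hab hl
  have hLs := (levels_lists hN0 O m l a b ha hab hl Φ hΦ κ).1 hκ
  obtain ⟨X, hX0, hXm, hX1⟩ := zeros hN0 hc hS
  obtain ⟨s, hs1, hs2⟩ := lists_eq hN0 hc hS X hX0 hXm _ hLs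
  have ht := SPA_tend hN0 hc X hXm (fun q => (hX1 q).1) _ s hs1
  have hst : Continuous fun θ : Fin (m + 1) → Fin N → UnitAddCircle => sy (tr O m θ) :=
    sy_cont.comp (tr_cont O m)
  have hint : ∀ F : (Fin (m + 1) → Fin N → UnitAddCircle) → ℝ, Continuous F → Integrable F :=
    fun F hF => hF.integrable_of_hasCompactSupport (HasCompactSupport.of_compactSpace F)
  have hcf : Continuous fun θ : Fin (m + 1) → Fin N → UnitAddCircle =>
      pspac N f (phases (sy (tr O m θ)).1) := (pspac_lip hN0 f L hL0 hL).1.comp hst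
  have hcB2 : Continuous fun θ : Fin (m + 1) → Fin N → UnitAddCircle =>
      pspac N fB (phases (sy (tr O m θ)).1) := (pspac_lip hN0 fB L hL0 hLB).1.comp hst
  have h2 : |(∫ θ, pspac N fB (phases (sy (tr O m θ)).1)) -
      ∫ θ, pspac N f (phases (sy (tr O m θ)).1)| ≤ 2 * K / B := by
    rw [← integral_sub (hint _ hcB2) (hint _ hcf)]
    have h3 := norm_integral_le_of_norm_le_const (μ := (volume : Measure (Fin (m + 1) → Fin N → UnitAddCircle)))
      (f := fun θ => pspac N fB (phases (sy (tr O m θ)).1) - pspac N f (phases (sy (tr O m θ)).1))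
      (C := 2 * K / B) (ae_of_all _ fun θ => by
        have hy := phases_spec hN0 (sy (tr O m θ))
        have := v11_pspac hN0 f K B hB0 hK _ hy.mono hy.per
        rw [Real.norm_eq_abs, abs_sub_comm, hfB]
        exact this)
    simpa using h3
  filter_upwards [hmain N (le_trans (le_max_left _ _) hN) O m l hl hi κ hκ n τ (ε₀ / 2) hn hτ
    (by linarith), eventually_gt_atTop (0 : ℝ)] with T h1 hT
  have h3 := v11_spac f K B hB0 hK _ hLs.mono hLs.pos ht T hT
  rw [← hfB] at h3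
  have h4 : |spac f (unf l κ) T - ∫ θ, pspac N f (phases (sy (tr O m θ)).1)| ≤
      |spac f (unf l κ) T - spac fB (unf l κ) T| +
      |spac fB (unf l κ) T - ∫ θ, pspac N fB (phases (sy (tr O m θ)).1)| +
      |(∫ θ, pspac N fB (phases (sy (tr O m θ)).1)) - ∫ θ, pspac N f (phases (sy (tr O m θ)).1)| := by
    have := abs_add_three (spac f (unf l κ) T - spac fB (unf l κ) T)
      (spac fB (unf l κ) T - ∫ θ, pspac N fB (phases (sy (tr O m θ)).1))
      ((∫ θ, pspac N fB (phases (sy (tr O m θ)).1)) - ∫ θ, pspac N f (phases (sy (tr O m θ)).1))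
    refine le_trans (le_of_eq ?_) this
    congr 1
    ring
  linarith

end Ty
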