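import Pool.Agent.LibTy70.T14
import Pool.Agent.LibTy70.T18

/-! Row K02: one layer, in the typical part. Plan (`j < M ≤ m`): `tr O m θ = tr_trj = pr O (ext θ) 0 m * dg (θ 0)`,
`= H * dg (θ (j+1)) * cx (O j) * trj O θ j` with `H = pr O (ext θ) (j+1) (m-j-1)` (pr_add). So
`Uj = A sy(H dg t cx O A) A⁻¹ = (A A^T) * ((cx O)⁻¹ * (dg t * sy H * dg t) * cx O)`, `A = trj O θ j`, `O = O j = P j`, `t = θ (j+1)`. `A` and `H` do not
depend on `O j` and `θ (j+1)` (pr_congr). Integrate these two coordinates first (int_coord, intM_coord, Fubini,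
all functions continuous): psi_inv and T14 `gl_t` with `X = A A^T` (symmetric unitary), `Y = sy H`, `K = dm δ`. -/

open MeasureTheory Set Filter Topology

namespace Ty

open QGr

/-- Transposed unitary matrix. -/
noncomputable def k02_tp {N : ℕ} (A : Uni N) : Uni N :=
  ⟨A.1.transpose, by
    have h := A.2
    rw [Matrix.mem_unitaryGroup_iff'] at h
    rw [Matrix.mem_unitaryGroup_iff]
    have h2 := congrArg Matrix.transpose h
    rw [Matrix.transpose_mul, Matrix.transpose_one] at h2
    have h3 : star A.1.transpose = (star A.1).transpose := by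
      ext i j; simp [Matrix.star_apply]
    rw [h3]
    exact h2⟩

theorem k02_tp_val {N : ℕ} (A : Uni N) : (k02_tp A).1 = A.1.transpose := rfl

theorem k02_val_mul {N : ℕ} (A B : Uni N) : (A * B : Uni N).1 = A.1 * B.1 := rfl

theorem k02_tp_mul {N : ℕ} (A B : Uni N) : k02_tp (A * B) = k02_tp B * k02_tp A := by
  apply Subtype.ext
  rw [k02_tp_val, k02_val_mul, k02_val_mul, Matrix.transpose_mul]
  rfl

theorem k02_tp_tp {N : ℕ} (A : Uni N) : k02_tp (k02_tp A) = A := by
  apply Subtype.ext
  rw [k02_tp_val, k02_tp_val, Matrix.transpose_transpose]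

theorem k02_sy {N : ℕ} (A : Uni N) : sy A = k02_tp A * A := rfl

theorem k02_sy_mul {N : ℕ} (B A : Uni N) : sy (B * A) = k02_tp A * sy B * A := by
  rw [k02_sy, k02_sy, k02_tp_mul]
  group

theorem k02_sym {N : ℕ} (A : Uni N) : Sym (A * k02_tp A) := by
  have h := sy_sym (k02_tp A)
  rw [k02_sy, k02_tp_tp] at h
  exact h

theorem k02_tp_dg {N : ℕ} (t : Tor N) : k02_tp (dg t) = dg t := by
  apply Subtype.ext
  exact sym_dg t

theorem k02_tp_cx {N : ℕ} (O : Orth N) : k02_tp (cx O) = (cx O)⁻¹ := by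
  apply Subtype.ext
  exact cx_tr O

/-- Conjugating `sy (B A)`. -/
theorem k02_Uj {N : ℕ} (B A : Uni N) : A * sy (B * A) * A⁻¹ = A * k02_tp A * sy B := by
  rw [k02_sy_mul]
  group

theorem k02_ext_self {N m : ℕ} (θ : Fin (m + 1) → Tor N) (j : ℕ) (h : j < m + 1) (t : Tor N) :
    ext (Function.update θ ⟨j, h⟩ t) j = t := by
  simp [ext, h]

theorem k02_ext_ne {N m : ℕ} (θ : Fin (m + 1) → Tor N) (j : ℕ) (h : j < m + 1) (t : Tor N) (r : ℕ)
    (hr : r ≠ j) : ext (Function.update θ ⟨j, h⟩ t) r = ext θ r := by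
  unfold ext
  split_ifs with h2
  · rw [Function.update_of_ne]
    intro h3
    exact hr (congrArg Fin.val h3)
  · rfl

theorem k02_cat_self {N M : ℕ} (P : Fin M → Orth N) (O' : ℕ → Orth N) (j : ℕ) (h : j < M) (O : Orth N) :
    cat (Function.update P ⟨j, h⟩ O) O' j = O := by
  simp [cat, h]

theorem k02_cat_ne {N M : ℕ} (P : Fin M → Orth N) (O' : ℕ → Orth N) (j : ℕ) (h : j < M) (O : Orth N)
    (r : ℕ) (hr : r ≠ j) :
    cat (Function.update P ⟨j, h⟩ O) O' r = cat P O' r := by
  unfold cat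
  split_ifs with h2
  · rw [Function.update_of_ne]
    intro h3
    exact hr (congrArg Fin.val h3)
  · rfl

theorem k02_ext_zero {N m : ℕ} (θ : Fin (m + 1) → Tor N) : ext θ 0 = θ 0 := by
  simp [ext]

theorem k02_trj {N m : ℕ} (O : ℕ → Orth N) (θ : Fin (m + 1) → Tor N) (j : ℕ) :
    trj O θ j = pr O (ext θ) 0 j * dg (ext θ 0) := by
  rw [k02_ext_zero]
  rfl

theorem k02_pr_succ {N : ℕ} (O : ℕ → Orth N) (θ : ℕ → Tor N) (j : ℕ) :
    pr O θ 0 (j + 1) = dg (θ (j + 1)) * cx (O j) * pr O θ 0 j := by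
  simp [pr]

/-- Integrable on a compact product. -/
theorem k02_integrable {X Y : Type} [TopologicalSpace X] [TopologicalSpace Y] [CompactSpace X] [CompactSpace Y]
    [SecondCountableTopology X] [SecondCountableTopology Y] [MeasurableSpace X] [MeasurableSpace Y]
    [BorelSpace X] [BorelSpace Y] (μ : Measure X) (ν : Measure Y) [IsProbabilityMeasure μ]
    [IsProbabilityMeasure ν] (f : X → Y → ℝ) (hf : Continuous fun q : X × Y => f q.1 q.2) :
    Integrable (Function.uncurry f) (μ.prod ν) := by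
  have h : Continuous (Function.uncurry f) := hf
  obtain ⟨C, hC⟩ := isCompact_univ.exists_bound_of_continuousOn h.continuousOn
  exact Integrable.of_bound h.aestronglyMeasurable C (Filter.Eventually.of_forall fun x => hC x (mem_univ x))

theorem k02_pc {X Y : Type} [TopologicalSpace X] [TopologicalSpace Y] [CompactSpace X] [CompactSpace Y]
    [SecondCountableTopology X] [SecondCountableTopology Y] [MeasurableSpace Y] [R1Space X]
    [BorelSpace Y] (ν : Measure Y) [IsProbabilityMeasure ν] (f : X → Y → ℝ)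
    (hf : Continuous fun q : X × Y => f q.1 q.2) : Continuous fun x => ∫ y, f x y ∂ν := by
  have h := continuous_parametric_integral_of_continuous (μ := ν) (f := f) hf (s := Set.univ) isCompact_univ
  simpa using h

/-- Integrating two coordinates first. -/
theorem k02_int {N M m : ℕ} (I : Fin M) (J : Fin (m + 1)) (F : (Fin M → Orth N) → (Fin (m + 1) → Tor N) → ℝ)
    (hF : Continuous fun q : (Fin M → Orth N) × (Fin (m + 1) → Tor N) => F q.1 q.2) (B : ℝ)
    (h : ∀ P θ, ∫ t : Tor N, (∫ O : Orth N, F (Function.update P I O) (Function.update θ J t) ∂(haarO N)) ≤ B) :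
    ∫ P : Fin M → Orth N, (∫ θ : Fin (m + 1) → Tor N, F P θ) ∂(haarM N M) ≤ B := by
  have := sc_orth N
  have := prob_haarO N
  have := prob_haarM N M
  have h1 : ∫ P : Fin M → Orth N, (∫ θ : Fin (m + 1) → Tor N, F P θ) ∂(haarM N M) =
      ∫ P : Fin M → Orth N, (∫ O : Orth N, (∫ θ : Fin (m + 1) → Tor N, F (Function.update P I O) θ)
        ∂(haarO N)) ∂(haarM N M) := by
    refine intM_coord M I (fun P => ∫ θ : Fin (m + 1) → Tor N, F P θ) ?_
    exact k02_pc (volume : Measure (Fin (m + 1) → Tor N)) F hF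
  rw [h1]
  have h2 : ∀ P : Fin M → Orth N, (∫ O : Orth N, (∫ θ : Fin (m + 1) → Tor N, F (Function.update P I O) θ)
        ∂(haarO N)) ≤ B := by
    intro P
    have h3 : (∫ O : Orth N, (∫ θ : Fin (m + 1) → Tor N, F (Function.update P I O) θ) ∂(haarO N)) =
        ∫ θ : Fin (m + 1) → Tor N, (∫ O : Orth N, F (Function.update P I O) θ ∂(haarO N)) := by
      refine integral_integral_swap (k02_integrable (haarO N) volume
        (fun O θ => F (Function.update P I O) θ) ?_)
      exact hF.comp (Continuous.prodMk (Continuous.update continuous_const I continuous_fst) continuous_snd)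
    rw [h3]
    have h4 : Continuous fun θ : Fin (m + 1) → Tor N =>
        ∫ O : Orth N, F (Function.update P I O) θ ∂(haarO N) := by
      refine k02_pc (haarO N) (fun θ O => F (Function.update P I O) θ) ?_
      exact hF.comp (Continuous.prodMk (Continuous.update continuous_const I continuous_snd) continuous_fst)
    rw [int_coord m J (fun θ => ∫ O : Orth N, F (Function.update P I O) θ ∂(haarO N)) h4]
    have h5 : Continuous fun θ : Fin (m + 1) → Tor N => ∫ t : Tor N,
        (∫ O : Orth N, F (Function.update P I O) (Function.update θ J t) ∂(haarO N)) := by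
      refine k02_pc (volume : Measure (Tor N)) (fun θ t => ∫ O : Orth N,
        F (Function.update P I O) (Function.update θ J t) ∂(haarO N)) ?_
      exact h4.comp (Continuous.update continuous_fst J continuous_snd)
    have h6 : Integrable (fun θ : Fin (m + 1) → Tor N => ∫ t : Tor N,
        (∫ O : Orth N, F (Function.update P I O) (Function.update θ J t) ∂(haarO N))) volume := by
      obtain ⟨C, hC⟩ := isCompact_univ.exists_bound_of_continuousOn h5.continuousOn
      exact Integrable.of_bound h5.aestronglyMeasurable C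
        (Filter.Eventually.of_forall fun x => hC x (mem_univ x))
    calc ∫ θ : Fin (m + 1) → Tor N, ∫ t : Tor N,
        (∫ O : Orth N, F (Function.update P I O) (Function.update θ J t) ∂(haarO N)) 
        ≤ ∫ θ : Fin (m + 1) → Tor N, B := integral_mono h6 (integrable_const B) fun θ => h P θ
      _ = B := by simp
  have h7 : Continuous fun P : Fin M → Orth N => (∫ O : Orth N, (∫ θ : Fin (m + 1) → Tor N,
      F (Function.update P I O) θ) ∂(haarO N)) := by
    refine k02_pc (haarO N) (fun P O => ∫ θ : Fin (m + 1) → Tor N, F (Function.update P I O) θ) ?_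
    exact (k02_pc (volume : Measure (Fin (m + 1) → Tor N)) F hF).comp
      (Continuous.update continuous_fst I continuous_snd)
  have h8 : Integrable (fun P : Fin M → Orth N => (∫ O : Orth N, (∫ θ : Fin (m + 1) → Tor N,
      F (Function.update P I O) θ) ∂(haarO N))) (haarM N M) := by
    obtain ⟨C, hC⟩ := isCompact_univ.exists_bound_of_continuousOn h7.continuousOn
    exact Integrable.of_bound h7.aestronglyMeasurable C
      (Filter.Eventually.of_forall fun x => hC x (mem_univ x))
  calc ∫ P : Fin M → Orth N, (∫ O : Orth N, (∫ θ : Fin (m + 1) → Tor N,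
      F (Function.update P I O) θ) ∂(haarO N)) ∂(haarM N M)
      ≤ ∫ P : Fin M → Orth N, B ∂(haarM N M) := integral_mono h8 (integrable_const B) h2
    _ = B := by simp

theorem k02_mul3 {N : ℕ} {X : Type} [TopologicalSpace X] (f g : X → Uni N) (hf : Continuous f)
    (hg : Continuous g) : Continuous fun x => f x * g x * (f x)⁻¹ := by fun_prop

theorem k02_An {N n : ℕ} {X : Type} [TopologicalSpace X] (K : Mat N) (f : X → Uni N) (hf : Continuous f) :
    Continuous fun x => fro (An n K (f x)) ^ 2 := by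
  have h := An_cont (N := N) n
  have h2 : Continuous fun x => (K, f x) := continuous_const.prodMk hf
  have h3 := Continuous.comp h h2
  have h4 := Continuous.comp (froc (N := N)) h3
  exact h4.pow 2

/-- Continuity of the integrand. -/
theorem k02_cont {N M m : ℕ} (O' : ℕ → Orth N) (j n : ℕ) (K : Mat N) :
    Continuous fun q : (Fin M → Orth N) × (Fin (m + 1) → Tor N) =>
      fro (An n K (Uj (cat q.1 O') q.2 j)) ^ 2 := by
  have h1 : Continuous fun q : (Fin M → Orth N) × (Fin (m + 1) → Tor N) =>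
      ((cat q.1 O', q.2) : (ℕ → Orth N) × (Fin (m + 1) → Tor N)) :=
    ((cat_cont O').comp continuous_fst).prodMk continuous_snd
  have h2 : Continuous fun q : (Fin M → Orth N) × (Fin (m + 1) → Tor N) => trj (cat q.1 O') q.2 j :=
    Continuous.comp (g := fun q : (ℕ → Orth N) × (Fin (m + 1) → Tor N) => trj q.1 q.2 j)
      (trj_cont j) h1
  have h3 : Continuous fun q : (Fin M → Orth N) × (Fin (m + 1) → Tor N) => tr (cat q.1 O') m q.2 :=
    Continuous.comp (g := fun q : (ℕ → Orth N) × (Fin (m + 1) → Tor N) => tr q.1 m q.2)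
      (trc m) h1
  have h4 : Continuous fun q : (Fin M → Orth N) × (Fin (m + 1) → Tor N) => sy (tr (cat q.1 O') m q.2) := by
    have h5 : Continuous (sy : Uni N → Uni N) := by
      unfold sy
      refine Continuous.subtype_mk ?_ _
      exact (continuous_subtype_val.matrix_transpose).matrix_mul continuous_subtype_val
    exact h5.comp h3
  have h5 : Continuous fun q : (Fin M → Orth N) × (Fin (m + 1) → Tor N) => Uj (cat q.1 O') q.2 j :=
    k02_mul3 _ _ h2 h4
  exact k02_An K _ h5

theorem k02_dm_herm {N : ℕ} (δ : Fin N → ℝ) : (dm δ).IsHermitian := by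
  unfold dm
  rw [Matrix.IsHermitian, Matrix.diagonal_conjTranspose]
  congr 1
  ext a
  simp

theorem k02_dm_trace {N : ℕ} (δ : Fin N → ℝ) (h : ∑ a, δ a = 0) : (dm δ).trace = 0 := by
  unfold dm
  rw [Matrix.trace_diagonal, ← Complex.ofReal_sum, h, Complex.ofReal_zero]

theorem lay_typ : ∃ C : ℝ, 0 ≤ C ∧ ∀ N : ℕ, 2 ≤ N → ∀ (M m : ℕ), M ≤ m → ∀ (O' : ℕ → Orth N)
    (j : ℕ), j < M → ∀ δ : Fin N → ℝ, ∑ a, δ a = 0 →
    ∫ P : Fin M → Orth N, (∫ θ : Fin (m + 1) → Tor N,
      fro (An (nn N) (dm δ) (Uj (cat P O') θ j)) ^ 2) ∂(haarM N M) ≤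
      C * (N : ℝ) ^ (-(1 / 6) : ℝ) * ∑ a, δ a ^ 2 := by
  obtain ⟨C, hC, hg⟩ := gl_t
  refine ⟨C, hC, ?_⟩
  intro N hN M m hMm O' j hj δ hδ
  have hjm : j + 1 < m + 1 := by omega
  refine k02_int ⟨j, hj⟩ ⟨j + 1, hjm⟩ (fun P θ => fro (An (nn N) (dm δ) (Uj (cat P O') θ j)) ^ 2)
    (k02_cont O' j (nn N) (dm δ)) _ ?_
  intro P θ
  set A : Uni N := trj (cat P O') θ j with hA
  set H : Uni N := pr (cat P O') (ext θ) (j + 1) (m - j - 1) with hH
  have key : ∀ (t : Tor N) (O : Orth N),
      Uj (cat (Function.update P ⟨j, hj⟩ O) O') (Function.update θ ⟨j + 1, hjm⟩ t) j =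
        A * k02_tp A * ((cx O)⁻¹ * (dg t * sy H * dg t) * cx O) := by
    intro t O
    have e1 : pr (cat (Function.update P ⟨j, hj⟩ O) O') (ext (Function.update θ ⟨j + 1, hjm⟩ t)) 0 j =
        pr (cat P O') (ext θ) 0 j := by
      refine pr_congr _ _ _ _ _ _ ?_
      intro r hr
      refine ⟨k02_cat_ne P O' j hj O _ (by omega), k02_ext_ne θ (j + 1) hjm t _ (by omega)⟩
    have e2 : trj (cat (Function.update P ⟨j, hj⟩ O) O') (Function.update θ ⟨j + 1, hjm⟩ t) j = A := by
      rw [hA, k02_trj, k02_trj, e1, k02_ext_ne θ (j + 1) hjm t 0 (by omega)]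
    have e3 : pr (cat (Function.update P ⟨j, hj⟩ O) O') (ext (Function.update θ ⟨j + 1, hjm⟩ t))
        (j + 1) (m - j - 1) = H := by
      rw [hH]
      refine pr_congr _ _ _ _ _ _ ?_
      intro r hr
      refine ⟨k02_cat_ne P O' j hj O _ (by omega), k02_ext_ne θ (j + 1) hjm t _ (by omega)⟩
    have e4 : tr (cat (Function.update P ⟨j, hj⟩ O) O') m (Function.update θ ⟨j + 1, hjm⟩ t) =
        (H * dg t * cx O) * A := by
      rw [tr_trj, k02_trj]
      have hm : m = (j + 1) + (m - j - 1) := by omega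
      have e0 : ∀ (Q : ℕ → Orth N) (φ : ℕ → Tor N), pr Q φ 0 m =
          pr Q φ (j + 1) (m - j - 1) * (dg (φ (j + 1)) * cx (Q j) * pr Q φ 0 j) := by
        intro Q φ
        conv_lhs => rw [hm]
        rw [pr_add, k02_pr_succ]
        simp only [Nat.zero_add]
      have e5 : pr (cat (Function.update P ⟨j, hj⟩ O) O') (ext (Function.update θ ⟨j + 1, hjm⟩ t)) 0 m =
          H * (dg t * cx O * pr (cat (Function.update P ⟨j, hj⟩ O) O')
            (ext (Function.update θ ⟨j + 1, hjm⟩ t)) 0 j) := by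
        rw [← e3, e0, k02_ext_self, k02_cat_self]
      rw [e5, ← e2, k02_trj]
      group
    unfold Uj
    rw [e4, e2, k02_Uj, sy_cx, sy_dg]
  simp only [key]
  have e6 : ∀ t : Tor N, (∫ O : Orth N, fro (An (nn N) (dm δ)
      (A * k02_tp A * ((cx O)⁻¹ * (dg t * sy H * dg t) * cx O))) ^ 2 ∂(haarO N)) =
      Psi (nn N) (dm δ) (A * k02_tp A) (dg t * sy H * dg t) := fun t => psi_inv _ _ _ _
  simp only [e6]
  have e7 := hg N hN (dm δ) (k02_dm_herm δ) (k02_dm_trace δ hδ) (A * k02_tp A) (sy H) (k02_sym A) (sy_sym H)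
  rw [fro_dm, Real.sq_sqrt (Finset.sum_nonneg fun a _ => sq_nonneg _)] at e7
  exact e7

end Ty
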