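import Pool.Agent.LibTy70.T14
import Pool.Agent.LibTy70.T18
import Pool.Agent.LibTy70.K02

/-! Row K03: one layer, after the typical part. Plan (`1 ≤ M ≤ j ≤ m`): `trj O θ j = Cm * cx (O (M-1)) * (dg t * A')` with `t = θ (M-1)`,
`Cm = dg (θ j) ... ` i.e. `pr O (ext θ) 0 j * dg (θ 0)` split at the layers `M-1` and `M` (pr_add; for `M = 1`: `dg (θ 0)` itself, `A' = 1`), and
`tr O m θ = H * trj O θ j`. `Uj = A sy(H A) A⁻¹ = A A^T sy H = Cm (cx O (dg t Y dg t) (cx O)⁻¹) Cm^T sy H` with `Y = A' A'^T` symmetric,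
`O = P (M-1)`. Conjugate by `Cm⁻¹`: `(cx O (dg t Y dg t) (cx O)⁻¹) * X`, `X = Cm^T sy(H) Cm = sy (H Cm)` symmetric, and `dm δ` becomes
`Cm⁻¹ dm δ Cm`, Hermitian with trace `0` and the same `fro`. `Cm, H, A'` do not depend on `P (M-1)` and `θ (M-1)`. Integrate these
coordinates first (int_coord, intM_coord, Fubini, continuity): psi_swap (with `O → O⁻¹`, intO_inv) and T14 `gl_t`. -/

open MeasureTheory Set Filter Topology

namespace Ty

open QGr

theorem k03_inv_val {N : ℕ} (V : Uni N) : (V⁻¹ : Uni N).1 = V.1.conjTranspose := rfl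

theorem k03_herm {N : ℕ} (K : Mat N) (V : Uni N) (h : K.IsHermitian) :
    (V.1 * K * (V⁻¹ : Uni N).1).IsHermitian := by
  rw [k03_inv_val]
  exact Matrix.isHermitian_mul_mul_conjTranspose V.1 h

theorem k03_trace {N : ℕ} (K : Mat N) (V : Uni N) (h : K.trace = 0) :
    (V.1 * K * (V⁻¹ : Uni N).1).trace = 0 := by
  rw [Matrix.trace_mul_comm, ← Matrix.mul_assoc, ← k02_val_mul, inv_mul_cancel]
  change ((1 : Matrix (Fin N) (Fin N) ℂ) * K).trace = 0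
  rw [one_mul, h]

/-- The decomposition. -/
theorem k03_split {N : ℕ} (Q : ℕ → Orth N) (φ : ℕ → Tor N) (k : ℕ) : ∃ A' : Uni N,
    (∀ (Q2 : ℕ → Orth N) (φ2 : ℕ → Tor N), (∀ r < k, Q2 r = Q r) → (∀ r < k, φ2 r = φ r) →
      pr Q2 φ2 0 k * dg (φ2 0) = dg (φ2 k) * A') := by
  cases k with
  | zero =>
    refine ⟨1, ?_⟩
    intro Q2 φ2 _ _
    simp [pr]
  | succ k' =>
    refine ⟨cx (Q k') * (pr Q φ 0 k' * dg (φ 0)), ?_⟩
    intro Q2 φ2 h1 h2
    have e : pr Q2 φ2 0 k' = pr Q φ 0 k' := by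
      refine pr_congr _ _ _ _ _ _ ?_
      intro r hr
      exact ⟨h1 _ (by omega), h2 _ (by omega)⟩
    rw [k02_pr_succ, e, h1 k' (by omega), h2 0 (by omega)]
    group

theorem lay_rest : ∃ C : ℝ, 0 ≤ C ∧ ∀ N : ℕ, 2 ≤ N → ∀ (M m : ℕ), 1 ≤ M → M ≤ m → ∀ (O' : ℕ → Orth N)
    (j : ℕ), M ≤ j → j ≤ m → ∀ δ : Fin N → ℝ, ∑ a, δ a = 0 →
    ∫ P : Fin M → Orth N, (∫ θ : Fin (m + 1) → Tor N,
      fro (An (nn N) (dm δ) (Uj (cat P O') θ j)) ^ 2) ∂(haarM N M) ≤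
      C * (N : ℝ) ^ (-(1 / 6) : ℝ) * ∑ a, δ a ^ 2 := by
  obtain ⟨C, hC, hg⟩ := gl_t
  refine ⟨C, hC, ?_⟩
  intro N hN M m hM1 hMm O' j hMj hjm δ hδ
  obtain ⟨k, rfl⟩ : ∃ k, M = k + 1 := ⟨M - 1, by omega⟩
  have hk1 : k < k + 1 := by omega
  have hk2 : k < m + 1 := by omega
  refine k02_int ⟨k, hk1⟩ ⟨k, hk2⟩ (fun P θ => fro (An (nn N) (dm δ) (Uj (cat P O') θ j)) ^ 2)
    (k02_cont O' j (nn N) (dm δ)) _ ?_
  intro P θ
  obtain ⟨A', hA'⟩ := k03_split (cat P O') (ext θ) k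
  set Cm : Uni N := pr (cat P O') (ext θ) (k + 1) (j - k - 1) * dg (ext θ (k + 1)) with hCm
  set H : Uni N := pr (cat P O') (ext θ) j (m - j) with hH
  have key : ∀ (t : Tor N) (O : Orth N),
      Uj (cat (Function.update P ⟨k, hk1⟩ O) O') (Function.update θ ⟨k, hk2⟩ t) j =
        Cm * ((cx O * (dg t * (A' * k02_tp A') * dg t) * (cx O)⁻¹) * sy (H * Cm)) * Cm⁻¹ := by
    intro t O
    have g0 : ∀ (Q : ℕ → Orth N) (φ : ℕ → Tor N), pr Q φ 0 j =
        pr Q φ (k + 1) (j - k - 1) * (dg (φ (k + 1)) * cx (Q k) * pr Q φ 0 k) := by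
      intro Q φ
      have hj : j = (k + 1) + (j - k - 1) := by omega
      conv_lhs => rw [hj]
      rw [pr_add, k02_pr_succ]
      simp only [Nat.zero_add]
    have g1 : ∀ (Q : ℕ → Orth N) (φ : ℕ → Tor N), pr Q φ 0 m = pr Q φ j (m - j) * pr Q φ 0 j := by
      intro Q φ
      have hj : m = j + (m - j) := by omega
      conv_lhs => rw [hj]
      rw [pr_add]
      simp only [Nat.zero_add]
    have e1 : pr (cat (Function.update P ⟨k, hk1⟩ O) O') (ext (Function.update θ ⟨k, hk2⟩ t)) (k + 1) (j - k - 1) =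
        pr (cat P O') (ext θ) (k + 1) (j - k - 1) := by
      refine pr_congr _ _ _ _ _ _ ?_
      intro r hr
      refine ⟨k02_cat_ne P O' k hk1 O _ (by omega), k02_ext_ne θ k hk2 t _ (by omega)⟩
    have e2 : pr (cat (Function.update P ⟨k, hk1⟩ O) O') (ext (Function.update θ ⟨k, hk2⟩ t)) j (m - j) = H := by
      rw [hH]
      refine pr_congr _ _ _ _ _ _ ?_
      intro r hr
      refine ⟨k02_cat_ne P O' k hk1 O _ (by omega), k02_ext_ne θ k hk2 t _ (by omega)⟩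
    have e3 : pr (cat (Function.update P ⟨k, hk1⟩ O) O') (ext (Function.update θ ⟨k, hk2⟩ t)) 0 k *
        dg (ext (Function.update θ ⟨k, hk2⟩ t) 0) = dg t * A' := by
      rw [hA' _ _ (fun r hr => k02_cat_ne P O' k hk1 O _ (by omega))
        (fun r hr => k02_ext_ne θ k hk2 t _ (by omega)), k02_ext_self]
    have e4 : trj (cat (Function.update P ⟨k, hk1⟩ O) O') (Function.update θ ⟨k, hk2⟩ t) j =
        Cm * cx O * (dg t * A') := by
      rw [k02_trj, g0, e1, k02_ext_ne θ k hk2 t (k + 1) (by omega), k02_cat_self, ← e3, hCm]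
      group
    have e5 : tr (cat (Function.update P ⟨k, hk1⟩ O) O') m (Function.update θ ⟨k, hk2⟩ t) =
        H * trj (cat (Function.update P ⟨k, hk1⟩ O) O') (Function.update θ ⟨k, hk2⟩ t) j := by
      rw [tr_trj, k02_trj, g1, e2, k02_trj]
      group
    unfold Uj
    rw [e5, k02_Uj, e4, k02_tp_mul, k02_tp_mul, k02_tp_mul, k02_tp_dg, k02_tp_cx, k02_sy_mul H Cm]
    group
  have hinv : (Cm⁻¹)⁻¹ = Cm := inv_inv Cm
  set K' : Mat N := (Cm⁻¹ : Uni N).1 * dm δ * ((Cm⁻¹)⁻¹ : Uni N).1 with hK'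
  have key2 : ∀ (t : Tor N) (O : Orth N),
      fro (An (nn N) (dm δ) (Uj (cat (Function.update P ⟨k, hk1⟩ O) O') (Function.update θ ⟨k, hk2⟩ t) j)) ^ 2 =
      fro (An (nn N) K' (cx O * (dg t * (A' * k02_tp A') * dg t) * (cx O)⁻¹ * sy (H * Cm))) ^ 2 := by
    intro t O
    rw [key t O, ← fro_An_conj (nn N) (dm δ) _ (Cm⁻¹)]
    congr 3
    group
  have e6 : ∀ t : Tor N, (∫ O : Orth N, fro (An (nn N) (dm δ) (Uj (cat (Function.update P ⟨k, hk1⟩ O) O')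
      (Function.update θ ⟨k, hk2⟩ t) j)) ^ 2 ∂(haarO N)) =
      Psi (nn N) ((sy (H * Cm)).1 * K' * ((sy (H * Cm))⁻¹ : Uni N).1) (sy (H * Cm))
        (dg t * (A' * k02_tp A') * dg t) := by
    intro t
    rw [← psi_swap]
    rw [← intO_inv]
    refine integral_congr_ae (Filter.Eventually.of_forall fun O => ?_)
    beta_reduce
    rw [key2, cx_inv, inv_inv, cx_inv]
  simp only [e6]
  have f1 : fro ((sy (H * Cm)).1 * K' * ((sy (H * Cm))⁻¹ : Uni N).1) ^ 2 = ∑ a, δ a ^ 2 := by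
    rw [fro_uni, hK', fro_uni, fro_dm, Real.sq_sqrt (Finset.sum_nonneg fun a _ => sq_nonneg _)]
  have e7 := hg N hN ((sy (H * Cm)).1 * K' * ((sy (H * Cm))⁻¹ : Uni N).1)
    (k03_herm _ _ (k03_herm _ _ (k02_dm_herm δ))) (k03_trace _ _ (k03_trace _ _ (k02_dm_trace δ hδ)))
    (sy (H * Cm)) (A' * k02_tp A') (sy_sym _) (k02_sym A')
  rw [f1] at e7
  exact e7

end Ty
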