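import Pool.Agent.LibTy70.K01
import Pool.Agent.LibTy70.K02
import Pool.Agent.LibTy70.K03
import Pool.Agent.LibTy70.V08
import Pool.Agent.LibQGr.R_LVL
import Pool.Agent.LibQGr.R_SYS

/-! Row K04: the averaged delay matrix. Plan: B0_le (K01), sum over `j` of K02 (j < M) and K03 (j ≥ M), `Lp_sum`, `Lp_sq`:
`≤ (N/len l)² (m+1)² C N^(-1/6) N (b-a)²`, and `len l ≥ (m+1) N a` (SYS_le_len). Integrability: continuous functions. -/

open MeasureTheory Set Filter Topology

namespace Ty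

open QGr

private theorem k04_int {X : Type*} [TopologicalSpace X] [CompactSpace X] [MeasurableSpace X]
    [OpensMeasurableSpace X] (μ : Measure X) [IsFiniteMeasure μ] {f : X → ℝ} (hf : Continuous f) :
    Integrable f μ :=
  hf.integrable_of_hasCompactSupport (HasCompactSupport.of_compactSpace f)

private theorem k04_joint {N M m : ℕ} (n : ℕ) (O' : ℕ → Orth N) (δ : Fin N → ℝ) (j : ℕ) :
    Continuous fun q : (Fin M → Orth N) × (Fin (m + 1) → Tor N) =>
      fro (An n (dm δ) (Uj (cat q.1 O') q.2 j)) ^ 2 := by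
  have h0 : Continuous fun q : (Fin M → Orth N) × (Fin (m + 1) → Tor N) =>
      ((cat q.1 O', q.2) : (ℕ → Orth N) × (Fin (m + 1) → Tor N)) :=
    ((cat_cont O').comp continuous_fst).prodMk continuous_snd
  have h1 : Continuous fun q : (Fin M → Orth N) × (Fin (m + 1) → Tor N) =>
      trj (cat q.1 O') q.2 j := (trj_cont j).comp h0
  have h2 : Continuous fun q : (Fin M → Orth N) × (Fin (m + 1) → Tor N) =>
      sy (tr (cat q.1 O') m q.2) := sy_cont.comp ((trc m).comp h0)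
  have h3 : Continuous fun q : (Fin M → Orth N) × (Fin (m + 1) → Tor N) =>
      Uj (cat q.1 O') q.2 j := (h1.mul h2).mul h1.inv
  have h5 : Continuous fun q : (Fin M → Orth N) × (Fin (m + 1) → Tor N) =>
      ((dm δ, Uj (cat q.1 O') q.2 j) : Mat N × Uni N) := continuous_const.prodMk h3
  have h6 := (froc.comp (An_cont (N := N) n)).pow 2
  have h7 := h6.comp h5
  exact h7

private theorem k04_outer {N M m : ℕ} (n : ℕ) (O' : ℕ → Orth N) (δ : Fin N → ℝ) (j : ℕ) :
    Integrable (fun P : Fin M → Orth N => ∫ θ : Fin (m + 1) → Tor N,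
      fro (An n (dm δ) (Uj (cat P O') θ j)) ^ 2) (haarM N M) := by
  have := sc_orth N
  have := prob_haarM N M
  refine k04_int (haarM N M) ?_
  have h := continuous_parametric_integral_of_continuous (μ := (volume : Measure (Fin (m + 1) → Tor N)))
    (f := fun (P : Fin M → Orth N) (θ : Fin (m + 1) → Tor N) =>
      fro (An n (dm δ) (Uj (cat P O') θ j)) ^ 2) (k04_joint n O' δ j) isCompact_univ
  simpa only [Measure.restrict_univ] using h

theorem len_avg : ∃ C : ℝ, 0 ≤ C ∧ ∀ N : ℕ, 2 ≤ N → ∀ a b : ℝ, 0 < a → a ≤ b →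
    ∀ (M m : ℕ), 1 ≤ M → M ≤ m → ∀ (O' : ℕ → Orth N) (l : Fin (m + 1) → Fin N → ℝ),
    (∀ j i, l j i ∈ Icc a b) →
    ∫ P : Fin M → Orth N, (1 / N * ∫ θ : Fin (m + 1) → Tor N,
      fro (An (nn N) (B0 (cat P O') m l θ) (sy (tr (cat P O') m θ))) ^ 2) ∂(haarM N M) ≤
      C * ((b - a) / a) ^ 2 * (N : ℝ) ^ (-(1 / 6) : ℝ) := by
  obtain ⟨C1, hC1, h1⟩ := lay_typ
  obtain ⟨C2, hC2, h2⟩ := lay_rest
  refine ⟨max C1 C2, le_max_of_le_left hC1, ?_⟩
  intro N hN a b ha hab M m hM hMm O' l hl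
  have hN0 : 0 < N := by omega
  have hNR : (0 : ℝ) < N := by exact_mod_cast hN0
  have hL := SYS_len_pos hN0 l a b ha hl
  have hLa := SYS_le_len hN0 l a b hl
  set C : ℝ := max C1 C2 with hC
  have hC0 : 0 ≤ C := le_max_of_le_left hC1
  have hp : (0 : ℝ) ≤ (N : ℝ) ^ (-(1 / 6) : ℝ) := Real.rpow_nonneg hNR.le _
  -- one layer
  have hlay : ∀ j : Fin (m + 1), ∫ P : Fin M → Orth N, (∫ θ : Fin (m + 1) → Tor N,
      fro (An (nn N) (dm (Lp l j)) (Uj (cat P O') θ j)) ^ 2) ∂(haarM N M) ≤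
      C * (N : ℝ) ^ (-(1 / 6) : ℝ) * (N * (b - a) ^ 2) := by
    intro j
    have hs := Lp_sq hN0 l a b hl j
    have hs0 : 0 ≤ ∑ i, Lp l j i ^ 2 := Finset.sum_nonneg fun i _ => sq_nonneg _
    rcases lt_or_ge (j : ℕ) M with hj | hj
    · refine (h1 N hN M m hMm O' j hj (Lp l j) (Lp_sum hN0 l j)).trans ?_
      have : C1 ≤ C := le_max_left _ _
      gcongr
    · refine (h2 N hN M m hM hMm O' j hj (by omega) (Lp l j) (Lp_sum hN0 l j)).trans ?_
      have : C2 ≤ C := le_max_right _ _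
      gcongr
  have hPi := prob_haarM N M
  set K : ℝ := 1 / N * ((N / len l) ^ 2 * (m + 1)) with hK
  have hK0 : 0 ≤ K := by positivity
  have hin : ∀ (P : Fin M → Orth N) (j : Fin (m + 1)), Integrable (fun θ : Fin (m + 1) → Tor N =>
      fro (An (nn N) (dm (Lp l j)) (Uj (cat P O') θ j)) ^ 2) := by
    intro P j
    have hc : Continuous fun θ : Fin (m + 1) → Tor N =>
        ((P, θ) : (Fin M → Orth N) × (Fin (m + 1) → Tor N)) := by fun_prop
    have hd := (k04_joint (M := M) (m := m) (nn N) O' (Lp l j) j).comp hc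
    have he := k04_int (volume : Measure (Fin (m + 1) → Tor N)) hd
    exact he
  have hstep : ∀ P : Fin M → Orth N, 1 / N * ∫ θ : Fin (m + 1) → Tor N,
      fro (An (nn N) (B0 (cat P O') m l θ) (sy (tr (cat P O') m θ))) ^ 2 ≤
      K * ∑ j : Fin (m + 1), ∫ θ : Fin (m + 1) → Tor N,
        fro (An (nn N) (dm (Lp l j)) (Uj (cat P O') θ j)) ^ 2 := by
    intro P
    have h3 : ∫ θ : Fin (m + 1) → Tor N,
        fro (An (nn N) (B0 (cat P O') m l θ) (sy (tr (cat P O') m θ))) ^ 2 ≤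
        ∫ θ : Fin (m + 1) → Tor N, ((N / len l) ^ 2 * (m + 1)) * ∑ j : Fin (m + 1),
          fro (An (nn N) (dm (Lp l j)) (Uj (cat P O') θ j)) ^ 2 := by
      refine integral_mono_of_nonneg (Eventually.of_forall fun θ => sq_nonneg _)
        ((integrable_finsetSum _ fun j _ => hin P j).const_mul _)
        (Eventually.of_forall fun θ => ?_)
      exact B0_le hN0 (nn N) (cat P O') m l hL θ
    rw [integral_const_mul, integral_finsetSum _ fun j _ => hin P j] at h3
    calc _ ≤ 1 / (N : ℝ) * (((N / len l) ^ 2 * (m + 1)) * ∑ j : Fin (m + 1),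
          ∫ θ : Fin (m + 1) → Tor N,
            fro (An (nn N) (dm (Lp l j)) (Uj (cat P O') θ j)) ^ 2) :=
          mul_le_mul_of_nonneg_left h3 (by positivity)
      _ = _ := by rw [hK]; ring
  have hout : ∫ P : Fin M → Orth N, (1 / N * ∫ θ : Fin (m + 1) → Tor N,
      fro (An (nn N) (B0 (cat P O') m l θ) (sy (tr (cat P O') m θ))) ^ 2) ∂(haarM N M) ≤
      ∫ P : Fin M → Orth N, (K * ∑ j : Fin (m + 1), ∫ θ : Fin (m + 1) → Tor N,
        fro (An (nn N) (dm (Lp l j)) (Uj (cat P O') θ j)) ^ 2) ∂(haarM N M) := by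
    refine integral_mono_of_nonneg (Eventually.of_forall fun P => ?_)
      ((integrable_finsetSum _ fun j _ => k04_outer (nn N) O' (Lp l j) j).const_mul _)
      (Eventually.of_forall hstep)
    exact mul_nonneg (by positivity) (integral_nonneg fun θ => sq_nonneg _)
  refine hout.trans ?_
  rw [integral_const_mul, integral_finsetSum _ fun j _ => k04_outer (nn N) O' (Lp l j) j]
  have hsum : ∑ j : Fin (m + 1), ∫ P : Fin M → Orth N, (∫ θ : Fin (m + 1) → Tor N,
      fro (An (nn N) (dm (Lp l j)) (Uj (cat P O') θ j)) ^ 2) ∂(haarM N M) ≤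
      (m + 1) * (C * (N : ℝ) ^ (-(1 / 6) : ℝ) * (N * (b - a) ^ 2)) := by
    refine (Finset.sum_le_sum fun j _ => hlay j).trans (le_of_eq ?_)
    simp
  refine (mul_le_mul_of_nonneg_left hsum hK0).trans ?_
  have hq : (N : ℝ) * (m + 1) / len l ≤ 1 / a := by
    rw [div_le_div_iff₀ hL ha]
    linarith
  have hq0 : 0 ≤ (N : ℝ) * (m + 1) / len l := by positivity
  have hq2 : ((N : ℝ) * (m + 1) / len l) ^ 2 ≤ (1 / a) ^ 2 := by gcongr
  calc K * ((m + 1) * (C * (N : ℝ) ^ (-(1 / 6) : ℝ) * (N * (b - a) ^ 2)))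
      = ((N : ℝ) * (m + 1) / len l) ^ 2 * (C * (b - a) ^ 2 * (N : ℝ) ^ (-(1 / 6) : ℝ)) := by
        rw [hK]; field_simp
    _ ≤ (1 / a) ^ 2 * (C * (b - a) ^ 2 * (N : ℝ) ^ (-(1 / 6) : ℝ)) :=
        mul_le_mul_of_nonneg_right hq2 (by positivity)
    _ = C * ((b - a) / a) ^ 2 * (N : ℝ) ^ (-(1 / 6) : ℝ) := by ring

end Ty
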