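import Pool.Agent.LibTy70.S05
import Pool.Agent.LibCOE.CP_S16

/-! Row S08: self-averaging of the gap counts. Plan: `C_k(θ) = (1/N) ∑_{e : Fin (k+1) ↪ Fin N} S9_F N k s (θ ∘ e)`, `N = 2n`.
Bonferroni: for `m : ℕ`, `|[m = 0] - ∑_{k ≤ K} (-1)^k m.choose k| ≤ m.choose (K+1)`
(`Int.alternating_sum_range_choose_of_ne` / `∑_{k≤K} (-1)^k C(m,k) = (-1)^K C(m-1,K)`), summed over the points as in
`gap_count` (S7_card): `|(1/N) cg s θ - ∑_{k≤K} (-1)^k/k! C_k θ| ≤ C_{K+1}(θ)/(K+1)!`. `EW C_k` times `(-1)^k/k!` is `tn n k s`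
(dens_int, gap_int; CP_S9), bounded by a summable sequence (tn_bdd, bd_sum), `tn → tg` (tn_lim), `∑ tg = gE` (gE_sum). S05 for
`F = S9_F N k s` (measurable, bounded by 1, cluster radius `s`): `EW |C_k - EW C_k| → 0`. Given `ε` choose `K`, then `n`. -/

open MeasureTheory Set Filter Topology

namespace Ty

open QGr COE

theorem s08_alt (m K : ℕ) : ∑ k ∈ Finset.range (K + 1), (-1 : ℝ) ^ k * ((m + 1).choose k : ℝ)
    = (-1) ^ K * (m.choose K : ℝ) := by
  induction K with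
  | zero => simp
  | succ K ih =>
    rw [Finset.sum_range_succ, ih, Nat.choose_succ_succ m K]
    push_cast
    ring

theorem s08_bonf (m K : ℕ) :
    |(if m = 0 then (1 : ℝ) else 0) -
      ∑ k ∈ Finset.range (K + 1), ((-1) ^ k / k.factorial : ℝ) * (m.descFactorial k : ℝ)|
      ≤ (m.descFactorial (K + 1) : ℝ) / (K + 1).factorial := by
  have h1 : ∀ k : ℕ, ((-1) ^ k / k.factorial : ℝ) * (m.descFactorial k : ℝ)
      = (-1) ^ k * (m.choose k : ℝ) := by
    intro k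
    rw [Nat.descFactorial_eq_factorial_mul_choose]
    have h0 : (k.factorial : ℝ) ≠ 0 := by exact_mod_cast Nat.factorial_ne_zero k
    push_cast
    field_simp
  have h2 : (m.descFactorial (K + 1) : ℝ) / (K + 1).factorial = (m.choose (K + 1) : ℝ) := by
    rw [Nat.descFactorial_eq_factorial_mul_choose]
    have h0 : ((K + 1).factorial : ℝ) ≠ 0 := by exact_mod_cast Nat.factorial_ne_zero (K + 1)
    push_cast
    field_simp
  rw [Finset.sum_congr rfl fun k _ => h1 k, h2]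
  rcases m with _ | m
  · rw [if_pos rfl, Finset.sum_range_succ']
    simp
  · rw [if_neg (Nat.succ_ne_zero m), s08_alt, zero_sub, abs_neg, abs_mul, abs_pow, abs_neg,
      abs_one, one_pow, one_mul, Nat.abs_cast, Nat.choose_succ_succ]
    push_cast
    have : (0 : ℝ) ≤ (m.choose (K + 1) : ℝ) := Nat.cast_nonneg _
    linarith

theorem s08_count {N : ℕ} (s : ℝ) (θ : Fin N → ℝ) (k : ℕ) :
    ∑ e : Fin (k + 1) ↪ Fin N, S9_F N k s (fun a => θ (e a))
      = ∑ p, (((Finset.univ.filter fun j => j ≠ p ∧ gm N (θ p - θ j) ≤ s).card.descFactorial k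
        : ℕ) : ℝ) := by
  classical
  have h2 : ∀ e : Fin (k + 1) ↪ Fin N, S9_F N k s (fun a => θ (e a))
      = ∑ p, if (e 0 = p ∧ ∀ i : Fin k, gm N (θ (e 0) - θ (e i.succ)) ≤ s) then (1 : ℝ) else 0 := by
    intro e
    unfold S9_F
    rw [Finset.sum_eq_single (e 0)]
    · rw [Finset.prod_ite_zero]
      simp
    · intro p _ hp
      rw [if_neg]
      rintro ⟨h3, -⟩
      exact hp h3.symm
    · intro h3
      exact absurd (Finset.mem_univ _) h3
  rw [Finset.sum_congr rfl fun e _ => h2 e, Finset.sum_comm]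
  refine Finset.sum_congr rfl fun p _ => ?_
  rw [Finset.sum_boole, S7_card]

theorem s08_cg {N : ℕ} (s : ℝ) (θ : Fin N → ℝ) (K : ℕ) :
    |cg s θ - ∑ k ∈ Finset.range (K + 1), ((-1) ^ k / k.factorial : ℝ) *
      ∑ e : Fin (k + 1) ↪ Fin N, S9_F N k s (fun a => θ (e a))|
      ≤ (∑ e : Fin (K + 1 + 1) ↪ Fin N, S9_F N (K + 1) s (fun a => θ (e a))) /
        (K + 1).factorial := by
  classical
  simp only [s08_count]
  have h3 : ∑ k ∈ Finset.range (K + 1), ((-1) ^ k / k.factorial : ℝ) *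
      ∑ p, (((Finset.univ.filter fun j => j ≠ p ∧ gm N (θ p - θ j) ≤ s).card.descFactorial k : ℕ) : ℝ)
      = ∑ p, ∑ k ∈ Finset.range (K + 1), ((-1) ^ k / k.factorial : ℝ) *
        (((Finset.univ.filter fun j => j ≠ p ∧ gm N (θ p - θ j) ≤ s).card.descFactorial k : ℕ) : ℝ) := by
    rw [Finset.sum_comm]
    exact Finset.sum_congr rfl fun k _ => by rw [Finset.mul_sum]
  have h4 : cg s θ = ∑ p, if (Finset.univ.filter fun j => j ≠ p ∧ gm N (θ p - θ j) ≤ s).card = 0
      then (1 : ℝ) else 0 := by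
    unfold cg
    refine Finset.sum_congr rfl fun p _ => ?_
    congr 1
    rw [Finset.card_eq_zero, Finset.filter_eq_empty_iff]
    simp only [eq_iff_iff]
    constructor
    · intro h j _ hj
      exact absurd (h j hj.1) (not_lt.2 hj.2)
    · intro h j hj
      by_contra h4
      exact h (Finset.mem_univ j) ⟨hj, not_lt.1 h4⟩
  rw [h3, h4, ← Finset.sum_sub_distrib, Finset.sum_div]
  refine (Finset.abs_sum_le_sum_abs _ _).trans (Finset.sum_le_sum fun p _ => ?_)
  exact s08_bonf _ K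

theorem s08_cl {n k : ℕ} (hn : 0 < n) (s : ℝ) (hs : 0 ≤ s) (x : Fin (k + 1) → ℝ)
    (hx : S9_F (n * 2) k s x ≠ 0) : cl n s x := by
  have hn0 : (0 : ℝ) < n := by exact_mod_cast hn
  have hpi := Real.pi_pos
  intro i
  refine Fin.cases ?_ (fun i => ?_) i
  · unfold cd
    simp [hs]
  · have h1 : gm (n * 2) (x 0 - x i.succ) ≤ s := by
      by_contra h
      apply hx
      unfold S9_F
      exact Finset.prod_eq_zero (Finset.mem_univ i) (if_neg h)
    have h0 : 0 ≤ gm (n * 2) (x 0 - x i.succ) := by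
      unfold gm
      have := Int.fract_lt_one (-((x 0 - x i.succ) / (2 * Real.pi)))
      have h2 : (0 : ℝ) ≤ ((n * 2 : ℕ) : ℝ) := Nat.cast_nonneg _
      exact mul_nonneg h2 (by linarith)
    set ρ : ℝ := n / Real.pi * (x i.succ - x 0) with hρ
    set j : ℤ := 1 + ⌊-((x 0 - x i.succ) / (2 * Real.pi))⌋ with hj
    have h3 : ρ = 2 * n * j - gm (n * 2) (x 0 - x i.succ) := by
      unfold gm
      rw [Int.fract, hρ, hj]
      push_cast
      field_simp
      ring
    have h4 : cd n ρ ≤ |ρ - 2 * n * j| := by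
      unfold cd
      have h5 := round_le (ρ / (2 * n)) j
      have h6 : ∀ z : ℝ, |ρ - 2 * n * z| = 2 * n * |ρ / (2 * n) - z| := by
        intro z
        have h7 : (0 : ℝ) < 2 * n := by positivity
        rw [← abs_of_pos h7, ← abs_mul, abs_of_pos h7]
        congr 1
        field_simp
      rw [h6, h6]
      exact mul_le_mul_of_nonneg_left h5 (by positivity)
    refine h4.trans ?_
    rw [h3, sub_sub_cancel_left, abs_neg, abs_of_nonneg h0]
    exact h1

/-- the normalised sum. -/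
noncomputable def s08_C (n k : ℕ) (s : ℝ) (θ : Fin (n * 2) → ℝ) : ℝ :=
  1 / (n * 2 : ℝ) * ∑ e : Fin (k + 1) ↪ Fin (n * 2), S9_F (n * 2) k s (fun a => θ (e a))

/-- its mean. -/
noncomputable def s08_M (n k : ℕ) (s : ℝ) : ℝ :=
  1 / (n * 2 : ℝ) * ∫ x, S9_F (n * 2) k s x * rq n x ∂(cube (Fin (k + 1)))

theorem s08_C_meas (n k : ℕ) (s : ℝ) : Measurable (s08_C n k s) := by
  unfold s08_C
  exact measurable_const.mul (Finset.measurable_fun_sum _ fun e _ => S9_meas' (n * 2) k s e)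

theorem s08_C_bd (n k : ℕ) (s : ℝ) : ∃ K : ℝ, ∀ θ, |s08_C n k s θ| ≤ K := by
  refine ⟨|1 / (n * 2 : ℝ)| * Fintype.card (Fin (k + 1) ↪ Fin (n * 2)), fun θ => ?_⟩
  unfold s08_C
  rw [abs_mul]
  refine mul_le_mul_of_nonneg_left ?_ (abs_nonneg _)
  refine (Finset.abs_sum_le_sum_abs _ _).trans ?_
  calc ∑ e : Fin (k + 1) ↪ Fin (n * 2), |S9_F (n * 2) k s (fun a => θ (e a))|
      ≤ ∑ e : Fin (k + 1) ↪ Fin (n * 2), (1 : ℝ) :=
        Finset.sum_le_sum fun e _ => S9_bdd (n * 2) k s _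
    _ = _ := by simp

theorem s08_C_nonneg (n k : ℕ) (s : ℝ) (θ : Fin (n * 2) → ℝ) : 0 ≤ s08_C n k s θ := by
  unfold s08_C S9_F
  refine mul_nonneg (by positivity) (Finset.sum_nonneg fun e _ => Finset.prod_nonneg fun i _ => ?_)
  split_ifs <;> norm_num

theorem s08_EW_C {n : ℕ} (k : ℕ) (s : ℝ) : EW n (s08_C n k s) = s08_M n k s := by
  have hW := wt_int_pos (n * 2)
  unfold EW s08_M s08_C
  rw [div_eq_iff hW.ne']
  have h2 := dens_int n (S9_F (n * 2) k s) (S9_meas (n * 2) k s) 1 (S9_bdd (n * 2) k s)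
  have h1 : (fun θ : Fin (n * 2) → ℝ => 1 / (n * 2 : ℝ) *
      (∑ e : Fin (k + 1) ↪ Fin (n * 2), S9_F (n * 2) k s (fun a => θ (e a))) * wt θ) =
      fun θ => 1 / (n * 2 : ℝ) *
      ((∑ e : Fin (k + 1) ↪ Fin (n * 2), S9_F (n * 2) k s (fun a => θ (e a))) * wt θ) := by
    funext θ
    ring
  rw [h1, integral_const_mul, h2]
  ring

theorem s08_M_tn {n : ℕ} (hn : 0 < n) (k : ℕ) (s : ℝ) (h0 : 0 ≤ s) (hs : s < 2 * n) :
    ((-1) ^ k / k.factorial : ℝ) * s08_M n k s = tn n k s := by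
  have hn0 : (0 : ℝ) < n := by exact_mod_cast hn
  have h3 : ∫ x, S9_F (n * 2) k s x * rq n x ∂(cube (Fin (k + 1)))
      = 2 * n * ∫ v in univ.pi fun _ : Fin k => Ioc 0 s, rs n (Fin.cons 0 v : Fin (k + 1) → ℝ) := by
    unfold S9_F
    exact gap_int hn s h0 hs
  unfold s08_M tn
  rw [h3]
  field_simp

theorem s08_EW_mono {n : ℕ} (φ ψ : (Fin (n * 2) → ℝ) → ℝ) (hφ : Measurable φ) (hψ : Measurable ψ)
    (Kφ Kψ : ℝ) (h1 : ∀ θ, |φ θ| ≤ Kφ) (h2 : ∀ θ, |ψ θ| ≤ Kψ) (h : ∀ θ, φ θ ≤ ψ θ) :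
    EW n φ ≤ EW n ψ := by
  have hW := wt_int_pos (n * 2)
  unfold EW
  refine div_le_div_of_nonneg_right ?_ hW.le
  exact integral_mono (S15_int φ hφ Kφ h1) (S15_int ψ hψ Kψ h2)
    fun θ => mul_le_mul_of_nonneg_right (h θ) (wt_nonneg θ)

theorem s08_EW_comb {n : ℕ} (K : ℕ) (φ : (Fin (n * 2) → ℝ) → ℝ) (hφ : Measurable φ) (Kφ : ℝ)
    (h1 : ∀ θ, |φ θ| ≤ Kφ) (ψ : ℕ → (Fin (n * 2) → ℝ) → ℝ) (hψ : ∀ k, Measurable (ψ k))
    (h2 : ∀ k, ∃ Kψ, ∀ θ, |ψ k θ| ≤ Kψ) (a R : ℝ) (c : ℕ → ℝ) :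
    EW n (fun θ => φ θ * a + ∑ k ∈ Finset.range K, c k * ψ k θ + R) =
      EW n φ * a + ∑ k ∈ Finset.range K, c k * EW n (ψ k) + R := by
  have hW := wt_int_pos (n * 2)
  have hi1 := S15_int φ hφ Kφ h1
  have hi2 : ∀ k, Integrable (fun θ => ψ k θ * wt θ) (cube (Fin (n * 2))) := by
    intro k
    obtain ⟨Kψ, h3⟩ := h2 k
    exact S15_int (ψ k) (hψ k) Kψ h3
  unfold EW
  have e1 : (fun θ : Fin (n * 2) → ℝ =>
      (φ θ * a + ∑ k ∈ Finset.range K, c k * ψ k θ + R) * wt θ) = fun θ =>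
      ((φ θ * wt θ) * a + ∑ k ∈ Finset.range K, c k * (ψ k θ * wt θ)) + R * wt θ := by
    funext θ
    rw [add_mul, add_mul, Finset.sum_mul]
    congr 1
    congr 1
    · ring
    · exact Finset.sum_congr rfl fun k _ => by ring
  have hs : Integrable (fun θ => ∑ k ∈ Finset.range K, c k * (ψ k θ * wt θ))
      (cube (Fin (n * 2))) := integrable_finsetSum _ fun k _ => (hi2 k).const_mul _
  have hs1 : Integrable (fun θ => (φ θ * wt θ) * a + ∑ k ∈ Finset.range K, c k * (ψ k θ * wt θ))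
      (cube (Fin (n * 2))) := (hi1.mul_const a).add hs
  rw [e1, integral_add hs1 ((S15_wt_int (n * 2)).const_mul R),
    integral_add (hi1.mul_const a) hs, integral_mul_const, integral_const_mul,
    integral_finsetSum _ fun k _ => (hi2 k).const_mul _]
  rw [Finset.sum_congr rfl fun k _ => integral_const_mul (c k) _]
  rw [add_div, add_div, Finset.sum_div, mul_div_assoc R, div_self hW.ne', mul_one]
  congr 1
  congr 1
  · ring
  · exact Finset.sum_congr rfl fun k _ => by ring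

theorem s08_main {n : ℕ} (hn : 0 < n) (s : ℝ) (h0 : 0 ≤ s) (hs : s < 2 * n) (K : ℕ) :
    EW n (fun θ => |1 / ((n * 2 : ℕ) : ℝ) * cg s θ - gE s|) ≤ |tn n (K + 1) s| +
      ∑ k ∈ Finset.range (K + 1), (1 / k.factorial : ℝ) *
        EW n (fun θ => |s08_C n k s θ - s08_M n k s|) +
      |∑ k ∈ Finset.range (K + 1), tn n k s - gE s| := by
  have hn0 : (0 : ℝ) < n := by exact_mod_cast hn
  have hN : 2 ≤ n * 2 := by omega
  set R : ℝ := |∑ k ∈ Finset.range (K + 1), tn n k s - gE s| with hR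
  set a : ℝ := 1 / (K + 1).factorial with ha
  have ha0 : 0 ≤ a := by positivity
  have hpt : ∀ θ : Fin (n * 2) → ℝ, |1 / ((n * 2 : ℕ) : ℝ) * cg s θ - gE s| ≤
      s08_C n (K + 1) s θ * a + ∑ k ∈ Finset.range (K + 1), (1 / k.factorial : ℝ) *
        |s08_C n k s θ - s08_M n k s| + R := by
    intro θ
    have h1 := s08_cg s θ K
    have h2 : |1 / ((n * 2 : ℕ) : ℝ) * cg s θ - ∑ k ∈ Finset.range (K + 1),
        ((-1) ^ k / k.factorial : ℝ) * s08_C n k s θ| ≤ s08_C n (K + 1) s θ * a := by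
      have h3 : 1 / ((n * 2 : ℕ) : ℝ) * cg s θ - ∑ k ∈ Finset.range (K + 1),
          ((-1) ^ k / k.factorial : ℝ) * s08_C n k s θ = 1 / (n * 2 : ℝ) * (cg s θ -
          ∑ k ∈ Finset.range (K + 1), ((-1) ^ k / k.factorial : ℝ) *
          ∑ e : Fin (k + 1) ↪ Fin (n * 2), S9_F (n * 2) k s (fun a => θ (e a))) := by
        rw [mul_sub, Finset.mul_sum]
        push_cast
        congr 1
        refine Finset.sum_congr rfl fun k _ => ?_
        unfold s08_C
        ring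
      rw [h3, abs_mul, abs_of_nonneg (by positivity : (0 : ℝ) ≤ 1 / (n * 2 : ℝ))]
      refine (mul_le_mul_of_nonneg_left h1 (by positivity)).trans (le_of_eq ?_)
      unfold s08_C
      rw [ha]
      ring
    have h4 : |∑ k ∈ Finset.range (K + 1), ((-1) ^ k / k.factorial : ℝ) * s08_C n k s θ -
        ∑ k ∈ Finset.range (K + 1), tn n k s| ≤ ∑ k ∈ Finset.range (K + 1),
        (1 / k.factorial : ℝ) * |s08_C n k s θ - s08_M n k s| := by
      rw [← Finset.sum_sub_distrib]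
      refine (Finset.abs_sum_le_sum_abs _ _).trans (Finset.sum_le_sum fun k _ => ?_)
      rw [← s08_M_tn hn k s h0 hs, ← mul_sub, abs_mul, abs_div, abs_pow, abs_neg, abs_one,
        one_pow, Nat.abs_cast]
    calc |1 / ((n * 2 : ℕ) : ℝ) * cg s θ - gE s|
        = |(1 / ((n * 2 : ℕ) : ℝ) * cg s θ - ∑ k ∈ Finset.range (K + 1),
            ((-1) ^ k / k.factorial : ℝ) * s08_C n k s θ) +
          (∑ k ∈ Finset.range (K + 1), ((-1) ^ k / k.factorial : ℝ) * s08_C n k s θ -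
            ∑ k ∈ Finset.range (K + 1), tn n k s) +
          (∑ k ∈ Finset.range (K + 1), tn n k s - gE s)| := by congr 1; ring
      _ ≤ _ := by
          refine (abs_add_le _ _).trans (add_le_add ((abs_add_le _ _).trans (add_le_add h2 h4)) ?_)
          exact le_of_eq hR.symm
  obtain ⟨K1, hK1⟩ := s08_C_bd n (K + 1) s
  have hm2 : ∀ k, Measurable fun θ => |s08_C n k s θ - s08_M n k s| := fun k =>
    ((s08_C_meas n k s).sub_const _).abs
  have hb2 : ∀ k, ∃ Kψ, ∀ θ, |(|s08_C n k s θ - s08_M n k s|)| ≤ Kψ := by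
    intro k
    obtain ⟨K2, hK2⟩ := s08_C_bd n k s
    refine ⟨K2 + |s08_M n k s|, fun θ => ?_⟩
    rw [abs_abs]
    exact (abs_sub _ _).trans (add_le_add (hK2 θ) le_rfl)
  have hcomb := s08_EW_comb (n := n) (K + 1) (s08_C n (K + 1) s) (s08_C_meas n (K + 1) s) K1 hK1
    (fun k θ => |s08_C n k s θ - s08_M n k s|) hm2 hb2 a R (fun k => (1 / k.factorial : ℝ))
  have hmono : EW n (fun θ => |1 / ((n * 2 : ℕ) : ℝ) * cg s θ - gE s|) ≤ EW n (fun θ =>
      s08_C n (K + 1) s θ * a + ∑ k ∈ Finset.range (K + 1), (1 / k.factorial : ℝ) *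
        |s08_C n k s θ - s08_M n k s| + R) := by
    choose K3 hK3 using hb2
    refine s08_EW_mono _ _ (((S15_cg_meas hN s).sub_const _).abs) ?_ (1 + |gE s|)
      (K1 * a + ∑ k ∈ Finset.range (K + 1), (1 / k.factorial : ℝ) * K3 k + R) ?_ ?_ hpt
    · exact (((s08_C_meas n (K + 1) s).mul_const a).add
        (Finset.measurable_fun_sum _ fun k _ => (hm2 k).const_mul _)).add_const R
    · intro θ
      rw [abs_abs]
      exact (abs_sub _ _).trans (add_le_add (S15_cg_bd hN s θ) le_rfl)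
    · intro θ
      have hR0 : 0 ≤ R := abs_nonneg _
      have h5 : 0 ≤ s08_C n (K + 1) s θ * a := mul_nonneg (s08_C_nonneg n (K + 1) s θ) ha0
      have h6 : 0 ≤ ∑ k ∈ Finset.range (K + 1), (1 / k.factorial : ℝ) *
          |s08_C n k s θ - s08_M n k s| :=
        Finset.sum_nonneg fun k _ => mul_nonneg (by positivity) (abs_nonneg _)
      rw [abs_of_nonneg (by linarith)]
      refine add_le_add (add_le_add ?_ (Finset.sum_le_sum fun k _ => ?_)) le_rfl
      · exact mul_le_mul_of_nonneg_right ((le_abs_self _).trans (hK1 θ)) ha0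
      · exact mul_le_mul_of_nonneg_left ((le_abs_self _).trans (hK3 k θ)) (by positivity)
  refine hmono.trans ?_
  rw [hcomb]
  refine add_le_add (add_le_add ?_ le_rfl) le_rfl
  rw [s08_EW_C]
  have h7 := s08_M_tn hn (K + 1) s h0 hs
  rw [← h7, abs_mul, abs_div, abs_pow, abs_neg, abs_one, one_pow, Nat.abs_cast, ← ha, mul_comm]
  exact mul_le_mul_of_nonneg_left (le_abs_self _) ha0

theorem sa_gap (s : ℝ) (hs : 0 ≤ s) :
    Tendsto (fun n : ℕ => EW n fun θ => |1 / ((n * 2 : ℕ) : ℝ) * cg s θ - gE s|) atTop (𝓝 0) := by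
  rw [Metric.tendsto_nhds]
  intro ε hε
  have hb := (bd_sum s hs).tendsto_atTop_zero
  have hb1 : ∀ᶠ k : ℕ in atTop, s ^ k / k.factorial * ((4 + s) * √(2 * (k + 1))) ^ (k + 1) < ε / 4 :=
    hb.eventually (gt_mem_nhds (by positivity))
  have hg := (gE_sum s hs).tendsto_sum_nat
  have hg1 : ∀ᶠ K : ℕ in atTop, |∑ k ∈ Finset.range K, tg k s - gE s| < ε / 4 := by
    have := (Metric.tendsto_nhds.1 hg) (ε / 4) (by positivity)
    filter_upwards [this] with K hK
    rwa [Real.dist_eq] at hK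
  obtain ⟨K, hK1, hK2⟩ : ∃ K : ℕ,
      s ^ (K + 1) / (K + 1).factorial * ((4 + s) * √(2 * ((K + 1 : ℕ) + 1))) ^ (K + 1 + 1) < ε / 4 ∧
      |∑ k ∈ Finset.range (K + 1), tg k s - gE s| < ε / 4 := by
    obtain ⟨K0, hK0⟩ := (hb1.and hg1).exists_forall_of_atTop
    have := hK0 (K0 + 1) (by omega)
    exact ⟨K0, by exact_mod_cast this.1, this.2⟩
  -- self-averaging of the finitely many sums
  have hC : ∀ k : ℕ, Tendsto (fun n : ℕ => (1 / k.factorial : ℝ) *
      EW n (fun θ => |s08_C n k s θ - s08_M n k s|)) atTop (𝓝 0) := by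
    intro k
    obtain ⟨C, hC0, hC⟩ := sa_F k s 1 hs zero_le_one
    have hlim : Tendsto (fun n : ℕ => (1 / k.factorial : ℝ) * (C * (n : ℝ) ^ (-(1 / 4) : ℝ)))
        atTop (𝓝 0) := by
      have h1 : Tendsto (fun n : ℕ => (n : ℝ) ^ (-(1 / 4) : ℝ)) atTop (𝓝 0) :=
        (tendsto_rpow_neg_atTop (by norm_num : (0 : ℝ) < 1 / 4)).comp tendsto_natCast_atTop_atTop
      have h2 := (h1.const_mul C).const_mul (1 / k.factorial : ℝ)
      simpa using h2
    refine squeeze_zero' (Eventually.of_forall fun n => ?_) ?_ hlim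
    · refine mul_nonneg (by positivity) ?_
      unfold EW
      exact div_nonneg (integral_nonneg fun θ => mul_nonneg (abs_nonneg _) (wt_nonneg θ))
        (wt_int_pos (n * 2)).le
    · filter_upwards [eventually_gt_atTop 0] with n hn
      refine mul_le_mul_of_nonneg_left ?_ (by positivity)
      exact hC n hn (S9_F (n * 2) k s) (S9_meas (n * 2) k s) (S9_bdd (n * 2) k s)
        (fun x hx => s08_cl hn s hs x hx)
  have hsum : Tendsto (fun n : ℕ => ∑ k ∈ Finset.range (K + 1), (1 / k.factorial : ℝ) *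
      EW n (fun θ => |s08_C n k s θ - s08_M n k s|)) atTop (𝓝 0) := by
    have := tendsto_finsetSum (Finset.range (K + 1)) fun k _ => hC k
    simpa using this
  have htn : Tendsto (fun n : ℕ => ∑ k ∈ Finset.range (K + 1), tn n k s) atTop
      (𝓝 (∑ k ∈ Finset.range (K + 1), tg k s)) :=
    tendsto_finsetSum (Finset.range (K + 1)) fun k _ => tn_lim k s hs
  have h3 := (Metric.tendsto_nhds.1 hsum) (ε / 4) (by positivity)
  have h4 := (Metric.tendsto_nhds.1 htn) (ε / 4) (by positivity)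
  filter_upwards [h3, h4, eventually_gt_atTop 0, eventually_gt_atTop ⌈s⌉₊] with n h3 h4 hn hn2
  have hsn : s < 2 * n := by
    have h5 := Nat.le_ceil s
    have h6 : ((⌈s⌉₊ : ℕ) : ℝ) < n := by exact_mod_cast hn2
    have h7 : (0 : ℝ) < n := by exact_mod_cast hn
    linarith
  rw [Real.dist_eq, sub_zero] at h3
  rw [Real.dist_eq] at h4
  have hmain := s08_main hn s hs hsn K
  have hnn : 0 ≤ EW n (fun θ => |1 / ((n * 2 : ℕ) : ℝ) * cg s θ - gE s|) := by
    unfold EW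
    exact div_nonneg (integral_nonneg fun θ => mul_nonneg (abs_nonneg _) (wt_nonneg θ))
      (wt_int_pos (n * 2)).le
  rw [Real.dist_eq, sub_zero, abs_of_nonneg hnn]
  have h8 := (tn_bdd (k := K + 1) hn s hs).1
  have h9 : |∑ k ∈ Finset.range (K + 1), tn n k s - gE s| ≤
      |∑ k ∈ Finset.range (K + 1), tn n k s - ∑ k ∈ Finset.range (K + 1), tg k s| +
      |∑ k ∈ Finset.range (K + 1), tg k s - gE s| := abs_sub_le _ _ _
  have h10 := le_abs_self (∑ k ∈ Finset.range (K + 1), (1 / k.factorial : ℝ) *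
      EW n (fun θ => |s08_C n k s θ - s08_M n k s|))
  linarith

end Ty
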