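import Pool.Agent.LibTy70.S06
import Pool.Agent.LibTy70.S08

/-! Row S09: self-averaging of the spacings of the COE. Plan: `G θ = |pspac N f (phases (dr θ)) - m|` is continuous, periodic
(sp_cont), symmetric (ph_perm); `pspac N f (phases (sy A)) = pspac N f (phases (dr (φ A)))` (ph_angles): S06. Almost every `θ` is
`Dist` (used in CP_S6), there `pspac = (1/N) ∑_p f (gp θ p)` (ph_gap), and `step_f` gives
`|(1/N)∑ f(gp) - (f 0 + ∑_{i<M} (f((i+1)h) - f(ih)) (1/N) cg (ih) θ)| ≤ L h + 2K (1/N) cg (Mh) θ` (S15_cg); `law_step` for `∫ f dμ`.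
So `limsup E|pspac - ∫ f dμ| ≤ 2 L h + 4 K gE(Mh)` by S08; `gE(Mh) ≤ 1/(Mh)` (gE_mono). -/

open MeasureTheory Set Filter Topology

namespace Ty

open QGr COE

theorem s09_step {N : ℕ} (hN : 2 ≤ N) (f : ℝ → ℝ) (L K h : ℝ) (hh : 0 < h) (hL0 : 0 ≤ L)
    (hL : ∀ u v, |f u - f v| ≤ L * dist u v) (hK : ∀ v, |f v| ≤ K) (M : ℕ) (θ : Fin N → ℝ) :
    |(1 / N * ∑ p, f (gp θ p)) - (f 0 + ∑ i ∈ Finset.range M,
      (f ((i + 1) * h) - f (i * h)) * (1 / N * cg (i * h) θ))| ≤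
      L * h + 2 * K * (1 / N * cg (M * h) θ) := by
  have hN0 : (0 : ℝ) < N := by exact_mod_cast (by omega : 0 < N)
  have h1 : (1 / N * ∑ p, f (gp θ p)) - (f 0 + ∑ i ∈ Finset.range M,
      (f ((i + 1) * h) - f (i * h)) * (1 / N * cg (i * h) θ)) =
      1 / N * ∑ p, (f (gp θ p) - (f 0 + ∑ i ∈ Finset.range M, (f ((i + 1) * h) - f (i * h)) *
        if i * h < gp θ p then 1 else 0)) := by
    rw [Finset.sum_sub_distrib, Finset.sum_add_distrib, Finset.sum_comm, mul_sub, mul_add]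
    congr 1
    congr 1
    · rw [Finset.sum_const, Finset.card_univ, Fintype.card_fin, nsmul_eq_mul]
      field_simp
    · rw [Finset.mul_sum]
      refine Finset.sum_congr rfl fun i _ => ?_
      rw [S15_cg hN, ← Finset.mul_sum]
      ring
  rw [h1, abs_mul, abs_of_pos (by positivity : 0 < 1 / (N : ℝ))]
  have h2 : |∑ p, (f (gp θ p) - (f 0 + ∑ i ∈ Finset.range M, (f ((i + 1) * h) - f (i * h)) *
        if i * h < gp θ p then 1 else 0))| ≤
      ∑ p, (L * h + 2 * K * if M * h < gp θ p then 1 else 0) := by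
    refine (Finset.abs_sum_le_sum_abs _ _).trans (Finset.sum_le_sum fun p _ => ?_)
    exact step_f f L K h hh hL0 hL hK M (gp θ p) (gp_bdd hN θ p).1.le
  have h3 : 1 / (N : ℝ) * ∑ p, (L * h + 2 * K * if M * h < gp θ p then 1 else 0) =
      L * h + 2 * K * (1 / N * cg (M * h) θ) := by
    have e3 : ∑ p : Fin N, (2 * K * if M * h < gp θ p then (1 : ℝ) else 0) =
        2 * K * ∑ p : Fin N, if M * h < gp θ p then (1 : ℝ) else 0 := by
      rw [Finset.mul_sum]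
    rw [Finset.sum_add_distrib, e3, S15_cg hN, Finset.sum_const,
      Finset.card_univ, Fintype.card_fin, nsmul_eq_mul]
    field_simp
  rw [← h3]
  exact mul_le_mul_of_nonneg_left h2 (by positivity)

theorem s09_pt {N : ℕ} (hN : 2 ≤ N) (μ : Measure ℝ) (h1 : IsProbabilityMeasure μ)
    (hμ : ∀ s, 0 ≤ s → μ.real (Ioi s) = gE s) (f : ℝ → ℝ) (L K h : ℝ) (hh : 0 < h) (hL0 : 0 ≤ L)
    (hL : ∀ u v, |f u - f v| ≤ L * dist u v) (hK : ∀ v, |f v| ≤ K) (M : ℕ) (θ : Fin N → ℝ) :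
    |(1 / N * ∑ p, f (gp θ p)) - ∫ x, f x ∂μ| ≤
      (2 * (L * h) + 4 * K * gE (M * h)) + (2 * K * |1 / N * cg (M * h) θ - gE (M * h)| +
      ∑ i ∈ Finset.range M, |f ((i + 1) * h) - f (i * h)| * |1 / N * cg (i * h) θ - gE (i * h)|) := by
  have hK0 : 0 ≤ K := (abs_nonneg _).trans (hK 0)
  have a1 := s09_step hN f L K h hh hL0 hL hK M θ
  have a2 := law_step μ h1 hμ f L K h hh hL0 hL hK M
  have a3 : |(f 0 + ∑ i ∈ Finset.range M, (f ((i + 1) * h) - f (i * h)) * (1 / N * cg (i * h) θ)) -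
      (f 0 + ∑ i ∈ Finset.range M, (f ((i + 1) * h) - f (i * h)) * gE (i * h))| ≤
      ∑ i ∈ Finset.range M, |f ((i + 1) * h) - f (i * h)| * |1 / N * cg (i * h) θ - gE (i * h)| := by
    rw [add_sub_add_left_eq_sub, ← Finset.sum_sub_distrib]
    refine (Finset.abs_sum_le_sum_abs _ _).trans (Finset.sum_le_sum fun i _ => ?_)
    rw [← mul_sub, abs_mul]
  have a4 : 2 * K * (1 / N * cg (M * h) θ) ≤ 2 * K * gE (M * h) + 2 * K * |1 / N * cg (M * h) θ - gE (M * h)| := by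
    rw [← mul_add]
    refine mul_le_mul_of_nonneg_left ?_ (by positivity)
    linarith [le_abs_self (1 / N * cg (M * h) θ - gE (M * h))]
  rw [abs_le] at a1 a2 a3 ⊢
  constructor <;> linarith [a1.1, a1.2, a2.1, a2.2, a3.1, a3.2]

theorem s09_EW_le {n : ℕ} (φ ψ : (Fin (n * 2) → ℝ) → ℝ)
    (h1 : Integrable (fun θ => φ θ * wt θ) (cube (Fin (n * 2))))
    (h2 : Integrable (fun θ => ψ θ * wt θ) (cube (Fin (n * 2))))
    (h : ∀ᵐ θ ∂(cube (Fin (n * 2))), φ θ ≤ ψ θ) : EW n φ ≤ EW n ψ := by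
  unfold EW
  refine div_le_div_of_nonneg_right ?_ (wt_int_pos (n * 2)).le
  refine integral_mono_ae h1 h2 ?_
  filter_upwards [h] with θ hθ
  exact mul_le_mul_of_nonneg_right hθ (wt_nonneg θ)

theorem s09_EW_lin {n : ℕ} (M : ℕ) (a b : ℝ) (c : ℕ → ℝ) (φ : (Fin (n * 2) → ℝ) → ℝ)
    (ψ : ℕ → (Fin (n * 2) → ℝ) → ℝ)
    (h1 : Integrable (fun θ => φ θ * wt θ) (cube (Fin (n * 2))))
    (h2 : ∀ i, Integrable (fun θ => ψ i θ * wt θ) (cube (Fin (n * 2)))) :
    Integrable (fun θ => (a + (b * φ θ + ∑ i ∈ Finset.range M, c i * ψ i θ)) * wt θ) (cube (Fin (n * 2))) ∧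
    EW n (fun θ => a + (b * φ θ + ∑ i ∈ Finset.range M, c i * ψ i θ)) =
      a + (b * EW n φ + ∑ i ∈ Finset.range M, c i * EW n (ψ i)) := by
  have hW := wt_int_pos (n * 2)
  have e1 : ∀ θ : Fin (n * 2) → ℝ, (a + (b * φ θ + ∑ i ∈ Finset.range M, c i * ψ i θ)) * wt θ =
      a * wt θ + (b * (φ θ * wt θ) + ∑ i ∈ Finset.range M, c i * (ψ i θ * wt θ)) := by
    intro θ
    rw [add_mul, add_mul, Finset.sum_mul]
    congr 1
    congr 1
    · ring
    · refine Finset.sum_congr rfl fun i _ => ?_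
      ring
  have i1 : Integrable (fun θ : Fin (n * 2) → ℝ => a * wt θ) (cube (Fin (n * 2))) :=
    (S15_wt_int (n * 2)).const_mul a
  have i2 : Integrable (fun θ : Fin (n * 2) → ℝ => b * (φ θ * wt θ)) (cube (Fin (n * 2))) := h1.const_mul b
  have i3 : Integrable (fun θ : Fin (n * 2) → ℝ => ∑ i ∈ Finset.range M, c i * (ψ i θ * wt θ))
      (cube (Fin (n * 2))) := integrable_finsetSum _ fun i _ => (h2 i).const_mul _
  have i4 : Integrable (fun θ : Fin (n * 2) → ℝ => b * (φ θ * wt θ) +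
      ∑ i ∈ Finset.range M, c i * (ψ i θ * wt θ)) (cube (Fin (n * 2))) := i2.add i3
  simp only [e1]
  refine ⟨i1.add i4, ?_⟩
  unfold EW
  simp only [e1]
  rw [integral_add i1 i4, integral_add i2 i3, integral_const_mul, integral_const_mul,
    integral_finsetSum _ fun i _ => (h2 i).const_mul _]
  simp only [integral_const_mul]
  rw [add_div, add_div, mul_div_cancel_right₀ _ hW.ne', mul_div_assoc, Finset.sum_div]
  congr 2
  refine Finset.sum_congr rfl fun i _ => ?_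
  rw [mul_div_assoc]

theorem s09_E {n : ℕ} (hn : 0 < n) (f : ℝ → ℝ) (L K m : ℝ) (hL0 : 0 ≤ L)
    (hL : ∀ u v, |f u - f v| ≤ L * dist u v) (hK : ∀ v, |f v| ≤ K) :
    ∫ A : Uni (n * 2), |pspac (n * 2) f (phases (sy A).1) - m| ∂(haarU (n * 2)) =
      EW n fun θ => |1 / ((n * 2 : ℕ) : ℝ) * ∑ p, f (gp θ p) - m| := by
  have hN0 : 0 < n * 2 := by omega
  have hN : 2 ≤ n * 2 := by omega
  choose φ hφ1 hφ2 using fun A : Uni (n * 2) => ph_angles hN0 (sy A)
  obtain ⟨hc, hp⟩ := sp_cont hN0 f L hL0 hL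
  have h1 := weyl_sym hn (fun θ : Fin (n * 2) → ℝ => |pspac (n * 2) f (phases (dr θ).1) - m|)
    (hc.sub continuous_const).abs
    (fun x j => congrArg (fun z => |z - m|) (hp x j))
    (fun σ x => congrArg (fun z => |z - m|) (ph_perm hN0 x σ f L hL0 hL))
    φ (fun A k => hφ1 A k)
  have h2 : ∫ A : Uni (n * 2), |pspac (n * 2) f (phases (sy A).1) - m| ∂(haarU (n * 2)) =
      ∫ A : Uni (n * 2), |pspac (n * 2) f (phases (dr (φ A)).1) - m| ∂(haarU (n * 2)) := by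
    refine integral_congr_ae (Eventually.of_forall fun A => ?_)
    simp only
    rw [hφ2 A f L hL0 hL]
  rw [h2, h1]
  unfold EW
  congr 1
  refine integral_congr_ae ?_
  filter_upwards [ae_dist (n * 2)] with θ hθ
  rw [ph_gap hN θ hθ f L hL0 hL]

theorem sa_spac (μ : Measure ℝ) (h1 : IsProbabilityMeasure μ)
    (hμ : ∀ s, 0 ≤ s → μ.real (Ioi s) = gE s) (f : ℝ → ℝ) (L K : ℝ) (hL0 : 0 ≤ L)
    (hL : ∀ u v, |f u - f v| ≤ L * dist u v) (hK : ∀ v, |f v| ≤ K) :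
    Tendsto (fun n : ℕ => ∫ A : Uni (n * 2), |pspac (n * 2) f (phases (sy A).1) - ∫ x, f x ∂μ|
      ∂(haarU (n * 2))) atTop (𝓝 0) := by
  have hK0 : 0 ≤ K := (abs_nonneg _).trans (hK 0)
  have hfc := S15_fcont f L hL0 hL
  obtain ⟨g0, g1, g2, g3⟩ := gE_mono
  rw [Metric.tendsto_nhds]
  intro ε hε
  set h : ℝ := ε / (8 * (L + 1)) with hh
  have hhp : 0 < h := by positivity
  have hLh : 2 * (L * h) ≤ ε / 4 := by
    have h1 : (L + 1) * h = ε / 8 := by
      rw [hh]; field_simp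
    nlinarith
  set M : ℕ := ⌈16 * K / (ε * h)⌉₊ + 1 with hM
  have hM1 : 16 * K / (ε * h) ≤ M := by
    rw [hM]
    push_cast
    linarith [Nat.le_ceil (16 * K / (ε * h))]
  have hMp : (0:ℝ) < M := by
    rw [hM]; positivity
  have hMh : 0 < M * h := by positivity
  have hKM : 4 * K * (1 / (M * h)) ≤ ε / 4 := by
    rw [div_le_iff₀ (by positivity)] at hM1
    rw [mul_one_div, div_le_iff₀ hMh]
    nlinarith
  have hKM2 : 4 * K * gE (M * h) ≤ ε / 4 :=
    (mul_le_mul_of_nonneg_left (g3 _ hMh) (by positivity)).trans hKM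
  have hT : Tendsto (fun n : ℕ => (2 * (L * h) + 4 * K * gE (M * h)) +
      (2 * K * EW n (fun θ => |1 / ((n * 2 : ℕ) : ℝ) * cg (M * h) θ - gE (M * h)|) +
      ∑ i ∈ Finset.range M, |f ((i + 1) * h) - f (i * h)| *
        EW n (fun θ => |1 / ((n * 2 : ℕ) : ℝ) * cg (i * h) θ - gE (i * h)|)))
      atTop (𝓝 ((2 * (L * h) + 4 * K * gE (M * h)) + (2 * K * 0 +
        ∑ i ∈ Finset.range M, |f ((i + 1) * h) - f (i * h)| * 0))) := by
    refine tendsto_const_nhds.add ((Tendsto.const_mul _ (sa_gap (M * h) hMh.le)).add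
      (tendsto_finsetSum _ fun i _ => ?_))
    exact (sa_gap (i * h) (by positivity)).const_mul _
  simp only [mul_zero, Finset.sum_const_zero, add_zero] at hT
  rw [Metric.tendsto_nhds] at hT
  filter_upwards [hT (ε / 4) (by linarith), eventually_ge_atTop 1] with n hn hn1
  have hn0 : 0 < n := hn1
  have hN : 2 ≤ n * 2 := by omega
  have hmeas : ∀ s : ℝ, 0 ≤ s → Integrable (fun θ : Fin (n * 2) → ℝ =>
      |1 / ((n * 2 : ℕ) : ℝ) * cg s θ - gE s| * wt θ) (cube (Fin (n * 2))) := by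
    intro s hs
    refine S15_int _ ((S15_cg_meas hN s).sub_const _).abs 2 fun θ => ?_
    rw [abs_abs]
    have b1 := S15_cg_bd hN s θ
    have b2 := g1 s hs
    rw [abs_le] at b1 ⊢
    constructor <;> linarith [b1.1, b1.2, b2.1, b2.2]
  have hlin := s09_EW_lin (n := n) M (2 * (L * h) + 4 * K * gE (M * h)) (2 * K)
    (fun i => |f ((i + 1) * h) - f (i * h)|)
    (fun θ => |1 / ((n * 2 : ℕ) : ℝ) * cg (M * h) θ - gE (M * h)|)
    (fun i θ => |1 / ((n * 2 : ℕ) : ℝ) * cg (i * h) θ - gE (i * h)|)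
    (hmeas _ hMh.le) (fun i => hmeas _ (by positivity))
  have hE := s09_E hn0 f L K (∫ x, f x ∂μ) hL0 hL hK
  have hle : EW n (fun θ => |1 / ((n * 2 : ℕ) : ℝ) * ∑ p, f (gp θ p) - ∫ x, f x ∂μ|) ≤
      EW n (fun θ => (2 * (L * h) + 4 * K * gE (M * h)) +
        (2 * K * |1 / ((n * 2 : ℕ) : ℝ) * cg (M * h) θ - gE (M * h)| +
        ∑ i ∈ Finset.range M, |f ((i + 1) * h) - f (i * h)| *
          |1 / ((n * 2 : ℕ) : ℝ) * cg (i * h) θ - gE (i * h)|)) := by
    refine s09_EW_le _ _ ?_ hlin.1 (Eventually.of_forall fun θ => ?_)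
    · have hm : Measurable fun θ : Fin (n * 2) → ℝ =>
          |1 / ((n * 2 : ℕ) : ℝ) * ∑ p, f (gp θ p) - ∫ x, f x ∂μ| :=
        ((measurable_const.mul (Finset.measurable_sum _ fun p _ =>
          hfc.measurable.comp (gp_meas p))).sub_const _).abs
      refine S15_int _ hm ((2 * (L * h) + 4 * K * gE (M * h)) + (2 * K * 2 +
        ∑ i ∈ Finset.range M, |f ((i + 1) * h) - f (i * h)| * 2)) fun θ => ?_
      rw [abs_abs]
      refine (s09_pt hN μ h1 hμ f L K h hhp hL0 hL hK M θ).trans ?_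
      have b : ∀ s : ℝ, 0 ≤ s → |1 / ((n * 2 : ℕ) : ℝ) * cg s θ - gE s| ≤ 2 := by
        intro s hs
        have b1 := S15_cg_bd hN s θ
        have b2 := g1 s hs
        rw [abs_le] at b1 ⊢
        constructor <;> linarith [b1.1, b1.2, b2.1, b2.2]
      refine add_le_add le_rfl (add_le_add (mul_le_mul_of_nonneg_left (b _ hMh.le) (by positivity)) ?_)
      refine Finset.sum_le_sum fun i _ => mul_le_mul_of_nonneg_left (b _ (by positivity)) (abs_nonneg _)
    · exact s09_pt hN μ h1 hμ f L K h hhp hL0 hL hK M θ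
  rw [hlin.2] at hle
  rw [Real.dist_eq] at hn ⊢
  rw [sub_zero, hE, abs_of_nonneg]
  · rw [abs_lt] at hn
    linarith [hn.2]
  · rw [← hE]
    exact integral_nonneg fun A => abs_nonneg _

end Ty
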