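import Pool.Agent.LibTy70.Defs
import Pool.Agent.LibQGr.R_PLP

/-! Row T03: the Frobenius norm and `An`. -/

open MeasureTheory Set Filter Topology

namespace Ty

open QGr

variable {N : ℕ}

section T03aux

attribute [local instance] Matrix.frobeniusNormedAddCommGroup Matrix.frobeniusNormedSpace
  Matrix.frobeniusNormedRing

theorem T03_fro_eq (K : Mat N) : fro K = ‖K‖ := by
  rw [Matrix.frobenius_norm_def, fro, Real.sqrt_eq_rpow]
  simp_rw [Real.rpow_two]

theorem T03_add (A B : Mat N) : fro (A + B) ≤ fro A + fro B := by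
  simp only [T03_fro_eq]; exact norm_add_le A B

theorem T03_sum {ι : Type} (s : Finset ι) (A : ι → Mat N) :
    fro (∑ i ∈ s, A i) ≤ ∑ i ∈ s, fro (A i) := by
  simp only [T03_fro_eq]; exact norm_sum_le s A

theorem T03_smul (c : ℂ) (A : Mat N) : fro (c • A) = ‖c‖ * fro A := by
  simp only [T03_fro_eq]; exact norm_smul c A

theorem T03_mul (A B : Mat N) : fro (A * B) ≤ fro A * fro B := by
  simp only [T03_fro_eq]; exact norm_mul_le A B

theorem T03_neg (A : Mat N) : fro (-A) = fro A := by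
  simp only [T03_fro_eq]; exact norm_neg A

end T03aux

theorem fro_nonneg (K : Mat N) : 0 ≤ fro K := Real.sqrt_nonneg _

theorem fro_sq (K : Mat N) : fro K ^ 2 = ∑ i, ∑ j, ‖K i j‖ ^ 2 := by
  unfold fro
  exact Real.sq_sqrt (Finset.sum_nonneg fun _ _ => Finset.sum_nonneg fun _ _ => sq_nonneg _)

theorem fro_add (A B : Mat N) : fro (A + B) ≤ fro A + fro B := T03_add A B

theorem fro_sum {ι : Type} (s : Finset ι) (A : ι → Mat N) : fro (∑ i ∈ s, A i) ≤ ∑ i ∈ s, fro (A i) :=
  T03_sum s A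

theorem fro_smul (c : ℂ) (A : Mat N) : fro (c • A) = ‖c‖ * fro A := T03_smul c A

theorem fro_mul (A B : Mat N) : fro (A * B) ≤ fro A * fro B := T03_mul A B

theorem fro_neg (A : Mat N) : fro (-A) = fro A := T03_neg A

theorem fro_uni (U V : Uni N) (K : Mat N) : fro (U.1 * K * V.1) = fro K := PLP_fro_conj U V K

theorem fro_transpose (K : Mat N) : fro K.transpose = fro K := by
  unfold fro
  rw [Finset.sum_comm]
  rfl

theorem fro_conjT (K : Mat N) : fro K.conjTranspose = fro K := by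
  unfold fro
  rw [Finset.sum_comm]
  simp [Matrix.conjTranspose_apply]

theorem fro_dm (δ : Fin N → ℝ) : fro (dm δ) = √(∑ a, δ a ^ 2) := by
  unfold fro dm
  congr 1
  refine Finset.sum_congr rfl fun a _ => ?_
  rw [Finset.sum_eq_single a]
  · simp
  · intro b _ hb
    rw [Matrix.diagonal_apply_ne _ hb.symm]
    simp
  · simp

theorem froc : Continuous (fro : Mat N → ℝ) := by
  unfold fro
  refine Real.continuous_sqrt.comp ?_
  refine continuous_finsetSum _ fun i _ => continuous_finsetSum _ fun j _ => ?_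
  exact (continuous_norm.comp (continuous_apply_apply i j)).pow 2

theorem ds_fro (A B : Uni N) : √(ds A B) = fro (A.1 - B.1) := by
  unfold ds fro
  rfl

theorem ds_uni (U V A B : Uni N) : ds (U * A * V) (U * B * V) = ds A B := by
  have h1 : ∀ A B : Uni N, ds A B = fro (A.1 - B.1) ^ 2 := by
    intro A B
    rw [fro_sq]
    rfl
  rw [h1, h1]
  have : (U * A * V).1 - (U * B * V).1 = U.1 * (A.1 - B.1) * V.1 := by
    have e1 : (U * A * V).1 = U.1 * A.1 * V.1 := rfl
    have e2 : (U * B * V).1 = U.1 * B.1 * V.1 := rfl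
    rw [e1, e2, mul_sub, sub_mul]
  rw [this, fro_uni]

theorem cls_cont {ℓ : ℝ} {c : Uni N → ℝ} (hc : Cls ℓ c) : Continuous c := by
  rw [continuous_iff_continuousAt]
  intro B
  unfold ContinuousAt
  rw [tendsto_iff_dist_tendsto_zero]
  have h1 : Tendsto (fun A : Uni N => ℓ * √(ds A B)) (𝓝 B) (𝓝 0) := by
    have h2 : Continuous fun A : Uni N => ℓ * fro (A.1 - B.1) :=
      continuous_const.mul (froc.comp (continuous_subtype_val.sub continuous_const))
    have h3 := h2.tendsto B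
    have h4 : fro (B.1 - B.1) = 0 := by
      rw [sub_self]; unfold fro; simp
    rw [h4, mul_zero] at h3
    refine h3.congr fun A => ?_
    rw [ds_fro]
  refine squeeze_zero (fun A => dist_nonneg) (fun A => ?_) h1
  rw [Real.dist_eq]
  exact hc.lip A B

theorem T03_coe_conj (U : Uni N) (K : Mat N) : fro (U.1 * K * (U⁻¹ : Uni N).1) = fro K :=
  fro_uni U U⁻¹ K

theorem An_le (n : ℕ) (K : Mat N) (U : Uni N) : fro (An n K U) ≤ fro K := by
  unfold An
  rw [fro_smul]
  have h1 : fro (∑ i ∈ Finset.range n, (U ^ i : Uni N).1 * K * ((U ^ i)⁻¹ : Uni N).1) ≤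
      n * fro K := by
    refine le_trans (fro_sum _ _) ?_
    simp only [T03_coe_conj, Finset.sum_const, Finset.card_range, nsmul_eq_mul]
    exact le_rfl
  rcases Nat.eq_zero_or_pos n with h0 | h0
  · subst h0
    simp [fro_nonneg]
  · have hn : (0 : ℝ) < n := by exact_mod_cast h0
    have h2 : ‖((1 / n : ℝ) : ℂ)‖ = 1 / n := by
      rw [Complex.norm_real, Real.norm_eq_abs, abs_of_pos (by positivity)]
    rw [h2]
    calc 1 / (n : ℝ) * _ ≤ 1 / n * (n * fro K) := mul_le_mul_of_nonneg_left h1 (by positivity)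
      _ = fro K := by field_simp

theorem An_add (n : ℕ) (K L : Mat N) (U : Uni N) : An n (K + L) U = An n K U + An n L U := by
  unfold An
  rw [← smul_add, ← Finset.sum_add_distrib]
  congr 1
  refine Finset.sum_congr rfl fun i _ => ?_
  rw [mul_add, add_mul]

theorem An_smul (n : ℕ) (c : ℂ) (K : Mat N) (U : Uni N) : An n (c • K) U = c • An n K U := by
  unfold An
  rw [smul_comm c, Finset.smul_sum (r := c)]
  congr 1
  refine Finset.sum_congr rfl fun i _ => ?_
  rw [Matrix.mul_smul, Matrix.smul_mul]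

theorem An_conj (n : ℕ) (K : Mat N) (U V : Uni N) :
    An n (V.1 * K * (V⁻¹ : Uni N).1) (V * U * V⁻¹) = V.1 * An n K U * (V⁻¹ : Uni N).1 := by
  unfold An
  rw [Matrix.mul_smul, Matrix.smul_mul, Finset.mul_sum, Finset.sum_mul]
  congr 1
  refine Finset.sum_congr rfl fun i _ => ?_
  have h0 : (V⁻¹ : Uni N).1 * V.1 = 1 := congrArg Subtype.val (inv_mul_cancel V)
  rw [conj_pow]
  have h1 : (V * U ^ i * V⁻¹ : Uni N).1 = V.1 * (U ^ i : Uni N).1 * (V⁻¹ : Uni N).1 := rfl
  have h2 : ((V * U ^ i * V⁻¹)⁻¹ : Uni N).1 = V.1 * ((U ^ i)⁻¹ : Uni N).1 * (V⁻¹ : Uni N).1 := by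
    have : (V * U ^ i * V⁻¹)⁻¹ = V * (U ^ i)⁻¹ * V⁻¹ := by group
    rw [this]; rfl
  rw [h1, h2]
  calc V.1 * (U ^ i : Uni N).1 * (V⁻¹ : Uni N).1 * (V.1 * K * (V⁻¹ : Uni N).1) *
        (V.1 * ((U ^ i)⁻¹ : Uni N).1 * (V⁻¹ : Uni N).1) =
      V.1 * (U ^ i : Uni N).1 * ((V⁻¹ : Uni N).1 * V.1) * K * ((V⁻¹ : Uni N).1 * V.1) *
        ((U ^ i)⁻¹ : Uni N).1 * (V⁻¹ : Uni N).1 := by noncomm_ring
    _ = _ := by rw [h0]; noncomm_ring

theorem fro_An_conj (n : ℕ) (K : Mat N) (U V : Uni N) :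
    fro (An n (V.1 * K * (V⁻¹ : Uni N).1) (V * U * V⁻¹)) = fro (An n K U) := by
  rw [An_conj, T03_coe_conj]

/-- For symmetric `W`. -/
theorem An_transpose (n : ℕ) (K : Mat N) (W : Uni N) (hW : Sym W) :
    fro (An n K.transpose W) = fro (An n K W) := by
  rcases Nat.eq_zero_or_pos n with h0 | h0
  · subst h0
    simp [An]
  have hp : ∀ i : ℕ, (W ^ i : Uni N).1.transpose = (W ^ i : Uni N).1 := by
    intro i
    have : (W ^ i : Uni N).1 = W.1 ^ i := rfl
    rw [this, Matrix.transpose_pow, hW]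
  have hi : ∀ i : ℕ, ((W ^ i)⁻¹ : Uni N).1.transpose = ((W ^ i)⁻¹ : Uni N).1 := by
    intro i
    have h1 : ((W ^ i)⁻¹ : Uni N).1 = (W ^ i : Uni N).1.conjTranspose := rfl
    have h2 : (W ^ i : Uni N).1.conjTranspose.transpose =
        (W ^ i : Uni N).1.transpose.conjTranspose := rfl
    rw [h1, h2, hp]
  have h3 : (An n K.transpose W).transpose =
      ((W ^ (n - 1))⁻¹ : Uni N).1 * An n K W * (W ^ (n - 1) : Uni N).1 := by
    unfold An
    rw [Matrix.transpose_smul, Matrix.transpose_sum, Matrix.mul_smul, Matrix.smul_mul,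
      Finset.mul_sum, Finset.sum_mul, ← Finset.sum_range_reflect]
    congr 1
    refine Finset.sum_congr rfl fun i hin => ?_
    rw [Finset.mem_range] at hin
    rw [Matrix.transpose_mul, Matrix.transpose_mul, Matrix.transpose_transpose, hp, hi, ← mul_assoc]
    have h4 : ((W ^ (n - 1 - i))⁻¹ : Uni N) = (W ^ (n - 1))⁻¹ * W ^ i := by
      have : W ^ (n - 1) = W ^ i * W ^ (n - 1 - i) := by rw [← pow_add]; congr 1; omega
      rw [this]
      group
    have h5 : W ^ (n - 1 - i) = (W ^ i)⁻¹ * W ^ (n - 1) := by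
      have : W ^ (n - 1) = W ^ i * W ^ (n - 1 - i) := by rw [← pow_add]; congr 1; omega
      rw [this]
      group
    have h6 : ((W ^ (n - 1 - i))⁻¹ : Uni N).1 = ((W ^ (n - 1))⁻¹ : Uni N).1 * (W ^ i : Uni N).1 := by
      rw [h4]; rfl
    have h7 : (W ^ (n - 1 - i) : Uni N).1 = ((W ^ i)⁻¹ : Uni N).1 * (W ^ (n - 1) : Uni N).1 := by
      rw [h5]; rfl
    rw [h6, h7]
    noncomm_ring
  rw [← fro_transpose (An n K.transpose W), h3, fro_uni]

theorem An_herm (n : ℕ) (K : Mat N) (hK : K.IsHermitian) (U : Uni N) : (An n K U).IsHermitian := by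
  unfold An Matrix.IsHermitian
  rw [Matrix.conjTranspose_smul, Matrix.conjTranspose_sum]
  congr 1
  · simp
  · refine Finset.sum_congr rfl fun i _ => ?_
    have h1 : ((U ^ i)⁻¹ : Uni N).1 = (U ^ i : Uni N).1.conjTranspose := rfl
    rw [h1, Matrix.conjTranspose_mul, Matrix.conjTranspose_mul, Matrix.conjTranspose_conjTranspose,
      hK.eq, mul_assoc]

theorem An_cont (n : ℕ) : Continuous fun q : Mat N × Uni N => An n q.1 q.2 := by
  have h1 : ∀ i : ℕ, Continuous fun q : Mat N × Uni N => (q.2 ^ i : Uni N).1 := by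
    intro i
    have : (fun q : Mat N × Uni N => (q.2 ^ i : Uni N).1) = fun q => q.2.1 ^ i := rfl
    rw [this]
    exact (continuous_subtype_val.comp continuous_snd).pow i
  have h2 : ∀ i : ℕ, Continuous fun q : Mat N × Uni N => ((q.2 ^ i)⁻¹ : Uni N).1 := by
    intro i
    have : (fun q : Mat N × Uni N => ((q.2 ^ i)⁻¹ : Uni N).1) =
        fun q => star (q.2 ^ i : Uni N).1 := rfl
    rw [this]
    exact continuous_star.comp (h1 i)
  have h3 : Continuous fun q : Mat N × Uni N =>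
      ∑ i ∈ Finset.range n, (q.2 ^ i : Uni N).1 * q.1 * ((q.2 ^ i)⁻¹ : Uni N).1 :=
    continuous_finsetSum _ fun i _ => ((h1 i).mul continuous_fst).mul (h2 i)
  have h4 : (fun q : Mat N × Uni N => An n q.1 q.2) = fun q => ((1 / n : ℝ) : ℂ) •
      ∑ i ∈ Finset.range n, (q.2 ^ i : Uni N).1 * q.1 * ((q.2 ^ i)⁻¹ : Uni N).1 := rfl
  rw [h4]
  exact h3.const_smul (((1 / n : ℝ) : ℂ))

/-- The square of the norm for a diagonal unitary matrix. -/
theorem An_dg (n : ℕ) (K : Mat N) (γ : Tor N) : fro (An n K (dg γ)) ^ 2 =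
    ∑ a, ∑ b, ‖K a b‖ ^ 2 * (1 / (n : ℝ) ^ 2 * ‖∑ i ∈ Finset.range n, ee (i • (γ a - γ b))‖ ^ 2) := by
  rw [fro_sq]
  refine Finset.sum_congr rfl fun a _ => Finset.sum_congr rfl fun b _ => ?_
  have hd : ∀ i : ℕ, (dg γ ^ i : Uni N).1 = Matrix.diagonal fun a => ee (γ a) ^ i := by
    intro i
    have : (dg γ ^ i : Uni N).1 = (dg γ).1 ^ i := rfl
    rw [this]
    have h2 : (dg γ).1 = Matrix.diagonal fun a => ee (γ a) := rfl
    rw [h2, Matrix.diagonal_pow]
    rfl
  have hd' : ∀ i : ℕ, ((dg γ ^ i)⁻¹ : Uni N).1 =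
      Matrix.diagonal fun a => (starRingEnd ℂ) (ee (γ a) ^ i) := by
    intro i
    have : ((dg γ ^ i)⁻¹ : Uni N).1 = (dg γ ^ i : Uni N).1.conjTranspose := rfl
    rw [this, hd, Matrix.diagonal_conjTranspose]
    rfl
  have he : ∀ i : ℕ, ee (i • (γ a - γ b)) = ee (γ a) ^ i * (starRingEnd ℂ) (ee (γ b) ^ i) := by
    intro i
    have h1 : ∀ x y : UnitAddCircle, ee (x + y) = ee x * ee y := by
      intro x y
      unfold ee
      rw [AddCircle.toCircle_add]
      rfl
    have h2 : ∀ x : UnitAddCircle, ee (-x) = (starRingEnd ℂ) (ee x) := by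
      intro x
      unfold ee
      rw [AddCircle.toCircle_neg]
      exact Circle.coe_inv_eq_conj _
    have h3 : ∀ (k : ℕ) (x : UnitAddCircle), ee (k • x) = ee x ^ k := by
      intro k x
      induction k with
      | zero =>
        unfold ee
        simp
      | succ k ih => rw [succ_nsmul, h1, ih, pow_succ]
    rw [nsmul_sub, sub_eq_add_neg, h1, h2, h3, h3]
  have hA : An n K (dg γ) a b = ((1 / n : ℝ) : ℂ) * ((∑ i ∈ Finset.range n, ee (i • (γ a - γ b))) *
      K a b) := by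
    unfold An
    rw [Matrix.smul_apply, Matrix.sum_apply, smul_eq_mul, Finset.sum_mul]
    congr 1
    refine Finset.sum_congr rfl fun i _ => ?_
    rw [hd, hd', Matrix.mul_diagonal, Matrix.diagonal_mul, he]
    ring
  rw [hA, norm_mul, norm_mul, Complex.norm_real, Real.norm_eq_abs, mul_pow, mul_pow, sq_abs]
  ring

end Ty
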