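import Pool.Agent.LibTy70.T02
import Pool.Agent.LibTy70.T03

/-! Row T05: Hoffman-Wielandt. Plan: diagonalise `A = V dgr φ V⁻¹`, `B = V' dgr ψ V'⁻¹` (HRT_diag), `U = V⁻¹ V'`;
`ds A B = ∑_{ij} |e^{iφ_i} - e^{iψ_j}|^2 |U_ij|^2` (unitary invariance: |Λ U - U Λ'|^2), `(|U_ij|^2)` is doubly
stochastic, so by `exists_eq_sum_perm_of_mem_doublyStochastic` it is a convex combination of permutation matrices and
some permutation `σ` has `∑_i |e^{iφ_i} - e^{iψ_σi}|^2 ≤ ds A B`. Permute `V'` by `σ` (T02 cx_perm). Choose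
`δ_i = toIocMod ... (ψ_σi - φ_i)` in `(-π, π]`; replace ψ_σi by φ_i + δ_i (same `dgr`). Jordan:
`|δ| ≤ (π/2) |e^{iδ} - 1| = π |sin (δ/2)|` for `|δ| ≤ π` (`Real.mul_abs_le_abs_sin` or `Real.mul_le_sin`). -/

open MeasureTheory Set Filter Topology

namespace Ty

open QGr

theorem t05_toCircle (x : ℝ) :
    ((AddCircle.toCircle (((x / (2 * Real.pi) : ℝ)) : UnitAddCircle) : Circle) : ℂ) =
      Complex.exp (x * Complex.I) := by
  rw [AddCircle.toCircle_apply_mk, Circle.coe_exp]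
  have h1 : (2 * Real.pi / 1 * (x / (2 * Real.pi)) : ℝ) = x := by
    have := Real.pi_pos
    field_simp
  rw [h1]

theorem t05_dgr {N : ℕ} (φ : Fin N → ℝ) :
    (dgr φ).1 = Matrix.diagonal fun a => Complex.exp (φ a * Complex.I) := by
  change (Matrix.diagonal fun i => ((AddCircle.toCircle
    (((φ i / (2 * Real.pi) : ℝ)) : UnitAddCircle) : Circle) : ℂ)) = _
  congr 1
  funext a
  exact t05_toCircle (φ a)

theorem t05_row {N : ℕ} (U : Uni N) (i : Fin N) : ∑ j, ‖U.1 i j‖ ^ 2 = 1 := by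
  have h := U.2
  rw [Matrix.mem_unitaryGroup_iff] at h
  have h2 := congrFun (congrFun h i) i
  rw [Matrix.mul_apply, Matrix.one_apply_eq] at h2
  have h3 : ((∑ j, ‖U.1 i j‖ ^ 2 : ℝ) : ℂ) = 1 := by
    rw [← h2]
    push_cast
    refine Finset.sum_congr rfl fun j _ => ?_
    rw [Matrix.star_apply]
    change _ = U.1 i j * (starRingEnd ℂ) (U.1 i j)
    rw [Complex.mul_conj, Complex.normSq_eq_norm_sq]
    push_cast
    rfl
  exact_mod_cast h3

theorem t05_col {N : ℕ} (U : Uni N) (j : Fin N) : ∑ i, ‖U.1 i j‖ ^ 2 = 1 := by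
  have h := U.2
  rw [Matrix.mem_unitaryGroup_iff'] at h
  have h2 := congrFun (congrFun h j) j
  rw [Matrix.mul_apply, Matrix.one_apply_eq] at h2
  have h3 : ((∑ i, ‖U.1 i j‖ ^ 2 : ℝ) : ℂ) = 1 := by
    rw [← h2]
    push_cast
    refine Finset.sum_congr rfl fun i _ => ?_
    rw [Matrix.star_apply]
    change _ = (starRingEnd ℂ) (U.1 i j) * U.1 i j
    rw [mul_comm, Complex.mul_conj, Complex.normSq_eq_norm_sq]
    push_cast
    rfl
  exact_mod_cast h3

/-- Some permutation is at most the average. -/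
theorem t05_perm {N : ℕ} (U : Uni N) (c : Fin N → Fin N → ℝ) :
    ∃ σ : Equiv.Perm (Fin N), ∑ i, c i (σ i) ≤ ∑ i, ∑ j, c i j * ‖U.1 i j‖ ^ 2 := by
  classical
  have hP : (Matrix.of fun i j => ‖U.1 i j‖ ^ 2 : Matrix (Fin N) (Fin N) ℝ) ∈
      doublyStochastic ℝ (Fin N) := by
    rw [mem_doublyStochastic_iff_sum]
    refine ⟨fun i j => sq_nonneg _, fun i => ?_, fun j => ?_⟩
    · exact t05_row U i
    · exact t05_col U j
  obtain ⟨w, hw0, hw1, hw⟩ := exists_eq_sum_perm_of_mem_doublyStochastic hP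
  have hval : ∑ i, ∑ j, c i j * ‖U.1 i j‖ ^ 2 = ∑ σ, w σ * ∑ i, c i (σ i) := by
    have h1 : ∀ i j, ‖U.1 i j‖ ^ 2 = ∑ σ, w σ * (if σ i = j then 1 else 0) := by
      intro i j
      have h2 := congrFun (congrFun hw i) j
      rw [Matrix.of_apply] at h2
      rw [← h2, Matrix.sum_apply]
      refine Finset.sum_congr rfl fun σ _ => ?_
      rw [Matrix.smul_apply, smul_eq_mul]
      congr 1
      simp [Equiv.Perm.permMatrix, PEquiv.toMatrix_apply, Equiv.toPEquiv_apply, eq_comm]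
    calc ∑ i, ∑ j, c i j * ‖U.1 i j‖ ^ 2
        = ∑ i, ∑ j, ∑ σ, c i j * (w σ * (if σ i = j then 1 else 0)) := by
          refine Finset.sum_congr rfl fun i _ => Finset.sum_congr rfl fun j _ => ?_
          rw [h1, Finset.mul_sum]
      _ = ∑ i, ∑ σ : Equiv.Perm (Fin N), ∑ j, c i j * (w σ * (if σ i = j then 1 else 0)) :=
          Finset.sum_congr rfl fun i _ => Finset.sum_comm
      _ = ∑ i, ∑ σ : Equiv.Perm (Fin N), w σ * c i (σ i) := by
          refine Finset.sum_congr rfl fun i _ => Finset.sum_congr rfl fun σ _ => ?_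
          rw [Finset.sum_eq_single (σ i)]
          · rw [if_pos rfl]; ring
          · intro b _ hb
            rw [if_neg (Ne.symm hb)]; ring
          · intro h; exact absurd (Finset.mem_univ _) h
      _ = ∑ σ : Equiv.Perm (Fin N), ∑ i, w σ * c i (σ i) := Finset.sum_comm
      _ = ∑ σ, w σ * ∑ i, c i (σ i) :=
          Finset.sum_congr rfl fun σ _ => (Finset.mul_sum _ _ _).symm
  by_contra hcon
  push Not at hcon
  have hpos : ∃ σ, 0 < w σ := by
    by_contra h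
    push Not at h
    have : ∑ σ, w σ ≤ 0 := Finset.sum_nonpos fun σ _ => h σ
    linarith
  obtain ⟨σ₀, hσ₀⟩ := hpos
  have h3 : ∑ σ, w σ * (∑ i, ∑ j, c i j * ‖U.1 i j‖ ^ 2) < ∑ σ, w σ * ∑ i, c i (σ i) := by
    refine Finset.sum_lt_sum (fun σ _ => ?_) ⟨σ₀, Finset.mem_univ _, ?_⟩
    · exact mul_le_mul_of_nonneg_left (hcon σ).le (hw0 σ)
    · exact mul_lt_mul_of_pos_left (hcon σ₀) hσ₀
  rw [← Finset.sum_mul, hw1, one_mul, hval] at h3
  exact lt_irrefl _ h3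

theorem t05_jordan {x : ℝ} (hx : |x| ≤ Real.pi) :
    x ^ 2 ≤ (Real.pi / 2) ^ 2 * ‖Complex.exp (x * Complex.I) - 1‖ ^ 2 := by
  have hpi := Real.pi_pos
  have h1 : ‖Complex.exp (x * Complex.I) - 1‖ = 2 * |Real.sin (x / 2)| := by
    rw [mul_comm, Complex.norm_exp_I_mul_ofReal_sub_one, Real.norm_eq_abs, abs_mul, abs_two]
  have h2 : |x / 2| ≤ Real.pi / 2 := by
    rw [abs_div, abs_two]; linarith
  have h3 := Real.mul_abs_le_abs_sin h2
  rw [abs_div, abs_two] at h3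
  have h4 : |x| ≤ Real.pi / 2 * (2 * |Real.sin (x / 2)|) := by
    have h5 : Real.pi / 2 * (2 * (2 / Real.pi * (|x| / 2))) ≤
        Real.pi / 2 * (2 * |Real.sin (x / 2)|) := by gcongr
    have h6 : Real.pi / 2 * (2 * (2 / Real.pi * (|x| / 2))) = |x| := by field_simp
    linarith
  rw [h1, ← sq_abs x, ← mul_pow]
  exact pow_le_pow_left₀ (abs_nonneg _) h4 2

theorem t05_half {x : ℝ} (hx : |x| ≤ Real.pi) :
    ‖Complex.exp ((x / 2 : ℝ) * Complex.I) - 1‖ ^ 2 ≤ ‖Complex.exp (x * Complex.I) - 1‖ ^ 2 := by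
  have hpi := Real.pi_pos
  have h1 : ‖Complex.exp (x * Complex.I) - 1‖ = 2 * |Real.sin (x / 2)| := by
    rw [mul_comm, Complex.norm_exp_I_mul_ofReal_sub_one, Real.norm_eq_abs, abs_mul, abs_two]
  have h2 : ‖Complex.exp ((x / 2 : ℝ) * Complex.I) - 1‖ = 2 * |Real.sin (x / 2 / 2)| := by
    rw [mul_comm, Complex.norm_exp_I_mul_ofReal_sub_one, Real.norm_eq_abs, abs_mul, abs_two]
  have h3 : Real.sin (x / 2) = 2 * Real.sin (x / 2 / 2) * Real.cos (x / 2 / 2) := by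
    rw [← Real.sin_two_mul]; congr 1; ring
  have hab := abs_le.1 hx
  have h4 : (1 : ℝ) / 2 ≤ Real.cos (x / 2 / 2) := by
    rw [← Real.cos_pi_div_three, ← Real.cos_abs (x / 2 / 2)]
    apply Real.cos_le_cos_of_nonneg_of_le_pi (abs_nonneg _) (by linarith)
    rw [abs_le]
    constructor <;> linarith [hab.1, hab.2]
  have h5 : |Real.sin (x / 2 / 2)| ≤ |Real.sin (x / 2)| := by
    rw [h3, abs_mul, abs_mul, abs_two, abs_of_nonneg (by linarith : 0 ≤ Real.cos (x / 2 / 2))]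
    nlinarith [abs_nonneg (Real.sin (x / 2 / 2))]
  rw [h1, h2]
  exact pow_le_pow_left₀ (by positivity) (by linarith) 2

theorem t05_exp_sub (a b : ℝ) : ‖Complex.exp (a * Complex.I) - Complex.exp (b * Complex.I)‖ =
    ‖Complex.exp ((b - a : ℝ) * Complex.I) - 1‖ := by
  have h : Complex.exp (b * Complex.I) = Complex.exp (a * Complex.I) *
      Complex.exp ((b - a : ℝ) * Complex.I) := by
    rw [← Complex.exp_add]
    congr 1
    push_cast
    ring
  rw [h, norm_sub_rev]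
  have h2 : Complex.exp (a * Complex.I) * Complex.exp ((b - a : ℝ) * Complex.I) -
      Complex.exp (a * Complex.I) = Complex.exp (a * Complex.I) *
        (Complex.exp ((b - a : ℝ) * Complex.I) - 1) := by ring
  rw [h2, norm_mul, Complex.norm_exp_ofReal_mul_I, one_mul]

theorem hoff {N : ℕ} (A B : Uni N) : ∃ (V V' : Uni N) (φ δ : Fin N → ℝ),
    A = V * dgr φ * V⁻¹ ∧ B = V' * dgr (φ + δ) * V'⁻¹ ∧ (∀ a, |δ a| ≤ Real.pi) ∧
    ∑ a, ‖Complex.exp (δ a * Complex.I) - 1‖ ^ 2 ≤ ds A B ∧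
    √(∑ a, δ a ^ 2) ≤ Real.pi / 2 * √(ds A B) := by
  have hpi := Real.pi_pos
  obtain ⟨V, φ, _, hA⟩ := HRT_diag A
  obtain ⟨W, ψ, _, hB⟩ := HRT_diag B
  change A = V * dgr φ * V⁻¹ at hA
  change B = W * dgr ψ * W⁻¹ at hB
  set U : Uni N := V⁻¹ * W with hU
  have hds : ds A B = ∑ i, ∑ j, ‖Complex.exp (φ i * Complex.I) -
      Complex.exp (ψ j * Complex.I)‖ ^ 2 * ‖U.1 i j‖ ^ 2 := by
    rw [← ds_uni V⁻¹ W A B]
    have e1 : V⁻¹ * A * W = dgr φ * U := by rw [hA, hU]; group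
    have e2 : V⁻¹ * B * W = U * dgr ψ := by rw [hB, hU]; group
    rw [e1, e2]
    unfold ds
    refine Finset.sum_congr rfl fun i _ => Finset.sum_congr rfl fun j _ => ?_
    have e3 : (dgr φ * U).1 i j = Complex.exp (φ i * Complex.I) * U.1 i j := by
      change ((dgr φ).1 * U.1) i j = _
      rw [t05_dgr, Matrix.diagonal_mul]
    have e4 : (U * dgr ψ).1 i j = U.1 i j * Complex.exp (ψ j * Complex.I) := by
      change (U.1 * (dgr ψ).1) i j = _
      rw [t05_dgr, Matrix.mul_diagonal]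
    rw [e3, e4, ← mul_pow, ← norm_mul]
    congr 2
    ring
  obtain ⟨σ, hσ⟩ := t05_perm U fun i j => ‖Complex.exp (φ i * Complex.I) -
      Complex.exp (ψ j * Complex.I)‖ ^ 2
  rw [← hds] at hσ
  obtain ⟨R, hR⟩ := cx_perm σ
  have h2pi : 0 < 2 * Real.pi := by positivity
  set δ : Fin N → ℝ := fun i => toIocMod h2pi (-Real.pi) (ψ (σ i) - φ i) with hδ
  have hmem : ∀ i, -Real.pi < δ i ∧ δ i ≤ Real.pi := by
    intro i
    have h := toIocMod_mem_Ioc h2pi (-Real.pi) (ψ (σ i) - φ i)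
    refine ⟨h.1, ?_⟩
    have := h.2
    have e : -Real.pi + 2 * Real.pi = Real.pi := by ring
    rw [e] at this
    exact this
  have habs : ∀ i, |δ i| ≤ Real.pi := fun i => abs_le.2 ⟨(hmem i).1.le, (hmem i).2⟩
  have hdec : ∀ i, ∃ k : ℤ, φ i + δ i = ψ (σ i) - k * (2 * Real.pi) := by
    intro i
    refine ⟨toIocDiv h2pi (-Real.pi) (ψ (σ i) - φ i), ?_⟩
    have h := self_sub_toIocDiv_zsmul h2pi (-Real.pi) (ψ (σ i) - φ i)
    rw [zsmul_eq_mul] at h
    rw [hδ]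
    simp only
    rw [← h]
    ring
  have hexp : ∀ i, Complex.exp ((φ i + δ i : ℝ) * Complex.I) =
      Complex.exp (ψ (σ i) * Complex.I) := by
    intro i
    obtain ⟨k, hk⟩ := hdec i
    rw [hk]
    push_cast
    rw [sub_mul, Complex.exp_sub]
    have : Complex.exp (k * (2 * Real.pi) * Complex.I) = 1 := by
      rw [mul_assoc]
      exact Complex.exp_int_mul_two_pi_mul_I k
    rw [this, div_one]
  have hdgr : dgr (φ + δ) = dgr fun i => ψ (σ i) := by
    apply Subtype.ext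
    rw [t05_dgr, t05_dgr]
    congr 1
    funext i
    exact hexp i
  have hsum : ∑ a, ‖Complex.exp (δ a * Complex.I) - 1‖ ^ 2 ≤ ds A B := by
    refine le_trans (le_of_eq (Finset.sum_congr rfl fun i _ => ?_)) hσ
    congr 1
    rw [← hexp i, t05_exp_sub]
    congr 3
    push_cast
    ring
  refine ⟨V, W * (cx R)⁻¹, φ, δ, hA, ?_, habs, hsum, ?_⟩
  · rw [hdgr, hB]
    have h := hR fun a => ((ψ a / (2 * Real.pi) : ℝ) : UnitAddCircle)
    have h2 : (dgr fun i => ψ (σ i)) = cx R * dgr ψ * (cx R)⁻¹ := h.symm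
    rw [h2]
    group
  · have h1 : ∑ a, δ a ^ 2 ≤ (Real.pi / 2) ^ 2 * ds A B := by
      calc ∑ a, δ a ^ 2 ≤ ∑ a, (Real.pi / 2) ^ 2 * ‖Complex.exp (δ a * Complex.I) - 1‖ ^ 2 :=
            Finset.sum_le_sum fun a _ => t05_jordan (habs a)
        _ = (Real.pi / 2) ^ 2 * ∑ a, ‖Complex.exp (δ a * Complex.I) - 1‖ ^ 2 :=
            (Finset.mul_sum _ _ _).symm
        _ ≤ (Real.pi / 2) ^ 2 * ds A B := by gcongr
    calc √(∑ a, δ a ^ 2) ≤ √((Real.pi / 2) ^ 2 * ds A B) := Real.sqrt_le_sqrt h1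
      _ = Real.pi / 2 * √(ds A B) := by
          rw [Real.sqrt_mul (by positivity), Real.sqrt_sq (by positivity)]

/-- Half angles. -/
theorem hoff_half {N : ℕ} (φ δ : Fin N → ℝ) (hδ : ∀ a, |δ a| ≤ Real.pi) :
    ds (dgr fun a => φ a / 2) (dgr fun a => (φ a + δ a) / 2) ≤
      ∑ a, ‖Complex.exp (δ a * Complex.I) - 1‖ ^ 2 := by
  unfold ds
  refine Finset.sum_le_sum fun i _ => ?_
  rw [Finset.sum_eq_single i]
  · rw [t05_dgr, t05_dgr, Matrix.diagonal_apply_eq, Matrix.diagonal_apply_eq, t05_exp_sub]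
    refine le_trans (le_of_eq ?_) (t05_half (hδ i))
    congr 4
    push_cast
    ring
  · intro j _ hj
    rw [t05_dgr, t05_dgr, Matrix.diagonal_apply_ne _ (Ne.symm hj),
      Matrix.diagonal_apply_ne _ (Ne.symm hj)]
    simp
  · intro h; exact absurd (Finset.mem_univ _) h

end Ty
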