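import Pool.Agent.LibTy70.T02
import Pool.Agent.LibTy70.T05
import Pool.Agent.LibQGr.R_SPA

/-! Row T20: the statistics are Lipschitz class functions. Plan: conjugation: `IsPhases` depends only on the spectrum (the kernel
of `1 - e(..) V W V⁻¹` is the image of the kernel under `V`), so `IsPhases W y ↔ IsPhases (V W V⁻¹) y` and the second part of
`pcorr_lip`/`pspac_lip` (LibQGr R_SPA) applies; existence of a listing: `dia_exists`/`dia_phases` as in pcorr_lip. Lipschitz: T05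
`hoff`: `A ~ dgr φ = sy (dgr (φ/2))`, `B ~ dgr (φ+δ) = sy (dgr ((φ+δ)/2))`; third part of pcorr_lip and hoff_half. -/

open MeasureTheory Set Filter Topology

namespace Ty

open QGr

private theorem t20_fin {N : ℕ} (V W : Uni N) (c : ℂ) :
    Module.finrank ℂ (LinearMap.ker (Matrix.toLin' (1 - c • (V * W * V⁻¹ : Uni N).1))) =
      Module.finrank ℂ (LinearMap.ker (Matrix.toLin' (1 - c • W.1))) := by
  have hV : V.1 * (V⁻¹ : Uni N).1 = 1 := by
    rw [← Submonoid.coe_mul, mul_inv_cancel, Submonoid.coe_one]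
  have hd : IsUnit V.1.det := by
    have := congrArg Matrix.det hV
    rw [Matrix.det_mul, Matrix.det_one] at this
    exact IsUnit.of_mul_eq_one _ this
  have hd' : IsUnit (V⁻¹ : Uni N).1.det := by
    have := congrArg Matrix.det hV
    rw [Matrix.det_mul, Matrix.det_one, mul_comm] at this
    exact IsUnit.of_mul_eq_one _ this
  have h1 : 1 - c • (V * W * V⁻¹ : Uni N).1 = V.1 * (1 - c • W.1) * (V⁻¹ : Uni N).1 := by
    rw [mul_sub, sub_mul, mul_one, hV, Submonoid.coe_mul, Submonoid.coe_mul, mul_smul_comm,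
      smul_mul_assoc]
  have h2 := PHS_ker (V.1 * (1 - c • W.1) * (V⁻¹ : Uni N).1)
  have h3 := PHS_ker (1 - c • W.1)
  rw [Matrix.rank_mul_eq_left_of_isUnit_det _ _ hd',
    Matrix.rank_mul_eq_right_of_isUnit_det _ _ hd] at h2
  rw [h1]
  omega

theorem ph_conj {N : ℕ} (V W : Uni N) (y : ℤ → ℝ) :
    IsPhases (V * W * V⁻¹ : Uni N).1 y ↔ IsPhases W.1 y := by
  constructor
  · intro h
    exact ⟨h.mono, h.per, fun t => by rw [h.mult t, t20_fin]⟩
  · intro h
    exact ⟨h.mono, h.per, fun t => by rw [h.mult t, t20_fin]⟩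

private theorem t20_sy {N : ℕ} (φ : Fin N → ℝ) : sy (dgr fun a => φ a / 2) = dgr φ := by
  apply Subtype.ext
  change (dgr fun a => φ a / 2).1.transpose * (dgr fun a => φ a / 2).1 = _
  unfold dgr
  have h1 : ∀ t : Tor N, (dg t).1.transpose = (dg t).1 := by
    intro t
    rw [dg_val, Matrix.diagonal_transpose]
  rw [h1, ← Submonoid.coe_mul, ← dg_add]
  congr 2
  funext a
  rw [Pi.add_apply, ← AddCircle.coe_add]
  congr 1
  ring

private theorem t20_cls {N : ℕ} {c : Uni N → ℝ} {K : ℝ} (hK : 0 ≤ K)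
    (hc : ∀ V W : Uni N, c (V * W * V⁻¹) = c W)
    (hl : ∀ A B : Uni N, |c (sy A) - c (sy B)| ≤ K * √(ds A B)) : Cls K c := by
  refine ⟨hc, fun A B => ?_⟩
  obtain ⟨V, V', φ, δ, hA, hB, hδ, hs, -⟩ := hoff A B
  have h1 := hl (dgr fun a => φ a / 2) (dgr fun a => (φ a + δ a) / 2)
  have h2 := hoff_half φ δ hδ
  have h3 : sy (dgr fun a => (φ a + δ a) / 2) = dgr (φ + δ) := t20_sy (φ + δ)
  rw [t20_sy, h3, ← hc V (dgr φ), ← hc V' (dgr (φ + δ)), ← hA, ← hB] at h1
  exact h1.trans (mul_le_mul_of_nonneg_left (Real.sqrt_le_sqrt (h2.trans hs)) hK)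

theorem cls_corr {N Q : ℕ} (hN : 0 < N) (p : ℕ) (f : (Fin (p + 1) → ℝ) → ℝ) (L B : ℝ)
    (hL0 : 0 ≤ L) (hL : ∀ u v, |f u - f v| ≤ L * dist u v)
    (hB : ∀ v, (∃ i, B < |v i|) → f v = 0) (hQ : B < Q) :
    Cls ((2 * (N * Q : ℕ) + 1) ^ (p + 1) * L * N) fun W : Uni N => pcorr N p f (phases W.1) := by
  obtain ⟨-, h2, h3⟩ := pcorr_lip hN p f L B hL0 hL hB hQ
  refine t20_cls (by positivity) (fun V W => ?_) h3
  exact (h2 _ _ ((ph_conj V W _).2 (phases_spec hN W))).symm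

theorem cls_spac {N : ℕ} (hN : 0 < N) (f : ℝ → ℝ) (L : ℝ)
    (hL0 : 0 ≤ L) (hL : ∀ u v, |f u - f v| ≤ L * dist u v) :
    Cls (L * N) fun W : Uni N => pspac N f (phases W.1) := by
  obtain ⟨-, h2, h3⟩ := pspac_lip hN f L hL0 hL
  refine t20_cls (by positivity) (fun V W => ?_) h3
  exact (h2 _ _ ((ph_conj V W _).2 (phases_spec hN W))).symm

theorem cls_abs {N : ℕ} {ℓ : ℝ} {c : Uni N → ℝ} (hc : Cls ℓ c) (m : ℝ) : Cls ℓ fun W => |c W - m| := by
  refine ⟨fun V W => by rw [hc.conj], fun A B => ?_⟩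
  refine (abs_abs_sub_abs_le _ _).trans ?_
  rw [sub_sub_sub_cancel_right]
  exact hc.lip A B

end Ty
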