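import Pool.Agent.LibTy70.F00
import Pool.Agent.LibTy70.T20
import Pool.Agent.LibTy70.S09
import Pool.Agent.LibTy70.V11
import Pool.Agent.LibTy70.K04

/-! Row F01: spacings of typical graphs. -/

open MeasureTheory Set Filter Topology

namespace Ty

open QGr COE

theorem f01_gcont {N M m : ℕ} (n : ℕ) (O' : ℕ → Orth N) (l : Fin (m + 1) → Fin N → ℝ) :
    Continuous fun q : (Fin M → Orth N) × (Fin (m + 1) → Tor N) =>
      fro (An n (B0 (cat q.1 O') m l q.2) (sy (tr (cat q.1 O') m q.2))) ^ 2 := by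
  have h0 : Continuous fun q : (Fin M → Orth N) × (Fin (m + 1) → Tor N) =>
      ((cat q.1 O', q.2) : (ℕ → Orth N) × (Fin (m + 1) → Tor N)) :=
    ((cat_cont O').comp continuous_fst).prodMk continuous_snd
  have h1 : Continuous fun q : (Fin M → Orth N) × (Fin (m + 1) → Tor N) =>
      B0 (cat q.1 O') m l q.2 := (B0_cont m l).comp h0
  have h2 : Continuous fun q : (Fin M → Orth N) × (Fin (m + 1) → Tor N) =>
      sy (tr (cat q.1 O') m q.2) := sy_cont.comp ((trc m).comp h0)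
  exact (froc.comp ((An_cont n).comp (h1.prodMk h2))).pow 2

theorem typ_spac (a b : ℝ) (ha : 0 < a) (hab : a ≤ b) (μ : Measure ℝ) (h1 : IsProbabilityMeasure μ)
    (hμ : ∀ s, 0 ≤ s → μ.real (Ioi s) = gE s) (f : ℝ → ℝ) (L K : ℝ) (hL0 : 0 ≤ L)
    (hL : ∀ u v, |f u - f v| ≤ L * dist u v) (hK : ∀ v, |f v| ≤ K) (ε : ℝ) (hε : 0 < ε) :
    ∃ N₀ : ℕ, ∀ N : ℕ, N₀ ≤ N → Even N → ∀ M m : ℕ, 20 ≤ M → M ≤ m →
      ∀ l : Fin (m + 1) → Fin N → ℝ, (∀ j i, l j i ∈ Icc a b) →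
      LinearIndependent ℚ (fun q : Fin (m + 1) × Fin N => l q.1 q.2) → ∀ O' : ℕ → Orth N,
      haarM N M {P | ¬ ∀ κ, IsLevels N m (cat P O') l κ → ∀ᶠ T : ℝ in atTop,
        |spac f (unf l κ) T - ∫ x, f x ∂μ| ≤ ε} ≤ ENNReal.ofReal ε := by
  obtain ⟨C₁, N₁, hC₁, H₁⟩ := fixed_spac a b ha hab f L K hL0 hL hK (ε / 4) (by linarith)
  obtain ⟨C₂, hC₂, H₂⟩ := annealed
  obtain ⟨C₃, hC₃, H₃⟩ := len_avg
  have HS := sa_spac μ h1 hμ f L K hL0 hL hK
  set v : ℝ := ∫ x, f x ∂μ with hv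
  set τ : ℝ := ε / (4 * (C₁ + 1)) with hτ
  have hτ0 : 0 < τ := by positivity
  set δ₂ : ℝ := ε * τ / (4 * (C₁ + 1)) with hδ₂
  have hδ₂0 : 0 < δ₂ := by positivity
  have hC₁' : C₁ / (C₁ + 1) ≤ 1 := (div_le_one (by linarith)).2 (by linarith)
  have e1 : C₁ * τ ≤ ε / 4 := by
    have : C₁ * τ = C₁ / (C₁ + 1) * (ε / 4) := by rw [hτ]; field_simp
    rw [this]
    nlinarith
  have e2 : C₁ * (1 / τ * δ₂) ≤ ε / 4 := by
    have : C₁ * (1 / τ * δ₂) = C₁ / (C₁ + 1) * (ε / 4) := by rw [hδ₂]; field_simp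
    rw [this]
    nlinarith
  -- limits
  have l1 := (tend_neg C₂ (1 / 12) (by norm_num)).eventually_le_const (show (0 : ℝ) < 1 by norm_num)
  have l2 := (tend_neg (2 * L * C₂ ^ 20) (1 / 6) (by norm_num)).eventually_le_const
    (show (0 : ℝ) < ε / 4 * (ε / 4) by positivity)
  have l3 := (tend_neg (C₃ * ((b - a) / a) ^ 2) (1 / 6) (by norm_num)).eventually_le_const
    (show (0 : ℝ) < δ₂ * (ε / 2) by positivity)
  have l4 := HS.eventually_le_const (show (0 : ℝ) < ε / 4 * (ε / 4) by positivity)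
  obtain ⟨A, hA⟩ := Filter.eventually_atTop.1 (l1.and (l2.and l3))
  obtain ⟨A', hA'⟩ := Filter.eventually_atTop.1 l4
  refine ⟨max (max N₁ A) (2 * A' + 2), fun N hN hE M m hM hm l hl hi O' => ?_⟩
  have hN1 : N₁ ≤ N := (le_max_left _ _).trans ((le_max_left _ _).trans hN)
  have hNA : A ≤ N := (le_max_right _ _).trans ((le_max_left _ _).trans hN)
  have hNA' : 2 * A' + 2 ≤ N := (le_max_right _ _).trans hN
  have hN2 : 2 ≤ N := by omega
  have hN0 : 0 < N := by omega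
  have hNR : (0 : ℝ) < N := by exact_mod_cast hN0
  obtain ⟨b1, b2, b3⟩ := hA N hNA
  have := prob_haarM N M
  have := sc_orth N
  set c : Uni N → ℝ := fun W => pspac N f (phases W.1) with hc
  have hcc : Cls (L * N) c := cls_spac hN0 f L hL0 hL
  have hccc : Continuous c := cls_cont hcc
  have hg1 : ∫ A : Uni N, |c (sy A) - v| ∂(haarU N) ≤ ε / 4 * (ε / 4) := by
    obtain ⟨r, hr⟩ := hE
    have hr2 : N = r * 2 := by omega
    subst hr2
    exact hA' r (by omega)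
  -- first event
  have hf1 : ∫ P : Fin M → Orth N, |(∫ θ, c (sy (tr (cat P O') m θ))) - v| ∂(haarM N M) ≤
      ε / 4 * (ε / 2) := by
    have i1 := abs_le_ann (M := M) (m := m) O' c hccc v
    have i2 := H₂ N hN2 (L * N) (fun W => |c W - v|) (by positivity) (cls_abs hcc v) M m hm O'
    have i3 := rate_le hN0 C₂ hC₂ b1 M 20 hM
    have i4 : (L * N) * (2 * C₂ ^ M * (N : ℝ) ^ (1 / 2 - M / 12 : ℝ)) ≤
        2 * L * C₂ ^ 20 * (N : ℝ) ^ (-(1 / 6) : ℝ) := by
      have e3 : (N : ℝ) * (N : ℝ) ^ (1 / 2 - (20 : ℕ) / 12 : ℝ) = (N : ℝ) ^ (-(1 / 6) : ℝ) := by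
        nth_rewrite 1 [← Real.rpow_one (N : ℝ)]
        rw [← Real.rpow_add hNR]
        norm_num
      calc (L * N) * (2 * C₂ ^ M * (N : ℝ) ^ (1 / 2 - M / 12 : ℝ))
          = 2 * L * N * (C₂ ^ M * (N : ℝ) ^ (1 / 2 - M / 12 : ℝ)) := by ring
        _ ≤ 2 * L * N * (C₂ ^ 20 * (N : ℝ) ^ (1 / 2 - (20 : ℕ) / 12 : ℝ)) :=
            mul_le_mul_of_nonneg_left i3 (by positivity)
        _ = 2 * L * C₂ ^ 20 * ((N : ℝ) * (N : ℝ) ^ (1 / 2 - (20 : ℕ) / 12 : ℝ)) := by ring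
        _ = _ := by rw [e3]
    have i5 := (abs_le.1 i2).2
    have i6 := i4.trans b2
    linarith
  have hm1 : haarM N M {P | ε / 4 < |(∫ θ, c (sy (tr (cat P O') m θ))) - v|} ≤
      ENNReal.ofReal (ε / 2) := by
    refine markov _ _ ?_ (fun _ => abs_nonneg _) _ _ (by linarith) hf1
    have hq : Continuous fun q : (Fin M → Orth N) × (Fin (m + 1) → Tor N) =>
        c (sy (tr (cat q.1 O') m q.2)) :=
      hccc.comp (sy_cont.comp ((trc m).comp (((cat_cont O').comp continuous_fst).prodMk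
        continuous_snd)))
    exact (((pint_cont _ hq).sub continuous_const).abs).integrable_of_hasCompactSupport
      (HasCompactSupport.of_compactSpace _)
  -- second event
  have hm2 : haarM N M {P | δ₂ < 1 / N * ∫ θ : Fin (m + 1) → Tor N,
      fro (An (nn N) (B0 (cat P O') m l θ) (sy (tr (cat P O') m θ))) ^ 2} ≤
      ENNReal.ofReal (ε / 2) := by
    refine markov _ _ ?_ (fun P => ?_) _ _ hδ₂0 ?_
    · exact (pint_int _ (f01_gcont (nn N) O' l)).const_mul _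
    · exact mul_nonneg (by positivity) (integral_nonneg fun θ => by positivity)
    · exact (H₃ N hN2 a b ha hab M m (by omega) hm O' l hl).trans b3
  refine (measure_mono (t := {P | ε / 4 < |(∫ θ, c (sy (tr (cat P O') m θ))) - v|} ∪
    {P | δ₂ < 1 / N * ∫ θ : Fin (m + 1) → Tor N,
      fro (An (nn N) (B0 (cat P O') m l θ) (sy (tr (cat P O') m θ))) ^ 2}) ?_).trans ?_
  · intro P hP
    by_contra hcon
    refine hP ?_
    have hcon1 : ¬ ε / 4 < |(∫ θ, c (sy (tr (cat P O') m θ))) - v| := fun h => hcon (Or.inl h)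
    have hcon2 : ¬ δ₂ < 1 / N * ∫ θ : Fin (m + 1) → Tor N,
      fro (An (nn N) (B0 (cat P O') m l θ) (sy (tr (cat P O') m θ))) ^ 2 := fun h => hcon (Or.inr h)
    push Not at hcon1 hcon2
    intro κ hκ
    have hnn : 1 ≤ nn N := by
      unfold nn
      exact Nat.one_le_ceil_iff.2 (by positivity)
    filter_upwards [H₁ N hN1 (cat P O') m l hl hi κ hκ (nn N) τ hnn hτ0] with T hT
    have j1 : C₁ * (τ + 1 / τ * (1 / N * ∫ θ, fro (An (nn N) (B0 (cat P O') m l θ)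
        (sy (tr (cat P O') m θ))) ^ 2)) ≤ ε / 4 + ε / 4 := by
      rw [mul_add]
      refine add_le_add e1 (le_trans ?_ e2)
      gcongr
    have j2 := abs_sub_le (spac f (unf l κ) T) (∫ θ, pspac N f (phases (sy (tr (cat P O') m θ)).1)) v
    have j3 : |(∫ θ, pspac N f (phases (sy (tr (cat P O') m θ)).1)) - v| ≤ ε / 4 := hcon1
    linarith
  · refine (measure_union_le _ _).trans ?_
    refine (add_le_add hm1 hm2).trans ?_
    rw [← ENNReal.ofReal_add (by linarith) (by linarith)]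
    exact ENNReal.ofReal_le_ofReal (by linarith)

end Ty
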