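import Pool.Agent.LibTy70.CDefs
import Pool.Agent.LibCOE.CP_W4
import Pool.Agent.LibCOE.CP_V1

/-! Row S06: Weyl's formula for symmetric functions. Plan: `coe_Fq` (CP_W4) with `q = N = n*2`: for a symmetric `G`,
`∑_{e : Fin N ↪ Fin N} G (θ ∘ e) = N! G θ` (an embedding of `Fin N` into itself is a permutation). Angles with the right
power sums exist (`link_q` CP_V1 / `ph_angles` CP_S3): choose `φ A`. `∫ wt > 0` is in LibCOE (used in CP_V6/`coe_corr`). -/

open MeasureTheory Set Filter Topology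

namespace Ty

open QGr COE

theorem s06_sum {N : ℕ} (G : (Fin N → ℝ) → ℝ)
    (hs : ∀ (σ : Equiv.Perm (Fin N)) x, G (fun a => x (σ a)) = G x) (θ : Fin N → ℝ) :
    ∑ e : Fin N ↪ Fin N, G (fun a => θ (e a)) = (Fintype.card (Fin N ↪ Fin N) : ℝ) * G θ := by
  have h : ∀ e : Fin N ↪ Fin N, G (fun a => θ (e a)) = G θ := by
    intro e
    have hb : Function.Bijective e := Finite.injective_iff_bijective.1 e.injective
    exact hs (Equiv.ofBijective e hb) θ
  rw [Finset.sum_congr rfl fun e _ => h e, Finset.sum_const, Finset.card_univ, nsmul_eq_mul]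

theorem weyl_sym {n : ℕ} (hn : 0 < n) (G : (Fin (n * 2) → ℝ) → ℝ) (hG : Continuous G)
    (hp : ∀ x j, G (Function.update x j (x j + 2 * Real.pi)) = G x)
    (hs : ∀ (σ : Equiv.Perm (Fin (n * 2))) x, G (fun a => x (σ a)) = G x)
    (φ : Uni (n * 2) → Fin (n * 2) → ℝ) (hφ : ∀ A (k : ℤ), tW A k = ps k (φ A)) :
    ∫ A, G (φ A) ∂(haarU (n * 2)) = EW n G := by
  have h := (coe_Fq G hG hp φ hφ).2
  have hc : (0 : ℝ) < (Fintype.card (Fin (n * 2) ↪ Fin (n * 2)) : ℝ) := by
    have : 0 < Fintype.card (Fin (n * 2) ↪ Fin (n * 2)) :=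
      Fintype.card_pos_iff.2 ⟨Function.Embedding.refl _⟩
    exact_mod_cast this
  simp only [s06_sum G hs] at h
  rw [integral_const_mul] at h
  have h2 : (fun θ : Fin (n * 2) → ℝ => (Fintype.card (Fin (n * 2) ↪ Fin (n * 2)) : ℝ) * G θ * wt θ)
      = fun θ => (Fintype.card (Fin (n * 2) ↪ Fin (n * 2)) : ℝ) * (G θ * wt θ) := by
    funext θ
    ring
  rw [h2, integral_const_mul, mul_assoc] at h
  have h3 := mul_left_cancel₀ hc.ne' h
  have hw := wt_int_pos (n * 2)
  unfold EW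
  rw [eq_div_iff hw.ne', h3]

end Ty
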