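import Pool.Agent.LibTy70.S05
import Pool.Agent.LibTy70.S06
import Pool.Agent.LibCOE.CP_V9

/-! Row S07: self-averaging of the correlation functions of the COE. Plan: `link_q`: for `2B < N` and angles `φ A` of `sy A`,
`pcorr N p f (phases (sy A)) = (1/N) ∑_e Fz N f (φ A ∘ e)`. With `G θ = |(1/N) ∑_e Fz N f (θ ∘ e) - m|` (continuous, periodic, symmetric:
Fz_cont, Fz_per) S06 gives `E_A |pcorr - m| = EW G`. S05 with `F = Fz N f` (`q = p + 1`; `Fz N f x ≠ 0` implies all points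
within the scaled distance `B` of `x 0`): `EW |(1/N)∑ F - (1/N) ∫ F rq| ≤ C n^(-1/4)`, and `(1/N) ∫ F rq = coeCorr` (coe_corr and its
proof, dens_int) `→ ∫ f gR` (goe_corr). -/

open MeasureTheory Set Filter Topology

namespace Ty

open QGr COE

/-- a nonzero term of the periodisation -/
theorem s07_ex {N p : ℕ} (f : (Fin p → ℝ) → ℝ) (x : Fin (p + 1) → ℝ) (h : Fz N f x ≠ 0) :
    ∃ m : Fin p → ℤ, f (fun i => N / (2 * Real.pi) * (x 0 - x i.succ) + m i * N) ≠ 0 := by
  by_contra hcon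
  push Not at hcon
  apply h
  unfold Fz pzq
  simp only [hcon]
  exact finsum_zero

theorem s07_cl {n p : ℕ} (hn : 0 < n) (f : (Fin (p + 1) → ℝ) → ℝ) (B : ℝ)
    (hB : ∀ v, (∃ i, B < |v i|) → f v = 0) (x : Fin (p + 2) → ℝ) (h : Fz (n * 2) f x ≠ 0) : cl n B x := by
  have hn0 : (0 : ℝ) < n := by exact_mod_cast hn
  have hpi := Real.pi_pos
  obtain ⟨m, hm⟩ := s07_ex f x h
  have hle : ∀ i, |((n * 2 : ℕ) : ℝ) / (2 * Real.pi) * (x 0 - x i.succ) + m i * ((n * 2 : ℕ) : ℝ)| ≤ B := by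
    intro i
    by_contra hc
    exact hm (hB _ ⟨i, not_le.1 hc⟩)
  have hB0 : 0 ≤ B := (abs_nonneg _).trans (hle 0)
  intro i
  refine Fin.cases ?_ (fun i => ?_) i
  · unfold cd
    simp
    exact hB0
  · refine le_trans ?_ (hle i)
    unfold cd
    set r : ℝ := n / Real.pi * (x i.succ - x 0) with hr
    have h1 := round_le (r / (2 * n)) (m i)
    have h2 : |r - 2 * n * round (r / (2 * n))| = 2 * n * |r / (2 * n) - round (r / (2 * n))| := by
      have : r - 2 * n * round (r / (2 * n)) = 2 * n * (r / (2 * n) - round (r / (2 * n))) := by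
        rw [mul_sub, mul_div_cancel₀ r (by positivity : (2 * (n : ℝ)) ≠ 0)]
      rw [this, abs_mul, abs_of_pos (by positivity : (0 : ℝ) < 2 * n)]
    have h3 : |((n * 2 : ℕ) : ℝ) / (2 * Real.pi) * (x 0 - x i.succ) + m i * ((n * 2 : ℕ) : ℝ)| =
        2 * n * |r / (2 * n) - m i| := by
      have : ((n * 2 : ℕ) : ℝ) / (2 * Real.pi) * (x 0 - x i.succ) + m i * ((n * 2 : ℕ) : ℝ) =
          -(2 * n * (r / (2 * n) - m i)) := by
        have e1 : 2 * (n : ℝ) * (r / (2 * n)) = r := mul_div_cancel₀ r (by positivity : (2 * (n : ℝ)) ≠ 0)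
        rw [mul_sub (2 * (n : ℝ)), e1, hr]
        push_cast
        field_simp
        ring
      rw [this, abs_neg, abs_mul, abs_of_pos (by positivity : (0 : ℝ) < 2 * n)]
    rw [h2, h3]
    exact mul_le_mul_of_nonneg_left h1 (by positivity)

theorem s07_bdd {N p : ℕ} (hN : 0 < N) (f : (Fin p → ℝ) → ℝ) (B : ℝ)
    (hB : ∀ v, (∃ i, B < |v i|) → f v = 0) (hBN : 2 * B < N) (K : ℝ) (hK0 : 0 ≤ K) (hK : ∀ v, |f v| ≤ K)
    (x : Fin (p + 1) → ℝ) : |Fz N f x| ≤ K := by
  have hN0 : (0 : ℝ) < N := by exact_mod_cast hN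
  by_cases h : Fz N f x = 0
  · rw [h, abs_zero]
    exact hK0
  obtain ⟨m, hm⟩ := s07_ex f x h
  have hle : ∀ m' : Fin p → ℤ, f (fun i => N / (2 * Real.pi) * (x 0 - x i.succ) + m' i * N) ≠ 0 →
      ∀ i, |(N : ℝ) / (2 * Real.pi) * (x 0 - x i.succ) + m' i * N| ≤ B := by
    intro m' hm' i
    by_contra hc
    exact hm' (hB _ ⟨i, not_le.1 hc⟩)
  have h1 : Fz N f x = f (fun i => N / (2 * Real.pi) * (x 0 - x i.succ) + m i * N) := by
    unfold Fz pzq
    refine finsum_eq_single _ m fun m' hm' => ?_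
    by_contra hc
    apply hm'
    funext i
    have a1 := abs_le.1 (hle m hm i)
    have a2 := abs_le.1 (hle m' hc i)
    by_contra hne
    rcases lt_or_gt_of_ne hne with h3 | h3
    · have h4 : (m' i : ℝ) + 1 ≤ m i := by exact_mod_cast h3
      nlinarith
    · have h4 : (m i : ℝ) + 1 ≤ m' i := by exact_mod_cast h3
      nlinarith
  rw [h1]
  exact hK _

theorem s07_per {N q : ℕ} (F : (Fin q → ℝ) → ℝ)
    (hp : ∀ x j, F (Function.update x j (x j + 2 * Real.pi)) = F x) (θ : Fin N → ℝ) (j : Fin N)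
    (e : Fin q ↪ Fin N) : F (fun a => (Function.update θ j (θ j + 2 * Real.pi)) (e a)) = F fun a => θ (e a) := by
  by_cases h : ∃ a, e a = j
  · obtain ⟨a0, rfl⟩ := h
    rw [← hp (fun a => θ (e a)) a0]
    congr 1
    funext a
    by_cases ha : a = a0
    · subst ha
      simp
    · rw [Function.update_of_ne ha, Function.update_of_ne (fun h => ha (e.injective h))]
  · push Not at h
    congr 1
    funext a
    rw [Function.update_of_ne (h a)]

theorem s07_sym {N q : ℕ} (F : (Fin q → ℝ) → ℝ) (σ : Equiv.Perm (Fin N)) (θ : Fin N → ℝ) :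
    ∑ e : Fin q ↪ Fin N, F (fun a => (fun b => θ (σ b)) (e a)) = ∑ e : Fin q ↪ Fin N, F fun a => θ (e a) :=
  Fintype.sum_equiv (Equiv.embeddingCongr (Equiv.refl _) σ) _ _ fun _ => rfl

theorem s07_coe {n p : ℕ} (hn : 0 < n) (f : (Fin (p + 1) → ℝ) → ℝ) (hf : Continuous f) (B : ℝ)
    (hB : ∀ v, (∃ i, B < |v i|) → f v = 0) (hBn : B < n) :
    coeCorr (n * 2) p f = 1 / (n * 2 : ℝ) * ∫ x, Fz (n * 2) f x * rq n x ∂(cube (Fin (p + 1 + 1))) := by
  have hN : 0 < n * 2 := by omega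
  have hNR : ((n * 2 : ℕ) : ℝ) = n * 2 := by push_cast; ring
  have hBN : 2 * B < ((n * 2 : ℕ) : ℝ) := by rw [hNR]; linarith
  choose φ hφ1 hφ2 using fun A : Uni (n * 2) => link_q hN (sy A)
  have h1 : coeCorr (n * 2) p f = 1 / ((n * 2 : ℕ) : ℝ) * ∫ A, ∑ e : Fin (p + 2) ↪ Fin (n * 2),
      Fz (n * 2) f (fun a => φ A (e a)) ∂(haarU (n * 2)) := by
    unfold coeCorr
    rw [← integral_const_mul]
    refine integral_congr_ae (Eventually.of_forall fun A => ?_)
    exact hφ2 A p f B hB hBN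
  have hFc := Fz_cont hN f hf B hB
  obtain ⟨K, hK⟩ := Fz_bdd hN f hf B hB
  have h2 := (coe_Fq (Fz (n * 2) f) hFc (Fz_per hN f) φ fun A k => hφ1 A k).2
  have h3 := dens_int n (Fz (n * 2) f : (Fin (p + 2) → ℝ) → ℝ) hFc.measurable K hK
  rw [h3, mul_comm] at h2
  have h4 := mul_left_cancel₀ (wt_int_pos (n * 2)).ne' h2
  rw [h1, h4, hNR]

theorem s07_wt_int {N : ℕ} (φ : (Fin N → ℝ) → ℝ) (hφ : Continuous φ) (K : ℝ) (hK : ∀ θ, |φ θ| ≤ K) :
    Integrable (fun θ => φ θ * wt θ) (cube (Fin N)) := by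
  have := cube_fin (Fin N)
  refine Integrable.of_bound ((hφ.mul wt_cont).measurable.aestronglyMeasurable) (K * 2 ^ (N * N))
    (Eventually.of_forall fun θ => ?_)
  rw [Real.norm_eq_abs, abs_mul, abs_of_nonneg (wt_nonneg θ)]
  exact mul_le_mul (hK θ) (wt_le θ) (wt_nonneg θ) ((abs_nonneg _).trans (hK θ))

theorem sa_corr (p : ℕ) (f : (Fin (p + 1) → ℝ) → ℝ) (hf : Continuous f) (B : ℝ)
    (hB : ∀ v, (∃ i, B < |v i|) → f v = 0) :
    Tendsto (fun n : ℕ => ∫ A : Uni (n * 2), |pcorr (n * 2) p f (phases (sy A).1) -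
      ∫ v, f v * gR (Fin.cons 0 v : Fin (p + 2) → ℝ)| ∂(haarU (n * 2))) atTop (𝓝 0) := by
  set m : ℝ := ∫ v, f v * gR (Fin.cons 0 v : Fin (p + 2) → ℝ) with hm
  -- nonnegative radius
  set R : ℝ := |B| with hR
  have hR0 : 0 ≤ R := abs_nonneg B
  have hBR : ∀ v, (∃ i, R < |v i|) → f v = 0 := by
    rintro v ⟨i, hi⟩
    exact hB v ⟨i, (le_abs_self B).trans_lt hi⟩
  -- bound of f
  obtain ⟨K, hK0, hK⟩ : ∃ K : ℝ, 0 ≤ K ∧ ∀ v, |f v| ≤ K := by
    set Q : Set (Fin (p + 1) → ℝ) := univ.pi fun _ => Icc (-R) R with hQ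
    have hQc : IsCompact Q := isCompact_univ_pi fun _ => isCompact_Icc
    obtain ⟨K, hK⟩ := hQc.exists_bound_of_continuousOn hf.continuousOn
    refine ⟨|K|, abs_nonneg _, fun v => ?_⟩
    by_cases hv : v ∈ Q
    · exact (hK v hv).trans (le_abs_self K)
    · have : f v = 0 := by
        apply hBR
        by_contra hcon
        push Not at hcon
        exact hv fun i _ => abs_le.1 (hcon i)
      rw [this, abs_zero]
      exact abs_nonneg K
  obtain ⟨C, hC0, hC⟩ := sa_F (p + 1) R K hR0 hK0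
  obtain ⟨C', hC'⟩ := goe_corr p f hf B hB
  have key : ∀ n : ℕ, 0 < n → R < n → ∫ A : Uni (n * 2), |pcorr (n * 2) p f (phases (sy A).1) - m| ∂(haarU (n * 2)) ≤
      C * (n : ℝ) ^ (-(1 / 4) : ℝ) + C' / n := by
    intro n hn hRn
    have hn0 : (0 : ℝ) < n := by exact_mod_cast hn
    have hN : 0 < n * 2 := by omega
    have hNR : ((n * 2 : ℕ) : ℝ) = n * 2 := by push_cast; ring
    have hBN : 2 * R < ((n * 2 : ℕ) : ℝ) := by rw [hNR]; linarith
    choose φ hφ1 hφ2 using fun A : Uni (n * 2) => link_q hN (sy A)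
    have hFc := Fz_cont hN f hf R hBR
    set S : (Fin (n * 2) → ℝ) → ℝ := fun θ => 1 / (n * 2 : ℝ) * ∑ e : Fin (p + 1 + 1) ↪ Fin (n * 2),
      Fz (n * 2) f (fun a => θ (e a)) with hS
    have hSc : Continuous S := by
      rw [hS]
      refine continuous_const.mul (continuous_finsetSum _ fun e _ => hFc.comp ?_)
      exact continuous_pi fun a => continuous_apply _
    set G : (Fin (n * 2) → ℝ) → ℝ := fun θ => |S θ - m| with hG
    have hGc : Continuous G := (hSc.sub continuous_const).abs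
    have h1 : ∫ A : Uni (n * 2), |pcorr (n * 2) p f (phases (sy A).1) - m| ∂(haarU (n * 2)) =
        ∫ A, G (φ A) ∂(haarU (n * 2)) := by
      refine integral_congr_ae (Eventually.of_forall fun A => ?_)
      have := hφ2 A p f R hBR hBN
      simp only [hG, hS]
      rw [this, hNR]
    have h2 : ∫ A, G (φ A) ∂(haarU (n * 2)) = EW n G := by
      refine weyl_sym hn G hGc ?_ ?_ φ fun A k => hφ1 A k
      · intro θ j
        simp only [hG, hS]
        simp only [s07_per (Fz (n * 2) f) (Fz_per hN f) θ j]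
      · intro σ θ
        simp only [hG, hS]
        rw [s07_sym (Fz (n * 2) f) σ θ]
    rw [h1, h2]
    set c : ℝ := 1 / (n * 2 : ℝ) * ∫ x, Fz (n * 2) f x * rq n x ∂(cube (Fin (p + 1 + 1))) with hc
    have hcc : coeCorr (n * 2) p f = c := s07_coe hn f hf R hBR hRn
    have h3 := hC n hn (Fz (n * 2) f) hFc.measurable
      (s07_bdd hN f R hBR hBN K hK0 hK) (fun x hx => s07_cl hn f R hBR x hx)
    have h4 : EW n (fun θ => |S θ - c|) ≤ C * (n : ℝ) ^ (-(1 / 4) : ℝ) := h3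
    have h5 := hC' n hn
    rw [← hm, hcc] at h5
    have hw := wt_int_pos (n * 2)
    -- bounds
    have hSb : ∀ θ, |S θ| ≤ 1 / (n * 2 : ℝ) * (Fintype.card (Fin (p + 1 + 1) ↪ Fin (n * 2)) * K) := by
      intro θ
      simp only [hS]
      rw [abs_mul, abs_of_nonneg (by positivity : (0 : ℝ) ≤ 1 / (n * 2))]
      refine mul_le_mul_of_nonneg_left ?_ (by positivity)
      refine (Finset.abs_sum_le_sum_abs _ _).trans ?_
      refine (Finset.sum_le_card_nsmul _ _ K fun e _ => s07_bdd hN f R hBR hBN K hK0 hK _).trans ?_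
      rw [Finset.card_univ, nsmul_eq_mul]
    set M : ℝ := 1 / (n * 2 : ℝ) * (Fintype.card (Fin (p + 1 + 1) ↪ Fin (n * 2)) * K) with hM
    have hGb : ∀ d : ℝ, ∀ θ, |(|S θ - d|)| ≤ M + |d| := by
      intro d θ
      rw [abs_abs]
      exact (abs_sub _ _).trans (add_le_add (hSb θ) le_rfl)
    have i1 := s07_wt_int (fun θ => |S θ - m|) hGc (M + |m|) (hGb m)
    have i2 := s07_wt_int (fun θ => |S θ - c|) (hSc.sub continuous_const).abs (M + |c|) (hGb c)
    have i3 := s07_wt_int (fun _ : Fin (n * 2) → ℝ => |c - m|) continuous_const (|c - m|)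
      (fun _ => by rw [abs_abs])
    have h6 : EW n G ≤ EW n (fun θ => |S θ - c|) + |c - m| := by
      unfold EW
      rw [div_add' _ _ _ hw.ne', div_le_div_iff_of_pos_right hw, ← integral_const_mul, ← integral_add i2 i3]
      refine integral_mono i1 (i2.add i3) fun θ => ?_
      have h7 : |S θ - m| ≤ |S θ - c| + |c - m| := by
        have := abs_add_le (S θ - c) (c - m)
        rwa [sub_add_sub_cancel] at this
      calc |S θ - m| * wt θ ≤ (|S θ - c| + |c - m|) * wt θ := mul_le_mul_of_nonneg_right h7 (wt_nonneg θ)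
        _ = _ := by
          ring
    linarith
  -- the limit
  have hlim : Tendsto (fun n : ℕ => C * (n : ℝ) ^ (-(1 / 4) : ℝ) + C' / n) atTop (𝓝 0) := by
    have h1 : Tendsto (fun n : ℕ => (n : ℝ) ^ (-(1 / 4) : ℝ)) atTop (𝓝 0) :=
      (tendsto_rpow_neg_atTop (by norm_num : (0 : ℝ) < 1 / 4)).comp tendsto_natCast_atTop_atTop
    have h2 : Tendsto (fun n : ℕ => C' / (n : ℝ)) atTop (𝓝 0) :=
      tendsto_const_div_atTop_nhds_zero_nat C'
    have := (h1.const_mul C).add h2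
    simpa using this
  refine squeeze_zero' (Eventually.of_forall fun n => integral_nonneg fun A => abs_nonneg _) ?_ hlim
  filter_upwards [eventually_gt_atTop (⌈R⌉₊ + 1)] with n hn
  refine key n (by omega) ?_
  have h1 : R ≤ ⌈R⌉₊ := Nat.le_ceil R
  have h2 : ((⌈R⌉₊ : ℕ) : ℝ) < n := by exact_mod_cast (by omega : ⌈R⌉₊ < n)
  exact h1.trans_lt h2

end Ty
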