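import Pool.Agent.LibTy70.Defs
import Pool.Agent.LibQGr.R_COR
import Pool.Agent.LibQGr.R_ZER

/-! Row V04: levels and phases near a fixed time, correlation sums. -/

open MeasureTheory Set Filter Topology

namespace Ty

open QGr

section

variable {N : ℕ} {c : ℝ} {Φ : ℤ → ℝ → ℝ} {w : ℝ → ℝ}

theorem v04_abs (hc : 0 < c) (hS : Sys N c Φ w) (p : ℤ) (s t : ℝ) :
    c * |s - t| ≤ |Φ p s - Φ p t| ∧ c * |Φ p s - Φ p t| ≤ |s - t| := by
  rcases le_total s t with h | h
  · have h1 := hS.low p s t h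
    have h2 := hS.up p s t h
    have h3 : 0 ≤ c * (t - s) := mul_nonneg hc.le (by linarith)
    rw [abs_sub_comm s t, abs_sub_comm (Φ p s), abs_of_nonneg (by linarith : 0 ≤ t - s),
      abs_of_nonneg (by linarith : 0 ≤ Φ p t - Φ p s)]
    exact ⟨h1, h2⟩
  · have h1 := hS.low p t s h
    have h2 := hS.up p t s h
    have h3 : 0 ≤ c * (s - t) := mul_nonneg hc.le (by linarith)
    rw [abs_of_nonneg (by linarith : 0 ≤ s - t), abs_of_nonneg (by linarith : 0 ≤ Φ p s - Φ p t)]
    exact ⟨h1, h2⟩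

theorem v04_lip (hc : 0 < c) (hS : Sys N c Φ w) (p : ℤ) : LipschitzWith (Real.toNNReal (1 / c)) (Φ p) := by
  refine LipschitzWith.of_dist_le_mul fun s t => ?_
  rw [Real.coe_toNNReal _ (by positivity), Real.dist_eq, Real.dist_eq, div_mul_eq_mul_div, one_mul, le_div_iff₀ hc,
    mul_comm]
  exact (v04_abs hc hS p s t).2

theorem v04_ac (hc : 0 < c) (hS : Sys N c Φ w) (p : ℤ) (a b : ℝ) : AbsolutelyContinuousOnInterval (Φ p) a b :=
  (v04_lip hc hS p).lipschitzOnWith.absolutelyContinuousOnInterval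

theorem v04_int (hc : 0 < c) (hS : Sys N c Φ w) (p : ℤ) (a b : ℝ) :
    IntervalIntegrable (fun s => |deriv (Φ p) s - 1|) volume a b :=
  ((v04_ac hc hS p a b).intervalIntegrable_deriv.sub intervalIntegrable_const).abs

theorem v04_dev (hc : 0 < c) (hS : Sys N c Φ w) (p : ℤ) {t x S : ℝ} (h0 : Φ p x = 0) (hx : |x - t| ≤ S) :
    |(x - t) - (-Φ p t)| ≤ ∫ s in (t - S)..(t + S), |deriv (Φ p) s - 1| := by
  have h1 : ∫ s in t..x, deriv (Φ p) s = Φ p x - Φ p t := (v04_ac hc hS p t x).integral_deriv_eq_sub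
  have h2 : ∫ s in t..x, (deriv (Φ p) s - 1) = (Φ p x - Φ p t) - (x - t) := by
    rw [intervalIntegral.integral_sub (v04_ac hc hS p t x).intervalIntegrable_deriv intervalIntegrable_const, h1,
      intervalIntegral.integral_const, smul_eq_mul, mul_one]
  have h3 : |(x - t) - (-Φ p t)| = |∫ s in t..x, (deriv (Φ p) s - 1)| := by
    rw [h2, h0, ← abs_neg]
    congr 1
    ring
  have hS0 : 0 ≤ S := (abs_nonneg _).trans hx
  have h4 : Set.uIoc t x ⊆ Set.uIoc (t - S) (t + S) := by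
    obtain ⟨ha, hb⟩ := abs_le.1 hx
    rw [uIoc_of_le (by linarith : t - S ≤ t + S)]
    intro s hs
    rcases le_total t x with h | h
    · rw [uIoc_of_le h] at hs
      exact ⟨by linarith [hs.1], by linarith [hs.2]⟩
    · rw [uIoc_of_ge h] at hs
      exact ⟨by linarith [hs.1], by linarith [hs.2]⟩
  rw [h3]
  have h5 := intervalIntegral.norm_integral_le_abs_integral_norm (f := fun s => deriv (Φ p) s - 1) (a := t) (b := x)
    (μ := volume)
  simp only [Real.norm_eq_abs] at h5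
  have h6 := intervalIntegral.abs_integral_mono_interval (f := fun s => |deriv (Φ p) s - 1|) (μ := volume) h4
    (Eventually.of_forall fun s => abs_nonneg _) (v04_int hc hS p _ _)
  have h7 : abs (∫ s in (t - S)..(t + S), |deriv (Φ p) s - 1|) = ∫ s in (t - S)..(t + S), |deriv (Φ p) s - 1| :=
    abs_of_nonneg (intervalIntegral.integral_nonneg (by linarith) fun s _ => abs_nonneg _)
  rw [h7] at h6
  exact h5.trans h6

theorem v04_iter (hS : Sys N c Φ w) (p : ℤ) (t : ℝ) (k : ℕ) : Φ (p + k * N) t = Φ p t + k * N := by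
  induction k with
  | zero => simp
  | succ k ih =>
    have h2 : p + ((k + 1 : ℕ) : ℤ) * N = p + k * N + N := by push_cast; ring
    rw [h2, hS.per, ih]
    push_cast
    ring

theorem v04_fin (hN : 0 < N) (hS : Sys N c Φ w) (R s : ℝ) : {q : ℤ | |Φ q s| ≤ R}.Finite := by
  have hNR : (1 : ℝ) ≤ N := by exact_mod_cast hN
  obtain ⟨k, hk⟩ := exists_nat_gt (R + |Φ 0 s|)
  have hkN : (k : ℝ) ≤ k * N := by
    have : (0 : ℝ) ≤ k := Nat.cast_nonneg k
    nlinarith
  have h1 := v04_iter hS 0 s k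
  have h2 := v04_iter hS (-(k * N)) s k
  have e : -((k : ℤ) * N) + k * N = 0 := by ring
  rw [e] at h2
  rw [zero_add] at h1
  have h3 := neg_abs_le (Φ 0 s)
  have h4 := le_abs_self (Φ 0 s)
  refine (Set.finite_Icc (-((k : ℤ) * N)) (k * N)).subset fun q hq => ?_
  rw [mem_ofPred_eq] at hq
  obtain ⟨ha, hb⟩ := abs_le.1 hq
  rw [mem_Icc]
  constructor
  · by_contra hcon
    rw [not_le] at hcon
    have := hS.mono s hcon.le
    simp only at this
    linarith
  · by_contra hcon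
    rw [not_le] at hcon
    have := hS.mono s hcon.le
    simp only at this
    linarith

end

theorem v04_F {p : ℕ} {f : (Fin (p + 1) → ℝ) → ℝ} {L K : ℝ} (hL0 : 0 ≤ L) (hL : ∀ u v, |f u - f v| ≤ L * dist u v)
    (hK : ∀ v, |f v| ≤ K) {η : ℝ → ℝ} {Lη : ℝ} (hη : ∀ x y, |η x - η y| ≤ Lη * |x - y|) (h1 : ∀ x, 1 < |x| → η x = 0)
    (z z' : ℤ → ℝ) (q : ℤ) (r : Fin (p + 1) → ℤ) :
    |η (z q) * f (fun i => z (r i) - z q) - η (z' q) * f (fun i => z' (r i) - z' q)| ≤
      (Lη * K + 3 * Lη * L) * (|z q - z' q| + ∑ i, |z (r i) - z' (r i)|) := by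
  have hK0 : 0 ≤ K := (abs_nonneg _).trans (hK 0)
  have hLη : 0 ≤ Lη := by
    have := (abs_nonneg _).trans (hη 1 0)
    simpa using this
  have hη3 : ∀ x, |η x| ≤ 3 * Lη := by
    intro x
    rcases le_or_gt |x| 1 with hx | hx
    · have h2 := hη x 2
      rw [h1 2 (by norm_num), sub_zero] at h2
      refine h2.trans ?_
      have h3 : |x - 2| ≤ 3 := by
        obtain ⟨ha, hb⟩ := abs_le.1 hx
        rw [abs_le]
        constructor <;> linarith
      have := mul_le_mul_of_nonneg_left h3 hLη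
      linarith
    · rw [h1 x hx, abs_zero]
      positivity
  have hs : 0 ≤ ∑ i, |z (r i) - z' (r i)| := Finset.sum_nonneg fun i _ => abs_nonneg _
  have hd : dist (fun i => z (r i) - z q) (fun i => z' (r i) - z' q) ≤ |z q - z' q| + ∑ i, |z (r i) - z' (r i)| := by
    rw [dist_pi_le_iff (by positivity)]
    intro i
    rw [Real.dist_eq]
    have h2 : |z (r i) - z' (r i)| ≤ ∑ i, |z (r i) - z' (r i)| :=
      Finset.single_le_sum (f := fun i => |z (r i) - z' (r i)|) (fun i _ => abs_nonneg _) (Finset.mem_univ i)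
    have h3 : z (r i) - z q - (z' (r i) - z' q) = (z (r i) - z' (r i)) - (z q - z' q) := by ring
    rw [h3]
    exact (abs_sub _ _).trans (by linarith)
  have e : η (z q) * f (fun i => z (r i) - z q) - η (z' q) * f (fun i => z' (r i) - z' q) =
      (η (z q) - η (z' q)) * f (fun i => z (r i) - z q) +
        η (z' q) * (f (fun i => z (r i) - z q) - f (fun i => z' (r i) - z' q)) := by ring
  rw [e]
  refine (abs_add_le _ _).trans ?_
  rw [abs_mul, abs_mul]
  have a1 : |η (z q) - η (z' q)| * |f (fun i => z (r i) - z q)| ≤ (Lη * |z q - z' q|) * K :=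
    mul_le_mul (hη _ _) (hK _) (abs_nonneg _) (by positivity)
  have a2 : |η (z' q)| * |f (fun i => z (r i) - z q) - f (fun i => z' (r i) - z' q)| ≤
      3 * Lη * (L * (|z q - z' q| + ∑ i, |z (r i) - z' (r i)|)) :=
    mul_le_mul (hη3 _) ((hL _ _).trans (mul_le_mul_of_nonneg_left hd hL0)) (abs_nonneg _) (by positivity)
  have a3 : (Lη * |z q - z' q|) * K ≤ Lη * K * (|z q - z' q| + ∑ i, |z (r i) - z' (r i)|) := by
    have : 0 ≤ Lη * K * ∑ i, |z (r i) - z' (r i)| := by positivity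
    linarith
  calc _ ≤ Lη * K * (|z q - z' q| + ∑ i, |z (r i) - z' (r i)|) +
        3 * Lη * (L * (|z q - z' q| + ∑ i, |z (r i) - z' (r i)|)) := add_le_add (a1.trans a3) a2
    _ = _ := by ring

theorem v04_marg {p : ℕ} (A : Finset ℤ) (g : ℤ → ℝ) (i : Fin (p + 1)) :
    ∑ j ∈ Fintype.piFinset (fun _ : Fin (p + 1) => A), g (j i) = (A.card : ℝ) ^ p * ∑ a ∈ A, g a := by
  classical
  have h := Finset.prod_univ_sum (fun _ : Fin (p + 1) => A) (fun (i' : Fin (p + 1)) (a : ℤ) => if i' = i then g a else 1)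
  have h1 : ∏ i' : Fin (p + 1), ∑ a ∈ A, (if i' = i then g a else 1) = (A.card : ℝ) ^ p * ∑ a ∈ A, g a := by
    rw [← Finset.mul_prod_erase Finset.univ _ (Finset.mem_univ i)]
    have h2 : ∏ i' ∈ Finset.univ.erase i, ∑ a ∈ A, (if i' = i then g a else 1) = (A.card : ℝ) ^ p := by
      rw [Finset.prod_congr rfl (g := fun _ => (A.card : ℝ))]
      · rw [Finset.prod_const, Finset.card_erase_of_mem (Finset.mem_univ i), Finset.card_univ, Fintype.card_fin]
        simp
      · intro i' hi'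
        have : i' ≠ i := (Finset.mem_erase.1 hi').1
        simp [this]
    rw [h2]
    simp only [if_true]
    ring
  rw [← h1, h]
  refine Finset.sum_congr rfl fun j _ => ?_
  rw [Finset.prod_ite_eq' Finset.univ i]
  simp

/-- the sum over the tuples -/
theorem v04_tuples {p M : ℕ} (A : Finset ℤ) (d : ℤ → ℝ) (hd : ∀ q, 0 ≤ d q) :
    ∑ q ∈ A, ∑ r : {r : Fin (p + 1) → Fin (2 * M + 1) // Function.Injective r ∧ ∀ i, (r i).val ≠ M},
      (if ∀ i, q + ((r.1 i : ℕ) : ℤ) - M ∈ A then d q + ∑ i, d (q + ((r.1 i : ℕ) : ℤ) - M) else 0) ≤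
      ((p : ℝ) + 2) * (A.card : ℝ) ^ (p + 1) * ∑ q ∈ A, d q := by
  classical
  have h1 : ∀ q ∈ A, ∑ r : {r : Fin (p + 1) → Fin (2 * M + 1) // Function.Injective r ∧ ∀ i, (r i).val ≠ M},
      (if ∀ i, q + ((r.1 i : ℕ) : ℤ) - M ∈ A then d q + ∑ i, d (q + ((r.1 i : ℕ) : ℤ) - M) else 0) ≤
      ∑ j ∈ Fintype.piFinset (fun _ : Fin (p + 1) => A), (d q + ∑ i, d (j i)) := by
    intro q _
    rw [← Finset.sum_filter]
    rw [← Finset.sum_image (s := Finset.univ.filter fun r : {r : Fin (p + 1) → Fin (2 * M + 1) //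
        Function.Injective r ∧ ∀ i, (r i).val ≠ M} => ∀ i, q + ((r.1 i : ℕ) : ℤ) - M ∈ A)
      (g := fun r => fun i : Fin (p + 1) => q + ((r.1 i : ℕ) : ℤ) - M)
      (f := fun j : Fin (p + 1) → ℤ => d q + ∑ i, d (j i))]
    · refine Finset.sum_le_sum_of_subset_of_nonneg ?_ fun j _ _ =>
        add_nonneg (hd q) (Finset.sum_nonneg fun i _ => hd _)
      intro j hj
      rw [Finset.mem_image] at hj
      obtain ⟨r, hr, rfl⟩ := hj
      rw [Fintype.mem_piFinset]
      exact (Finset.mem_filter.1 hr).2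
    · intro r _ r' _ h
      refine Subtype.ext (funext fun i => Fin.ext ?_)
      have := congrFun h i
      simp only at this
      omega
  refine (Finset.sum_le_sum h1).trans (le_of_eq ?_)
  have h2 : ∀ q ∈ A, ∑ j ∈ Fintype.piFinset (fun _ : Fin (p + 1) => A), (d q + ∑ i, d (j i)) =
      (A.card : ℝ) ^ (p + 1) * d q + ((p : ℝ) + 1) * ((A.card : ℝ) ^ p * ∑ a ∈ A, d a) := by
    intro q _
    rw [Finset.sum_add_distrib, Finset.sum_const, Fintype.card_piFinset_const, Finset.sum_comm]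
    have h3 : ∀ i ∈ (Finset.univ : Finset (Fin (p + 1))),
        ∑ j ∈ Fintype.piFinset (fun _ : Fin (p + 1) => A), d (j i) = (A.card : ℝ) ^ p * ∑ a ∈ A, d a :=
      fun i _ => v04_marg A d i
    rw [Finset.sum_congr rfl h3, Finset.sum_const, Finset.card_univ, Fintype.card_fin, nsmul_eq_mul, nsmul_eq_mul]
    push_cast
    ring
  rw [Finset.sum_congr rfl h2, Finset.sum_add_distrib, ← Finset.mul_sum, Finset.sum_const, nsmul_eq_mul]
  ring

theorem v04_Lw {p M : ℕ} (f : (Fin (p + 1) → ℝ) → ℝ) (η : ℝ → ℝ) (z : ℤ → ℝ) (A : Finset ℤ)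
    (hA : ∀ q, q ∉ A → η (z q) = 0) :
    Lw M η (hco p M f) z = ∑ q ∈ A, ∑ r : {r : Fin (p + 1) → Fin (2 * M + 1) // Function.Injective r ∧
      ∀ i, (r i).val ≠ M}, η (z q) * f (fun i => z (q + ((r.1 i : ℕ) : ℤ) - M) - z q) := by
  unfold Lw
  rw [finsum_eq_sum_of_support_subset (s := A)]
  · refine Finset.sum_congr rfl fun q _ => ?_
    unfold hco
    rw [Finset.mul_sum]
  · intro q hq
    rw [Function.mem_support] at hq
    by_contra hcon
    exact hq (by rw [hA q (by simpa using hcon), zero_mul])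

theorem pt_corr {c : ℝ} (hc : 0 < c) (hc1 : c ≤ 1) (p : ℕ) (f : (Fin (p + 1) → ℝ) → ℝ) (L K B : ℝ)
    (hL0 : 0 ≤ L) (hL : ∀ u v, |f u - f v| ≤ L * dist u v) (hK : ∀ v, |f v| ≤ K)
    (hB : ∀ v, (∃ i, B < |v i|) → f v = 0) (η : ℝ → ℝ) (Lη : ℝ)
    (hη : ∀ x y, |η x - η y| ≤ Lη * |x - y|) (h1 : ∀ x, 1 < |x| → η x = 0) :
    ∃ C R S : ℝ, 0 ≤ C ∧ 0 < R ∧ 0 < S ∧ ∀ N : ℕ, 0 < N → ∀ (Φ : ℤ → ℝ → ℝ) (w : ℝ → ℝ), Sys N c Φ w →
      ∀ X : ℤ → ℝ, (∀ p, Φ (-p) (X p) = 0) → Monotone X → ∀ (M : ℕ) (G : ℝ → ℝ), Continuous G →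
      (∀ᵐ s, (n2 R Φ s : ℝ) ^ (p + 1) * sD 1 R Φ s ≤ G s) → ∀ t : ℝ,
      |Lw M η (hco p M f) (fun q => X q - t) - Lw M η (hco p M f) (fun q => -Φ (-q) t)| ≤
        C * ∫ s in (t - S)..(t + S), G s := by
  classical
  have hK0 : 0 ≤ K := (abs_nonneg _).trans (hK 0)
  have hLη : 0 ≤ Lη := by
    have := (abs_nonneg _).trans (hη 1 0)
    simpa using this
  set R₁ : ℝ := |B| + 1 with hR₁
  have hR1 : 1 ≤ R₁ := by rw [hR₁]; linarith [abs_nonneg B]
  have hR10 : 0 < R₁ := by linarith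
  set S : ℝ := R₁ / c with hSdef
  have hS0 : 0 < S := by positivity
  have hR1S : R₁ ≤ S := by
    rw [hSdef, le_div_iff₀ hc]
    nlinarith
  set L' : ℝ := Lη * K + 3 * Lη * L with hL'
  have hL'0 : 0 ≤ L' := by positivity
  refine ⟨L' * ((p : ℝ) + 2), 2 * S / c, S, by positivity, by positivity, hS0, ?_⟩
  intro N hN Φ w hS X hX hm M G hG hae t
  -- the two sequences
  set a : ℤ → ℝ := fun q => X q - t with ha
  set y : ℤ → ℝ := fun q => -Φ (-q) t with hy
  have hay : ∀ q, c * |a q| ≤ |y q| ∧ c * |y q| ≤ |a q| := by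
    intro q
    have h2 := v04_abs hc hS (-q) (X q) t
    rw [hX q, zero_sub] at h2
    exact h2
  have hfin : {q : ℤ | |a q| ≤ S}.Finite := by
    have h2 := v04_fin hN hS (S / c) t
    have h3 : {q : ℤ | |a q| ≤ S} ⊆ (fun q : ℤ => -q) ⁻¹' {q : ℤ | |Φ q t| ≤ S / c} := by
      intro q hq
      rw [mem_ofPred_eq] at hq
      rw [mem_preimage, mem_ofPred_eq, le_div_iff₀ hc]
      have h4 := (hay q).2
      rw [hy] at h4
      simp only [abs_neg] at h4
      linarith
    exact (h2.preimage (neg_injective.injOn)).subset h3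
  set A : Finset ℤ := hfin.toFinset with hA
  have hmem : ∀ q, q ∈ A ↔ |a q| ≤ S := by
    intro q
    rw [hA, Set.Finite.mem_toFinset, mem_ofPred_eq]
  have hya : ∀ q, |y q| ≤ R₁ → q ∈ A := by
    intro q hq
    rw [hmem, hSdef, le_div_iff₀ hc]
    linarith [(hay q).1]
  have haa : ∀ q, |a q| ≤ R₁ → q ∈ A := fun q hq => (hmem q).2 (hq.trans hR1S)
  have e1 : ∀ q, q ∉ A → η (a q) = 0 := by
    intro q hq
    by_contra hcon
    have h2 : |a q| ≤ 1 := by
      by_contra h3
      exact hcon (h1 _ (not_le.1 h3))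
    exact hq (haa q (h2.trans hR1))
  have e2 : ∀ q, q ∉ A → η (y q) = 0 := by
    intro q hq
    by_contra hcon
    have h2 : |y q| ≤ 1 := by
      by_contra h3
      exact hcon (h1 _ (not_le.1 h3))
    exact hq (hya q (h2.trans hR1))
  rw [v04_Lw f η a A e1, v04_Lw f η y A e2, ← Finset.sum_sub_distrib]
  -- nonzero terms have all their points in `A`
  have hnz : ∀ (z : ℤ → ℝ), (∀ q, |z q| ≤ R₁ → q ∈ A) → ∀ (q : ℤ) (r : Fin (p + 1) → ℤ),
      η (z q) * f (fun i => z (r i) - z q) ≠ 0 → ∀ i, r i ∈ A := by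
    intro z hz q r hne i
    have h2 : η (z q) ≠ 0 := left_ne_zero_of_mul hne
    have h3 : f (fun i => z (r i) - z q) ≠ 0 := right_ne_zero_of_mul hne
    have h4 : |z q| ≤ 1 := by
      by_contra hcon
      exact h2 (h1 _ (not_le.1 hcon))
    have h5 : |z (r i) - z q| ≤ B := by
      by_contra hcon
      exact h3 (hB _ ⟨i, not_le.1 hcon⟩)
    refine hz _ ?_
    have h6 : |z (r i)| ≤ |z (r i) - z q| + |z q| := by
      have := abs_add_le (z (r i) - z q) (z q)
      rwa [sub_add_cancel] at this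
    have h7 := le_abs_self B
    rw [hR₁]
    linarith
  set d : ℤ → ℝ := fun q => |a q - y q| with hd
  have hd0 : ∀ q, 0 ≤ d q := fun q => abs_nonneg _
  have hterm : ∀ q ∈ A, |∑ r : {r : Fin (p + 1) → Fin (2 * M + 1) // Function.Injective r ∧ ∀ i, (r i).val ≠ M},
        η (a q) * f (fun i => a (q + ((r.1 i : ℕ) : ℤ) - M) - a q) -
      ∑ r : {r : Fin (p + 1) → Fin (2 * M + 1) // Function.Injective r ∧ ∀ i, (r i).val ≠ M},
        η (y q) * f (fun i => y (q + ((r.1 i : ℕ) : ℤ) - M) - y q)| ≤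
      ∑ r : {r : Fin (p + 1) → Fin (2 * M + 1) // Function.Injective r ∧ ∀ i, (r i).val ≠ M},
        L' * (if ∀ i, q + ((r.1 i : ℕ) : ℤ) - M ∈ A then d q + ∑ i, d (q + ((r.1 i : ℕ) : ℤ) - M) else 0) := by
    intro q _
    rw [← Finset.sum_sub_distrib]
    refine (Finset.abs_sum_le_sum_abs _ _).trans (Finset.sum_le_sum fun r _ => ?_)
    split_ifs with hif
    · exact v04_F hL0 hL hK hη h1 a y q (fun i => q + ((r.1 i : ℕ) : ℤ) - M)
    · have h2 : η (a q) * f (fun i => a (q + ((r.1 i : ℕ) : ℤ) - M) - a q) = 0 := by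
        by_contra hcon
        exact hif (hnz a haa q (fun i => q + ((r.1 i : ℕ) : ℤ) - M) hcon)
      have h3 : η (y q) * f (fun i => y (q + ((r.1 i : ℕ) : ℤ) - M) - y q) = 0 := by
        by_contra hcon
        exact hif (hnz y hya q (fun i => q + ((r.1 i : ℕ) : ℤ) - M) hcon)
      rw [h2, h3, sub_zero, abs_zero, mul_zero]
  refine (Finset.abs_sum_le_sum_abs _ _).trans ((Finset.sum_le_sum hterm).trans ?_)
  simp only [← Finset.mul_sum]
  have htup := v04_tuples (p := p) (M := M) A d hd0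
  refine (mul_le_mul_of_nonneg_left htup hL'0).trans ?_
  -- the deviations as integrals
  have hdev : ∀ q ∈ A, d q ≤ ∫ s in (t - S)..(t + S), |deriv (Φ (-q)) s - 1| := by
    intro q hq
    exact v04_dev hc hS (-q) (hX q) ((hmem q).1 hq)
  have hsum : (A.card : ℝ) ^ (p + 1) * ∑ q ∈ A, d q ≤ ∫ s in (t - S)..(t + S), G s := by
    have h2 : (A.card : ℝ) ^ (p + 1) * ∑ q ∈ A, d q ≤
        (A.card : ℝ) ^ (p + 1) * ∑ q ∈ A, ∫ s in (t - S)..(t + S), |deriv (Φ (-q)) s - 1| :=
      mul_le_mul_of_nonneg_left (Finset.sum_le_sum hdev) (by positivity)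
    refine h2.trans ?_
    have h3 : ∀ q ∈ A, IntervalIntegrable (fun s => |deriv (Φ (-q)) s - 1|) volume (t - S) (t + S) :=
      fun q _ => v04_int hc hS (-q) _ _
    rw [← intervalIntegral.integral_finsetSum h3, ← intervalIntegral.integral_const_mul]
    have h3' : IntervalIntegrable (fun s => ∑ q ∈ A, |deriv (Φ (-q)) s - 1|) volume (t - S) (t + S) := by
      have := IntervalIntegrable.sum A h3
      refine this.congr fun s _ => ?_
      simp
    refine intervalIntegral.integral_mono_ae_restrict (by linarith) (h3'.const_mul _)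
      (hG.intervalIntegrable _ _) ?_
    filter_upwards [ae_restrict_of_ae hae, ae_restrict_mem measurableSet_Icc] with s hs1 hs2
    refine le_trans ?_ hs1
    have hnear : ∀ q ∈ A, |Φ (-q) s| ≤ 2 * S / c := by
      intro q hq
      have h4 := (v04_abs hc hS (-q) s (X q)).2
      rw [hX q, sub_zero] at h4
      rw [le_div_iff₀ hc]
      have h5 : |X q - t| ≤ S := (hmem q).1 hq
      have h6 : |s - X q| ≤ 2 * S := by
        obtain ⟨b1, b2⟩ := abs_le.1 h5
        rw [abs_le]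
        constructor <;> linarith [hs2.1, hs2.2]
      linarith
    have hfs := v04_fin hN hS (2 * S / c) s
    have himg : A.image (fun q => -q) ⊆ hfs.toFinset := by
      intro q' hq'
      rw [Finset.mem_image] at hq'
      obtain ⟨q, hq, rfl⟩ := hq'
      rw [Set.Finite.mem_toFinset]
      exact hnear q hq
    have hcard : (A.card : ℝ) ≤ (n2 (2 * S / c) Φ s : ℝ) := by
      have h4 : (A.image (fun q => -q)).card = A.card := Finset.card_image_of_injective _ neg_injective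
      have h5 := Finset.card_le_card himg
      rw [h4] at h5
      have h6 : n2 (2 * S / c) Φ s = hfs.toFinset.card := by
        unfold n2
        rw [Set.ncard_eq_toFinset_card _ hfs]
      rw [h6]
      exact_mod_cast h5
    have hsD : ∑ q ∈ A, |deriv (Φ (-q)) s - 1| ≤ sD 1 (2 * S / c) Φ s := by
      unfold sD
      rw [finsum_eq_sum_of_support_subset (s := hfs.toFinset)]
      · have h4 : ∑ q ∈ A, |deriv (Φ (-q)) s - 1| =
            ∑ q ∈ A.image (fun q => -q), (if |Φ q s| ≤ 2 * S / c then |deriv (Φ q) s - 1| ^ 1 else 0) := by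
          rw [Finset.sum_image (fun a _ b _ h => neg_injective h)]
          refine Finset.sum_congr rfl fun q hq => ?_
          rw [if_pos (hnear q hq), pow_one]
        rw [h4]
        refine Finset.sum_le_sum_of_subset_of_nonneg himg fun q _ _ => ?_
        split_ifs
        · positivity
        · exact le_rfl
      · intro q hq
        rw [Function.mem_support] at hq
        rw [Set.Finite.coe_toFinset, mem_ofPred_eq]
        by_contra hcon
        exact hq (if_neg hcon)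
    have hc0 : (0 : ℝ) ≤ (A.card : ℝ) := Nat.cast_nonneg _
    exact mul_le_mul (pow_le_pow_left₀ hc0 hcard _) hsD (Finset.sum_nonneg fun q _ => abs_nonneg _) (by positivity)
  calc L' * (((p : ℝ) + 2) * (A.card : ℝ) ^ (p + 1) * ∑ q ∈ A, d q)
      = L' * ((p : ℝ) + 2) * ((A.card : ℝ) ^ (p + 1) * ∑ q ∈ A, d q) := by ring
    _ ≤ L' * ((p : ℝ) + 2) * ∫ s in (t - S)..(t + S), G s := mul_le_mul_of_nonneg_left hsum (by positivity)

end Ty
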