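import Pool.Agent.LibTy70.T20
import Pool.Agent.LibTy70.V02
import Pool.Agent.LibTy70.V03
import Pool.Agent.LibTy70.V04
import Pool.Agent.LibTy70.V07
import Pool.Agent.LibTy70.V08
import Pool.Agent.LibTy70.V09
import Pool.Agent.LibQGr.R_FIN

/-! Row V10: correlation sums of a fixed graph (same assembly as V11). -/

open MeasureTheory Set Filter Topology

namespace Ty

open QGr

theorem v10_fin {N : ℕ} (hN : 0 < N) {c : ℝ} (hc : 0 < c) (X : ℤ → ℝ) (hm : Monotone X)
    (hX : ∀ p, c * N ≤ X (p + N) - X p) (A : ℝ) : {q : ℤ | |X q| ≤ A}.Finite := by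
  have hcN : 0 < c * N := mul_pos hc (by exact_mod_cast hN)
  obtain ⟨k, hk⟩ := exists_nat_gt ((A + |X 0|) / (c * N))
  rw [div_lt_iff₀ hcN] at hk
  refine (Set.finite_Icc (-((k : ℤ) * N)) ((k : ℤ) * N)).subset ?_
  intro q hq
  have hq' : |X q| ≤ A := hq
  have h0 := abs_le.1 (le_refl |X 0|)
  have hq1 := abs_le.1 hq'
  constructor
  · by_contra hcon
    push Not at hcon
    have h1 := COR_iter X hX (-((k : ℤ) * N)) k
    rw [show -((k : ℤ) * N) + k * N = 0 by ring] at h1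
    have h2 := hm hcon.le
    linarith
  · by_contra hcon
    push Not at hcon
    have h1 := COR_iter X hX 0 k
    rw [zero_add] at h1
    have h2 := hm hcon.le
    linarith

theorem v10_cont {N : ℕ} (hN : 0 < N) {c : ℝ} (hc : 0 < c) (X : ℤ → ℝ) (hm : Monotone X)
    (hX : ∀ p, c * N ≤ X (p + N) - X p) (M : ℕ) (η : ℝ → ℝ) (hη : Continuous η)
    (h1 : ∀ x, 1 < |x| → η x = 0) (h : (Fin (2 * M + 1) → ℝ) → ℝ) :
    Continuous fun t => Lw M η h (fun q => X q - t) := by
  have e : (fun t => Lw M η h (fun q => X q - t)) = fun t => ∑ᶠ q : ℤ,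
      (fun q t => η (X q - t) * h fun s => X (q + (s : ℕ) - M) - X q) q t := by
    funext t
    unfold Lw
    refine finsum_congr fun q => ?_
    simp only [sub_sub_sub_cancel_right]
  rw [e]
  refine continuous_finsum (fun q => ?_) ?_
  · exact (hη.comp (continuous_const.sub continuous_id)).mul continuous_const
  · intro t₀
    refine ⟨Metric.ball t₀ 1, Metric.ball_mem_nhds t₀ one_pos, ?_⟩
    refine (v10_fin hN hc X hm hX (|t₀| + 2)).subset ?_
    rintro q ⟨t, ht1, ht2⟩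
    have h2 : |X q - t| ≤ 1 := by
      by_contra hcon
      push Not at hcon
      refine ht1 ?_
      change η (X q - t) * _ = 0
      rw [h1 _ hcon, zero_mul]
    rw [Metric.mem_ball, Real.dist_eq] at ht2
    change |X q| ≤ |t₀| + 2
    have h3 : |X q| ≤ |X q - t| + |t - t₀| + |t₀| := by
      calc |X q| = |(X q - t) + (t - t₀) + t₀| := by ring_nf
        _ ≤ _ := abs_add_three _ _ _
    linarith

theorem v10_avg (G : ℝ → ℝ) (hG : Continuous G) (h0 : ∀ t, 0 ≤ G t) (g : ℝ)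
    (hg : Tendsto (fun T : ℝ => (1 / T) * ∫ t in (0 : ℝ)..T, G t) atTop (𝓝 g)) (S : ℝ) (hS : 0 < S)
    (ε : ℝ) (hε : 0 < ε) :
    ∀ᶠ T : ℝ in atTop, (1 / T) * ∫ t in (0 : ℝ)..T, (∫ s in (t - S)..(t + S), G s) ≤
      2 * S * g + ε := by
  set P : ℝ → ℝ := fun t => ∫ s in (0 : ℝ)..t, G s with hP
  have hi : ∀ x y, IntervalIntegrable G volume x y := fun x y => hG.intervalIntegrable x y
  have hPc : Continuous P := intervalIntegral.continuous_primitive hi 0
  have hPi : ∀ x y, IntervalIntegrable P volume x y := fun x y => hPc.intervalIntegrable x y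
  have hPm : Monotone P := by
    intro x y hxy
    have h1 : P x + ∫ s in x..y, G s = P y :=
      intervalIntegral.integral_add_adjacent_intervals (hi 0 x) (hi x y)
    have h2 : 0 ≤ ∫ s in x..y, G s := intervalIntegral.integral_nonneg hxy fun u _ => h0 u
    linarith
  have e1 : ∀ t, (∫ s in (t - S)..(t + S), G s) = P (t + S) - P (t - S) := by
    intro t
    have h1 : P (t - S) + ∫ s in (t - S)..(t + S), G s = P (t + S) :=
      intervalIntegral.integral_add_adjacent_intervals (hi 0 _) (hi _ _)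
    linarith
  set D : ℝ := ∫ t in (-S)..S, P t with hD
  have e2 : ∀ T, (∫ t in (0 : ℝ)..T, (∫ s in (t - S)..(t + S), G s)) =
      (∫ t in (T - S)..(T + S), P t) - D := by
    intro T
    simp only [e1]
    have i1 : IntervalIntegrable (fun t => P (t + S)) volume 0 T :=
      (hPc.comp (continuous_id.add continuous_const)).intervalIntegrable _ _
    have i2 : IntervalIntegrable (fun t => P (t - S)) volume 0 T :=
      (hPc.comp (continuous_id.sub continuous_const)).intervalIntegrable _ _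
    rw [intervalIntegral.integral_sub i1 i2]
    have h1 : (∫ t in (0 : ℝ)..T, P (t + S)) = ∫ t in (0 + S)..(T + S), P t :=
      intervalIntegral.integral_comp_add_right P S
    have h2 : (∫ t in (0 : ℝ)..T, P (t - S)) = ∫ t in (0 - S)..(T - S), P t :=
      intervalIntegral.integral_comp_sub_right P S
    rw [h1, h2, zero_add, zero_sub]
    have h3 : (∫ t in (-S)..S, P t) + ∫ t in S..(T + S), P t = ∫ t in (-S)..(T + S), P t :=
      intervalIntegral.integral_add_adjacent_intervals (hPi _ _) (hPi _ _)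
    have h4 : (∫ t in (-S)..(T - S), P t) + ∫ t in (T - S)..(T + S), P t = ∫ t in (-S)..(T + S), P t :=
      intervalIntegral.integral_add_adjacent_intervals (hPi _ _) (hPi _ _)
    linarith
  have e3 : ∀ T, (∫ t in (T - S)..(T + S), P t) ≤ 2 * S * P (T + S) := by
    intro T
    have h1 : (∫ t in (T - S)..(T + S), P t) ≤ ∫ _t in (T - S)..(T + S), P (T + S) := by
      refine intervalIntegral.integral_mono_on (by linarith) (hPi _ _) (by simp) fun x hx => ?_
      exact hPm hx.2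
    rw [intervalIntegral.integral_const, smul_eq_mul] at h1
    linarith
  have e4 : Tendsto (fun T : ℝ => (1 / T) * (2 * S * P (T + S) - D)) atTop (𝓝 (2 * S * g)) := by
    have h1 : Tendsto (fun T : ℝ => (1 / (T + S)) * P (T + S)) atTop (𝓝 g) :=
      hg.comp (tendsto_atTop_add_const_right _ S tendsto_id)
    have h2 : Tendsto (fun T : ℝ => D / T) atTop (𝓝 0) := tendsto_const_nhds.div_atTop tendsto_id
    have h3 : Tendsto (fun T : ℝ => S / T) atTop (𝓝 0) := tendsto_const_nhds.div_atTop tendsto_id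
    have h4 : Tendsto (fun T : ℝ => 2 * S * ((1 + S / T) * ((1 / (T + S)) * P (T + S))) - D / T) atTop
        (𝓝 (2 * S * ((1 + 0) * g) - 0)) :=
      (tendsto_const_nhds.mul ((tendsto_const_nhds.add h3).mul h1)).sub h2
    rw [add_zero, one_mul, sub_zero] at h4
    refine h4.congr' ?_
    filter_upwards [eventually_gt_atTop (0 : ℝ)] with T hT
    have hTS : T + S ≠ 0 := by positivity
    field_simp
  filter_upwards [e4.eventually_le_const (show 2 * S * g < 2 * S * g + ε by linarith),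
    eventually_gt_atTop (0 : ℝ)] with T h1 h2
  refine le_trans ?_ h1
  rw [e2]
  refine mul_le_mul_of_nonneg_left ?_ (one_div_pos.2 h2).le
  linarith [e3 T]

theorem v10_M (R : ℝ) (hR : 0 < R) (N : ℕ) (hN : 8 * R < N) :
    ∃ M' : ℕ, 1 ≤ M' ∧ 2 * R * M' < N ∧ 1 / (M' : ℝ) ≤ 8 * R / N := by
  have hNp : (0 : ℝ) < N := by linarith
  have h1 : 2 < (N : ℝ) / (4 * R) := by rw [lt_div_iff₀ (by positivity)]; linarith
  refine ⟨⌊(N : ℝ) / (4 * R)⌋₊, ?_, ?_, ?_⟩
  · exact Nat.le_floor (by push_cast; linarith)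
  · have h2 : (⌊(N : ℝ) / (4 * R)⌋₊ : ℝ) ≤ (N : ℝ) / (4 * R) := Nat.floor_le (by positivity)
    rw [le_div_iff₀ (by positivity)] at h2
    linarith
  · have h2 : (N : ℝ) / (4 * R) < ⌊(N : ℝ) / (4 * R)⌋₊ + 1 := Nat.lt_floor_add_one _
    have h3 : (N : ℝ) / (8 * R) ≤ ⌊(N : ℝ) / (4 * R)⌋₊ := by
      have h4 : (N : ℝ) / (4 * R) = N / (8 * R) + N / (8 * R) := by field_simp; ring
      have h5 : 1 < (N : ℝ) / (8 * R) := by rw [lt_div_iff₀ (by positivity)]; linarith
      linarith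
    calc 1 / ((⌊(N : ℝ) / (4 * R)⌋₊ : ℕ) : ℝ) ≤ 1 / ((N : ℝ) / (8 * R)) :=
          one_div_le_one_div_of_le (by positivity) h3
      _ = 8 * R / N := by field_simp

theorem v10_nonneg (p M : ℕ) (R : ℝ) (hR : 0 < R) (v : Fin (2 * M + 1) → ℝ) :
    0 ≤ hco p M (tprod R) v := by
  unfold hco
  exact Finset.sum_nonneg fun r _ => ((tprod_bd R hR (p + 1)).1 _).1

theorem v10_far {N Q : ℕ} (hN : 0 < N) {c : ℝ} (hc : 0 < c) (hc1 : c ≤ 1) (B : ℝ) (hQ : B < c * Q)
    (W : Uni N) : Far (N * Q) B (phases W.1) := by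
  have hy := phases_spec hN W
  refine far_of hN hc B hQ _ hy.mono fun q => ?_
  rw [hy.per]
  have : (0 : ℝ) ≤ N := Nat.cast_nonneg N
  nlinarith

theorem fixed_corr (a b : ℝ) (ha : 0 < a) (hab : a ≤ b) (p : ℕ) (f : (Fin (p + 1) → ℝ) → ℝ)
    (L K B : ℝ) (hL0 : 0 ≤ L) (hL : ∀ u v, |f u - f v| ≤ L * dist u v) (hK : ∀ v, |f v| ≤ K)
    (hB : ∀ v, (∃ i, B < |v i|) → f v = 0) :
    ∃ (C R : ℝ) (N₀ : ℕ), 0 ≤ C ∧ 0 < R ∧ ∀ N : ℕ, N₀ ≤ N → ∀ (O : ℕ → Orth N) (m : ℕ)
      (l : Fin (m + 1) → Fin N → ℝ), (∀ j i, l j i ∈ Icc a b) →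
      LinearIndependent ℚ (fun q : Fin (m + 1) × Fin N => l q.1 q.2) →
      ∀ κ, IsLevels N m O l κ → ∀ (n : ℕ) (τ ε : ℝ), 1 ≤ n → 0 < τ → 0 < ε → ∀ᶠ T : ℝ in atTop,
        |corr p f (unf l κ) T - ∫ θ, pcorr N p f (phases (sy (tr O m θ)).1)| ≤
          C * (τ * (1 + ∫ θ, pcorr N (2 * p + 1) (tprod R) (phases (sy (tr O m θ)).1)) +
            1 / τ * (1 / N * ∫ θ, fro (An n (B0 O m l θ) (sy (tr O m θ))) ^ 2)) + ε := by
  have hb : 0 < b := lt_of_lt_of_le ha hab
  have hK0 : 0 ≤ K := le_trans (abs_nonneg _) (hK 0)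
  have hc : 0 < a / b := by positivity
  have hc1 : a / b ≤ 1 := (div_le_one hb).2 hab
  obtain ⟨η, hηd⟩ : ∃ η : ℝ → ℝ, η = fun x => 2 / 3 * tent (1 / 2) x := ⟨_, rfl⟩
  have hη1 : ∀ x y, |η x - η y| ≤ 4 / 3 * |x - y| := by
    intro x y
    have h1 := tent_lip (1 / 2) (by norm_num) x y
    rw [hηd]
    simp only
    rw [← mul_sub, abs_mul, abs_of_pos (by norm_num : (0 : ℝ) < 2 / 3)]
    norm_num at h1
    linarith
  have hη2 : ∀ x, 1 < |x| → η x = 0 := by
    intro x hx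
    have h1 := (tent_bd (1 / 2) (by norm_num) x).2.2.2 (by linarith)
    rw [hηd]
    simp only
    rw [h1, mul_zero]
  have hη0 : ∀ x, 0 ≤ η x := by
    intro x
    rw [hηd]
    exact mul_nonneg (by norm_num) (tent_bd (1 / 2) (by norm_num) x).1
  have hηc : Continuous η := by
    have h1 : LipschitzWith ⟨4 / 3, by norm_num⟩ η := LipschitzWith.of_dist_le_mul fun u v => by
      rw [Real.dist_eq, Real.dist_eq]
      exact hη1 u v
    exact h1.continuous
  have hηi : ∫ x, η x = 1 := by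
    rw [hηd, integral_const_mul, tent_int _ (by norm_num)]
    norm_num
  obtain ⟨C, R, S, hC0, hR, hS0, hpt⟩ :=
    pt_corr hc hc1 p f L K B hL0 hL hK hB η (4 / 3) hη1 hη2
  have htc : Continuous (tent R) := by
    have h1 : LipschitzWith ⟨1 / R, by positivity⟩ (tent R) := LipschitzWith.of_dist_le_mul fun u v => by
      rw [Real.dist_eq, Real.dist_eq]
      exact tent_lip R hR u v
    exact h1.continuous
  obtain ⟨N₀, hN₀⟩ := exists_nat_gt (8 * R)
  obtain ⟨Q, hQ⟩ := exists_nat_gt ((|B| + 4 * R) / (a / b))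
  rw [div_lt_iff₀ hc] at hQ
  have hBabs : B ≤ |B| := le_abs_self B
  have hB1 : B < a / b * Q := by rw [mul_comm]; linarith
  have hR4 : 4 * R < a / b * Q := by
    rw [mul_comm]
    have := abs_nonneg B
    linarith
  have hQ0 : (0 : ℝ) ≤ Q := Nat.cast_nonneg Q
  have hR2 : 2 * R < Q := by nlinarith
  set κ1 : ℝ := (2 * (((2 * p + 1 : ℕ) : ℝ) + 2)) ^ (2 * p + 1 + 2) with hκ1
  set κ2 : ℝ := (2 : ℝ) ^ (2 * p + 1 + 2) with hκ2
  have hκ10 : 0 ≤ κ1 := by positivity
  have hκ20 : 0 ≤ κ2 := by positivity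
  obtain ⟨htp0, htpB, htpL⟩ := tprod_bd R hR (2 * p + 1 + 1)
  refine ⟨C * (2 * S) * (κ1 + κ2 * (3 * R) + 2 * Real.pi ^ 2 * R), R, N₀, by positivity, hR, ?_⟩
  intro N hN O m l hl hi κ hκ n τ ε hn hτ hε
  have hNR : 8 * R < N := hN₀.trans_le (by exact_mod_cast hN)
  have hN0 : 0 < N := by
    have : (0 : ℝ) < N := by linarith
    exact_mod_cast this
  have hNp : (0 : ℝ) < N := by exact_mod_cast hN0
  obtain ⟨M', hM1, hM2, hM3⟩ := v10_M R hR N hNR
  obtain ⟨Φ, hS, hΦ, hsl⟩ := sys2 hN0 O m l a b ha hab hl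
  have hsl' := hsl n M' R hn hM1 hR hM2
  have hlen := LVL_len_pos hN0 l a b ha hl
  have hLs := (levels_lists hN0 O m l a b ha hab hl Φ hΦ κ).1 hκ
  obtain ⟨X, hX0, hXm, hX1⟩ := zeros hN0 hc hS
  obtain ⟨s, hs1, hs2⟩ := lists_eq hN0 hc hS X hX0 hXm _ hLs
  have ht := SPA_tend hN0 hc X hXm (fun q => (hX1 q).1) _ s hs1
  obtain ⟨h1L, h1K⟩ := hco_lip p (N * Q) f L K hL hK
  have hhc : Continuous (hco p (N * Q) f) := SPA_cont _ _ (by positivity) h1L
  have htpK : ∀ v : Fin (2 * p + 1 + 1) → ℝ, |tprod R v| ≤ 1 := fun v => by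
    rw [abs_of_nonneg (htp0 v).1]
    exact (htp0 v).2
  obtain ⟨h2L, h2K⟩ := hco_lip (2 * p + 1) (N * Q) (tprod R) (((2 * p + 1 + 1 : ℕ) : ℝ) / (2 * R)) 1
    htpL htpK
  have hhc2 : Continuous (hco (2 * p + 1) (N * Q) (tprod R)) := SPA_cont _ _ (by positivity) h2L
  have hfw : Continuous fun t : ℝ => fl l (Real.pi * t / len l) :=
    (fl_cont l).comp (by fun_prop)
  have hst : Continuous fun θ : Fin (m + 1) → Fin N → UnitAddCircle => sy (tr O m θ) :=
    sy_cont.comp (tr_cont O m)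
  obtain ⟨F1, hF1d⟩ : ∃ F1 : (Fin (m + 1) → Fin N → UnitAddCircle) → ℝ,
      F1 = fun θ => Lw (N * Q) η (hco p (N * Q) f) (phases (sy (tr O m θ)).1) := ⟨_, rfl⟩
  have hF1 : Continuous F1 := by
    rw [hF1d]
    exact (Lw_cont hN0 (N * Q) η hηc 1 hη2 (hco p (N * Q) f) hhc).comp hst
  obtain ⟨G2, hG2d⟩ : ∃ G2 : (Fin (m + 1) → Fin N → UnitAddCircle) → ℝ,
      G2 = fun θ => Lw (N * Q) (tent R) (hco (2 * p + 1) (N * Q) (tprod R))
        (phases (sy (tr O m θ)).1) := ⟨_, rfl⟩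
  have hG2 : Continuous G2 := by
    rw [hG2d]
    exact (Lw_cont hN0 (N * Q) (tent R) htc (2 * R) (fun x hx => (tent_bd R hR x).2.2.2 hx)
      (hco (2 * p + 1) (N * Q) (tprod R)) hhc2).comp hst
  obtain ⟨G1, hG1d⟩ : ∃ G1 : (Fin (m + 1) → Fin N → UnitAddCircle) → ℝ,
      G1 = fun θ => τ * (κ1 + κ2 * G2 θ) + 1 / τ * Qf n M' O m l θ := ⟨_, rfl⟩
  have hQc := Qf_cont n M' O m l
  have hG1 : Continuous G1 := by
    rw [hG1d]
    exact (continuous_const.mul (continuous_const.add (continuous_const.mul hG2))).add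
      (continuous_const.mul hQc)
  have hQf0 : ∀ θ, 0 ≤ Qf n M' O m l θ := by
    intro θ
    unfold Qf
    positivity
  have hG20 : ∀ θ, 0 ≤ G2 θ := by
    intro θ
    rw [hG2d]
    refine finsum_nonneg fun q => ?_
    exact mul_nonneg (tent_bd R hR _).1 (v10_nonneg _ _ R hR _)
  have hG10 : ∀ θ, 0 ≤ G1 θ := by
    intro θ
    rw [hG1d]
    exact add_nonneg (mul_nonneg hτ.le (add_nonneg hκ10 (mul_nonneg hκ20 (hG20 θ))))
      (mul_nonneg (by positivity) (hQf0 θ))
  have hae : ∀ᵐ t, (n2 R Φ t : ℝ) ^ (p + 1) * sD 1 R Φ t ≤ G1 (fl l (Real.pi * t / len l)) := by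
    filter_upwards [hsl'] with t ht
    have h1 := sD_le hN0 hc R Φ _ hS (p + 1) τ hτ t
    have h2 := near_pow hN0 hc R hR hR2 Φ _ hS (2 * p + 1) t
    rw [Lw_phases hN0 (N * Q) (tent R) (hco (2 * p + 1) (N * Q) (tprod R)) _ _ (hΦ t)] at h2
    have e : 2 * (p + 1) + 1 = 2 * p + 1 + 2 := by ring
    rw [e] at h1
    rw [hG1d, hG2d]
    simp only
    have h3 : τ * (n2 R Φ t : ℝ) ^ (2 * p + 1 + 2) ≤ τ * (κ1 + κ2 * Lw (N * Q) (tent R)
        (hco (2 * p + 1) (N * Q) (tprod R))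
        (phases (sy (tr O m (fl l (Real.pi * t / len l)))).1)) := mul_le_mul_of_nonneg_left h2 hτ.le
    have h4 : 1 / τ * sD 2 R Φ t ≤ 1 / τ * Qf n M' O m l (fl l (Real.pi * t / len l)) :=
      mul_le_mul_of_nonneg_left ht (by positivity)
    linarith
  have hGc : Continuous fun t => G1 (fl l (Real.pi * t / len l)) := hG1.comp hfw
  have hp := hpt N hN0 Φ _ hS X hX0 hXm (N * Q) _ hGc hae
  -- averages over the torus
  have hint : ∀ F : (Fin (m + 1) → Fin N → UnitAddCircle) → ℝ, Continuous F → Integrable F :=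
    fun F hF => hF.integrable_of_hasCompactSupport (HasCompactSupport.of_compactSpace F)
  have hi1 : ∫ θ, F1 θ = ∫ θ, pcorr N p f (phases (sy (tr O m θ)).1) := by
    rw [hF1d]
    simp only
    rw [Lw_rot hN0 (N * Q) η hηc 1 hη2 (hco p (N * Q) f) hhc O m, hηi, one_mul]
    refine integral_congr_ae (ae_of_all _ fun θ => ?_)
    exact (pcorr_loc hN0 f B hB _ (v10_far hN0 hc hc1 B hB1 _)).symm
  set J : ℝ := ∫ θ, pcorr N (2 * p + 1) (tprod R) (phases (sy (tr O m θ)).1) with hJ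
  have hi2 : ∫ θ, G2 θ = 3 * R * J := by
    rw [hG2d]
    simp only
    rw [Lw_rot hN0 (N * Q) (tent R) htc (2 * R) (fun x hx => (tent_bd R hR x).2.2.2 hx)
      (hco (2 * p + 1) (N * Q) (tprod R)) hhc2 O m, tent_int R hR, hJ]
    congr 1
    refine integral_congr_ae (ae_of_all _ fun θ => ?_)
    exact (pcorr_loc hN0 (tprod R) (4 * R) htpB _ (v10_far hN0 hc hc1 (4 * R) hR4 _)).symm
  have hJ0 : 0 ≤ J := by
    have h1 : 0 ≤ ∫ θ, G2 θ := integral_nonneg fun θ => hG20 θ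
    rw [hi2] at h1
    exact nonneg_of_mul_nonneg_right h1 (by positivity)
  set I : ℝ := ∫ θ, fro (An n (B0 O m l θ) (sy (tr O m θ))) ^ 2 with hI
  have hI0 : 0 ≤ I := integral_nonneg fun θ => sq_nonneg _
  have hi3 : ∫ θ, G1 θ ≤ (κ1 + κ2 * (3 * R) + 2 * Real.pi ^ 2 * R) *
      (τ * (1 + J) + 1 / τ * (1 / N * I)) := by
    have hi4 : ∫ θ, G1 θ = τ * (κ1 + κ2 * (3 * R * J)) + 1 / τ * ∫ θ, Qf n M' O m l θ := by
      have i1 : Integrable (fun θ : Fin (m + 1) → Fin N → UnitAddCircle => κ1 + κ2 * G2 θ) :=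
        hint _ (continuous_const.add (continuous_const.mul hG2))
      have i2 : Integrable (fun θ : Fin (m + 1) → Fin N → UnitAddCircle => τ * (κ1 + κ2 * G2 θ)) :=
        i1.const_mul τ
      have i3 : Integrable (fun θ : Fin (m + 1) → Fin N → UnitAddCircle => 1 / τ * Qf n M' O m l θ) :=
        (hint _ hQc).const_mul _
      have i4 : Integrable (fun θ : Fin (m + 1) → Fin N → UnitAddCircle => κ2 * G2 θ) :=
        (hint _ hG2).const_mul _
      have i5 : Integrable (fun _ : Fin (m + 1) → Fin N → UnitAddCircle => κ1) :=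
        hint _ continuous_const
      have e0 : ∫ θ : Fin (m + 1) → Fin N → UnitAddCircle, (κ1 + κ2 * G2 θ) =
          κ1 + κ2 * (3 * R * J) := by
        have e01 := integral_add i5 i4
        rw [integral_const_mul, hi2] at e01
        rw [e01]
        simp
      have e1 := integral_add i2 i3
      rw [integral_const_mul, integral_const_mul, e0] at e1
      rw [hG1d]
      exact e1
    rw [hi4]
    have h1 := Qf_int n M' hM1 O m l
    rw [← hI] at h1
    have hMp : (0 : ℝ) < M' := by exact_mod_cast hM1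
    have h2 : Real.pi ^ 2 / (4 * M') * I ≤ 2 * Real.pi ^ 2 * R * (1 / N * I) := by
      have h3 : Real.pi ^ 2 / (4 * M') = Real.pi ^ 2 / 4 * (1 / M') := by field_simp
      have h4 : Real.pi ^ 2 / 4 * (1 / M') ≤ Real.pi ^ 2 / 4 * (8 * R / N) :=
        mul_le_mul_of_nonneg_left hM3 (by positivity)
      calc Real.pi ^ 2 / (4 * M') * I ≤ Real.pi ^ 2 / 4 * (8 * R / N) * I := by
            rw [h3]
            exact mul_le_mul_of_nonneg_right h4 hI0
        _ = _ := by ring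
    have h5 : 1 / τ * ∫ θ, Qf n M' O m l θ ≤ 1 / τ * (2 * Real.pi ^ 2 * R * (1 / N * I)) :=
      mul_le_mul_of_nonneg_left (h1.trans h2) (by positivity)
    have hx : 0 ≤ 1 / τ * (1 / N * I) := by positivity
    have hy : 0 ≤ τ * J := by positivity
    have hpR : 0 ≤ 2 * Real.pi ^ 2 * R := by positivity
    have e1 : (κ1 + κ2 * (3 * R) + 2 * Real.pi ^ 2 * R) * (τ * (1 + J) + 1 / τ * (1 / N * I)) =
        τ * (κ1 + κ2 * (3 * R * J)) + 1 / τ * (2 * Real.pi ^ 2 * R * (1 / N * I)) +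
        (κ1 * (τ * J) + κ2 * (3 * R) * τ + 2 * Real.pi ^ 2 * R * (τ + τ * J) +
          (κ1 + κ2 * (3 * R)) * (1 / τ * (1 / N * I))) := by ring
    rw [e1]
    have e2 : 0 ≤ κ1 * (τ * J) + κ2 * (3 * R) * τ + 2 * Real.pi ^ 2 * R * (τ + τ * J) +
          (κ1 + κ2 * (3 * R)) * (1 / τ * (1 / N * I)) := by positivity
    linarith
  -- time averages
  have hg1 := FIN_equi l hlen hi F1 hF1
  have hg2 := FIN_equi l hlen hi G1 hG1
  rw [hi1] at hg1
  have hε1 : 0 < ε / 5 := by linarith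
  have hε2 : 0 < ε / (5 * (C + 1)) := by positivity
  obtain ⟨C1, hC1⟩ := corr_loc f B K hB hK X hXm
    (far_of hN0 hc B hB1 X hXm fun q => (hX1 q).1) _ s hs1 ht
  obtain ⟨C2, hC2⟩ := time_id hN0 hc (N * Q) η hηc hη0 hη2 hηi (hco p (N * Q) f) hhc _ h1K X hXm hX1
    _ s hs1 hLs.pos hs2
  have hav := v10_avg _ hGc (fun t => hG10 _) _ hg2 S hS0 _ hε2
  have hd : ∀ C : ℝ, ∀ᶠ T : ℝ in atTop, C / T ≤ ε / 5 := by
    intro C
    have h3 : Tendsto (fun T : ℝ => C / T) atTop (𝓝 0) := tendsto_const_nhds.div_atTop tendsto_id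
    exact h3.eventually_le_const hε1
  have hg1' := (hg1.sub_const (∫ θ, pcorr N p f (phases (sy (tr O m θ)).1))).abs
  rw [sub_self, abs_zero] at hg1'
  filter_upwards [hav, hd C1, hd C2, hg1'.eventually_le_const hε1, eventually_gt_atTop (0 : ℝ)]
    with T t1 t2 t3 t4 hT
  have a1 := hC1 T hT
  have a2 := hC2 T hT
  set g₀ := ∫ θ, pcorr N p f (phases (sy (tr O m θ)).1) with hg₀
  set A1 := (1 / T) * ∑ k ∈ Finset.range (cnt (unf l κ) T),
      hco p (N * Q) f (fun j => X (s + k + j - (N * Q : ℕ)) - X (s + k)) with hA1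
  set A2 := (1 / T) * ∫ t in (0 : ℝ)..T, Lw (N * Q) η (hco p (N * Q) f) (fun q => X q - t) with hA2
  set A3 := (1 / T) * ∫ t in (0 : ℝ)..T, F1 (fl l (Real.pi * t / len l)) with hA3
  have hT1 : 0 < 1 / T := by positivity
  have a3 : |A2 - A3| ≤ C * (2 * S * (∫ θ, G1 θ) + ε / (5 * (C + 1))) := by
    have hc1 : Continuous fun t => Lw (N * Q) η (hco p (N * Q) f) (fun q => X q - t) :=
      v10_cont hN0 hc X hXm (fun q => (hX1 q).1) (N * Q) η hηc hη2 _
    have hc2 : Continuous fun t => F1 (fl l (Real.pi * t / len l)) := hF1.comp hfw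
    have hP : Continuous fun t => ∫ s in (t - S)..(t + S), G1 (fl l (Real.pi * s / len l)) := by
      have h1 : Continuous fun t => ∫ s in (0 : ℝ)..t, G1 (fl l (Real.pi * s / len l)) :=
        intervalIntegral.continuous_primitive (fun x y => hGc.intervalIntegrable x y) 0
      have h2 : (fun t => ∫ s in (t - S)..(t + S), G1 (fl l (Real.pi * s / len l))) = fun t =>
          (∫ s in (0 : ℝ)..(t + S), G1 (fl l (Real.pi * s / len l))) -
            ∫ s in (0 : ℝ)..(t - S), G1 (fl l (Real.pi * s / len l)) := by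
        funext t
        exact (intervalIntegral.integral_interval_sub_left (hGc.intervalIntegrable _ _)
          (hGc.intervalIntegrable _ _)).symm
      rw [h2]
      exact (h1.comp (continuous_id.add continuous_const)).sub
        (h1.comp (continuous_id.sub continuous_const))
    rw [hA2, hA3, ← mul_sub, abs_mul, abs_of_pos hT1, ← intervalIntegral.integral_sub
      (hc1.intervalIntegrable _ _) (hc2.intervalIntegrable _ _)]
    have h3 : |∫ t in (0 : ℝ)..T, (Lw (N * Q) η (hco p (N * Q) f) (fun q => X q - t) -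
        F1 (fl l (Real.pi * t / len l)))| ≤
        C * ∫ t in (0 : ℝ)..T, (∫ s in (t - S)..(t + S), G1 (fl l (Real.pi * s / len l))) := by
      refine (intervalIntegral.abs_integral_le_integral_abs hT.le).trans ?_
      rw [← intervalIntegral.integral_const_mul]
      refine intervalIntegral.integral_mono_on hT.le ((hc1.sub hc2).abs.intervalIntegrable _ _)
        ((continuous_const.mul hP).intervalIntegrable _ _) fun t _ => ?_
      have h4 := hp t
      rw [Lw_phases hN0 (N * Q) η (hco p (N * Q) f) _ _ (hΦ t)] at h4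
      rw [hF1d]
      exact h4
    calc 1 / T * |∫ t in (0 : ℝ)..T, (Lw (N * Q) η (hco p (N * Q) f) (fun q => X q - t) -
        F1 (fl l (Real.pi * t / len l)))|
        ≤ 1 / T * (C * ∫ t in (0 : ℝ)..T,
            (∫ s in (t - S)..(t + S), G1 (fl l (Real.pi * s / len l)))) :=
          mul_le_mul_of_nonneg_left h3 hT1.le
      _ = C * (1 / T * ∫ t in (0 : ℝ)..T,
            (∫ s in (t - S)..(t + S), G1 (fl l (Real.pi * s / len l)))) := by ring
      _ ≤ _ := mul_le_mul_of_nonneg_left t1 hC0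
  have a4 : C * (2 * S * (∫ θ, G1 θ) + ε / (5 * (C + 1))) ≤
      C * (2 * S) * (κ1 + κ2 * (3 * R) + 2 * Real.pi ^ 2 * R) *
        (τ * (1 + J) + 1 / τ * (1 / N * I)) + ε / 5 := by
    have h1 : C * (ε / (5 * (C + 1))) ≤ ε / 5 := by
      have h2 : C * (ε / (5 * (C + 1))) = C / (C + 1) * (ε / 5) := by field_simp
      rw [h2]
      have h3 : C / (C + 1) ≤ 1 := by rw [div_le_one (by positivity)]; linarith
      calc C / (C + 1) * (ε / 5) ≤ 1 * (ε / 5) := mul_le_mul_of_nonneg_right h3 hε1.le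
        _ = _ := one_mul _
    have h4 : C * (2 * S) * (∫ θ, G1 θ) ≤
        C * (2 * S) * ((κ1 + κ2 * (3 * R) + 2 * Real.pi ^ 2 * R) *
          (τ * (1 + J) + 1 / τ * (1 / N * I))) :=
      mul_le_mul_of_nonneg_left hi3 (by positivity)
    calc C * (2 * S * (∫ θ, G1 θ) + ε / (5 * (C + 1)))
        = C * (2 * S) * (∫ θ, G1 θ) + C * (ε / (5 * (C + 1))) := by ring
      _ ≤ _ := by linarith
  have a5 : |corr p f (unf l κ) T - g₀| ≤ |corr p f (unf l κ) T - A1| + |A1 - A2| + |A2 - A3| + |A3 - g₀| := by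
    calc |corr p f (unf l κ) T - g₀|
        = |(corr p f (unf l κ) T - A1) + (A1 - A2) + (A2 - A3) + (A3 - g₀)| := by ring_nf
      _ ≤ |(corr p f (unf l κ) T - A1) + (A1 - A2) + (A2 - A3)| + |A3 - g₀| := abs_add_le _ _
      _ ≤ _ := by
        have := abs_add_three (corr p f (unf l κ) T - A1) (A1 - A2) (A2 - A3)
        linarith
  linarith

end Ty
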