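import Pool.Agent.LibTy70.F00
import Pool.Agent.LibTy70.F01
import Pool.Agent.LibTy70.T20
import Pool.Agent.LibTy70.S07
import Pool.Agent.LibTy70.V10
import Pool.Agent.LibTy70.K04

/-! Row F02: correlations of typical graphs. -/

open MeasureTheory Set Filter Topology

namespace Ty

open QGr COE

theorem f02_cont {k : ℕ} (f : (Fin k → ℝ) → ℝ) (L : ℝ) (hL0 : 0 ≤ L)
    (hL : ∀ u v, |f u - f v| ≤ L * dist u v) : Continuous f := by
  have : LipschitzWith ⟨L, hL0⟩ f := LipschitzWith.of_dist_le_mul fun u v => by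
    rw [Real.dist_eq]; exact hL u v
  exact this.continuous

theorem f02_nonneg (N p : ℕ) (f : (Fin (p + 1) → ℝ) → ℝ) (hf : ∀ v, 0 ≤ f v) (y : ℤ → ℝ) :
    0 ≤ pcorr N p f y := by
  unfold pcorr
  exact mul_nonneg (by positivity) (finsum_nonneg fun j => hf _)

/-- The rate for a statistic with polynomial Lipschitz constant. -/
theorem f02_rate {N Q : ℕ} (hN : 0 < N) (hQ : 0 < Q) (k p M : ℕ) (hk : k + 1 ≤ 2 * p + 3) (hM : 24 * (p + 2) ≤ M)
    (L C : ℝ) (hL : 0 ≤ L) (hC : 0 < C) (hCN : C * (N : ℝ) ^ (-(1 / 12) : ℝ) ≤ 1) :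
    ((2 * (N * Q : ℕ) + 1) ^ k * L * N) * (2 * C ^ M * (N : ℝ) ^ (1 / 2 - M / 12 : ℝ)) ≤
      2 * L * (3 * Q) ^ k * C ^ (24 * (p + 2)) * (N : ℝ) ^ (-(1 / 2) : ℝ) := by
  have hNR : (1 : ℝ) ≤ N := by exact_mod_cast hN
  have hN0 : (0 : ℝ) < N := by linarith
  have hQR : (1 : ℝ) ≤ Q := by exact_mod_cast hQ
  have i3 := rate_le hN C hC hCN M (24 * (p + 2)) hM
  have e1 : (2 * ((N * Q : ℕ) : ℝ) + 1) ^ k ≤ (3 * Q) ^ k * (N : ℝ) ^ k := by
    rw [← mul_pow]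
    refine pow_le_pow_left₀ (by positivity) ?_ _
    push_cast
    nlinarith
  have e2 : (N : ℝ) ^ k * N * (N : ℝ) ^ (1 / 2 - (24 * (p + 2) : ℕ) / 12 : ℝ) ≤
      (N : ℝ) ^ (-(1 / 2) : ℝ) := by
    rw [← pow_succ, ← Real.rpow_natCast, ← Real.rpow_add hN0]
    refine Real.rpow_le_rpow_of_exponent_le hNR ?_
    push_cast
    have : (k : ℝ) + 1 ≤ 2 * p + 3 := by exact_mod_cast hk
    linarith
  calc ((2 * (N * Q : ℕ) + 1) ^ k * L * N) * (2 * C ^ M * (N : ℝ) ^ (1 / 2 - M / 12 : ℝ))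
      = (2 * (N * Q : ℕ) + 1) ^ k * (2 * L * N) * (C ^ M * (N : ℝ) ^ (1 / 2 - M / 12 : ℝ)) := by ring
    _ ≤ ((3 * Q) ^ k * (N : ℝ) ^ k) * (2 * L * N) *
          (C ^ (24 * (p + 2)) * (N : ℝ) ^ (1 / 2 - (24 * (p + 2) : ℕ) / 12 : ℝ)) := by
        refine mul_le_mul (mul_le_mul_of_nonneg_right e1 (by positivity)) i3 (by positivity)
          (by positivity)
    _ = 2 * L * (3 * Q) ^ k * C ^ (24 * (p + 2)) *
          ((N : ℝ) ^ k * N * (N : ℝ) ^ (1 / 2 - (24 * (p + 2) : ℕ) / 12 : ℝ)) := by ring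
    _ ≤ _ := mul_le_mul_of_nonneg_left e2 (by positivity)

theorem typ_corr (a b : ℝ) (ha : 0 < a) (hab : a ≤ b) (p : ℕ) (f : (Fin (p + 1) → ℝ) → ℝ)
    (L B : ℝ) (hL0 : 0 ≤ L) (hL : ∀ u v, |f u - f v| ≤ L * dist u v)
    (hB : ∀ v, (∃ i, B < |v i|) → f v = 0) (ε : ℝ) (hε : 0 < ε) :
    ∃ N₀ : ℕ, ∀ N : ℕ, N₀ ≤ N → Even N → ∀ M m : ℕ, 24 * (p + 2) ≤ M → M ≤ m →
      ∀ l : Fin (m + 1) → Fin N → ℝ, (∀ j i, l j i ∈ Icc a b) →
      LinearIndependent ℚ (fun q : Fin (m + 1) × Fin N => l q.1 q.2) → ∀ O' : ℕ → Orth N,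
      haarM N M {P | ¬ ∀ κ, IsLevels N m (cat P O') l κ → ∀ᶠ T : ℝ in atTop,
        |corr p f (unf l κ) T - ∫ v, f v * gR (Fin.cons 0 v : Fin (p + 2) → ℝ)| ≤ ε} ≤
        ENNReal.ofReal ε := by
  have hf := f02_cont f L hL0 hL
  have hK := SPA_bd p f L B hL0 hL hB
  obtain ⟨C₁, R, N₁, hC₁, hR, H₁⟩ := fixed_corr a b ha hab p f L _ B hL0 hL hK hB
  obtain ⟨C₂, hC₂, H₂⟩ := annealed
  obtain ⟨C₃, hC₃, H₃⟩ := len_avg
  have HS := sa_corr p f hf B hB
  obtain ⟨t1, t2, t3⟩ := tprod_bd R hR (2 * p + 1 + 1)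
  set L₂ : ℝ := ((2 * p + 1 + 1 : ℕ) : ℝ) / (2 * R) with hL₂
  have hL₂0 : 0 ≤ L₂ := by positivity
  have htc : Continuous (tprod R : (Fin (2 * p + 1 + 1) → ℝ) → ℝ) := f02_cont _ L₂ hL₂0 t3
  obtain ⟨C₄, H₄⟩ := goe_corr (2 * p + 1) (tprod R) htc (4 * R) t2
  obtain ⟨Q, hQ⟩ : ∃ Q : ℕ, max B (4 * R) < Q := exists_nat_gt _
  have hQB : B < Q := lt_of_le_of_lt (le_max_left _ _) hQ
  have hQR : 4 * R < Q := lt_of_le_of_lt (le_max_right _ _) hQ
  have hQ0 : 0 < Q := by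
    have : (0 : ℝ) < Q := lt_trans (by positivity) hQR
    exact_mod_cast this
  set v : ℝ := ∫ v, f v * gR (Fin.cons 0 v : Fin (p + 2) → ℝ) with hv
  set v₄ : ℝ := ∫ v, tprod R v * gR (Fin.cons 0 v : Fin (2 * p + 1 + 2) → ℝ) with hv₄
  set E₄ : ℝ := |v₄| + |C₄| + 1 with hE₄
  have hE₄0 : 0 < E₄ := by positivity
  set D : ℝ := 4 * E₄ / ε with hD
  have hD0 : 0 < D := by positivity
  set τ : ℝ := ε / (4 * (C₁ + 1) * (1 + D)) with hτ
  have hτ0 : 0 < τ := by positivity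
  set δ₂ : ℝ := ε * τ / (4 * (C₁ + 1)) with hδ₂
  have hδ₂0 : 0 < δ₂ := by positivity
  have hC₁' : C₁ / (C₁ + 1) ≤ 1 := (div_le_one (by linarith)).2 (by linarith)
  have e1 : C₁ * (τ * (1 + D)) ≤ ε / 4 := by
    have : C₁ * (τ * (1 + D)) = C₁ / (C₁ + 1) * (ε / 4) := by rw [hτ]; field_simp
    rw [this]
    nlinarith
  have e2 : C₁ * (1 / τ * δ₂) ≤ ε / 4 := by
    have : C₁ * (1 / τ * δ₂) = C₁ / (C₁ + 1) * (ε / 4) := by rw [hδ₂]; field_simp
    rw [this]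
    nlinarith
  -- limits
  have l1 := (tend_neg C₂ (1 / 12) (by norm_num)).eventually_le_const (show (0 : ℝ) < 1 by norm_num)
  have l2 := (tend_neg (2 * L * (3 * Q) ^ (p + 1) * C₂ ^ (24 * (p + 2))) (1 / 2)
    (by norm_num)).eventually_le_const (show (0 : ℝ) < ε / 4 * (ε / 8) by positivity)
  have l5 := (tend_neg (2 * L₂ * (3 * Q) ^ (2 * p + 1 + 1) * C₂ ^ (24 * (p + 2))) (1 / 2)
    (by norm_num)).eventually_le_const (show (0 : ℝ) < 1 by norm_num)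
  have l3 := (tend_neg (C₃ * ((b - a) / a) ^ 2) (1 / 6) (by norm_num)).eventually_le_const
    (show (0 : ℝ) < δ₂ * (ε / 4) by positivity)
  have l4 := HS.eventually_le_const (show (0 : ℝ) < ε / 4 * (ε / 8) by positivity)
  obtain ⟨A, hA⟩ := Filter.eventually_atTop.1 (l1.and (l2.and (l3.and l5)))
  obtain ⟨A', hA'⟩ := Filter.eventually_atTop.1 l4
  refine ⟨max (max N₁ A) (2 * A' + 2), fun N hN hE M m hM hm l hl hi O' => ?_⟩
  have hN1 : N₁ ≤ N := (le_max_left _ _).trans ((le_max_left _ _).trans hN)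
  have hNA : A ≤ N := (le_max_right _ _).trans ((le_max_left _ _).trans hN)
  have hNA' : 2 * A' + 2 ≤ N := (le_max_right _ _).trans hN
  have hN2 : 2 ≤ N := by omega
  have hN0 : 0 < N := by omega
  have hNR : (0 : ℝ) < N := by exact_mod_cast hN0
  obtain ⟨b1, b2, b3, b5⟩ := hA N hNA
  have := prob_haarM N M
  have := sc_orth N
  set c : Uni N → ℝ := fun W => pcorr N p f (phases W.1) with hc
  have hcc : Cls ((2 * (N * Q : ℕ) + 1) ^ (p + 1) * L * N) c := cls_corr hN0 p f L B hL0 hL hB hQB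
  have hccc : Continuous c := cls_cont hcc
  set c₄ : Uni N → ℝ := fun W => pcorr N (2 * p + 1) (tprod R) (phases W.1) with hc₄
  have hcc₄ : Cls ((2 * (N * Q : ℕ) + 1) ^ (2 * p + 1 + 1) * L₂ * N) c₄ :=
    cls_corr hN0 (2 * p + 1) (tprod R) L₂ (4 * R) hL₂0 t3 t2 hQR
  have hccc₄ : Continuous c₄ := cls_cont hcc₄
  have hg1 : ∫ A : Uni N, |c (sy A) - v| ∂(haarU N) ≤ ε / 4 * (ε / 8) ∧
      ∫ A : Uni N, c₄ (sy A) ∂(haarU N) ≤ |v₄| + |C₄| := by
    obtain ⟨r, hr⟩ := hE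
    have hr2 : N = r * 2 := by omega
    subst hr2
    refine ⟨hA' r (by omega), ?_⟩
    have hr0 : 0 < r := by omega
    have hr1 : (1 : ℝ) ≤ r := by exact_mod_cast hr0
    have k1 := (abs_le.1 (H₄ r hr0)).2
    have k2 : C₄ / r ≤ |C₄| := by
      rw [div_le_iff₀ (by linarith)]
      have := le_abs_self C₄
      have := abs_nonneg C₄
      nlinarith
    have k3 : coeCorr (r * 2) (2 * p + 1) (tprod R) = ∫ A, c₄ (sy A) ∂(haarU (r * 2)) := rfl
    rw [← k3]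
    have := le_abs_self v₄
    linarith
  have hq : ∀ c : Uni N → ℝ, Continuous c →
      Continuous fun q : (Fin M → Orth N) × (Fin (m + 1) → Tor N) =>
        c (sy (tr (cat q.1 O') m q.2)) := fun c hc =>
    hc.comp (sy_cont.comp ((trc m).comp (((cat_cont O').comp continuous_fst).prodMk
      continuous_snd)))
  -- first event
  have hf1 : ∫ P : Fin M → Orth N, |(∫ θ, c (sy (tr (cat P O') m θ))) - v| ∂(haarM N M) ≤
      ε / 4 * (ε / 4) := by
    have i1 := abs_le_ann (M := M) (m := m) O' c hccc v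
    have i2 := H₂ N hN2 _ (fun W => |c W - v|) (by positivity) (cls_abs hcc v) M m hm O'
    have i4 := f02_rate (Q := Q) hN0 hQ0 (p + 1) p M (by omega) hM L C₂ hL0 hC₂ b1
    have i5 := (abs_le.1 i2).2
    have i6 := i4.trans b2
    have i7 := hg1.1
    linarith
  have hm1 : haarM N M {P | ε / 4 < |(∫ θ, c (sy (tr (cat P O') m θ))) - v|} ≤
      ENNReal.ofReal (ε / 4) := by
    refine markov _ _ ?_ (fun _ => abs_nonneg _) _ _ (by linarith) hf1
    exact (((pint_cont _ (hq c hccc)).sub continuous_const).abs).integrable_of_hasCompactSupport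
      (HasCompactSupport.of_compactSpace _)
  -- second event
  have hm2 : haarM N M {P | δ₂ < 1 / N * ∫ θ : Fin (m + 1) → Tor N,
      fro (An (nn N) (B0 (cat P O') m l θ) (sy (tr (cat P O') m θ))) ^ 2} ≤
      ENNReal.ofReal (ε / 4) := by
    refine markov _ _ ?_ (fun P => ?_) _ _ hδ₂0 ?_
    · exact (pint_int _ (f01_gcont (nn N) O' l)).const_mul _
    · exact mul_nonneg (by positivity) (integral_nonneg fun θ => by positivity)
    · exact (H₃ N hN2 a b ha hab M m (by omega) hm O' l hl).trans b3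
  -- third event
  have hm3 : haarM N M {P | D < ∫ θ, c₄ (sy (tr (cat P O') m θ))} ≤ ENNReal.ofReal (ε / 4) := by
    refine markov _ _ (pint_int _ (hq c₄ hccc₄)) (fun P => ?_) _ _ hD0 ?_
    · exact integral_nonneg fun θ => f02_nonneg _ _ _ (fun v => (t1 v).1) _
    · have i2 := H₂ N hN2 _ c₄ (by positivity) hcc₄ M m hm O'
      have i4 := f02_rate (Q := Q) hN0 hQ0 (2 * p + 1 + 1) p M (by omega) hM L₂ C₂ hL₂0 hC₂ b1
      have i5 := (abs_le.1 i2).2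
      have i6 := i4.trans b5
      have i7 := hg1.2
      have i8 : D * (ε / 4) = E₄ := by rw [hD]; field_simp
      rw [i8, hE₄]
      linarith
  refine (measure_mono (t := ({P | ε / 4 < |(∫ θ, c (sy (tr (cat P O') m θ))) - v|} ∪
    {P | δ₂ < 1 / N * ∫ θ : Fin (m + 1) → Tor N,
      fro (An (nn N) (B0 (cat P O') m l θ) (sy (tr (cat P O') m θ))) ^ 2}) ∪
    {P | D < ∫ θ, c₄ (sy (tr (cat P O') m θ))}) ?_).trans ?_
  · intro P hP
    by_contra hcon
    refine hP ?_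
    have hcon1 : ¬ ε / 4 < |(∫ θ, c (sy (tr (cat P O') m θ))) - v| :=
      fun h => hcon (Or.inl (Or.inl h))
    have hcon2 : ¬ δ₂ < 1 / N * ∫ θ : Fin (m + 1) → Tor N,
      fro (An (nn N) (B0 (cat P O') m l θ) (sy (tr (cat P O') m θ))) ^ 2 :=
      fun h => hcon (Or.inl (Or.inr h))
    have hcon3 : ¬ D < ∫ θ, c₄ (sy (tr (cat P O') m θ)) := fun h => hcon (Or.inr h)
    push Not at hcon1 hcon2 hcon3
    intro κ hκ
    have hnn : 1 ≤ nn N := by
      unfold nn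
      exact Nat.one_le_ceil_iff.2 (by positivity)
    filter_upwards [H₁ N hN1 (cat P O') m l hl hi κ hκ (nn N) τ (ε / 4) hnn hτ0 (by linarith)]
      with T hT
    have j1 : C₁ * (τ * (1 + ∫ θ, pcorr N (2 * p + 1) (tprod R)
        (phases (sy (tr (cat P O') m θ)).1)) + 1 / τ * (1 / N * ∫ θ, fro (An (nn N)
        (B0 (cat P O') m l θ) (sy (tr (cat P O') m θ))) ^ 2)) ≤ ε / 4 + ε / 4 := by
      rw [mul_add]
      refine add_le_add (le_trans ?_ e1) (le_trans ?_ e2)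
      · refine mul_le_mul_of_nonneg_left (mul_le_mul_of_nonneg_left ?_ hτ0.le) hC₁
        exact add_le_add le_rfl hcon3
      · gcongr
    have j2 := abs_sub_le (corr p f (unf l κ) T)
      (∫ θ, pcorr N p f (phases (sy (tr (cat P O') m θ)).1)) v
    have j3 : |(∫ θ, pcorr N p f (phases (sy (tr (cat P O') m θ)).1)) - v| ≤ ε / 4 := hcon1
    linarith
  · refine (measure_union_le _ _).trans ?_
    refine (add_le_add ((measure_union_le _ _).trans (add_le_add hm1 hm2)) hm3).trans ?_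
    rw [← ENNReal.ofReal_add (by linarith) (by linarith),
      ← ENNReal.ofReal_add (by linarith) (by linarith)]
    exact ENNReal.ofReal_le_ofReal (by linarith)

end Ty
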