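import Pool.Agent.LibTy70.Defs
import Pool.Agent.LibCOE.Def2

/-! Objects for the self-averaging of the COE. -/

open MeasureTheory Set Filter Topology

namespace Ty

open QGr COE

/-- Distance of `r` to the multiples of `2 n`. -/
noncomputable def cd (n : ℕ) (r : ℝ) : ℝ := |r - 2 * n * round (r / (2 * n))|

/-- The scaled kernels on the circle. -/
noncomputable def tS (n : ℕ) (r : ℝ) : ℝ := Real.pi / n * kS n (Real.pi / n * r)

noncomputable def tD (n : ℕ) (r : ℝ) : ℝ := (Real.pi / n) ^ 2 * kD n (Real.pi / n * r)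

noncomputable def tJ (n : ℕ) (r : ℝ) : ℝ := kJ n (Real.pi / n * r)

/-- The scaled `q`-point function on the circle. -/
noncomputable def rt {q : ℕ} (n : ℕ) (x : Fin q → ℝ) : ℝ := √(KM (tD n) (tS n) (tJ n) x).det

/-- The angles `x` lie within the scaled distance `B` of the first one. -/
def cl {q : ℕ} (n : ℕ) (B : ℝ) (x : Fin (q + 1) → ℝ) : Prop :=
  ∀ i, cd n (n / Real.pi * (x i - x 0)) ≤ B

/-- The number of points within the scaled distance `B` of the point `a`. -/
noncomputable def na {N : ℕ} (B : ℝ) (θ : Fin N → ℝ) (n : ℕ) (a : Fin N) : ℕ :=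
  (Finset.univ.filter fun j => cd n (n / Real.pi * (θ j - θ a)) ≤ B).card

/-- The mean of `φ` over the COE(2n) angles. -/
noncomputable def EW (n : ℕ) (φ : (Fin (n * 2) → ℝ) → ℝ) : ℝ :=
  (∫ θ, φ θ * wt θ ∂(cube (Fin (n * 2)))) / ∫ θ, wt θ ∂(cube (Fin (n * 2)))

end Ty
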