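import Pool.Agent.LibQGr.Def3

/-! Typical quantum graphs: objects. -/

open MeasureTheory Set Filter Topology

namespace Ty

open QGr

noncomputable instance (N : ℕ) : MeasurableSpace (Orth N) := borel _

instance (N : ℕ) : BorelSpace (Orth N) := ⟨rfl⟩

instance compact_orth (N : ℕ) : CompactSpace (Orth N) := by
  refine isCompact_iff_compactSpace.1 ?_
  have hc : IsClosed ((Matrix.orthogonalGroup (Fin N) ℝ : Set (Matrix (Fin N) (Fin N) ℝ))) := by
    have : (Matrix.orthogonalGroup (Fin N) ℝ : Set (Matrix (Fin N) (Fin N) ℝ))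
        = {A | A * star A = 1} := by
      ext A; simp [Matrix.mem_orthogonalGroup_iff, Matrix.star_eq_conjTranspose]
    rw [this]
    exact isClosed_eq (by fun_prop) continuous_const
  have hk : IsCompact (Set.pi Set.univ fun _ : Fin N => Set.pi Set.univ fun _ : Fin N =>
      Metric.closedBall (0 : ℝ) 1) :=
    isCompact_univ_pi fun _ => isCompact_univ_pi fun _ => isCompact_closedBall _ _
  refine hk.of_isClosed_subset hc ?_
  intro A hA i _ j _
  simpa using entry_norm_bound_of_unitary hA i j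

/-- The Haar probability measure of the orthogonal group. -/
noncomputable def haarO (N : ℕ) : Measure (Orth N) :=
  Measure.haarMeasure ⟨⟨Set.univ, isCompact_univ⟩, by simp⟩

/-- The torus of the phases of one layer. -/
abbrev Tor (N : ℕ) : Type := Fin N → UnitAddCircle

/-- Complex matrices. -/
abbrev Mat (N : ℕ) : Type := Matrix (Fin N) (Fin N) ℂ

/-- The point `e^{2πi x}` of the unit circle as a complex number. -/
noncomputable def ee (x : UnitAddCircle) : ℂ := ((AddCircle.toCircle x : Circle) : ℂ)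

/-- The diagonal unitary matrix with the real angles `φ`. -/
noncomputable def dgr {N : ℕ} (φ : Fin N → ℝ) : Uni N :=
  dg fun a => ((φ a / (2 * Real.pi) : ℝ) : UnitAddCircle)

/-- The diagonal matrix with real entries `δ`. -/
noncomputable def dm {N : ℕ} (δ : Fin N → ℝ) : Mat N := Matrix.diagonal fun a => (δ a : ℂ)

/-- Class functions, Lipschitz for the Frobenius distance. -/
structure Cls {N : ℕ} (ℓ : ℝ) (c : Uni N → ℝ) : Prop where
  conj : ∀ V W : Uni N, c (V * W * V⁻¹) = c W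
  lip : ∀ A B : Uni N, |c A - c B| ≤ ℓ * √(ds A B)

/-- Symmetric unitary matrices. -/
def Sym {N : ℕ} (W : Uni N) : Prop := W.1.transpose = W.1

/-- The average `(1/n) ∑_{i<n} U^i K U^{-i}`. -/
noncomputable def An {N : ℕ} (n : ℕ) (K : Mat N) (U : Uni N) : Mat N :=
  ((1 / n : ℝ) : ℂ) • ∑ i ∈ Finset.range n, (U ^ i : Uni N).1 * K * ((U ^ i)⁻¹ : Uni N).1

/-- The angles of a diagonalisation of `W`. -/
noncomputable def eig {N : ℕ} (W : Uni N) : Tor N :=
  Classical.epsilon fun φ : Tor N => ∃ V : Uni N, W = V * dg φ * V⁻¹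

/-- One layer with a Haar distributed vertex, applied to `W`. -/
noncomputable def lay {N : ℕ} (c : Uni N → ℝ) (W : Uni N) : ℝ :=
  ∫ O : Orth N, ∫ t : Tor N, c (dg t * (cx O)⁻¹ * W * cx O * dg t) ∂(volume : Measure (Tor N)) ∂(haarO N)

/-- The class function of one layer. -/
noncomputable def Lay {N : ℕ} (c : Uni N → ℝ) (W : Uni N) : ℝ := lay c (dg (eig W))

/-- The lattice. -/
noncomputable def lat (N : ℕ) : Tor N := fun j => (((j : ℕ) / N : ℝ) : UnitAddCircle)

/-- Weights. -/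
noncomputable def wk (h : ℝ) (k : ℕ) : ℝ := min (1 / ((k : ℝ) + 1)) (1 / (h * ((k : ℝ) + 1) ^ 2))

/-- The bound for the distance of the spectrum of `G` to the lattice. -/
noncomputable def Dsc {N : ℕ} (h : ℝ) (G : Uni N) : ℝ :=
  2 * Real.pi * (h + 1 / N + 1 / N * ∑' k : ℕ, wk h k * ‖Matrix.trace ((G ^ (k + 1) : Uni N).1)‖)

/-- The mean square of the averages for `U = X O G O⁻¹`, `O` Haar distributed. -/
noncomputable def Psi {N : ℕ} (n : ℕ) (K : Mat N) (X G : Uni N) : ℝ :=
  ∫ O : Orth N, fro (An n K (X * (cx O * G * (cx O)⁻¹))) ^ 2 ∂(haarO N)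

/-- The number of averaging steps. -/
noncomputable def nn (N : ℕ) : ℕ := ⌈(N : ℝ) ^ (1 / 6 : ℝ)⌉₊

/-- `P` on the first `M` places, `O'` on the others. -/
def cat {N M : ℕ} (P : Fin M → Orth N) (O' : ℕ → Orth N) : ℕ → Orth N :=
  fun j => if h : j < M then P ⟨j, h⟩ else O' j

/-- The law of `M` independent Haar distributed orthogonal matrices. -/
noncomputable def haarM (N M : ℕ) : Measure (Fin M → Orth N) := Measure.pi fun _ => haarO N

/-- Sum of a weight at zero times a local functional over a sequence of points. -/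
noncomputable def Lw (M : ℕ) (η : ℝ → ℝ) (h : (Fin (2 * M + 1) → ℝ) → ℝ) (z : ℤ → ℝ) : ℝ :=
  ∑ᶠ q : ℤ, η (z q) * h fun s => z (q + (s : ℕ) - M) - z q

/-- The number of branches near zero. -/
noncomputable def n2 (R : ℝ) (Φ : ℤ → ℝ → ℝ) (s : ℝ) : ℕ := {q : ℤ | |Φ q s| ≤ R}.ncard

/-- The sum of the `j`-th powers of the deviations of the slopes of the branches near zero. -/
noncomputable def sD (j : ℕ) (R : ℝ) (Φ : ℤ → ℝ → ℝ) (s : ℝ) : ℝ :=
  ∑ᶠ q : ℤ, if |Φ q s| ≤ R then |deriv (Φ q) s - 1| ^ j else 0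

/-- The normalised delay matrix minus one. -/
noncomputable def B0 {N : ℕ} (O : ℕ → Orth N) (m : ℕ) (l : Fin (m + 1) → Fin N → ℝ)
    (θ : Fin (m + 1) → Tor N) : Mat N :=
  ((N / len l : ℝ) : ℂ) • Bm O m l θ - 1

/-- The symmetrised version. -/
noncomputable def B1 {N : ℕ} (O : ℕ → Orth N) (m : ℕ) (l : Fin (m + 1) → Fin N → ℝ)
    (θ : Fin (m + 1) → Tor N) : Mat N :=
  ((N / (2 * len l) : ℝ) : ℂ) • (Bm O m l θ + (Bm O m l θ).transpose) - 1

/-- The tent function: `1` on `[-R, R]`, `0` outside `[-2R, 2R]`. -/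
noncomputable def tent (R x : ℝ) : ℝ := max 0 (min 1 (2 - |x| / R))

/-- Products of tent functions. -/
noncomputable def tprod (R : ℝ) {k : ℕ} (v : Fin k → ℝ) : ℝ := ∏ i, tent (2 * R) (v i)

/-- Extension by zero of a finite sequence of phases. -/
noncomputable def ext {N m : ℕ} (θ : Fin (m + 1) → Tor N) (j : ℕ) : Tor N :=
  if h : j < m + 1 then θ ⟨j, h⟩ else 0

/-- `D_{i+k} O_{i+k-1} ⋯ D_{i+1} O_i`. -/
noncomputable def pr {N : ℕ} (O : ℕ → Orth N) (θ : ℕ → Tor N) (i : ℕ) : ℕ → Uni N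
  | 0 => 1
  | k + 1 => dg (θ (i + k + 1)) * cx (O (i + k)) * pr O θ i k

/-- The transfer matrix up to the layer `j`. -/
noncomputable def trj {N m : ℕ} (O : ℕ → Orth N) (θ : Fin (m + 1) → Tor N) (j : ℕ) : Uni N :=
  pr O (ext θ) 0 j * dg (θ 0)

/-- The matrix `A_j W A_j⁻¹`. -/
noncomputable def Uj {N m : ℕ} (O : ℕ → Orth N) (θ : Fin (m + 1) → Tor N) (j : ℕ) : Uni N :=
  trj O θ j * sy (tr O m θ) * (trj O θ j)⁻¹

/-- The deviations of the lengths of one layer from their mean. -/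
noncomputable def Lp {N m : ℕ} (l : Fin (m + 1) → Fin N → ℝ) (j : Fin (m + 1)) (i : Fin N) : ℝ :=
  l j i - 1 / N * ∑ i', l j i'

/-- The function which bounds the sum of the squares of the deviations of the slopes. -/
noncomputable def Qf {N : ℕ} (n M : ℕ) (O : ℕ → Orth N) (m : ℕ) (l : Fin (m + 1) → Fin N → ℝ)
    (θ : Fin (m + 1) → Tor N) : ℝ :=
  Real.pi ^ 2 / (4 * M ^ 2) * fro (An n (B1 O m l θ) (sy (tr O m θ)) *
    ∑ k ∈ Finset.range M, ((sy (tr O m θ)) ^ k : Uni N).1) ^ 2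

end Ty
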