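import Pool.Agent.LibTy70.CDefs
import Pool.Agent.LibCOE.CP_V7
import Pool.Agent.LibCOE.CP_V4

/-! Row S01: decay of the kernels. -/

open MeasureTheory Set Filter Topology

namespace Ty

open QGr COE

theorem S01_sum1 (F : ℕ → ℝ) (n : ℕ) : ∑ k : Ix n, F (od k) = ∑ i ∈ Finset.range (2 * n), F i := by
  rw [Fintype.sum_prod_type]
  have h : ∀ i : Fin n, ∑ b : Fin 2, F (od (i, b)) = F (2 * i) + F (2 * i + 1) := by
    intro i
    rw [Fin.sum_univ_two]
    rfl
  rw [Finset.sum_congr rfl fun i _ => h i]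
  have h2 : ∑ i : Fin n, (F (2 * (i : ℕ)) + F (2 * (i : ℕ) + 1)) =
      ∑ i ∈ Finset.range n, (F (2 * i) + F (2 * i + 1)) :=
    Fin.sum_univ_eq_sum_range (fun i => F (2 * i) + F (2 * i + 1)) n
  rw [h2]
  clear h h2
  induction n with
  | zero => simp
  | succ n ih =>
    rw [Finset.sum_range_succ, ih, show 2 * (n + 1) = 2 * n + 1 + 1 by ring,
      Finset.sum_range_succ, Finset.sum_range_succ, add_assoc]

theorem S01_sum (g : ℝ → ℝ) (n : ℕ) : ∑ k : Ix n, g (hp k) =
    ∑ j ∈ Finset.range n, (g (j + 1 / 2) + g (-(j + 1 / 2))) := by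
  have h1 : ∑ k : Ix n, g (hp k) = ∑ i ∈ Finset.range (2 * n), g (i - (2 * n - 1) / 2) :=
    S01_sum1 (fun i => g (i - (2 * n - 1) / 2)) n
  rw [h1]
  clear h1
  induction n with
  | zero => simp
  | succ n ih =>
    rw [show 2 * (n + 1) = 2 * n + 1 + 1 by ring, Finset.sum_range_succ, Finset.sum_range_succ',
      Finset.sum_range_succ, ← ih]
    have e1 : ∀ i : ℕ, (((i + 1 : ℕ) : ℝ) - (2 * ((n + 1 : ℕ) : ℝ) - 1) / 2) =
        i - (2 * n - 1) / 2 := by
      intro i; push_cast; ring
    have e2 : (((0 : ℕ) : ℝ) - (2 * ((n + 1 : ℕ) : ℝ) - 1) / 2) = -(n + 1 / 2) := by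
      push_cast; ring
    have e3 : (((2 * n + 1 : ℕ) : ℝ) - (2 * ((n + 1 : ℕ) : ℝ) - 1) / 2) = n + 1 / 2 := by
      push_cast; ring
    rw [e2, e3, Finset.sum_congr rfl fun i _ => by rw [e1 i]]
    ring

theorem S01_dir (n : ℕ) (x : ℝ) :
    2 * Real.sin (x / 2) * ∑ j ∈ Finset.range n, Real.cos ((j + 1 / 2) * x) = Real.sin (n * x) := by
  induction n with
  | zero => simp
  | succ n ih =>
    rw [Finset.sum_range_succ, mul_add, ih]
    have e1 : ((n + 1 : ℕ) : ℝ) * x = (n + 1 / 2) * x + x / 2 := by push_cast; ring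
    have e2 : (n : ℝ) * x = (n + 1 / 2) * x - x / 2 := by ring
    rw [e1, e2, Real.sin_add, Real.sin_sub]
    ring

theorem S01_kS (n : ℕ) (x : ℝ) : 2 * Real.pi * Real.sin (x / 2) * kS n x = Real.sin (n * x) := by
  unfold kS
  rw [S01_sum (fun h => Real.cos (h * x)) n, ← S01_dir]
  have e : ∀ j ∈ Finset.range n, Real.cos (((j : ℝ) + 1 / 2) * x) +
      Real.cos (-((j : ℝ) + 1 / 2) * x) = 2 * Real.cos (((j : ℝ) + 1 / 2) * x) := by
    intro j _
    rw [neg_mul, Real.cos_neg]; ring
  rw [Finset.sum_congr rfl e, ← Finset.mul_sum]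
  have := Real.pi_ne_zero
  field_simp

theorem S01_dS (n : ℕ) (x : ℝ) : HasDerivAt (kS n) (kD n x) x := by
  have h : HasDerivAt (fun x => 1 / (2 * Real.pi) * ∑ k : Ix n, Real.cos (hp k * x))
      (1 / (2 * Real.pi) * ∑ k : Ix n, -Real.sin (hp k * x) * hp k) x := by
    refine HasDerivAt.const_mul _ (HasDerivAt.fun_sum fun k _ => ?_)
    refine (Real.hasDerivAt_cos _).comp x ?_
    simpa using (hasDerivAt_id x).const_mul (hp k)
  have e : kD n x = 1 / (2 * Real.pi) * ∑ k : Ix n, -Real.sin (hp k * x) * hp k := by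
    unfold kD
    rw [neg_mul, ← mul_neg, ← Finset.sum_neg_distrib]
    congr 1
    exact Finset.sum_congr rfl fun k _ => by ring
  rw [e]
  exact h

theorem S01_dI (n : ℕ) (x : ℝ) : HasDerivAt (kI n) (kS n x) x := by
  have h : HasDerivAt (fun x => 1 / (2 * Real.pi) * ∑ k : Ix n, 1 / hp k * Real.sin (hp k * x))
      (1 / (2 * Real.pi) * ∑ k : Ix n, 1 / hp k * (Real.cos (hp k * x) * hp k)) x := by
    refine HasDerivAt.const_mul _ (HasDerivAt.fun_sum fun k _ => HasDerivAt.const_mul _ ?_)
    refine (Real.hasDerivAt_sin _).comp x ?_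
    simpa using (hasDerivAt_id x).const_mul (hp k)
  have e : kS n x = 1 / (2 * Real.pi) * ∑ k : Ix n, 1 / hp k * (Real.cos (hp k * x) * hp k) := by
    unfold kS
    congr 1
    refine Finset.sum_congr rfl fun k _ => ?_
    have := hp_ne k
    field_simp
  rw [e]
  exact h

theorem S01_kD (n : ℕ) (x : ℝ) : 2 * Real.pi * Real.sin (x / 2) * kD n x =
    n * Real.cos (n * x) - Real.pi * Real.cos (x / 2) * kS n x := by
  have h1 : HasDerivAt (fun x => 2 * Real.pi * Real.sin (x / 2) * kS n x)
      (2 * Real.pi * (Real.cos (x / 2) * (1 / 2)) * kS n x +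
        2 * Real.pi * Real.sin (x / 2) * kD n x) x := by
    refine HasDerivAt.mul ?_ (S01_dS n x)
    refine HasDerivAt.const_mul _ ?_
    refine (Real.hasDerivAt_sin _).comp x ?_
    exact (hasDerivAt_id x).div_const 2
  have h2 : HasDerivAt (fun x => Real.sin (n * x)) (Real.cos (n * x) * n) x := by
    refine (Real.hasDerivAt_sin _).comp x ?_
    simpa using (hasDerivAt_id x).const_mul (n : ℝ)
  have h3 : (fun x => 2 * Real.pi * Real.sin (x / 2) * kS n x) = fun x => Real.sin (n * x) :=
    funext fun x => S01_kS n x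
  rw [h3] at h1
  have := h1.unique h2
  linarith

theorem S01_leib (n : ℕ) :
    |∑ i ∈ Finset.range n, (-1 : ℝ) ^ i / (2 * i + 1) - Real.pi / 4| ≤ 1 / (2 * n + 1) := by
  have h := Real.tendsto_sum_pi_div_four
  have ha : Antitone fun i : ℕ => 1 / (2 * (i : ℝ) + 1) := by
    intro i j hij
    have : (i : ℝ) ≤ j := by exact_mod_cast hij
    exact one_div_le_one_div_of_le (by positivity) (by linarith)
  have h' : Tendsto (fun n ↦ ∑ i ∈ Finset.range n, (-1 : ℝ) ^ i * (1 / (2 * (i : ℝ) + 1))) atTop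
      (𝓝 (Real.pi / 4)) := by
    refine h.congr fun k => Finset.sum_congr rfl fun i _ => by ring
  have hc : ∑ i ∈ Finset.range n, (-1 : ℝ) ^ i / (2 * i + 1) =
      ∑ i ∈ Finset.range n, (-1 : ℝ) ^ i * (1 / (2 * (i : ℝ) + 1)) :=
    Finset.sum_congr rfl fun i _ => by ring
  rw [hc]
  rcases Nat.even_or_odd' n with ⟨k, rfl | rfl⟩
  · have h1 := ha.alternating_series_le_tendsto h' k
    have h2 := ha.tendsto_le_alternating_series h' k
    rw [Finset.sum_range_succ] at h2
    have e : (-1 : ℝ) ^ (2 * k) = 1 := by simp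
    rw [e, one_mul] at h2
    rw [abs_le]
    push_cast at h1 h2 ⊢
    constructor
    · linarith
    · have : (0 : ℝ) ≤ 1 / (2 * (2 * k) + 1) := by positivity
      linarith
  · have h1 := ha.alternating_series_le_tendsto h' (k + 1)
    have h2 := ha.tendsto_le_alternating_series h' k
    rw [show 2 * (k + 1) = 2 * k + 1 + 1 by ring, Finset.sum_range_succ] at h1
    have e : (-1 : ℝ) ^ (2 * k + 1) = -1 := by rw [pow_succ]; simp
    rw [e] at h1
    rw [abs_le]
    push_cast at h1 h2 ⊢
    constructor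
    · have : (0 : ℝ) ≤ 1 / (2 * (2 * k + 1) + 1) := by positivity
      linarith
    · linarith

theorem S01_kI_pi {n : ℕ} (hn : 0 < n) : |kI n Real.pi - 1 / 2| ≤ 1 / (Real.pi * n) := by
  have hn0 : (0 : ℝ) < n := by exact_mod_cast hn
  have hpi := Real.pi_pos
  have e : kI n Real.pi = 2 / Real.pi * ∑ i ∈ Finset.range n, (-1 : ℝ) ^ i / (2 * i + 1) := by
    unfold kI
    rw [S01_sum (fun h => 1 / h * Real.sin (h * Real.pi)) n, Finset.mul_sum, Finset.mul_sum]
    refine Finset.sum_congr rfl fun j _ => ?_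
    have h1 : Real.sin (((j : ℝ) + 1 / 2) * Real.pi) = (-1) ^ j := by
      rw [show ((j : ℝ) + 1 / 2) * Real.pi = j * Real.pi + Real.pi / 2 by ring,
        Real.sin_add_pi_div_two, Real.cos_nat_mul_pi]
    rw [neg_mul, Real.sin_neg, h1]
    have h2 : (0 : ℝ) < (j : ℝ) + 1 / 2 := by positivity
    have h3 : (0 : ℝ) < 2 * (j : ℝ) + 1 := by positivity
    field_simp
    ring
  have h := S01_leib n
  have e2 : kI n Real.pi - 1 / 2 = 2 / Real.pi *
      (∑ i ∈ Finset.range n, (-1 : ℝ) ^ i / (2 * i + 1) - Real.pi / 4) := by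
    rw [e, mul_sub]
    congr 1
    field_simp
    ring
  rw [e2, abs_mul, abs_of_pos (by positivity : 0 < 2 / Real.pi)]
  calc 2 / Real.pi * |∑ i ∈ Finset.range n, (-1 : ℝ) ^ i / (2 * i + 1) - Real.pi / 4| ≤
      2 / Real.pi * (1 / (2 * n + 1)) := by gcongr
    _ ≤ 2 / Real.pi * (1 / (2 * n)) := by gcongr; linarith
    _ = _ := by field_simp

/-- The tail of the integral of the kernel. -/
theorem S01_kI_tail {n : ℕ} (hn : 0 < n) {x : ℝ} (h0 : 0 < x) (h1 : x ≤ Real.pi) :
    |kI n Real.pi - kI n x| ≤ 3 * (1 / (2 * Real.pi * n * Real.sin (x / 2))) := by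
  have hn0 : (0 : ℝ) < n := by exact_mod_cast hn
  have hpi := Real.pi_pos
  set H : ℝ → ℝ := fun u => 1 / (2 * Real.pi * n * Real.sin (u / 2)) with hH
  set G : ℝ → ℝ := fun u => kI n u + Real.cos (n * u) * H u with hG
  have hs : ∀ u ∈ Icc x Real.pi, 0 < Real.sin (u / 2) := by
    intro u hu
    exact Real.sin_pos_of_pos_of_lt_pi (by linarith [hu.1]) (by linarith [hu.2])
  have hc : ∀ u ∈ Icc x Real.pi, 0 ≤ Real.cos (u / 2) := by
    intro u hu
    exact Real.cos_nonneg_of_mem_Icc ⟨by linarith [hu.1], by linarith [hu.2]⟩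
  have dH : ∀ u ∈ Icc x Real.pi, HasDerivAt H
      (-(Real.cos (u / 2) / (4 * Real.pi * n * Real.sin (u / 2) ^ 2))) u := by
    intro u hu
    have h2 := hs u hu
    have h3 : HasDerivAt (fun u => 2 * Real.pi * n * Real.sin (u / 2))
        (2 * Real.pi * n * (Real.cos (u / 2) * (1 / 2))) u := by
      refine HasDerivAt.const_mul _ ?_
      refine (Real.hasDerivAt_sin _).comp u ?_
      exact (hasDerivAt_id u).div_const 2
    have h4 := h3.inv (by positivity)
    have e : H = fun u => (2 * Real.pi * n * Real.sin (u / 2))⁻¹ := by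
      funext u; simp [hH]
    rw [e]
    refine HasDerivAt.congr_deriv h4 ?_
    field_simp
    ring
  have dG : ∀ u ∈ Icc x Real.pi, HasDerivAt G (Real.cos (n * u) *
      (-(Real.cos (u / 2) / (4 * Real.pi * n * Real.sin (u / 2) ^ 2)))) u := by
    intro u hu
    have h2 := hs u hu
    have h3 : HasDerivAt (fun u => Real.cos (n * u)) (-Real.sin (n * u) * n) u := by
      refine (Real.hasDerivAt_cos _).comp u ?_
      simpa using (hasDerivAt_id u).const_mul (n : ℝ)
    have h4 := (S01_dI n u).add (h3.mul (dH u hu))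
    have h5 : kS n u = Real.sin (n * u) / (2 * Real.pi * Real.sin (u / 2)) := by
      rw [eq_div_iff (by positivity), ← S01_kS]; ring
    refine HasDerivAt.congr_deriv h4 ?_
    rw [h5]
    simp only [hH]
    field_simp
    ring
  have hx : x ∈ Icc x Real.pi := ⟨le_rfl, h1⟩
  have hp : Real.pi ∈ Icc x Real.pi := ⟨h1, le_rfl⟩
  have hneg : ∀ u ∈ Icc x Real.pi,
      -(Real.cos (u / 2) / (4 * Real.pi * n * Real.sin (u / 2) ^ 2)) ≤ 0 := by
    intro u hu
    have h2 := hs u hu
    have h3 := hc u hu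
    rw [neg_nonpos]
    positivity
  have a1 : AntitoneOn (fun u => H u - G u) (Icc x Real.pi) := by
    refine antitoneOn_of_deriv_nonpos (convex_Icc _ _) ?_ ?_ ?_
    · intro u hu
      exact ((dH u hu).sub (dG u hu)).continuousAt.continuousWithinAt
    · intro u hu
      rw [interior_Icc] at hu
      exact ((dH u (Ioo_subset_Icc_self hu)).sub
        (dG u (Ioo_subset_Icc_self hu))).differentiableAt.differentiableWithinAt
    · intro u hu
      rw [interior_Icc] at hu
      have hu' := Ioo_subset_Icc_self hu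
      rw [((dH u hu').fun_sub (dG u hu')).deriv]
      have h2 := hneg u hu'
      have h3 := Real.cos_le_one (n * u)
      nlinarith
  have a2 : AntitoneOn (fun u => H u + G u) (Icc x Real.pi) := by
    refine antitoneOn_of_deriv_nonpos (convex_Icc _ _) ?_ ?_ ?_
    · intro u hu
      exact ((dH u hu).add (dG u hu)).continuousAt.continuousWithinAt
    · intro u hu
      rw [interior_Icc] at hu
      exact ((dH u (Ioo_subset_Icc_self hu)).add
        (dG u (Ioo_subset_Icc_self hu))).differentiableAt.differentiableWithinAt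
    · intro u hu
      rw [interior_Icc] at hu
      have hu' := Ioo_subset_Icc_self hu
      rw [((dH u hu').fun_add (dG u hu')).deriv]
      have h2 := hneg u hu'
      have h3 := Real.neg_one_le_cos (n * u)
      nlinarith
  have b1 := a1 hx hp h1
  have b2 := a2 hx hp h1
  have hHx : 0 < H x := by
    have := hs x hx
    simp only [hH]; positivity
  have hHp : 0 < H Real.pi := by
    have := hs Real.pi hp
    simp only [hH]; positivity
  simp only [hG] at b1 b2
  have c1 := Real.cos_le_one (n * x)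
  have c2 := Real.neg_one_le_cos (n * x)
  have c3 := Real.cos_le_one (n * Real.pi)
  have c4 := Real.neg_one_le_cos (n * Real.pi)
  have d1 : |Real.cos (n * x) * H x| ≤ H x := by
    rw [abs_mul, abs_of_pos hHx]
    exact mul_le_of_le_one_left hHx.le (Real.abs_cos_le_one _)
  have d2 : |Real.cos (n * Real.pi) * H Real.pi| ≤ H Real.pi := by
    rw [abs_mul, abs_of_pos hHp]
    exact mul_le_of_le_one_left hHp.le (Real.abs_cos_le_one _)
  rw [abs_le] at d1 d2
  change _ ≤ 3 * H x
  rw [abs_le]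
  constructor <;> linarith [d1.1, d1.2, d2.1, d2.2]

/-- The bounds on the fundamental interval. -/
theorem S01_core {n : ℕ} (hn : 0 < n) {y : ℝ} (h0 : 0 ≤ y) (h1 : y ≤ n) :
    |tS n y| ≤ 8 / (1 + y) ∧ |tD n y| ≤ 8 / (1 + y) ∧ |tJ n y| ≤ 8 / (1 + y) := by
  have hn0 : (0 : ℝ) < n := by exact_mod_cast hn
  have hpi := Real.pi_pos
  have hpi3 := Real.pi_gt_three
  have hpi4 := Real.pi_le_four
  have hx : Real.pi / n * y = Real.pi * y / n := by ring
  have tJ_eq : tJ n y = sJ n y := by
    unfold tJ sJ kJ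
    rw [hx]
    congr 2
    rcases h0.eq_or_lt with h | h
    · rw [← h]; simp
    · rw [Real.sign_of_pos h, Real.sign_of_pos]
      refine Real.sin_pos_of_pos_of_lt_pi (by positivity) ?_
      have : Real.pi * y / n ≤ Real.pi := by
        rw [div_le_iff₀ hn0]
        exact mul_le_mul_of_nonneg_left h1 hpi.le
      linarith
  rcases le_total y 1 with hy | hy
  · obtain ⟨b1, b2, b3⟩ := s_bdd hn y
    have hk : (4 : ℝ) ≤ 8 / (1 + y) := by
      rw [le_div_iff₀ (by linarith)]; linarith
    refine ⟨?_, ?_, ?_⟩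
    · have : tS n y = sS n y := by unfold tS sS; rw [hx]
      rw [this]; linarith
    · have : tD n y = COE.sD n y := by unfold tD COE.sD; rw [hx]
      rw [this]; linarith
    · rw [tJ_eq]
      rw [abs_of_nonneg h0] at b3
      linarith
  · have hy0 : 0 < y := by linarith
    set x := Real.pi / n * y with hxdef
    have hx0 : 0 < x := by positivity
    have hxpi : x ≤ Real.pi := by
      rw [hxdef, div_mul_eq_mul_div, div_le_iff₀ hn0]
      exact mul_le_mul_of_nonneg_left h1 hpi.le
    have hs : y / n ≤ Real.sin (x / 2) := by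
      have h2 := Real.mul_le_sin (x := x / 2) (by linarith) (by linarith)
      refine le_trans (le_of_eq ?_) h2
      rw [hxdef]
      field_simp
    have hs0 : 0 < Real.sin (x / 2) := lt_of_lt_of_le (by positivity) hs
    have hkS : |kS n x| ≤ 1 / (2 * Real.pi * (y / n)) := by
      have h2 : kS n x = Real.sin (n * x) / (2 * Real.pi * Real.sin (x / 2)) := by
        rw [eq_div_iff (by positivity), ← S01_kS]; ring
      rw [h2, abs_div, abs_of_pos (by positivity : 0 < 2 * Real.pi * Real.sin (x / 2))]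
      exact div_le_div₀ zero_le_one (Real.abs_sin_le_one _) (by positivity) (by gcongr)
    have hkD : |kD n x| ≤ (n + Real.pi * (1 / (2 * Real.pi * (y / n)))) / (2 * Real.pi * (y / n)) := by
      have h2 : kD n x = (n * Real.cos (n * x) - Real.pi * Real.cos (x / 2) * kS n x) /
          (2 * Real.pi * Real.sin (x / 2)) := by
        rw [eq_div_iff (by positivity), ← S01_kD]; ring
      rw [h2, abs_div, abs_of_pos (by positivity : 0 < 2 * Real.pi * Real.sin (x / 2))]
      refine div_le_div₀ (by positivity) ?_ (by positivity) (by gcongr)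
      refine (abs_sub _ _).trans (add_le_add ?_ ?_)
      · rw [abs_mul, abs_of_pos hn0]
        exact mul_le_of_le_one_right hn0.le (Real.abs_cos_le_one _)
      · rw [abs_mul, abs_mul, abs_of_pos hpi]
        calc Real.pi * |Real.cos (x / 2)| * |kS n x| ≤ Real.pi * 1 * |kS n x| := by
              gcongr; exact Real.abs_cos_le_one _
          _ ≤ Real.pi * 1 * (1 / (2 * Real.pi * (y / n))) := by gcongr
          _ = _ := by ring
    have hkJ : |kJ n x| ≤ 1 / (Real.pi * n) + 3 * (1 / (2 * Real.pi * n * (y / n))) := by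
      have h2 : kJ n x = -(kI n Real.pi - 1 / 2) + (kI n Real.pi - kI n x) := by
        unfold kJ
        rw [Real.sign_of_pos hs0]
        ring
      rw [h2]
      refine (abs_add_le _ _).trans (add_le_add ?_ ?_)
      · rw [abs_neg]; exact S01_kI_pi hn
      · refine (S01_kI_tail hn hx0 hxpi).trans ?_
        gcongr
    have hfin : ∀ c : ℝ, 0 ≤ c → c ≤ 4 → c / y ≤ 8 / (1 + y) := by
      intro c hc0 hc
      rw [div_le_div_iff₀ hy0 (by linarith)]
      nlinarith
    refine ⟨?_, ?_, ?_⟩
    · unfold tS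
      rw [abs_mul, abs_of_pos (by positivity : 0 < Real.pi / n)]
      calc Real.pi / n * |kS n x| ≤ Real.pi / n * (1 / (2 * Real.pi * (y / n))) := by gcongr
        _ = (1 / 2) / y := by field_simp
        _ ≤ _ := hfin _ (by norm_num) (by norm_num)
    · unfold tD
      rw [abs_mul, abs_of_pos (by positivity : 0 < (Real.pi / n) ^ 2)]
      calc (Real.pi / n) ^ 2 * |kD n x| ≤ (Real.pi / n) ^ 2 *
            ((n + Real.pi * (1 / (2 * Real.pi * (y / n)))) / (2 * Real.pi * (y / n))) := by gcongr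
        _ = (Real.pi / 2 * (1 + 1 / (2 * y))) / y := by field_simp
        _ ≤ (Real.pi / 2 * (1 + 1 / 2)) / y := by
            have : 1 / (2 * y) ≤ 1 / 2 := by
              rw [div_le_div_iff₀ (by positivity) (by norm_num)]; linarith
            gcongr
        _ ≤ _ := hfin _ (by positivity) (by linarith)
    · unfold tJ
      calc |kJ n x| ≤ 1 / (Real.pi * n) + 3 * (1 / (2 * Real.pi * n * (y / n))) := hkJ
        _ ≤ 1 / (Real.pi * y) + 3 * (1 / (2 * Real.pi * n * (y / n))) := by gcongr
        _ = (5 / 2 * (1 / Real.pi)) / y := by field_simp; ring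
        _ ≤ _ := by
            refine hfin _ (by positivity) ?_
            have : 1 / Real.pi ≤ 1 / 3 := one_div_le_one_div_of_le (by norm_num) hpi3.le
            linarith

theorem ker_dec : ∃ C : ℝ, 0 ≤ C ∧ ∀ n : ℕ, 0 < n → ∀ r : ℝ,
    |tS n r| ≤ C / (1 + cd n r) ∧ |tD n r| ≤ C / (1 + cd n r) ∧ |tJ n r| ≤ C / (1 + cd n r) := by
  refine ⟨8, by norm_num, fun n hn r => ?_⟩
  have hn0 : (0 : ℝ) < n := by exact_mod_cast hn
  have hpi := Real.pi_pos
  set m : ℤ := round (r / (2 * n)) with hm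
  have hcd : cd n r = |r - 2 * n * m| := rfl
  have hle : |r - 2 * n * m| ≤ n := by
    have h1 := abs_sub_round (r / (2 * n))
    have h2 : r - 2 * n * m = 2 * n * (r / (2 * n) - m) := by field_simp
    rw [h2, abs_mul, abs_of_pos (by positivity : (0 : ℝ) < 2 * n)]
    nlinarith
  have h0 := abs_nonneg (r - 2 * n * m)
  have core := S01_core hn h0 hle
  rw [← hcd] at core
  have hper : ∀ f : ℝ → ℝ, (∀ x, f (x + 2 * Real.pi) = -f x) →
      |f (Real.pi / n * r)| = |f (Real.pi / n * (r - 2 * n * m))| := by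
    intro f hf
    have hp : Function.Periodic (fun x => |f x|) (2 * Real.pi) := by
      intro x
      simp only [hf, abs_neg]
    have := hp.sub_int_mul_eq (n := m) (x := Real.pi / n * r)
    have e : Real.pi / n * r - m * (2 * Real.pi) = Real.pi / n * (r - 2 * n * m) := by
      field_simp
    rw [e] at this
    exact this.symm
  have heven : ∀ f : ℝ → ℝ, (∀ x, |f (-x)| = |f x|) → ∀ z : ℝ,
      |f (Real.pi / n * z)| = |f (Real.pi / n * |z|)| := by
    intro f hf z
    rcases abs_choice z with h | h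
    · rw [h]
    · rw [h, mul_neg, hf]
  have eS : |tS n r| = |tS n (cd n r)| := by
    rw [hcd]
    unfold tS
    rw [abs_mul, abs_mul, hper (kS n) (fun x => (V4_anti n x).1),
      heven (kS n) (fun x => by rw [(V4_par n x).1])]
  have eD : |tD n r| = |tD n (cd n r)| := by
    rw [hcd]
    unfold tD
    rw [abs_mul, abs_mul, hper (kD n) (fun x => (V4_anti n x).2.1),
      heven (kD n) (fun x => by rw [(V4_par n x).2.1, abs_neg])]
  have eJ : |tJ n r| = |tJ n (cd n r)| := by
    rw [hcd]
    unfold tJ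
    rw [hper (kJ n) (fun x => (V4_anti n x).2.2),
      heven (kJ n) (fun x => by rw [(V4_par n x).2.2, abs_neg])]
  rw [eS, eD, eJ]
  exact core

end Ty
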