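import Pool.Agent.LibTy70.S01
import Pool.Agent.LibCOE.CP_V8
import Pool.Agent.LibCOE.CP_S2

/-! Row S02: factorisation of the correlation functions for distant clusters. Plan: `rt_scale`: scaling of rows and columns
(as `rq_scale` in CP_V5, without restriction, since `tJ` is `kJ`). `rt_bdd`: all kernels are bounded by `C` (S01), Hadamard
(CP_S1 `hadamard`). `rt_fac`: `M = KM (Fin.append x y)` reindexed to `Ix q ⊕ Ix r` is `(A, E; E', A')`, `A = KM x`, `A' = KM y`. For two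
points of different clusters `cd (x_i - y_j) ≥ cd (x_0 - y_0) - 2B` (triangle inequality for `cd`), so entries of `E, E'` are
`≤ C'/(1 + cd(x_0 - y_0))`. `|det M - det A det A'| ≤ C''/(1+cd)` (difference of two determinants with bounded entries,
as V8_prod; `Matrix.det_fromBlocks_zero₂₁` for the block diagonal matrix). Determinants of real skew matrices are nonnegative
(`sqrt_det`/`pf_sq` of CP_A2/A8: `det = pf²/..`), `|√a - √b| ≤ √|a-b|`, `√(ab) = √a √b`. -/

open MeasureTheory Set Filter Topology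

namespace Ty

open QGr COE

theorem rt_scale {q n : ℕ} (hn : 0 < n) (x : Fin q → ℝ) :
    rq n x = (n / Real.pi) ^ q * rt n fun a => n / Real.pi * x a := by
  have hn0 : (0 : ℝ) < n := by exact_mod_cast hn
  have hpi := Real.pi_pos
  set E : Matrix (Ix q) (Ix q) ℝ := Matrix.diagonal fun a => if a.2 = 0 then Real.pi / n else 1 with hE
  have h1 : KM (tD n) (tS n) (tJ n) (fun a => n / Real.pi * x a)
      = E * KM (kD n) (kS n) (kJ n) x * E := by
    ext ⟨a, i⟩ ⟨b, j⟩
    rw [hE, Matrix.mul_diagonal, Matrix.diagonal_mul]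
    have e1 : Real.pi / n * (n / Real.pi * x a - n / Real.pi * x b) = x a - x b := by
      field_simp
    fin_cases i <;> fin_cases j <;> simp [KM, tD, tS, tJ, e1] <;> ring
  have h2 : E.det = (Real.pi / n) ^ q := by
    rw [hE, Matrix.det_diagonal, Fintype.prod_prod_type]
    simp [div_pow]
  have h3 : (KM (tD n) (tS n) (tJ n) (fun a => n / Real.pi * x a)).det = ((Real.pi / n) ^ q) ^ 2
      * (KM (kD n) (kS n) (kJ n) x).det := by
    rw [h1, Matrix.det_mul, Matrix.det_mul, h2]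
    ring
  unfold rt rq
  rw [h3, Real.sqrt_mul (sq_nonneg _), Real.sqrt_sq (by positivity), ← mul_assoc, ← mul_pow]
  have h4 : (n : ℝ) / Real.pi * (Real.pi / n) = 1 := by field_simp
  rw [h4, one_pow, one_mul]

private theorem s02_cd_nonneg (n : ℕ) (r : ℝ) : 0 ≤ cd n r := abs_nonneg _

private theorem s02_cd_le {n : ℕ} (hn : 0 < n) (r : ℝ) (m : ℤ) : cd n r ≤ |r - 2 * n * m| := by
  unfold cd
  have hn0 : (0 : ℝ) < n := by exact_mod_cast hn
  have h := round_le (r / (2 * n)) m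
  have e1 : r - 2 * n * round (r / (2 * n)) = 2 * n * (r / (2 * n) - round (r / (2 * n))) := by
    field_simp
  have e2 : r - 2 * n * m = 2 * n * (r / (2 * n) - m) := by
    field_simp
  rw [e1, e2, abs_mul (2 * (n : ℝ)) (r / (2 * n) - round (r / (2 * n))),
    abs_mul (2 * (n : ℝ)) (r / (2 * n) - m)]
  exact mul_le_mul_of_nonneg_left h (abs_nonneg _)

private theorem s02_cd_add {n : ℕ} (hn : 0 < n) (r s : ℝ) : cd n (r + s) ≤ cd n r + cd n s := by
  refine (s02_cd_le hn (r + s) (round (r / (2 * n)) + round (s / (2 * n)))).trans ?_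
  have e : r + s - 2 * n * ((round (r / (2 * n)) + round (s / (2 * n)) : ℤ) : ℝ)
      = (r - 2 * n * round (r / (2 * n))) + (s - 2 * n * round (s / (2 * n))) := by
    push_cast
    ring
  rw [e]
  exact abs_add_le _ _

private theorem s02_cd_neg {n : ℕ} (hn : 0 < n) (r : ℝ) : cd n (-r) = cd n r := by
  have key : ∀ r : ℝ, cd n (-r) ≤ cd n r := by
    intro r
    refine (s02_cd_le hn (-r) (-round (r / (2 * n)))).trans (le_of_eq ?_)
    unfold cd
    rw [← abs_neg]
    congr 1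
    push_cast
    ring
  refine le_antisymm (key r) ?_
  have := key (-r)
  rwa [neg_neg] at this

private theorem s02_ker : ∃ C : ℝ, 1 ≤ C ∧ ∀ n : ℕ, 0 < n → ∀ r : ℝ,
    (|tD n r| ≤ C / (1 + cd n r) ∧ |tS n r| ≤ C / (1 + cd n r) ∧ |tJ n r| ≤ C / (1 + cd n r)) ∧
    (|tD n r| ≤ C ∧ |tS n r| ≤ C ∧ |tJ n r| ≤ C) := by
  obtain ⟨C, hC, h⟩ := ker_dec
  refine ⟨C + 1, by linarith, fun n hn r => ?_⟩
  obtain ⟨h1, h2, h3⟩ := h n hn r
  have h0 := s02_cd_nonneg n r
  have h4 : C / (1 + cd n r) ≤ (C + 1) / (1 + cd n r) :=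
    div_le_div_of_nonneg_right (by linarith) (by linarith)
  have h5 : (C + 1) / (1 + cd n r) ≤ C + 1 := div_le_self (by linarith) (by linarith)
  exact ⟨⟨h2.trans h4, h1.trans h4, h3.trans h4⟩,
    h2.trans (h4.trans h5), h1.trans (h4.trans h5), h3.trans (h4.trans h5)⟩

private theorem s02_KM {q : ℕ} {D S J : ℝ → ℝ} {z : Fin q → ℝ} {m : ℝ} (a b : Ix q)
    (h : |D (z a.1 - z b.1)| ≤ m ∧ |S (z a.1 - z b.1)| ≤ m ∧ |J (z a.1 - z b.1)| ≤ m) :
    |KM D S J z a b| ≤ m := by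
  obtain ⟨a, i⟩ := a
  obtain ⟨b, j⟩ := b
  obtain ⟨hD, hS, hJ⟩ := h
  fin_cases i <;> fin_cases j
  · show |-D (z a - z b)| ≤ m
    rw [abs_neg]; exact hD
  · exact hS
  · show |-S (z a - z b)| ≤ m
    rw [abs_neg]; exact hS
  · show |-J (z a - z b)| ≤ m
    rw [abs_neg]; exact hJ

theorem rt_bdd (q : ℕ) : ∃ C : ℝ, 0 ≤ C ∧ ∀ n : ℕ, 0 < n → ∀ x : Fin q → ℝ, |rt n x| ≤ C := by
  obtain ⟨K, hK, h⟩ := s02_ker
  refine ⟨(K * √(2 * q)) ^ q, by positivity, fun n hn x => ?_⟩
  have hdet := hadamard (KM (tD n) (tS n) (tJ n) x) K fun a b => s02_KM a b (h n hn _).2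
  have hcard : Fintype.card (Ix q) = 2 * q := by
    simp [Ix, mul_comm]
  rw [hcard] at hdet
  unfold rt
  rw [abs_of_nonneg (Real.sqrt_nonneg _)]
  have h5 : (KM (tD n) (tS n) (tJ n) x).det ≤ ((K * √(2 * q)) ^ q) ^ 2 := by
    calc (KM (tD n) (tS n) (tJ n) x).det ≤ |(KM (tD n) (tS n) (tJ n) x).det| := le_abs_self _
      _ ≤ _ := hdet
      _ = _ := by push_cast; rw [← pow_mul, mul_comm q 2]
  calc √(KM (tD n) (tS n) (tJ n) x).det ≤ √(((K * √(2 * q)) ^ q) ^ 2) := Real.sqrt_le_sqrt h5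
    _ = _ := Real.sqrt_sq (by positivity)

private theorem s02_par (n : ℕ) (r : ℝ) :
    tD n (-r) = -tD n r ∧ tS n (-r) = tS n r ∧ tJ n (-r) = -tJ n r := by
  have h := par_k n (Real.pi / n * r)
  have e : Real.pi / n * (-r) = -(Real.pi / n * r) := by ring
  refine ⟨?_, ?_, ?_⟩
  · unfold tD
    rw [e, h.1]; ring
  · unfold tS
    rw [e, h.2.1]
  · unfold tJ
    rw [e, h.2.2]

private theorem s02_det_nonneg {q : ℕ} (K : Matrix (Ix q) (Ix q) ℝ) (hK : K.transpose = -K) :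
    0 ≤ K.det := by
  set c : ℝ := pf (Matrix.of fun a b : Ix q =>
    if a.1 = b.1 then (if a.2 = 0 ∧ b.2 = 1 then (1 : ℝ) else if a.2 = 1 ∧ b.2 = 0 then -1 else 0) else 0)
    with hc
  have h1 : pf (Jm q) = (c : ℂ) := by
    have e1 : Jm q = (Matrix.of fun a b : Ix q =>
        if a.1 = b.1 then (if a.2 = 0 ∧ b.2 = 1 then (1 : ℝ) else if a.2 = 1 ∧ b.2 = 0 then -1 else 0)
          else 0).map Complex.ofRealHom := by
      ext a b
      unfold Jm
      simp only [Matrix.map_apply, Matrix.of_apply]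
      split_ifs <;> simp
    rw [e1, pf_map]
    rfl
  have h2 : pf (K.map Complex.ofRealHom) = ((pf K : ℝ) : ℂ) := by
    rw [pf_map]
    rfl
  have h3 := pf_sq (K.map Complex.ofRealHom) (by
    ext a b
    have e2 := congrFun (congrFun hK a) b
    simp only [Matrix.transpose_apply, Matrix.neg_apply, Matrix.map_apply] at e2 ⊢
    rw [e2]
    simp)
  have h4 : (K.map Complex.ofRealHom).det = ((K.det : ℝ) : ℂ) := by
    have := RingHom.map_det Complex.ofRealHom K
    rw [RingHom.mapMatrix_apply] at this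
    exact this.symm
  rw [h2, h1, h4] at h3
  have h5 : pf K ^ 2 = c ^ 2 * K.det := by exact_mod_cast h3
  have hc0 : c ≠ 0 := by
    intro h
    apply pf_Jm q
    rw [h1, h, Complex.ofReal_zero]
  have h6 : K.det = (pf K / c) ^ 2 := by
    rw [div_pow, h5]
    field_simp
  rw [h6]
  positivity

private theorem s02_det {ι : Type} [Fintype ι] [DecidableEq ι] (M N : Matrix ι ι ℝ) (K δ : ℝ)
    (hK : 1 ≤ K) (hδ : 0 ≤ δ) (hM : ∀ a b, |M a b| ≤ K) (hN : ∀ a b, |N a b| ≤ K)
    (h : ∀ a b, |M a b - N a b| ≤ δ) :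
    |M.det - N.det| ≤ (Fintype.card (Equiv.Perm ι) : ℝ) *
      (Fintype.card ι * K ^ Fintype.card ι) * δ := by
  rw [Matrix.det_apply, Matrix.det_apply, ← Finset.sum_sub_distrib]
  refine (Finset.abs_sum_le_sum_abs _ _).trans ?_
  have h1 : ∀ σ : Equiv.Perm ι, σ ∈ Finset.univ →
      |Equiv.Perm.sign σ • ∏ i, M (σ i) i - Equiv.Perm.sign σ • ∏ i, N (σ i) i| ≤
        Fintype.card ι * K ^ Fintype.card ι * δ := by
    intro σ _
    rw [← smul_sub, Units.smul_def, zsmul_eq_mul, abs_mul]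
    have hs : |(((Equiv.Perm.sign σ : ℤˣ) : ℤ) : ℝ)| = 1 := by
      rcases Int.units_eq_one_or (Equiv.Perm.sign σ) with h | h <;> rw [h] <;> simp
    rw [hs, one_mul]
    have := V8_prod (Finset.univ : Finset ι) (fun i => M (σ i) i) (fun i => N (σ i) i) K δ hK hδ
      (fun i => hM _ _) (fun i => hN _ _) (fun i => h _ _)
    simpa using this
  refine (Finset.sum_le_sum h1).trans (le_of_eq ?_)
  rw [Finset.sum_const, Finset.card_univ, nsmul_eq_mul]
  ring

private theorem s02_sqrt {a b : ℝ} (ha : 0 ≤ a) (hb : 0 ≤ b) : |√a - √b| ≤ √|a - b| := by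
  refine Real.le_sqrt_of_sq_le ?_
  have h1 : |√a - √b| ≤ √a + √b := by
    refine (abs_sub _ _).trans (le_of_eq ?_)
    rw [abs_of_nonneg (Real.sqrt_nonneg _), abs_of_nonneg (Real.sqrt_nonneg _)]
  have h2 : |a - b| = |√a - √b| * (√a + √b) := by
    have h3 : a - b = (√a - √b) * (√a + √b) := by
      have e1 := Real.mul_self_sqrt ha
      have e2 := Real.mul_self_sqrt hb
      nlinarith
    rw [h3, abs_mul, abs_of_nonneg (show 0 ≤ √a + √b by positivity)]
  rw [h2, sq]
  exact mul_le_mul_of_nonneg_left h1 (abs_nonneg _)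

/-- The index set of the union of two clusters. -/
private def s02_e (a b : ℕ) : Ix a ⊕ Ix b ≃ Ix (a + b) :=
  (Equiv.sumProdDistrib (Fin a) (Fin b) (Fin 2)).symm.trans
    (Equiv.prodCongr finSumFinEquiv (Equiv.refl _))

private theorem s02_el (a b : ℕ) (i : Ix a) : s02_e a b (Sum.inl i) = (Fin.castAdd b i.1, i.2) := rfl

private theorem s02_er (a b : ℕ) (i : Ix b) : s02_e a b (Sum.inr i) = (Fin.natAdd a i.1, i.2) := rfl

private theorem s02_blk {a b : ℕ} (D S J : ℝ → ℝ) (x : Fin a → ℝ) (y : Fin b → ℝ) :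
    (KM D S J (Fin.append x y)).det =
      (Matrix.fromBlocks (KM D S J x)
        (Matrix.of fun (i : Ix a) (j : Ix b) =>
          KM D S J (Fin.append x y) (s02_e a b (Sum.inl i)) (s02_e a b (Sum.inr j)))
        (Matrix.of fun (i : Ix b) (j : Ix a) =>
          KM D S J (Fin.append x y) (s02_e a b (Sum.inr i)) (s02_e a b (Sum.inl j)))
        (KM D S J y)).det := by
  rw [← Matrix.det_submatrix_equiv_self (s02_e a b)]
  congr 1
  ext i j
  rcases i with i | i <;> rcases j with j | j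
  · simp only [Matrix.submatrix_apply, Matrix.fromBlocks_apply₁₁, s02_el, KM, Fin.append_left]
  · simp only [Matrix.submatrix_apply, Matrix.fromBlocks_apply₁₂, Matrix.of_apply]
  · simp only [Matrix.submatrix_apply, Matrix.fromBlocks_apply₂₁, Matrix.of_apply]
  · simp only [Matrix.submatrix_apply, Matrix.fromBlocks_apply₂₂, s02_er, KM, Fin.append_right]

theorem rt_fac (q r : ℕ) (B : ℝ) (hB : 0 ≤ B) : ∃ C : ℝ, 0 ≤ C ∧ ∀ n : ℕ, 0 < n →
    ∀ (x : Fin (q + 1) → ℝ) (y : Fin (r + 1) → ℝ), (∀ i, cd n (x i - x 0) ≤ B) →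
      (∀ i, cd n (y i - y 0) ≤ B) →
      |rt n (Fin.append x y) - rt n x * rt n y| ≤ C / √(1 + cd n (x 0 - y 0)) := by
  obtain ⟨K, hK, hker⟩ := s02_ker
  set C2 : ℝ := (Fintype.card (Equiv.Perm (Ix (q + 1) ⊕ Ix (r + 1))) : ℝ) *
    (Fintype.card (Ix (q + 1) ⊕ Ix (r + 1)) * K ^ Fintype.card (Ix (q + 1) ⊕ Ix (r + 1))) *
      (K * (1 + 2 * B)) with hC2
  have hC20 : 0 ≤ C2 := by positivity
  refine ⟨√C2, Real.sqrt_nonneg _, fun n hn x y hx hy => ?_⟩
  set d : ℝ := cd n (x 0 - y 0) with hd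
  have hd0 : 0 ≤ d := s02_cd_nonneg _ _
  -- the distance between points of different clusters
  have hcd : ∀ i j, 1 + d ≤ (1 + 2 * B) * (1 + cd n (x i - y j)) := by
    intro i j
    have h1 : x 0 - y 0 = (x i - y j) + (-(x i - x 0) + (y j - y 0)) := by ring
    have h2 : d ≤ cd n (x i - y j) + (B + B) := by
      rw [hd, h1]
      refine (s02_cd_add hn _ _).trans (add_le_add le_rfl ((s02_cd_add hn _ _).trans ?_))
      rw [s02_cd_neg hn]
      exact add_le_add (hx i) (hy j)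
    have h3 := s02_cd_nonneg n (x i - y j)
    nlinarith
  have hfar : ∀ i j, K / (1 + cd n (x i - y j)) ≤ K * (1 + 2 * B) / (1 + d) := by
    intro i j
    have h3 := s02_cd_nonneg n (x i - y j)
    rw [div_le_div_iff₀ (by linarith) (by linarith)]
    have := mul_le_mul_of_nonneg_left (hcd i j) (show 0 ≤ K by linarith)
    nlinarith
  have hδ : 0 ≤ K * (1 + 2 * B) / (1 + d) := by positivity
  set A := KM (tD n) (tS n) (tJ n) x with hA
  set A' := KM (tD n) (tS n) (tJ n) y with hA'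
  set E : Matrix (Ix (q + 1)) (Ix (r + 1)) ℝ := Matrix.of fun (i : Ix (q + 1)) (j : Ix (r + 1)) =>
    KM (tD n) (tS n) (tJ n) (Fin.append x y) (s02_e _ _ (Sum.inl i)) (s02_e _ _ (Sum.inr j)) with hE
  set E' : Matrix (Ix (r + 1)) (Ix (q + 1)) ℝ := Matrix.of fun (i : Ix (r + 1)) (j : Ix (q + 1)) =>
    KM (tD n) (tS n) (tJ n) (Fin.append x y) (s02_e _ _ (Sum.inr i)) (s02_e _ _ (Sum.inl j)) with hE'
  have hAb : ∀ i j, |A i j| ≤ K := fun i j => s02_KM i j (hker n hn _).2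
  have hA'b : ∀ i j, |A' i j| ≤ K := fun i j => s02_KM i j (hker n hn _).2
  have hEb : ∀ i j, |E i j| ≤ K := fun i j => s02_KM _ _ (hker n hn _).2
  have hE'b : ∀ i j, |E' i j| ≤ K := fun i j => s02_KM _ _ (hker n hn _).2
  have hEd : ∀ i j, |E i j| ≤ K * (1 + 2 * B) / (1 + d) := by
    intro i j
    refine s02_KM _ _ ?_
    rw [s02_el, s02_er]
    simp only [Fin.append_left, Fin.append_right]
    obtain ⟨⟨h1, h2, h3⟩, _⟩ := hker n hn (x i.1 - y j.1)
    exact ⟨h1.trans (hfar _ _), h2.trans (hfar _ _), h3.trans (hfar _ _)⟩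
  have hE'd : ∀ i j, |E' i j| ≤ K * (1 + 2 * B) / (1 + d) := by
    intro i j
    refine s02_KM _ _ ?_
    rw [s02_el, s02_er]
    simp only [Fin.append_left, Fin.append_right]
    have e : y i.1 - x j.1 = -(x j.1 - y i.1) := by ring
    obtain ⟨⟨h1, h2, h3⟩, _⟩ := hker n hn (x j.1 - y i.1)
    rw [e, (s02_par n _).1, (s02_par n _).2.1, (s02_par n _).2.2, abs_neg, abs_neg]
    exact ⟨h1.trans (hfar _ _), h2.trans (hfar _ _), h3.trans (hfar _ _)⟩
  have hdet : |(Matrix.fromBlocks A E E' A').det - (Matrix.fromBlocks A 0 0 A').det| ≤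
      C2 / (1 + d) := by
    refine (s02_det _ _ K (K * (1 + 2 * B) / (1 + d)) hK hδ ?_ ?_ ?_).trans (le_of_eq ?_)
    · rintro (i | i) (j | j)
      · exact hAb i j
      · exact hEb i j
      · exact hE'b i j
      · exact hA'b i j
    · rintro (i | i) (j | j)
      · exact hAb i j
      · simp only [Matrix.fromBlocks_apply₁₂, Matrix.zero_apply, abs_zero]; linarith
      · simp only [Matrix.fromBlocks_apply₂₁, Matrix.zero_apply, abs_zero]; linarith
      · exact hA'b i j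
    · rintro (i | i) (j | j)
      · simp only [Matrix.fromBlocks_apply₁₁, sub_self, abs_zero]; exact hδ
      · simp only [Matrix.fromBlocks_apply₁₂, Matrix.zero_apply, sub_zero]; exact hEd i j
      · simp only [Matrix.fromBlocks_apply₂₁, Matrix.zero_apply, sub_zero]; exact hE'd i j
      · simp only [Matrix.fromBlocks_apply₂₂, sub_self, abs_zero]; exact hδ
    · rw [hC2]
      ring
  have hsk : ∀ {p : ℕ} (z : Fin p → ℝ), 0 ≤ (KM (tD n) (tS n) (tJ n) z).det := fun z =>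
    s02_det_nonneg _ (KM_skew (fun r => (s02_par n r).1) (fun r => (s02_par n r).2.1)
      (fun r => (s02_par n r).2.2) z)
  have h0 : (Matrix.fromBlocks A 0 0 A').det = A.det * A'.det := Matrix.det_fromBlocks_zero₂₁ _ _ _
  have h1 : (KM (tD n) (tS n) (tJ n) (Fin.append x y)).det = (Matrix.fromBlocks A E E' A').det :=
    s02_blk _ _ _ x y
  unfold rt
  rw [← Real.sqrt_mul (hsk x)]
  refine (s02_sqrt (hsk _) (mul_nonneg (hsk x) (hsk y))).trans ?_
  rw [h1, ← hA, ← hA', ← h0, ← Real.sqrt_div hC20]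
  exact Real.sqrt_le_sqrt hdet

end Ty
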