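import Pool.Agent.LibTy70.CDefs
import Pool.Agent.LibCOE.CP_G10

/-! Row S03: pairs of embeddings. Plan: `pair_split` is pure combinatorics: pairs `(e, e')` of embeddings `Fin (q+1) ↪ Fin N` with
disjoint ranges correspond to embeddings `Fin ((q+1)+(q+1)) ↪ Fin N` (`Fin.append`; `Function.Embedding`); the other pairs have
`e i = e' k` for some `i, k`: then all values of `e` and `e'` are within `3B` of `θ (e 0)` when both factors are nonzero
(triangle inequality for `cd`), so there are at most `(q+1)² ∑_a (na (3B) θ n a)^(2q)` of them: choose `a = e 0`, `(i,k)`,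
the other `q` values of `e`, the `q` remaining values of `e'`. -/

open MeasureTheory Set Filter Topology

namespace Ty

open QGr COE

theorem s03_cd_le (n : ℕ) (r : ℝ) (m : ℤ) : cd n r ≤ |r - 2 * n * m| := by
  rcases Nat.eq_zero_or_pos n with h | h
  · subst h; simp [cd]
  · have hn : (0 : ℝ) < 2 * n := by positivity
    have h1 : ∀ x : ℝ, |r - 2 * n * x| = 2 * n * |r / (2 * n) - x| := by
      intro x
      rw [← abs_of_pos hn, ← abs_mul, abs_of_pos hn]
      congr 1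
      field_simp
    rw [cd, h1, h1]
    exact mul_le_mul_of_nonneg_left (round_le _ _) hn.le

theorem s03_cd_add (n : ℕ) (r s : ℝ) : cd n (r + s) ≤ cd n r + cd n s := by
  refine le_trans (s03_cd_le n (r + s) (round (r / (2 * n)) + round (s / (2 * n)))) ?_
  rw [cd, cd]
  refine le_trans (le_of_eq ?_) (abs_add_le _ _)
  congr 1
  push_cast
  ring

theorem s03_cd_neg (n : ℕ) (r : ℝ) : cd n (-r) ≤ cd n r := by
  refine le_trans (s03_cd_le n (-r) (-round (r / (2 * n)))) ?_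
  rw [cd, ← abs_neg (r - _)]
  refine le_of_eq ?_
  congr 1
  push_cast
  ring

theorem s03_disj {s N : ℕ} (G : (Fin s ↪ Fin N) → ℝ) :
    ∑ e : Fin (s + s) ↪ Fin N, G ((Fin.castAddEmb s).trans e) * G ((Fin.natAddEmb s).trans e) =
      ∑ p ∈ (Finset.univ : Finset ((Fin s ↪ Fin N) × (Fin s ↪ Fin N))).filter (fun p => ∀ i k, p.1 i ≠ p.2 k),
        G p.1 * G p.2 := by
  classical
  refine Finset.sum_bij (fun e _ => ((Fin.castAddEmb s).trans e, (Fin.natAddEmb s).trans e)) ?_ ?_ ?_ ?_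
  · intro e _
    refine Finset.mem_filter.2 ⟨Finset.mem_univ _, fun i k h => ?_⟩
    have h2 := e.injective h
    have h3 := congrArg Fin.val h2
    simp at h3
    omega
  · intro e _ e' _ h
    rw [Prod.mk.injEq] at h
    refine DFunLike.ext _ _ fun x => ?_
    refine Fin.addCases (fun i => ?_) (fun i => ?_) x
    · exact DFunLike.congr_fun h.1 i
    · exact DFunLike.congr_fun h.2 i
  · intro p hp
    have hp2 := (Finset.mem_filter.1 hp).2
    have hinj : Function.Injective (Fin.append (p.1 : Fin s → Fin N) p.2) := by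
      intro x y
      refine Fin.addCases (fun i => ?_) (fun i => ?_) x <;> refine Fin.addCases (fun k => ?_) (fun k => ?_) y
      · intro h
        rw [Fin.append_left, Fin.append_left] at h
        rw [p.1.injective h]
      · intro h
        rw [Fin.append_left, Fin.append_right] at h
        exact absurd h (hp2 i k)
      · intro h
        rw [Fin.append_left, Fin.append_right] at h
        exact absurd h.symm (hp2 k i)
      · intro h
        rw [Fin.append_right, Fin.append_right] at h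
        rw [p.2.injective h]
    refine ⟨⟨_, hinj⟩, Finset.mem_univ _, ?_⟩
    refine Prod.ext (DFunLike.ext _ _ fun i => ?_) (DFunLike.ext _ _ fun i => ?_)
    · exact Fin.append_left _ _ i
    · exact Fin.append_right _ _ i
  · intro e _
    rfl

theorem s03_card {q N : ℕ} (A : Finset (Fin N)) (i k : Fin (q + 1)) (a : Fin N) :
    ((Finset.univ : Finset ((Fin (q + 1) ↪ Fin N) × (Fin (q + 1) ↪ Fin N))).filter fun p =>
      p.1 0 = a ∧ p.1 i = p.2 k ∧ (∀ j, p.1 j ∈ A) ∧ ∀ j, p.2 j ∈ A).card ≤ A.card ^ (2 * q) := by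
  classical
  have h : A.card ^ (2 * q) =
      ((Fintype.piFinset fun _ : Fin q => A) ×ˢ (Fintype.piFinset fun _ : Fin q => A)).card := by
    rw [Finset.card_product, Fintype.card_piFinset, Finset.prod_const, Finset.card_univ, Fintype.card_fin,
      ← pow_add, two_mul]
  rw [h]
  refine Finset.card_le_card_of_injOn (fun p => ((fun j => p.1 j.succ), fun j => p.2 (k.succAbove j))) ?_ ?_
  · intro p hp
    have hp := (Finset.mem_filter.1 hp).2
    exact Finset.mem_product.2 ⟨Fintype.mem_piFinset.2 fun j => hp.2.2.1 _, Fintype.mem_piFinset.2 fun j => hp.2.2.2 _⟩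
  · intro p hp p' hp' hpp
    have hp := (Finset.mem_filter.1 hp).2
    have hp' := (Finset.mem_filter.1 hp').2
    have h1 : p.1 = p'.1 := by
      refine DFunLike.ext _ _ fun x => ?_
      refine Fin.cases ?_ (fun j => ?_) x
      · rw [hp.1, hp'.1]
      · exact congrFun (congrArg Prod.fst hpp) j
    refine Prod.ext h1 (DFunLike.ext _ _ fun x => ?_)
    by_cases hx : x = k
    · rw [hx, ← hp.2.1, ← hp'.2.1, h1]
    · obtain ⟨y, rfl⟩ := Fin.exists_succAbove_eq hx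
      exact congrFun (congrArg Prod.snd hpp) y

theorem pair_split {q n N : ℕ} (B K : ℝ) (hB : 0 ≤ B) (F : (Fin (q + 1) → ℝ) → ℝ)
    (hK : ∀ x, |F x| ≤ K) (hF : ∀ x, F x ≠ 0 → cl n B x) (θ : Fin N → ℝ) :
    |(∑ e : Fin (q + 1) ↪ Fin N, F fun a => θ (e a)) ^ 2 -
      ∑ e : Fin ((q + 1) + (q + 1)) ↪ Fin N,
        F (fun a => θ (e (Fin.castAdd (q + 1) a))) * F (fun a => θ (e (Fin.natAdd (q + 1) a)))| ≤
      K ^ 2 * (q + 1) ^ 2 * ∑ a, (na (3 * B) θ n a : ℝ) ^ (2 * q) := by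
  classical
  have hK0 : 0 ≤ K := le_trans (abs_nonneg _) (hK fun _ => 0)
  set G : (Fin (q + 1) ↪ Fin N) → ℝ := fun e => F fun a => θ (e a) with hG
  set D : Finset ((Fin (q + 1) ↪ Fin N) × (Fin (q + 1) ↪ Fin N)) :=
    Finset.univ.filter (fun p => ∀ i k, p.1 i ≠ p.2 k) with hD
  set A : Fin N → Finset (Fin N) := fun a =>
    Finset.univ.filter fun j => cd n (n / Real.pi * (θ j - θ a)) ≤ 3 * B with hA
  have h1 : ∑ e : Fin ((q + 1) + (q + 1)) ↪ Fin N,
        F (fun a => θ (e (Fin.castAdd (q + 1) a))) * F (fun a => θ (e (Fin.natAdd (q + 1) a))) =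
      ∑ p ∈ D, G p.1 * G p.2 := by
    rw [hD, ← s03_disj G]
    rfl
  have h2 : (∑ e : Fin (q + 1) ↪ Fin N, F fun a => θ (e a)) ^ 2 = ∑ p : (Fin (q + 1) ↪ Fin N) × (Fin (q + 1) ↪ Fin N), G p.1 * G p.2 := by
    rw [sq, Fintype.sum_mul_sum, Fintype.sum_prod_type]
  have h3 : ∑ p : (Fin (q + 1) ↪ Fin N) × (Fin (q + 1) ↪ Fin N), G p.1 * G p.2 - ∑ p ∈ D, G p.1 * G p.2 = ∑ p ∈ Dᶜ, G p.1 * G p.2 := by
    rw [← Finset.sum_add_sum_compl D]
    ring
  set T : Finset ((Fin (q + 1) ↪ Fin N) × (Fin (q + 1) ↪ Fin N)) :=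
    (Dᶜ).filter (fun p => G p.1 ≠ 0 ∧ G p.2 ≠ 0) with hT
  have h4 : ∑ p ∈ Dᶜ, G p.1 * G p.2 = ∑ p ∈ T, G p.1 * G p.2 := by
    rw [hT, Finset.sum_filter_of_ne]
    intro p _ hp
    exact ⟨left_ne_zero_of_mul hp, right_ne_zero_of_mul hp⟩
  rw [h1, h2, h3, h4]
  have h5 : |∑ p ∈ T, G p.1 * G p.2| ≤ T.card * K ^ 2 := by
    refine le_trans (Finset.abs_sum_le_sum_abs _ _) ?_
    rw [← nsmul_eq_mul]
    refine Finset.sum_le_card_nsmul _ _ _ fun p _ => ?_
    rw [abs_mul, sq]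
    exact mul_le_mul (hK _) (hK _) (abs_nonneg _) hK0
  have h6 : T ⊆ (Finset.univ : Finset (Fin (q + 1) × Fin (q + 1) × Fin N)).biUnion fun x =>
      (Finset.univ : Finset ((Fin (q + 1) ↪ Fin N) × (Fin (q + 1) ↪ Fin N))).filter fun p =>
        p.1 0 = x.2.2 ∧ p.1 x.1 = p.2 x.2.1 ∧ (∀ j, p.1 j ∈ A x.2.2) ∧ ∀ j, p.2 j ∈ A x.2.2 := by
    intro p hp
    have hp1 := (Finset.mem_filter.1 hp).1
    obtain ⟨hp2, hp3⟩ := (Finset.mem_filter.1 hp).2
    rw [Finset.mem_compl, hD, Finset.mem_filter] at hp1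
    have hp4 : ∃ i k, p.1 i = p.2 k := by
      by_contra hcon
      exact hp1 ⟨Finset.mem_univ _, fun i k h => hcon ⟨i, k, h⟩⟩
    obtain ⟨i, k, hik⟩ := hp4
    have hc1 : ∀ j, cd n (n / Real.pi * (θ (p.1 j) - θ (p.1 0))) ≤ B := hF _ hp2
    have hc2 : ∀ j, cd n (n / Real.pi * (θ (p.2 j) - θ (p.2 0))) ≤ B := hF _ hp3
    refine Finset.mem_biUnion.2 ⟨(i, k, p.1 0), Finset.mem_univ _, Finset.mem_filter.2 ⟨Finset.mem_univ _, rfl, hik, ?_, ?_⟩⟩
    · intro j
      refine Finset.mem_filter.2 ⟨Finset.mem_univ _, le_trans (hc1 j) (by linarith)⟩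
    · intro j
      refine Finset.mem_filter.2 ⟨Finset.mem_univ _, ?_⟩
      have e1 : n / Real.pi * (θ (p.2 j) - θ (p.1 0)) =
          n / Real.pi * (θ (p.2 j) - θ (p.2 0)) + -(n / Real.pi * (θ (p.2 k) - θ (p.2 0))) +
            n / Real.pi * (θ (p.1 i) - θ (p.1 0)) := by
        rw [hik]; ring
      rw [e1]
      have t1 := s03_cd_add n (n / Real.pi * (θ (p.2 j) - θ (p.2 0)) + -(n / Real.pi * (θ (p.2 k) - θ (p.2 0))))
        (n / Real.pi * (θ (p.1 i) - θ (p.1 0)))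
      have t2 := s03_cd_add n (n / Real.pi * (θ (p.2 j) - θ (p.2 0))) (-(n / Real.pi * (θ (p.2 k) - θ (p.2 0))))
      have t3 := s03_cd_neg n (n / Real.pi * (θ (p.2 k) - θ (p.2 0)))
      linarith [hc2 j, hc2 k, hc1 i]
  have h7 : T.card ≤ ∑ x : Fin (q + 1) × Fin (q + 1) × Fin N, (A x.2.2).card ^ (2 * q) :=
    le_trans (Finset.card_le_card h6) (le_trans Finset.card_biUnion_le
      (Finset.sum_le_sum fun x _ => s03_card (A x.2.2) x.1 x.2.1 x.2.2))
  have h8 : ∑ x : Fin (q + 1) × Fin (q + 1) × Fin N, (A x.2.2).card ^ (2 * q) =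
      (q + 1) ^ 2 * ∑ a, (na (3 * B) θ n a) ^ (2 * q) := by
    rw [Fintype.sum_prod_type]
    simp only [Fintype.sum_prod_type, Finset.sum_const, Finset.card_univ, Fintype.card_fin, smul_eq_mul]
    rw [← mul_assoc, sq]
    rfl
  rw [h8] at h7
  have h9 : (T.card : ℝ) ≤ (q + 1) ^ 2 * ∑ a, (na (3 * B) θ n a : ℝ) ^ (2 * q) := by exact_mod_cast h7
  calc |∑ p ∈ T, G p.1 * G p.2| ≤ T.card * K ^ 2 := h5
    _ ≤ ((q + 1) ^ 2 * ∑ a, (na (3 * B) θ n a : ℝ) ^ (2 * q)) * K ^ 2 :=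
        mul_le_mul_of_nonneg_right h9 (sq_nonneg _)
    _ = K ^ 2 * (q + 1) ^ 2 * ∑ a, (na (3 * B) θ n a : ℝ) ^ (2 * q) := by ring

end Ty
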