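import Pool.Agent.LibTy70.S02
import Pool.Agent.LibCOE.CP_G10
import Pool.Agent.LibCOE.CP_S7
import Pool.Agent.LibCOE.CP_V3
import Pool.Agent.LibCOE.CP_S10

/-! Row S04: moments of the number of points in a window. -/

open MeasureTheory Set Filter Topology

namespace Ty

open QGr COE

theorem s04_cnt (m k : ℕ) : ((1 + m : ℕ) : ℝ) ^ k ≤ (2 * (k : ℝ) + 1) ^ k + 2 ^ k * (m.descFactorial k : ℝ) := by
  rcases lt_or_ge m (2 * k) with h | h
  · have h1 : ((1 + m : ℕ) : ℝ) ≤ 2 * (k : ℝ) + 1 := by exact_mod_cast (by omega : 1 + m ≤ 2 * k + 1)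
    have h2 := pow_le_pow_left₀ (by positivity) h1 k
    have h3 : (0 : ℝ) ≤ 2 ^ k * (m.descFactorial k : ℝ) := by positivity
    linarith
  · have h1 := Nat.pow_sub_le_descFactorial m k
    have h2 : 1 + m ≤ 2 * (m + 1 - k) := by omega
    have h3 : (1 + m) ^ k ≤ 2 ^ k * m.descFactorial k := by
      calc (1 + m) ^ k ≤ (2 * (m + 1 - k)) ^ k := Nat.pow_le_pow_left h2 k
        _ = 2 ^ k * (m + 1 - k) ^ k := mul_pow _ _ _
        _ ≤ _ := Nat.mul_le_mul_left _ h1
    have h4 : ((1 + m : ℕ) : ℝ) ^ k ≤ 2 ^ k * (m.descFactorial k : ℝ) := by exact_mod_cast h3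
    have h5 : (0 : ℝ) ≤ (2 * (k : ℝ) + 1) ^ k := by positivity
    linarith

theorem s04_cd_zero (n : ℕ) : cd n 0 = 0 := by
  unfold cd
  simp

theorem s04_na {N : ℕ} {B : ℝ} (hB : 0 ≤ B) (θ : Fin N → ℝ) (n : ℕ) (a : Fin N) :
    na B θ n a = 1 + (Finset.univ.filter fun j => j ≠ a ∧ cd n (n / Real.pi * (θ j - θ a)) ≤ B).card := by
  classical
  unfold na
  have h1 : (Finset.univ.filter fun j => cd n (n / Real.pi * (θ j - θ a)) ≤ B) =
      insert a (Finset.univ.filter fun j => j ≠ a ∧ cd n (n / Real.pi * (θ j - θ a)) ≤ B) := by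
    ext j
    rw [Finset.mem_insert, Finset.mem_filter, Finset.mem_filter]
    constructor
    · rintro ⟨_, h⟩
      by_cases hj : j = a
      · exact Or.inl hj
      · exact Or.inr ⟨Finset.mem_univ _, hj, h⟩
    · rintro (rfl | ⟨_, _, h⟩)
      · refine ⟨Finset.mem_univ _, ?_⟩
        rw [sub_self, mul_zero, s04_cd_zero]
        exact hB
      · exact ⟨Finset.mem_univ _, h⟩
  rw [h1, Finset.card_insert_of_notMem, add_comm]
  intro h
  exact (Finset.mem_filter.1 h).2.1 rfl

open Classical in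
theorem s04_card {N : ℕ} (P : Fin N → Fin N → Prop) (k : ℕ) (p : Fin N) :
    (Finset.univ.filter fun e : Fin (k + 1) ↪ Fin N =>
      e 0 = p ∧ ∀ i : Fin k, P (e 0) (e i.succ)).card
      = (Finset.univ.filter fun j => j ≠ p ∧ P p j).card.descFactorial k := by
  set E : Finset (Fin N) := Finset.univ.filter fun j => j ≠ p ∧ P p j with hE
  have hmem : ∀ j, j ∈ E ↔ j ≠ p ∧ P p j := by
    intro j
    rw [hE, Finset.mem_filter]
    simp
  have h1 : Fintype.card (Fin k ↪ E) = E.card.descFactorial k := by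
    rw [Fintype.card_embedding_eq, Fintype.card_coe, Fintype.card_fin]
  rw [← h1, ← Fintype.card_subtype]
  refine Fintype.card_congr ⟨fun e => ⟨fun i => ⟨e.1 i.succ, ?_⟩, ?_⟩, fun f => ⟨⟨Fin.cons p fun i => (f i).1, ?_⟩, ?_, ?_⟩, ?_, ?_⟩
  · refine (hmem _).2 ⟨?_, ?_⟩
    · intro h
      exact absurd (e.1.injective (h.trans e.2.1.symm)) (Fin.succ_ne_zero i)
    · have h2 := e.2.2 i
      rwa [e.2.1] at h2
  · intro i j hij
    have h2 : e.1 i.succ = e.1 j.succ := congrArg Subtype.val hij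
    exact Fin.succ_injective _ (e.1.injective h2)
  · rw [Fin.cons_injective_iff]
    constructor
    · rintro ⟨i, hi⟩
      exact ((hmem _).1 (f i).2).1 hi
    · intro i j hij
      exact f.injective (Subtype.ext hij)
  · rfl
  · intro i
    exact ((hmem _).1 (f i).2).2
  · rintro ⟨e, he1, he2⟩
    apply Subtype.ext
    ext i
    refine Fin.cases ?_ (fun j => ?_) i
    · exact congrArg Fin.val he1.symm
    · rfl
  · intro f
    ext i
    rfl

/-- the function of the cluster -/
noncomputable def s04_F (n k : ℕ) (B : ℝ) (x : Fin (k + 1) → ℝ) : ℝ :=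
  ∏ i : Fin k, if cd n (n / Real.pi * (x i.succ - x 0)) ≤ B then (1 : ℝ) else 0

theorem s04_sum {N : ℕ} (n k : ℕ) (B : ℝ) (θ : Fin N → ℝ) :
    ∑ a, (((Finset.univ.filter fun j => j ≠ a ∧ cd n (n / Real.pi * (θ j - θ a)) ≤ B).card.descFactorial k : ℕ) : ℝ) =
      ∑ e : Fin (k + 1) ↪ Fin N, s04_F n k B fun a => θ (e a) := by
  classical
  have h2 : ∀ e : Fin (k + 1) ↪ Fin N, s04_F n k B (fun a => θ (e a)) =
      ∑ p, if (e 0 = p ∧ ∀ i : Fin k, cd n (n / Real.pi * (θ (e i.succ) - θ (e 0))) ≤ B) then (1 : ℝ) else 0 := by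
    intro e
    unfold s04_F
    rw [Finset.sum_eq_single (e 0)]
    · rw [Finset.prod_ite_zero]
      simp
    · intro p _ hp
      rw [if_neg]
      rintro ⟨h3, -⟩
      exact hp h3.symm
    · intro h3
      exact absurd (Finset.mem_univ _) h3
  rw [Finset.sum_congr rfl fun e _ => h2 e, Finset.sum_comm]
  refine Finset.sum_congr rfl fun p _ => ?_
  rw [Finset.sum_boole, s04_card (fun a j => cd n (n / Real.pi * (θ j - θ a)) ≤ B)]

theorem s04_cd_meas (n : ℕ) : Measurable (cd n) := by
  unfold cd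
  have h : Measurable fun r : ℝ => ((round (r / (2 * n)) : ℤ) : ℝ) := by
    have h1 : (fun r : ℝ => ((round (r / (2 * n)) : ℤ) : ℝ)) = fun r : ℝ => ((⌊r / (2 * n) + 1 / 2⌋ : ℤ) : ℝ) := by
      funext r
      rw [round_eq]
    rw [h1]
    exact (measurable_from_top (f := fun z : ℤ => (z : ℝ))).comp
      (Int.measurable_floor.comp ((measurable_id.div_const _).add_const _))
  exact (measurable_id.sub (h.const_mul _)).norm

theorem s04_F_meas (n k : ℕ) (B : ℝ) : Measurable (s04_F n k B) := by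
  unfold s04_F
  refine Finset.measurable_fun_prod _ fun i _ => ?_
  refine Measurable.ite ?_ measurable_const measurable_const
  have h1 : Measurable fun a : Fin (k + 1) → ℝ => n / Real.pi * (a i.succ - a 0) := by fun_prop
  exact measurableSet_le ((s04_cd_meas n).comp h1) measurable_const

theorem s04_F_nonneg (n k : ℕ) (B : ℝ) (x : Fin (k + 1) → ℝ) : 0 ≤ s04_F n k B x := by
  unfold s04_F
  refine Finset.prod_nonneg fun i _ => ?_
  split_ifs <;> norm_num

theorem s04_F_le (n k : ℕ) (B : ℝ) (x : Fin (k + 1) → ℝ) : s04_F n k B x ≤ 1 := by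
  unfold s04_F
  refine Finset.prod_le_one (fun i _ => ?_) fun i _ => ?_
  · split_ifs <;> norm_num
  · split_ifs <;> norm_num

theorem s04_F_abs (n k : ℕ) (B : ℝ) (x : Fin (k + 1) → ℝ) : |s04_F n k B x| ≤ 1 := by
  rw [abs_of_nonneg (s04_F_nonneg n k B x)]
  exact s04_F_le n k B x

theorem s04_cd_add {n : ℕ} (hn : 0 < n) (r : ℝ) (m : ℤ) : cd n (r + 2 * n * m) = cd n r := by
  have hn0 : (2 * n : ℝ) ≠ 0 := by positivity
  unfold cd
  have h1 : (r + 2 * n * m) / (2 * n) = r / (2 * n) + m := by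
    field_simp
  rw [h1, round_add_intCast]
  congr 1
  push_cast
  ring

theorem s04_cd_ge {n : ℕ} {r : ℝ} (hr : |r| ≤ n) : |r| ≤ cd n r := by
  unfold cd
  generalize round (r / (2 * n)) = m
  rcases eq_or_ne m 0 with rfl | hm
  · simp
  · have h1 : (1 : ℝ) ≤ |(m : ℝ)| := by
      have : (1 : ℤ) ≤ |m| := Int.one_le_abs hm
      exact_mod_cast this
    have h2 : |2 * (n : ℝ) * m| ≤ |r - 2 * n * m| + |r| := by
      have := abs_sub r (r - 2 * n * m)
      rw [sub_sub_cancel] at this
      linarith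
    rw [abs_mul, abs_of_nonneg (by positivity : (0 : ℝ) ≤ 2 * n)] at h2
    have h3 : (0 : ℝ) ≤ 2 * n := by positivity
    have h4 := mul_le_mul_of_nonneg_left h1 h3
    linarith

theorem s04_F_per {n : ℕ} (hn : 0 < n) (k : ℕ) (B : ℝ) (x : Fin (k + 1) → ℝ) (j : Fin (k + 1)) :
    s04_F n k B (Function.update x j (x j + 2 * Real.pi)) = s04_F n k B x := by
  unfold s04_F
  refine Finset.prod_congr rfl fun i _ => ?_
  have h1 : ∃ m : ℤ, Function.update x j (x j + 2 * Real.pi) i.succ - Function.update x j (x j + 2 * Real.pi) 0 =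
      x i.succ - x 0 + 2 * Real.pi * m := by
    by_cases ha : i.succ = j
    · have hb : (0 : Fin (k + 1)) ≠ j := by
        rw [← ha]
        exact (Fin.succ_ne_zero i).symm
      refine ⟨1, ?_⟩
      rw [ha, Function.update_self, Function.update_of_ne hb]
      push_cast
      ring
    · rw [Function.update_of_ne ha]
      by_cases hb : (0 : Fin (k + 1)) = j
      · refine ⟨-1, ?_⟩
        rw [hb, Function.update_self]
        push_cast
        ring
      · refine ⟨0, ?_⟩
        rw [Function.update_of_ne hb]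
        push_cast
        ring
  obtain ⟨m, hm⟩ := h1
  rw [hm]
  have h2 : (n : ℝ) / Real.pi * (x i.succ - x 0 + 2 * Real.pi * m) = n / Real.pi * (x i.succ - x 0) + 2 * n * m := by
    have := Real.pi_ne_zero
    field_simp
  rw [h2, s04_cd_add hn]

theorem s04_int {n : ℕ} (hn : 0 < n) (k : ℕ) {B : ℝ} (hB : 0 ≤ B) :
    ∫ x, s04_F n k B x ∂(cube (Fin (k + 1))) ≤ 2 * Real.pi * (2 * Real.pi * B / n) ^ k := by
  have hn0 : (0 : ℝ) < n := by exact_mod_cast hn
  have hpi := Real.pi_pos
  rw [torus (-Real.pi) (s04_F n k B) (s04_F_meas n k B) 1 (s04_F_abs n k B) (s04_F_per hn k B)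
    (fun x c => by unfold s04_F; simp)]
  refine mul_le_mul_of_nonneg_left ?_ (by positivity)
  have h1 : (fun v : Fin k → ℝ => s04_F n k B (Fin.cons 0 v)) =
      fun v : Fin k → ℝ => ∏ i, (fun y : ℝ => if cd n (n / Real.pi * y) ≤ B then (1 : ℝ) else 0) (v i) := by
    funext v
    unfold s04_F
    simp
  rw [h1]
  unfold cubc
  rw [integral_fintype_prod_eq_pow (fun y : ℝ => if cd n (n / Real.pi * y) ≤ B then (1 : ℝ) else 0), Fintype.card_fin]
  refine pow_le_pow_left₀ (integral_nonneg fun y => by split_ifs <;> norm_num) ?_ k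
  have h2 : ∫ y in Ioc (-Real.pi) (-Real.pi + 2 * Real.pi), (Icc (-(Real.pi * B / n)) (Real.pi * B / n)).indicator
      (fun _ => (1 : ℝ)) y ≤ 2 * Real.pi * B / n := by
    rw [integral_indicator measurableSet_Icc, Measure.restrict_restrict measurableSet_Icc, setIntegral_const, smul_eq_mul,
      mul_one]
    calc volume.real (Icc (-(Real.pi * B / n)) (Real.pi * B / n) ∩ Ioc (-Real.pi) (-Real.pi + 2 * Real.pi))
        ≤ volume.real (Icc (-(Real.pi * B / n)) (Real.pi * B / n)) :=
          measureReal_mono inter_subset_left (by simp)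
      _ = 2 * Real.pi * B / n := by
          rw [Real.volume_real_Icc_of_le]
          · ring
          · have : 0 ≤ Real.pi * B / n := by positivity
            linarith
  refine le_trans ?_ h2
  refine integral_mono_of_nonneg (Eventually.of_forall fun y => by
    simp only [Pi.zero_apply]
    split_ifs <;> norm_num) ?_ ?_
  · exact (integrable_indicator_iff measurableSet_Icc).2 (by
      have : IsFiniteMeasure ((volume.restrict (Ioc (-Real.pi) (-Real.pi + 2 * Real.pi)) : Measure ℝ)) := inferInstance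
      exact (integrable_const (1 : ℝ)).integrableOn)
  · filter_upwards [ae_restrict_mem measurableSet_Ioc] with y hy
    by_cases hc : cd n (n / Real.pi * y) ≤ B
    · rw [if_pos hc, Set.indicator_of_mem]
      have h3 : |n / Real.pi * y| ≤ n := by
        rw [abs_mul, abs_of_pos (by positivity : (0 : ℝ) < n / Real.pi)]
        have h4 : |y| ≤ Real.pi := by
          rw [abs_le]
          constructor <;> linarith [hy.1, hy.2]
        calc n / Real.pi * |y| ≤ n / Real.pi * Real.pi := mul_le_mul_of_nonneg_left h4 (by positivity)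
          _ = n := by field_simp
      have h5 := (s04_cd_ge h3).trans hc
      rw [abs_mul, abs_of_pos (by positivity : (0 : ℝ) < n / Real.pi)] at h5
      have h6 : |y| ≤ Real.pi * B / n := by
        rw [le_div_iff₀ hn0]
        have h7 := mul_le_mul_of_nonneg_left h5 hpi.le
        have h8 : Real.pi * (n / Real.pi * |y|) = |y| * n := by field_simp
        linarith
      exact ⟨(abs_le.1 h6).1, (abs_le.1 h6).2⟩
    · rw [if_neg hc]
      exact Set.indicator_nonneg (fun _ _ => zero_le_one) _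

theorem s04_rq_nonneg {q : ℕ} (n : ℕ) (x : Fin q → ℝ) : 0 ≤ rq n x := Real.sqrt_nonneg _

theorem clus_mom (k : ℕ) (B : ℝ) (hB : 0 ≤ B) : ∃ C : ℝ, 0 ≤ C ∧ ∀ n : ℕ, 0 < n →
    EW n (fun θ => ∑ a, (na B θ n a : ℝ) ^ k) ≤ C * n := by
  obtain ⟨C1, hC1, hC1'⟩ := rt_bdd (k + 1)
  refine ⟨2 * (2 * (k : ℝ) + 1) ^ k + 2 ^ k * (2 * C1 * (2 * B) ^ k), by positivity, ?_⟩
  intro n hn
  have hn0 : (0 : ℝ) < n := by exact_mod_cast hn
  have hpi := Real.pi_pos
  have := cube_fin (Fin (k + 1))
  have := cube_fin (Fin (n * 2))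
  have hD := wt_int_pos (n * 2)
  set D := ∫ θ, wt θ ∂(cube (Fin (n * 2))) with hDdef
  have hwt := S10_wt (n * 2)
  unfold EW
  rw [div_le_iff₀ hD]
  -- the integral of the cluster function
  have hI : ∫ x, s04_F n k B x * rq n x ∂(cube (Fin (k + 1))) ≤ 2 * C1 * (2 * B) ^ k * n := by
    have h1 : ∫ x, s04_F n k B x * rq n x ∂(cube (Fin (k + 1))) ≤
        ∫ x, s04_F n k B x * ((n / Real.pi) ^ (k + 1) * C1) ∂(cube (Fin (k + 1))) := by
      refine integral_mono_of_nonneg (Eventually.of_forall fun x =>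
        mul_nonneg (s04_F_nonneg n k B x) (s04_rq_nonneg n x)) ?_ (Eventually.of_forall fun x => ?_)
      · exact (Integrable.of_bound (s04_F_meas n k B).aestronglyMeasurable 1
          (Eventually.of_forall fun x => s04_F_abs n k B x)).mul_const _
      · refine mul_le_mul_of_nonneg_left ?_ (s04_F_nonneg n k B x)
        rw [rt_scale hn]
        exact mul_le_mul_of_nonneg_left ((le_abs_self _).trans (hC1' n hn _)) (by positivity)
    refine h1.trans ?_
    rw [integral_mul_const]
    refine (mul_le_mul_of_nonneg_right (s04_int hn k hB) (by positivity)).trans (le_of_eq ?_)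
    rw [div_pow, mul_pow, mul_pow, mul_pow, div_pow, pow_succ, pow_succ]
    field_simp
  have hdens := dens_int n (s04_F n k B) (s04_F_meas n k B) 1 (s04_F_abs n k B)
  rw [← hDdef] at hdens
  have hint2 : Integrable (fun θ : Fin (n * 2) → ℝ => (∑ e : Fin (k + 1) ↪ Fin (n * 2), s04_F n k B fun a => θ (e a)) * wt θ)
      (cube (Fin (n * 2))) := by
    refine hwt.bdd_mul (c := ((Fintype.card (Fin (k + 1) ↪ Fin (n * 2)) : ℕ) : ℝ)) ?_ (Eventually.of_forall fun θ => ?_)
    · refine Measurable.aestronglyMeasurable (Finset.measurable_fun_sum _ fun e _ => ?_)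
      refine (s04_F_meas n k B).comp ?_
      rw [measurable_pi_iff]
      exact fun a => measurable_pi_apply _
    · rw [Real.norm_eq_abs]
      refine (Finset.abs_sum_le_sum_abs _ _).trans ?_
      refine (Finset.sum_le_sum fun e _ => s04_F_abs n k B _).trans ?_
      simp
  have hmono : ∫ θ, (∑ a, (na B θ n a : ℝ) ^ k) * wt θ ∂(cube (Fin (n * 2))) ≤
      ∫ θ, ((n * 2 : ℕ) * (2 * (k : ℝ) + 1) ^ k * wt θ +
        2 ^ k * ((∑ e : Fin (k + 1) ↪ Fin (n * 2), s04_F n k B fun a => θ (e a)) * wt θ)) ∂(cube (Fin (n * 2))) := by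
    refine integral_mono_of_nonneg (Eventually.of_forall fun θ => ?_) ?_ (Eventually.of_forall fun θ => ?_)
    · exact mul_nonneg (Finset.sum_nonneg fun a _ => by positivity) (wt_nonneg θ)
    · exact (hwt.const_mul _).add (hint2.const_mul _)
    · have h1 : ∑ a, (na B θ n a : ℝ) ^ k ≤ ((n * 2 : ℕ) : ℝ) * (2 * (k : ℝ) + 1) ^ k +
          2 ^ k * ∑ e : Fin (k + 1) ↪ Fin (n * 2), s04_F n k B fun a => θ (e a) := by
        rw [← s04_sum, Finset.mul_sum]
        have h2 : ((n * 2 : ℕ) : ℝ) * (2 * (k : ℝ) + 1) ^ k = ∑ _a : Fin (n * 2), (2 * (k : ℝ) + 1) ^ k := by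
          rw [Finset.sum_const, Finset.card_univ, Fintype.card_fin, nsmul_eq_mul]
        rw [h2, ← Finset.sum_add_distrib]
        refine Finset.sum_le_sum fun a _ => ?_
        rw [s04_na hB]
        exact s04_cnt _ k
      have h3 := mul_le_mul_of_nonneg_right h1 (wt_nonneg θ)
      simp only
      calc _ ≤ _ := h3
        _ = _ := by ring
  refine hmono.trans ?_
  rw [integral_add (hwt.const_mul _) (hint2.const_mul _), integral_const_mul, integral_const_mul, hdens, ← hDdef]
  have h5 := mul_le_mul_of_nonneg_left hI hD.le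
  have h6 := mul_le_mul_of_nonneg_left h5 (by positivity : (0 : ℝ) ≤ 2 ^ k)
  push_cast
  calc _ ≤ n * 2 * (2 * (k : ℝ) + 1) ^ k * D + 2 ^ k * (D * (2 * C1 * (2 * B) ^ k * n)) := by linarith
    _ = _ := by ring

end Ty
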