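import Pool.Agent.LibTy70.S03
import Pool.Agent.LibTy70.S04

open MeasureTheory Set Filter Topology

namespace Ty

open QGr COE

/-! ### measurability -/

theorem S5_cd_meas (n : ℕ) : Measurable (cd n) := by
  unfold cd
  have h : Measurable fun r : ℝ => ((round (r / (2 * n)) : ℤ) : ℝ) := by
    have h1 : (fun r : ℝ => ((round (r / (2 * n)) : ℤ) : ℝ))
        = fun r => ((⌊(r / (2 * (n : ℝ)) + 1 / 2 : ℝ)⌋ : ℤ) : ℝ) := by
      funext r
      rw [round_eq]
    rw [h1]
    exact (measurable_from_top (f := fun z : ℤ => (z : ℝ))).comp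
      (Int.measurable_floor.comp (by fun_prop))
  exact ((measurable_id.sub (h.const_mul _))).abs

theorem S5_cl_meas {q : ℕ} (n : ℕ) (B : ℝ) : MeasurableSet {x : Fin (q + 1) → ℝ | cl n B x} := by
  have h1 : {x : Fin (q + 1) → ℝ | cl n B x}
      = ⋂ i, {x : Fin (q + 1) → ℝ | cd n (n / Real.pi * (x i - x 0)) ≤ B} := by
    ext x
    rw [mem_iInter]
    exact Iff.rfl
  rw [h1]
  refine MeasurableSet.iInter fun i => ?_
  exact measurableSet_le ((S5_cd_meas n).comp (by fun_prop)) measurable_const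

theorem S5_na_meas {N : ℕ} (B : ℝ) (n : ℕ) (a : Fin N) :
    Measurable fun θ : Fin N → ℝ => (na B θ n a : ℝ) := by
  have h1 : (fun θ : Fin N → ℝ => (na B θ n a : ℝ))
      = fun θ => ∑ j, if cd n (n / Real.pi * (θ j - θ a)) ≤ B then (1 : ℝ) else 0 := by
    funext θ
    unfold na
    rw [Finset.card_filter]
    push_cast
    rfl
  rw [h1]
  refine Finset.measurable_sum _ fun j _ => ?_
  exact Measurable.ite (measurableSet_le ((S5_cd_meas n).comp (by fun_prop)) measurable_const)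
    measurable_const measurable_const

theorem S5_na_le {N : ℕ} (B : ℝ) (n : ℕ) (a : Fin N) (θ : Fin N → ℝ) : (na B θ n a : ℝ) ≤ N := by
  unfold na
  have := Finset.card_filter_le (Finset.univ : Finset (Fin N))
    fun j => cd n (n / Real.pi * (θ j - θ a)) ≤ B
  simp only [Finset.card_univ, Fintype.card_fin] at this
  exact_mod_cast this

/-! ### the mean -/

/-- bounded measurable -/
def BM {N : ℕ} (φ : (Fin N → ℝ) → ℝ) : Prop := Measurable φ ∧ ∃ K, ∀ θ, |φ θ| ≤ K

theorem BM.int {N : ℕ} {φ : (Fin N → ℝ) → ℝ} (h : BM φ) :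
    Integrable (fun θ => φ θ * wt θ) (cube (Fin N)) := by
  obtain ⟨h1, K, h2⟩ := h
  haveI := cube_fin (Fin N)
  refine Integrable.of_bound (C := K * 2 ^ (N * N))
    (h1.mul wt_cont.measurable).aestronglyMeasurable (Filter.Eventually.of_forall fun θ => ?_)
  rw [Real.norm_eq_abs, abs_mul, abs_of_nonneg (wt_nonneg θ)]
  exact mul_le_mul (h2 θ) (wt_le θ) (wt_nonneg θ) ((abs_nonneg _).trans (h2 θ))

theorem BM.const {N : ℕ} (c : ℝ) : BM (fun _ : Fin N → ℝ => c) :=
  ⟨measurable_const, |c|, fun _ => le_refl _⟩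

theorem BM.add {N : ℕ} {φ ψ : (Fin N → ℝ) → ℝ} (h : BM φ) (h' : BM ψ) :
    BM fun θ => φ θ + ψ θ := by
  obtain ⟨h1, K, h2⟩ := h
  obtain ⟨h3, L, h4⟩ := h'
  exact ⟨h1.add h3, K + L, fun θ => (abs_add_le _ _).trans (add_le_add (h2 θ) (h4 θ))⟩

theorem BM.mul {N : ℕ} {φ ψ : (Fin N → ℝ) → ℝ} (h : BM φ) (h' : BM ψ) :
    BM fun θ => φ θ * ψ θ := by
  obtain ⟨h1, K, h2⟩ := h
  obtain ⟨h3, L, h4⟩ := h'
  exact ⟨h1.mul h3, K * L, fun θ => by
    rw [abs_mul]
    exact mul_le_mul (h2 θ) (h4 θ) (abs_nonneg _) ((abs_nonneg _).trans (h2 θ))⟩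

theorem BM.smul {N : ℕ} {φ : (Fin N → ℝ) → ℝ} (h : BM φ) (c : ℝ) : BM fun θ => c * φ θ :=
  (BM.const c).mul h

theorem BM.abs {N : ℕ} {φ : (Fin N → ℝ) → ℝ} (h : BM φ) : BM fun θ => |φ θ| := by
  obtain ⟨h1, K, h2⟩ := h
  exact ⟨h1.abs, K, fun θ => by rw [abs_abs]; exact h2 θ⟩

theorem BM.sum {N : ℕ} {ι : Type} (s : Finset ι) (φ : ι → (Fin N → ℝ) → ℝ)
    (h : ∀ i ∈ s, BM (φ i)) : BM fun θ => ∑ i ∈ s, φ i θ := by
  classical
  induction s using Finset.induction_on with
  | empty => simpa using BM.const (N := N) 0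
  | insert a s ha ih =>
    simp_rw [Finset.sum_insert ha]
    exact (h a (Finset.mem_insert_self _ _)).add
      (ih fun i hi => h i (Finset.mem_insert_of_mem hi))

theorem EW_mono {n : ℕ} {φ ψ : (Fin (n * 2) → ℝ) → ℝ} (hφ : BM φ) (hψ : BM ψ)
    (h : ∀ θ, φ θ ≤ ψ θ) : EW n φ ≤ EW n ψ := by
  unfold EW
  refine div_le_div_of_nonneg_right ?_ (wt_int_pos _).le
  exact integral_mono hφ.int hψ.int fun θ => mul_le_mul_of_nonneg_right (h θ) (wt_nonneg θ)

theorem EW_add {n : ℕ} {φ ψ : (Fin (n * 2) → ℝ) → ℝ} (hφ : BM φ) (hψ : BM ψ) :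
    EW n (fun θ => φ θ + ψ θ) = EW n φ + EW n ψ := by
  unfold EW
  rw [← add_div, ← integral_add hφ.int hψ.int]
  congr 2
  funext θ
  ring

theorem EW_smul {n : ℕ} (c : ℝ) (φ : (Fin (n * 2) → ℝ) → ℝ) :
    EW n (fun θ => c * φ θ) = c * EW n φ := by
  unfold EW
  rw [mul_div_assoc', ← integral_const_mul]
  congr 2
  funext θ
  ring

theorem EW_const {n : ℕ} (c : ℝ) : EW n (fun _ => c) = c := by
  unfold EW
  rw [integral_const_mul, mul_div_assoc, div_self (wt_int_pos _).ne', mul_one]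

/-! ### arcs -/

theorem S5_cd_eq {n : ℕ} (hn : 0 < n) (x : ℝ) :
    cd n (n / Real.pi * x) = n / Real.pi * |x - 2 * Real.pi * round (x / (2 * Real.pi))| := by
  have hn' : (0 : ℝ) < n := by exact_mod_cast hn
  have hpi := Real.pi_pos
  unfold cd
  have h1 : (n : ℝ) / Real.pi * x / (2 * n) = x / (2 * Real.pi) := by
    field_simp
  rw [h1]
  have h2 : (n : ℝ) / Real.pi * x - 2 * n * (round (x / (2 * Real.pi)) : ℝ)
      = n / Real.pi * (x - 2 * Real.pi * round (x / (2 * Real.pi))) := by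
    field_simp
  rw [h2, abs_mul, abs_of_pos (by positivity)]

theorem S5_round {x : ℝ} (hx : |x| < 2 * Real.pi) :
    round (x / (2 * Real.pi)) ∈ ({-1, 0, 1} : Finset ℤ) := by
  have hpi := Real.pi_pos
  have h1 : |x / (2 * Real.pi)| < 1 := by
    rw [abs_div, abs_of_pos (by positivity : (0 : ℝ) < 2 * Real.pi), div_lt_one (by positivity)]
    exact hx
  have h2 := abs_sub_round (x / (2 * Real.pi))
  rw [abs_lt] at h1
  rw [abs_le] at h2
  have h3 : ((round (x / (2 * Real.pi)) : ℤ) : ℝ) < 2 := by linarith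
  have h4 : (-2 : ℝ) < ((round (x / (2 * Real.pi)) : ℤ) : ℝ) := by linarith
  have h5 : round (x / (2 * Real.pi)) < 2 := by exact_mod_cast h3
  have h6 : -2 < round (x / (2 * Real.pi)) := by exact_mod_cast h4
  simp only [Finset.mem_insert, Finset.mem_singleton]
  omega

theorem S5_diff {u a : ℝ} (hu : u ∈ Ioc 0 (2 * Real.pi)) (ha : a ∈ Ioc 0 (2 * Real.pi)) :
    |u - a| < 2 * Real.pi := by
  rw [abs_lt]
  constructor <;> linarith [hu.1, hu.2, ha.1, ha.2]

theorem S5_arc {n : ℕ} (hn : 0 < n) (B : ℝ) {a : ℝ} (ha : a ∈ Ioc 0 (2 * Real.pi)) :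
    (volume.restrict (Ioc 0 (2 * Real.pi))) {u : ℝ | cd n (n / Real.pi * (u - a)) ≤ B} ≤
      ENNReal.ofReal (6 * Real.pi * B / n) := by
  have hn' : (0 : ℝ) < n := by exact_mod_cast hn
  have hpi := Real.pi_pos
  have hm : MeasurableSet {u : ℝ | cd n (n / Real.pi * (u - a)) ≤ B} :=
    measurableSet_le ((S5_cd_meas n).comp (by fun_prop)) measurable_const
  rw [Measure.restrict_apply hm]
  have hsub : {u : ℝ | cd n (n / Real.pi * (u - a)) ≤ B} ∩ Ioc 0 (2 * Real.pi) ⊆
      ⋃ k ∈ ({-1, 0, 1} : Finset ℤ), Icc (a + 2 * Real.pi * k - Real.pi * B / n)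
        (a + 2 * Real.pi * k + Real.pi * B / n) := by
    rintro u ⟨hu, hu'⟩
    change cd n (n / Real.pi * (u - a)) ≤ B at hu
    rw [S5_cd_eq hn] at hu
    rw [mem_iUnion₂]
    refine ⟨_, S5_round (S5_diff hu' ha), ?_⟩
    set k := round ((u - a) / (2 * Real.pi))
    have h1 : |u - a - 2 * Real.pi * k| ≤ Real.pi * B / n := by
      rw [le_div_iff₀ hn']
      have : (n : ℝ) / Real.pi * |u - a - 2 * Real.pi * k| * Real.pi ≤ B * Real.pi :=
        mul_le_mul_of_nonneg_right hu hpi.le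
      have h2 : (n : ℝ) / Real.pi * |u - a - 2 * Real.pi * k| * Real.pi
          = |u - a - 2 * Real.pi * k| * n := by
        field_simp
      rw [h2] at this
      linarith
    rw [abs_le] at h1
    constructor <;> linarith [h1.1, h1.2]
  refine (measure_mono hsub).trans ((measure_biUnion_finset_le _ _).trans ?_)
  have h3 : ∀ k : ℤ, volume (Icc (a + 2 * Real.pi * k - Real.pi * B / n)
        (a + 2 * Real.pi * k + Real.pi * B / n)) = ENNReal.ofReal (2 * Real.pi * B / n) := by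
    intro k
    rw [Real.volume_Icc]
    congr 1
    ring
  simp_rw [h3]
  rw [Finset.sum_const, nsmul_eq_mul, ← ENNReal.ofReal_natCast, ← ENNReal.ofReal_mul (by positivity)]
  apply ENNReal.ofReal_le_ofReal
  have : (({-1, 0, 1} : Finset ℤ).card : ℝ) = 3 := by norm_num
  rw [this]
  apply le_of_eq
  ring

/-! ### the integral of `(1 + α |u - c|)^(-1/2)` -/

theorem S5_int (α c L : ℝ) (hα : 0 < α) (hL : 0 ≤ L) :
    ∫⁻ u in Ioc (c - L) (c + L), ENNReal.ofReal (1 / √(1 + α * |u - c|)) ≤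
      ENNReal.ofReal (4 / α * √(1 + α * L)) := by
  have hcont : Continuous fun u : ℝ => 1 / √(1 + α * |u - c|) := by
    refine Continuous.div continuous_const (by fun_prop) fun u => ?_
    have : 0 < 1 + α * |u - c| := by positivity
    exact (Real.sqrt_pos.2 this).ne'
  have hint : ∀ a b : ℝ, IntervalIntegrable (fun u : ℝ => 1 / √(1 + α * |u - c|)) volume a b :=
    fun a b => hcont.intervalIntegrable a b
  have h1 : ∫ u in c..(c + L), 1 / √(1 + α * |u - c|)
      = 2 / α * √(1 + α * L) - 2 / α := by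
    have h2 : ∀ u ∈ uIcc c (c + L), HasDerivAt (fun u : ℝ => 2 / α * √(1 + α * (u - c)))
        (1 / √(1 + α * |u - c|)) u := by
      intro u hu
      rw [uIcc_of_le (by linarith)] at hu
      have h3 : |u - c| = u - c := abs_of_nonneg (by linarith [hu.1])
      have h4 : 0 < 1 + α * (u - c) := by
        have : 0 ≤ α * (u - c) := mul_nonneg hα.le (by linarith [hu.1])
        linarith
      have h5 : HasDerivAt (fun u : ℝ => 1 + α * (u - c)) α u := by
        have := ((hasDerivAt_id u).sub_const c).const_mul α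
        simpa using this.const_add 1
      have h6 := (h5.sqrt h4.ne').const_mul (2 / α)
      have h8 : 0 < √(1 + α * (u - c)) := Real.sqrt_pos.2 h4
      have h9 : 2 / α * (α / (2 * √(1 + α * (u - c)))) = 1 / √(1 + α * (u - c)) := by
        field_simp
      rw [h9] at h6
      rw [h3]
      exact h6
    rw [intervalIntegral.integral_eq_sub_of_hasDerivAt h2 (hint _ _)]
    simp
  have h1' : ∫ u in (c - L)..c, 1 / √(1 + α * |u - c|)
      = 2 / α * √(1 + α * L) - 2 / α := by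
    have h2 : ∀ u ∈ uIcc (c - L) c, HasDerivAt (fun u : ℝ => -(2 / α) * √(1 + α * (c - u)))
        (1 / √(1 + α * |u - c|)) u := by
      intro u hu
      rw [uIcc_of_le (by linarith)] at hu
      have h3 : |u - c| = c - u := by
        rw [abs_sub_comm]
        exact abs_of_nonneg (by linarith [hu.2])
      have h4 : 0 < 1 + α * (c - u) := by
        have : 0 ≤ α * (c - u) := mul_nonneg hα.le (by linarith [hu.2])
        linarith
      have h5 : HasDerivAt (fun u : ℝ => 1 + α * (c - u)) (-α) u := by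
        have := ((hasDerivAt_id u).const_sub c).const_mul α
        simpa using this.const_add 1
      have h6 := (h5.sqrt h4.ne').const_mul (-(2 / α))
      have h8 : 0 < √(1 + α * (c - u)) := Real.sqrt_pos.2 h4
      have h9 : -(2 / α) * (-α / (2 * √(1 + α * (c - u)))) = 1 / √(1 + α * (c - u)) := by
        field_simp
      rw [h9] at h6
      rw [h3]
      exact h6
    rw [intervalIntegral.integral_eq_sub_of_hasDerivAt h2 (hint _ _)]
    simp
    ring
  have h7 : ∫ u in (c - L)..(c + L), 1 / √(1 + α * |u - c|)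
      = 4 / α * √(1 + α * L) - 4 / α := by
    rw [← intervalIntegral.integral_add_adjacent_intervals (hint _ c) (hint _ _), h1, h1']
    ring
  rw [← ofReal_integral_eq_lintegral_ofReal]
  · apply ENNReal.ofReal_le_ofReal
    rw [← intervalIntegral.integral_of_le (by linarith), h7]
    have : 0 < 4 / α := by positivity
    linarith
  · exact (hcont.integrableOn_Icc (a := c - L) (b := c + L)).mono_set Ioc_subset_Icc_self
  · exact Filter.Eventually.of_forall fun u => by
      simp only [Pi.zero_apply]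
      positivity

theorem S5_g {n : ℕ} (hn : 0 < n) {a : ℝ} (ha : a ∈ Ioc 0 (2 * Real.pi)) :
    ∫⁻ u in Ioc 0 (2 * Real.pi), ENNReal.ofReal (1 / √(1 + cd n (n / Real.pi * (a - u)))) ≤
      ENNReal.ofReal (36 * Real.pi / √n) := by
  have hn' : (0 : ℝ) < n := by exact_mod_cast hn
  have hn1 : (1 : ℝ) ≤ n := by exact_mod_cast hn
  have hpi := Real.pi_pos
  have h1 : ∀ u ∈ Ioc 0 (2 * Real.pi),
      ENNReal.ofReal (1 / √(1 + cd n (n / Real.pi * (a - u)))) ≤
        ∑ k ∈ ({-1, 0, 1} : Finset ℤ),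
          ENNReal.ofReal (1 / √(1 + n / Real.pi * |u - (a - 2 * Real.pi * k)|)) := by
    intro u hu
    rw [S5_cd_eq hn]
    have h2 := S5_round (S5_diff ha hu)
    refine le_trans (le_of_eq ?_) (Finset.single_le_sum (f := fun k : ℤ =>
      ENNReal.ofReal (1 / √(1 + n / Real.pi * |u - (a - 2 * Real.pi * k)|)))
      (fun _ _ => bot_le) h2)
    have h3 : |a - u - 2 * Real.pi * (round ((a - u) / (2 * Real.pi)) : ℤ)|
        = |u - (a - 2 * Real.pi * (round ((a - u) / (2 * Real.pi)) : ℤ))| := by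
      rw [← abs_neg]
      congr 1
      ring
    rw [h3]
  have hmeas : ∀ k : ℤ, Measurable fun u : ℝ =>
      ENNReal.ofReal (1 / √(1 + n / Real.pi * |u - (a - 2 * Real.pi * k)|)) := by
    intro k
    apply ENNReal.measurable_ofReal.comp
    have : Measurable fun u : ℝ => √(1 + n / Real.pi * |u - (a - 2 * Real.pi * k)|) :=
      Continuous.measurable (by fun_prop)
    exact measurable_const.div this
  refine (setLIntegral_mono (Finset.measurable_sum _ fun k _ => hmeas k) h1).trans ?_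
  rw [lintegral_finsetSum _ fun k _ => hmeas k]
  have h4 : ∀ k ∈ ({-1, 0, 1} : Finset ℤ), ∫⁻ u in Ioc 0 (2 * Real.pi),
      ENNReal.ofReal (1 / √(1 + n / Real.pi * |u - (a - 2 * Real.pi * k)|)) ≤
        ENNReal.ofReal (12 * Real.pi / √n) := by
    intro k hk
    have hk' : (-1 : ℝ) ≤ k ∧ (k : ℝ) ≤ 1 := by
      simp only [Finset.mem_insert, Finset.mem_singleton] at hk
      rcases hk with rfl | rfl | rfl <;> norm_num
    have hk1 : -(2 * Real.pi) ≤ 2 * Real.pi * k := by nlinarith [hk'.1]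
    have hk2 : 2 * Real.pi * k ≤ 2 * Real.pi := by nlinarith [hk'.2]
    have h5 : Ioc 0 (2 * Real.pi) ⊆ Ioc (a - 2 * Real.pi * k - 4 * Real.pi)
        (a - 2 * Real.pi * k + 4 * Real.pi) := by
      intro u hu
      constructor <;> linarith [hu.1, hu.2, ha.1, ha.2]
    refine (lintegral_mono_set h5).trans ((S5_int (n / Real.pi) _ (4 * Real.pi) (by positivity)
      (by positivity)).trans ?_)
    apply ENNReal.ofReal_le_ofReal
    have h6 : (n : ℝ) / Real.pi * (4 * Real.pi) = 4 * n := by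
      field_simp
    rw [h6]
    have h7 : √(1 + 4 * (n : ℝ)) ≤ 3 * √n := by
      rw [Real.sqrt_le_left (by positivity), mul_pow, Real.sq_sqrt hn'.le]
      linarith
    have h8 : 4 / ((n : ℝ) / Real.pi) = 4 * Real.pi / n := by
      field_simp
    rw [h8]
    calc 4 * Real.pi / n * √(1 + 4 * (n : ℝ)) ≤ 4 * Real.pi / n * (3 * √n) :=
          mul_le_mul_of_nonneg_left h7 (by positivity)
      _ = 12 * Real.pi / √n := by
          have h9 : (n : ℝ) = √n * √n := (Real.mul_self_sqrt hn'.le).symm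
          have h10 : 0 < √(n : ℝ) := Real.sqrt_pos.2 hn'
          rw [div_mul_eq_mul_div, div_eq_div_iff hn'.ne' h10.ne']
          calc 4 * Real.pi * (3 * √n) * √n = 12 * Real.pi * (√n * √n) := by ring
            _ = 12 * Real.pi * n := by rw [← h9]
  refine (Finset.sum_le_sum h4).trans ?_
  rw [Finset.sum_const, nsmul_eq_mul, ← ENNReal.ofReal_natCast, ← ENNReal.ofReal_mul (by positivity)]
  apply ENNReal.ofReal_le_ofReal
  have : (({-1, 0, 1} : Finset ℤ).card : ℝ) = 3 := by norm_num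
  rw [this]
  apply le_of_eq
  ring

/-! ### clusters -/

theorem S5_cl {q n : ℕ} (hn : 0 < n) (B : ℝ) (h : ℝ → ENNReal) (hh : Measurable h) :
    ∫⁻ x, {x : Fin (q + 1) → ℝ | cl n B x}.indicator (fun x => h (x 0)) x
        ∂(cube (Fin (q + 1))) ≤
      ENNReal.ofReal (6 * Real.pi * B / n) ^ q * ∫⁻ u in Ioc 0 (2 * Real.pi), h u := by
  have hmp := (measurePreserving_piFinSuccAbove
    (fun _ : Fin (q + 1) => (volume.restrict (Ioc 0 (2 * Real.pi)) : Measure ℝ)) 0).symm
  set e := MeasurableEquiv.piFinSuccAbove (fun _ : Fin (q + 1) => ℝ) 0 with he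
  have hsymm : ∀ p : ℝ × (Fin q → ℝ), e.symm p = Fin.cons p.1 p.2 := by
    intro p
    rw [he]
    change Fin.insertNth (α := fun _ => ℝ) 0 p.1 p.2 = _
    rw [Fin.insertNth_zero']
  have hf : Measurable ({x : Fin (q + 1) → ℝ | cl n B x}.indicator
      (fun x : Fin (q + 1) → ℝ => h (x 0))) :=
    (hh.comp (measurable_pi_apply 0)).indicator (S5_cl_meas n B)
  unfold cube
  have hf' : Measurable fun p : ℝ × (Fin q → ℝ) => {x : Fin (q + 1) → ℝ | cl n B x}.indicator
      (fun x : Fin (q + 1) → ℝ => h (x 0)) (e.symm p) := hf.comp e.symm.measurable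
  rw [← hmp.lintegral_comp hf, lintegral_prod _ hf'.aemeasurable,
    ← lintegral_const_mul _ hh]
  refine setLIntegral_mono' measurableSet_Ioc fun u hu => ?_
  have h1 : ∀ v : Fin q → ℝ, {x : Fin (q + 1) → ℝ | cl n B x}.indicator
      (fun x : Fin (q + 1) → ℝ => h (x 0)) (e.symm (u, v)) ≤
      h u * (univ.pi fun _ : Fin q => {t : ℝ | cd n (n / Real.pi * (t - u)) ≤ B}).indicator
        (fun _ => (1 : ENNReal)) v := by
    intro v
    rw [hsymm]
    by_cases hc : cl n B (Fin.cons u v : Fin (q + 1) → ℝ)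
    · rw [indicator_of_mem (show (Fin.cons u v : Fin (q + 1) → ℝ) ∈ {x | cl n B x} from hc),
        indicator_of_mem, mul_one, Fin.cons_zero]
      intro i _
      have := hc i.succ
      simpa using this
    · rw [indicator_of_notMem (show (Fin.cons u v : Fin (q + 1) → ℝ) ∉ {x | cl n B x} from hc)]
      exact bot_le
  refine (lintegral_mono h1).trans ?_
  have hms : MeasurableSet (univ.pi fun _ : Fin q =>
      {t : ℝ | cd n (n / Real.pi * (t - u)) ≤ B}) :=
    MeasurableSet.univ_pi fun _ =>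
      measurableSet_le ((S5_cd_meas n).comp (by fun_prop)) measurable_const
  rw [lintegral_const_mul _ (measurable_const.indicator hms), lintegral_indicator_const hms,
    one_mul, mul_comm, Measure.pi_pi]
  refine mul_le_mul_left ?_ _
  rw [Finset.prod_const, Finset.card_univ, Fintype.card_fin]
  exact pow_le_pow_left' (S5_arc hn B hu) q

theorem S5_cl2 {q n : ℕ} (hn : 0 < n) (B : ℝ) :
    ∫⁻ x, ∫⁻ y, {x : Fin (q + 1) → ℝ | cl n B x}.indicator (fun x : Fin (q + 1) → ℝ =>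
      {y : Fin (q + 1) → ℝ | cl n B y}.indicator (fun y : Fin (q + 1) → ℝ =>
        ENNReal.ofReal (1 / √(1 + cd n (n / Real.pi * (x 0 - y 0))))) y) x
        ∂(cube (Fin (q + 1))) ∂(cube (Fin (q + 1))) ≤
      ENNReal.ofReal (6 * Real.pi * B / n) ^ q * (ENNReal.ofReal (6 * Real.pi * B / n) ^ q *
        (ENNReal.ofReal (36 * Real.pi / √n) * ENNReal.ofReal (2 * Real.pi))) := by
  have hg : Measurable fun p : ℝ × ℝ =>
      ENNReal.ofReal (1 / √(1 + cd n (n / Real.pi * (p.1 - p.2)))) := by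
    apply ENNReal.measurable_ofReal.comp
    refine measurable_const.div ?_
    exact Real.continuous_sqrt.measurable.comp
      (measurable_const.add ((S5_cd_meas n).comp (by fun_prop)))
  have h1 : ∀ x : Fin (q + 1) → ℝ,
      ∫⁻ y, {x : Fin (q + 1) → ℝ | cl n B x}.indicator (fun x : Fin (q + 1) → ℝ =>
      {y : Fin (q + 1) → ℝ | cl n B y}.indicator (fun y : Fin (q + 1) → ℝ =>
        ENNReal.ofReal (1 / √(1 + cd n (n / Real.pi * (x 0 - y 0))))) y) x
        ∂(cube (Fin (q + 1))) ≤ {x : Fin (q + 1) → ℝ | cl n B x}.indicator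
        (fun x : Fin (q + 1) → ℝ => ENNReal.ofReal (6 * Real.pi * B / n) ^ q *
          ∫⁻ u in Ioc 0 (2 * Real.pi),
            ENNReal.ofReal (1 / √(1 + cd n (n / Real.pi * (x 0 - u))))) x := by
    intro x
    by_cases hc : cl n B x
    · simp only [indicator_of_mem (show x ∈ {x : Fin (q + 1) → ℝ | cl n B x} from hc)]
      exact S5_cl hn B (fun u => ENNReal.ofReal (1 / √(1 + cd n (n / Real.pi * (x 0 - u)))))
        (hg.comp (measurable_const.prodMk measurable_id))
    · simp only [indicator_of_notMem (show x ∉ {x : Fin (q + 1) → ℝ | cl n B x} from hc)]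
      simp
  refine (lintegral_mono h1).trans ?_
  refine (S5_cl hn B (fun t => ENNReal.ofReal (6 * Real.pi * B / n) ^ q *
          ∫⁻ u in Ioc 0 (2 * Real.pi),
            ENNReal.ofReal (1 / √(1 + cd n (n / Real.pi * (t - u)))))
      ((Measurable.lintegral_prod_right' hg).const_mul _)).trans ?_
  refine mul_le_mul_right ?_ _
  rw [lintegral_const_mul _ (Measurable.lintegral_prod_right' hg)]
  refine mul_le_mul_right ?_ _
  calc ∫⁻ t in Ioc 0 (2 * Real.pi), ∫⁻ u in Ioc 0 (2 * Real.pi),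
          ENNReal.ofReal (1 / √(1 + cd n (n / Real.pi * (t - u))))
      ≤ ∫⁻ _t in Ioc 0 (2 * Real.pi), ENNReal.ofReal (36 * Real.pi / √n) :=
        setLIntegral_mono' measurableSet_Ioc fun t ht => S5_g hn ht
    _ = ENNReal.ofReal (36 * Real.pi / √n) * ENNReal.ofReal (2 * Real.pi) := by
        rw [lintegral_const, Measure.restrict_apply_univ, Real.volume_Ioc, sub_zero]

theorem S5_append (p r : ℕ) :
    MeasurePreserving (fun z : (Fin p → ℝ) × (Fin r → ℝ) => Fin.append z.1 z.2)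
      ((cube (Fin p)).prod (cube (Fin r))) (cube (Fin (p + r))) := by
  have h1 := measurePreserving_sumPiEquivProdPi_symm
    (fun _ : Fin p ⊕ Fin r => (volume.restrict (Ioc 0 (2 * Real.pi)) : Measure ℝ))
  have h2 := measurePreserving_piCongrLeft
    (fun _ : Fin (p + r) => (volume.restrict (Ioc 0 (2 * Real.pi)) : Measure ℝ)) finSumFinEquiv
  have h3 := h2.comp h1
  unfold cube
  convert h3 using 1
  funext z
  funext i
  obtain ⟨s, rfl⟩ := finSumFinEquiv.surjective i
  simp only [Function.comp_apply, MeasurableEquiv.coe_piCongrLeft]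
  rw [Equiv.piCongrLeft_apply_apply]
  rcases s with j | j
  · rw [finSumFinEquiv_apply_left, Fin.append_left]
    rfl
  · rw [finSumFinEquiv_apply_right, Fin.append_right]
    rfl

/-! ### the covariance -/

theorem S5_cov (q : ℕ) (B K : ℝ) (hB : 0 ≤ B) (hK : 0 ≤ K) : ∃ C : ℝ, 0 ≤ C ∧ ∀ n : ℕ, 0 < n →
    ∀ F : (Fin (q + 1) → ℝ) → ℝ, Measurable F → (∀ x, |F x| ≤ K) → (∀ x, F x ≠ 0 → cl n B x) →
      |∫ z, (F (fun a => z (Fin.castAdd (q + 1) a)) * F (fun a => z (Fin.natAdd (q + 1) a))) *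
          rq n z ∂(cube (Fin ((q + 1) + (q + 1)))) -
        (∫ x, F x * rq n x ∂(cube (Fin (q + 1)))) ^ 2| ≤ C * (n * √n) := by
  obtain ⟨C₁, hC₁, hfac⟩ := rt_fac q q B hB
  obtain ⟨C₀, hC₀, hbdd⟩ := rt_bdd (q + 1)
  obtain ⟨C₂, hC₂, hbdd2⟩ := rt_bdd ((q + 1) + (q + 1))
  refine ⟨K ^ 2 * C₁ * 72 * (6 * B) ^ (2 * q), by positivity, fun n hn F hF hFK hFB => ?_⟩
  have hn' : (0 : ℝ) < n := by exact_mod_cast hn
  have hpi := Real.pi_pos
  haveI := cube_fin (Fin (q + 1))
  haveI := cube_fin (Fin ((q + 1) + (q + 1)))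
  have happ : Measurable fun p : (Fin (q + 1) → ℝ) × (Fin (q + 1) → ℝ) => Fin.append p.1 p.2 :=
    (S5_append (q + 1) (q + 1)).measurable
  have hrq1 : ∀ x : Fin (q + 1) → ℝ, |rq n x| ≤ (n / Real.pi) ^ (q + 1) * C₀ := by
    intro x
    rw [rt_scale hn, abs_mul, abs_of_pos (by positivity)]
    exact mul_le_mul_of_nonneg_left (hbdd n hn _) (by positivity)
  have hrq2 : ∀ x : Fin ((q + 1) + (q + 1)) → ℝ,
      |rq n x| ≤ (n / Real.pi) ^ ((q + 1) + (q + 1)) * C₂ := by
    intro x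
    rw [rt_scale hn, abs_mul, abs_of_pos (by positivity)]
    exact mul_le_mul_of_nonneg_left (hbdd2 n hn _) (by positivity)
  -- the integral over the large cube
  have h1 : ∫ z, (F (fun a => z (Fin.castAdd (q + 1) a)) * F (fun a => z (Fin.natAdd (q + 1) a))) *
          rq n z ∂(cube (Fin ((q + 1) + (q + 1)))) =
      ∫ p : (Fin (q + 1) → ℝ) × (Fin (q + 1) → ℝ), F p.1 * F p.2 * rq n (Fin.append p.1 p.2)
        ∂((cube (Fin (q + 1))).prod (cube (Fin (q + 1)))) := by
    rw [← (S5_append (q + 1) (q + 1)).map_eq, integral_map happ.aemeasurable]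
    · refine integral_congr_ae (Filter.Eventually.of_forall fun p => ?_)
      simp only [Fin.append_left, Fin.append_right]
    · have hc1 : Measurable fun z : Fin ((q + 1) + (q + 1)) → ℝ =>
          fun a => z (Fin.castAdd (q + 1) a) :=
        measurable_pi_iff.2 fun a => measurable_pi_apply _
      have hc2 : Measurable fun z : Fin ((q + 1) + (q + 1)) → ℝ =>
          fun a => z (Fin.natAdd (q + 1) a) :=
        measurable_pi_iff.2 fun a => measurable_pi_apply _
      exact (((hF.comp hc1).mul (hF.comp hc2)).mul (rq_meas n)).aestronglyMeasurable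
  have h2 : (∫ x, F x * rq n x ∂(cube (Fin (q + 1)))) ^ 2 =
      ∫ p : (Fin (q + 1) → ℝ) × (Fin (q + 1) → ℝ), (F p.1 * rq n p.1) * (F p.2 * rq n p.2)
        ∂((cube (Fin (q + 1))).prod (cube (Fin (q + 1)))) := by
    rw [sq, ← integral_prod_mul]
  have hFp1 : Measurable fun p : (Fin (q + 1) → ℝ) × (Fin (q + 1) → ℝ) => F p.1 :=
    hF.comp measurable_fst
  have hFp2 : Measurable fun p : (Fin (q + 1) → ℝ) × (Fin (q + 1) → ℝ) => F p.2 :=
    hF.comp measurable_snd
  have hi1 : Integrable (fun p : (Fin (q + 1) → ℝ) × (Fin (q + 1) → ℝ) =>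
      F p.1 * F p.2 * rq n (Fin.append p.1 p.2))
      ((cube (Fin (q + 1))).prod (cube (Fin (q + 1)))) := by
    refine Integrable.of_bound (C := K * K * ((n / Real.pi) ^ ((q + 1) + (q + 1)) * C₂))
      ((hFp1.mul hFp2).mul ((rq_meas n).comp happ)).aestronglyMeasurable
      (Filter.Eventually.of_forall fun p => ?_)
    rw [Real.norm_eq_abs, abs_mul, abs_mul]
    exact mul_le_mul (mul_le_mul (hFK _) (hFK _) (abs_nonneg _) hK) (hrq2 _) (abs_nonneg _)
      (by positivity)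
  have hi2 : Integrable (fun p : (Fin (q + 1) → ℝ) × (Fin (q + 1) → ℝ) =>
      (F p.1 * rq n p.1) * (F p.2 * rq n p.2))
      ((cube (Fin (q + 1))).prod (cube (Fin (q + 1)))) := by
    refine Integrable.of_bound (C := (K * ((n / Real.pi) ^ (q + 1) * C₀)) *
      (K * ((n / Real.pi) ^ (q + 1) * C₀)))
      ((hFp1.mul ((rq_meas n).comp measurable_fst)).mul
        (hFp2.mul ((rq_meas n).comp measurable_snd))).aestronglyMeasurable
      (Filter.Eventually.of_forall fun p => ?_)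
    rw [Real.norm_eq_abs, abs_mul, abs_mul, abs_mul]
    exact mul_le_mul (mul_le_mul (hFK _) (hrq1 _) (abs_nonneg _) hK)
      (mul_le_mul (hFK _) (hrq1 _) (abs_nonneg _) hK) (by positivity) (by positivity)
  rw [h1, h2, ← integral_sub hi1 hi2, ← Real.norm_eq_abs]
  refine (norm_integral_le_lintegral_norm _).trans ?_
  set A : ℝ := K ^ 2 * (n / Real.pi) ^ ((q + 1) + (q + 1)) * C₁ with hA
  have hA0 : 0 ≤ A := by positivity
  have hmain : ∀ p : (Fin (q + 1) → ℝ) × (Fin (q + 1) → ℝ),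
      ENNReal.ofReal ‖F p.1 * F p.2 * rq n (Fin.append p.1 p.2) -
        (F p.1 * rq n p.1) * (F p.2 * rq n p.2)‖ ≤
      ENNReal.ofReal A * {x : Fin (q + 1) → ℝ | cl n B x}.indicator (fun x : Fin (q + 1) → ℝ =>
      {y : Fin (q + 1) → ℝ | cl n B y}.indicator (fun y : Fin (q + 1) → ℝ =>
        ENNReal.ofReal (1 / √(1 + cd n (n / Real.pi * (x 0 - y 0))))) p.2) p.1 := by
    rintro ⟨x, y⟩
    dsimp only
    by_cases hx : F x = 0
    · rw [hx]; simp
    by_cases hy : F y = 0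
    · rw [hy]; simp
    have hcx := hFB x hx
    have hcy := hFB y hy
    rw [indicator_of_mem (show x ∈ {x : Fin (q + 1) → ℝ | cl n B x} from hcx),
      indicator_of_mem (show y ∈ {x : Fin (q + 1) → ℝ | cl n B x} from hcy),
      ← ENNReal.ofReal_mul hA0]
    apply ENNReal.ofReal_le_ofReal
    have h3 : F x * F y * rq n (Fin.append x y) - (F x * rq n x) * (F y * rq n y) =
        F x * F y * ((n / Real.pi) ^ ((q + 1) + (q + 1)) *
          (rt n (Fin.append (fun a => n / Real.pi * x a) (fun a => n / Real.pi * y a)) -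
            rt n (fun a => n / Real.pi * x a) * rt n (fun a => n / Real.pi * y a))) := by
      rw [rt_scale hn (Fin.append x y), rt_scale hn x, rt_scale hn y]
      have h4 : (fun a => n / Real.pi * Fin.append x y a) =
          Fin.append (fun a => n / Real.pi * x a) (fun a => n / Real.pi * y a) := by
        funext a
        refine Fin.addCases (fun i => ?_) (fun i => ?_) a
        · rw [Fin.append_left, Fin.append_left]
        · rw [Fin.append_right, Fin.append_right]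
      rw [h4, pow_add]
      ring
    rw [h3, Real.norm_eq_abs, abs_mul, abs_mul, abs_mul,
      abs_of_pos (by positivity : (0 : ℝ) < (n / Real.pi) ^ ((q + 1) + (q + 1)))]
    have h5 := hfac n hn (fun a => n / Real.pi * x a) (fun a => n / Real.pi * y a)
      (fun i => by
        have := hcx i
        rwa [mul_sub] at this) (fun i => by
        have := hcy i
        rwa [mul_sub] at this)
    rw [← mul_sub] at h5
    calc |F x| * |F y| * ((n / Real.pi) ^ ((q + 1) + (q + 1)) * |_|)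
        ≤ K * K * ((n / Real.pi) ^ ((q + 1) + (q + 1)) *
          (C₁ / √(1 + cd n (n / Real.pi * (x 0 - y 0))))) := by
          refine mul_le_mul (mul_le_mul (hFK _) (hFK _) (abs_nonneg _) hK)
            (mul_le_mul_of_nonneg_left h5 (by positivity)) (by positivity) (by positivity)
      _ = A * (1 / √(1 + cd n (n / Real.pi * (x 0 - y 0)))) := by
          rw [hA]
          ring
  have hlint : ∫⁻ p : (Fin (q + 1) → ℝ) × (Fin (q + 1) → ℝ),
      ENNReal.ofReal ‖F p.1 * F p.2 * rq n (Fin.append p.1 p.2) -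
        (F p.1 * rq n p.1) * (F p.2 * rq n p.2)‖ ∂((cube (Fin (q + 1))).prod (cube (Fin (q + 1)))) ≤
      ENNReal.ofReal (A * ((6 * Real.pi * B / n) ^ q * ((6 * Real.pi * B / n) ^ q *
        (36 * Real.pi / √n * (2 * Real.pi))))) := by
    refine (lintegral_mono hmain).trans ?_
    have hgm : Measurable fun p : (Fin (q + 1) → ℝ) × (Fin (q + 1) → ℝ) =>
        {x : Fin (q + 1) → ℝ | cl n B x}.indicator (fun x : Fin (q + 1) → ℝ =>
      {y : Fin (q + 1) → ℝ | cl n B y}.indicator (fun y : Fin (q + 1) → ℝ =>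
        ENNReal.ofReal (1 / √(1 + cd n (n / Real.pi * (x 0 - y 0))))) p.2) p.1 := by
      have h6 : (fun p : (Fin (q + 1) → ℝ) × (Fin (q + 1) → ℝ) =>
        {x : Fin (q + 1) → ℝ | cl n B x}.indicator (fun x : Fin (q + 1) → ℝ =>
      {y : Fin (q + 1) → ℝ | cl n B y}.indicator (fun y : Fin (q + 1) → ℝ =>
        ENNReal.ofReal (1 / √(1 + cd n (n / Real.pi * (x 0 - y 0))))) p.2) p.1) =
        (Prod.fst ⁻¹' {x : Fin (q + 1) → ℝ | cl n B x} ∩
          Prod.snd ⁻¹' {x : Fin (q + 1) → ℝ | cl n B x}).indicator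
          (fun p : (Fin (q + 1) → ℝ) × (Fin (q + 1) → ℝ) =>
            ENNReal.ofReal (1 / √(1 + cd n (n / Real.pi * (p.1 0 - p.2 0))))) := by
        funext p
        by_cases ha : cl n B p.1 <;> by_cases hb : cl n B p.2 <;>
          simp [Set.indicator, ha, hb]
      rw [h6]
      refine Measurable.indicator ?_ ((measurable_fst (S5_cl_meas n B)).inter
        (measurable_snd (S5_cl_meas n B)))
      apply ENNReal.measurable_ofReal.comp
      refine measurable_const.div ?_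
      exact Real.continuous_sqrt.measurable.comp
        (measurable_const.add ((S5_cd_meas n).comp (by fun_prop)))
    rw [lintegral_const_mul _ hgm, ENNReal.ofReal_mul hA0, lintegral_prod _ hgm.aemeasurable]
    refine mul_le_mul_right ((S5_cl2 hn B).trans (le_of_eq ?_)) _
    rw [ENNReal.ofReal_mul (p := (6 * Real.pi * B / n) ^ q) (by positivity),
      ENNReal.ofReal_mul (p := (6 * Real.pi * B / n) ^ q) (by positivity),
      ENNReal.ofReal_mul (p := 36 * Real.pi / √(n : ℝ)) (by positivity),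
      ENNReal.ofReal_pow (by positivity)]
  refine (ENNReal.toReal_mono ENNReal.ofReal_ne_top hlint).trans ?_
  rw [ENNReal.toReal_ofReal (by positivity)]
  apply le_of_eq
  rw [hA]
  have hs : 0 < √(n : ℝ) := Real.sqrt_pos.2 hn'
  have h7 : (n : ℝ) = √n * √n := (Real.mul_self_sqrt hn'.le).symm
  have h8 : (n / Real.pi) ^ ((q + 1) + (q + 1)) * ((6 * Real.pi * B / n) ^ q *
      (6 * Real.pi * B / n) ^ q) = (6 * B) ^ (2 * q) * (n / Real.pi) ^ 2 := by
    have h9 : (n : ℝ) / Real.pi * (6 * Real.pi * B / n) = 6 * B := by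
      field_simp
    calc (n / Real.pi) ^ ((q + 1) + (q + 1)) * ((6 * Real.pi * B / n) ^ q *
      (6 * Real.pi * B / n) ^ q)
        = ((n : ℝ) / Real.pi * (6 * Real.pi * B / n)) ^ (2 * q) * (n / Real.pi) ^ 2 := by
          rw [mul_pow]
          ring
      _ = _ := by rw [h9]
  have h10 : ((n : ℝ) / Real.pi) ^ 2 * (36 * Real.pi / √n * (2 * Real.pi)) = 72 * (n * √n) := by
    have h11 : (n : ℝ) ^ 2 / √n = n * √n := by
      rw [div_eq_iff hs.ne', mul_assoc, ← h7, sq]
    calc ((n : ℝ) / Real.pi) ^ 2 * (36 * Real.pi / √n * (2 * Real.pi))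
        = 72 * ((n : ℝ) ^ 2 / √n) := by
          field_simp
          ring
      _ = _ := by rw [h11]
  calc K ^ 2 * (n / Real.pi) ^ ((q + 1) + (q + 1)) * C₁ * ((6 * Real.pi * B / n) ^ q *
        ((6 * Real.pi * B / n) ^ q * (36 * Real.pi / √n * (2 * Real.pi))))
      = K ^ 2 * C₁ * (((n / Real.pi) ^ ((q + 1) + (q + 1)) * ((6 * Real.pi * B / n) ^ q *
      (6 * Real.pi * B / n) ^ q)) * (36 * Real.pi / √n * (2 * Real.pi))) := by ring
    _ = K ^ 2 * C₁ * ((6 * B) ^ (2 * q) * ((n / Real.pi) ^ 2 *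
          (36 * Real.pi / √n * (2 * Real.pi)))) := by
        rw [h8]
        ring
    _ = K ^ 2 * C₁ * 72 * (6 * B) ^ (2 * q) * (n * √n) := by
        rw [h10]
        ring

/-! ### the main estimate -/

theorem S5_BMF {q N : ℕ} {K : ℝ} (F : (Fin q → ℝ) → ℝ) (hF : Measurable F)
    (hK : ∀ x, |F x| ≤ K) : BM fun θ : Fin N → ℝ => ∑ e : Fin q ↪ Fin N, F fun a => θ (e a) := by
  apply BM.sum
  intro e _
  exact ⟨hF.comp (measurable_pi_iff.2 fun a => measurable_pi_apply _), K, fun θ => hK _⟩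

theorem S5_EW {q : ℕ} (n : ℕ) (F : (Fin q → ℝ) → ℝ) (hF : Measurable F) (K : ℝ)
    (hK : ∀ x, |F x| ≤ K) : EW n (fun θ => ∑ e : Fin q ↪ Fin (n * 2), F fun a => θ (e a)) =
      ∫ x, F x * rq n x ∂(cube (Fin q)) := by
  unfold EW
  rw [dens_int n F hF K hK, mul_comm, mul_div_assoc, div_self (wt_int_pos _).ne', mul_one]

theorem S5_var (q : ℕ) (B K : ℝ) (hB : 0 ≤ B) (hK : 0 ≤ K) : ∃ C : ℝ, 1 ≤ C ∧ ∀ n : ℕ, 0 < n →
    ∀ F : (Fin (q + 1) → ℝ) → ℝ, Measurable F → (∀ x, |F x| ≤ K) → (∀ x, F x ≠ 0 → cl n B x) →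
      EW n (fun θ => ((∑ e : Fin (q + 1) ↪ Fin (n * 2), F fun a => θ (e a)) -
        ∫ x, F x * rq n x ∂(cube (Fin (q + 1)))) ^ 2) ≤ C * (n * √n) := by
  obtain ⟨C₁, hC₁, hcov⟩ := S5_cov q B K hB hK
  obtain ⟨C₂, hC₂, hmom⟩ := clus_mom (2 * q) (3 * B) (by positivity)
  refine ⟨C₁ + K ^ 2 * (q + 1) ^ 2 * C₂ + 1, by
    have : 0 ≤ K ^ 2 * ((q : ℝ) + 1) ^ 2 * C₂ := by positivity
    linarith, fun n hn F hF hFK hFB => ?_⟩
  have hn' : (0 : ℝ) < n := by exact_mod_cast hn
  have hn1 : (1 : ℝ) ≤ n := by exact_mod_cast hn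
  have hs1 : 1 ≤ √(n : ℝ) := Real.one_le_sqrt.2 hn1
  set S : (Fin (n * 2) → ℝ) → ℝ := fun θ => ∑ e : Fin (q + 1) ↪ Fin (n * 2), F fun a => θ (e a)
    with hS
  set m : ℝ := ∫ x, F x * rq n x ∂(cube (Fin (q + 1))) with hm
  set G : (Fin ((q + 1) + (q + 1)) → ℝ) → ℝ := fun z =>
    F (fun a => z (Fin.castAdd (q + 1) a)) * F (fun a => z (Fin.natAdd (q + 1) a)) with hG
  have hGm : Measurable G := by
    have hc1 : Measurable fun z : Fin ((q + 1) + (q + 1)) → ℝ =>
        fun a => z (Fin.castAdd (q + 1) a) :=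
      measurable_pi_iff.2 fun a => measurable_pi_apply _
    have hc2 : Measurable fun z : Fin ((q + 1) + (q + 1)) → ℝ =>
        fun a => z (Fin.natAdd (q + 1) a) :=
      measurable_pi_iff.2 fun a => measurable_pi_apply _
    exact (hF.comp hc1).mul (hF.comp hc2)
  have hGK : ∀ z, |G z| ≤ K * K := by
    intro z
    rw [hG, abs_mul]
    exact mul_le_mul (hFK _) (hFK _) (abs_nonneg _) hK
  have hSB : BM S := S5_BMF F hF hFK
  set T : (Fin (n * 2) → ℝ) → ℝ := fun θ => ∑ e : Fin ((q + 1) + (q + 1)) ↪ Fin (n * 2),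
    G fun a => θ (e a) with hT
  have hTB : BM T := S5_BMF G hGm hGK
  set R : (Fin (n * 2) → ℝ) → ℝ := fun θ => ∑ a, (na (3 * B) θ n a : ℝ) ^ (2 * q) with hR
  have hRB : BM R := by
    apply BM.sum
    intro a _
    refine ⟨(S5_na_meas (3 * B) n a).pow_const _, ((n * 2 : ℕ) : ℝ) ^ (2 * q), fun θ => ?_⟩
    rw [abs_of_nonneg (by positivity)]
    exact pow_le_pow_left₀ (by positivity) (S5_na_le _ _ _ _) _
  have hES : EW n S = m := S5_EW n F hF K hFK
  have hET : EW n T = ∫ z, G z * rq n z ∂(cube (Fin ((q + 1) + (q + 1)))) :=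
    S5_EW n G hGm (K * K) hGK
  have h1 : EW n (fun θ => S θ * S θ) ≤ EW n T + K ^ 2 * (q + 1) ^ 2 * EW n R := by
    rw [← EW_smul, ← EW_add hTB (hRB.smul _)]
    refine EW_mono (hSB.mul hSB) (hTB.add (hRB.smul _)) fun θ => ?_
    have := pair_split (N := n * 2) B K hB F hFK hFB θ
    rw [abs_le] at this
    have h2 := this.2
    rw [← sq]
    change S θ ^ 2 - T θ ≤ _ at h2
    have h3 : K ^ 2 * ((q : ℝ) + 1) ^ 2 * ∑ a, (na (3 * B) θ n a : ℝ) ^ (2 * q)
      = K ^ 2 * (q + 1) ^ 2 * R θ := rfl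
    linarith
  have h2 : EW n (fun θ => (S θ - m) ^ 2) = EW n (fun θ => S θ * S θ) - m ^ 2 := by
    have h3 : (fun θ => (S θ - m) ^ 2) = fun θ => S θ * S θ + ((-2 * m) * S θ + m ^ 2) := by
      funext θ
      ring
    rw [h3, EW_add (hSB.mul hSB) ((hSB.smul _).add (BM.const _)),
      EW_add (hSB.smul _) (BM.const _), EW_smul, EW_const, hES]
    ring
  have h3 := hcov n hn F hF hFK hFB
  rw [abs_le] at h3
  have h4 : EW n T - m ^ 2 ≤ C₁ * (n * √n) := by
    rw [hET]
    exact h3.2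
  have h5 : EW n R ≤ C₂ * n := hmom n hn
  have h6 : (n : ℝ) ≤ n * √n := by nlinarith
  change EW n (fun θ => (S θ - m) ^ 2) ≤ _
  rw [h2]
  have h7 : K ^ 2 * ((q : ℝ) + 1) ^ 2 * EW n R ≤ K ^ 2 * (q + 1) ^ 2 * C₂ * (n * √n) := by
    calc K ^ 2 * ((q : ℝ) + 1) ^ 2 * EW n R ≤ K ^ 2 * (q + 1) ^ 2 * (C₂ * n) :=
          mul_le_mul_of_nonneg_left h5 (by positivity)
      _ = K ^ 2 * (q + 1) ^ 2 * C₂ * n := by ring
      _ ≤ _ := mul_le_mul_of_nonneg_left h6 (by positivity)
  nlinarith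

theorem sa_F (q : ℕ) (B K : ℝ) (hB : 0 ≤ B) (hK : 0 ≤ K) : ∃ C : ℝ, 0 ≤ C ∧ ∀ n : ℕ, 0 < n →
    ∀ F : (Fin (q + 1) → ℝ) → ℝ, Measurable F → (∀ x, |F x| ≤ K) → (∀ x, F x ≠ 0 → cl n B x) →
      EW n (fun θ => |1 / (n * 2 : ℝ) * ∑ e : Fin (q + 1) ↪ Fin (n * 2), F (fun a => θ (e a)) -
        1 / (n * 2 : ℝ) * ∫ x, F x * rq n x ∂(cube (Fin (q + 1)))|) ≤
        C * (n : ℝ) ^ (-(1 / 4) : ℝ) := by
  obtain ⟨C, hC, hvar⟩ := S5_var q B K hB hK
  refine ⟨√C, Real.sqrt_nonneg _, fun n hn F hF hFK hFB => ?_⟩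
  have hn' : (0 : ℝ) < n := by exact_mod_cast hn
  have hC0 : 0 < C := by linarith
  have hv := hvar n hn F hF hFK hFB
  set S : (Fin (n * 2) → ℝ) → ℝ := fun θ => ∑ e : Fin (q + 1) ↪ Fin (n * 2), F fun a => θ (e a)
    with hS
  set m : ℝ := ∫ x, F x * rq n x ∂(cube (Fin (q + 1))) with hm
  have hSB : BM S := S5_BMF F hF hFK
  have hDB : BM fun θ => S θ - m := by
    have := hSB.add (BM.const (N := n * 2) (-m))
    simpa [sub_eq_add_neg] using this
  have hDB2 : BM fun θ => (S θ - m) ^ 2 := by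
    have := hDB.mul hDB
    simpa [sq] using this
  set V : ℝ := C * (n * √n) with hV
  have hV0 : 0 < V := by
    have : 0 < √(n : ℝ) := Real.sqrt_pos.2 hn'
    positivity
  set l : ℝ := √V with hl
  have hl0 : 0 < l := Real.sqrt_pos.2 hV0
  have hlV : l * l = V := Real.mul_self_sqrt hV0.le
  -- Cauchy-Schwarz
  have h1 : EW n (fun θ => |S θ - m|) ≤ l := by
    have h2 : EW n (fun θ => |S θ - m|) ≤
        EW n (fun θ => 1 / (2 * l) * (S θ - m) ^ 2 + l / 2) := by
      refine EW_mono hDB.abs ((hDB2.smul _).add (BM.const _)) fun θ => ?_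
      have h3 : 0 ≤ (|S θ - m| - l) ^ 2 := sq_nonneg _
      have h4 : |S θ - m| ^ 2 = (S θ - m) ^ 2 := sq_abs _
      have h5 : 2 * l * |S θ - m| ≤ (S θ - m) ^ 2 + l * l := by nlinarith
      have h6 : 1 / (2 * l) * (S θ - m) ^ 2 + l / 2 = ((S θ - m) ^ 2 + l * l) / (2 * l) := by
        field_simp
      rw [h6, le_div_iff₀ (by positivity)]
      linarith
    rw [EW_add (hDB2.smul _) (BM.const _), EW_smul, EW_const] at h2
    refine h2.trans ?_
    have h7 : 1 / (2 * l) * EW n (fun θ => (S θ - m) ^ 2) ≤ 1 / (2 * l) * (l * l) := by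
      rw [hlV]
      exact mul_le_mul_of_nonneg_left hv (by positivity)
    have h8 : 1 / (2 * l) * (l * l) = l / 2 := by
      field_simp
    linarith
  have h9 : EW n (fun θ => |1 / (n * 2 : ℝ) * S θ - 1 / (n * 2 : ℝ) * m|)
      = 1 / (n * 2 : ℝ) * EW n (fun θ => |S θ - m|) := by
    rw [← EW_smul]
    congr 1
    funext θ
    rw [← mul_sub, abs_mul, abs_of_pos (by positivity)]
  change EW n (fun θ => |1 / (n * 2 : ℝ) * S θ - 1 / (n * 2 : ℝ) * m|) ≤ _
  rw [h9]
  have h10 : l = √C * (n : ℝ) ^ (3 / 4 : ℝ) := by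
    rw [hl, hV, Real.sqrt_mul hC0.le]
    congr 1
    rw [Real.sqrt_eq_rpow, Real.sqrt_eq_rpow]
    nth_rewrite 1 [← Real.rpow_one (n : ℝ)]
    rw [← Real.rpow_add hn', ← Real.rpow_mul hn'.le]
    norm_num
  have h11 : (n : ℝ) ^ (-(1 / 4) : ℝ) = (n : ℝ) ^ (3 / 4 : ℝ) / n := by
    rw [eq_div_iff hn'.ne']
    nth_rewrite 2 [← Real.rpow_one (n : ℝ)]
    rw [← Real.rpow_add hn']
    norm_num
  calc 1 / (n * 2 : ℝ) * EW n (fun θ => |S θ - m|) ≤ 1 / (n * 2 : ℝ) * l :=
        mul_le_mul_of_nonneg_left h1 (by positivity)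
    _ = (√C * (n : ℝ) ^ (-(1 / 4) : ℝ)) / 2 := by
        rw [h10, h11]
        field_simp
    _ ≤ √C * (n : ℝ) ^ (-(1 / 4) : ℝ) := by
        have : 0 ≤ √C * (n : ℝ) ^ (-(1 / 4) : ℝ) := by positivity
        linarith

end Ty
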