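import Pool.Agent.LibTy70.T02

/-! Row T04: symmetric unitary matrices have real orthogonal diagonalisations. Plan: `W = X + iY`, `X = Re W`,
`Y = Im W` real symmetric; `W W^* = 1` gives `XY = YX` (imaginary part) . Commuting symmetric operators on
`EuclideanSpace ℝ (Fin N)` have a joint orthonormal eigenbasis
(`LinearMap.IsSymmetric.directSum_isInternal_of_pairwise_commute` or
`LinearMap.IsSymmetric.directSum_isInternal_of_commute`, `orthogonalFamily_eigenspace_inf_eigenspace`,
`DirectSum.IsInternal.subordinateOrthonormalBasis`). The rows of `R` are the basis vectors; the eigenvalues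
`x_a + i y_a` of `W` have norm one, so they are `ee (φ a)`. -/

open MeasureTheory Set Filter Topology

namespace Ty

open QGr

open Matrix in
theorem t04_joint {N : ℕ} (X Y : Matrix (Fin N) (Fin N) ℝ) (hX : X.IsHermitian)
    (hY : Y.IsHermitian) (hXY : X * Y = Y * X) :
    ∃ (b : OrthonormalBasis (Fin N) ℝ (EuclideanSpace ℝ (Fin N))) (x y : Fin N → ℝ), ∀ a,
      X *ᵥ (b a).ofLp = x a • (b a).ofLp ∧ Y *ᵥ (b a).ofLp = y a • (b a).ofLp := by
  classical
  have hA : (Matrix.toEuclideanLin X).IsSymmetric := Matrix.isSymmetric_toEuclideanLin_iff.2 hX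
  have hB : (Matrix.toEuclideanLin Y).IsSymmetric := Matrix.isSymmetric_toEuclideanLin_iff.2 hY
  have hc : Commute (Matrix.toEuclideanLin X) (Matrix.toEuclideanLin Y) := by
    refine LinearMap.ext fun v => ?_
    change Matrix.toEuclideanLin X (Matrix.toEuclideanLin Y v) =
      Matrix.toEuclideanLin Y (Matrix.toEuclideanLin X v)
    rw [Matrix.toEuclideanLin_apply, Matrix.toEuclideanLin_apply, Matrix.toEuclideanLin_apply,
      Matrix.toEuclideanLin_apply]
    congr 1
    rw [Matrix.mulVec_mulVec, Matrix.mulVec_mulVec, hXY]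
  have hI := LinearMap.IsSymmetric.directSum_isInternal_of_commute hA hB hc
  have hO := LinearMap.IsSymmetric.orthogonalFamily_eigenspace_inf_eigenspace hA hB
  set Vs : ℝ × ℝ → Submodule ℝ (EuclideanSpace ℝ (Fin N)) := fun i =>
    Module.End.eigenspace (Matrix.toEuclideanLin X) i.2 ⊓
      Module.End.eigenspace (Matrix.toEuclideanLin Y) i.1 with hVs
  have hfin : {i | Vs i ≠ ⊥}.Finite :=
    WellFoundedGT.finite_ne_bot_of_iSupIndep hI.submodule_iSupIndep
  have hI2 := DirectSum.isInternal_ne_bot_iff.2 hI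
  have : Fintype {i // Vs i ≠ ⊥} := hfin.fintype
  have hO2 : OrthogonalFamily ℝ (fun i : {i // Vs i ≠ ⊥} => Vs i.1)
      fun i => (Vs i.1).subtypeₗᵢ := by
    intro i j hij
    exact hO (fun h => hij (Subtype.ext h))
  have hn : Module.finrank ℝ (EuclideanSpace ℝ (Fin N)) = N := by simp
  refine ⟨hI2.subordinateOrthonormalBasis hn hO2,
    fun a => (hI2.subordinateOrthonormalBasisIndex hn a hO2).1.2,
    fun a => (hI2.subordinateOrthonormalBasisIndex hn a hO2).1.1, fun a => ?_⟩
  have h := hI2.subordinateOrthonormalBasis_subordinate hn a hO2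
  have h1 := Module.End.mem_eigenspace_iff.1 h.1
  have h2 := Module.End.mem_eigenspace_iff.1 h.2
  refine ⟨?_, ?_⟩
  · have := congrArg WithLp.ofLp h1
    simpa [Matrix.toEuclideanLin_apply] using this
  · have := congrArg WithLp.ofLp h2
    simpa [Matrix.toEuclideanLin_apply] using this

theorem t04_circle (z : ℂ) (hz : ‖z‖ = 1) : ∃ t : UnitAddCircle, ee t = z := by
  refine ⟨((Complex.arg z / (2 * Real.pi) : ℝ) : UnitAddCircle), ?_⟩
  unfold ee
  rw [AddCircle.toCircle_apply_mk, Circle.coe_exp]
  have h1 : (2 * Real.pi / 1 * (Complex.arg z / (2 * Real.pi)) : ℝ) = Complex.arg z := by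
    have := Real.pi_pos
    field_simp
  rw [h1]
  have h2 := Complex.norm_mul_exp_arg_mul_I z
  rw [hz, Complex.ofReal_one, one_mul] at h2
  exact h2

theorem sym_diag {N : ℕ} (W : Uni N) (hW : Sym W) :
    ∃ (R : Orth N) (φ : Tor N), W = (cx R)⁻¹ * dg φ * cx R := by
  classical
  have hs : ∀ i j, W.1 j i = W.1 i j := fun i j => congrFun (congrFun hW i) j
  set X : Matrix (Fin N) (Fin N) ℝ := Matrix.of fun i j => (W.1 i j).re with hXd
  set Y : Matrix (Fin N) (Fin N) ℝ := Matrix.of fun i j => (W.1 i j).im with hYd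
  have hX : X.IsHermitian := by
    ext i j
    simp [hXd, Matrix.conjTranspose_apply, hs i j]
  have hY : Y.IsHermitian := by
    ext i j
    simp [hYd, Matrix.conjTranspose_apply, hs i j]
  have hmul : ∀ i k, ∑ j, W.1 i j * (starRingEnd ℂ) (W.1 j k) = if i = k then 1 else 0 := by
    intro i k
    have h := W.2
    rw [Matrix.mem_unitaryGroup_iff] at h
    have h2 := congrFun (congrFun h i) k
    rw [Matrix.mul_apply, Matrix.one_apply] at h2
    rw [← h2]
    refine Finset.sum_congr rfl fun j _ => ?_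
    rw [Matrix.star_apply, hs k j]
    rfl
  have hXY : X * Y = Y * X := by
    ext i k
    rw [Matrix.mul_apply, Matrix.mul_apply]
    have h := congrArg Complex.im (hmul i k)
    have h0 : (if i = k then (1 : ℂ) else 0).im = 0 := by split_ifs <;> simp
    rw [h0, Complex.im_sum] at h
    have h3 : ∑ j, (W.1 i j * (starRingEnd ℂ) (W.1 j k)).im =
        ∑ j, Y i j * X j k - ∑ j, X i j * Y j k := by
      rw [← Finset.sum_sub_distrib]
      refine Finset.sum_congr rfl fun j _ => ?_
      simp only [Complex.mul_im, Complex.conj_re, Complex.conj_im, hXd, hYd, Matrix.of_apply]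
      ring
    rw [h3] at h
    linarith
  have hre : X * X + Y * Y = 1 := by
    ext i k
    rw [Matrix.add_apply, Matrix.mul_apply, Matrix.mul_apply, Matrix.one_apply]
    have h := congrArg Complex.re (hmul i k)
    have h0 : (if i = k then (1 : ℂ) else 0).re = if i = k then 1 else 0 := by
      split_ifs <;> simp
    rw [h0, Complex.re_sum] at h
    rw [← h, ← Finset.sum_add_distrib]
    refine Finset.sum_congr rfl fun j _ => ?_
    simp only [Complex.mul_re, Complex.conj_re, Complex.conj_im, hXd, hYd, Matrix.of_apply]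
    ring
  obtain ⟨b, x, y, hb⟩ := t04_joint X Y hX hY hXY
  have hR : (Matrix.of fun a i => (b a).ofLp i : Matrix (Fin N) (Fin N) ℝ) ∈
      Matrix.orthogonalGroup (Fin N) ℝ := by
    rw [Matrix.mem_orthogonalGroup_iff]
    ext a c
    rw [Matrix.mul_apply, Matrix.one_apply]
    have h := orthonormal_iff_ite.1 b.orthonormal a c
    rw [← h, PiLp.inner_apply]
    refine Finset.sum_congr rfl fun i _ => ?_
    simp [Matrix.star_apply, mul_comm]
  have hnorm : ∀ a, ‖(⟨x a, y a⟩ : ℂ)‖ = 1 := by
    intro a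
    have hne : (b a).ofLp ≠ 0 := by
      intro h0
      have h1 := b.orthonormal.1 a
      have h2 : b a = 0 := by
        apply WithLp.ofLp_injective
        rw [h0]; rfl
      rw [h2, norm_zero] at h1
      exact zero_ne_one h1
    have h1 := congrArg (fun M => M.mulVec (b a).ofLp) hre
    simp only [Matrix.add_mulVec, Matrix.one_mulVec] at h1
    rw [← Matrix.mulVec_mulVec, ← Matrix.mulVec_mulVec, (hb a).1, (hb a).2,
      Matrix.mulVec_smul, Matrix.mulVec_smul, (hb a).1, (hb a).2, smul_smul, smul_smul,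
      ← add_smul] at h1
    have h2 : (x a * x a + y a * y a - 1) • (b a).ofLp = 0 := by
      rw [sub_smul, h1, one_smul, sub_self]
    rcases smul_eq_zero.1 h2 with h3 | h3
    · have h4 : ‖(⟨x a, y a⟩ : ℂ)‖ ^ 2 = 1 := by
        rw [← Complex.normSq_eq_norm_sq, Complex.normSq_mk]
        linarith
      have h5 := norm_nonneg (⟨x a, y a⟩ : ℂ)
      nlinarith
    · exact absurd h3 hne
  choose φ hφ using fun a => t04_circle _ (hnorm a)
  refine ⟨⟨_, hR⟩, φ, ?_⟩
  have key : cx ⟨_, hR⟩ * W = dg φ * cx ⟨_, hR⟩ := by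
    apply Subtype.ext
    change (cx ⟨_, hR⟩).1 * W.1 = (dg φ).1 * (cx ⟨_, hR⟩).1
    ext a i
    rw [dg_val, Matrix.diagonal_mul, Matrix.mul_apply, hφ]
    simp only [cx_apply, Matrix.of_apply]
    have h1 := congrFun (hb a).1 i
    have h2 := congrFun (hb a).2 i
    simp only [Matrix.mulVec, dotProduct, Pi.smul_apply, smul_eq_mul, hXd, hYd,
      Matrix.of_apply] at h1 h2
    apply Complex.ext
    · rw [Complex.re_sum]
      simp only [Complex.mul_re, Complex.ofReal_re, Complex.ofReal_im, zero_mul, mul_zero,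
        sub_zero]
      rw [← h1]
      refine Finset.sum_congr rfl fun j _ => ?_
      rw [hs i j]; ring
    · rw [Complex.im_sum]
      simp only [Complex.mul_im, Complex.ofReal_re, Complex.ofReal_im, zero_mul, mul_zero,
        zero_add, add_zero]
      rw [← h2]
      refine Finset.sum_congr rfl fun j _ => ?_
      rw [hs i j]; ring
  rw [mul_assoc, ← key, inv_mul_cancel_left]

/-- Square roots. -/
theorem sym_sqrt {N : ℕ} (W : Uni N) (hW : Sym W) : ∃ Z : Uni N, Sym Z ∧ Z * Z = W := by
  obtain ⟨R, φ, h⟩ := sym_diag W hW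
  have hhalf : ∀ t : UnitAddCircle, ∃ s : UnitAddCircle, s + s = t := by
    intro t
    induction t using QuotientAddGroup.induction_on with
    | H x =>
      refine ⟨((x / 2 : ℝ) : UnitAddCircle), ?_⟩
      rw [← AddCircle.coe_add, add_halves]
  choose ψ hψ using fun a => hhalf (φ a)
  refine ⟨(cx R)⁻¹ * dg ψ * cx R, sym_cx R _ (sym_dg ψ), ?_⟩
  have h2 : dg ψ * dg ψ = dg φ := by
    have h3 := dg_pow ψ 2
    rw [pow_two] at h3
    rw [h3]
    congr 1
    funext a
    rw [Pi.smul_apply, two_nsmul, hψ]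
  calc (cx R)⁻¹ * dg ψ * cx R * ((cx R)⁻¹ * dg ψ * cx R)
      = (cx R)⁻¹ * (dg ψ * dg ψ) * cx R := by group
    _ = W := by rw [h2, h]

end Ty
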