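import Pool.Agent.LibTy70.T02

/-! Row T06: moments of the traces. Plan: with `z_i = ee (t i)`,
`tr (dg t X dg t)^k = tr (dg t dg t X)^k = ∑_{w : Fin k → Fin N} X_w ∏_l z_{w l}^2`, `X_w = ∏_l X (w l) (w (l+1))` (cyclic),
`f = ∑_α a_α z^{2α}`, `a_α` = sum of the `X_w` over the words `w` with letter counts `α`. Orthogonality of characters:
`E |f|^2 = ∑_α |a_α|^2`. The coefficient of `z^{2α}` in the diagonal entry `i` is the sum over the words with `w 0 = i`,
which is `(α_i / k) a_α`: rotating a word changes neither `X_w` nor `α`, sum over all rotations. Hence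
`k^2 E ∑_i |(..)^k_ii|^2 = ∑_α |a_α|^2 ∑_i α_i^2 ≥ ∑_α |a_α|^2 ∑_i α_i = k E |f|^2`, and
`∑_i |U_ii|^2 ≤ N` for a unitary matrix. (Alternative without words: f is a trigonometric polynomial
in t, homogeneous of degree 2k; `∂_i f = 2πi · 2k · (..)_ii` ; Parseval on the torus.) -/

open MeasureTheory Set Filter Topology

namespace Ty

open QGr

theorem t06_ee_cont : Continuous ee := by
  unfold ee
  exact continuous_subtype_val.comp AddCircle.continuous_toCircle

theorem t06_ee_pow (x : UnitAddCircle) (a : ℕ) : (ee x ^ 2) ^ a = fourier (2 * a : ℤ) x := by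
  rw [ee, fourier_apply, ← pow_mul, ← Circle.coe_pow]
  congr 1
  rw [show ((2 * a : ℤ) • x) = (2 * a : ℕ) • x by rw [← natCast_zsmul]; push_cast; rfl]
  rw [AddCircle.toCircle_nsmul]

theorem t06_int1 (a b : ℕ) :
    ∫ x : UnitAddCircle, (ee x ^ 2) ^ a * (starRingEnd ℂ) ((ee x ^ 2) ^ b) = if a = b then 1 else 0 := by
  have h := congrFun (fourierCoeff_fourier (T := 1) (2 * a : ℤ)) (2 * b : ℤ)
  rw [fourierCoeff, AddCircle.integral_haarAddCircle] at h
  simp only [inv_one, one_smul, smul_eq_mul, Pi.single_apply] at h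
  have h2 : ((2 * b : ℤ) = 2 * a) = (a = b) := by
    apply propext
    constructor <;> intro h' <;> omega
  simp only [h2] at h
  rw [← h]
  refine integral_congr_ae (Eventually.of_forall fun x => ?_)
  show (ee x ^ 2) ^ a * (starRingEnd ℂ) ((ee x ^ 2) ^ b) = _
  rw [t06_ee_pow, t06_ee_pow, ← fourier_neg, mul_comm]

theorem t06_intN {N : ℕ} (α β : Fin N →₀ ℕ) :
    ∫ t : Fin N → UnitAddCircle, (∏ i, (ee (t i) ^ 2) ^ α i) * (starRingEnd ℂ) (∏ i, (ee (t i) ^ 2) ^ β i) =
      if α = β then 1 else 0 := by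
  simp only [map_prod, ← Finset.prod_mul_distrib]
  rw [MeasureTheory.integral_fintype_prod_volume_eq_prod
    (f := fun i x => (ee x ^ 2) ^ α i * (starRingEnd ℂ) ((ee x ^ 2) ^ β i))]
  simp only [t06_int1]
  by_cases h : α = β
  · subst h; simp
  · rw [if_neg h]
    obtain ⟨i, hi⟩ : ∃ i, α i ≠ β i := by
      by_contra h'
      push Not at h'
      exact h (Finsupp.ext h')
    exact Finset.prod_eq_zero (Finset.mem_univ i) (if_neg hi)

theorem t06_cont {N : ℕ} (P : MvPolynomial (Fin N) ℂ) :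
    Continuous fun t : Fin N → UnitAddCircle => MvPolynomial.eval (fun i => ee (t i) ^ 2) P := by
  have h : Continuous fun t : Fin N → UnitAddCircle => fun i : Fin N => ee (t i) ^ 2 := by
    refine continuous_pi fun i => ?_
    have : Continuous ee := t06_ee_cont
    exact (this.comp (continuous_apply i)).pow 2
  exact (MvPolynomial.continuous_eval P).comp h

theorem t06_eval {N : ℕ} (P : MvPolynomial (Fin N) ℂ) (S : Finset (Fin N →₀ ℕ)) (hS : P.support ⊆ S)
    (z : Fin N → ℂ) : MvPolynomial.eval z P = ∑ α ∈ S, P.coeff α * ∏ i, z i ^ α i := by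
  rw [MvPolynomial.eval_eq']
  refine Finset.sum_subset hS fun α _ hα => ?_
  rw [MvPolynomial.notMem_support_iff.1 hα, zero_mul]

theorem t06_parseval {N : ℕ} (P : MvPolynomial (Fin N) ℂ) (S : Finset (Fin N →₀ ℕ)) (hS : P.support ⊆ S) :
    ∫ t : Fin N → UnitAddCircle, ‖MvPolynomial.eval (fun i => ee (t i) ^ 2) P‖ ^ 2 =
      ∑ α ∈ S, ‖P.coeff α‖ ^ 2 := by
  have hc : Continuous ee := t06_ee_cont
  have hm : ∀ α : Fin N →₀ ℕ, Continuous fun t : Fin N → UnitAddCircle => ∏ i, (ee (t i) ^ 2) ^ α i := by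
    intro α
    exact continuous_finsetProd _ fun i _ => ((hc.comp (continuous_apply i)).pow 2).pow _
  have hE : ∀ t : Fin N → UnitAddCircle,
      ((‖MvPolynomial.eval (fun i => ee (t i) ^ 2) P‖ ^ 2 : ℝ) : ℂ) =
      ∑ α ∈ S, ∑ β ∈ S, (P.coeff α * (starRingEnd ℂ) (P.coeff β)) *
        ((∏ i, (ee (t i) ^ 2) ^ α i) * (starRingEnd ℂ) (∏ i, (ee (t i) ^ 2) ^ β i)) := by
    intro t
    rw [← Complex.normSq_eq_norm_sq, ← Complex.mul_conj, t06_eval P S hS, map_sum, Finset.sum_mul_sum]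
    refine Finset.sum_congr rfl fun α _ => Finset.sum_congr rfl fun β _ => ?_
    rw [map_mul]
    ring
  have h1 : ((∫ t : Fin N → UnitAddCircle, ‖MvPolynomial.eval (fun i => ee (t i) ^ 2) P‖ ^ 2 : ℝ) : ℂ) =
      ((∑ α ∈ S, ‖P.coeff α‖ ^ 2 : ℝ) : ℂ) := by
    rw [← integral_complex_ofReal]
    simp only [hE]
    rw [integral_finsetSum]
    · push_cast
      refine Finset.sum_congr rfl fun α hα => ?_
      rw [integral_finsetSum]
      · rw [Finset.sum_congr rfl fun β _ => integral_const_mul _ _]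
        simp only [t06_intN, mul_ite, mul_one, mul_zero, Finset.sum_ite_eq, if_pos hα]
        rw [Complex.mul_conj, Complex.normSq_eq_norm_sq]
        push_cast
        rfl
      · intro β _
        refine Continuous.integrable_of_hasCompactSupport ?_ (HasCompactSupport.of_compactSpace _)
        exact continuous_const.mul ((hm α).mul (Complex.continuous_conj.comp (hm β)))
    · intro α _
      refine Continuous.integrable_of_hasCompactSupport ?_ (HasCompactSupport.of_compactSpace _)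
      exact continuous_finsetSum _ fun β _ =>
        continuous_const.mul ((hm α).mul (Complex.continuous_conj.comp (hm β)))
  exact_mod_cast h1


section drv

variable {n R S : Type*} [Fintype n] [CommRing R] [CommRing S] [Algebra S R] (d : Derivation S R R)

theorem t06_map_mul (A B : Matrix n n R) :
    (A * B).map d = A.map d * B + A * B.map d := by
  ext i j
  simp only [Matrix.map_apply, Matrix.add_apply, Matrix.mul_apply, map_sum, Derivation.leibniz,
    smul_eq_mul, Finset.sum_add_distrib]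
  rw [add_comm]
  congr 1
  exact Finset.sum_congr rfl fun x _ => mul_comm _ _

variable [DecidableEq n]

theorem t06_tr_pow (M : Matrix n n R) (k : ℕ) : ∀ j : ℕ,
    Matrix.trace (M ^ j * (M ^ (k + 1)).map d) = (k + 1) * Matrix.trace (M ^ (j + k) * M.map d) := by
  induction k with
  | zero => intro j; simp
  | succ k ih =>
    intro j
    rw [pow_succ M (k + 1), t06_map_mul, mul_add, Matrix.trace_add, ← mul_assoc, Matrix.trace_mul_comm,
      ← mul_assoc, ← pow_succ', ih (j + 1), ← mul_assoc, ← pow_add]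
    push_cast
    rw [show j + 1 + k = j + (k + 1) by ring]
    ring

theorem t06_tr_der (M : Matrix n n R) (k : ℕ) :
    d (Matrix.trace (M ^ (k + 1))) = (k + 1) * Matrix.trace (M ^ k * M.map d) := by
  have h := t06_tr_pow d M k 0
  rw [pow_zero, one_mul, zero_add] at h
  rw [← h, Matrix.trace, Matrix.trace, map_sum]
  rfl

end drv

open MvPolynomial in
theorem t06_coeff {σ : Type*} [DecidableEq σ] (p : MvPolynomial σ ℂ) (i : σ) (α : σ →₀ ℕ) :
    coeff α (X i * pderiv i p) = (α i : ℂ) * coeff α p := by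
  induction p using MvPolynomial.induction_on' with
  | monomial m a =>
    rw [X_mul_pderiv_monomial, nsmul_eq_mul, ← map_natCast (C : ℂ →+* MvPolynomial σ ℂ), coeff_C_mul, coeff_monomial]
    by_cases h : m = α
    · subst h; rfl
    · rw [if_neg h, mul_zero, mul_zero]
  | add p q hp hq =>
    rw [map_add, mul_add, coeff_add, hp, hq, coeff_add, mul_add]

open MvPolynomial in
/-- The matrix `X diag(Z)`. -/
noncomputable def t06M {N : ℕ} (A : Matrix (Fin N) (Fin N) ℂ) : Matrix (Fin N) (Fin N) (MvPolynomial (Fin N) ℂ) :=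
  A.map C * Matrix.diagonal fun i => X i

open MvPolynomial in
theorem t06_der {N : ℕ} (A : Matrix (Fin N) (Fin N) ℂ) (k : ℕ) (i : Fin N) :
    X i * pderiv i (Matrix.trace (t06M A ^ (k + 1))) = ((k : MvPolynomial (Fin N) ℂ) + 1) * (t06M A ^ (k + 1)) i i := by
  rw [t06_tr_der]
  have h1 : (t06M A).map (pderiv i) = A.map C * Matrix.diagonal (Pi.single i 1) := by
    refine Matrix.ext fun a b => ?_
    rw [t06M, Matrix.map_apply, Matrix.mul_diagonal, Matrix.mul_diagonal, Matrix.map_apply,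
      Derivation.leibniz, pderiv_C, pderiv_X, smul_zero, add_zero, smul_eq_mul]
  have h2 : (X i : MvPolynomial (Fin N) ℂ) • (A.map C * Matrix.diagonal (Pi.single i 1)) = t06M A * Matrix.diagonal (Pi.single i (1 : MvPolynomial (Fin N) ℂ)) := by
    refine Matrix.ext fun a b => ?_
    rw [t06M, Matrix.smul_apply, Matrix.mul_diagonal, Matrix.mul_diagonal, Matrix.mul_diagonal, smul_eq_mul]
    by_cases hb : b = i
    · subst hb; simp only [Pi.single_eq_same]; ring
    · simp [hb]
  rw [h1, mul_left_comm, ← smul_eq_mul (X i : MvPolynomial (Fin N) ℂ), ← Matrix.trace_smul, ← Matrix.mul_smul, h2, ← mul_assoc, ← pow_succ]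
  congr 1
  rw [Matrix.trace, Finset.sum_eq_single i]
  · rw [Matrix.diag_apply, Matrix.mul_diagonal, Pi.single_eq_same, mul_one]
  · intro b _ hb
    rw [Matrix.diag_apply, Matrix.mul_diagonal, Pi.single_eq_of_ne hb, mul_zero]
  · simp

open MvPolynomial in
theorem t06_cf {N : ℕ} (A : Matrix (Fin N) (Fin N) ℂ) (k : ℕ) (i : Fin N) (α : Fin N →₀ ℕ) :
    ((k : ℂ) + 1) * coeff α ((t06M A ^ (k + 1)) i i) = (α i : ℂ) * coeff α (Matrix.trace (t06M A ^ (k + 1))) := by
  rw [← t06_coeff, t06_der, show ((k : MvPolynomial (Fin N) ℂ) + 1) = C ((k : ℂ) + 1) by simp, coeff_C_mul]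

open MvPolynomial in
/-- The inequality for one monomial. -/
theorem t06_ineq {N : ℕ} (A : Matrix (Fin N) (Fin N) ℂ) (k : ℕ) (α : Fin N →₀ ℕ) :
    ‖coeff α (Matrix.trace (t06M A ^ (k + 1)))‖ ^ 2 ≤
      ((k : ℝ) + 1) * ∑ i, ‖coeff α ((t06M A ^ (k + 1)) i i)‖ ^ 2 := by
  set a := coeff α (Matrix.trace (t06M A ^ (k + 1))) with ha
  have hk : (0 : ℝ) < (k : ℝ) + 1 := by positivity
  have hk' : ‖(k : ℂ) + 1‖ = (k : ℝ) + 1 := by
    rw [show (k : ℂ) + 1 = ((k + 1 : ℕ) : ℂ) by push_cast; ring, Complex.norm_natCast]; push_cast; ring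
  have h1 : ∀ i, ((k : ℝ) + 1) * ‖coeff α ((t06M A ^ (k + 1)) i i)‖ = (α i : ℝ) * ‖a‖ := by
    intro i
    have := congrArg norm (t06_cf A k i α)
    rw [norm_mul, norm_mul, hk', Complex.norm_natCast] at this
    exact this
  have hsum : (∑ i, coeff α ((t06M A ^ (k + 1)) i i)) = a := by
    rw [ha, Matrix.trace, coeff_sum]
    rfl
  have h2 : (∑ i, (α i : ℂ)) * a = ((k : ℂ) + 1) * a := by
    rw [Finset.sum_mul, ← hsum, Finset.mul_sum]
    rw [hsum]
    exact Finset.sum_congr rfl fun i _ => (t06_cf A k i α).symm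
  by_cases h0 : a = 0
  · rw [h0, norm_zero, zero_pow two_ne_zero]
    exact mul_nonneg hk.le (Finset.sum_nonneg fun i _ => sq_nonneg _)
  have h3 : (∑ i, (α i : ℝ)) = (k : ℝ) + 1 := by
    have := mul_right_cancel₀ h0 h2
    exact_mod_cast this
  have h4 : (k : ℝ) + 1 ≤ ∑ i, (α i : ℝ) ^ 2 := by
    rw [← h3]
    refine Finset.sum_le_sum fun i _ => ?_
    have : (α i : ℕ) ≤ α i ^ 2 := Nat.le_self_pow two_ne_zero _
    exact_mod_cast this
  have h5 : ((k : ℝ) + 1) ^ 2 * ∑ i, ‖coeff α ((t06M A ^ (k + 1)) i i)‖ ^ 2 = (∑ i, (α i : ℝ) ^ 2) * ‖a‖ ^ 2 := by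
    rw [Finset.mul_sum, Finset.sum_mul]
    refine Finset.sum_congr rfl fun i _ => ?_
    rw [← mul_pow, h1, mul_pow]
  have h6 : ((k : ℝ) + 1) * ‖a‖ ^ 2 ≤ ((k : ℝ) + 1) * (((k : ℝ) + 1) * ∑ i, ‖coeff α ((t06M A ^ (k + 1)) i i)‖ ^ 2) := by
    rw [← mul_assoc, ← sq, h5]
    exact mul_le_mul_of_nonneg_right h4 (by positivity)
  exact le_of_mul_le_mul_left h6 hk


theorem t06_map {N : ℕ} (A : Matrix (Fin N) (Fin N) ℂ) (z : Fin N → ℂ) (k : ℕ) :
    (t06M A ^ k).map (MvPolynomial.eval z) = (A * Matrix.diagonal z) ^ k := by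
  have h : (t06M A).map (MvPolynomial.eval z) = A * Matrix.diagonal z := by
    refine Matrix.ext fun a b => ?_
    rw [t06M, Matrix.map_apply, Matrix.mul_diagonal, Matrix.mul_diagonal, Matrix.map_apply, map_mul,
      MvPolynomial.eval_C, MvPolynomial.eval_X]
  rw [← h]
  exact map_pow (MvPolynomial.eval z).mapMatrix (t06M A) k

theorem t06_dg2 {N : ℕ} (X : Uni N) (t : Tor N) :
    (X * (dg t * dg t) : Uni N).1 = X.1 * Matrix.diagonal fun a => ee (t a) ^ 2 := by
  show X.1 * ((dg t).1 * (dg t).1) = _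
  rw [dg_val, Matrix.diagonal_mul_diagonal]
  congr 2
  funext a
  ring

theorem t06_trace {N : ℕ} (X : Uni N) (t : Tor N) (k : ℕ) :
    Matrix.trace (((dg t * X * dg t) ^ k : Uni N).1) =
      MvPolynomial.eval (fun a => ee (t a) ^ 2) (Matrix.trace (t06M X.1 ^ k)) := by
  have h1 : dg t * X * dg t = dg t * (X * (dg t * dg t)) * (dg t)⁻¹ := by group
  have h2 : Matrix.trace (((dg t * X * dg t) ^ k : Uni N).1) =
      Matrix.trace (((X * (dg t * dg t)) ^ k : Uni N).1) := by
    rw [h1, conj_pow]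
    show Matrix.trace ((dg t).1 * ((X * (dg t * dg t)) ^ k : Uni N).1 * ((dg t)⁻¹ : Uni N).1) = _
    rw [Matrix.trace_mul_comm, ← mul_assoc]
    have h3 : ((dg t)⁻¹ : Uni N).1 * (dg t).1 = 1 := by
      have := congrArg Subtype.val (inv_mul_cancel (dg t))
      exact this
    rw [h3, one_mul]
  rw [h2]
  have h4 : ((X * (dg t * dg t)) ^ k : Uni N).1 = (t06M X.1 ^ k).map (MvPolynomial.eval fun a => ee (t a) ^ 2) := by
    rw [t06_map, ← t06_dg2]
    rfl
  rw [h4, Matrix.trace, Matrix.trace, map_sum]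
  rfl

theorem t06_entry {N : ℕ} (X : Uni N) (t : Tor N) (k : ℕ) (i : Fin N) :
    ‖MvPolynomial.eval (fun a => ee (t a) ^ 2) ((t06M X.1 ^ k) i i)‖ ≤ 1 := by
  have h4 : ((X * (dg t * dg t)) ^ k : Uni N).1 = (t06M X.1 ^ k).map (MvPolynomial.eval fun a => ee (t a) ^ 2) := by
    rw [t06_map, ← t06_dg2]
    rfl
  have h5 := entry_norm_bound_of_unitary ((X * (dg t * dg t)) ^ k : Uni N).2 i i
  rw [h4] at h5
  exact h5

theorem words {N : ℕ} (X : Uni N) (k : ℕ) (hk : 1 ≤ k) :
    ∫ t : Tor N, ‖Matrix.trace (((dg t * X * dg t) ^ k : Uni N).1)‖ ^ 2 ≤ k * N := by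
  obtain ⟨k, rfl⟩ : ∃ k', k = k' + 1 := ⟨k - 1, by omega⟩
  classical
  set P := Matrix.trace (t06M X.1 ^ (k + 1)) with hP
  set Q : Fin N → MvPolynomial (Fin N) ℂ := fun i => (t06M X.1 ^ (k + 1)) i i with hQ
  set S : Finset (Fin N →₀ ℕ) := P.support ∪ Finset.univ.biUnion fun i => (Q i).support with hS
  have hSP : P.support ⊆ S := Finset.subset_union_left
  have hSQ : ∀ i, (Q i).support ⊆ S := fun i => by
    refine Finset.Subset.trans ?_ Finset.subset_union_right
    exact Finset.subset_biUnion_of_mem (fun i => (Q i).support) (Finset.mem_univ i)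
  simp only [t06_trace]
  rw [← hP]
  have h1 : ∫ t : Tor N, ‖MvPolynomial.eval (fun a => ee (t a) ^ 2) P‖ ^ 2 = ∑ α ∈ S, ‖P.coeff α‖ ^ 2 :=
    t06_parseval P S hSP
  rw [h1]
  calc ∑ α ∈ S, ‖P.coeff α‖ ^ 2
      ≤ ∑ α ∈ S, ((k : ℝ) + 1) * ∑ i, ‖(Q i).coeff α‖ ^ 2 :=
        Finset.sum_le_sum fun α _ => t06_ineq X.1 k α
    _ = ((k : ℝ) + 1) * ∑ i, ∑ α ∈ S, ‖(Q i).coeff α‖ ^ 2 := by
        rw [← Finset.mul_sum, Finset.sum_comm]
    _ ≤ ((k : ℝ) + 1) * ∑ i : Fin N, (1 : ℝ) := by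
        refine mul_le_mul_of_nonneg_left (Finset.sum_le_sum fun i _ => ?_) (by positivity)
        rw [← t06_parseval (Q i) S (hSQ i)]
        have h2 : ∀ t : Fin N → UnitAddCircle,
            ‖MvPolynomial.eval (fun a => ee (t a) ^ 2) (Q i)‖ ^ 2 ≤ 1 := fun t => by
          have := t06_entry X t (k + 1) i
          exact pow_le_one₀ (norm_nonneg _) this
        calc ∫ t : Fin N → UnitAddCircle, ‖MvPolynomial.eval (fun a => ee (t a) ^ 2) (Q i)‖ ^ 2
            ≤ ∫ t : Fin N → UnitAddCircle, (1 : ℝ) := by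
              refine integral_mono ?_ (integrable_const _) h2
              refine Continuous.integrable_of_hasCompactSupport ?_ (HasCompactSupport.of_compactSpace _)
              exact (t06_cont (Q i)).norm.pow 2
          _ = 1 := by simp
    _ = ((k + 1 : ℕ) : ℝ) * N := by
        rw [Finset.sum_const, Finset.card_univ, Fintype.card_fin, nsmul_eq_mul, mul_one]
        push_cast
        ring

end Ty
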