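import Pool.Agent.LibTy70.Defs

/-! Row T07: the number of points in an arc. Plan: `u = fract (θ_j - s)`, `τ = t - s ∈ [0,1]`. Let
`b(x) = B_2(fract x) = fract x ^ 2 - fract x + 1/6`; `b(x) = (1/π²) ∑_{k≥1} cos(2πkx)/k²`
(`hasSum_one_div_nat_pow_mul_cos` with exponent 2, on `[0,1]`). The function
`g(u) = τ + h - (1/(2h)) (b(u+h) - b(u) - b(u-τ) + b(u-τ-h))` is the periodised trapezoid with ramps `[-h,0]`, `[τ,τ+h]`:
check `g ≥ 0` and `g ≥ 1` on `[0,τ)` by cases on the integer parts (u, τ ∈ [0,1], h ∈ (0,1)). Sum over `j`: the `k`-th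
term is `-(1/(2hπ²k²)) Re (tr_k · (e(kh) - 1 - e(-kτ) + e(-kτ-kh)))` up to a unit factor, and
`|e(kh) - 1 - e(-kτ) + e(-kτ-kh)| ≤ min 4 (4πkh)`; so it is at most `min(2/(π²hk²), 2/(πk)) |tr_k| ≤ wk h (k-1) |tr_k|`. -/

open MeasureTheory Set Filter Topology

namespace Ty

open QGr

/-- The primitive of the integer part. -/
private noncomputable def t07_I (x : ℝ) : ℝ := ⌊x⌋ * x - ⌊x⌋ * (⌊x⌋ + 1) / 2

private lemma t07_low {x y : ℝ} (hxy : x ≤ y) : (⌊x⌋ : ℝ) * (y - x) ≤ t07_I y - t07_I x := by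
  unfold t07_I
  have hmn : ⌊x⌋ ≤ ⌊y⌋ := Int.floor_le_floor hxy
  have hy : (⌊y⌋ : ℝ) ≤ y := Int.floor_le y
  rcases eq_or_lt_of_le hmn with h | h
  · rw [h]
    linarith
  · have h1 : (⌊x⌋ : ℝ) + 1 ≤ ⌊y⌋ := by exact_mod_cast h
    nlinarith

private lemma t07_up {x y : ℝ} (hxy : x ≤ y) : t07_I y - t07_I x ≤ (⌊y⌋ : ℝ) * (y - x) := by
  unfold t07_I
  have hmn : ⌊x⌋ ≤ ⌊y⌋ := Int.floor_le_floor hxy
  have hx : x < ⌊x⌋ + 1 := Int.lt_floor_add_one x
  rcases eq_or_lt_of_le hmn with h | h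
  · rw [h]
    linarith
  · have h1 : (⌊x⌋ : ℝ) + 1 ≤ ⌊y⌋ := by exact_mod_cast h
    nlinarith

/-- The Fourier series of the second Bernoulli function. -/
private lemma t07_b (x : ℝ) : HasSum (fun k : ℕ => Real.cos (2 * Real.pi * ((k : ℝ) + 1) * x) /
    ((k : ℝ) + 1) ^ 2) (Real.pi ^ 2 * (x ^ 2 - x - 2 * t07_I x + 1 / 6)) := by
  have h1 := hasSum_one_div_nat_pow_mul_cos (k := 1) one_ne_zero (x := Int.fract x)
    ⟨Int.fract_nonneg x, (Int.fract_lt_one x).le⟩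
  have h2 : (Polynomial.map (algebraMap ℚ ℝ) (Polynomial.bernoulli (2 * 1))).eval (Int.fract x) =
      Int.fract x ^ 2 - Int.fract x + 1 / 6 := by
    simp [Polynomial.bernoulli, Finset.sum_range_succ, Nat.choose]
    ring_nf
  have h3 := (hasSum_nat_add_iff' 1).2 h1
  rw [h2] at h3
  simp only [Finset.range_one, Finset.sum_singleton] at h3
  have h5 : (⌊x⌋ : ℝ) = x - Int.fract x := by
    have : Int.fract x = x - ⌊x⌋ := rfl
    linarith
  have h4 : ((-1 : ℝ) ^ (1 + 1) * (2 * Real.pi) ^ (2 * 1) / 2 / ((2 * 1).factorial : ℝ) *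
      (Int.fract x ^ 2 - Int.fract x + 1 / 6) -
      1 / ((0 : ℕ) : ℝ) ^ (2 * 1) * Real.cos (2 * Real.pi * ((0 : ℕ) : ℝ) * Int.fract x)) =
      Real.pi ^ 2 * (x ^ 2 - x - 2 * t07_I x + 1 / 6) := by
    unfold t07_I
    norm_num [Nat.factorial]
    rw [h5]
    ring
  rw [h4] at h3
  suffices h7 : (fun k : ℕ => Real.cos (2 * Real.pi * ((k : ℝ) + 1) * x) / ((k : ℝ) + 1) ^ 2) =
      fun k : ℕ => 1 / ((k + 1 : ℕ) : ℝ) ^ (2 * 1) *
        Real.cos (2 * Real.pi * ((k + 1 : ℕ) : ℝ) * Int.fract x) by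
    rw [h7]
    exact h3
  funext k
  have h6 : Real.cos (2 * Real.pi * ((k + 1 : ℕ) : ℝ) * Int.fract x) =
      Real.cos (2 * Real.pi * ((k : ℝ) + 1) * x) := by
    have : 2 * Real.pi * ((k + 1 : ℕ) : ℝ) * Int.fract x =
        2 * Real.pi * ((k : ℝ) + 1) * x - (((k + 1 : ℕ) * ⌊x⌋ : ℤ) : ℝ) * (2 * Real.pi) := by
      push_cast
      rw [h5]
      ring
    rw [this, Real.cos_sub_int_mul_two_pi]
  rw [h6]
  push_cast
  field_simp

private lemma t07_g (x τ h : ℝ) (hτ : 0 ≤ τ) (h0 : 0 < h) :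
    (if Int.fract x < τ then (1 : ℝ) else 0) ≤ τ + h - 1 / (2 * h * Real.pi ^ 2) *
      (Real.pi ^ 2 * ((x + h) ^ 2 - (x + h) - 2 * t07_I (x + h) + 1 / 6) -
        Real.pi ^ 2 * (x ^ 2 - x - 2 * t07_I x + 1 / 6) -
        Real.pi ^ 2 * ((x - τ) ^ 2 - (x - τ) - 2 * t07_I (x - τ) + 1 / 6) +
        Real.pi ^ 2 * ((x - τ - h) ^ 2 - (x - τ - h) - 2 * t07_I (x - τ - h) + 1 / 6)) := by
  have hp := Real.pi_pos
  have e1 : τ + h - 1 / (2 * h * Real.pi ^ 2) *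
      (Real.pi ^ 2 * ((x + h) ^ 2 - (x + h) - 2 * t07_I (x + h) + 1 / 6) -
        Real.pi ^ 2 * (x ^ 2 - x - 2 * t07_I x + 1 / 6) -
        Real.pi ^ 2 * ((x - τ) ^ 2 - (x - τ) - 2 * t07_I (x - τ) + 1 / 6) +
        Real.pi ^ 2 * ((x - τ - h) ^ 2 - (x - τ - h) - 2 * t07_I (x - τ - h) + 1 / 6)) =
      ((t07_I (x + h) - t07_I x) - (t07_I (x - τ) - t07_I (x - τ - h))) / h := by
    field_simp
    ring
  rw [e1, le_div_iff₀ h0]
  have a1 := t07_low (x := x) (y := x + h) (by linarith)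
  have a2 := t07_up (x := x - τ - h) (y := x - τ) (by linarith)
  have a3 : (if Int.fract x < τ then (1 : ℝ) else 0) ≤ ⌊x⌋ - ⌊x - τ⌋ := by
    split_ifs with hc
    · have : ⌊x - τ⌋ < ⌊x⌋ := by
        rw [Int.floor_lt]
        have : Int.fract x = x - ⌊x⌋ := rfl
        linarith
      have : ⌊x - τ⌋ + 1 ≤ ⌊x⌋ := this
      have : (⌊x - τ⌋ : ℝ) + 1 ≤ ⌊x⌋ := by exact_mod_cast this
      linarith
    · have : ⌊x - τ⌋ ≤ ⌊x⌋ := Int.floor_le_floor (by linarith)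
      have : (⌊x - τ⌋ : ℝ) ≤ ⌊x⌋ := by exact_mod_cast this
      linarith
  have a4 : (if Int.fract x < τ then (1 : ℝ) else 0) * h ≤ (⌊x⌋ - ⌊x - τ⌋) * h :=
    mul_le_mul_of_nonneg_right a3 h0.le
  nlinarith

private lemma t07_e (a b K : ℝ) (hK : 0 < K) : ‖Complex.exp ((2 * Real.pi * K * a : ℝ) * Complex.I) -
    Complex.exp ((2 * Real.pi * K * b : ℝ) * Complex.I)‖ ≤ min 2 (2 * Real.pi * K * |a - b|) := by
  refine le_min ?_ ?_
  · refine (norm_sub_le _ _).trans ?_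
    rw [Complex.norm_exp_ofReal_mul_I, Complex.norm_exp_ofReal_mul_I]
    norm_num
  · have h1 : Complex.exp ((2 * Real.pi * K * a : ℝ) * Complex.I) -
        Complex.exp ((2 * Real.pi * K * b : ℝ) * Complex.I) =
        Complex.exp ((2 * Real.pi * K * b : ℝ) * Complex.I) *
          (Complex.exp (Complex.I * (2 * Real.pi * K * (a - b) : ℝ)) - 1) := by
      rw [mul_sub, ← Complex.exp_add, mul_one]
      congr 2
      push_cast
      ring
    rw [h1, norm_mul, Complex.norm_exp_ofReal_mul_I, one_mul]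
    refine (Real.norm_exp_I_mul_ofReal_sub_one_le).trans ?_
    rw [Real.norm_eq_abs, abs_mul, abs_of_pos (by positivity : 0 < 2 * Real.pi * K)]

private lemma t07_s {N : ℕ} (θ : Fin N → ℝ) (h s τ K : ℝ) (h0 : 0 < h) (hK : 0 < K) :
    |∑ j, (Real.cos (2 * Real.pi * K * (θ j - s + h)) - Real.cos (2 * Real.pi * K * (θ j - s)) -
      Real.cos (2 * Real.pi * K * (θ j - s - τ)) + Real.cos (2 * Real.pi * K * (θ j - s - τ - h)))| ≤
      ‖∑ j, Complex.exp (2 * Real.pi * K * θ j * Complex.I)‖ * (2 * min 2 (2 * Real.pi * K * h)) := by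
  have h1 : ∑ j, (Real.cos (2 * Real.pi * K * (θ j - s + h)) - Real.cos (2 * Real.pi * K * (θ j - s)) -
      Real.cos (2 * Real.pi * K * (θ j - s - τ)) + Real.cos (2 * Real.pi * K * (θ j - s - τ - h))) =
      ((∑ j, Complex.exp (2 * Real.pi * K * θ j * Complex.I)) *
        ((Complex.exp ((2 * Real.pi * K * (h - s) : ℝ) * Complex.I) -
          Complex.exp ((2 * Real.pi * K * (-s) : ℝ) * Complex.I)) -
        (Complex.exp ((2 * Real.pi * K * (-s - τ) : ℝ) * Complex.I) -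
          Complex.exp ((2 * Real.pi * K * (-s - τ - h) : ℝ) * Complex.I)))).re := by
    rw [Finset.sum_mul, Complex.re_sum]
    refine Finset.sum_congr rfl fun j _ => ?_
    have h2 : ∀ a : ℝ, Real.cos (2 * Real.pi * K * (θ j + a)) =
        (Complex.exp (2 * Real.pi * K * θ j * Complex.I) *
          Complex.exp ((2 * Real.pi * K * a : ℝ) * Complex.I)).re := by
      intro a
      rw [← Complex.exp_add, ← Complex.exp_ofReal_mul_I_re]
      congr 2
      push_cast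
      ring
    have e1 : θ j - s + h = θ j + (h - s) := by ring
    have e2 : θ j - s = θ j + (-s) := by ring
    have e3 : θ j + (-s) - τ = θ j + (-s - τ) := by ring
    have e4 : θ j + (-s - τ) - h = θ j + (-s - τ - h) := by ring
    rw [e1, e2, e3, e4, h2, h2, h2, h2]
    simp only [mul_sub, Complex.sub_re]
    ring
  rw [h1]
  refine (Complex.abs_re_le_norm _).trans ?_
  rw [norm_mul]
  refine mul_le_mul_of_nonneg_left ?_ (norm_nonneg _)
  refine (norm_sub_le _ _).trans ?_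
  have a1 := t07_e (h - s) (-s) K hK
  have a2 := t07_e (-s - τ) (-s - τ - h) K hK
  have b1 : |h - s - -s| = h := by
    rw [show h - s - -s = h by ring, abs_of_pos h0]
  have b2 : |-s - τ - (-s - τ - h)| = h := by
    rw [show -s - τ - (-s - τ - h) = h by ring, abs_of_pos h0]
  rw [b1] at a1
  rw [b2] at a2
  linarith

private lemma t07_w (h : ℝ) (k : ℕ) (h0 : 0 < h) :
    1 / (2 * h * Real.pi ^ 2) * ((2 * min 2 (2 * Real.pi * ((k : ℝ) + 1) * h)) / ((k : ℝ) + 1) ^ 2) ≤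
      wk h k := by
  have hp := Real.pi_gt_three
  have hK : (0 : ℝ) < (k : ℝ) + 1 := by positivity
  unfold wk
  refine le_min ?_ ?_
  · have : min 2 (2 * Real.pi * ((k : ℝ) + 1) * h) ≤ 2 * Real.pi * ((k : ℝ) + 1) * h := min_le_right _ _
    calc 1 / (2 * h * Real.pi ^ 2) * ((2 * min 2 (2 * Real.pi * ((k : ℝ) + 1) * h)) / ((k : ℝ) + 1) ^ 2)
        ≤ 1 / (2 * h * Real.pi ^ 2) * ((2 * (2 * Real.pi * ((k : ℝ) + 1) * h)) / ((k : ℝ) + 1) ^ 2) := by
          gcongr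
      _ = (2 / Real.pi) * (1 / ((k : ℝ) + 1)) := by field_simp
      _ ≤ 1 * (1 / ((k : ℝ) + 1)) := by
          gcongr
          rw [div_le_one (by positivity)]
          linarith
      _ = _ := one_mul _
  · have : min 2 (2 * Real.pi * ((k : ℝ) + 1) * h) ≤ 2 := min_le_left _ _
    calc 1 / (2 * h * Real.pi ^ 2) * ((2 * min 2 (2 * Real.pi * ((k : ℝ) + 1) * h)) / ((k : ℝ) + 1) ^ 2)
        ≤ 1 / (2 * h * Real.pi ^ 2) * ((2 * 2) / ((k : ℝ) + 1) ^ 2) := by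
          gcongr
      _ = (2 / Real.pi ^ 2) * (1 / (h * ((k : ℝ) + 1) ^ 2)) := by field_simp
      _ ≤ 1 * (1 / (h * ((k : ℝ) + 1) ^ 2)) := by
          gcongr
          rw [div_le_one (by positivity)]
          nlinarith
      _ = _ := one_mul _

private lemma t07_sm (N : ℕ) (θ : Fin N → ℝ) (h : ℝ) (h0 : 0 < h) : Summable fun k : ℕ => wk h k *
    ‖∑ j, Complex.exp (2 * Real.pi * ((k : ℝ) + 1) * θ j * Complex.I)‖ := by
  have h1 : Summable fun k : ℕ => (1 / ((k + 1 : ℕ) : ℝ) ^ 2) * (N / h) :=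
    ((summable_nat_add_iff (f := fun k : ℕ => 1 / (k : ℝ) ^ 2) 1).2
      (Real.summable_one_div_nat_pow.2 one_lt_two)).mul_right _
  refine Summable.of_nonneg_of_le (fun k => ?_) (fun k => ?_) h1
  · refine mul_nonneg ?_ (norm_nonneg _)
    unfold wk
    positivity
  · have h2 : ‖∑ j, Complex.exp (2 * Real.pi * ((k : ℝ) + 1) * θ j * Complex.I)‖ ≤ N := by
      refine (norm_sum_le _ _).trans ?_
      have : ∀ j ∈ (Finset.univ : Finset (Fin N)),
          ‖Complex.exp (2 * Real.pi * ((k : ℝ) + 1) * θ j * Complex.I)‖ ≤ 1 := by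
        intro j _
        have := Complex.norm_exp_ofReal_mul_I (2 * Real.pi * ((k : ℝ) + 1) * θ j)
        push_cast at this
        push_cast
        rw [this]
      refine (Finset.sum_le_sum this).trans ?_
      simp
    calc wk h k * ‖∑ j, Complex.exp (2 * Real.pi * ((k : ℝ) + 1) * θ j * Complex.I)‖
        ≤ (1 / (h * ((k : ℝ) + 1) ^ 2)) * N := by
          refine mul_le_mul (min_le_right _ _) h2 (norm_nonneg _) (by positivity)
      _ = _ := by
          push_cast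
          field_simp

theorem trap {N : ℕ} (θ : Fin N → ℝ) (h s t : ℝ) (h0 : 0 < h) (h1 : h < 1) (hst : s ≤ t)
    (ht : t ≤ s + 1) :
    ((Finset.univ.filter fun j => Int.fract (θ j - s) < t - s).card : ℝ) ≤
      N * (t - s + h) + ∑' k : ℕ, wk h k *
        ‖∑ j, Complex.exp (2 * Real.pi * ((k : ℝ) + 1) * θ j * Complex.I)‖ := by
  set τ := t - s with hτ
  have hb : HasSum (fun k : ℕ => ∑ j, (Real.cos (2 * Real.pi * ((k : ℝ) + 1) * (θ j - s + h)) /
      ((k : ℝ) + 1) ^ 2 - Real.cos (2 * Real.pi * ((k : ℝ) + 1) * (θ j - s)) / ((k : ℝ) + 1) ^ 2 -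
      Real.cos (2 * Real.pi * ((k : ℝ) + 1) * (θ j - s - τ)) / ((k : ℝ) + 1) ^ 2 +
      Real.cos (2 * Real.pi * ((k : ℝ) + 1) * (θ j - s - τ - h)) / ((k : ℝ) + 1) ^ 2)) _ :=
    hasSum_sum fun j _ => (((t07_b (θ j - s + h)).sub (t07_b (θ j - s))).sub
      (t07_b (θ j - s - τ))).add (t07_b (θ j - s - τ - h))
  have hc : ((Finset.univ.filter fun j => Int.fract (θ j - s) < τ).card : ℝ) =
      ∑ j, (if Int.fract (θ j - s) < τ then (1 : ℝ) else 0) := by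
    rw [Finset.card_filter]
    push_cast
    rfl
  rw [hc]
  have hg := Finset.sum_le_sum fun (j : Fin N) (_ : j ∈ Finset.univ) =>
    t07_g (θ j - s) τ h (by rw [hτ]; linarith) h0
  refine hg.trans ?_
  rw [Finset.sum_sub_distrib, ← Finset.mul_sum]
  have e1 : ∑ _j : Fin N, (τ + h) = N * (τ + h) := by
    rw [Finset.sum_const, Finset.card_univ, Fintype.card_fin, nsmul_eq_mul]
  rw [e1, sub_eq_add_neg]
  refine add_le_add le_rfl ?_
  have hb2 := (hb.mul_left (1 / (2 * h * Real.pi ^ 2))).neg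
  refine hasSum_le (fun k => ?_) hb2 (t07_sm N θ h h0).hasSum
  have hK : (0 : ℝ) < (k : ℝ) + 1 := by positivity
  have hs := t07_s θ h s τ ((k : ℝ) + 1) h0 hK
  have e2 : ∑ j, (Real.cos (2 * Real.pi * ((k : ℝ) + 1) * (θ j - s + h)) /
      ((k : ℝ) + 1) ^ 2 - Real.cos (2 * Real.pi * ((k : ℝ) + 1) * (θ j - s)) / ((k : ℝ) + 1) ^ 2 -
      Real.cos (2 * Real.pi * ((k : ℝ) + 1) * (θ j - s - τ)) / ((k : ℝ) + 1) ^ 2 +
      Real.cos (2 * Real.pi * ((k : ℝ) + 1) * (θ j - s - τ - h)) / ((k : ℝ) + 1) ^ 2) =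
      (∑ j, (Real.cos (2 * Real.pi * ((k : ℝ) + 1) * (θ j - s + h)) -
      Real.cos (2 * Real.pi * ((k : ℝ) + 1) * (θ j - s)) -
      Real.cos (2 * Real.pi * ((k : ℝ) + 1) * (θ j - s - τ)) +
      Real.cos (2 * Real.pi * ((k : ℝ) + 1) * (θ j - s - τ - h)))) / ((k : ℝ) + 1) ^ 2 := by
    rw [Finset.sum_div]
    refine Finset.sum_congr rfl fun j _ => ?_
    ring
  rw [e2]
  set S := ∑ j, (Real.cos (2 * Real.pi * ((k : ℝ) + 1) * (θ j - s + h)) -
      Real.cos (2 * Real.pi * ((k : ℝ) + 1) * (θ j - s)) -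
      Real.cos (2 * Real.pi * ((k : ℝ) + 1) * (θ j - s - τ)) +
      Real.cos (2 * Real.pi * ((k : ℝ) + 1) * (θ j - s - τ - h))) with hS
  have hw := t07_w h k h0
  push_cast at hs ⊢
  set T := ‖∑ j, Complex.exp (2 * Real.pi * ((k : ℂ) + 1) * θ j * Complex.I)‖ with hT
  have hT0 : 0 ≤ T := norm_nonneg _
  have hS2 : -S ≤ T * (2 * min 2 (2 * Real.pi * ((k : ℝ) + 1) * h)) := (neg_le_abs S).trans hs
  calc -(1 / (2 * h * Real.pi ^ 2) * (S / ((k : ℝ) + 1) ^ 2))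
      = 1 / (2 * h * Real.pi ^ 2) * ((-S) / ((k : ℝ) + 1) ^ 2) := by ring
    _ ≤ 1 / (2 * h * Real.pi ^ 2) * ((T * (2 * min 2 (2 * Real.pi * ((k : ℝ) + 1) * h))) /
          ((k : ℝ) + 1) ^ 2) := by
        gcongr
    _ = (1 / (2 * h * Real.pi ^ 2) * ((2 * min 2 (2 * Real.pi * ((k : ℝ) + 1) * h)) /
          ((k : ℝ) + 1) ^ 2)) * T := by ring
    _ ≤ wk h k * T := mul_le_mul_of_nonneg_right hw hT0

end Ty
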