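import Pool.Agent.LibTy70.T02
import Pool.Agent.LibTy70.T07

/-! Row T08: the spectrum is close to the lattice. Plan: `G = V dg φ V⁻¹` (diag_ex), representatives `θ j ∈ [0,1)` of
`φ j`, sorted by a permutation (cx_perm; `Tuple.sort`). With `S = ∑' wk |tr G^(k+1)|` (trace of the power =
`∑_j e((k+1) θ_j)`), T07 for the arc `[0,t)` gives `#{θ < t} ≤ N t + N h + S`, T07 for the arc `[t,1)` gives
`#{θ ≥ t} ≤ N (1 - t) + N h + S`. For the sorted points: `#{θ < θ_j} ≤ j` and `#{θ ≤ θ_j} ≥ j + 1`, so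
`|θ_j - j/N| ≤ h + S/N + 1/N`; `|e(x) - e(y)| ≤ 2π|x-y|`. -/

open MeasureTheory Set Filter Topology

namespace Ty

open QGr

private theorem t08_ee (x : ℝ) : ee (x : UnitAddCircle) = Complex.exp (2 * Real.pi * x * Complex.I) := by
  unfold ee
  rw [AddCircle.toCircle_apply_mk, Circle.coe_exp]
  congr 1
  push_cast
  ring

private theorem t08_dist (x y : ℝ) : ‖ee (x : UnitAddCircle) - ee (y : UnitAddCircle)‖ ≤
    2 * Real.pi * |x - y| := by
  rw [t08_ee, t08_ee]
  have h1 : Complex.exp (2 * Real.pi * x * Complex.I) - Complex.exp (2 * Real.pi * y * Complex.I) =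
      Complex.exp (2 * Real.pi * y * Complex.I) *
        (Complex.exp (Complex.I * ((2 * Real.pi * (x - y) : ℝ) : ℂ)) - 1) := by
    rw [mul_sub, mul_one, ← Complex.exp_add]
    congr 2
    push_cast
    ring
  have h2 : ‖Complex.exp (2 * Real.pi * y * Complex.I)‖ = 1 := by
    have : (2 * Real.pi * y * Complex.I : ℂ) = ((2 * Real.pi * y : ℝ) : ℂ) * Complex.I := by
      push_cast; ring
    rw [this, Complex.norm_exp_ofReal_mul_I]
  rw [h1, norm_mul, h2, one_mul]
  refine Real.norm_exp_I_mul_ofReal_sub_one_le.trans (le_of_eq ?_)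
  rw [Real.norm_eq_abs, abs_mul, abs_of_pos (by positivity)]

private theorem t08_wk {h : ℝ} (h0 : 0 < h) (k : ℕ) : 0 ≤ wk h k := by
  unfold wk
  exact le_min (by positivity) (by positivity)

private theorem t08_trace {N : ℕ} (V G : Uni N) (θ : Fin N → ℝ)
    (hG : G = V * dg (fun j => ((θ j : ℝ) : UnitAddCircle)) * V⁻¹) (k : ℕ) :
    Matrix.trace ((G ^ (k + 1) : Uni N).1) =
      ∑ j, Complex.exp (2 * Real.pi * ((k : ℝ) + 1) * θ j * Complex.I) := by
  have h1 : G ^ (k + 1) = V * dg ((k + 1) • fun j => ((θ j : ℝ) : UnitAddCircle)) * V⁻¹ := by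
    rw [hG, conj_pow, dg_pow]
  have h2 : ((G ^ (k + 1) : Uni N).1) = V.1 * (dg ((k + 1) • fun j => ((θ j : ℝ) : UnitAddCircle))).1 *
      (V⁻¹ : Uni N).1 := by
    rw [h1]; rfl
  have h3 : (V⁻¹ : Uni N).1 * V.1 = 1 := by
    have : ((V⁻¹ * V : Uni N)).1 = 1 := by rw [inv_mul_cancel]; rfl
    exact this
  rw [h2, Matrix.trace_mul_comm, ← mul_assoc, h3, one_mul, dg_val, Matrix.trace_diagonal]
  refine Finset.sum_congr rfl fun j _ => ?_
  have h4 : ((k + 1) • fun j => ((θ j : ℝ) : UnitAddCircle)) j =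
      ((((k : ℝ) + 1) * θ j : ℝ) : UnitAddCircle) := by
    rw [Pi.smul_apply]
    have h5 := AddCircle.coe_nsmul (p := (1 : ℝ)) (n := k + 1) (x := θ j)
    rw [← h5, nsmul_eq_mul]
    push_cast
    rfl
  rw [h4, t08_ee]
  congr 1
  push_cast
  ring

theorem dsc_diag {N : ℕ} (hN : 0 < N) (h : ℝ) (h0 : 0 < h) (h1 : h < 1) (G : Uni N) :
    ∃ (V : Uni N) (φ : Tor N), G = V * dg φ * V⁻¹ ∧ ∀ j, ‖ee (φ j) - ee (lat N j)‖ ≤ Dsc h G := by
  have hN0 : (0 : ℝ) < N := by exact_mod_cast hN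
  have hN1 : (N : ℝ) ≠ 0 := hN0.ne'
  obtain ⟨V0, φ0, hV0⟩ := diag_ex G
  obtain ⟨θ0, hθ0, hθ01⟩ : ∃ θ0 : Fin N → ℝ, (∀ j, ((θ0 j : ℝ) : UnitAddCircle) = φ0 j) ∧
      ∀ j, 0 ≤ θ0 j ∧ θ0 j < 1 := by
    refine ⟨fun j => (AddCircle.equivIco 1 0 (φ0 j) : ℝ), fun j => AddCircle.coe_equivIco, fun j => ?_⟩
    have h2 := (AddCircle.equivIco 1 0 (φ0 j)).2
    exact ⟨h2.1, by have := h2.2; linarith only [this]⟩
  obtain ⟨R, hR⟩ := cx_perm (Tuple.sort θ0)
  obtain ⟨θ, hθ⟩ : ∃ θ : Fin N → ℝ, θ = θ0 ∘ Tuple.sort θ0 := ⟨_, rfl⟩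
  have hmono : Monotone θ := by rw [hθ]; exact Tuple.monotone_sort θ0
  have hθr : ∀ j, 0 ≤ θ j ∧ θ j < 1 := by
    intro j; rw [hθ]; exact hθ01 _
  have hGV : G = (V0 * (cx R)⁻¹) * dg (fun j => ((θ j : ℝ) : UnitAddCircle)) * (V0 * (cx R)⁻¹)⁻¹ := by
    have e1 : dg (fun j => ((θ j : ℝ) : UnitAddCircle)) = cx R * dg φ0 * (cx R)⁻¹ := by
      rw [hR φ0]
      congr 1
      funext j
      rw [hθ]
      exact hθ0 _
    rw [e1, hV0]
    group
  refine ⟨V0 * (cx R)⁻¹, fun j => ((θ j : ℝ) : UnitAddCircle), hGV, ?_⟩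
  obtain ⟨S, hS⟩ : ∃ S : ℝ, S = ∑' k : ℕ, wk h k *
      ‖∑ j, Complex.exp (2 * Real.pi * ((k : ℝ) + 1) * θ j * Complex.I)‖ := ⟨_, rfl⟩
  have hS0 : 0 ≤ S := by
    rw [hS]
    exact tsum_nonneg fun k => mul_nonneg (t08_wk h0 k) (norm_nonneg _)
  have hD : Dsc h G = 2 * Real.pi * (h + 1 / N + 1 / N * S) := by
    unfold Dsc
    rw [hS]
    simp only [t08_trace _ G θ hGV]
  -- the two counting bounds
  have hlow : ∀ t : ℝ, 0 ≤ t → t ≤ 1 →
      ((Finset.univ.filter fun j => θ j < t).card : ℝ) ≤ N * (t + h) + S := by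
    intro t ht0 ht1
    have e1 := trap θ h 0 t h0 h1 ht0 (by linarith only [ht1])
    rw [sub_zero, ← hS] at e1
    refine le_trans ?_ e1
    have e2 : (Finset.univ.filter fun j => θ j < t) ⊆
        (Finset.univ.filter fun j => Int.fract (θ j - 0) < t) := by
      intro j hj
      rw [Finset.mem_filter] at hj ⊢
      refine ⟨hj.1, ?_⟩
      rw [sub_zero, Int.fract_eq_self.mpr (hθr j)]
      exact hj.2
    exact_mod_cast Finset.card_le_card e2
  have hup : ∀ t : ℝ, 0 ≤ t → t ≤ 1 →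
      ((Finset.univ.filter fun j => t ≤ θ j).card : ℝ) ≤ N * (1 - t + h) + S := by
    intro t ht0 ht1
    have e1 := trap θ h t 1 h0 h1 ht1 (by linarith only [ht0])
    rw [← hS] at e1
    refine le_trans ?_ e1
    have e2 : (Finset.univ.filter fun j => t ≤ θ j) ⊆
        (Finset.univ.filter fun j => Int.fract (θ j - t) < 1 - t) := by
      intro j hj
      rw [Finset.mem_filter] at hj ⊢
      refine ⟨hj.1, ?_⟩
      have e3 := hθr j
      have e4 : Int.fract (θ j - t) = θ j - t :=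
        Int.fract_eq_self.mpr ⟨by linarith only [hj.2], by linarith only [e3.2, ht0]⟩
      rw [e4]
      linarith only [e3.2]
    exact_mod_cast Finset.card_le_card e2
  intro j
  have hj1 : (N : ℝ) * θ j ≤ j + N * h + S := by
    have e1 := hup (θ j) (hθr j).1 (hθr j).2.le
    have e2 : (N - (j : ℕ) : ℝ) ≤ ((Finset.univ.filter fun i => θ j ≤ θ i).card : ℝ) := by
      have e3 : Finset.Ici j ⊆ (Finset.univ.filter fun i => θ j ≤ θ i) := by
        intro i hi
        rw [Finset.mem_filter]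
        exact ⟨Finset.mem_univ _, hmono (Finset.mem_Ici.mp hi)⟩
      have e4 := Finset.card_le_card e3
      rw [Fin.card_Ici] at e4
      have e5 : ((N - (j : ℕ) : ℕ) : ℝ) = (N : ℝ) - (j : ℕ) := Nat.cast_sub j.2.le
      rw [← e5]
      exact_mod_cast e4
    nlinarith only [e1, e2]
  have hj2 : (j : ℝ) + 1 ≤ N * θ j + N * h + S := by
    refine le_of_forall_pos_le_add fun ε hε => ?_
    by_cases hc : θ j + ε / N ≤ 1
    · have e0 : 0 < ε / N := div_pos hε hN0
      have e1 := hlow (θ j + ε / N) (by linarith only [e0, (hθr j).1]) hc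
      have e2 : ((j : ℕ) : ℝ) + 1 ≤ ((Finset.univ.filter fun i => θ i < θ j + ε / N).card : ℝ) := by
        have e3 : Finset.Iic j ⊆ (Finset.univ.filter fun i => θ i < θ j + ε / N) := by
          intro i hi
          rw [Finset.mem_filter]
          have := hmono (Finset.mem_Iic.mp hi)
          exact ⟨Finset.mem_univ _, by linarith only [this, e0]⟩
        have e4 := Finset.card_le_card e3
        rw [Fin.card_Iic] at e4
        exact_mod_cast e4
      have e5 : (N : ℝ) * (θ j + ε / N + h) = N * θ j + N * h + ε := by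
        field_simp
        ring
      linarith only [e1, e2, e5]
    · push Not at hc
      have e1 : (N : ℝ) < N * θ j + ε := by
        have e2 : (N : ℝ) * 1 < N * (θ j + ε / N) := mul_lt_mul_of_pos_left hc hN0
        have e3 : (N : ℝ) * (θ j + ε / N) = N * θ j + ε := by field_simp
        linarith only [e2, e3]
      have e2 : ((j : ℕ) : ℝ) + 1 ≤ N := by exact_mod_cast j.2
      have e3 : 0 < (N : ℝ) * h := mul_pos hN0 h0
      linarith only [e1, e2, e3, hS0]
  have habs : |θ j - (j : ℕ) / N| ≤ h + 1 / N * S := by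
    have e1 : (N : ℝ) * (θ j - (j : ℕ) / N) = N * θ j - (j : ℕ) := by field_simp
    have e2 : (N : ℝ) * (h + 1 / N * S) = N * h + S := by field_simp
    rw [abs_le]
    constructor
    · refine le_of_mul_le_mul_left ?_ hN0
      rw [mul_neg, e1, e2]
      linarith only [hj2]
    · refine le_of_mul_le_mul_left ?_ hN0
      rw [e1, e2]
      linarith only [hj1]
  unfold lat
  refine (t08_dist _ _).trans ?_
  rw [hD]
  refine mul_le_mul_of_nonneg_left ?_ (by positivity)
  have : 0 < 1 / (N : ℝ) := by positivity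
  linarith only [habs, this]

end Ty
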