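import Pool.Agent.LibTy70.T01
import Pool.Agent.LibTy70.T02
import Pool.Agent.LibTy70.T06

/-! Row T09: expectation of `Dsc`. Plan: `0 ≤ wk h k`, `∑ wk h k < ∞` (`wk ≤ 1/(h (k+1)^2)`), `|tr| ≤ N`: continuity of the
series (`continuous_tsum`), integral of the series termwise (`integral_tsum`/ dominated). `E|tr_k| ≤ √(k N)` by T06 and
Cauchy-Schwarz (Jensen). `∑_k wk √(k N) = √N ∑ min(k^{-1/2}, k^{-3/2}/h) ≤ 6 √(N/h)`. With `h = N^{-1/3}`:
`E Dsc ≤ 2π (N^{-1/3} + N^{-1} + 6 N^{-1/2} N^{1/6}) ≤ C N^{-1/3}`. For `haarU`: right invariance under `dg t`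
(`sy (A * dg t) = dg t * sy A * dg t`), integrate over `t`, Fubini. -/

open MeasureTheory Set Filter Topology

namespace Ty

open QGr

/-- The bandwidth. -/
noncomputable def hb (N : ℕ) : ℝ := (N : ℝ) ^ (-(1 / 3) : ℝ)

theorem t09_wk_nonneg (h : ℝ) (h0 : 0 < h) (k : ℕ) : 0 ≤ wk h k := by
  unfold wk
  exact le_min (by positivity) (by positivity)

theorem t09_summable_sq : Summable fun k : ℕ => 1 / ((k : ℝ) + 1) ^ 2 := by
  have h1 := (summable_nat_add_iff 1).2 (Real.summable_one_div_nat_pow.2 (by norm_num : 1 < 2))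
  simpa using h1

theorem t09_wk_summable (h : ℝ) (h0 : 0 < h) (B : ℝ) : Summable fun k : ℕ => wk h k * B := by
  refine Summable.mul_right B ?_
  refine Summable.of_nonneg_of_le (t09_wk_nonneg h h0) (fun k => min_le_right _ _) ?_
  have := t09_summable_sq.mul_left (1 / h)
  refine this.congr fun k => ?_
  field_simp

theorem t09_tr_le {N : ℕ} (U : Uni N) : ‖Matrix.trace U.1‖ ≤ N := by
  unfold Matrix.trace
  refine (norm_sum_le _ _).trans ?_
  refine (Finset.sum_le_card_nsmul _ _ 1 fun i _ => ?_).trans ?_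
  · exact entry_norm_bound_of_unitary U.2 i i
  · simp

theorem t09_tr_cont {N : ℕ} (k : ℕ) : Continuous fun G : Uni N => ‖Matrix.trace ((G ^ k : Uni N).1)‖ := by
  have h1 : Continuous fun G : Uni N => (G ^ k : Uni N).1 := continuous_subtype_val.comp (continuous_pow k)
  exact (h1.matrix_trace).norm

theorem t09_term_cont {N : ℕ} (h : ℝ) (k : ℕ) :
    Continuous fun G : Uni N => wk h k * ‖Matrix.trace ((G ^ (k + 1) : Uni N).1)‖ :=
  continuous_const.mul (t09_tr_cont (k + 1))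

theorem dsc_cont {N : ℕ} (h : ℝ) (h0 : 0 < h) : Continuous (Dsc h : Uni N → ℝ) := by
  have h1 : Continuous fun G : Uni N => ∑' k : ℕ, wk h k * ‖Matrix.trace ((G ^ (k + 1) : Uni N).1)‖ := by
    refine continuous_tsum (fun k => t09_term_cont h k) (t09_wk_summable h h0 N) fun k G => ?_
    rw [Real.norm_of_nonneg (mul_nonneg (t09_wk_nonneg h h0 k) (norm_nonneg _))]
    exact mul_le_mul_of_nonneg_left (t09_tr_le _) (t09_wk_nonneg h h0 k)
  unfold Dsc
  exact continuous_const.mul (continuous_const.add (continuous_const.mul h1))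

theorem dsc_nonneg {N : ℕ} (h : ℝ) (h0 : 0 < h) (G : Uni N) : 0 ≤ Dsc h G := by
  unfold Dsc
  have h1 : 0 ≤ ∑' k : ℕ, wk h k * ‖Matrix.trace ((G ^ (k + 1) : Uni N).1)‖ :=
    tsum_nonneg fun k => mul_nonneg (t09_wk_nonneg h h0 k) (norm_nonneg _)
  have := Real.pi_pos
  positivity

theorem dsc_conj {N : ℕ} (h : ℝ) (V G : Uni N) : Dsc h (V * G * V⁻¹) = Dsc h G := by
  unfold Dsc
  have h1 : ∀ k : ℕ, Matrix.trace (((V * G * V⁻¹) ^ (k + 1) : Uni N).1) =
      Matrix.trace ((G ^ (k + 1) : Uni N).1) := by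
    intro k
    have h2 : (V * G * V⁻¹) ^ (k + 1) = V * G ^ (k + 1) * V⁻¹ := conj_pow
    rw [h2]
    change Matrix.trace (V.1 * (G ^ (k + 1) : Uni N).1 * (V⁻¹ : Uni N).1) = _
    rw [Matrix.trace_mul_comm, ← mul_assoc]
    have h3 : (V⁻¹ : Uni N).1 * V.1 = 1 := by
      have := congrArg Subtype.val (inv_mul_cancel V)
      exact this
    rw [h3, one_mul]
  simp only [h1]

theorem t09_prob {N : ℕ} : IsProbabilityMeasure (volume : Measure (Tor N)) := by
  infer_instance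

theorem t09_cs {Y : Type} [TopologicalSpace Y] [CompactSpace Y] [MeasurableSpace Y]
    [OpensMeasurableSpace Y] (μ : Measure Y) [IsProbabilityMeasure μ] (g : Y → ℝ) (hg : Continuous g) (B : ℝ)
    (hB : ∫ y, g y ^ 2 ∂μ ≤ B) : ∫ y, g y ∂μ ≤ √B := by
  set m := ∫ y, g y ∂μ with hm
  have i1 := AVG_int μ g hg
  have i2 := AVG_int μ (fun y => g y ^ 2) (hg.pow 2)
  have i3 : Integrable (fun y => 2 * m * g y) μ := i1.const_mul _
  have i4 : Integrable (fun _ : Y => m ^ 2) μ := integrable_const _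
  have h1 : 0 ≤ ∫ y, (g y - m) ^ 2 ∂μ := integral_nonneg fun y => sq_nonneg _
  have h2 : ∫ y, (g y - m) ^ 2 ∂μ = (∫ y, g y ^ 2 ∂μ) - m ^ 2 := by
    have h3 : ∀ y, (g y - m) ^ 2 = g y ^ 2 - 2 * m * g y + m ^ 2 := fun y => by ring
    have i5 : Integrable (fun y => g y ^ 2 - 2 * m * g y) μ := i2.sub i3
    simp only [h3]
    rw [integral_add i5 i4, integral_sub i2 i3, integral_const_mul, ← hm]
    simp
    ring
  rw [h2] at h1
  exact Real.le_sqrt_of_sq_le (by linarith)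

theorem t09_alg1 (x : ℝ) (hx : 0 < x) : 1 / (x ^ 2) * x = 1 / x := by
  field_simp

theorem t09_alg2 (h x : ℝ) (h0 : 0 < h) (hx : 0 < x) : 1 / (h * (x ^ 2) ^ 2) * x = 1 / h * (1 / (x ^ 3)) := by
  field_simp

theorem t09_sum1 (h : ℝ) (h0 : 0 < h) (n : ℕ) :
    ∑ k ∈ Finset.range n, wk h k * √((k : ℝ) + 1) ≤ 2 * √n := by
  induction n with
  | zero => simp
  | succ n ih =>
    rw [Finset.sum_range_succ]
    have h1 : wk h n * √((n : ℝ) + 1) ≤ 1 / √((n : ℝ) + 1) := by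
      have h2 : wk h n ≤ 1 / ((n : ℝ) + 1) := min_le_left _ _
      calc wk h n * √((n : ℝ) + 1) ≤ 1 / ((n : ℝ) + 1) * √((n : ℝ) + 1) :=
            mul_le_mul_of_nonneg_right h2 (Real.sqrt_nonneg _)
        _ = 1 / √((n : ℝ) + 1) := by
          have h3 : √((n : ℝ) + 1) ^ 2 = (n : ℝ) + 1 := Real.sq_sqrt (by positivity)
          have h4 : 0 < √((n : ℝ) + 1) := Real.sqrt_pos.2 (by positivity)
          have h5 := t09_alg1 _ h4
          rw [h3] at h5
          exact h5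
    have h5 : 1 / √((n : ℝ) + 1) ≤ 2 * √((n : ℝ) + 1) - 2 * √n := by
      have a1 : √((n : ℝ) + 1) ^ 2 = (n : ℝ) + 1 := Real.sq_sqrt (by positivity)
      have a2 : √(n : ℝ) ^ 2 = (n : ℝ) := Real.sq_sqrt (by positivity)
      have a3 : 0 < √((n : ℝ) + 1) := Real.sqrt_pos.2 (by positivity)
      have a4 : 0 ≤ √(n : ℝ) := Real.sqrt_nonneg _
      rw [div_le_iff₀ a3]
      nlinarith [sq_nonneg (√((n : ℝ) + 1) - √(n : ℝ))]
    push_cast
    linarith

theorem t09_sum2 (h : ℝ) (h0 : 0 < h) (m : ℕ) (hm : 1 ≤ m) (n : ℕ) (hn : m ≤ n) :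
    ∑ k ∈ Finset.range n, wk h k * √((k : ℝ) + 1) ≤ 2 * √m + 1 / h * (2 / √m - 2 / √n) := by
  induction n, hn using Nat.le_induction with
  | base =>
    rw [sub_self, mul_zero, add_zero]
    exact t09_sum1 h h0 m
  | succ n hn ih =>
    rw [Finset.sum_range_succ]
    have hn1 : (1 : ℝ) ≤ n := by exact_mod_cast hm.trans hn
    have a1 : √((n : ℝ) + 1) ^ 2 = (n : ℝ) + 1 := Real.sq_sqrt (by positivity)
    have a2 : √(n : ℝ) ^ 2 = (n : ℝ) := Real.sq_sqrt (by positivity)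
    have a3 : 0 < √((n : ℝ) + 1) := Real.sqrt_pos.2 (by positivity)
    have a4 : 0 < √(n : ℝ) := Real.sqrt_pos.2 (by linarith)
    have a5 : √(n : ℝ) ≤ √((n : ℝ) + 1) := Real.sqrt_le_sqrt (by linarith)
    have h1 : wk h n * √((n : ℝ) + 1) ≤ 1 / h * (1 / (√((n : ℝ) + 1) ^ 3)) := by
      have h2 : wk h n ≤ 1 / (h * ((n : ℝ) + 1) ^ 2) := min_le_right _ _
      calc wk h n * √((n : ℝ) + 1) ≤ 1 / (h * ((n : ℝ) + 1) ^ 2) * √((n : ℝ) + 1) :=
            mul_le_mul_of_nonneg_right h2 (Real.sqrt_nonneg _)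
        _ = 1 / h * (1 / (√((n : ℝ) + 1) ^ 3)) := by
          have h5 := t09_alg2 h _ h0 a3
          rw [a1] at h5
          exact h5
    have h5 : 1 / (√((n : ℝ) + 1) ^ 3) ≤ 2 / √n - 2 / √((n : ℝ) + 1) := by
      set x := √((n : ℝ) + 1) with hx
      set y := √(n : ℝ) with hy
      have b1 : x ^ 2 - y ^ 2 = 1 := by rw [a1, a2]; ring
      have b2 : 2 / y - 2 / x = 2 * (x - y) / (x * y) := by
        field_simp
      have b3 : 1 = (x - y) * (x + y) := by linarith [b1, (by ring : (x - y) * (x + y) = x ^ 2 - y ^ 2)]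
      have b4 : 0 < x - y := by
        by_contra hc
        have : (x - y) * (x + y) ≤ 0 := mul_nonpos_of_nonpos_of_nonneg (by linarith) (by linarith)
        linarith
      rw [b2, div_le_div_iff₀ (by positivity) (by positivity)]
      have b5 : x + y ≤ 2 * x := by linarith
      calc 1 * (x * y) = (x - y) * (x + y) * (x * y) := by rw [← b3]
        _ ≤ (x - y) * (2 * x) * (x * x) := by
          have c1 : (x - y) * (x + y) ≤ (x - y) * (2 * x) := mul_le_mul_of_nonneg_left b5 b4.le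
          have c2 : x * y ≤ x * x := mul_le_mul_of_nonneg_left a5 a3.le
          exact mul_le_mul c1 c2 (by positivity) (by positivity)
        _ = 2 * (x - y) * x ^ 3 := by ring
    have h6 : 1 / h * (1 / (√((n : ℝ) + 1) ^ 3)) ≤ 1 / h * (2 / √n - 2 / √((n : ℝ) + 1)) :=
      mul_le_mul_of_nonneg_left h5 (by positivity)
    push_cast
    have h7 : 1 / h * (2 / √m - 2 / √((n : ℝ) + 1)) =
        1 / h * (2 / √m - 2 / √n) + 1 / h * (2 / √n - 2 / √((n : ℝ) + 1)) := by ring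
    linarith

theorem t09_sum3 (h : ℝ) (h0 : 0 < h) (h1 : h ≤ 1) (n : ℕ) :
    ∑ k ∈ Finset.range n, wk h k * √((k : ℝ) + 1) ≤ 5 * √(1 / h) := by
  set H : ℝ := 1 / h with hH
  have hH1 : 1 ≤ H := by
    rw [hH, le_div_iff₀ h0]
    linarith
  set m : ℕ := ⌊H⌋₊ with hm
  have hm1 : 1 ≤ m := by
    rw [hm]
    exact Nat.le_floor (by simpa using hH1)
  have hmH : (m : ℝ) ≤ H := Nat.floor_le (by linarith)
  have hm2 : H ≤ 2 * m := by
    have h3 : H < m + 1 := Nat.lt_floor_add_one H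
    have h4 : (1 : ℝ) ≤ m := by exact_mod_cast hm1
    linarith
  have hmono : ∑ k ∈ Finset.range n, wk h k * √((k : ℝ) + 1) ≤
      ∑ k ∈ Finset.range (max m n), wk h k * √((k : ℝ) + 1) := by
    refine Finset.sum_le_sum_of_subset_of_nonneg ?_ fun k _ _ =>
      mul_nonneg (t09_wk_nonneg h h0 k) (Real.sqrt_nonneg _)
    intro k hk
    rw [Finset.mem_range] at hk ⊢
    exact hk.trans_le (le_max_right _ _)
  refine hmono.trans ((t09_sum2 h h0 m hm1 (max m n) (le_max_left _ _)).trans ?_)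
  have hs : 0 < √(m : ℝ) := Real.sqrt_pos.2 (by exact_mod_cast hm1)
  have hs2 : √(m : ℝ) ≤ √H := Real.sqrt_le_sqrt hmH
  have hsH : 0 < √H := Real.sqrt_pos.2 (by linarith)
  have e1 : √H ^ 2 = H := Real.sq_sqrt (by linarith)
  have e2 : √(m : ℝ) ^ 2 = m := Real.sq_sqrt (by positivity)
  have h5 : H * (2 / √m - 2 / √((max m n : ℕ) : ℝ)) ≤ H * (2 / √m) := by
    refine mul_le_mul_of_nonneg_left ?_ (by linarith)
    have : 0 ≤ 2 / √((max m n : ℕ) : ℝ) := by positivity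
    linarith
  have h6 : H * (2 / √m) ≤ 3 * √H := by
    rw [mul_div_assoc', div_le_iff₀ hs]
    have h7 : √H ≤ 3 / 2 * √m := by
      rw [← sq_le_sq₀ hsH.le (by positivity), mul_pow, e1, e2]
      linarith
    calc H * 2 = 2 * √H * √H := by rw [mul_assoc, ← pow_two, e1]; ring
      _ ≤ 2 * √H * (3 / 2 * √m) := mul_le_mul_of_nonneg_left h7 (by positivity)
      _ = 3 * √H * √m := by ring
  linarith

theorem t09_key {N : ℕ} (hN : 2 ≤ N) (X : Uni N) :
    ∫ t : Tor N, Dsc (hb N) (dg t * X * dg t) ≤ 14 * Real.pi * (N : ℝ) ^ (-(1 / 3) : ℝ) := by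
  have hN2 : (2 : ℝ) ≤ N := by exact_mod_cast hN
  have hN0 : (0 : ℝ) < N := by linarith
  have h0 : 0 < hb N := Real.rpow_pos_of_pos hN0 _
  have h1 : hb N ≤ 1 := by
    unfold hb
    exact Real.rpow_le_one_of_one_le_of_nonpos (by linarith) (by norm_num)
  have hc : Continuous fun t : Tor N => dg t * X * dg t := (dg_cont.mul continuous_const).mul dg_cont
  set F : ℕ → Tor N → ℝ := fun k t => wk (hb N) k *
    ‖Matrix.trace (((dg t * X * dg t) ^ (k + 1) : Uni N).1)‖ with hF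
  have hFc : ∀ k, Continuous (F k) := fun k => (t09_term_cont (hb N) k).comp hc
  have hFi : ∀ k, Integrable (F k) volume := fun k => AVG_int _ _ (hFc k)
  have hF0 : ∀ k t, 0 ≤ F k t := fun k t => mul_nonneg (t09_wk_nonneg _ h0 k) (norm_nonneg _)
  have hFle : ∀ k t, F k t ≤ wk (hb N) k * N := fun k t =>
    mul_le_mul_of_nonneg_left (t09_tr_le _) (t09_wk_nonneg _ h0 k)
  have hFint : ∀ k, ∫ t, F k t ≤ wk (hb N) k * √((k : ℝ) + 1) * √N := by
    intro k
    rw [hF]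
    simp only
    rw [integral_const_mul, mul_assoc]
    refine mul_le_mul_of_nonneg_left ?_ (t09_wk_nonneg _ h0 k)
    rw [← Real.sqrt_mul (by positivity)]
    refine t09_cs volume _ ((t09_tr_cont (k + 1)).comp hc) _ ?_
    have := words X (k + 1) (by omega)
    push_cast at this
    exact this
  have hsumm : Summable fun k => ∫ t, ‖F k t‖ := by
    refine Summable.of_nonneg_of_le (fun k => integral_nonneg fun t => norm_nonneg _) (fun k => ?_)
      (t09_wk_summable (hb N) h0 N)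
    have : ∀ t, ‖F k t‖ ≤ wk (hb N) k * N := fun t => by
      rw [Real.norm_of_nonneg (hF0 k t)]
      exact hFle k t
    have h3 : ∫ t, ‖F k t‖ ≤ ∫ _ : Tor N, wk (hb N) k * N :=
      integral_mono (hFi k).norm (integrable_const _) this
    simpa using h3
  have htsum : ∫ t, ∑' k, F k t = ∑' k, ∫ t, F k t :=
    (integral_tsum_of_summable_integral_norm hFi hsumm).symm
  have hbound : ∑' k, ∫ t, F k t ≤ 5 * √(1 / hb N) * √N := by
    refine Real.tsum_le_of_sum_range_le (fun k => integral_nonneg (hF0 k)) fun n => ?_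
    refine (Finset.sum_le_sum fun k _ => hFint k).trans ?_
    rw [← Finset.sum_mul]
    exact mul_le_mul_of_nonneg_right (t09_sum3 _ h0 h1 n) (Real.sqrt_nonneg _)
  have hTc : Continuous fun t : Tor N => ∑' k, F k t := by
    refine continuous_tsum hFc (t09_wk_summable (hb N) h0 N) fun k t => ?_
    rw [Real.norm_of_nonneg (hF0 k t)]
    exact hFle k t
  have hTi : Integrable (fun t : Tor N => ∑' k, F k t) volume := AVG_int _ _ hTc
  have hD : ∀ t : Tor N, Dsc (hb N) (dg t * X * dg t) =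
      2 * Real.pi * (hb N + 1 / N) + 2 * Real.pi * (1 / N) * ∑' k, F k t := by
    intro t
    unfold Dsc
    rw [hF]
    ring
  simp only [hD]
  rw [integral_add (integrable_const _) (hTi.const_mul _),
    integral_const_mul (2 * Real.pi * (1 / (N : ℝ))) (fun t : Tor N => ∑' k, F k t), htsum]
  have hpi := Real.pi_pos
  have e0 : ∫ _ : Tor N, 2 * Real.pi * (hb N + 1 / N) = 2 * Real.pi * (hb N + 1 / N) := by simp
  rw [e0]
  have e1 : (1 / N : ℝ) ≤ (N : ℝ) ^ (-(1 / 3) : ℝ) := by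
    rw [one_div, ← Real.rpow_neg_one]
    exact Real.rpow_le_rpow_of_exponent_le (by linarith) (by norm_num)
  have e2 : (1 / N : ℝ) * (5 * √(1 / hb N) * √N) = 5 * (N : ℝ) ^ (-(1 / 3) : ℝ) := by
    have g1 : √(1 / hb N) = (N : ℝ) ^ (1 / 6 : ℝ) := by
      rw [hb, one_div, ← Real.rpow_neg hN0.le, Real.sqrt_eq_rpow, ← Real.rpow_mul hN0.le]
      norm_num
    have g2 : √(N : ℝ) = (N : ℝ) ^ (1 / 2 : ℝ) := Real.sqrt_eq_rpow _
    rw [g1, g2, one_div, ← Real.rpow_neg_one]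
    calc (N : ℝ) ^ (-1 : ℝ) * (5 * (N : ℝ) ^ (1 / 6 : ℝ) * (N : ℝ) ^ (1 / 2 : ℝ))
        = 5 * ((N : ℝ) ^ (-1 : ℝ) * (N : ℝ) ^ (1 / 6 : ℝ) * (N : ℝ) ^ (1 / 2 : ℝ)) := by ring
      _ = _ := by
        rw [← Real.rpow_add hN0, ← Real.rpow_add hN0]
        norm_num
  have e3 : 2 * Real.pi * (1 / N) * ∑' k, ∫ t, F k t ≤ 2 * Real.pi * (5 * (N : ℝ) ^ (-(1 / 3) : ℝ)) := by
    rw [← e2, ← mul_assoc (2 * Real.pi)]
    exact mul_le_mul_of_nonneg_left hbound (by positivity)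
  have e4 : 2 * Real.pi * (hb N + 1 / N) ≤ 2 * Real.pi * (2 * (N : ℝ) ^ (-(1 / 3) : ℝ)) := by
    refine mul_le_mul_of_nonneg_left ?_ (by positivity)
    have : hb N = (N : ℝ) ^ (-(1 / 3) : ℝ) := rfl
    linarith
  refine (add_le_add e4 e3).trans (le_of_eq ?_)
  ring

theorem E_dsc : ∃ C : ℝ, 0 ≤ C ∧ ∀ N : ℕ, 2 ≤ N →
    (∀ X : Uni N, ∫ t : Tor N, Dsc (hb N) (dg t * X * dg t) ≤ C * (N : ℝ) ^ (-(1 / 3) : ℝ)) ∧
    ∫ A : Uni N, Dsc (hb N) (sy A) ∂(haarU N) ≤ C * (N : ℝ) ^ (-(1 / 3) : ℝ) := by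
  refine ⟨14 * Real.pi, by positivity, fun N hN => ⟨fun X => t09_key hN X, ?_⟩⟩
  have hN2 : (2 : ℝ) ≤ N := by exact_mod_cast hN
  have hN0 : (0 : ℝ) < N := by linarith
  have h0 : 0 < hb N := Real.rpow_pos_of_pos hN0 _
  have := haar_prob N
  have := sc_uni N
  have hc : Continuous (Function.uncurry fun (A : Uni N) (t : Tor N) => Dsc (hb N) (dg t * sy A * dg t)) :=
    (dsc_cont (hb N) h0).comp (((dg_cont.comp continuous_snd).mul (sy_cont.comp continuous_fst)).mul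
      (dg_cont.comp continuous_snd))
  have h1 : ∀ t : Tor N, ∫ A : Uni N, Dsc (hb N) (dg t * sy A * dg t) ∂(haarU N) =
      ∫ A : Uni N, Dsc (hb N) (sy A) ∂(haarU N) := by
    intro t
    rw [← intU_right (dg t) (fun A => Dsc (hb N) (sy A))]
    simp only [sy_dg]
  have h2 : ∫ A : Uni N, (∫ t : Tor N, Dsc (hb N) (dg t * sy A * dg t)) ∂(haarU N) =
      ∫ A : Uni N, Dsc (hb N) (sy A) ∂(haarU N) := by
    rw [integral_integral_swap]
    · simp only [h1]
      simp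
    · exact AVG_int _ _ hc
  rw [← h2]
  have h3 : Continuous fun A : Uni N => ∫ t : Tor N, Dsc (hb N) (dg t * sy A * dg t) := by
    have := AVG_fc N
    have h4 := continuous_parametric_integral_of_continuous (μ := (volume : Measure (Tor N))) hc
      (isCompact_univ (X := Tor N))
    simp only [Measure.restrict_univ] at h4
    exact h4
  have h5 := integral_mono (μ := haarU N) (AVG_int _ _ h3)
    (integrable_const (14 * Real.pi * (N : ℝ) ^ (-(1 / 3) : ℝ))) fun A => t09_key hN (sy A)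
  simpa using h5

end Ty
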