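import Pool.Agent.LibTy70.T01
import Pool.Agent.LibTy70.T02

/-! Row T10: fourth moments on the sphere. Plan: `M = S^T diag(μ) S` with `S` real orthogonal
(`Matrix.IsHermitian.spectral_theorem` over ℝ), `∑ μ = 0`, `∑ μ² = ∑ M_xy²`; replace `O` by `O S` (intO_right):
the quadratic form becomes `∑_x μ_x o_x²`, `o` = row `a` of `O`. By right invariance under permutations
(columns) `A = E o_x⁴`, `B = E o_x² o_y²` (x ≠ y) do not depend on `x, y`; `∑_x o_x² = 1` gives `N A + N (N-1) B = 1`;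
the rotation by 45 degrees in the plane `(x, y)` and the reflection `o_y → -o_y` give `A = 3 B`. So
`A - B = 2/(N(N+2))` and `E (∑ μ o²)² = (A - B) ∑ μ² + B (∑ μ)²`. -/

open MeasureTheory Set Filter Topology

namespace Ty

open QGr

open Matrix in
private noncomputable def t10_H {N : ℕ} (d : Fin N → ℝ) : Matrix (Fin N) (Fin N) ℝ :=
  1 - (2 / (d ⬝ᵥ d)) • vecMulVec d d

open Matrix in
private lemma t10_Hm {N : ℕ} (d : Fin N → ℝ) (hd : d ⬝ᵥ d ≠ 0) :
    t10_H d ∈ Matrix.orthogonalGroup (Fin N) ℝ := by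
  rw [Matrix.mem_orthogonalGroup_iff]
  have h1 : (t10_H d)ᵀ = t10_H d := by
    unfold t10_H
    rw [Matrix.transpose_sub, Matrix.transpose_one, Matrix.transpose_smul,
      Matrix.transpose_vecMulVec]
  rw [h1]
  unfold t10_H
  rw [mul_sub, sub_mul, sub_mul, one_mul, mul_one, one_mul, Matrix.smul_mul, Matrix.mul_smul,
    Matrix.vecMulVec_mul_vecMulVec, Matrix.vecMulVec_smul]
  have h2 : (2 / (d ⬝ᵥ d)) • ((2 / (d ⬝ᵥ d)) • ((d ⬝ᵥ d) • vecMulVec d d)) =
      (2 / (d ⬝ᵥ d)) • vecMulVec d d + (2 / (d ⬝ᵥ d)) • vecMulVec d d := by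
    rw [smul_smul, smul_smul, ← add_smul]
    congr 1
    field_simp
    norm_num
  rw [h2]
  abel

open Matrix in
private lemma t10_Hv {N : ℕ} (v w : Fin N → ℝ) (h : v ⬝ᵥ v = w ⬝ᵥ w)
    (hd : (v - w) ⬝ᵥ (v - w) ≠ 0) : t10_H (v - w) *ᵥ v = w := by
  unfold t10_H
  rw [Matrix.sub_mulVec, Matrix.one_mulVec, Matrix.smul_mulVec, Matrix.vecMulVec_mulVec]
  have h1 : (v - w) ⬝ᵥ (v - w) = 2 * ((v - w) ⬝ᵥ v) := by
    simp only [sub_dotProduct, dotProduct_sub]
    rw [dotProduct_comm w v]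
    linarith
  have h2 : (v - w) ⬝ᵥ v ≠ 0 := by
    intro h0
    rw [h0, mul_zero] at h1
    exact hd h1
  rw [h1]
  ext i
  simp only [Pi.sub_apply, Pi.smul_apply, smul_eq_mul, MulOpposite.smul_eq_mul_unop,
    MulOpposite.unop_op]
  field_simp
  ring

open Matrix in
private noncomputable def t10_F {N : ℕ} (a : Fin N) (v : Fin N → ℝ) : ℝ :=
  ∫ O : Orth N, ((O.1 a) ⬝ᵥ v) ^ 4 ∂(haarO N)

open Matrix in
private lemma t10_F1 {N : ℕ} (a : Fin N) (v w : Fin N → ℝ) (h : v ⬝ᵥ v = w ⬝ᵥ w) :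
    t10_F a v = t10_F a w := by
  by_cases hd : (v - w) ⬝ᵥ (v - w) = 0
  · have : v - w = 0 := dotProduct_self_eq_zero.1 hd
    rw [sub_eq_zero.1 this]
  · unfold t10_F
    rw [← intO_right ⟨t10_H (v - w), t10_Hm _ hd⟩ fun O : Orth N => ((O.1 a) ⬝ᵥ v) ^ 4]
    refine integral_congr_ae (Filter.Eventually.of_forall fun O => ?_)
    have h1 : ((O * ⟨t10_H (v - w), t10_Hm _ hd⟩ : Orth N).1 a) = O.1 a ᵥ* t10_H (v - w) := rfl
    change (((O * ⟨t10_H (v - w), t10_Hm _ hd⟩ : Orth N).1 a) ⬝ᵥ v) ^ 4 = _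
    rw [h1, ← Matrix.dotProduct_mulVec, t10_Hv v w h hd]

private lemma t10_int {N : ℕ} (f : Orth N → ℝ) (hf : Continuous f) : Integrable f (haarO N) := by
  have := prob_haarO N
  have := sc_orth N
  exact hf.integrable_of_hasCompactSupport (HasCompactSupport.of_compactSpace f)

open Matrix in
private lemma t10_cont {N : ℕ} (a : Fin N) (v : Fin N → ℝ) :
    Continuous fun O : Orth N => (O.1 a) ⬝ᵥ v := by
  unfold dotProduct
  refine continuous_finsetSum _ fun x _ => ?_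
  have h1 : Continuous fun O : Orth N => (O.1 : Matrix (Fin N) (Fin N) ℝ) := continuous_subtype_val
  exact (h1.matrix_elem a x).mul continuous_const

open Matrix in
private lemma t10_F2 {N : ℕ} (a : Fin N) (v : Fin N → ℝ) :
    t10_F a v = (v ⬝ᵥ v) ^ 2 * t10_F a (Pi.single a 1) := by
  have h0 : 0 ≤ v ⬝ᵥ v := by
    unfold dotProduct
    exact Finset.sum_nonneg fun i _ => mul_self_nonneg _
  have h1 : v ⬝ᵥ v = (√(v ⬝ᵥ v) • (Pi.single a 1 : Fin N → ℝ)) ⬝ᵥ
      (√(v ⬝ᵥ v) • (Pi.single a 1 : Fin N → ℝ)) := by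
    rw [smul_dotProduct, dotProduct_smul, single_dotProduct, Pi.single_eq_same]
    simp only [smul_eq_mul, mul_one]
    exact (Real.mul_self_sqrt h0).symm
  rw [t10_F1 a v _ h1]
  unfold t10_F
  rw [← integral_const_mul]
  refine integral_congr_ae (Filter.Eventually.of_forall fun O => ?_)
  change (O.1 a ⬝ᵥ (√(v ⬝ᵥ v) • (Pi.single a 1 : Fin N → ℝ))) ^ 4 = _
  rw [dotProduct_smul, smul_eq_mul, mul_pow]
  congr 1
  calc √(v ⬝ᵥ v) ^ 4 = (√(v ⬝ᵥ v) * √(v ⬝ᵥ v)) ^ 2 := by ring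
    _ = _ := by rw [Real.mul_self_sqrt h0]

open Matrix in
private lemma t10_G {N : ℕ} (a : Fin N) (v w : Fin N → ℝ) :
    ∫ O : Orth N, ((O.1 a) ⬝ᵥ v) ^ 2 * ((O.1 a) ⬝ᵥ w) ^ 2 ∂(haarO N) =
      t10_F a (Pi.single a 1) / 3 * ((v ⬝ᵥ v) * (w ⬝ᵥ w) + 2 * (v ⬝ᵥ w) ^ 2) := by
  have hi : ∀ u : Fin N → ℝ, Integrable (fun O : Orth N => ((O.1 a) ⬝ᵥ u) ^ 4) (haarO N) :=
    fun u => t10_int _ ((t10_cont a u).pow 4)
  have h1 : ∫ O : Orth N, ((O.1 a) ⬝ᵥ v) ^ 2 * ((O.1 a) ⬝ᵥ w) ^ 2 ∂(haarO N) =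
      ∫ O : Orth N, 1 / 12 * (((((O.1 a) ⬝ᵥ (v + w)) ^ 4 + ((O.1 a) ⬝ᵥ (v - w)) ^ 4) -
        2 * ((O.1 a) ⬝ᵥ v) ^ 4) - 2 * ((O.1 a) ⬝ᵥ w) ^ 4) ∂(haarO N) := by
    refine integral_congr_ae (Filter.Eventually.of_forall fun O => ?_)
    simp only [dotProduct_add, dotProduct_sub]
    ring
  have i1 : Integrable (fun O : Orth N => ((O.1 a) ⬝ᵥ (v + w)) ^ 4 + ((O.1 a) ⬝ᵥ (v - w)) ^ 4)
      (haarO N) := (hi _).add (hi _)
  have i2 : Integrable (fun O : Orth N => 2 * ((O.1 a) ⬝ᵥ v) ^ 4) (haarO N) := (hi _).const_mul 2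
  have i3 : Integrable (fun O : Orth N => 2 * ((O.1 a) ⬝ᵥ w) ^ 4) (haarO N) := (hi _).const_mul 2
  have i4 : Integrable (fun O : Orth N => (((O.1 a) ⬝ᵥ (v + w)) ^ 4 + ((O.1 a) ⬝ᵥ (v - w)) ^ 4) -
      2 * ((O.1 a) ⬝ᵥ v) ^ 4) (haarO N) := i1.sub i2
  have h2 : ∫ O : Orth N, (((((O.1 a) ⬝ᵥ (v + w)) ^ 4 + ((O.1 a) ⬝ᵥ (v - w)) ^ 4) -
        2 * ((O.1 a) ⬝ᵥ v) ^ 4) - 2 * ((O.1 a) ⬝ᵥ w) ^ 4) ∂(haarO N) =
      t10_F a (v + w) + t10_F a (v - w) - 2 * t10_F a v - 2 * t10_F a w := by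
    rw [integral_sub i4 i3, integral_sub i1 i2, integral_add (hi _) (hi _), integral_const_mul,
      integral_const_mul]
    rfl
  rw [h1, integral_const_mul, h2]
  rw [t10_F2 a (v + w), t10_F2 a (v - w), t10_F2 a v, t10_F2 a w]
  simp only [dotProduct_add, dotProduct_sub, add_dotProduct, sub_dotProduct]
  rw [dotProduct_comm w v]
  ring

/-- The normalisation. -/
private lemma t10_A {N : ℕ} (hN : 2 ≤ N) (a : Fin N) :
    t10_F a (Pi.single a 1) / 3 = 1 / (N * (N + 2)) := by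
  have := prob_haarO N
  have h1 : ∀ O : Orth N, ∑ x, (O.1 a x) ^ 2 = 1 := by
    intro O
    have h2 := (Matrix.mem_orthogonalGroup_iff (Fin N) ℝ).1 O.2
    have h3 := congrFun (congrFun h2 a) a
    rw [Matrix.mul_apply, Matrix.one_apply_eq] at h3
    rw [← h3]
    refine Finset.sum_congr rfl fun x _ => ?_
    rw [sq]
    rfl
  have h4 : ∫ O : Orth N, ∑ x, ∑ y, (O.1 a x) ^ 2 * (O.1 a y) ^ 2 ∂(haarO N) = 1 := by
    have : ∀ O : Orth N, ∑ x, ∑ y, (O.1 a x) ^ 2 * (O.1 a y) ^ 2 = 1 := by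
      intro O
      rw [← Finset.sum_mul_sum, h1, mul_one]
    simp only [this]
    simp
  have hs : ∀ (O : Orth N) (x : Fin N), O.1 a x = dotProduct (O.1 a) (Pi.single x 1) := by
    intro O x
    rw [dotProduct_single, mul_one]
  have hi : ∀ x y : Fin N, Integrable (fun O : Orth N => (O.1 a x) ^ 2 * (O.1 a y) ^ 2) (haarO N) := by
    intro x y
    refine t10_int _ ?_
    simp only [hs]
    exact ((t10_cont a _).pow 2).mul ((t10_cont a _).pow 2)
  rw [integral_finsetSum _ fun x _ => integrable_finsetSum _ fun y _ => hi x y] at h4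
  have h5 : ∀ x : Fin N, ∫ O : Orth N, ∑ y, (O.1 a x) ^ 2 * (O.1 a y) ^ 2 ∂(haarO N) =
      ∑ y, t10_F a (Pi.single a 1) / 3 * (1 + 2 * (if x = y then 1 else 0)) := by
    intro x
    rw [integral_finsetSum _ fun y _ => hi x y]
    refine Finset.sum_congr rfl fun y _ => ?_
    have h6 := t10_G a (Pi.single x 1) (Pi.single y 1)
    simp only [← hs] at h6
    rw [h6]
    congr 1
    rw [single_dotProduct, single_dotProduct, single_dotProduct, Pi.single_eq_same,
      Pi.single_eq_same]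
    by_cases hxy : x = y
    · subst hxy
      simp
    · rw [Pi.single_eq_of_ne hxy]
      simp [hxy]
  simp only [h5] at h4
  have h7 : ∑ x : Fin N, ∑ y : Fin N, t10_F a (Pi.single a 1) / 3 * (1 + 2 * (if x = y then 1 else 0)) =
      t10_F a (Pi.single a 1) / 3 * (N * (N + 2)) := by
    simp only [← Finset.mul_sum, Finset.sum_add_distrib, Finset.sum_ite_eq, Finset.mem_univ,
      if_true, Finset.sum_const, Finset.card_univ, Fintype.card_fin, nsmul_eq_mul, mul_one]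
    ring
  rw [h7] at h4
  have hN0 : (0 : ℝ) < N := by exact_mod_cast (by omega : 0 < N)
  rw [eq_div_iff (by positivity)]
  exact h4

theorem sph4 {N : ℕ} (hN : 2 ≤ N) (a : Fin N) (M : Matrix (Fin N) (Fin N) ℝ)
    (hM : M.transpose = M) (ht : M.trace = 0) :
    ∫ O : Orth N, (∑ x, ∑ y, O.1 a x * M x y * O.1 a y) ^ 2 ∂(haarO N) =
      2 / (N * (N + 2)) * ∑ x, ∑ y, M x y ^ 2 := by
  have hH : M.IsHermitian := by
    rw [Matrix.IsHermitian, Matrix.conjTranspose_eq_transpose_of_trivial]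
    exact hM
  set S : Matrix (Fin N) (Fin N) ℝ := hH.eigenvectorUnitary.1 with hS
  set μ : Fin N → ℝ := hH.eigenvalues with hμ
  have hs1 : S.transpose * S = 1 := by
    have := (Matrix.mem_orthogonalGroup_iff' (Fin N) ℝ).1 hH.eigenvectorUnitary.2
    exact this
  have hspec : M = S * Matrix.diagonal μ * S.transpose := by
    have h1 := hH.spectral_theorem
    rw [Unitary.conjStarAlgAut_apply] at h1
    exact h1
  -- columns
  let v : Fin N → Fin N → ℝ := fun i x => S x i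
  have hv : ∀ i j, dotProduct (v i) (v j) = if i = j then 1 else 0 := by
    intro i j
    have h2 := congrFun (congrFun hs1 i) j
    rw [Matrix.mul_apply, Matrix.one_apply] at h2
    rw [← h2]
    rfl
  have hMxy : ∀ x y, M x y = ∑ i, μ i * (v i x * v i y) := by
    intro x y
    conv_lhs => rw [hspec]
    rw [Matrix.mul_apply]
    refine Finset.sum_congr rfl fun i _ => ?_
    rw [Matrix.mul_diagonal, Matrix.transpose_apply]
    ring
  have hq : ∀ O : Orth N, ∑ x, ∑ y, O.1 a x * M x y * O.1 a y =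
      ∑ i, μ i * (dotProduct (O.1 a) (v i)) ^ 2 := by
    intro O
    have h3 : ∀ i, μ i * (dotProduct (O.1 a) (v i)) ^ 2 =
        ∑ x, ∑ y, μ i * ((O.1 a x * v i x) * (O.1 a y * v i y)) := by
      intro i
      rw [sq]
      unfold dotProduct
      rw [Finset.sum_mul_sum, Finset.mul_sum]
      refine Finset.sum_congr rfl fun x _ => ?_
      rw [Finset.mul_sum]
    simp only [h3]
    conv_rhs => rw [Finset.sum_comm]
    refine Finset.sum_congr rfl fun x _ => ?_
    conv_rhs => rw [Finset.sum_comm]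
    refine Finset.sum_congr rfl fun y _ => ?_
    rw [hMxy, Finset.mul_sum, Finset.sum_mul]
    refine Finset.sum_congr rfl fun i _ => ?_
    ring
  have hvv : ∀ i, ∑ x, v i x * v i x = 1 := by
    intro i
    have h4 := hv i i
    rw [if_pos rfl] at h4
    exact h4
  have ht' : ∑ i, μ i = 0 := by
    rw [← ht, Matrix.trace]
    simp only [Matrix.diag_apply, hMxy]
    rw [Finset.sum_comm]
    refine Finset.sum_congr rfl fun i _ => ?_
    rw [← Finset.mul_sum, hvv, mul_one]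
  have hMv : ∀ i x, ∑ y, M x y * v i y = μ i * v i x := by
    intro i x
    have h5 : ∀ y, M x y * v i y = ∑ j, μ j * v j x * (v j y * v i y) := by
      intro y
      rw [hMxy, Finset.sum_mul]
      refine Finset.sum_congr rfl fun j _ => ?_
      ring
    simp only [h5]
    rw [Finset.sum_comm]
    have h6 : ∀ j, ∑ y, μ j * v j x * (v j y * v i y) = if j = i then μ j * v j x else 0 := by
      intro j
      rw [← Finset.mul_sum]
      have h7 : ∑ y, v j y * v i y = if j = i then 1 else 0 := hv j i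
      rw [h7]
      split_ifs <;> ring
    simp only [h6]
    rw [Finset.sum_ite_eq' Finset.univ i]
    simp
  have hsq : ∑ x, ∑ y, M x y ^ 2 = ∑ i, μ i ^ 2 := by
    have h5 : ∀ x y, M x y ^ 2 = ∑ i, μ i * v i x * (M x y * v i y) := by
      intro x y
      conv_lhs => rw [sq]
      conv_lhs => rhs; rw [hMxy]
      rw [Finset.mul_sum]
      refine Finset.sum_congr rfl fun i _ => ?_
      ring
    have h6 : ∀ x, ∑ y, M x y ^ 2 = ∑ i, μ i ^ 2 * (v i x * v i x) := by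
      intro x
      simp only [h5]
      rw [Finset.sum_comm]
      refine Finset.sum_congr rfl fun i _ => ?_
      rw [← Finset.mul_sum, hMv]
      ring
    simp only [h6]
    rw [Finset.sum_comm]
    refine Finset.sum_congr rfl fun i _ => ?_
    rw [← Finset.mul_sum, hvv, mul_one]
  simp only [hq]
  have hi : ∀ i j : Fin N, Integrable (fun O : Orth N => (μ i * μ j) *
      ((dotProduct (O.1 a) (v i)) ^ 2 * (dotProduct (O.1 a) (v j)) ^ 2)) (haarO N) := by
    intro i j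
    refine t10_int _ ?_
    exact continuous_const.mul (((t10_cont a _).pow 2).mul ((t10_cont a _).pow 2))
  have h8 : ∀ O : Orth N, (∑ i, μ i * (dotProduct (O.1 a) (v i)) ^ 2) ^ 2 =
      ∑ i, ∑ j, (μ i * μ j) *
      ((dotProduct (O.1 a) (v i)) ^ 2 * (dotProduct (O.1 a) (v j)) ^ 2) := by
    intro O
    rw [sq, Finset.sum_mul_sum]
    refine Finset.sum_congr rfl fun i _ => Finset.sum_congr rfl fun j _ => ?_
    ring
  simp only [h8]
  rw [integral_finsetSum _ fun x _ => integrable_finsetSum _ fun y _ => hi x y]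
  have h9 : ∀ i : Fin N, ∫ O : Orth N, ∑ j, (μ i * μ j) *
      ((dotProduct (O.1 a) (v i)) ^ 2 * (dotProduct (O.1 a) (v j)) ^ 2) ∂(haarO N) =
      ∑ j, (μ i * μ j) * (1 / (N * (N + 2)) * (1 + 2 * (if i = j then 1 else 0))) := by
    intro i
    rw [integral_finsetSum _ fun y _ => hi i y]
    refine Finset.sum_congr rfl fun j _ => ?_
    rw [integral_const_mul, t10_G, t10_A hN, hv, hv, hv]
    by_cases hij : i = j
    · simp [hij]
    · simp [hij]
  simp only [h9]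
  rw [hsq]
  have h10 : ∑ i, ∑ j, (μ i * μ j) * (1 / ((N : ℝ) * (N + 2)) * (1 + 2 * (if i = j then 1 else 0))) =
      1 / ((N : ℝ) * (N + 2)) * ((∑ i, μ i) * (∑ j, μ j)) + 2 / ((N : ℝ) * (N + 2)) * ∑ i, μ i ^ 2 := by
    rw [Finset.sum_mul_sum, Finset.mul_sum, Finset.mul_sum, ← Finset.sum_add_distrib]
    refine Finset.sum_congr rfl fun i _ => ?_
    have : ∀ j, (μ i * μ j) * (1 / ((N : ℝ) * (N + 2)) * (1 + 2 * (if i = j then 1 else 0))) =
        1 / ((N : ℝ) * (N + 2)) * (μ i * μ j) + (if i = j then 2 / ((N : ℝ) * (N + 2)) * (μ i * μ j) else 0) := by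
      intro j
      split_ifs <;> ring
    simp only [this]
    rw [Finset.sum_add_distrib, Finset.sum_ite_eq, ← Finset.mul_sum]
    simp only [Finset.mem_univ, if_true]
    ring
  rw [h10, ht']
  ring

end Ty
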