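import Pool.Agent.LibTy70.T03
import Pool.Agent.LibTy70.T10

/-! Row T11: average over the conjugates of `K`. Plan: `K' = O K O^T`. `An_dg` (T03) with `s(x) = |∑_{i<n} e(i x)|²/n²`,
`s(0) = 1`: `|An n K' (dg γ)|² = ∑_a |K'_aa|² + ∑_{a≠b} |K'_ab|² s(γ_a - γ_b)`. Diagonal: `K'_aa = ∑ O_ax O_ay K_xy =
∑ O_ax O_ay Re K_xy` (K Hermitian: Re K symmetric, Im K antisymmetric), T10: `E |K'_aa|² = 2/(N(N+2)) ∑ (Re K)² ≤
2/(N(N+2)) |K|²`. Off-diagonal: `E |K'_ab|²` is the same number `w` for all `a ≠ b` (left invariance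
under permutation matrices), `N (N-1) w ≤ E |K'|² = |K|²`. Finally `∑_{a,b} s(γ_a - γ_b) = n^{-2} ∑_{i,k<n} |tr (dg γ)^(i-k)|²`. -/

open MeasureTheory Set Filter Topology

namespace Ty

open QGr

variable {N : ℕ}

/-- The entries of the conjugate. -/
noncomputable def t11_e (K : Mat N) (O : Orth N) (a b : Fin N) : ℂ :=
  ∑ x, ∑ y, (O.1 a x : ℂ) * K x y * (O.1 b y : ℂ)

theorem t11_entry (K : Mat N) (O : Orth N) (a b : Fin N) :
    ((cx O).1 * K * ((cx O)⁻¹ : Uni N).1) a b = t11_e K O a b := by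
  rw [cx_inv, Matrix.mul_apply]
  have h : ∀ y, (cx O⁻¹).1 y b = (O.1 b y : ℂ) := by
    intro y
    rw [cx_apply]
    rfl
  simp only [h, Matrix.mul_apply, cx_apply, Finset.sum_mul]
  rw [Finset.sum_comm]
  rfl

theorem t11_cont (K : Mat N) (a b : Fin N) : Continuous fun O : Orth N => t11_e K O a b := by
  unfold t11_e
  refine continuous_finsetSum _ fun x _ => continuous_finsetSum _ fun y _ => ?_
  have h : ∀ c d : Fin N, Continuous fun O : Orth N => ((O.1 c d : ℝ) : ℂ) := by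
    intro c d
    exact Complex.continuous_ofReal.comp
      ((continuous_apply d).comp ((continuous_apply c).comp continuous_subtype_val))
  exact ((h a x).mul continuous_const).mul (h b y)

theorem t11_int (K : Mat N) (a b : Fin N) :
    Integrable (fun O : Orth N => ‖t11_e K O a b‖ ^ 2) (haarO N) := by
  have := prob_haarO N
  exact ((t11_cont K a b).norm.pow 2).integrable_of_hasCompactSupport
    (HasCompactSupport.of_compactSpace _)

/-- The permutation matrix. -/
theorem t11_perm (σ : Equiv.Perm (Fin N)) : ∃ R : Orth N, ∀ (O : Orth N) (a x : Fin N),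
    (R * O).1 a x = O.1 (σ a) x := by
  refine ⟨⟨σ.permMatrix ℝ, ?_⟩, ?_⟩
  · rw [Matrix.mem_orthogonalGroup_iff]
    ext i j
    simp [Matrix.mul_apply, PEquiv.toMatrix, Matrix.one_apply, Equiv.toPEquiv, Equiv.Perm.permMatrix]
  · intro O a x
    show ((σ.permMatrix ℝ) * O.1) a x = _
    simp [Matrix.mul_apply, Equiv.Perm.permMatrix, PEquiv.toMatrix, Equiv.toPEquiv]

theorem t11_off (K : Mat N) (a b c d : Fin N) (hab : a ≠ b) (hcd : c ≠ d) :
    ∫ O : Orth N, ‖t11_e K O a b‖ ^ 2 ∂(haarO N) = ∫ O : Orth N, ‖t11_e K O c d‖ ^ 2 ∂(haarO N) := by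
  obtain ⟨σ, h1, h2⟩ : ∃ σ : Equiv.Perm (Fin N), σ a = c ∧ σ b = d := by
    by_cases h : c = b
    · subst h
      by_cases h' : d = a
      · subst h'
        exact ⟨Equiv.swap d c, by simp, by simp⟩
      · refine ⟨Equiv.swap d c * Equiv.swap a d, ?_, ?_⟩
        · simp
        · rw [Equiv.Perm.mul_apply, Equiv.swap_apply_of_ne_of_ne hab.symm hcd]
          simp
    · refine ⟨Equiv.swap (Equiv.swap a c b) d * Equiv.swap a c, ?_, ?_⟩
      · rw [Equiv.Perm.mul_apply, Equiv.swap_apply_left, Equiv.swap_apply_of_ne_of_ne _ hcd]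
        intro h3
        have : Equiv.swap a c a = Equiv.swap a c b := by rw [Equiv.swap_apply_left]; exact h3
        exact hab ((Equiv.swap a c).injective this)
      · rw [Equiv.Perm.mul_apply, Equiv.swap_apply_left]
  obtain ⟨R, hR⟩ := t11_perm σ
  have := intO_left R (fun O : Orth N => ‖t11_e K O a b‖ ^ 2)
  rw [← this]
  refine integral_congr_ae (Eventually.of_forall fun O => ?_)
  simp only [t11_e, hR, h1, h2]

theorem t11_fro (K : Mat N) (O : Orth N) : ∑ a, ∑ b, ‖t11_e K O a b‖ ^ 2 = fro K ^ 2 := by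
  rw [← fro_uni (cx O) (cx O)⁻¹ K, fro_sq]
  simp only [t11_entry]

theorem t11_diag (hN : 2 ≤ N) (K : Mat N) (hK : K.IsHermitian) (ht : K.trace = 0) (a : Fin N) :
    ∫ O : Orth N, ‖t11_e K O a a‖ ^ 2 ∂(haarO N) ≤ 2 / (N * (N + 2)) * fro K ^ 2 := by
  have hs : (K.map Complex.re).transpose = K.map Complex.re := by
    ext i j
    have := congrFun (congrFun hK i) j
    simp only [Matrix.conjTranspose_apply] at this
    simp only [Matrix.transpose_apply, Matrix.map_apply]
    rw [← this]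
    simp
  have htr : (K.map Complex.re).trace = 0 := by
    have := congrArg Complex.re ht
    simpa [Matrix.trace] using this
  have h := sph4 hN a (K.map Complex.re) hs htr
  have he : ∀ O : Orth N, ‖t11_e K O a a‖ ^ 2 =
      (∑ x, ∑ y, O.1 a x * (K.map Complex.re) x y * O.1 a y) ^ 2 := by
    intro O
    have hre : t11_e K O a a = ((∑ x, ∑ y, O.1 a x * (K.map Complex.re) x y * O.1 a y : ℝ) : ℂ) := by
      apply Complex.ext
      · simp [t11_e, Matrix.map_apply]
      · rw [Complex.ofReal_im]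
        have h1 : (t11_e K O a a).im = ∑ x, ∑ y, O.1 a x * (K x y).im * O.1 a y := by
          simp [t11_e]
        have h2 : (t11_e K O a a).im = -(t11_e K O a a).im := by
          rw [h1]
          conv_lhs => rw [Finset.sum_comm]
          rw [← Finset.sum_neg_distrib]
          refine Finset.sum_congr rfl fun x _ => ?_
          rw [← Finset.sum_neg_distrib]
          refine Finset.sum_congr rfl fun y _ => ?_
          have := congrFun (congrFun hK x) y
          simp only [Matrix.conjTranspose_apply] at this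
          rw [← this]
          simp
          ring
        linarith
    rw [hre, Complex.norm_real, Real.norm_eq_abs, sq_abs]
  simp only [he]
  rw [h]
  refine mul_le_mul_of_nonneg_left ?_ (by positivity)
  rw [fro_sq]
  refine Finset.sum_le_sum fun x _ => Finset.sum_le_sum fun y _ => ?_
  rw [Matrix.map_apply, ← sq_abs]
  exact pow_le_pow_left₀ (abs_nonneg _) (Complex.abs_re_le_norm _) 2

theorem t11_offle (hN : 2 ≤ N) (K : Mat N) (a b : Fin N) (hab : a ≠ b) :
    ∫ O : Orth N, ‖t11_e K O a b‖ ^ 2 ∂(haarO N) ≤ 1 / (N * (N - 1)) * fro K ^ 2 := by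
  have := prob_haarO N
  set w := ∫ O : Orth N, ‖t11_e K O a b‖ ^ 2 ∂(haarO N) with hw
  have h1 : ∑ c : Fin N, ∑ d : Fin N, ∫ O : Orth N, ‖t11_e K O c d‖ ^ 2 ∂(haarO N) = fro K ^ 2 := by
    have : ∫ O : Orth N, ∑ c, ∑ d, ‖t11_e K O c d‖ ^ 2 ∂(haarO N) = fro K ^ 2 := by
      simp only [t11_fro]
      simp
    rw [← this, integral_finsetSum _ fun c _ => integrable_finsetSum _ fun d _ => t11_int K c d]
    refine Finset.sum_congr rfl fun c _ => ?_
    rw [integral_finsetSum _ fun d _ => t11_int K c d]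
  have h2 : ∀ c : Fin N, ((N : ℝ) - 1) * w ≤ ∑ d : Fin N, ∫ O : Orth N, ‖t11_e K O c d‖ ^ 2 ∂(haarO N) := by
    intro c
    have h3 : ∑ d ∈ Finset.univ.erase c, w ≤
        ∑ d : Fin N, ∫ O : Orth N, ‖t11_e K O c d‖ ^ 2 ∂(haarO N) := by
      calc ∑ d ∈ Finset.univ.erase c, w = ∑ d ∈ Finset.univ.erase c,
            ∫ O : Orth N, ‖t11_e K O c d‖ ^ 2 ∂(haarO N) := by
            refine Finset.sum_congr rfl fun d hd => ?_
            rw [hw]
            exact t11_off K a b c d hab (Finset.ne_of_mem_erase hd).symm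
        _ ≤ _ := Finset.sum_le_sum_of_subset_of_nonneg (Finset.subset_univ _)
            fun d _ _ => integral_nonneg fun O => by positivity
    rw [Finset.sum_const, Finset.card_erase_of_mem (Finset.mem_univ _), Finset.card_univ,
      Fintype.card_fin, nsmul_eq_mul, Nat.cast_sub (by omega), Nat.cast_one] at h3
    exact h3
  have h3 : (N : ℝ) * (((N : ℝ) - 1) * w) ≤ fro K ^ 2 := by
    rw [← h1]
    calc (N : ℝ) * (((N : ℝ) - 1) * w) = ∑ c : Fin N, ((N : ℝ) - 1) * w := by simp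
      _ ≤ _ := Finset.sum_le_sum fun c _ => h2 c
  have hN' : (2 : ℝ) ≤ N := by exact_mod_cast hN
  have h4 : (0 : ℝ) < N * (N - 1) := by nlinarith
  rw [one_div, ← div_eq_inv_mul, le_div_iff₀ h4]
  linarith

/-- The weights. -/
noncomputable def t11_s (n : ℕ) (x : UnitAddCircle) : ℝ :=
  1 / (n : ℝ) ^ 2 * ‖∑ i ∈ Finset.range n, ee (i • x)‖ ^ 2

theorem t11_s_nonneg (n : ℕ) (x : UnitAddCircle) : 0 ≤ t11_s n x := by
  unfold t11_s
  positivity

theorem t11_s0 (n : ℕ) (hn : 1 ≤ n) : t11_s n 0 = 1 := by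
  have : (n : ℝ) ≠ 0 := by positivity
  simp [t11_s, ee]
  field_simp

theorem t11_ee_add (x y : UnitAddCircle) : ee (x + y) = ee x * ee y := by
  simp [ee, AddCircle.toCircle_add]

theorem t11_ee_conj (x : UnitAddCircle) : (starRingEnd ℂ) (ee x) = ee (-x) := by
  rw [ee, ee, AddCircle.toCircle_neg, Circle.coe_inv_eq_conj]

theorem t11_tr (γ : Tor N) (z : ℤ) :
    Matrix.trace ((dg γ ^ z : Uni N).1) = ∑ a, ee (z • γ a) := by
  have h : dg γ ^ z = dg (z • γ) := by
    cases z with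
    | ofNat k => simp [dg_pow]
    | negSucc k =>
      rw [zpow_negSucc, dg_pow, dg_inv, negSucc_zsmul]
  rw [h, dg_val, Matrix.trace_diagonal]
  rfl

theorem t11_sum (n : ℕ) (γ : Tor N) :
    ∑ a, ∑ b, t11_s n (γ a - γ b) = 1 / (n : ℝ) ^ 2 *
        ∑ i ∈ Finset.range n, ∑ k ∈ Finset.range n,
          ‖Matrix.trace ((dg γ ^ ((i : ℤ) - k) : Uni N).1)‖ ^ 2 := by
  have key : (((∑ a, ∑ b, ‖∑ i ∈ Finset.range n, ee (i • (γ a - γ b))‖ ^ 2 : ℝ)) : ℂ) =
      ((∑ i ∈ Finset.range n, ∑ k ∈ Finset.range n,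
          ‖Matrix.trace ((dg γ ^ ((i : ℤ) - k) : Uni N).1)‖ ^ 2 : ℝ) : ℂ) := by
    push_cast
    have h1 : ∀ z : ℂ, (‖z‖ : ℂ) ^ 2 = z * (starRingEnd ℂ) z := fun z => (Complex.mul_conj' z).symm
    simp only [h1, t11_tr, map_sum, t11_ee_conj, Finset.sum_mul_sum, ← t11_ee_add]
    have h2 : ∀ (i k : ℕ) (a b : Fin N), ((i : ℤ) - k) • γ a + -(((i : ℤ) - k) • γ b) =
        i • (γ a - γ b) + -(k • (γ a - γ b)) := by
      intro i k a b
      rw [sub_smul, sub_smul, natCast_zsmul, natCast_zsmul, natCast_zsmul, natCast_zsmul,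
        smul_sub, smul_sub]
      abel
    simp only [h2]
    calc ∑ a : Fin N, ∑ b : Fin N, ∑ i ∈ Finset.range n, ∑ k ∈ Finset.range n,
          ee (i • (γ a - γ b) + -(k • (γ a - γ b)))
        = ∑ a : Fin N, ∑ i ∈ Finset.range n, ∑ b : Fin N, ∑ k ∈ Finset.range n,
          ee (i • (γ a - γ b) + -(k • (γ a - γ b))) :=
          Finset.sum_congr rfl fun a _ => Finset.sum_comm
      _ = ∑ i ∈ Finset.range n, ∑ a : Fin N, ∑ b : Fin N, ∑ k ∈ Finset.range n,
          ee (i • (γ a - γ b) + -(k • (γ a - γ b))) := Finset.sum_comm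
      _ = ∑ i ∈ Finset.range n, ∑ a : Fin N, ∑ k ∈ Finset.range n, ∑ b : Fin N,
          ee (i • (γ a - γ b) + -(k • (γ a - γ b))) :=
          Finset.sum_congr rfl fun i _ => Finset.sum_congr rfl fun a _ => Finset.sum_comm
      _ = ∑ i ∈ Finset.range n, ∑ k ∈ Finset.range n, ∑ a : Fin N, ∑ b : Fin N,
          ee (i • (γ a - γ b) + -(k • (γ a - γ b))) :=
          Finset.sum_congr rfl fun i _ => Finset.sum_comm
  have key' := Complex.ofReal_injective key
  rw [← key', Finset.mul_sum]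
  refine Finset.sum_congr rfl fun a _ => ?_
  rw [Finset.mul_sum]
  rfl

theorem conj_avg {N : ℕ} (hN : 2 ≤ N) (n : ℕ) (hn : 1 ≤ n) (K : Mat N) (hK : K.IsHermitian)
    (ht : K.trace = 0) (γ : Tor N) :
    ∫ O : Orth N, fro (An n ((cx O).1 * K * ((cx O)⁻¹ : Uni N).1) (dg γ)) ^ 2 ∂(haarO N) ≤
      fro K ^ 2 * (2 / (N + 2) + 1 / (N * (N - 1)) * (1 / (n : ℝ) ^ 2 *
        ∑ i ∈ Finset.range n, ∑ k ∈ Finset.range n,
          ‖Matrix.trace ((dg γ ^ ((i : ℤ) - k) : Uni N).1)‖ ^ 2)) := by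
  have := prob_haarO N
  have h0 : ∀ O : Orth N, fro (An n ((cx O).1 * K * ((cx O)⁻¹ : Uni N).1) (dg γ)) ^ 2 =
      ∑ a, ∑ b, ‖t11_e K O a b‖ ^ 2 * t11_s n (γ a - γ b) := by
    intro O
    rw [An_dg]
    simp only [t11_entry, t11_s]
  simp only [h0]
  rw [integral_finsetSum _ fun a _ => integrable_finsetSum _ fun b _ =>
    (t11_int K a b).mul_const _]
  have h1 : ∀ a : Fin N, ∫ O : Orth N, ∑ b, ‖t11_e K O a b‖ ^ 2 * t11_s n (γ a - γ b) ∂(haarO N) ≤
      2 / (N * (N + 2)) * fro K ^ 2 + ∑ b, 1 / (N * (N - 1)) * fro K ^ 2 * t11_s n (γ a - γ b) := by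
    intro a
    rw [integral_finsetSum _ fun b _ => (t11_int K a b).mul_const _]
    have h2 : ∀ b : Fin N, ∫ O : Orth N, ‖t11_e K O a b‖ ^ 2 * t11_s n (γ a - γ b) ∂(haarO N) ≤
        (if a = b then 2 / (N * (N + 2)) * fro K ^ 2 else 0) +
          1 / (N * (N - 1)) * fro K ^ 2 * t11_s n (γ a - γ b) := by
      intro b
      have hN' : (2 : ℝ) ≤ N := by exact_mod_cast hN
      have h4 : (0 : ℝ) < N * (N - 1) := by nlinarith
      rw [integral_mul_const]
      by_cases hab : a = b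
      · subst hab
        rw [if_pos rfl, sub_self, t11_s0 n hn, mul_one, mul_one]
        have := t11_diag hN K hK ht a
        have h5 : 0 ≤ 1 / ((N : ℝ) * (N - 1)) * fro K ^ 2 := by positivity
        linarith
      · rw [if_neg hab, zero_add]
        exact mul_le_mul_of_nonneg_right (t11_offle hN K a b hab) (t11_s_nonneg _ _)
    refine (Finset.sum_le_sum fun b _ => h2 b).trans ?_
    rw [Finset.sum_add_distrib]
    simp
  refine (Finset.sum_le_sum fun a _ => h1 a).trans ?_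
  rw [Finset.sum_add_distrib, ← t11_sum]
  have hN' : (2 : ℝ) ≤ N := by exact_mod_cast hN
  have e : ∑ _a : Fin N, 2 / ((N : ℝ) * (N + 2)) * fro K ^ 2 = fro K ^ 2 * (2 / (N + 2)) := by
    rw [Finset.sum_const, Finset.card_univ, Fintype.card_fin, nsmul_eq_mul]
    field_simp
  rw [e, mul_add]
  refine add_le_add le_rfl (le_of_eq ?_)
  simp only [← Finset.mul_sum]
  ring

end Ty
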