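import Pool.Agent.LibTy70.T03
import Pool.Agent.LibTy70.T04
import Pool.Agent.LibTy70.T06
import Pool.Agent.LibTy70.T11
import Pool.Agent.LibQGr.R_AVG

/-! Row T12: the average over the COE. Plan (all integrands are continuous on compact spaces, Fubini):
`cx O * sy A * (cx O)⁻¹ = sy (A * (cx O)⁻¹)`, right invariance of `haarU`: LHS = `E_A |An n K (X sy A)|²`.
`X = Z Z`, `Z` symmetric (sym_sqrt): `X sy A = Z (Z sy A Z) Z⁻¹ = Z sy(A Z) Z⁻¹`: by `fro_An_conj` and right invariance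
`= E_A |An n K' (sy A)|²`, `K' = Z⁻¹ K Z` Hermitian, traceless, `fro K' = fro K`. Replace `A` by `A cx O` and average
over `O`: `sy (A cx O) = (cx O)⁻¹ sy A cx O`, so `= E_A E_O |An n (O K' O⁻¹) (sy A)|²`. For fixed `A`:
`sy A = (cx R)⁻¹ dg γ cx R`, left invariance (O → R O): `E_O |An n (O K' O⁻¹)(dg γ)|²`, T11 bounds it,
with `tr (dg γ)^d = tr (sy A)^d`. `E_A |tr (sy A)^d|² ≤ |d| N` for `d ≠ 0`: T06 with `sy (A dg t) = dg t sy A dg t` (negative d: conjugate).
Sum: `2/(N+2) + (1/(N(N-1))) (N²/n + n N) ≤ 2/n + 4 n/N`. -/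

open MeasureTheory Set Filter Topology

namespace Ty

open QGr

theorem T12_tr_cont (N : ℕ) (d : ℤ) :
    Continuous fun W : Uni N => ‖Matrix.trace ((W ^ d : Uni N).1)‖ ^ 2 := by
  have h : Continuous fun W : Uni N => ((W ^ d : Uni N).1 : Mat N) :=
    continuous_subtype_val.comp (continuous_zpow d)
  exact (h.matrix_trace.norm).pow 2

/-- Averaging over right translations. -/
theorem T12_swap {N : ℕ} {Y : Type} [TopologicalSpace Y] [CompactSpace Y] [SecondCountableTopology Y]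
    [MeasurableSpace Y] [BorelSpace Y] (ν : Measure Y) [IsProbabilityMeasure ν]
    (u : Y → Uni N) (hu : Continuous u) (g : Uni N → ℝ) (hg : Continuous g) :
    ∫ A, ∫ y, g (A * u y) ∂ν ∂(haarU N) = ∫ A, g A ∂(haarU N) := by
  have := haar_prob N
  have := sc_uni N
  have hc : Continuous (Function.uncurry fun (A : Uni N) (y : Y) => g (A * u y)) :=
    hg.comp (continuous_fst.mul (hu.comp continuous_snd))
  rw [integral_integral_swap]
  · simp only [intU_right]
    simp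
  · exact AVG_int _ _ hc

theorem coe_tr {N : ℕ} (d : ℕ) (hd : 1 ≤ d) :
    ∫ A : Uni N, ‖Matrix.trace ((sy A ^ d : Uni N).1)‖ ^ 2 ∂(haarU N) ≤ d * N := by
  have := haar_prob N
  have hc : Continuous fun A : Uni N => ‖Matrix.trace ((sy A ^ d : Uni N).1)‖ ^ 2 := by
    have h := (T12_tr_cont N (d : ℤ)).comp sy_cont
    simpa [Function.comp_def] using h
  rw [← T12_swap (volume : Measure (Tor N)) dg dg_cont _ hc]
  have h1 : ∀ A : Uni N, ∫ t : Tor N, ‖Matrix.trace ((sy (A * dg t) ^ d : Uni N).1)‖ ^ 2 ≤ d * N := by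
    intro A
    simp only [sy_dg]
    exact words (sy A) d hd
  calc ∫ A : Uni N, (∫ t : Tor N, ‖Matrix.trace ((sy (A * dg t) ^ d : Uni N).1)‖ ^ 2) ∂(haarU N)
      ≤ ∫ A : Uni N, ((d * N : ℝ)) ∂(haarU N) := by
        refine integral_mono_of_nonneg (Filter.Eventually.of_forall fun A => ?_)
          (integrable_const _) (Filter.Eventually.of_forall h1)
        exact integral_nonneg fun t => by positivity
    _ = d * N := by simp

theorem T12_tr_inv {N : ℕ} (W : Uni N) : ‖Matrix.trace ((W⁻¹ : Uni N).1)‖ = ‖Matrix.trace W.1‖ := by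
  have h : ((W⁻¹ : Uni N).1 : Mat N) = W.1.conjTranspose := rfl
  rw [h, Matrix.trace_conjTranspose]
  simp

theorem T12_coe_z {N : ℕ} (d : ℤ) (n : ℕ) (h0 : d ≠ 0) (hd : |d| ≤ n) :
    ∫ A : Uni N, ‖Matrix.trace ((sy A ^ d : Uni N).1)‖ ^ 2 ∂(haarU N) ≤ n * N := by
  have h1 : ∀ A : Uni N, ‖Matrix.trace ((sy A ^ d : Uni N).1)‖ =
      ‖Matrix.trace ((sy A ^ d.natAbs : Uni N).1)‖ := by
    intro A
    rcases Int.natAbs_eq d with h | h
    · conv_lhs => rw [h]
      rw [zpow_natCast]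
    · conv_lhs => rw [h]
      rw [zpow_neg, T12_tr_inv, zpow_natCast]
  simp only [h1]
  refine (coe_tr d.natAbs (Int.natAbs_pos.2 h0)).trans ?_
  have h2 : (d.natAbs : ℝ) ≤ n := by
    have : (d.natAbs : ℤ) ≤ n := by rw [Int.natCast_natAbs]; exact hd
    exact_mod_cast this
  exact mul_le_mul_of_nonneg_right h2 (Nat.cast_nonneg N)

/-- The double sum of the moments. -/
theorem T12_sum {N : ℕ} (n : ℕ) (hn : 1 ≤ n) :
    ∑ i ∈ Finset.range n, ∑ k ∈ Finset.range n,
      ∫ A : Uni N, ‖Matrix.trace ((sy A ^ ((i : ℤ) - k) : Uni N).1)‖ ^ 2 ∂(haarU N) ≤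
      n * (N : ℝ) ^ 2 + (n : ℝ) ^ 3 * N := by
  have := haar_prob N
  have h1 : ∀ i ∈ Finset.range n, ∑ k ∈ Finset.range n,
      ∫ A : Uni N, ‖Matrix.trace ((sy A ^ ((i : ℤ) - k) : Uni N).1)‖ ^ 2 ∂(haarU N) ≤
      (N : ℝ) ^ 2 + n * (n * N) := by
    intro i hi
    have h2 : ∀ k ∈ Finset.range n,
        ∫ A : Uni N, ‖Matrix.trace ((sy A ^ ((i : ℤ) - k) : Uni N).1)‖ ^ 2 ∂(haarU N) ≤
        (if k = i then (N : ℝ) ^ 2 else 0) + n * N := by
      intro k hk
      rw [Finset.mem_range] at hi hk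
      by_cases h : k = i
      · subst h
        simp
        positivity
      · rw [if_neg h, zero_add]
        refine T12_coe_z _ n ?_ ?_
        · omega
        · rw [abs_le]; omega
    refine (Finset.sum_le_sum h2).trans ?_
    rw [Finset.sum_add_distrib, Finset.sum_ite_eq' (Finset.range n) i]
    simp only [if_pos hi, Finset.sum_const, Finset.card_range, nsmul_eq_mul]
    exact le_refl _
  refine (Finset.sum_le_sum h1).trans ?_
  simp only [Finset.sum_const, Finset.card_range, nsmul_eq_mul]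
  nlinarith

theorem T12_inner {N : ℕ} (hN : 2 ≤ N) (n : ℕ) (hn : 1 ≤ n) (K : Mat N) (hK : K.IsHermitian)
    (ht : K.trace = 0) (W : Uni N) (hW : Sym W) :
    ∫ O : Orth N, fro (An n K ((cx O)⁻¹ * W * cx O)) ^ 2 ∂(haarO N) ≤
      fro K ^ 2 * (2 / (N + 2) + 1 / (N * (N - 1)) * (1 / (n : ℝ) ^ 2 *
        ∑ i ∈ Finset.range n, ∑ k ∈ Finset.range n,
          ‖Matrix.trace ((W ^ ((i : ℤ) - k) : Uni N).1)‖ ^ 2)) := by
  obtain ⟨R, γ, h⟩ := sym_diag W hW
  have h1 : ∀ O : Orth N, fro (An n K ((cx O)⁻¹ * W * cx O)) =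
      fro (An n ((cx (R * O)).1 * K * ((cx (R * O))⁻¹ : Uni N).1) (dg γ)) := by
    intro O
    rw [← fro_An_conj n ((cx (R * O)).1 * K * ((cx (R * O))⁻¹ : Uni N).1) (dg γ) (cx (R * O))⁻¹]
    have e1 : (((cx (R * O))⁻¹ : Uni N).1 : Mat N) * (cx (R * O)).1 = 1 := by
      have : ((cx (R * O))⁻¹ * cx (R * O) : Uni N) = 1 := inv_mul_cancel _
      exact congrArg Subtype.val this
    have e2 : (((cx (R * O))⁻¹ : Uni N).1 : Mat N) *
        ((cx (R * O)).1 * K * ((cx (R * O))⁻¹ : Uni N).1) * (((cx (R * O))⁻¹)⁻¹ : Uni N).1 = K := by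
      rw [inv_inv]
      calc (((cx (R * O))⁻¹ : Uni N).1 : Mat N) *
          ((cx (R * O)).1 * K * ((cx (R * O))⁻¹ : Uni N).1) * (cx (R * O)).1 =
          ((((cx (R * O))⁻¹ : Uni N).1 : Mat N) * (cx (R * O)).1) * K *
            ((((cx (R * O))⁻¹ : Uni N).1 : Mat N) * (cx (R * O)).1) := by simp only [mul_assoc]
        _ = K := by rw [e1, one_mul, mul_one]
    have e3 : (cx (R * O))⁻¹ * dg γ * ((cx (R * O))⁻¹)⁻¹ = (cx O)⁻¹ * W * cx O := by
      rw [h, cx_mul]
      group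
    rw [e2, e3]
  simp only [h1]
  rw [intO_left R (fun O => fro (An n ((cx O).1 * K * ((cx O)⁻¹ : Uni N).1) (dg γ)) ^ 2)]
  have h2 := conj_avg hN n hn K hK ht γ
  have h3 : ∀ d : ℤ, Matrix.trace ((W ^ d : Uni N).1) = Matrix.trace ((dg γ ^ d : Uni N).1) := by
    intro d
    have h4 : W ^ d = (cx R)⁻¹ * dg γ ^ d * cx R := by
      have h5 := conj_zpow (a := (cx R)⁻¹) (b := dg γ) (i := d)
      rw [inv_inv] at h5
      rw [h, h5]
    rw [h4]
    show Matrix.trace (((cx R)⁻¹ : Uni N).1 * (dg γ ^ d : Uni N).1 * (cx R).1) = _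
    rw [Matrix.trace_mul_comm, ← mul_assoc]
    have e1 : ((cx R).1 : Mat N) * ((cx R)⁻¹ : Uni N).1 = 1 := by
      have : (cx R * (cx R)⁻¹ : Uni N) = 1 := mul_inv_cancel _
      exact congrArg Subtype.val this
    rw [e1, one_mul]
  simp only [h3]
  exact h2

theorem coe_avg {N : ℕ} (hN : 2 ≤ N) (n : ℕ) (hn : 1 ≤ n) (K : Mat N) (hK : K.IsHermitian)
    (ht : K.trace = 0) (X : Uni N) (hX : Sym X) :
    ∫ A : Uni N, Psi n K X (sy A) ∂(haarU N) ≤ fro K ^ 2 * (2 / n + 4 * n / N) := by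
  have := haar_prob N
  have := prob_haarO N
  have := sc_orth N
  have := sc_uni N
  obtain ⟨Z, hZ, hZX⟩ := sym_sqrt X hX
  -- continuity
  have hcon : ∀ (L : Mat N), Continuous fun W : Uni N => fro (An n L W) ^ 2 := by
    intro L
    have h := (froc (N := N)).comp ((An_cont n).comp
      ((continuous_const (y := L)).prodMk (continuous_id (X := Uni N))))
    exact h.pow 2
  -- first step
  have s1 : ∫ A : Uni N, Psi n K X (sy A) ∂(haarU N) =
      ∫ A : Uni N, fro (An n K (X * sy A)) ^ 2 ∂(haarU N) := by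
    have h1 : ∀ A : Uni N, Psi n K X (sy A) =
        ∫ O : Orth N, fro (An n K (X * sy (A * (cx O)⁻¹))) ^ 2 ∂(haarO N) := by
      intro A
      unfold Psi
      refine integral_congr_ae (Filter.Eventually.of_forall fun O => ?_)
      have e : cx O * sy A * (cx O)⁻¹ = sy (A * (cx O)⁻¹) := by
        rw [cx_inv, sy_cx, cx_inv, inv_inv]
      show fro (An n K (X * (cx O * sy A * (cx O)⁻¹))) ^ 2 = fro (An n K (X * sy (A * (cx O)⁻¹))) ^ 2
      rw [e]
    simp only [h1]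
    exact T12_swap (haarO N) (fun O => (cx O)⁻¹) cx_cont.inv
      (fun A => fro (An n K (X * sy A)) ^ 2)
      ((hcon K).comp (continuous_const.mul sy_cont))
  -- second step
  set K' : Mat N := (Z⁻¹ : Uni N).1 * K * Z.1 with hK'
  have eZ1 : (Z.1 : Mat N) * (Z⁻¹ : Uni N).1 = 1 :=
    congrArg Subtype.val (mul_inv_cancel Z : Z * Z⁻¹ = 1)
  have eZ2 : ((Z⁻¹ : Uni N).1 : Mat N) * Z.1 = 1 :=
    congrArg Subtype.val (inv_mul_cancel Z : Z⁻¹ * Z = 1)
  have s2 : ∫ A : Uni N, fro (An n K (X * sy A)) ^ 2 ∂(haarU N) =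
      ∫ A : Uni N, fro (An n K' (sy A)) ^ 2 ∂(haarU N) := by
    rw [← intU_right Z (fun A => fro (An n K' (sy A)) ^ 2)]
    refine integral_congr_ae (Filter.Eventually.of_forall fun A => ?_)
    show fro (An n K (X * sy A)) ^ 2 = fro (An n K' (sy (A * Z))) ^ 2
    have e1 : K = Z.1 * K' * (Z⁻¹ : Uni N).1 := by
      rw [hK']
      calc K = 1 * K * 1 := by simp
        _ = (Z.1 * (Z⁻¹ : Uni N).1) * K * (Z.1 * (Z⁻¹ : Uni N).1) := by rw [eZ1]
        _ = Z.1 * ((Z⁻¹ : Uni N).1 * K * Z.1) * (Z⁻¹ : Uni N).1 := by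
          simp only [mul_assoc]
    have e2 : X * sy A = Z * (Z * sy A * Z) * Z⁻¹ := by
      rw [← hZX]
      group
    rw [sy_mul_sym A Z hZ, ← fro_An_conj n K' (Z * sy A * Z) Z, ← e1, ← e2]
  have hK'h : K'.IsHermitian := by
    have e : ((Z⁻¹ : Uni N).1 : Mat N) = Z.1.conjTranspose := rfl
    rw [hK', e]
    unfold Matrix.IsHermitian
    rw [Matrix.conjTranspose_mul, Matrix.conjTranspose_mul, Matrix.conjTranspose_conjTranspose, hK,
      mul_assoc]
  have hK't : K'.trace = 0 := by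
    rw [hK', Matrix.trace_mul_comm, ← mul_assoc, eZ1, one_mul, ht]
  have hK'f : fro K' = fro K := fro_uni Z⁻¹ Z K
  -- third step
  have s3 : ∫ A : Uni N, fro (An n K' (sy A)) ^ 2 ∂(haarU N) =
      ∫ A : Uni N, ∫ O : Orth N, fro (An n K' ((cx O)⁻¹ * sy A * cx O)) ^ 2 ∂(haarO N) ∂(haarU N) := by
    rw [← T12_swap (haarO N) cx cx_cont (fun A => fro (An n K' (sy A)) ^ 2) ((hcon K').comp sy_cont)]
    simp only [sy_cx]
  rw [s1, s2, s3]
  have hci : ∀ d : ℤ, Integrable (fun A : Uni N => ‖Matrix.trace ((sy A ^ d : Uni N).1)‖ ^ 2)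
      (haarU N) := fun d => AVG_int _ _ ((T12_tr_cont N d).comp sy_cont)
  have hcs : Integrable (fun A : Uni N => ∑ i ∈ Finset.range n, ∑ k ∈ Finset.range n,
          ‖Matrix.trace ((sy A ^ ((i : ℤ) - k) : Uni N).1)‖ ^ 2) (haarU N) :=
    integrable_finsetSum _ fun i _ => integrable_finsetSum _ fun k _ => hci _
  have hN1 : (2 : ℝ) ≤ N := by exact_mod_cast hN
  have hn1 : (1 : ℝ) ≤ n := by exact_mod_cast hn
  calc ∫ A : Uni N, ∫ O : Orth N, fro (An n K' ((cx O)⁻¹ * sy A * cx O)) ^ 2 ∂(haarO N) ∂(haarU N)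
      ≤ ∫ A : Uni N, fro K ^ 2 * (2 / (N + 2) + 1 / (N * (N - 1)) * (1 / (n : ℝ) ^ 2 *
        ∑ i ∈ Finset.range n, ∑ k ∈ Finset.range n,
          ‖Matrix.trace ((sy A ^ ((i : ℤ) - k) : Uni N).1)‖ ^ 2)) ∂(haarU N) := by
        refine integral_mono_of_nonneg (Filter.Eventually.of_forall fun A => ?_) ?_
          (Filter.Eventually.of_forall fun A => ?_)
        · exact integral_nonneg fun O => by positivity
        · exact ((integrable_const _).add ((hcs.const_mul _).const_mul _)).const_mul _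
        · have := T12_inner hN n hn K' hK'h hK't (sy A) (sy_sym A)
          rw [hK'f] at this
          exact this
    _ = fro K ^ 2 * (2 / (N + 2) + 1 / (N * (N - 1)) * (1 / (n : ℝ) ^ 2 *
        ∑ i ∈ Finset.range n, ∑ k ∈ Finset.range n,
          ∫ A : Uni N, ‖Matrix.trace ((sy A ^ ((i : ℤ) - k) : Uni N).1)‖ ^ 2 ∂(haarU N))) := by
        rw [integral_const_mul, integral_add (integrable_const _) ((hcs.const_mul _).const_mul _),
          integral_const_mul, integral_const_mul,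
          integral_finsetSum _ fun i _ => integrable_finsetSum _ fun k _ => hci _]
        have e : ∀ i : ℕ, ∫ A : Uni N, ∑ k ∈ Finset.range n,
            ‖Matrix.trace ((sy A ^ ((i : ℤ) - k) : Uni N).1)‖ ^ 2 ∂(haarU N) =
            ∑ k ∈ Finset.range n, ∫ A : Uni N,
            ‖Matrix.trace ((sy A ^ ((i : ℤ) - k) : Uni N).1)‖ ^ 2 ∂(haarU N) := fun i =>
          integral_finsetSum _ fun k _ => hci _
        simp only [e]
        simp
    _ ≤ fro K ^ 2 * (2 / (N + 2) + 1 / (N * (N - 1)) * (1 / (n : ℝ) ^ 2 *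
        (n * (N : ℝ) ^ 2 + (n : ℝ) ^ 3 * N))) := by
        have h0 : (0 : ℝ) ≤ N * (N - 1) := by nlinarith
        gcongr
        exact T12_sum n hn
    _ ≤ fro K ^ 2 * (2 / n + 4 * n / N) := by
        refine mul_le_mul_of_nonneg_left ?_ (by positivity)
        have hN0 : (0 : ℝ) < N := by linarith
        have hN2 : (0 : ℝ) < N - 1 := by linarith
        have hn0 : (0 : ℝ) < n := by linarith
        have e1 : 1 / (N * ((N : ℝ) - 1)) * (1 / (n : ℝ) ^ 2 *
            (n * (N : ℝ) ^ 2 + (n : ℝ) ^ 3 * N)) = N / (N - 1) / n + n / (N - 1) := by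
          field_simp
        rw [e1]
        have e2 : (N : ℝ) / (N - 1) ≤ 2 := by
          rw [div_le_iff₀ hN2]; linarith
        have e3 : (n : ℝ) / (N - 1) ≤ 2 * n / N := by
          rw [div_le_div_iff₀ hN2 hN0]; nlinarith
        have e4 : (2 : ℝ) / (N + 2) ≤ 2 * n / N := by
          rw [div_le_div_iff₀ (by linarith) hN0]; nlinarith
        have e5 : (N : ℝ) / (N - 1) / n ≤ 2 / n := by gcongr
        have e6 : 4 * (n : ℝ) / N = 2 * n / N + 2 * n / N := by ring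
        rw [e6]
        linarith

end Ty
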