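import Pool.Agent.LibTy70.T01
import Pool.Agent.LibTy70.T02
import Pool.Agent.LibTy70.T03

/-! Row T13: `Psi` as a function of `G`. Plan: `psi_conj`: O → O R (intO_right). `psi_perm`: psi_conj with cx_perm.
`psi_lip`: `U = X O dg φ O⁻¹`, `U' = X O dg φ' O⁻¹`: the operator norm of `U - U'` is at most `ε`
(`U - U' = X O (diagonal) O⁻¹`), so `fro (U^i K U^-i - U'^i K U'^-i) ≤ 2 i ε fro K` (telescoping; multiply by unitary
matrices and by `O diag O⁻¹` with `|diag| ≤ ε`), `|fro An - fro An'| ≤ n ε fro K`, and `|x² - y²| ≤ |x-y| (x+y)`, `An_le`.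
`psi_cont`: parametric integral on compact spaces. -/

open MeasureTheory Set Filter Topology

namespace Ty

open QGr

variable {N : ℕ}

theorem psi_conj (n : ℕ) (K : Mat N) (X G : Uni N) (R : Orth N) :
    Psi n K X (cx R * G * (cx R)⁻¹) = Psi n K X G := by
  unfold Psi
  rw [← intO_right R (fun O => fro (An n K (X * (cx O * G * (cx O)⁻¹))) ^ 2)]
  refine integral_congr_ae (Filter.Eventually.of_forall fun O => ?_)
  simp only [cx_mul]
  congr 4
  group

theorem psi_perm (n : ℕ) (K : Mat N) (X : Uni N) (φ : Tor N) (σ : Equiv.Perm (Fin N)) :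
    Psi n K X (dg fun a => φ (σ a)) = Psi n K X (dg φ) := by
  obtain ⟨R, hR⟩ := cx_perm (N := N) σ
  rw [← hR φ, psi_conj]

private theorem t13_dl (d : Fin N → ℂ) (ε : ℝ) (h0 : 0 ≤ ε) (hd : ∀ a, ‖d a‖ ≤ ε) (M : Mat N) :
    fro (Matrix.diagonal d * M) ≤ ε * fro M := by
  have h1 : fro (Matrix.diagonal d * M) ^ 2 ≤ (ε * fro M) ^ 2 := by
    rw [fro_sq, mul_pow, fro_sq, Finset.mul_sum]
    refine Finset.sum_le_sum fun i _ => ?_
    rw [Finset.mul_sum]
    refine Finset.sum_le_sum fun j _ => ?_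
    rw [Matrix.diagonal_mul, norm_mul, mul_pow]
    exact mul_le_mul_of_nonneg_right (pow_le_pow_left₀ (norm_nonneg _) (hd i) 2) (by positivity)
  exact (pow_le_pow_iff_left₀ (fro_nonneg _) (mul_nonneg h0 (fro_nonneg _)) two_ne_zero).1 h1

private theorem t13_dr (d : Fin N → ℂ) (ε : ℝ) (h0 : 0 ≤ ε) (hd : ∀ a, ‖d a‖ ≤ ε) (M : Mat N) :
    fro (M * Matrix.diagonal d) ≤ ε * fro M := by
  rw [← fro_transpose, Matrix.transpose_mul, Matrix.diagonal_transpose, ← fro_transpose M]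
  exact t13_dl d ε h0 hd _

private theorem t13_l (U : Uni N) (M : Mat N) : fro (U.1 * M) = fro M := by
  have h := fro_uni U (1 : Uni N) M
  simpa using h

private theorem t13_r (U : Uni N) (M : Mat N) : fro (M * U.1) = fro M := by
  have h := fro_uni (1 : Uni N) U M
  simpa using h

private theorem t13_inv (U : Uni N) : (U⁻¹ : Uni N).1 = star U.1 := rfl

private theorem t13_step (X V : Uni N) (φ φ' : Tor N) (ε : ℝ) (h0 : 0 ≤ ε)
    (h : ∀ a, ‖ee (φ a) - ee (φ' a)‖ ≤ ε) (M : Mat N) :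
    fro ((X * (V * dg φ * V⁻¹)).1 * M * ((X * (V * dg φ * V⁻¹))⁻¹ : Uni N).1
      - (X * (V * dg φ' * V⁻¹)).1 * M * ((X * (V * dg φ' * V⁻¹))⁻¹ : Uni N).1) ≤
      2 * ε * fro M := by
  set U := X * (V * dg φ * V⁻¹) with hU
  set U' := X * (V * dg φ' * V⁻¹) with hU'
  have e1 : U.1 * M * (U⁻¹ : Uni N).1 - U'.1 * M * (U'⁻¹ : Uni N).1 =
      (U.1 - U'.1) * M * (U⁻¹ : Uni N).1 + U'.1 * (M * ((U⁻¹ : Uni N).1 - (U'⁻¹ : Uni N).1)) := by
    simp only [sub_mul, mul_sub, ← mul_assoc]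
    abel
  have e2 : U.1 - U'.1 = X.1 * (V.1 * (Matrix.diagonal (fun a => ee (φ a) - ee (φ' a)) *
      (V⁻¹ : Uni N).1)) := by
    have h2 : Matrix.diagonal (fun a => ee (φ a) - ee (φ' a)) = (dg φ).1 - (dg φ').1 := by
      rw [dg_val, dg_val, Matrix.diagonal_sub]
    rw [h2, hU, hU']
    simp only [Submonoid.coe_mul, sub_mul, mul_sub, mul_assoc]
  have e3 : (U⁻¹ : Uni N).1 - (U'⁻¹ : Uni N).1 = V.1 * Matrix.diagonal
      (fun a => ee ((-φ) a) - ee ((-φ') a)) * ((X * V)⁻¹ : Uni N).1 := by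
    have h2 : Matrix.diagonal (fun a => ee ((-φ) a) - ee ((-φ') a)) =
        ((dg φ)⁻¹ : Uni N).1 - ((dg φ')⁻¹ : Uni N).1 := by
      rw [dg_inv, dg_inv, dg_val, dg_val, Matrix.diagonal_sub]
    have h3 : (U⁻¹ : Uni N) = V * (dg φ)⁻¹ * (X * V)⁻¹ := by rw [hU]; group
    have h4 : (U'⁻¹ : Uni N) = V * (dg φ')⁻¹ * (X * V)⁻¹ := by rw [hU']; group
    rw [h2, h3, h4]
    simp only [Submonoid.coe_mul, sub_mul, mul_sub]
  have hn : ∀ a, ‖ee ((-φ) a) - ee ((-φ') a)‖ ≤ ε := by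
    intro a
    have h5 : ∀ x : UnitAddCircle, ee (-x) = (starRingEnd ℂ) (ee x) := by
      intro x
      unfold ee
      rw [AddCircle.toCircle_neg, Circle.coe_inv_eq_conj]
    rw [Pi.neg_apply, Pi.neg_apply, h5, h5, ← map_sub, RCLike.norm_conj]
    exact h a
  have b1 : fro ((U.1 - U'.1) * M * (U⁻¹ : Uni N).1) ≤ ε * fro M := by
    rw [t13_r, e2, mul_assoc, t13_l, mul_assoc, t13_l, mul_assoc]
    refine (t13_dl _ ε h0 h _).trans ?_
    rw [t13_l]
  have b2 : fro (U'.1 * (M * ((U⁻¹ : Uni N).1 - (U'⁻¹ : Uni N).1))) ≤ ε * fro M := by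
    rw [t13_l, e3, ← mul_assoc, t13_r, ← mul_assoc]
    refine (t13_dr _ ε h0 hn _).trans ?_
    rw [t13_r]
  rw [e1]
  refine (fro_add _ _).trans ?_
  linarith

private theorem t13_tel (U U' : Uni N) (c : ℝ)
    (h : ∀ M : Mat N, fro (U.1 * M * (U⁻¹ : Uni N).1 - U'.1 * M * (U'⁻¹ : Uni N).1) ≤ c * fro M)
    (K : Mat N) (i : ℕ) :
    fro ((U ^ i : Uni N).1 * K * ((U ^ i)⁻¹ : Uni N).1 -
      (U' ^ i : Uni N).1 * K * ((U' ^ i)⁻¹ : Uni N).1) ≤ i * (c * fro K) := by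
  induction i with
  | zero => simp [fro]
  | succ i ih =>
    have hs : ∀ W : Uni N, (W ^ (i + 1) : Uni N).1 * K * ((W ^ (i + 1))⁻¹ : Uni N).1 =
        W.1 * ((W ^ i : Uni N).1 * K * ((W ^ i)⁻¹ : Uni N).1) * (W⁻¹ : Uni N).1 := by
      intro W
      have h1 : (W ^ (i + 1))⁻¹ = (W ^ i)⁻¹ * W⁻¹ := by rw [pow_succ', mul_inv_rev]
      rw [h1, pow_succ']
      simp only [Submonoid.coe_mul, mul_assoc]
    rw [hs, hs]
    set A := (U ^ i : Uni N).1 * K * ((U ^ i)⁻¹ : Uni N).1 with hA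
    set B := (U' ^ i : Uni N).1 * K * ((U' ^ i)⁻¹ : Uni N).1 with hB
    have e : U.1 * A * (U⁻¹ : Uni N).1 - U'.1 * B * (U'⁻¹ : Uni N).1 =
        U.1 * (A - B) * (U⁻¹ : Uni N).1 +
          (U.1 * B * (U⁻¹ : Uni N).1 - U'.1 * B * (U'⁻¹ : Uni N).1) := by
      simp only [sub_mul, mul_sub]
      abel
    rw [e]
    refine (fro_add _ _).trans ?_
    rw [fro_uni]
    have h2 := h B
    have h3 : fro B = fro K := by rw [hB, fro_uni]
    rw [h3] at h2
    push_cast
    linarith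

private theorem t13_An (n : ℕ) (K : Mat N) (U U' : Uni N) (c : ℝ) (hc : 0 ≤ c)
    (h : ∀ M : Mat N, fro (U.1 * M * (U⁻¹ : Uni N).1 - U'.1 * M * (U'⁻¹ : Uni N).1) ≤ c * fro M) :
    fro (An n K U - An n K U') ≤ n * (c * fro K) / 2 := by
  have e : An n K U - An n K U' = ((1 / n : ℝ) : ℂ) • ∑ i ∈ Finset.range n,
      ((U ^ i : Uni N).1 * K * ((U ^ i)⁻¹ : Uni N).1 -
      (U' ^ i : Uni N).1 * K * ((U' ^ i)⁻¹ : Uni N).1) := by
    unfold An
    rw [← smul_sub, ← Finset.sum_sub_distrib]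
  rw [e, fro_smul]
  have hk := fro_nonneg K
  have hcK : 0 ≤ c * fro K := mul_nonneg hc hk
  have h1 : fro (∑ i ∈ Finset.range n,
      ((U ^ i : Uni N).1 * K * ((U ^ i)⁻¹ : Uni N).1 -
      (U' ^ i : Uni N).1 * K * ((U' ^ i)⁻¹ : Uni N).1)) ≤
      ∑ i ∈ Finset.range n, (i : ℝ) * (c * fro K) :=
    (fro_sum _ _).trans (Finset.sum_le_sum fun i _ => t13_tel U U' c h K i)
  rw [← Finset.sum_mul] at h1
  have h2 : ∀ m : ℕ, (∑ i ∈ Finset.range m, (i : ℝ)) ≤ (m : ℝ) ^ 2 / 2 := by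
    intro m
    induction m with
    | zero => simp
    | succ m ih =>
      rw [Finset.sum_range_succ]
      push_cast
      nlinarith
  have h3 : ‖((1 / n : ℝ) : ℂ)‖ = 1 / n := by
    rw [Complex.norm_real, Real.norm_of_nonneg (by positivity)]
  rw [h3]
  rcases Nat.eq_zero_or_pos n with h0 | h0
  · subst h0
    simp
  have hn : (0 : ℝ) < n := by exact_mod_cast h0
  calc 1 / (n : ℝ) * _ ≤ 1 / (n : ℝ) * ((n : ℝ) ^ 2 / 2 * (c * fro K)) := by
        refine mul_le_mul_of_nonneg_left (h1.trans ?_) (by positivity)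
        exact mul_le_mul_of_nonneg_right (h2 n) hcK
    _ = n * (c * fro K) / 2 := by
        field_simp

private theorem t13_pt (n : ℕ) (K : Mat N) (X V : Uni N) (φ φ' : Tor N) (ε : ℝ) (hε : 0 ≤ ε)
    (h : ∀ a, ‖ee (φ a) - ee (φ' a)‖ ≤ ε) :
    |fro (An n K (X * (V * dg φ * V⁻¹))) ^ 2 -
      fro (An n K (X * (V * dg φ' * V⁻¹))) ^ 2| ≤ 2 * n * ε * fro K ^ 2 := by
  set U := X * (V * dg φ * V⁻¹) with hU
  set U' := X * (V * dg φ' * V⁻¹) with hU'
  have h1 := t13_An n K U U' (2 * ε) (by positivity) fun M => t13_step X V φ φ' ε hε h M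
  have h2 : ∀ A B : Mat N, fro A - fro B ≤ fro (A - B) := by
    intro A B
    have := fro_add (A - B) B
    rw [sub_add_cancel] at this
    linarith
  have h3 := h2 (An n K U) (An n K U')
  have h4 := h2 (An n K U') (An n K U)
  have h5 : fro (An n K U' - An n K U) = fro (An n K U - An n K U') := by
    rw [← fro_neg, neg_sub]
  rw [h5] at h4
  have h6 := An_le n K U
  have h7 := An_le n K U'
  have h8 := fro_nonneg (An n K U)
  have h9 := fro_nonneg (An n K U')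
  have h10 : |fro (An n K U) - fro (An n K U')| ≤ n * (2 * ε * fro K) / 2 :=
    abs_le.2 ⟨by linarith, by linarith⟩
  rw [sq_sub_sq, abs_mul, abs_of_nonneg (add_nonneg h8 h9)]
  calc (fro (An n K U) + fro (An n K U')) * |fro (An n K U) - fro (An n K U')|
      ≤ (fro K + fro K) * (n * (2 * ε * fro K) / 2) :=
        mul_le_mul (add_le_add h6 h7) h10 (abs_nonneg _)
          (add_nonneg (fro_nonneg _) (fro_nonneg _))
    _ = 2 * n * ε * fro K ^ 2 := by ring

private theorem t13_int {f : Orth N → ℝ} (hf : Continuous f) : Integrable f (haarO N) := by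
  have := prob_haarO N
  have := sc_orth N
  exact hf.integrable_of_hasCompactSupport (HasCompactSupport.of_compactSpace f)

private theorem t13_uc (n : ℕ) (K : Mat N) :
    Continuous fun q : (Uni N × Uni N) × Orth N =>
      fro (An n K (q.1.1 * (cx q.2 * q.1.2 * (cx q.2)⁻¹))) ^ 2 := by
  have h1 : Continuous fun q : (Uni N × Uni N) × Orth N =>
      q.1.1 * (cx q.2 * q.1.2 * (cx q.2)⁻¹) := by
    have := cx_cont (N := N)
    fun_prop
  exact (froc.comp ((An_cont n).comp (continuous_const.prodMk h1))).pow 2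

private theorem t13_c (n : ℕ) (K : Mat N) (X G : Uni N) :
    Continuous fun O : Orth N => fro (An n K (X * (cx O * G * (cx O)⁻¹))) ^ 2 := by
  have h1 : Continuous fun O : Orth N => X * (cx O * G * (cx O)⁻¹) := by
    have := cx_cont (N := N)
    fun_prop
  exact (froc.comp ((An_cont n).comp (continuous_const.prodMk h1))).pow 2

theorem psi_lip (n : ℕ) (K : Mat N) (X : Uni N) (φ φ' : Tor N) (ε : ℝ)
    (h : ∀ a, ‖ee (φ a) - ee (φ' a)‖ ≤ ε) :
    |Psi n K X (dg φ) - Psi n K X (dg φ')| ≤ 2 * n * ε * fro K ^ 2 := by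
  have hp := prob_haarO N
  rcases Nat.eq_zero_or_pos N with hN | hN
  · subst hN
    have h0 : ∀ M : Mat 0, fro M = 0 := fun M => by simp [fro]
    have h1 : ∀ G : Uni 0, Psi n K X G = 0 := by
      intro G
      unfold Psi
      simp only [h0]
      simp
    rw [h1, h1, h0]
    simp
  have hε : 0 ≤ ε := (norm_nonneg _).trans (h ⟨0, hN⟩)
  have e : Psi n K X (dg φ) - Psi n K X (dg φ') =
      ∫ O : Orth N, (fro (An n K (X * (cx O * dg φ * (cx O)⁻¹))) ^ 2 -
      fro (An n K (X * (cx O * dg φ' * (cx O)⁻¹))) ^ 2) ∂(haarO N) :=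
    (integral_sub (t13_int (t13_c n K X _)) (t13_int (t13_c n K X _))).symm
  rw [e]
  have h5 := norm_integral_le_of_norm_le_const (μ := haarO N)
    (f := fun O : Orth N => fro (An n K (X * (cx O * dg φ * (cx O)⁻¹))) ^ 2 -
      fro (An n K (X * (cx O * dg φ' * (cx O)⁻¹))) ^ 2) (C := 2 * n * ε * fro K ^ 2)
    (Filter.Eventually.of_forall fun O => t13_pt n K X (cx O) φ φ' ε hε h)
  rw [probReal_univ, mul_one] at h5
  exact h5

theorem psi_cont (n : ℕ) (K : Mat N) : Continuous fun q : Uni N × Uni N => Psi n K q.1 q.2 := by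
  have := prob_haarO N
  have := sc_orth N
  have := sc_uni N
  have h1 := continuous_parametric_integral_of_continuous (μ := haarO N)
    (f := fun (q : Uni N × Uni N) (O : Orth N) =>
      fro (An n K (q.1 * (cx O * q.2 * (cx O)⁻¹))) ^ 2) (t13_uc n K) (s := Set.univ)
      isCompact_univ
  simpa [Psi] using h1

theorem psi_nonneg (n : ℕ) (K : Mat N) (X G : Uni N) : 0 ≤ Psi n K X G :=
  integral_nonneg fun _ => by positivity

/-- The other order. -/
theorem psi_swap (n : ℕ) (K : Mat N) (X G : Uni N) :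
    ∫ O : Orth N, fro (An n K ((cx O)⁻¹ * G * cx O * X)) ^ 2 ∂(haarO N) =
      Psi n (X.1 * K * (X⁻¹ : Uni N).1) X G := by
  unfold Psi
  rw [← intO_inv]
  refine integral_congr_ae (Filter.Eventually.of_forall fun O => ?_)
  have h1 := fro_An_conj n K (cx O * G * (cx O)⁻¹ * X) X
  have h2 : X * (cx O * G * (cx O)⁻¹ * X) * X⁻¹ = X * (cx O * G * (cx O)⁻¹) := by group
  rw [h2] at h1
  simp only
  rw [h1, ← cx_inv, inv_inv]

/-- With the inverse of `O`. -/
theorem psi_inv (n : ℕ) (K : Mat N) (X G : Uni N) :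
    ∫ O : Orth N, fro (An n K (X * ((cx O)⁻¹ * G * cx O))) ^ 2 ∂(haarO N) = Psi n K X G := by
  unfold Psi
  rw [← intO_inv]
  refine integral_congr_ae (Filter.Eventually.of_forall fun O => ?_)
  simp only
  rw [← cx_inv, inv_inv]

end Ty
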