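import Pool.Agent.LibTy70.T08
import Pool.Agent.LibTy70.T09
import Pool.Agent.LibTy70.T12
import Pool.Agent.LibTy70.T13
import Pool.Agent.LibQGr.R_BAS

/-! Row T14: the general lemma. Plan for `gl_main`: `G = (cx R)⁻¹ dg φ cx R` (sym_diag), so `Psi G = Psi (dg φ)` (psi_conj);
T08 gives `G = V dg φ' V⁻¹` with `φ'` close to the lattice, and `φ' = φ ∘ σ` (dg_conj_perm), so `Psi G = Psi (dg φ')` and
`|Psi G - Psi (dg (lat N))| ≤ 2 n Dsc(G) |K|²`. The same for `sy A`, integrate over `A`: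
`Psi (dg (lat N)) ≤ E_A Psi (sy A) + 2 n |K|² E_A Dsc (sy A)`, T12. Corollary `gl_t`: integrate over `t`, T09, and
`n = nn N = ⌈N^(1/6)⌉ ≤ 2 N^(1/6)`. -/

open MeasureTheory Set Filter Topology

namespace Ty

open QGr

theorem t14_pc {N : ℕ} (n : ℕ) (K : Mat N) (X : Uni N) : Continuous (Psi n K X) := by
  have g : Continuous fun G : Uni N => ((X, G) : Uni N × Uni N) := Continuous.prodMk_right X
  have h := Continuous.comp (g := fun q : Uni N × Uni N => Psi n K q.1 q.2) (psi_cont n K) g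
  have e : (fun q : Uni N × Uni N => Psi n K q.1 q.2) ∘ (fun G : Uni N => ((X, G) : Uni N × Uni N))
    = Psi n K X := rfl
  rw [e] at h
  exact h

theorem t14_near {N : ℕ} (hN : 0 < N) (n : ℕ) (K : Mat N) (X G : Uni N) (hG : Sym G)
    (h : ℝ) (h0 : 0 < h) (h1 : h < 1) :
    |Psi n K X G - Psi n K X (dg (lat N))| ≤ 2 * n * Dsc h G * fro K ^ 2 := by
  obtain ⟨R, φ, hR⟩ := sym_diag G hG
  obtain ⟨V, φ', hV, hd⟩ := dsc_diag hN h h0 h1 G
  have e1 : dg φ = (cx R * V) * dg φ' * (cx R * V)⁻¹ := by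
    have : dg φ = cx R * G * (cx R)⁻¹ := by
      rw [hR]
      group
    rw [this, hV]
    group
  obtain ⟨σ, hσ⟩ := dg_conj_perm φ φ' _ e1
  have e2 : Psi n K X G = Psi n K X (dg φ) := by
    have := psi_conj n K X (dg φ) R⁻¹
    rw [← cx_inv, inv_inv, ← hR] at this
    exact this
  have e3 : dg φ = dg fun a => φ' (σ a) := by
    congr 1
    funext a
    exact hσ a
  rw [e2, e3, psi_perm]
  exact psi_lip n K X φ' (lat N) (Dsc h G) hd

theorem gl_main {N : ℕ} (hN : 2 ≤ N) (n : ℕ) (hn : 1 ≤ n) (K : Mat N) (hK : K.IsHermitian)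
    (ht : K.trace = 0) (X G : Uni N) (hX : Sym X) (hG : Sym G) (h : ℝ) (h0 : 0 < h) (h1 : h < 1) :
    Psi n K X G ≤ fro K ^ 2 * (2 / n + 4 * n / N + 2 * n * (Dsc h G +
      ∫ A : Uni N, Dsc h (sy A) ∂(haarU N))) := by
  have hp := haar_prob N
  have hN0 : 0 < N := by omega
  have a1 := abs_le.1 (t14_near hN0 n K X G hG h h0 h1)
  have i1 : Integrable (fun A : Uni N => Psi n K X (sy A)) (haarU N) := by
    have c : Continuous fun A : Uni N => Psi n K X (sy A) := (t14_pc n K X).comp sy_cont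
    exact c.integrable_of_hasCompactSupport (HasCompactSupport.of_compactSpace _)
  have i2 : Integrable (fun A : Uni N => Dsc h (sy A)) (haarU N) :=
    ((dsc_cont h h0).comp sy_cont).integrable_of_hasCompactSupport
      (HasCompactSupport.of_compactSpace _)
  have a2 : Psi n K X (dg (lat N)) ≤ ∫ A : Uni N, Psi n K X (sy A) ∂(haarU N) +
      2 * n * fro K ^ 2 * ∫ A : Uni N, Dsc h (sy A) ∂(haarU N) := by
    have e : Psi n K X (dg (lat N)) = ∫ _A : Uni N, Psi n K X (dg (lat N)) ∂(haarU N) := by simp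
    rw [e, ← integral_const_mul, ← integral_add i1 (i2.const_mul _)]
    refine integral_mono (integrable_const _) (i1.add (i2.const_mul _)) fun A => ?_
    have := abs_le.1 (t14_near hN0 n K X (sy A) (sy_sym A) h h0 h1)
    nlinarith [this.1]
  have a3 := coe_avg hN n hn K hK ht X hX
  nlinarith [a1.2]

theorem gl_t : ∃ C : ℝ, 0 ≤ C ∧ ∀ N : ℕ, 2 ≤ N → ∀ (K : Mat N), K.IsHermitian → K.trace = 0 →
    ∀ X Y : Uni N, Sym X → Sym Y →
    ∫ t : Tor N, Psi (nn N) K X (dg t * Y * dg t) ≤ C * (N : ℝ) ^ (-(1 / 6) : ℝ) * fro K ^ 2 := by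
  obtain ⟨C1, hC1, hE⟩ := E_dsc
  refine ⟨10 + 8 * C1, by positivity, fun N hN K hK ht X Y hX hY => ?_⟩
  obtain ⟨E1, E2⟩ := hE N hN
  have hN1 : (1 : ℝ) < N := by exact_mod_cast (by omega : 1 < N)
  have hN0 : (0 : ℝ) < N := by linarith
  have hb0 : 0 < hb N := Real.rpow_pos_of_pos hN0 _
  have hb1 : hb N < 1 := Real.rpow_lt_one_of_one_lt_of_neg hN1 (by norm_num)
  have x1 : (1 : ℝ) ≤ (N : ℝ) ^ (1 / 6 : ℝ) := Real.one_le_rpow hN1.le (by norm_num)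
  have n1 : (N : ℝ) ^ (1 / 6 : ℝ) ≤ (nn N : ℝ) := Nat.le_ceil _
  have n2' : (nn N : ℝ) ≤ 2 * (N : ℝ) ^ (1 / 6 : ℝ) := by
    have := (Nat.ceil_lt_add_one (show 0 ≤ (N : ℝ) ^ (1 / 6 : ℝ) by positivity)).le
    have h2 : (nn N : ℝ) ≤ (N : ℝ) ^ (1 / 6 : ℝ) + 1 := this
    linarith
  have hn : 1 ≤ nn N := by
    have : (1 : ℝ) ≤ nn N := x1.trans n1
    exact_mod_cast this
  have cG : Continuous fun t : Tor N => dg t * Y * dg t :=
    (dg_cont.mul continuous_const).mul dg_cont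
  have i1 : Integrable (fun t : Tor N => Psi (nn N) K X (dg t * Y * dg t)) := by
    have c : Continuous fun t : Tor N => Psi (nn N) K X (dg t * Y * dg t) :=
      (t14_pc (nn N) K X).comp cG
    exact c.integrable_of_hasCompactSupport (HasCompactSupport.of_compactSpace _)
  have i2 : Integrable (fun t : Tor N => Dsc (hb N) (dg t * Y * dg t)) :=
    ((dsc_cont (hb N) hb0).comp cG).integrable_of_hasCompactSupport
      (HasCompactSupport.of_compactSpace _)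
  set D := ∫ A : Uni N, Dsc (hb N) (sy A) ∂(haarU N) with hD
  have i3 : Integrable (fun t : Tor N => fro K ^ 2 * (2 / (nn N : ℝ) + 4 * (nn N : ℝ) / N +
      2 * (nn N : ℝ) * (Dsc (hb N) (dg t * Y * dg t) + D))) :=
    ((integrable_const _).add ((i2.add (integrable_const D)).const_mul _)).const_mul _
  have s1 : ∫ t : Tor N, Psi (nn N) K X (dg t * Y * dg t) ≤
      ∫ t : Tor N, fro K ^ 2 * (2 / (nn N : ℝ) + 4 * (nn N : ℝ) / N +
        2 * (nn N : ℝ) * (Dsc (hb N) (dg t * Y * dg t) + D)) :=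
    integral_mono i1 i3 fun t => gl_main hN (nn N) hn K hK ht X _ hX
      (sym_mul (dg t) Y (sym_dg t) hY) (hb N) hb0 hb1
  have s2 : ∫ t : Tor N, fro K ^ 2 * (2 / (nn N : ℝ) + 4 * (nn N : ℝ) / N +
        2 * (nn N : ℝ) * (Dsc (hb N) (dg t * Y * dg t) + D)) =
      fro K ^ 2 * (2 / (nn N : ℝ) + 4 * (nn N : ℝ) / N +
        2 * (nn N : ℝ) * ((∫ t : Tor N, Dsc (hb N) (dg t * Y * dg t)) + D)) := by
    have i4 : Integrable (fun t : Tor N => Dsc (hb N) (dg t * Y * dg t) + D) :=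
      i2.add (integrable_const D)
    rw [integral_const_mul, integral_add (integrable_const _) (i4.const_mul _),
      integral_const_mul, integral_add i2 (integrable_const _)]
    simp
  refine s1.trans (s2.trans_le ?_)
  rw [mul_comm (_ * _) (fro K ^ 2)]
  refine mul_le_mul_of_nonneg_left ?_ (by positivity)
  have b1 : 2 / (nn N : ℝ) ≤ 2 * (N : ℝ) ^ (-(1 / 6) : ℝ) := by
    rw [Real.rpow_neg hN0.le, ← div_eq_mul_inv]
    exact div_le_div_of_nonneg_left (by norm_num) (by linarith) n1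
  have r1 : (N : ℝ) ^ (1 / 6 : ℝ) / N ≤ (N : ℝ) ^ (-(1 / 6) : ℝ) := by
    rw [div_le_iff₀ hN0]
    calc (N : ℝ) ^ (1 / 6 : ℝ) ≤ (N : ℝ) ^ (-(1 / 6) + 1 : ℝ) :=
          Real.rpow_le_rpow_of_exponent_le hN1.le (by norm_num)
      _ = (N : ℝ) ^ (-(1 / 6) : ℝ) * N := by rw [Real.rpow_add hN0, Real.rpow_one]
  have b2 : 4 * (nn N : ℝ) / N ≤ 8 * (N : ℝ) ^ (-(1 / 6) : ℝ) := by
    calc 4 * (nn N : ℝ) / N ≤ 4 * (2 * (N : ℝ) ^ (1 / 6 : ℝ)) / N := by gcongr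
      _ = 8 * ((N : ℝ) ^ (1 / 6 : ℝ) / N) := by ring
      _ ≤ _ := by linarith
  have r2 : (N : ℝ) ^ (1 / 6 : ℝ) * (N : ℝ) ^ (-(1 / 3) : ℝ) = (N : ℝ) ^ (-(1 / 6) : ℝ) := by
    rw [← Real.rpow_add hN0]
    norm_num
  have b3 : 2 * (nn N : ℝ) * ((∫ t : Tor N, Dsc (hb N) (dg t * Y * dg t)) + D) ≤
      8 * C1 * (N : ℝ) ^ (-(1 / 6) : ℝ) := by
    calc 2 * (nn N : ℝ) * ((∫ t : Tor N, Dsc (hb N) (dg t * Y * dg t)) + D)
        ≤ 2 * (nn N : ℝ) * (C1 * (N : ℝ) ^ (-(1 / 3) : ℝ) + C1 * (N : ℝ) ^ (-(1 / 3) : ℝ)) := by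
          refine mul_le_mul_of_nonneg_left (add_le_add (E1 Y) E2) (by positivity)
      _ ≤ 2 * (2 * (N : ℝ) ^ (1 / 6 : ℝ)) *
          (C1 * (N : ℝ) ^ (-(1 / 3) : ℝ) + C1 * (N : ℝ) ^ (-(1 / 3) : ℝ)) := by gcongr
      _ = 8 * C1 * ((N : ℝ) ^ (1 / 6 : ℝ) * (N : ℝ) ^ (-(1 / 3) : ℝ)) := by ring
      _ = _ := by rw [r2]
  nlinarith

end Ty
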