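import Pool.Agent.LibTy70.T02
import Pool.Agent.LibTy70.T03

/-! Row T15: first order perturbation of a class function. Plan: `H := V (dm δ) V⁻¹` Hermitian, `E := V dgr(hδ) V⁻¹`.
`R' := (1/n) ∑_{j<n} ∑_{i<j} W^i H W^-i` (Hermitian, `fro R' ≤ n Δ`), `H = An n H W + R' - W R' W⁻¹` (telescoping).
Diagonalise `R' = S (dm r) S⁻¹` (`Matrix.IsHermitian.spectral_theorem`), `Q := S dgr(h r) S⁻¹`. For a unitary
`T` and real `r`: `fro (T dgr(h r) T⁻¹ - 1 - i h T (dm r) T⁻¹) ≤ h² ∑ r²` (`|e^{ix} - 1 - ix| ≤ x²/2`, unitary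
invariance). So `Q⁻¹ = 1 - i h R' + O(h²)`, `E = 1 + i h H + O(h²)`, `W Q W⁻¹ = 1 + i h W R' W⁻¹ + O(h²)` and
`fro (Q⁻¹ E (W Q W⁻¹) - 1 - i h An n H W) ≤ C h²` by `fro_mul` (expand the product of three `1 + small`). Class property:
`c (E W) = c (Q⁻¹ E W Q)`, and `ds (Q⁻¹ E W Q) W = fro (Q⁻¹ E W Q W⁻¹ - 1)²`. -/

open MeasureTheory Set Filter Topology

namespace Ty

open QGr

private theorem t15_inv {N : ℕ} (U : Uni N) : (U⁻¹ : Uni N).1 = U.1.conjTranspose := rfl

private theorem t15_mul {N : ℕ} (U V : Uni N) : (U * V : Uni N).1 = U.1 * V.1 := rfl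

private theorem t15_mi {N : ℕ} (U : Uni N) : U.1 * (U⁻¹ : Uni N).1 = 1 := by
  rw [← t15_mul, mul_inv_cancel]; rfl

private theorem t15_im {N : ℕ} (U : Uni N) : (U⁻¹ : Uni N).1 * U.1 = 1 := by
  rw [← t15_mul, inv_mul_cancel]; rfl

private theorem t15_ee (x : ℝ) : ee ((x / (2 * Real.pi) : ℝ) : UnitAddCircle) =
    Complex.exp (x * Complex.I) := by
  unfold ee
  have hp := Real.pi_ne_zero
  rw [AddCircle.toCircle_apply_mk, Circle.coe_exp]
  congr 2
  push_cast
  field_simp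

private theorem t15_dgr {N : ℕ} (r : Fin N → ℝ) :
    (dgr r).1 = Matrix.diagonal fun a => Complex.exp ((r a : ℝ) * Complex.I) := by
  unfold dgr
  rw [dg_val]
  congr 1
  ext a
  exact t15_ee (r a)

private theorem t15_taylor (x : ℝ) :
    ‖Complex.exp (x * Complex.I) - 1 - x * Complex.I‖ ≤ x ^ 2 := by
  have hd : ∀ u : ℝ, HasDerivAt (fun u : ℝ => Complex.exp (u * Complex.I) - 1 - u * Complex.I)
      (Complex.exp (u * Complex.I) * Complex.I - Complex.I) u := by
    intro u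
    have h5 : HasDerivAt (fun s : ℝ => (s : ℂ) * Complex.I) Complex.I u := by
      have : HasDerivAt (fun s : ℝ => (s : ℂ)) 1 u := by simpa using (hasDerivAt_id u).ofReal_comp
      simpa using this.mul_const Complex.I
    exact ((h5.cexp).sub_const 1).sub h5
  have hc : Continuous fun u : ℝ => Complex.exp (u * Complex.I) * Complex.I - Complex.I := by
    fun_prop
  have h1 := intervalIntegral.integral_eq_sub_of_hasDerivAt (a := 0) (b := x) (fun u _ => hd u)
    (hc.intervalIntegrable _ _)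
  have h2 : Complex.exp (x * Complex.I) - 1 - x * Complex.I =
      ∫ u in (0 : ℝ)..x, (Complex.exp (u * Complex.I) * Complex.I - Complex.I) := by
    rw [h1]; simp
  rw [h2]
  have h3 := intervalIntegral.norm_integral_le_of_norm_le_const (a := (0 : ℝ)) (b := x) (C := |x|)
    (f := fun u : ℝ => Complex.exp (u * Complex.I) * Complex.I - Complex.I) (fun u hu => by
      have e : Complex.exp (u * Complex.I) * Complex.I - Complex.I =
          (Complex.exp (Complex.I * u) - 1) * Complex.I := by rw [mul_comm Complex.I (u : ℂ)]; ring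
      rw [e, norm_mul, Complex.norm_I, mul_one]
      refine (Real.norm_exp_I_mul_ofReal_sub_one_le).trans ?_
      rw [Real.norm_eq_abs]
      rcases le_total 0 x with hx | hx
      · rw [uIoc_of_le hx] at hu
        rw [abs_of_pos hu.1, abs_of_nonneg hx]; exact hu.2
      · rw [uIoc_of_ge hx] at hu
        rw [abs_of_nonpos hu.2, abs_of_nonpos hx]; linarith [hu.1])
  refine h3.trans (le_of_eq ?_)
  rw [sub_zero, ← sq, sq_abs]

private theorem t15_exp {N : ℕ} (T : Uni N) (r : Fin N → ℝ) (h : ℝ) :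
    fro ((T * dgr (h • r) * T⁻¹ : Uni N).1 - 1 -
      ((h : ℂ) * Complex.I) • (T.1 * dm r * (T⁻¹ : Uni N).1)) ≤ h ^ 2 * ∑ a, r a ^ 2 := by
  have h1 : (T * dgr (h • r) * T⁻¹ : Uni N).1 - 1 -
      ((h : ℂ) * Complex.I) • (T.1 * dm r * (T⁻¹ : Uni N).1) =
      T.1 * (Matrix.diagonal fun a => Complex.exp (((h * r a : ℝ) : ℂ) * Complex.I) - 1 -
        ((h * r a : ℝ) : ℂ) * Complex.I) * (T⁻¹ : Uni N).1 := by
    have e : (Matrix.diagonal fun a => Complex.exp (((h * r a : ℝ) : ℂ) * Complex.I) - 1 -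
        ((h * r a : ℝ) : ℂ) * Complex.I) = (dgr (h • r)).1 - 1 - ((h : ℂ) * Complex.I) • dm r := by
      rw [t15_dgr]
      unfold dm
      ext i j
      by_cases hij : i = j
      · subst hij
        simp [mul_comm, mul_left_comm]
      · simp [hij]
    rw [e, t15_mul, t15_mul]
    rw [mul_sub, mul_sub, sub_mul, sub_mul, mul_one, t15_mi, Matrix.mul_smul, Matrix.smul_mul]
  rw [h1, fro_uni]
  have hnn : 0 ≤ ∑ a, (h * r a) ^ 2 := by positivity
  have hs : h ^ 2 * ∑ a, r a ^ 2 = ∑ a, (h * r a) ^ 2 := by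
    rw [Finset.mul_sum]
    exact Finset.sum_congr rfl fun a _ => by ring
  rw [hs]
  refine (sq_le_sq₀ (fro_nonneg _) hnn).mp ?_
  rw [fro_sq]
  have h2 : ∀ i, ∑ j, ‖(Matrix.diagonal fun a => Complex.exp (((h * r a : ℝ) : ℂ) * Complex.I) - 1 -
        ((h * r a : ℝ) : ℂ) * Complex.I) i j‖ ^ 2 ≤ (h * r i) ^ 2 * (h * r i) ^ 2 := by
    intro i
    rw [Finset.sum_eq_single i]
    · rw [Matrix.diagonal_apply_eq, ← sq]
      have := t15_taylor (h * r i)
      gcongr
    · intro j _ hj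
      rw [Matrix.diagonal_apply_ne _ (Ne.symm hj)]
      simp
    · intro hi; exact absurd (Finset.mem_univ _) hi
  calc ∑ i, ∑ j, ‖(Matrix.diagonal fun a => Complex.exp (((h * r a : ℝ) : ℂ) * Complex.I) - 1 -
        ((h * r a : ℝ) : ℂ) * Complex.I) i j‖ ^ 2
      ≤ ∑ i, (h * r i) ^ 2 * (h * r i) ^ 2 := Finset.sum_le_sum fun i _ => h2 i
    _ ≤ ∑ i, (h * r i) ^ 2 * ∑ a, (h * r a) ^ 2 := by
        refine Finset.sum_le_sum fun i _ => ?_
        gcongr
        exact Finset.single_le_sum (f := fun a => (h * r a) ^ 2) (fun a _ => sq_nonneg _)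
          (Finset.mem_univ i)
    _ = (∑ a, (h * r a) ^ 2) ^ 2 := by rw [← Finset.sum_mul, sq]

/-- product of three perturbations of the identity -/
private theorem t15_prod {N : ℕ} (a e p X : Mat N) {s B : ℝ} (hs0 : 0 ≤ s) (hB : 0 ≤ B)
    (ha : fro a ≤ s * B) (he : fro e ≤ s * B) (hp : fro p ≤ s * B)
    (hX : fro (a + e + p - X) ≤ 3 * s ^ 2 * B) :
    fro ((1 + a) * (1 + e) * (1 + p) - 1) ≤
      fro X + 3 * s ^ 2 * B + 3 * s ^ 2 * B ^ 2 + s ^ 3 * B ^ 3 := by
  have h1 : (1 + a) * (1 + e) * (1 + p) - 1 =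
      X + (a + e + p - X) + (a * e + a * p + e * p) + a * e * p := by noncomm_ring
  have hsB : 0 ≤ s * B := by positivity
  have m : ∀ u v : Mat N, fro u ≤ s * B → fro v ≤ s * B → fro (u * v) ≤ s * B * (s * B) := by
    intro u v hu hv
    exact (fro_mul u v).trans (mul_le_mul hu hv (fro_nonneg _) hsB)
  have h2 := m a e ha he
  have h3 := m a p ha hp
  have h4 := m e p he hp
  have h5 : fro (a * e * p) ≤ s * B * (s * B) * (s * B) :=
    (fro_mul _ _).trans (mul_le_mul h2 hp (fro_nonneg _) (by positivity))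
  rw [h1]
  calc fro (X + (a + e + p - X) + (a * e + a * p + e * p) + a * e * p)
      ≤ fro (X + (a + e + p - X) + (a * e + a * p + e * p)) + fro (a * e * p) := fro_add _ _
    _ ≤ fro (X + (a + e + p - X)) + fro (a * e + a * p + e * p) + fro (a * e * p) := by
        gcongr; exact fro_add _ _
    _ ≤ fro X + fro (a + e + p - X) + (fro (a * e) + fro (a * p) + fro (e * p)) +
        fro (a * e * p) := by
        gcongr
        · exact fro_add _ _
        · exact (fro_add _ _).trans (by gcongr; exact fro_add _ _)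
    _ ≤ fro X + 3 * s ^ 2 * B + (s * B * (s * B) + s * B * (s * B) + s * B * (s * B)) +
        s * B * (s * B) * (s * B) := by gcongr
    _ = _ := by ring

/-- the conjugates -/
private noncomputable def t15_X {N : ℕ} (H : Mat N) (W : Uni N) (i : ℕ) : Mat N :=
  (W ^ i : Uni N).1 * H * ((W ^ i)⁻¹ : Uni N).1

private noncomputable def t15_R {N : ℕ} (n : ℕ) (H : Mat N) (W : Uni N) : Mat N :=
  ((1 / n : ℝ) : ℂ) • ∑ j ∈ Finset.range n, ∑ i ∈ Finset.range j, t15_X H W i

private theorem t15_X_succ {N : ℕ} (H : Mat N) (W : Uni N) (i : ℕ) :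
    W.1 * t15_X H W i * (W⁻¹ : Uni N).1 = t15_X H W (i + 1) := by
  unfold t15_X
  rw [pow_succ', mul_inv_rev, t15_mul, t15_mul]
  simp only [mul_assoc]

private theorem t15_tel {N : ℕ} (n : ℕ) (hn : 1 ≤ n) (H : Mat N) (W : Uni N) :
    An n H W + t15_R n H W - W.1 * t15_R n H W * (W⁻¹ : Uni N).1 = H := by
  have hn' : ((n : ℝ) : ℂ) ≠ 0 := by exact_mod_cast (by omega : n ≠ 0)
  have h1 : W.1 * t15_R n H W * (W⁻¹ : Uni N).1 =
      ((1 / n : ℝ) : ℂ) • ∑ j ∈ Finset.range n, ∑ i ∈ Finset.range j, t15_X H W (i + 1) := by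
    unfold t15_R
    rw [Matrix.mul_smul, Matrix.smul_mul, Finset.mul_sum, Finset.sum_mul]
    congr 1
    refine Finset.sum_congr rfl fun j _ => ?_
    rw [Finset.mul_sum, Finset.sum_mul]
    exact Finset.sum_congr rfl fun i _ => t15_X_succ H W i
  have h2 : An n H W = ((1 / n : ℝ) : ℂ) • ∑ j ∈ Finset.range n, t15_X H W j := rfl
  rw [h1, h2]
  unfold t15_R
  rw [← smul_add, ← smul_sub, ← Finset.sum_add_distrib, ← Finset.sum_sub_distrib]
  have h3 : ∀ j, t15_X H W j + (∑ i ∈ Finset.range j, t15_X H W i) -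
      ∑ i ∈ Finset.range j, t15_X H W (i + 1) = H := by
    intro j
    rw [add_sub_assoc, ← Finset.sum_sub_distrib, Finset.sum_range_sub']
    have : t15_X H W 0 = H := by
      unfold t15_X; simp
    rw [this]
    abel
  simp_rw [h3]
  rw [Finset.sum_const, Finset.card_range, ← Nat.cast_smul_eq_nsmul ℂ, smul_smul]
  have : ((1 / n : ℝ) : ℂ) * (n : ℂ) = 1 := by
    push_cast
    rw [one_div, inv_mul_cancel₀]
    exact_mod_cast (by omega : n ≠ 0)
  rw [this, one_smul]

private theorem t15_X_fro {N : ℕ} (H : Mat N) (W : Uni N) (i : ℕ) : fro (t15_X H W i) = fro H := by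
  unfold t15_X; exact fro_uni _ _ _

private theorem t15_R_fro {N : ℕ} (n : ℕ) (hn : 1 ≤ n) (H : Mat N) (W : Uni N) :
    fro (t15_R n H W) ≤ n * fro H := by
  unfold t15_R
  rw [fro_smul]
  have hn' : (0 : ℝ) < n := by exact_mod_cast hn
  have h1 : ‖((1 / n : ℝ) : ℂ)‖ = 1 / n := by
    rw [Complex.norm_real, Real.norm_eq_abs, abs_of_pos (by positivity)]
  rw [h1]
  have h2 : fro (∑ j ∈ Finset.range n, ∑ i ∈ Finset.range j, t15_X H W i) ≤ n * (n * fro H) := by
    refine (fro_sum _ _).trans ?_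
    calc ∑ j ∈ Finset.range n, fro (∑ i ∈ Finset.range j, t15_X H W i)
        ≤ ∑ j ∈ Finset.range n, (n * fro H) := by
          refine Finset.sum_le_sum fun j hj => ?_
          refine (fro_sum _ _).trans ?_
          simp_rw [t15_X_fro]
          rw [Finset.sum_const, Finset.card_range, nsmul_eq_mul]
          have : (j : ℝ) ≤ n := by exact_mod_cast (Finset.mem_range.mp hj).le
          have := fro_nonneg H
          gcongr
      _ = n * (n * fro H) := by rw [Finset.sum_const, Finset.card_range, nsmul_eq_mul]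
  calc 1 / (n : ℝ) * fro (∑ j ∈ Finset.range n, ∑ i ∈ Finset.range j, t15_X H W i)
      ≤ 1 / (n : ℝ) * (n * (n * fro H)) := by gcongr
    _ = n * fro H := by field_simp

private theorem t15_X_herm {N : ℕ} (H : Mat N) (hH : H.IsHermitian) (W : Uni N) (i : ℕ) :
    (t15_X H W i).IsHermitian := by
  unfold t15_X Matrix.IsHermitian
  rw [t15_inv, Matrix.conjTranspose_mul, Matrix.conjTranspose_mul, Matrix.conjTranspose_conjTranspose,
    hH.eq, mul_assoc]

private theorem t15_R_herm {N : ℕ} (n : ℕ) (H : Mat N) (hH : H.IsHermitian) (W : Uni N) :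
    (t15_R n H W).IsHermitian := by
  unfold t15_R Matrix.IsHermitian
  rw [Matrix.conjTranspose_smul, Matrix.conjTranspose_sum]
  congr 1
  · simp
  · refine Finset.sum_congr rfl fun j _ => ?_
    rw [Matrix.conjTranspose_sum]
    exact Finset.sum_congr rfl fun i _ => (t15_X_herm H hH W i).eq

/-- diagonalisation of a Hermitian matrix -/
private theorem t15_spec {N : ℕ} (R : Mat N) (hR : R.IsHermitian) :
    ∃ (S : Uni N) (r : Fin N → ℝ), R = S.1 * dm r * (S⁻¹ : Uni N).1 := by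
  refine ⟨hR.eigenvectorUnitary, hR.eigenvalues, ?_⟩
  have h := hR.spectral_theorem
  rw [Unitary.conjStarAlgAut_apply] at h
  rw [t15_inv]
  exact h

theorem step1 {N : ℕ} (n : ℕ) (hn : 1 ≤ n) (Δ : ℝ) (hΔ : 0 ≤ Δ) :
    ∃ C : ℝ, 0 ≤ C ∧ ∀ (ℓ : ℝ) (c : Uni N → ℝ), 0 ≤ ℓ → Cls ℓ c → ∀ (δ : Fin N → ℝ),
      √(∑ a, δ a ^ 2) ≤ Δ → ∀ (V W : Uni N) (h : ℝ), 0 ≤ h → h ≤ 1 →
      |c (V * dgr (h • δ) * V⁻¹ * W) - c W| ≤
        ℓ * (h * fro (An n (V.1 * dm δ * (V⁻¹ : Uni N).1) W) + C * h ^ 2) := by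
  set A : ℝ := n * Δ with hA
  have hA0 : 0 ≤ A := by positivity
  set B : ℝ := A + A ^ 2 with hB
  have hB0 : 0 ≤ B := by positivity
  refine ⟨3 * B + 3 * B ^ 2 + B ^ 3, by positivity, ?_⟩
  intro ℓ c hℓ hc δ hδ V W h h0 h1
  have hn1 : (1 : ℝ) ≤ n := by exact_mod_cast hn
  set H : Mat N := V.1 * dm δ * (V⁻¹ : Uni N).1 with hH
  have hHf : fro H ≤ Δ := by rw [hH, fro_uni, fro_dm]; exact hδ
  have hHh : H.IsHermitian := by
    rw [hH]
    unfold Matrix.IsHermitian
    rw [t15_inv, Matrix.conjTranspose_mul, Matrix.conjTranspose_mul,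
      Matrix.conjTranspose_conjTranspose, mul_assoc]
    congr 2
    unfold dm
    rw [Matrix.diagonal_conjTranspose]
    congr 1
    ext a
    simp
  obtain ⟨S, r, hS⟩ := t15_spec (t15_R n H W) (t15_R_herm n H hHh W)
  have hRf : fro (t15_R n H W) ≤ A :=
    (t15_R_fro n hn H W).trans (by rw [hA]; gcongr)
  have hr : ∑ a, r a ^ 2 ≤ A ^ 2 := by
    have e : fro (t15_R n H W) = √(∑ a, r a ^ 2) := by rw [hS, fro_uni, fro_dm]
    rw [e] at hRf
    have := Real.sqrt_le_left hA0 |>.mp hRf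
    exact this
  have hd : ∑ a, δ a ^ 2 ≤ A ^ 2 := by
    have h2 : Δ ≤ A := by rw [hA]; nlinarith
    exact (Real.sqrt_le_left hA0).mp (hδ.trans h2)
  set Q : Uni N := S * dgr (h • r) * S⁻¹ with hQ
  set E : Uni N := V * dgr (h • δ) * V⁻¹ with hE
  set T : Uni N := W * S with hT
  have hP : W * Q * W⁻¹ = T * dgr (h • r) * T⁻¹ := by
    rw [hQ, hT]; group
  have hQi : Q⁻¹ = S * dgr (h • (-r)) * S⁻¹ := by
    have e : (dgr (h • r))⁻¹ = dgr (h • (-r)) := by
      unfold dgr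
      rw [dg_inv]
      congr 1
      ext a
      simp only [Pi.neg_apply, Pi.smul_apply, smul_eq_mul]
      rw [mul_neg, neg_div, AddCircle.coe_neg]
    rw [hQ, mul_inv_rev, mul_inv_rev, inv_inv, e, mul_assoc]
  -- expansions
  have x1 := t15_exp S (-r) h
  have x2 := t15_exp V δ h
  have x3 := t15_exp T r h
  rw [← hQi] at x1
  rw [← hP] at x3
  have dneg : dm (-r) = -dm r := by
    unfold dm
    ext i j
    by_cases hij : i = j
    · subst hij; simp
    · simp [hij]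
  have y1 : S.1 * dm (-r) * (S⁻¹ : Uni N).1 = -t15_R n H W := by
    rw [dneg, hS]; noncomm_ring
  have y3 : T.1 * dm r * (T⁻¹ : Uni N).1 = W.1 * t15_R n H W * (W⁻¹ : Uni N).1 := by
    rw [hS, hT, mul_inv_rev, t15_mul, t15_mul]
    simp only [mul_assoc]
  rw [y1] at x1
  rw [y3] at x3
  have hneg : ∑ a, (-r) a ^ 2 = ∑ a, r a ^ 2 := by simp
  rw [hneg] at x1
  set R := t15_R n H W with hRdef
  set G : Mat N := W.1 * R * (W⁻¹ : Uni N).1 with hG
  have hGf : fro G ≤ A := by rw [hG, fro_uni]; exact hRf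
  have htel := t15_tel n hn H W
  have hAn : An n H W = H - R + G := by
    have h5 : An n H W + R - G = H := htel
    have h6 := eq_sub_of_add_eq (sub_eq_iff_eq_add.mp h5)
    rw [h6]; abel
  set a : Mat N := (Q⁻¹ : Uni N).1 - 1 with ha
  set e : Mat N := E.1 - 1 with he
  set p : Mat N := (W * Q * W⁻¹ : Uni N).1 - 1 with hp
  set z : ℂ := (h : ℂ) * Complex.I with hz
  have hzn : ‖z‖ = h := by
    rw [hz, norm_mul, Complex.norm_I, mul_one, Complex.norm_real, Real.norm_eq_abs, abs_of_nonneg h0]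
  have hh : h ^ 2 ≤ h := by nlinarith
  have hA2 : 0 ≤ A ^ 2 := by positivity
  have hBA : h ^ 2 * A ^ 2 ≤ h ^ 2 * B := by
    have : A ^ 2 ≤ B := by rw [hB]; linarith
    gcongr
  have x1' : fro (a - z • (-R)) ≤ h ^ 2 * B :=
    (x1.trans (by gcongr)).trans hBA
  have x2' : fro (e - z • H) ≤ h ^ 2 * B := (x2.trans (by gcongr)).trans hBA
  have x3' : fro (p - z • G) ≤ h ^ 2 * B := (x3.trans (by gcongr)).trans hBA
  have bnd : ∀ u v : Mat N, fro (u - z • v) ≤ h ^ 2 * A ^ 2 → fro v ≤ A → fro u ≤ h * B := by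
    intro u v hu hv
    have e1 : u = (u - z • v) + z • v := by abel
    calc fro u = fro ((u - z • v) + z • v) := by rw [← e1]
      _ ≤ fro (u - z • v) + fro (z • v) := fro_add _ _
      _ ≤ h ^ 2 * A ^ 2 + h * A := by
        rw [fro_smul, hzn]
        gcongr
      _ ≤ h * A ^ 2 + h * A := by gcongr
      _ = h * B := by rw [hB]; ring
  have b1 : fro a ≤ h * B := bnd a (-R) (x1.trans (by gcongr)) (by rw [fro_neg]; exact hRf)
  have b2 : fro e ≤ h * B := bnd e H (x2.trans (by gcongr)) (hHf.trans (by rw [hA]; nlinarith))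
  have b3 : fro p ≤ h * B := bnd p G (x3.trans (by gcongr)) hGf
  have hX : fro (a + e + p - z • An n H W) ≤ 3 * h ^ 2 * B := by
    have e1 : a + e + p - z • An n H W = (a - z • (-R)) + (e - z • H) + (p - z • G) := by
      rw [hAn, smul_add, smul_sub, smul_neg]; abel
    rw [e1]
    calc fro ((a - z • (-R)) + (e - z • H) + (p - z • G))
        ≤ fro ((a - z • (-R)) + (e - z • H)) + fro (p - z • G) := fro_add _ _
      _ ≤ fro (a - z • (-R)) + fro (e - z • H) + fro (p - z • G) := by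
        gcongr; exact fro_add _ _
      _ ≤ h ^ 2 * B + h ^ 2 * B + h ^ 2 * B := by gcongr
      _ = 3 * h ^ 2 * B := by ring
  have hprod := t15_prod a e p (z • An n H W) h0 hB0 b1 b2 b3 hX
  -- the class function
  have hcl : c (E * W) = c (Q⁻¹ * (E * W) * Q) := by
    have := hc.conj Q⁻¹ (E * W)
    rw [inv_inv] at this
    exact this.symm
  have hfr : √(ds (Q⁻¹ * (E * W) * Q) W) = fro ((1 + a) * (1 + e) * (1 + p) - 1) := by
    rw [ds_fro]
    have e1 : (1 + a) * (1 + e) * (1 + p) = (Q⁻¹ * E * (W * Q * W⁻¹) : Uni N).1 := by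
      rw [ha, he, hp, add_sub_cancel, add_sub_cancel, add_sub_cancel]
      rfl
    have e2 : (Q⁻¹ * (E * W) * Q : Uni N).1 - W.1 =
        (1 : Uni N).1 * ((Q⁻¹ * E * (W * Q * W⁻¹) : Uni N).1 - 1) * W.1 := by
      have e3 : (Q⁻¹ * (E * W) * Q : Uni N) = Q⁻¹ * E * (W * Q * W⁻¹) * W := by group
      rw [e3, t15_mul (Q⁻¹ * E * (W * Q * W⁻¹)) W, mul_sub, sub_mul]
      have e4 : (1 : Uni N).1 = 1 := rfl
      rw [e4, one_mul, one_mul, one_mul]
    rw [e2, fro_uni, e1]
  rw [hcl]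
  refine (hc.lip _ _).trans ?_
  rw [hfr]
  refine mul_le_mul_of_nonneg_left ?_ hℓ
  refine hprod.trans ?_
  rw [fro_smul, hzn]
  have h3 : h ^ 3 * B ^ 3 ≤ h ^ 2 * B ^ 3 := by
    have : h ^ 3 ≤ h ^ 2 := by nlinarith [sq_nonneg h]
    gcongr
  nlinarith

end Ty
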