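import Pool.Agent.LibTy70.T13
import Pool.Agent.LibTy70.T15

/-! Row T16: the layer is a contraction along paths. Plan: `g φ := lay c (dgr φ)`. (1) `g (φ + const) = g φ`: scalar factor
`dg (const/2)` absorbed in `t` on both sides (intT_add, dg_const). So replace `δ` by `δ' = δ - mean`, `∑ δ'^2 ≤ ∑ δ^2`.
(2) For `s ∈ [0,1]`, `h ∈ [0,1]`, fixed `O, t`: `W = dg t (cx O)⁻¹ dgr(φ + s δ') cx O dg t`,
`dg t (cx O)⁻¹ dgr(φ + (s+h) δ') cx O dg t = (V dgr(h δ') V⁻¹) W` with `V = dg t (cx O)⁻¹`. T15 (C independent of everything).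
`fro (An n (V dm δ' V⁻¹) W) = fro (An n (dm δ') (dgr(φ + s δ') * (cx O (dg t dg t) (cx O)⁻¹)))` (fro_An_conj with `V⁻¹`).
Integrate over `t`, `O`; Cauchy-Schwarz (probability): `|g(φ+(s+h)δ') - g(φ+sδ')| ≤ ℓ (h √(ρ ∑δ'^2) + C h²)` by `hρ` and
Fubini. (3) `k` steps of length `1/k`, `k → ∞`. -/

open MeasureTheory Set Filter Topology

namespace Ty

open QGr

private theorem t16_dgr_add {N : ℕ} (φ ψ : Fin N → ℝ) : dgr (φ + ψ) = dgr φ * dgr ψ := by
  unfold dgr
  rw [← dg_add]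
  congr 1
  ext a
  simp only [Pi.add_apply]
  rw [add_div, AddCircle.coe_add]

/-- rotation invariance -/
private theorem t16_rot {N : ℕ} (c : Uni N → ℝ) (φ : Fin N → ℝ) (κ : ℝ) :
    lay c (dgr (φ + fun _ => κ)) = lay c (dgr φ) := by
  set x : UnitAddCircle := ((κ / 2 / (2 * Real.pi) : ℝ) : UnitAddCircle) with hx
  have h1 : dgr (fun _ : Fin N => κ) = dg (fun _ => x) * dg (fun _ => x) := by
    unfold dgr
    rw [← dg_add]
    congr 1
    ext a
    simp only [Pi.add_apply]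
    rw [hx, ← AddCircle.coe_add]
    congr 1
    ring
  unfold lay
  refine integral_congr_ae (Eventually.of_forall fun O => ?_)
  simp only
  rw [← intT_add (fun _ => x) fun t => c (dg t * (cx O)⁻¹ * dgr φ * cx O * dg t)]
  refine integral_congr_ae (Eventually.of_forall fun t => ?_)
  simp only
  congr 1
  rw [t16_dgr_add, h1, dg_add]
  have hc := fun W : Uni N => dg_const x W
  set D : Uni N := dg (fun _ => x) with hD
  calc dg t * (cx O)⁻¹ * (dgr φ * (D * D)) * cx O * dg t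
      = dg t * (cx O)⁻¹ * dgr φ * D * (D * cx O) * dg t := by simp only [mul_assoc]
    _ = dg t * (cx O)⁻¹ * dgr φ * D * (cx O * D) * dg t := by rw [hc (cx O)]
    _ = dg t * (cx O)⁻¹ * dgr φ * (D * cx O) * (D * dg t) := by simp only [mul_assoc]
    _ = dg t * (cx O)⁻¹ * dgr φ * (cx O * D) * (dg t * D) := by rw [hc (cx O), hc (dg t)]
    _ = dg t * (cx O)⁻¹ * dgr φ * cx O * (D * (dg t * D)) := by simp only [mul_assoc]
    _ = dg t * (cx O)⁻¹ * dgr φ * cx O * (dg t * D * D) := by rw [hc (dg t * D)]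
    _ = (dg t * (cx O)⁻¹ * dgr φ * cx O * dg t) * D * D := by simp only [mul_assoc]
    _ = D * (dg t * (cx O)⁻¹ * dgr φ * cx O * dg t) * D := by rw [hc]
    _ = (D * dg t) * (cx O)⁻¹ * dgr φ * cx O * (dg t * D) := by simp only [mul_assoc]
    _ = dg t * D * (cx O)⁻¹ * dgr φ * cx O * (dg t * D) := by rw [hc (dg t)]

/-- one step -/
private theorem t16_step {N : ℕ} (ℓ ρ : ℝ) (c : Uni N → ℝ) (h0 : 0 ≤ ℓ) (hρ0 : 0 ≤ ρ) (hc : Cls ℓ c)
    (n : ℕ) (δ : Fin N → ℝ) (hδ0 : ∑ a, δ a = 0)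
    (hρ : ∀ φ : Fin N → ℝ,
      ∫ t : Tor N, Psi n (dm δ) (dgr φ) (dg t * 1 * dg t) ≤ ρ * ∑ a, δ a ^ 2)
    (C : ℝ) (hC0 : 0 ≤ C)
    (hC : ∀ (V W : Uni N) (h : ℝ), 0 ≤ h → h ≤ 1 → |c (V * dgr (h • δ) * V⁻¹ * W) - c W| ≤
        ℓ * (h * fro (An n (V.1 * dm δ * (V⁻¹ : Uni N).1) W) + C * h ^ 2))
    (ψ : Fin N → ℝ) (h : ℝ) (hh0 : 0 ≤ h) (hh1 : h ≤ 1) :
    |lay c (dgr (ψ + h • δ)) - lay c (dgr ψ)| ≤
      ℓ * (h * (√ρ * √(∑ a, δ a ^ 2)) + C * h ^ 2) := by
  have := sc_orth N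
  have := prob_haarO N
  set μ : Measure (Orth N × Tor N) := (haarO N).prod volume with hμ
  have hcc := cls_cont hc
  set f : Orth N × Tor N → ℝ := fun p =>
    fro (An n (dm δ) (dgr ψ * (cx p.1 * (dg p.2 * 1 * dg p.2) * (cx p.1)⁻¹))) with hf
  have hcx : Continuous fun p : Orth N × Tor N => cx p.1 := cx_cont.comp continuous_fst
  have hdg : Continuous fun p : Orth N × Tor N => dg p.2 := dg_cont.comp continuous_snd
  have hU : Continuous fun p : Orth N × Tor N =>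
      (dgr ψ * (cx p.1 * (dg p.2 * 1 * dg p.2) * (cx p.1)⁻¹) : Uni N) := by
    have h1 : Continuous fun p : Orth N × Tor N => (dg p.2 * 1 : Uni N) :=
      Continuous.mul hdg continuous_const
    have h2 : Continuous fun p : Orth N × Tor N => (dg p.2 * 1 * dg p.2 : Uni N) :=
      Continuous.mul h1 hdg
    have h3 : Continuous fun p : Orth N × Tor N => (cx p.1 * (dg p.2 * 1 * dg p.2) : Uni N) :=
      Continuous.mul hcx h2
    have h4 : Continuous fun p : Orth N × Tor N => (cx p.1 * (dg p.2 * 1 * dg p.2) * (cx p.1)⁻¹ : Uni N) :=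
      Continuous.mul h3 (Continuous.inv hcx)
    exact Continuous.mul continuous_const h4
  have hA : Continuous fun p : Orth N × Tor N => ((dm δ,
      dgr ψ * (cx p.1 * (dg p.2 * 1 * dg p.2) * (cx p.1)⁻¹)) : Mat N × Uni N) :=
    Continuous.prodMk continuous_const hU
  have hB := (An_cont n).comp hA
  have hfc : Continuous f := froc.comp hB
  set g : (Fin N → ℝ) → Orth N × Tor N → ℝ := fun χ p =>
    c (dg p.2 * (cx p.1)⁻¹ * dgr χ * cx p.1 * dg p.2) with hg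
  have hgc : ∀ χ, Continuous (g χ) := by
    intro χ
    have h1 : Continuous fun p : Orth N × Tor N => (dg p.2 * (cx p.1)⁻¹ : Uni N) :=
      Continuous.mul hdg (Continuous.inv hcx)
    have h2 : Continuous fun p : Orth N × Tor N => (dg p.2 * (cx p.1)⁻¹ * dgr χ : Uni N) :=
      Continuous.mul h1 continuous_const
    have h3 : Continuous fun p : Orth N × Tor N => (dg p.2 * (cx p.1)⁻¹ * dgr χ * cx p.1 : Uni N) :=
      Continuous.mul h2 hcx
    have h4 : Continuous fun p : Orth N × Tor N =>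
        (dg p.2 * (cx p.1)⁻¹ * dgr χ * cx p.1 * dg p.2 : Uni N) := Continuous.mul h3 hdg
    exact Continuous.comp hcc h4
  have hlay : ∀ χ, lay c (dgr χ) = ∫ p, g χ p ∂μ := by
    intro χ
    unfold lay
    rw [hμ, integral_prod _ (AVG_int _ _ (hgc χ))]
  have hpt : ∀ p : Orth N × Tor N, |g (ψ + h • δ) p - g ψ p| ≤ ℓ * (h * f p + C * h ^ 2) := by
    rintro ⟨O, t⟩
    set V : Uni N := dg t * (cx O)⁻¹ with hV
    set W : Uni N := dg t * (cx O)⁻¹ * dgr ψ * cx O * dg t with hW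
    have e1 : dg t * (cx O)⁻¹ * dgr (ψ + h • δ) * cx O * dg t = V * dgr (h • δ) * V⁻¹ * W := by
      rw [add_comm ψ, t16_dgr_add, hV, hW]
      group
    have e2 : W = V * (dgr ψ * (cx O * (dg t * 1 * dg t) * (cx O)⁻¹)) * V⁻¹ := by
      rw [hV, hW, mul_one]
      group
    have h2 := hC V W h hh0 hh1
    have e3 : fro (An n (V.1 * dm δ * (V⁻¹ : Uni N).1) W) = f (O, t) := by
      rw [hf]
      simp only
      rw [← fro_An_conj n (dm δ) _ V, ← e2]
    rw [e3] at h2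
    change |c (dg t * (cx O)⁻¹ * dgr (ψ + h • δ) * cx O * dg t) - c W| ≤ _
    rw [e1]
    exact h2
  -- the second moment
  have hf2 : ∫ p, f p ^ 2 ∂μ ≤ ρ * ∑ a, δ a ^ 2 := by
    rw [hμ, integral_prod_symm (fun p => f p ^ 2) (AVG_int _ _ (hfc.pow 2))]
    exact hρ ψ
  have hf1 : ∫ p, f p ∂μ ≤ √(ρ * ∑ a, δ a ^ 2) := by
    set m := ∫ p, f p ∂μ with hm
    have hi1 : Integrable f μ := AVG_int _ _ hfc
    have hi2 : Integrable (fun p => f p ^ 2) μ := AVG_int _ _ (hfc.pow 2)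
    have h3 : m ^ 2 ≤ ∫ p, f p ^ 2 ∂μ := by
      have h4 : 0 ≤ ∫ p, (f p - m) ^ 2 ∂μ := integral_nonneg fun p => sq_nonneg _
      have h5 : ∫ p, (f p - m) ^ 2 ∂μ = (∫ p, f p ^ 2 ∂μ) - m ^ 2 := by
        have e : ∀ p, (f p - m) ^ 2 = f p ^ 2 - ((2 * m) * f p - m ^ 2) := fun p => by ring
        simp_rw [e]
        have hi4 : Integrable (fun p => 2 * m * f p) μ := hi1.const_mul (2 * m)
        have hi3 : Integrable (fun p => 2 * m * f p - m ^ 2) μ := hi4.sub (integrable_const (m ^ 2))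
        rw [integral_sub hi2 hi3, integral_sub hi4 (integrable_const _), integral_const_mul,
          integral_const, ← hm]
        simp only [probReal_univ, smul_eq_mul, one_mul]
        ring
      linarith
    exact Real.le_sqrt_of_sq_le (h3.trans hf2)
  have hsq : √(ρ * ∑ a, δ a ^ 2) = √ρ * √(∑ a, δ a ^ 2) := Real.sqrt_mul hρ0 _
  rw [hlay, hlay, ← integral_sub (AVG_int _ _ (hgc _)) (AVG_int _ _ (hgc _))]
  refine abs_integral_le_integral_abs.trans ?_
  have h5 : ∫ p, |g (ψ + h • δ) p - g ψ p| ∂μ ≤ ∫ p, ℓ * (h * f p + C * h ^ 2) ∂μ := by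
    refine integral_mono (AVG_int _ _ ((hgc _).sub (hgc _)).abs) (AVG_int _ _ ?_) fun p => hpt p
    fun_prop
  refine h5.trans ?_
  rw [integral_const_mul, integral_add (AVG_int _ _ (by fun_prop)) (integrable_const _),
    integral_const_mul, integral_const]
  simp only [probReal_univ, smul_eq_mul, one_mul]
  rw [← hsq]
  gcongr

theorem lay_path {N : ℕ} (ℓ ρ : ℝ) (c : Uni N → ℝ) (h0 : 0 ≤ ℓ) (hρ0 : 0 ≤ ρ) (hc : Cls ℓ c) (n : ℕ) (hn : 1 ≤ n)
    (hρ : ∀ φ δ : Fin N → ℝ, ∑ a, δ a = 0 →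
      ∫ t : Tor N, Psi n (dm δ) (dgr φ) (dg t * 1 * dg t) ≤ ρ * ∑ a, δ a ^ 2)
    (φ δ : Fin N → ℝ) :
    |lay c (dgr (φ + δ)) - lay c (dgr φ)| ≤ ℓ * √ρ * √(∑ a, δ a ^ 2) := by
  -- subtract the mean
  set κ : ℝ := (∑ a, δ a) / N with hκ
  set δ' : Fin N → ℝ := fun a => δ a - κ with hδ'
  have hsum : ∑ a, δ' a = 0 := by
    rw [hδ', Finset.sum_sub_distrib, Finset.sum_const, Finset.card_univ, Fintype.card_fin,
      nsmul_eq_mul, hκ]
    rcases Nat.eq_zero_or_pos N with hN | hN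
    · subst hN; simp
    · have : (N : ℝ) ≠ 0 := by exact_mod_cast hN.ne'
      field_simp
      ring
  have hsq : ∑ a, δ' a ^ 2 ≤ ∑ a, δ a ^ 2 := by
    have h1 : ∑ a, δ a ^ 2 = ∑ a, δ' a ^ 2 + N * κ ^ 2 := by
      have e : ∀ a, δ a ^ 2 = δ' a ^ 2 + (2 * κ * δ' a + κ ^ 2) := by
        intro a; simp only [hδ']; ring
      simp_rw [e]
      rw [Finset.sum_add_distrib, Finset.sum_add_distrib, ← Finset.mul_sum, hsum, Finset.sum_const,
        Finset.card_univ, Fintype.card_fin, nsmul_eq_mul]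
      ring
    have h2 : 0 ≤ (N : ℝ) * κ ^ 2 := by positivity
    linarith
  have hrot : lay c (dgr (φ + δ)) = lay c (dgr (φ + δ')) := by
    have e : φ + δ = (φ + δ') + fun _ => κ := by
      ext a; simp only [Pi.add_apply, hδ']; ring
    rw [e, t16_rot]
  rw [hrot]
  obtain ⟨C, hC0, hC⟩ := step1 (N := N) n hn (√(∑ a, δ' a ^ 2)) (Real.sqrt_nonneg _)
  have hstep := t16_step ℓ ρ c h0 hρ0 hc n δ' hsum (fun φ => hρ φ δ' hsum) C hC0
    (fun V W h hh0 hh1 => hC ℓ c h0 hc δ' le_rfl V W h hh0 hh1)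
  set A : ℝ := √ρ * √(∑ a, δ' a ^ 2) with hA
  -- k steps
  have hk : ∀ k : ℕ, 1 ≤ k → |lay c (dgr (φ + δ')) - lay c (dgr φ)| ≤ ℓ * (A + C * (1 / k)) := by
    intro k hk
    have hk0 : (0 : ℝ) < k := by exact_mod_cast hk
    have hk1 : 1 / (k : ℝ) ≤ 1 := by
      rw [div_le_one hk0]; exact_mod_cast hk
    set F : ℕ → ℝ := fun i => lay c (dgr (φ + ((i : ℝ) * (1 / k)) • δ')) with hF
    have h1 : ∀ i, |F (i + 1) - F i| ≤ ℓ * (1 / k * A + C * (1 / k) ^ 2) := by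
      intro i
      have := hstep (φ + ((i : ℝ) * (1 / k)) • δ') (1 / k) (by positivity) hk1
      have e : φ + ((i : ℝ) * (1 / k)) • δ' + (1 / (k : ℝ)) • δ' =
          φ + (((i + 1 : ℕ) : ℝ) * (1 / k)) • δ' := by
        rw [add_assoc, ← add_smul]
        congr 2
        push_cast; ring
      rw [e] at this
      exact this
    have h2 : F k - F 0 = ∑ i ∈ Finset.range k, (F (i + 1) - F i) :=
      (Finset.sum_range_sub F k).symm
    have e1 : F k = lay c (dgr (φ + δ')) := by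
      simp only [hF]
      have : (k : ℝ) * (1 / k) = 1 := by field_simp
      rw [this, one_smul]
    have e0 : F 0 = lay c (dgr φ) := by
      simp only [hF]
      simp
    rw [← e1, ← e0, h2]
    refine (Finset.abs_sum_le_sum_abs _ _).trans ?_
    calc ∑ i ∈ Finset.range k, |F (i + 1) - F i|
        ≤ ∑ _i ∈ Finset.range k, ℓ * (1 / k * A + C * (1 / k) ^ 2) :=
          Finset.sum_le_sum fun i _ => h1 i
      _ = ℓ * (A + C * (1 / k)) := by
        rw [Finset.sum_const, Finset.card_range, nsmul_eq_mul]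
        field_simp
  have hlim : Tendsto (fun k : ℕ => ℓ * (A + C * (1 / (k : ℝ)))) atTop (𝓝 (ℓ * (A + C * 0))) :=
    ((tendsto_one_div_atTop_nhds_zero_nat.const_mul C).const_add A).const_mul ℓ
  have hfin := ge_of_tendsto hlim (by
    filter_upwards [eventually_ge_atTop 1] with k hk1
    exact hk k hk1)
  rw [mul_zero, add_zero] at hfin
  refine hfin.trans ?_
  rw [hA, ← mul_assoc]
  gcongr

end Ty
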