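import Pool.Agent.LibTy70.T04
import Pool.Agent.LibTy70.T05
import Pool.Agent.LibTy70.T14
import Pool.Agent.LibTy70.T16

/-! Row T17: the layer operator on class functions. Plan: `lay_perm`: cx_perm, intO_left. `Lay_eq`: `W = V dg φ V⁻¹`,
`W = V' dg (eig W) V'⁻¹` (eig_spec): dg_conj_perm, lay_perm. `Lay_sym`: sym_diag, intO_left (O → R O): 
`lay c ((cx R)⁻¹ dg φ cx R) = lay c (dg φ)`. `Lay_cls`: conj: Lay_eq. Lipschitz: hoff, Lay_eq, lay_path with T14 `gl_t` (`K = dm δ` is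
Hermitian, trace 0; `X = dgr φ` symmetric, `Y = 1`), constant `π/2 √ρ`. `Lay_haar`: Lay_sym (sy A is symmetric),
`dg t (cx O)⁻¹ sy A cx O dg t = sy (A cx O dg t)`, Fubini, intU_right. -/

open MeasureTheory Set Filter Topology

namespace Ty

open QGr

theorem t17_lay_cx {N : ℕ} (c : Uni N → ℝ) (R : Orth N) (W : Uni N) :
    lay c (cx R * W * (cx R)⁻¹) = lay c W := by
  have h := intO_left (N := N) R⁻¹ fun O : Orth N =>
    ∫ t : Tor N, c (dg t * (cx O)⁻¹ * W * cx O * dg t)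
  unfold lay
  rw [← h]
  refine integral_congr_ae (Eventually.of_forall fun O => ?_)
  simp only
  refine integral_congr_ae (Eventually.of_forall fun t => ?_)
  simp only
  congr 1
  rw [cx_mul, ← cx_inv]
  group

theorem Lay_eq {N : ℕ} (c : Uni N → ℝ) (V : Uni N) (φ : Tor N) :
    Lay c (V * dg φ * V⁻¹) = lay c (dg φ) := by
  obtain ⟨V', hV'⟩ := eig_spec (V * dg φ * V⁻¹)
  unfold Lay
  set e := eig (V * dg φ * V⁻¹) with he
  have h1 : dg e = (V'⁻¹ * V) * dg φ * (V'⁻¹ * V)⁻¹ := by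
    have h2 : V'⁻¹ * (V * dg φ * V⁻¹) * V' = dg e := by
      rw [hV']
      group
    rw [← h2]
    group
  obtain ⟨σ, hσ⟩ := dg_conj_perm e φ _ h1
  obtain ⟨R, hR⟩ := cx_perm (N := N) σ
  have h3 : e = fun a => φ (σ a) := funext hσ
  rw [h3, ← hR φ, t17_lay_cx]

theorem Lay_sym {N : ℕ} (c : Uni N → ℝ) (W : Uni N) (hW : Sym W) : Lay c W = lay c W := by
  obtain ⟨R, φ, h⟩ := sym_diag W hW
  have h1 : W = (cx R⁻¹) * dg φ * (cx R⁻¹)⁻¹ := by
    rw [← cx_inv, inv_inv]
    exact h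
  rw [h1, Lay_eq, t17_lay_cx]

theorem t17_fc (N : ℕ) : FirstCountableTopology (Uni N) := AVG_fc N

theorem t17_fcO (N : ℕ) : FirstCountableTopology (Orth N) := by
  have := sc_orth N
  infer_instance

theorem t17_swap {X Y : Type} [TopologicalSpace X] [CompactSpace X] [MeasurableSpace X]
    [OpensMeasurableSpace X] [TopologicalSpace Y] [CompactSpace Y] [MeasurableSpace Y]
    [OpensMeasurableSpace Y] (μ : Measure X) (ν : Measure Y) [IsFiniteMeasure μ] [IsFiniteMeasure ν]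
    (F : X → Y → ℝ) (hF : Continuous (Function.uncurry F)) :
    ∫ x, (∫ y, F x y ∂ν) ∂μ = ∫ y, (∫ x, F x y ∂μ) ∂ν :=
  integral_integral_swap_of_hasCompactSupport hF (HasCompactSupport.of_compactSpace _)

theorem t17_parcont {X Y : Type} [TopologicalSpace X] [CompactSpace X] [T2Space X] [FirstCountableTopology X]
    [TopologicalSpace Y] [CompactSpace Y] [MeasurableSpace Y]
    [OpensMeasurableSpace Y] (ν : Measure Y) [IsFiniteMeasure ν]
    (F : X → Y → ℝ) (hF : Continuous (Function.uncurry F)) :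
    Continuous fun x => ∫ y, F x y ∂ν := by
  have h2 := continuous_parametric_integral_of_continuous (μ := ν) hF
    (isCompact_univ (X := Y))
  simp only [Measure.restrict_univ] at h2
  exact h2

theorem Lay_haar {N : ℕ} (c : Uni N → ℝ) (hc : Continuous c) :
    ∫ A : Uni N, Lay c (sy A) ∂(haarU N) = ∫ A : Uni N, c (sy A) ∂(haarU N) := by
  have := t17_fc N
  have := t17_fcO N
  have := haar_prob N
  have := prob_haarO N
  have h1 : ∀ A : Uni N, Lay c (sy A) =
      ∫ O : Orth N, ∫ t : Tor N, c (sy (A * (cx O * dg t))) ∂(volume : Measure (Tor N)) ∂(haarO N) := by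
    intro A
    rw [Lay_sym c _ (sy_sym A)]
    unfold lay
    refine integral_congr_ae (Eventually.of_forall fun O => ?_)
    simp only
    refine integral_congr_ae (Eventually.of_forall fun t => ?_)
    simp only
    rw [← mul_assoc A, sy_dg, sy_cx]
    simp only [mul_assoc]
  simp only [h1]
  have hg : Continuous fun q : (Uni N × Orth N) × Tor N => c (sy (q.1.1 * (cx q.1.2 * dg q.2))) := by
    refine hc.comp (sy_cont.comp ?_)
    exact (continuous_fst.comp continuous_fst).mul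
      ((cx_cont.comp (continuous_snd.comp continuous_fst)).mul (dg_cont.comp continuous_snd))
  have hF : Continuous (Function.uncurry fun (A : Uni N) (O : Orth N) =>
      ∫ t : Tor N, c (sy (A * (cx O * dg t))) ∂(volume : Measure (Tor N))) :=
    t17_parcont (X := Uni N × Orth N) (volume : Measure (Tor N))
      (fun q t => c (sy (q.1 * (cx q.2 * dg t)))) hg
  rw [t17_swap (haarU N) (haarO N) _ hF]
  have h2 : ∀ O : Orth N, ∫ A : Uni N, (∫ t : Tor N, c (sy (A * (cx O * dg t))) ∂(volume : Measure (Tor N)))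
      ∂(haarU N) = ∫ A : Uni N, c (sy A) ∂(haarU N) := by
    intro O
    have hG : Continuous (Function.uncurry fun (A : Uni N) (t : Tor N) => c (sy (A * (cx O * dg t)))) := by
      refine hc.comp (sy_cont.comp ?_)
      exact continuous_fst.mul (continuous_const.mul (dg_cont.comp continuous_snd))
    rw [t17_swap (haarU N) (volume : Measure (Tor N)) _ hG]
    have h3 : ∀ t : Tor N, ∫ A : Uni N, c (sy (A * (cx O * dg t))) ∂(haarU N) =
        ∫ A : Uni N, c (sy A) ∂(haarU N) := fun t =>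
      intU_right (cx O * dg t) fun A => c (sy A)
    simp only [h3]
    simp
  simp only [h2]
  simp

theorem Lay_cls : ∃ C : ℝ, 0 < C ∧ ∀ N : ℕ, 2 ≤ N → ∀ (ℓ : ℝ) (c : Uni N → ℝ), 0 ≤ ℓ → Cls ℓ c →
    Cls (C * (N : ℝ) ^ (-(1 / 12) : ℝ) * ℓ) (Lay c) := by
  obtain ⟨C1, hC1, hgl⟩ := gl_t
  refine ⟨Real.pi / 2 * √C1 + 1, by positivity, fun N hN ℓ c hℓ hc => ?_⟩
  have hN0 : (0 : ℝ) < N := by
    have : 0 < N := by omega
    exact_mod_cast this
  constructor
  · intro V W
    obtain ⟨V', φ, h⟩ := diag_ex W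
    have h1 : V * W * V⁻¹ = (V * V') * dg φ * (V * V')⁻¹ := by
      rw [h]
      group
    rw [h1, Lay_eq, h, Lay_eq]
  · intro A B
    obtain ⟨V, V', φ, δ, hA, hB, -, -, hδ⟩ := hoff A B
    have h1 : Lay c A = lay c (dgr φ) := by
      rw [hA]
      exact Lay_eq c V _
    have h2 : Lay c B = lay c (dgr (φ + δ)) := by
      rw [hB]
      exact Lay_eq c V' _
    set ρ : ℝ := C1 * (N : ℝ) ^ (-(1 / 6) : ℝ) with hρdef
    have hρ0 : 0 ≤ ρ := by positivity
    have hn : 1 ≤ nn N := by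
      unfold nn
      rw [Nat.one_le_ceil_iff]
      positivity
    have hsym1 : Sym (1 : Uni N) := by
      unfold Sym
      simp
    have hρ : ∀ φ δ : Fin N → ℝ, ∑ a, δ a = 0 →
        ∫ t : Tor N, Psi (nn N) (dm δ) (dgr φ) (dg t * 1 * dg t) ≤ ρ * ∑ a, δ a ^ 2 := by
      intro φ δ h0
      have hH : (dm δ).IsHermitian := by
        unfold dm
        rw [Matrix.IsHermitian, Matrix.diagonal_conjTranspose]
        congr 1
        funext a
        simp
      have ht : (dm δ).trace = 0 := by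
        unfold dm
        rw [Matrix.trace_diagonal, ← Complex.ofReal_sum, h0, Complex.ofReal_zero]
      have h3 := hgl N hN (dm δ) hH ht (dgr φ) 1 (sym_dg _) hsym1
      have h4 : fro (dm δ) ^ 2 = ∑ a, δ a ^ 2 := by
        rw [fro_dm, Real.sq_sqrt]
        exact Finset.sum_nonneg fun a _ => by positivity
      rw [h4] at h3
      exact h3
    have h3 := lay_path ℓ ρ c hℓ hρ0 hc (nn N) hn hρ φ δ
    have h4 : √ρ = √C1 * (N : ℝ) ^ (-(1 / 12) : ℝ) := by
      rw [hρdef, Real.sqrt_mul hC1, Real.sqrt_eq_rpow ((N : ℝ) ^ (-(1 / 6) : ℝ)), ← Real.rpow_mul hN0.le]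
      norm_num
    rw [h1, h2, abs_sub_comm]
    have h5 : 0 ≤ ℓ * √ρ := by positivity
    have h6 : (0 : ℝ) ≤ (N : ℝ) ^ (-(1 / 12) : ℝ) := by positivity
    calc |lay c (dgr (φ + δ)) - lay c (dgr φ)| ≤ ℓ * √ρ * √(∑ a, δ a ^ 2) := h3
      _ ≤ ℓ * √ρ * (Real.pi / 2 * √(ds A B)) := mul_le_mul_of_nonneg_left hδ h5
      _ = (Real.pi / 2 * √C1) * ((N : ℝ) ^ (-(1 / 12) : ℝ) * ℓ * √(ds A B)) := by rw [h4]; ring
      _ ≤ (Real.pi / 2 * √C1 + 1) * ((N : ℝ) ^ (-(1 / 12) : ℝ) * ℓ * √(ds A B)) :=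
          mul_le_mul_of_nonneg_right (by linarith) (by positivity)
      _ = (Real.pi / 2 * √C1 + 1) * (N : ℝ) ^ (-(1 / 12) : ℝ) * ℓ * √(ds A B) := by ring

end Ty
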