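import Pool.Agent.LibTy70.Defs
import Pool.Agent.LibQGr.R_LIM
import Pool.Agent.LibQGr.R_ENU
import Pool.Agent.LibQGr.R_PHS

/-! Row V01: local functionals at zero are continuous functions of the matrix. Plan: `Lw_shift`: shifting the index of the
sequence does not change the `finsum` (`finsum_comp_equiv`). `Lw_phases`: `phases_unique` (R_ENU) and `Lw_shift`. `Lw_cont`: as
`loc_cont` in R_LIM (ultrafilter compactness, `dia_lim`, `dia_phases`): along an ultrafilter the listings converge pointwise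
(after the choice of representatives with bounded sums), and `Lw` of a listing is a finite sum over a fixed
finite set of indices, since `y (q + N k) = y q + N k` and `η` has compact support; every term is continuous. -/

open MeasureTheory Set Filter Topology

namespace Ty

open QGr

theorem Lw_shift (M : ℕ) (η : ℝ → ℝ) (h : (Fin (2 * M + 1) → ℝ) → ℝ) (y : ℤ → ℝ) (s : ℤ) :
    Lw M η h (fun q => y (q + s)) = Lw M η h y := by
  unfold Lw
  refine Eq.trans (finsum_congr fun q => ?_) (finsum_comp_equiv (Equiv.addRight s)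
    (f := fun q : ℤ => η (y q) * h fun t => y (q + (t : ℕ) - M) - y q))
  rw [Equiv.coe_addRight]
  show η (y (q + s)) * h (fun t => y (q + (t : ℕ) - M + s) - y (q + s)) =
    η (y (q + s)) * h (fun t => y (q + s + (t : ℕ) - M) - y (q + s))
  congr 2
  funext t
  have h3 : q + ((t : ℕ) : ℤ) - (M : ℤ) + s = q + s + ((t : ℕ) : ℤ) - (M : ℤ) := by ring
  rw [h3]

theorem Lw_phases {N : ℕ} (hN : 0 < N) (M : ℕ) (η : ℝ → ℝ) (h : (Fin (2 * M + 1) → ℝ) → ℝ)
    (W : Matrix (Fin N) (Fin N) ℂ) (y : ℤ → ℝ) (hy : IsPhases W y) :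
    Lw M η h y = Lw M η h (phases W) := by
  have h1 : IsPhases W (phases W) := Classical.epsilon_spec (p := IsPhases W) ⟨y, hy⟩
  obtain ⟨s, hs⟩ := phases_unique hN W y (phases W) hy h1
  have h2 : phases W = fun p => y (p + s) := funext hs
  rw [h2, Lw_shift]

theorem v01_sum {N : ℕ} (hN : 0 < N) (M : ℕ) (η : ℝ → ℝ) (b : ℝ)
    (hb : ∀ x, b < |x| → η x = 0) (h : (Fin (2 * M + 1) → ℝ) → ℝ) (C : ℝ) (K : ℕ)
    (hK : b + C < N * K) (y : ℤ → ℝ) (hm : Monotone y) (hp : ∀ p, y (p + N) = y p + N)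
    (h0 : |y 0| ≤ C) :
    Lw M η h y = ∑ q ∈ Finset.Icc (-((K : ℤ) * N)) ((K : ℤ) * N),
      η (y q) * h fun s => y (q + (s : ℕ) - M) - y q := by
  unfold Lw
  refine finsum_eq_sum_of_support_subset _ fun q hq => ?_
  rw [Function.mem_support] at hq
  rw [Finset.coe_Icc, mem_Icc]
  by_contra hcon
  apply hq
  have h1 := ENU_per y hp K
  have h2 := ENU_per y hp (-K)
  have h0' := abs_le.1 h0
  have hb' : b < |y q| := by
    rw [not_and_or, not_le, not_le] at hcon
    rcases hcon with hc | hc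
    · have h3 : y q ≤ y (-(K : ℤ) * N) := hm (by linarith)
      rw [h2] at h3
      push_cast at h3
      rw [lt_abs]
      right
      linarith
    · have h3 : y ((K : ℤ) * N) ≤ y q := hm hc.le
      rw [h1] at h3
      push_cast at h3
      rw [lt_abs]
      left
      linarith
  rw [hb _ hb', zero_mul]

theorem Lw_cont {N : ℕ} (hN : 0 < N) (M : ℕ) (η : ℝ → ℝ) (hη : Continuous η) (b : ℝ)
    (hb : ∀ x, b < |x| → η x = 0) (h : (Fin (2 * M + 1) → ℝ) → ℝ) (hh : Continuous h) :
    Continuous fun W : Uni N => Lw M η h (phases W.1) := by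
  choose F hF hsum using fun W : Uni N => dia_exists hN W _ (LIM_det W)
  have heq : ∀ W : Uni N, Lw M η h (fun p => -(N / (2 * Real.pi)) * F W (-p)) =
      Lw M η h (phases W.1) :=
    fun W => Lw_phases hN M η h W.1 _ (dia_phases hN W (F W) (hF W))
  have hNr : (0 : ℝ) < N := by exact_mod_cast hN
  obtain ⟨K, hK⟩ := exists_nat_gt (b + 2 * N)
  have hK' : b + 2 * N < N * K := by
    have h1 : (1 : ℝ) ≤ N := by exact_mod_cast hN
    have h2 : (0 : ℝ) ≤ K := Nat.cast_nonneg K
    nlinarith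
  have hbd : ∀ (G : ℤ → ℝ), (∀ p q, p ≤ q → G p ≤ G q) → (∀ p, G (p + N) = G p + 2 * Real.pi) →
      |∑ a ∈ Finset.range N, G a| ≤ Real.pi → |-(N / (2 * Real.pi)) * G (-0)| ≤ 2 * N := by
    intro G hm hp hs
    have h1 := LIM_bound hN G hm hp Real.pi hs 0
    simp only [Int.natAbs_zero, Nat.cast_zero, mul_zero, sub_zero, add_zero, mem_Icc] at h1
    have hpi := Real.pi_pos
    rw [neg_zero, abs_mul, abs_neg, abs_of_pos (by positivity)]
    have h2 : |G 0| ≤ 3 * Real.pi := by
      rw [abs_le]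
      constructor <;> linarith [h1.1, h1.2]
    calc N / (2 * Real.pi) * |G 0| ≤ N / (2 * Real.pi) * (3 * Real.pi) := by gcongr
      _ = 3 / 2 * N := by field_simp
      _ ≤ 2 * N := by linarith
  rw [continuous_iff_continuousAt]
  intro W₀
  change Tendsto (fun W : Uni N => Lw M η h (phases W.1)) (𝓝 W₀) (𝓝 (Lw M η h (phases W₀.1)))
  rw [tendsto_iff_ultrafilter]
  intro 𝒰 h𝒰
  have hb1 : ∀ W : Uni N, |∑ a ∈ Finset.range N, F W a| ≤ Real.pi := fun W => by
    rw [hsum W]
    exact Complex.abs_arg_le_pi _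
  obtain ⟨F₀, hD, hlim⟩ := LIM_dia_lim hN 𝒰 (fun W => W) W₀ (tendsto_id.mono_left h𝒰) F hF _
    (Eventually.of_forall hb1)
  have hb0 : |∑ a ∈ Finset.range N, F₀ a| ≤ Real.pi := by
    have h1 : Tendsto (fun W => |∑ a ∈ Finset.range N, F W a|) 𝒰
        (𝓝 |∑ a ∈ Finset.range N, F₀ a|) :=
      (tendsto_finsetSum (Finset.range N) fun a _ => hlim (a : ℤ)).abs
    exact le_of_tendsto' h1 hb1
  rw [← Lw_phases hN M η h W₀.1 _ (dia_phases hN W₀ F₀ hD)]
  refine Tendsto.congr (fun W => heq W) ?_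
  have hP : ∀ W : Uni N, IsPhases W.1 (fun p => -(N / (2 * Real.pi)) * F W (-p)) :=
    fun W => dia_phases hN W (F W) (hF W)
  have hP0 := dia_phases hN W₀ F₀ hD
  rw [v01_sum hN M η b hb h (2 * N) K hK' _ hP0.mono hP0.per
    (hbd F₀ (fun p q hpq => hD.mono hpq) hD.per hb0)]
  refine Tendsto.congr (fun W => (v01_sum hN M η b hb h (2 * N) K hK' _ (hP W).mono (hP W).per
    (hbd (F W) (fun p q hpq => (hF W).mono hpq) (hF W).per (hb1 W))).symm) ?_
  refine tendsto_finsetSum _ fun q _ => ?_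
  refine Tendsto.mul ?_ ?_
  · exact (hη.tendsto _).comp ((hlim _).const_mul _)
  · refine (hh.tendsto _).comp ?_
    refine tendsto_pi_nhds.2 fun s => ?_
    exact ((hlim _).const_mul _).sub ((hlim _).const_mul _)

end Ty
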