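import Pool.Agent.LibTy70.T03
import Pool.Agent.LibQGr.R_SLG

/-! Row V06: simultaneous limit points of the difference quotients of all eigenphases. Plan: copy `SLG_fin` (R_SLG): for `k` near `k₀`
`W k = V k diag(e^{iF_a k}) (V k)^*`; along the ultrafilter `V k → V` (compactness, dia_lim has the argument). For every column
`a`: `W k v_a(k) = e^{iF_a(k)} v_a(k)`; pair `(W k - W k₀)/(k - k₀) v_a(k)` with `v_a = lim v_a(k)`, an eigenvector of `W k₀`. -/

open MeasureTheory Set Filter Topology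

namespace Ty

open QGr

theorem slope_joint {N : ℕ} (hN : 0 < N) (W : ℝ → Uni N) (W' : Mat N) (k₀ : ℝ) (hW : Continuous W)
    (hd : ∀ i j, HasDerivAt (fun k => (W k).1 i j) (W' i j) k₀)
    (F : ℤ → ℝ → ℝ) (hF : ∀ p, Continuous (F p)) (hD : ∀ k, Dia (W k) fun p => F p k)
    (𝒰 : Ultrafilter ℝ) (h𝒰 : (𝒰 : Filter ℝ) ≤ 𝓝[≠] k₀) :
    ∃ (V : Uni N) (s : Fin N → ℝ),
      (W k₀).1 = V.1 * (Matrix.diagonal fun a : Fin N => Complex.exp (F (a : ℕ) k₀ * Complex.I)) *
        V.1.conjTranspose ∧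
      ∀ a : Fin N, Tendsto (fun k => (F (a : ℕ) k - F (a : ℕ) k₀) / (k - k₀)) 𝒰 (𝓝 (s a)) ∧
        (s a : ℂ) * Complex.I * Complex.exp (F (a : ℕ) k₀ * Complex.I) =
          star (fun i => V.1 i a) ⬝ᵥ W'.mulVec fun i => V.1 i a := by
  have hle : (𝒰 : Filter ℝ) ≤ 𝓝 k₀ := h𝒰.trans nhdsWithin_le_nhds
  choose V hV using fun k => (hD k).dia
  set e : ℝ → Fin N → ℂ := fun k a => Complex.exp (F (a : ℕ) k * Complex.I) with he
  have hVk : ∀ k, (W k).1 = (V k).1 * Matrix.diagonal (e k) * (V k).1.conjTranspose := hV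
  have hun : ∀ U : Uni N, U.1.conjTranspose * U.1 = 1 := fun U => by
    have := U.2
    rwa [Matrix.mem_unitaryGroup_iff'] at this
  -- limit of the eigenbases
  obtain ⟨V0, hV0⟩ : ∃ V0, Tendsto V 𝒰 (𝓝 V0) := by
    obtain ⟨V0, -, h0⟩ := isCompact_univ.ultrafilter_le_nhds (𝒰.map V) (by simp)
    exact ⟨V0, h0⟩
  have hV0e : ∀ i j, Tendsto (fun k => (V k).1 i j) 𝒰 (𝓝 (V0.1 i j)) := by
    intro i j
    have hc : Continuous fun U : Uni N => U.1 i j :=
      (continuous_apply j).comp ((continuous_apply i).comp continuous_subtype_val)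
    exact (hc.tendsto V0).comp hV0
  have hWe : ∀ i j, Tendsto (fun k => (W k).1 i j) 𝒰 (𝓝 ((W k₀).1 i j)) := fun i j =>
    (hd i j).continuousAt.tendsto.mono_left hle
  have hee : ∀ c, Tendsto (fun k => e k c) 𝒰 (𝓝 (e k₀ c)) := by
    intro c
    have hc : Continuous fun k => e k c := by
      simp only [he]
      exact Complex.continuous_exp.comp
        ((Complex.continuous_ofReal.comp (hF _)).mul continuous_const)
    exact (hc.tendsto k₀).mono_left hle
  have hW0 : (W k₀).1 = V0.1 * Matrix.diagonal (e k₀) * V0.1.conjTranspose := by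
    ext i j
    refine tendsto_nhds_unique (hWe i j) ?_
    have h1 : ∀ k, (W k).1 i j = ∑ r, (V k).1 i r * e k r * star ((V k).1 j r) := by
      intro k
      rw [hVk k, Matrix.mul_apply]
      refine Finset.sum_congr rfl fun r _ => ?_
      rw [Matrix.mul_diagonal, Matrix.conjTranspose_apply]
    have h2 : (V0.1 * Matrix.diagonal (e k₀) * V0.1.conjTranspose) i j
        = ∑ r, V0.1 i r * e k₀ r * star (V0.1 j r) := by
      rw [Matrix.mul_apply]
      refine Finset.sum_congr rfl fun r _ => ?_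
      rw [Matrix.mul_diagonal, Matrix.conjTranspose_apply]
    rw [h2]
    simp only [h1]
    refine tendsto_finsetSum _ fun r _ => ?_
    exact ((hV0e i r).mul (hee r)).mul ((continuous_star.tendsto _).comp (hV0e j r))
  have hWk : ∀ k, (W k).1 * (V k).1 = (V k).1 * Matrix.diagonal (e k) := by
    intro k
    rw [hVk k, Matrix.mul_assoc, hun, Matrix.mul_one]
  have hW0l : V0.1.conjTranspose * (W k₀).1 = Matrix.diagonal (e k₀) * V0.1.conjTranspose := by
    rw [hW0, ← Matrix.mul_assoc, ← Matrix.mul_assoc, hun, Matrix.one_mul]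
  have hq : ∀ i j, Tendsto (fun k : ℝ => ((W k).1 i j - (W k₀).1 i j) / ((k - k₀ : ℝ) : ℂ)) 𝒰
      (𝓝 (W' i j)) := by
    intro i j
    have h1 := (hasDerivAt_iff_tendsto_slope.1 (hd i j)).mono_left h𝒰
    refine h1.congr fun k => ?_
    rw [slope_def_module, Complex.real_smul, Complex.ofReal_inv, div_eq_inv_mul]
  have main : ∀ c : Fin N, ∃ s : ℝ,
      Tendsto (fun k => (F (c : ℕ) k - F (c : ℕ) k₀) / (k - k₀)) 𝒰 (𝓝 s) ∧
        (s : ℂ) * Complex.I * Complex.exp (F (c : ℕ) k₀ * Complex.I) =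
          star (fun i => V0.1 i c) ⬝ᵥ W'.mulVec fun i => V0.1 i c := by
    intro c
    have hid : ∀ k, (V0.1.conjTranspose * ((W k).1 - (W k₀).1) * (V k).1) c c
        = (V0.1.conjTranspose * (V k).1) c c * (e k c - e k₀ c) := by
      intro k
      rw [Matrix.mul_sub, Matrix.sub_mul, Matrix.mul_assoc, hWk, ← Matrix.mul_assoc, hW0l,
        Matrix.mul_assoc (Matrix.diagonal (e k₀)), Matrix.sub_apply, Matrix.mul_diagonal,
        Matrix.diagonal_mul]
      ring
    have hL : Tendsto (fun k : ℝ => (V0.1.conjTranspose * ((W k).1 - (W k₀).1) * (V k).1) c c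
        / ((k - k₀ : ℝ) : ℂ)) 𝒰 (𝓝 ((V0.1.conjTranspose * W' * V0.1) c c)) := by
      have h1 : ∀ k : ℝ, (V0.1.conjTranspose * ((W k).1 - (W k₀).1) * (V k).1) c c
          / ((k - k₀ : ℝ) : ℂ)
          = ∑ j, ∑ i, star (V0.1 i c) * (((W k).1 i j - (W k₀).1 i j) / ((k - k₀ : ℝ) : ℂ))
              * (V k).1 j c := by
        intro k
        rw [Matrix.mul_apply, Finset.sum_div]
        refine Finset.sum_congr rfl fun j _ => ?_
        rw [Matrix.mul_apply, Finset.sum_mul, Finset.sum_div]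
        refine Finset.sum_congr rfl fun i _ => ?_
        rw [Matrix.conjTranspose_apply, Matrix.sub_apply]
        ring
      have h2 : (V0.1.conjTranspose * W' * V0.1) c c
          = ∑ j, ∑ i, star (V0.1 i c) * W' i j * V0.1 j c := by
        rw [Matrix.mul_apply]
        refine Finset.sum_congr rfl fun j _ => ?_
        rw [Matrix.mul_apply, Finset.sum_mul]
        refine Finset.sum_congr rfl fun i _ => ?_
        rw [Matrix.conjTranspose_apply]
      rw [h2]
      simp only [h1]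
      refine tendsto_finsetSum _ fun j _ => tendsto_finsetSum _ fun i _ => ?_
      exact (tendsto_const_nhds.mul (hq i j)).mul (hV0e j c)
    set τ : ℂ := (V0.1.conjTranspose * W' * V0.1) c c with hτ
    have hO : Tendsto (fun k => (V0.1.conjTranspose * (V k).1) c c) 𝒰 (𝓝 1) := by
      have h1 : ∀ k, (V0.1.conjTranspose * (V k).1) c c = ∑ i, star (V0.1 i c) * (V k).1 i c := by
        intro k
        rw [Matrix.mul_apply]
        rfl
      have h2 : (1 : ℂ) = ∑ i, star (V0.1 i c) * V0.1 i c := by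
        have := congrFun (congrFun (hun V0) c) c
        rw [Matrix.mul_apply, Matrix.one_apply_eq] at this
        exact this.symm
      rw [h2]
      simp only [h1]
      exact tendsto_finsetSum _ fun i _ => tendsto_const_nhds.mul (hV0e i c)
    have hne0 : Complex.I * e k₀ c ≠ 0 := mul_ne_zero Complex.I_ne_zero (Complex.exp_ne_zero _)
    have hexp : Tendsto (fun k : ℝ => (e k c - e k₀ c) / ((k - k₀ : ℝ) : ℂ)) 𝒰
        (𝓝 (Complex.I * e k₀ c * (τ / (Complex.I * e k₀ c)))) := by
      have h1 := hL.div hO one_ne_zero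
      rw [div_one] at h1
      have hne : ∀ᶠ k in (𝒰 : Filter ℝ), (V0.1.conjTranspose * (V k).1) c c ≠ 0 :=
        hO.eventually_ne one_ne_zero
      rw [mul_div_cancel₀ _ hne0]
      refine h1.congr' ?_
      filter_upwards [hne] with k hk
      simp only [Pi.div_apply]
      rw [hid k, mul_div_assoc, mul_comm, mul_div_assoc, div_self hk, mul_one]
    obtain ⟨hs1, hs2⟩ := SLG_exp 𝒰 k₀ h𝒰 (F (c : ℕ)) (hF _) _ hexp
    refine ⟨_, hs1, ?_⟩
    rw [hs2]
    have h1 : τ / (Complex.I * e k₀ c) * Complex.I * e k₀ c = τ := by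
      rw [mul_assoc, div_mul_cancel₀ _ hne0]
    change τ / (Complex.I * e k₀ c) * Complex.I * e k₀ c = _
    rw [h1, hτ, Matrix.mul_assoc]
    simp only [Matrix.mul_apply, dotProduct, Matrix.mulVec]
    rfl
  choose s hs1 hs2 using main
  exact ⟨V0, s, hW0, fun a => ⟨hs1 a, hs2 a⟩⟩

end Ty
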